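import Mathlib

/-!
# Cyclic groups of prime order acting on torsion free groups
-/

set_option autoImplicit false

namespace Pool.Agent.J4H9.Bez

open Polynomial

/-- Bezout's identity over the integers for polynomials which are coprime over `ℚ`. -/
theorem exists_bezout (A Φ : ℤ[X]) (hΦ : Irreducible (Φ.map (Int.castRingHom ℚ)))
    (h : ¬ Φ.map (Int.castRingHom ℚ) ∣ A.map (Int.castRingHom ℚ)) :
    ∃ (n : ℤ) (U V : ℤ[X]), n ≠ 0 ∧ U * A + V * Φ = C n := by
  have hcop : IsCoprime (A.map (Int.castRingHom ℚ)) (Φ.map (Int.castRingHom ℚ)) :=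
    ((hΦ.coprime_iff_not_dvd).2 h).symm
  obtain ⟨a, b, hab⟩ := hcop
  obtain ⟨m, hm, hm2⟩ := IsLocalization.integerNormalization_spec (nonZeroDivisors ℤ) a
  obtain ⟨n, hn, hn2⟩ := IsLocalization.integerNormalization_spec (nonZeroDivisors ℤ) b
  set P := IsLocalization.integerNormalization (nonZeroDivisors ℤ) a
  set Q := IsLocalization.integerNormalization (nonZeroDivisors ℤ) b
  refine ⟨m * n, C n * P, C m * Q, mul_ne_zero (nonZeroDivisors.ne_zero hm)
    (nonZeroDivisors.ne_zero hn), ?_⟩
  apply Polynomial.map_injective (Int.castRingHom ℚ) (Int.castRingHom ℚ).injective_int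
  have e : (algebraMap ℤ ℚ) = Int.castRingHom ℚ := RingHom.ext_int _ _
  rw [e] at hm2 hn2
  have h1 : m • a = C (m : ℚ) * a := by
    rw [zsmul_eq_mul]
    simp
  have h2 : n • b = C (n : ℚ) * b := by
    rw [zsmul_eq_mul]
    simp
  rw [Polynomial.map_add, Polynomial.map_mul, Polynomial.map_mul, Polynomial.map_mul,
    Polynomial.map_mul, map_C, map_C, map_C]
  have h3 : P.map (Int.castRingHom ℚ) = C (m : ℚ) * a := by
    rw [← h1]
    exact hm2
  have h4 : Q.map (Int.castRingHom ℚ) = C (n : ℚ) * b := by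
    rw [← h2]
    exact hn2
  rw [h3, h4]
  simp only [eq_intCast, Int.cast_mul, C_mul]
  linear_combination (C (m : ℚ) * C (n : ℚ)) * hab

/-- **Relations under an automorphism of prime order.** -/
theorem cyc_lemma {W : Type*} [AddCommGroup W] (htf : ∀ (n : ℤ) (v : W), n ≠ 0 → n • v = 0 → v = 0)
    (T : Module.End ℤ W) {r : ℕ} (hr : r.Prime) (a : ℕ → ℤ) (w₀ : W) (hT : (T ^ r) w₀ = w₀)
    (hrel : ∑ k ∈ Finset.range r, a k • (T ^ k) (T w₀ - w₀) = 0) :
    T w₀ = w₀ ∨ ∀ k < r, a k = a 0 := by
  have : Fact r.Prime := ⟨hr⟩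
  set A : ℤ[X] := ∑ k ∈ Finset.range r, C (a k) * X ^ k with hA
  set v := T w₀ - w₀ with hv
  have hAv : (aeval T A) v = 0 := by
    rw [hA, map_sum, ← hrel, LinearMap.sum_apply]
    refine Finset.sum_congr rfl fun k _ => ?_
    rw [map_mul, map_pow, aeval_X, aeval_C, Module.End.mul_apply, Module.algebraMap_end_apply]
  have hΦ : (aeval T (cyclotomic r ℤ)) v = 0 := by
    have h1 : aeval T (cyclotomic r ℤ * (X - 1)) = T ^ r - 1 := by
      rw [cyclotomic_prime, geom_sum_mul]
      simp
    rw [map_mul, map_sub, aeval_X, map_one] at h1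
    have h2 := congrArg (fun f : Module.End ℤ W => f w₀) h1
    simp only [Module.End.mul_apply, LinearMap.sub_apply, Module.End.one_apply] at h2
    rw [hT, sub_self] at h2
    exact h2
  by_cases hd : (cyclotomic r ℤ).map (Int.castRingHom ℚ) ∣ A.map (Int.castRingHom ℚ)
  · right
    -- `A` is a multiple
    obtain ⟨B, hB⟩ := hd
    have hdegA : (A.map (Int.castRingHom ℚ)).natDegree < r := by
      refine lt_of_le_of_lt natDegree_map_le ?_
      rw [hA]
      refine lt_of_le_of_lt (natDegree_sum_le_of_forall_le _ _ (n := r - 1) fun k hk => ?_) ?_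
      · refine (natDegree_C_mul_X_pow_le _ _).trans ?_
        have := Finset.mem_range.1 hk
        omega
      · have := hr.pos
        omega
    have hcoef : ∀ k < r, (A.map (Int.castRingHom ℚ)).coeff k = (a k : ℚ) := by
      intro k hk
      rw [coeff_map, hA, finsetSum_coeff, Finset.sum_eq_single k]
      · simp
      · intro b _ hb
        rw [coeff_C_mul_X_pow, if_neg (Ne.symm hb)]
      · intro h
        exact absurd (Finset.mem_range.2 hk) h
    rw [map_cyclotomic] at hB
    by_cases hB0 : B = 0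
    · intro k hk
      have h1 := hcoef k hk
      have h2 := hcoef 0 hr.pos
      rw [hB, hB0, mul_zero, coeff_zero] at h1 h2
      have h3 : (a k : ℚ) = a 0 := by rw [← h1, ← h2]
      exact_mod_cast h3
    · have hdegB : B.natDegree = 0 := by
        rw [hB, natDegree_mul (cyclotomic_ne_zero r ℚ) hB0, natDegree_cyclotomic,
          Nat.totient_prime hr] at hdegA
        omega
      obtain ⟨b, hb⟩ := natDegree_eq_zero.1 hdegB
      have h1 : ∀ k < r, (a k : ℚ) = b := by
        intro k hk
        rw [← hcoef k hk, hB, ← hb, mul_comm, coeff_C_mul, cyclotomic_prime, finsetSum_coeff,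
          Finset.sum_eq_single k]
        · simp
        · intro c _ hc
          rw [coeff_X_pow, if_neg (Ne.symm hc)]
        · intro h
          exact absurd (Finset.mem_range.2 hk) h
      intro k hk
      have h2 : (a k : ℚ) = a 0 := by rw [h1 k hk, h1 0 hr.pos]
      exact_mod_cast h2
  · left
    have hirr : Irreducible ((cyclotomic r ℤ).map (Int.castRingHom ℚ)) := by
      rw [map_cyclotomic]
      exact cyclotomic.irreducible_rat hr.pos
    obtain ⟨n, U, V, hn, hUV⟩ := exists_bezout A (cyclotomic r ℤ) hirr hd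
    have h1 := congrArg (fun p => (aeval T p) v) hUV
    simp only [map_add, map_mul, aeval_C, LinearMap.add_apply, Module.End.mul_apply] at h1
    rw [hAv, hΦ, map_zero, map_zero, add_zero, Module.algebraMap_end_apply] at h1
    exact sub_eq_zero.1 (htf n v hn h1.symm)

end Pool.Agent.J4H9.Bez
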