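import Mathlib
import Pool.Agent.J4H9.Bez

/-!
# Equivariant maps from sets with an involution to torsion free groups

`G` acts on `X`, `bar` is an involution of `X` which commutes with `G`, and `w` is a map to a
torsion free group `W` on which `G` acts, with `w (g x) = g (w x)`, `w (bar x) = - w x`.
-/

set_option autoImplicit false

namespace Pool.Agent.J4H9.Grp

variable {G X : Type*} [Group G] [MulAction G X]

/-- The block `Y` of `X` and the automorphisms `σ`, `τ` with a long cycle through `x₀`. -/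
structure Cyc (bar : X → X) (Y : Set X) (r : ℕ) (τ σ : G) (x₀ y₀ : X) : Prop where
  memx : x₀ ∈ Y
  memy : y₀ ∈ Y
  trans : ∀ x ∈ Y, ∃ g : G, g • x₀ = x ∨ g • x₀ = bar x
  meet : ∀ g : G, ∃ k l : ℕ, g • τ ^ k • x₀ = τ ^ l • x₀ ∨ g • τ ^ k • x₀ = bar (τ ^ l • x₀)
  sigr : σ ^ r • x₀ = x₀
  sigy : σ • y₀ = bar y₀
  taur : τ ^ r • x₀ = x₀
  inj : ∀ k < r, ∀ l < r, τ ^ k • x₀ = τ ^ l • x₀ → k = l
  ne : ∀ k l : ℕ, τ ^ k • x₀ ≠ bar (τ ^ l • x₀)
  fix : ∀ x ∈ Y, (∃ k : ℕ, x = τ ^ k • x₀ ∨ x = bar (τ ^ k • x₀)) ∨ τ • x = x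

section

variable {W : Type*} [AddCommGroup W]

/-- If `w` is constant on the cycle, it is zero. -/
theorem const_zero (htf : ∀ (n : ℤ) (v : W), n ≠ 0 → n • v = 0 → v = 0)
    (act : G →* Module.End ℤ W) (w : X → W) (hw : ∀ g x, w (g • x) = act g (w x))
    {bar : X → X} (hodd : ∀ x, w (bar x) = - w x)
    {Y : Set X} {r : ℕ} (hr : Odd r) {τ σ : G} {x₀ y₀ : X} (h : Cyc bar Y r τ σ x₀ y₀)
    (hconst : w (τ • x₀) = w x₀) : ∀ x ∈ Y, w x = 0 := by
  have h2 : ∀ v : W, v = -v → v = 0 := by
    intro v hv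
    refine htf 2 v two_ne_zero ?_
    rw [two_zsmul]
    nth_rw 1 [hv]
    rw [neg_add_cancel]
  -- constant on the cycle
  have hc : ∀ k : ℕ, w (τ ^ k • x₀) = w x₀ := by
    intro k
    induction k with
    | zero => rw [pow_zero, one_smul]
    | succ k ih => rw [pow_succ', mul_smul, hw, ih, ← hw, hconst]
  -- the action on `w x₀` is by signs
  have hs : ∀ g : G, act g (w x₀) = w x₀ ∨ act g (w x₀) = - w x₀ := by
    intro g
    obtain ⟨k, l, h1 | h1⟩ := h.meet g
    · left
      have h3 := congrArg w h1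
      rw [hw, hc, hc] at h3
      exact h3
    · right
      have h3 := congrArg w h1
      rw [hw, hc, hodd, hc] at h3
      exact h3
  have hall : ∀ x ∈ Y, w x = w x₀ ∨ w x = - w x₀ := by
    intro x hx
    obtain ⟨g, h1 | h1⟩ := h.trans x hx
    · rw [← h1, hw]
      exact hs g
    · have h3 : w x = - act g (w x₀) := by
        rw [← hw, h1, hodd, neg_neg]
      rcases hs g with h4 | h4
      · exact Or.inr (by rw [h3, h4])
      · exact Or.inl (by rw [h3, h4, neg_neg])
  have h0 : w x₀ = 0 := by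
    rcases hs σ with h3 | h3
    · -- `σ` fixes `w x₀`, but it changes the sign of `w y₀`
      have h4 : act σ (w y₀) = - w y₀ := by rw [← hw, h.sigy, hodd]
      rcases hall y₀ h.memy with h5 | h5
      · rw [h5, h3] at h4
        exact h2 _ h4
      · rw [h5, map_neg, h3, neg_neg] at h4
        exact h2 _ h4.symm
    · have h4 : ∀ k : ℕ, act (σ ^ k) (w x₀) = (-1 : ℤ) ^ k • w x₀ := by
        intro k
        induction k with
        | zero => rw [pow_zero, map_one, pow_zero, one_smul, Module.End.one_apply]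
        | succ k ih =>
          rw [pow_succ, map_mul, Module.End.mul_apply, h3, map_neg, ih, pow_succ, mul_neg, mul_one,
            neg_smul]
      have h5 := h4 r
      rw [← hw, h.sigr, hr.neg_one_pow, neg_smul, one_smul] at h5
      exact h2 _ h5
  intro x hx
  rcases hall x hx with h3 | h3
  · rw [h3, h0]
  · rw [h3, h0, neg_zero]

end

/-- The right translations on the functions on `G`. -/
def transl : G →* Module.End ℤ (G → ℤ) where
  toFun g := { toFun := fun f g' => f (g' * g)
               map_add' := fun _ _ => rfl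
               map_smul' := fun _ _ => rfl }
  map_one' := by
    ext f g'
    simp
  map_mul' := by
    intro g₁ g₂
    ext f g'
    simp [mul_assoc]

/-- If `c` is constant on all the conjugates of the cycle, it is zero. -/
theorem fun_zero (c : X → ℤ) {bar : X → X} (hG : ∀ (g : G) x, bar (g • x) = g • bar x)
    (hodd : ∀ x, c (bar x) = - c x)
    {Y : Set X} {r : ℕ} (hr : Odd r) {τ σ : G} {x₀ y₀ : X} (h : Cyc bar Y r τ σ x₀ y₀)
    (hconst : ∀ g : G, c (g • τ • x₀) = c (g • x₀)) : ∀ x ∈ Y, c x = 0 := by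
  intro x hx
  have h1 := const_zero (W := G → ℤ) (fun n v hn hv => by
      funext g
      have h2 := congrFun hv g
      rw [Pi.smul_apply, Pi.zero_apply, smul_eq_mul] at h2
      exact (mul_eq_zero.1 h2).resolve_left hn) transl (fun x g => c (g • x))
    (fun g x => by
      funext g'
      change c (g' • g • x) = c ((g' * g) • x)
      rw [mul_smul])
    (fun x => by
      funext g'
      change c (g' • bar x) = - c (g' • x)
      rw [← hG, hodd])
    hr h (by
      funext g'
      exact hconst g') x hx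
  have h2 := congrFun h1 1
  simpa using h2

section

variable {W : Type*} [AddCommGroup W]

/-- **Relations and the cycle.** -/
theorem const_or [Fintype X] [DecidableEq X]
    (htf : ∀ (n : ℤ) (v : W), n ≠ 0 → n • v = 0 → v = 0)
    (act : G →* Module.End ℤ W) (w : X → W) (hw : ∀ g x, w (g • x) = act g (w x))
    {bar : X → X} (hbb : ∀ x, bar (bar x) = x) (hG : ∀ (g : G) x, bar (g • x) = g • bar x)
    (hodd : ∀ x, w (bar x) = - w x)
    {Y : Set X} {r : ℕ} (hr : r.Prime) {τ σ : G} {x₀ y₀ : X} (h : Cyc bar Y r τ σ x₀ y₀)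
    (c : X → ℤ) (hc : ∀ x, c (bar x) = - c x) (hsupp : ∀ x, c x ≠ 0 → x ∈ Y)
    (u : W) (hu : act τ u = u) (hrel : ∑ x, c x • w x = u) :
    w (τ • x₀) = w x₀ ∨ c (τ • x₀) = c x₀ := by
  have h1 : ∑ x, c x • (w (τ • x) - w x) = 0 := by
    simp only [smul_sub, Finset.sum_sub_distrib]
    rw [hrel, sub_eq_zero]
    calc ∑ x, c x • w (τ • x) = act τ (∑ x, c x • w x) := by
          rw [map_sum]
          refine Finset.sum_congr rfl fun x _ => ?_
          rw [hw, map_zsmul]
      _ = u := by rw [hrel, hu]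
  set S : Finset X := (Finset.range r).image (fun k => τ ^ k • x₀) with hS
  have hbinj : Function.Injective bar := fun x y hxy => by
    have := congrArg bar hxy
    rwa [hbb, hbb] at this
  set S' : Finset X := S.image bar with hS'
  have hpow : ∀ k : ℕ, τ ^ k • x₀ ∈ S := by
    intro k
    rw [hS, Finset.mem_image]
    refine ⟨k % r, Finset.mem_range.2 (Nat.mod_lt _ hr.pos), ?_⟩
    have h3 : ∀ m : ℕ, (τ ^ r) ^ m • x₀ = x₀ := by
      intro m
      induction m with
      | zero => rw [pow_zero, one_smul]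
      | succ m ih => rw [pow_succ, mul_smul, h.taur, ih]
    conv_rhs => rw [← Nat.div_add_mod k r, add_comm, pow_add, pow_mul, mul_smul, h3]
  have hdisj : Disjoint S S' := by
    rw [Finset.disjoint_left]
    intro x hx hx'
    obtain ⟨y, hy, rfl⟩ := Finset.mem_image.1 hx'
    obtain ⟨k, -, hk⟩ := Finset.mem_image.1 hx
    obtain ⟨l, -, rfl⟩ := Finset.mem_image.1 hy
    exact h.ne k l hk
  have hzero : ∀ x, x ∉ S ∪ S' → c x • (w (τ • x) - w x) = 0 := by
    intro x hx
    by_cases hcx : c x = 0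
    · rw [hcx, zero_smul]
    · rcases h.fix x (hsupp x hcx) with ⟨k, h3 | h3⟩ | h3
      · exact absurd (Finset.mem_union_left _ (h3 ▸ hpow k)) hx
      · refine absurd (Finset.mem_union_right _ ?_) hx
        rw [h3]
        exact Finset.mem_image_of_mem _ (hpow k)
      · rw [h3, sub_self, smul_zero]
  rw [← Finset.sum_subset (Finset.subset_univ (S ∪ S')) (fun x _ hx => hzero x hx),
    Finset.sum_union hdisj, hS', Finset.sum_image (fun x _ y _ hxy => hbinj hxy)] at h1
  have h2 : ∑ x ∈ S, c (bar x) • (w (τ • bar x) - w (bar x)) =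
      ∑ x ∈ S, c x • (w (τ • x) - w x) := by
    refine Finset.sum_congr rfl fun x _ => ?_
    rw [hc, ← hG, hodd, hodd, neg_smul, ← neg_sub_neg, neg_neg, neg_neg, ← smul_neg, neg_sub]
  rw [h2, ← two_zsmul] at h1
  have h3 := htf 2 _ two_ne_zero h1
  rw [hS, Finset.sum_image (fun k hk l hl hkl => h.inj k (Finset.mem_range.1 hk) l
    (Finset.mem_range.1 hl) hkl)] at h3
  have h4 : (act τ ^ r) (w x₀) = w x₀ := by rw [← map_pow, ← hw, h.taur]
  rcases Bez.cyc_lemma htf (act τ) hr (fun k => c (τ ^ k • x₀)) (w x₀) h4 (by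
    rw [← h3]
    refine Finset.sum_congr rfl fun k _ => ?_
    congr 1
    rw [map_sub, ← map_pow, ← hw, ← hw, ← hw, smul_smul, smul_smul, ← pow_succ, ← pow_succ']) with
    h5 | h5
  · left
    rw [hw]
    exact h5
  · right
    have := h5 1 hr.one_lt
    simpa using this

/-- **One block**: a relation supported on the block is trivial. -/
theorem single [Fintype X] [DecidableEq X]
    (htf : ∀ (n : ℤ) (v : W), n ≠ 0 → n • v = 0 → v = 0)
    (act : G →* Module.End ℤ W) (w : X → W) (hw : ∀ g x, w (g • x) = act g (w x))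
    {bar : X → X} (hbb : ∀ x, bar (bar x) = x) (hG : ∀ (g : G) x, bar (g • x) = g • bar x)
    (hodd : ∀ x, w (bar x) = - w x)
    {Y : Set X} (hY : ∀ (g : G), ∀ x ∈ Y, g • x ∈ Y)
    {r : ℕ} (hr : r.Prime) (hr2 : Odd r) {τ σ : G} {x₀ y₀ : X} (h : Cyc bar Y r τ σ x₀ y₀)
    (hne : ∃ x ∈ Y, w x ≠ 0)
    (c : X → ℤ) (hc : ∀ x, c (bar x) = - c x) (hsupp : ∀ x, c x ≠ 0 → x ∈ Y)
    (u : W) (hu : ∀ g : G, act τ (act g u) = act g u) (hrel : ∑ x, c x • w x = u) :
    ∀ x ∈ Y, c x = 0 := by
  refine fun_zero c hG hc hr2 h ?_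
  intro g
  have h1 : ∑ x, c (g • x) • w x = act g⁻¹ u := by
    rw [← hrel, map_sum, ← Equiv.sum_comp (MulAction.toPerm g)
      (fun x => act g⁻¹ (c x • w x))]
    refine Finset.sum_congr rfl fun x _ => ?_
    rw [MulAction.toPerm_apply, map_zsmul, ← hw, inv_smul_smul]
  rcases const_or htf act w hw hbb hG hodd hr h (fun x => c (g • x))
    (fun x => by rw [← hG, hc]) (fun x hx => by
      have h2 := hY g⁻¹ _ (hsupp _ hx)
      rwa [inv_smul_smul] at h2) (act g⁻¹ u) (hu g⁻¹) h1 with h2 | h2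
  · exfalso
    obtain ⟨x, hx, hx2⟩ := hne
    exact hx2 (const_zero htf act w hw hodd hr2 h h2 x hx)
  · exact h2

/-- **Several blocks.** -/
theorem multi [Fintype X] [DecidableEq X] {I : Type*} [DecidableEq I]
    (htf : ∀ (n : ℤ) (v : W), n ≠ 0 → n • v = 0 → v = 0)
    (act : G →* Module.End ℤ W) (w : X → W) (hw : ∀ g x, w (g • x) = act g (w x))
    {bar : X → X} (hbb : ∀ x, bar (bar x) = x) (hG : ∀ (g : G) x, bar (g • x) = g • bar x)
    (hodd : ∀ x, w (bar x) = - w x)
    (Y : I → Set X) (hY : ∀ i, ∀ (g : G), ∀ x ∈ Y i, g • x ∈ Y i)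
    {r : ℕ} (hr : r.Prime) (hr2 : Odd r) (i : I) {τ σ : G} {x₀ y₀ : X}
    (h : Cyc bar (Y i) r τ σ x₀ y₀) (hne : ∃ x ∈ Y i, w x ≠ 0)
    (τ' σ' : I → G) (x' y' : I → X)
    (hpair : ∀ j, j ≠ i → Cyc bar (Y i) r (τ' j) (σ' j) (x' j) (y' j))
    (hfix : ∀ j, j ≠ i → ∀ x ∈ Y j, τ' j • x = x)
    (J : Finset I) : i ∉ J → ∀ (c : X → ℤ), (∀ x, c (bar x) = - c x) →
    (∀ x, c x ≠ 0 → x ∈ Y i ∨ ∃ j ∈ J, x ∈ Y j) →
    ∀ (u : W), (∀ g : G, act τ (act g u) = act g u) →
    (∀ j, j ≠ i → ∀ g : G, act (τ' j) (act g u) = act g u) →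
    ∑ x, c x • w x = u → ∀ x ∈ Y i, c x = 0 := by
  induction J using Finset.induction_on with
  | empty =>
    intro _ c hc hsupp u hu _ hrel
    exact single htf act w hw hbb hG hodd (hY i) hr hr2 h hne c hc (fun x hx => by
      rcases hsupp x hx with h1 | ⟨j, h1, -⟩
      · exact h1
      · exact absurd h1 (Finset.notMem_empty j)) u hu hrel
  | insert j J hj ih =>
    intro hi c hc hsupp u hu hu' hrel
    have hji : j ≠ i := fun e => hi (e ▸ Finset.mem_insert_self j J)
    have hiJ : i ∉ J := fun e => hi (Finset.mem_insert_of_mem e)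
    refine fun_zero c hG hc hr2 (hpair j hji) ?_
    intro g
    -- the translate and its difference
    set τj := τ' j with hτj
    have hstab : ∀ k, ∀ (g : G) x, g • x ∈ Y k → x ∈ Y k := by
      intro k g x hx
      have h2 := hY k g⁻¹ _ hx
      rwa [inv_smul_smul] at h2
    have hsum : ∀ g' : G, ∑ x, c (g' • x) • w x = act g'⁻¹ u := by
      intro g'
      rw [← hrel, map_sum, ← Equiv.sum_comp (MulAction.toPerm g')
        (fun x => act g'⁻¹ (c x • w x))]
      refine Finset.sum_congr rfl fun x _ => ?_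
      rw [MulAction.toPerm_apply, map_zsmul, ← hw, inv_smul_smul]
    have h1 : ∑ x, (c (g • τj⁻¹ • x) - c (g • x)) • w x = 0 := by
      simp only [sub_smul, Finset.sum_sub_distrib]
      have h2 : ∑ x, c (g • τj⁻¹ • x) • w x = ∑ x, c ((g * τj⁻¹) • x) • w x :=
        Finset.sum_congr rfl fun x _ => by rw [mul_smul]
      rw [h2, hsum, hsum, mul_inv_rev, inv_inv, map_mul, Module.End.mul_apply, hu' j hji, sub_self]
    have h3 := ih hiJ (fun x => c (g • τj⁻¹ • x) - c (g • x)) (fun x => by
        rw [← hG, ← hG, ← hG, hc, hc]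
        ring) (fun x hx => by
        by_contra hcon
        push Not at hcon
        obtain ⟨h4, h5⟩ := hcon
        apply hx
        by_cases h6 : x ∈ Y j
        · have h7 : τj⁻¹ • x = x := by
            rw [inv_smul_eq_iff, hfix j hji x h6]
          rw [h7, sub_self]
        · have h8 : ∀ g' : G, c (g' • x) = 0 := by
            intro g'
            by_contra h9
            rcases hsupp _ h9 with h10 | ⟨j', h10, h11⟩
            · exact h4 (hstab i g' x h10)
            · rcases Finset.mem_insert.1 h10 with e | e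
              · rw [e] at h11
                exact h6 (hstab j g' x h11)
              · exact h5 j' e (hstab j' g' x h11)
          rw [← mul_smul, h8, h8, sub_self]) 0 (fun g' => by rw [map_zero, map_zero])
        (fun j' _ g' => by rw [map_zero, map_zero]) h1 (τj • x' j)
        (hY i _ _ (hpair j hji).memx)
    rw [inv_smul_smul] at h3
    exact (sub_eq_zero.1 h3).symm

end

end Pool.Agent.J4H9.Grp
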