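import Mathlib

/-!
# Periods of points under a group element
-/

set_option autoImplicit false

namespace Pool.Agent.J4H9.Per

open Function

variable {G A : Type*} [Group G] [MulAction G A]

theorem pow_smul_iff {σ : G} {a : A} {d : ℕ} (hd : minimalPeriod (σ • ·) a = d) (n : ℕ) :
    σ ^ n • a = a ↔ d ∣ n := by
  rw [← hd]
  exact MulAction.pow_smul_eq_iff_minimalPeriod_dvd

theorem per_eq {σ : G} {a : A} {d : ℕ} (hd : 0 < d) (h1 : σ ^ d • a = a)
    (h2 : ∀ k, 0 < k → k < d → σ ^ k • a ≠ a) : minimalPeriod (σ • ·) a = d := by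
  have h3 : minimalPeriod (σ • ·) a ∣ d := MulAction.pow_smul_eq_iff_minimalPeriod_dvd.1 h1
  have h4 : 0 < minimalPeriod (σ • ·) a := Nat.pos_of_dvd_of_pos h3 hd
  have h5 := Nat.le_of_dvd hd h3
  by_contra hne
  exact h2 _ h4 (lt_of_le_of_ne h5 hne) (MulAction.pow_smul_eq_iff_minimalPeriod_dvd.2 dvd_rfl)

theorem per_prime {σ : G} {a : A} {r : ℕ} (hr : r.Prime) (h1 : σ ^ r • a = a) (h2 : σ • a ≠ a) :
    minimalPeriod (σ • ·) a = r := by
  have h3 : minimalPeriod (σ • ·) a ∣ r := MulAction.pow_smul_eq_iff_minimalPeriod_dvd.1 h1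
  rcases (Nat.dvd_prime hr).1 h3 with h4 | h4
  · exfalso
    apply h2
    have := (pow_smul_iff h4 1).2 dvd_rfl
    rwa [pow_one] at this
  · exact h4

/-- Equality of two iterates. -/
theorem pow_smul_eq_iff {σ : G} {a : A} {d : ℕ} (hd : minimalPeriod (σ • ·) a = d) (k l : ℕ) :
    σ ^ k • a = σ ^ l • a ↔ k ≡ l [MOD d] := by
  wlog hkl : k ≤ l generalizing k l
  · rw [eq_comm, this l k (by omega)]
    exact ⟨Nat.ModEq.symm, Nat.ModEq.symm⟩
  obtain ⟨m, rfl⟩ := Nat.exists_eq_add_of_le hkl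
  rw [pow_add, mul_smul, smul_left_cancel_iff, eq_comm, pow_smul_iff hd]
  constructor
  · intro h
    exact (Nat.modEq_iff_dvd' (by omega)).2 (by simpa using h)
  · intro h
    have := (Nat.modEq_iff_dvd' (by omega)).1 h
    simpa using this

/-- A power of an element which is bijective on a small set is trivial on it. -/
theorem kill [DecidableEq A] {σ : G} {r : ℕ} (Z : Finset A) (hZ : ∀ z ∈ Z, σ • z ∈ Z)
    (hcard : Z.card < r) (z : A) (hz : z ∈ Z) : σ ^ (r - 1).factorial • z = z := by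
  have hmem : ∀ k : ℕ, σ ^ k • z ∈ Z := by
    intro k
    induction k with
    | zero => rw [pow_zero, one_smul]; exact hz
    | succ k ih => rw [pow_succ', mul_smul]; exact hZ _ ih
  obtain ⟨k, hk, l, hl, hne, heq⟩ := Finset.exists_ne_map_eq_of_card_lt_of_maps_to
    (s := Finset.range (Z.card + 1)) (t := Z) (by rw [Finset.card_range]; omega)
    (f := fun k => σ ^ k • z) (fun k _ => hmem k)
  rw [Finset.mem_range] at hk hl
  have key : ∀ k l : ℕ, k < l → l < Z.card + 1 → σ ^ k • z = σ ^ l • z →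
      σ ^ (r - 1).factorial • z = z := by
    intro k l hkl hl h
    obtain ⟨m, rfl⟩ := Nat.exists_eq_add_of_lt hkl
    rw [add_assoc, pow_add, mul_smul, smul_left_cancel_iff] at h
    obtain ⟨c, hc⟩ := Nat.dvd_factorial (Nat.succ_pos m) (show m + 1 ≤ r - 1 by omega)
    rw [hc, pow_mul]
    have h2 : ∀ c : ℕ, (σ ^ (m + 1)) ^ c • z = z := by
      intro c
      induction c with
      | zero => rw [pow_zero, one_smul]
      | succ c ih => rw [pow_succ, mul_smul, ← h, ih]
    exact h2 c
  rcases lt_or_gt_of_ne hne with h | h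
  · exact key k l h hl heq
  · exact key l k h hk heq.symm

/-- The points of a set of size at most `g` which are not on a cycle of length `d` with
`g < d + r`. -/
theorem off_cycle [DecidableEq A] {σ : G} {r d g : ℕ} (R : Finset A) (hR : ∀ z ∈ R, σ • z ∈ R)
    (hg : R.card ≤ g) (hgd : g < d + r) (hd0 : 0 < d) {a : A} (ha : a ∈ R)
    (hd : minimalPeriod (σ • ·) a = d) (z : A) (hz : z ∈ R) :
    (∃ k < d, z = σ ^ k • a) ∨ σ ^ (r - 1).factorial • z = z := by
  set O : Finset A := (Finset.range d).image (fun k => σ ^ k • a) with hO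
  have hmem : ∀ k : ℕ, σ ^ k • a ∈ R := by
    intro k
    induction k with
    | zero => rw [pow_zero, one_smul]; exact ha
    | succ k ih => rw [pow_succ', mul_smul]; exact hR _ ih
  have hOR : O ⊆ R := by
    intro x hx
    obtain ⟨k, -, rfl⟩ := Finset.mem_image.1 hx
    exact hmem k
  have hOcard : O.card = d := by
    rw [hO, Finset.card_image_of_injOn, Finset.card_range]
    intro k hk l hl hkl
    have hk' := Finset.mem_range.1 (Finset.mem_coe.1 hk)
    have hl' := Finset.mem_range.1 (Finset.mem_coe.1 hl)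
    exact Nat.ModEq.eq_of_lt_of_lt ((pow_smul_eq_iff hd k l).1 hkl) hk' hl'
  by_cases hzO : z ∈ O
  · left
    obtain ⟨k, hk, h⟩ := Finset.mem_image.1 hzO
    exact ⟨k, Finset.mem_range.1 hk, h.symm⟩
  · right
    refine kill (R \ O) ?_ ?_ z (Finset.mem_sdiff.2 ⟨hz, hzO⟩)
    · intro y hy
      obtain ⟨h1, h2⟩ := Finset.mem_sdiff.1 hy
      refine Finset.mem_sdiff.2 ⟨hR y h1, fun h3 => h2 ?_⟩
      obtain ⟨k, hk, h4⟩ := Finset.mem_image.1 h3
      have hper : σ ^ d • a = a := (pow_smul_iff hd d).2 dvd_rfl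
      have h5 : y = σ ^ ((k + (d - 1)) % d) • a := by
        rw [← smul_left_cancel_iff σ, ← mul_smul, ← pow_succ', ← h4]
        refine (pow_smul_eq_iff hd _ _).2 ?_
        have h6 : (k + (d - 1)) % d + 1 ≡ k + (d - 1) + 1 [MOD d] :=
          (Nat.mod_modEq _ _).add_right 1
        have h7 : k + (d - 1) + 1 = k + d := by omega
        rw [h7] at h6
        have h8 : k + d ≡ k [MOD d] := by
          simp [Nat.ModEq]
        exact (h6.trans h8).symm
      rw [h5]
      exact Finset.mem_image.2 ⟨_, Finset.mem_range.2 (Nat.mod_lt _ hd0), rfl⟩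
    · have h9 := Finset.card_le_card hOR
      rw [Finset.card_sdiff_of_subset hOR, hOcard]
      omega

end Pool.Agent.J4H9.Per
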