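import Mathlib

/-!
# The quotient of the multiplicative group by the elements with a power in `⟨Q⟩`
-/

set_option autoImplicit false

namespace Pool.Agent.J4H9.SatQ

variable {A : Type*} [CommGroup A]

/-- The elements with a power which is a power of `Q`. -/
def Sat (Q : A) : Subgroup A where
  carrier := {z | ∃ s : ℕ, 0 < s ∧ ∃ e : ℤ, z ^ s = Q ^ e}
  one_mem' := ⟨1, one_pos, 0, by simp⟩
  mul_mem' := by
    rintro a b ⟨s, hs, e, h1⟩ ⟨s', hs', e', h2⟩
    refine ⟨s * s', Nat.mul_pos hs hs', e * s' + e' * s, ?_⟩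
    rw [mul_pow, pow_mul, h1, mul_comm s s', pow_mul, h2, zpow_add, zpow_mul, zpow_mul]
    simp
  inv_mem' := by
    rintro a ⟨s, hs, e, h1⟩
    exact ⟨s, hs, -e, by rw [inv_pow, h1, zpow_neg]⟩

theorem mem_sat {Q z : A} : z ∈ Sat Q ↔ ∃ s : ℕ, 0 < s ∧ ∃ e : ℤ, z ^ s = Q ^ e := Iff.rfl

/-- The quotient group, written additively. -/
abbrev Wq (Q : A) : Type _ := Additive (A ⧸ Sat Q)

/-- The class of an element. -/
def cl (Q : A) (z : A) : Wq Q := Additive.ofMul (QuotientGroup.mk z)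

theorem cl_mul (Q a b : A) : cl Q (a * b) = cl Q a + cl Q b := rfl

theorem cl_one (Q : A) : cl Q 1 = 0 := rfl

theorem cl_inv (Q a : A) : cl Q a⁻¹ = - cl Q a := rfl

theorem cl_eq_zero {Q a : A} : cl Q a = 0 ↔ a ∈ Sat Q :=
  QuotientGroup.eq_one_iff a

theorem cl_self (Q : A) : cl Q Q = 0 := cl_eq_zero.2 ⟨1, one_pos, 1, by simp⟩

theorem cl_pow (Q a : A) (n : ℕ) : cl Q (a ^ n) = n • cl Q a := rfl

theorem cl_prod (Q : A) (T : List A) : cl Q T.prod = (T.map (cl Q)).sum := by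
  induction T with
  | nil => rfl
  | cons a T ih => rw [List.prod_cons, cl_mul, ih, List.map_cons, List.sum_cons]

theorem torsion_free (Q : A) (n : ℤ) (v : Wq Q) (hn : n ≠ 0) (hv : n • v = 0) : v = 0 := by
  obtain ⟨a, rfl⟩ : ∃ a, cl Q a = v := by
    obtain ⟨a, ha⟩ := QuotientGroup.mk_surjective (Additive.toMul v)
    exact ⟨a, by rw [cl, ha]; rfl⟩
  have h1 : cl Q (a ^ n) = 0 := hv
  rw [cl_eq_zero, mem_sat] at h1 ⊢
  obtain ⟨s, hs, e, h⟩ := h1
  rcases lt_or_gt_of_ne hn with h0 | h0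
  · refine ⟨(-n).toNat * s, Nat.mul_pos (by omega) hs, -e, ?_⟩
    rw [pow_mul, ← zpow_natCast a, Int.toNat_of_nonneg (by omega), zpow_neg, inv_pow, h, zpow_neg]
  · refine ⟨n.toNat * s, Nat.mul_pos (by omega) hs, e, ?_⟩
    rw [pow_mul, ← zpow_natCast a, Int.toNat_of_nonneg h0.le, h]

theorem le_comap (Q : A) (φ : A →* A) (hφ : φ Q = Q) : Sat Q ≤ (Sat Q).comap φ := by
  rintro z ⟨s, hs, e, h⟩
  refine ⟨s, hs, e, ?_⟩
  rw [← map_pow, h, map_zpow, hφ]

/-- An endomorphism which fixes `Q` acts on the quotient. -/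
def actOne (Q : A) (φ : Monoid.End A) (hφ : φ Q = Q) : Module.End ℤ (Wq Q) :=
  (MonoidHom.toAdditive (QuotientGroup.map (Sat Q) (Sat Q) φ (le_comap Q φ hφ))).toIntLinearMap

theorem actOne_cl (Q : A) (φ : Monoid.End A) (hφ : φ Q = Q) (a : A) :
    actOne Q φ hφ (cl Q a) = cl Q (φ a) := rfl

theorem ext_cl {Q : A} {f g : Module.End ℤ (Wq Q)} (h : ∀ a, f (cl Q a) = g (cl Q a)) : f = g := by
  apply LinearMap.ext
  intro v
  obtain ⟨a, rfl⟩ : ∃ a, cl Q a = v := by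
    obtain ⟨a, ha⟩ := QuotientGroup.mk_surjective (Additive.toMul v)
    exact ⟨a, by rw [cl, ha]; rfl⟩
  exact h a

/-- The action of a group. -/
def act (Q : A) {G : Type*} [Group G] (φ : G →* Monoid.End A) (hφ : ∀ g, φ g Q = Q) :
    G →* Module.End ℤ (Wq Q) where
  toFun g := actOne Q (φ g) (hφ g)
  map_one' := by
    refine ext_cl fun a => ?_
    rw [actOne_cl, Module.End.one_apply, map_one]
    rfl
  map_mul' g g' := by
    refine ext_cl fun a => ?_
    rw [Module.End.mul_apply, actOne_cl, actOne_cl, actOne_cl, map_mul]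
    rfl

theorem act_cl (Q : A) {G : Type*} [Group G] (φ : G →* Monoid.End A) (hφ : ∀ g, φ g Q = Q) (g : G)
    (a : A) : act Q φ hφ g (cl Q a) = cl Q (φ g a) := rfl

end Pool.Agent.J4H9.SatQ
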