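import Mathlib
import Pool.Agent.J4H9.Grp
import Pool.Agent.J4H9.Per
import Pool.Agent.J4H9.Sat
import Pool.Agent.W521.Criterion

/-!
# Multiplicative relations between Weil numbers and Galois elements with long cycles
-/

set_option autoImplicit false

namespace Pool.Agent.J4H9.Gal

open Polynomial NumberField Pool.Agent.W521.Frob Pool.Agent.W521.Criterion Pool.Agent.J4H9.Grp
  Pool.Agent.J4H9.Per Pool.Agent.J4H9.SatQ Function

section

variable {L : Type} [Field L] [NumberField L]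

/-- `σ` has a cycle of length `r` through `x₀` which does not contain `q / x₀`, and exchanges `y₀`
and `q / y₀`; `x₀` and `y₀` are roots of `f`. -/
structure SplitEl (q r : ℕ) (f : ℤ[X]) (σ : L ≃ₐ[ℚ] L) (x₀ y₀ : L) : Prop where
  rx : aeval x₀ f = 0
  ry : aeval y₀ f = 0
  per : σ ^ r • x₀ = x₀
  n1 : σ • x₀ ≠ x₀
  n2 : σ • x₀ ≠ q / x₀
  flip : σ • y₀ = q / y₀

/-- `σ` has a cycle of length `d` through the root `θ` of `h`. -/
structure LongEl (d : ℕ) (h : ℤ[X]) (σ : L ≃ₐ[ℚ] L) (θ : L) : Prop where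
  rx : aeval θ h = 0
  per : minimalPeriod (σ • ·) θ = d

theorem smul_div (q : ℕ) (g : L ≃ₐ[ℚ] L) (x : L) : g • ((q : L) / x) = q / (g • x) := by
  rw [AlgEquiv.smul_def, AlgEquiv.smul_def, map_div₀, map_natCast]

theorem smul_theta (q : ℕ) (g : L ≃ₐ[ℚ] L) (x : L) :
    g • (x + (q : L) / x) = g • x + q / (g • x) := by
  rw [smul_add, smul_div]

theorem pair_of_theta {q : ℕ} {x y : L} (hx : x ≠ 0) (hy : y ≠ 0)
    (h : x + (q : L) / x = y + q / y) : x = y ∨ x = q / y := by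
  have h1 : (x - y) * (x - q / y) = 0 := by
    have h2 : x ^ 2 + q = (y + q / y) * x := by
      rw [← h]
      field_simp
    have h3 : y * (q / y) = q := by field_simp
    linear_combination h2 + h3
  rcases mul_eq_zero.1 h1 with h2 | h2
  · exact Or.inl (sub_eq_zero.1 h2)
  · exact Or.inr (sub_eq_zero.1 h2)

theorem smul_ne {g : L ≃ₐ[ℚ] L} {x : L} (hx : x ≠ 0) : g • x ≠ 0 := by
  rw [AlgEquiv.smul_def]
  exact (map_ne_zero g).2 hx

/-- If the trace is fixed, the square of the element fixes the number. -/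
theorem sq_fix {q : ℕ} {x : L} (hx : x ≠ 0) {g : L ≃ₐ[ℚ] L} (hq : (q : L) ≠ 0)
    (h : g • (x + (q : L) / x) = x + q / x) : g ^ 2 • x = x := by
  rw [smul_theta] at h
  rw [sq, mul_smul]
  rcases pair_of_theta (smul_ne hx) hx h with h1 | h1
  · rw [h1, h1]
  · rw [h1, smul_div, h1, div_div_cancel₀ hq]

theorem pow_fix {G A : Type*} [Group G] [MulAction G A] {g : G} {x : A} (h : g • x = x) (n : ℕ) :
    g ^ n • x = x := by
  induction n with
  | zero => rw [pow_zero, one_smul]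
  | succ n ih => rw [pow_succ, mul_smul, h, ih]

theorem aeval_smul (p : ℤ[X]) (g : L ≃ₐ[ℚ] L) (x : L) (hx : aeval x p = 0) :
    aeval (g • x) p = 0 := by
  have h2 := Polynomial.hom_eval₂ p (algebraMap ℤ L) (g : L →+* L) x
  have h3 : eval₂ (algebraMap ℤ L) x p = 0 := hx
  rw [h3, map_zero, RingHom.ext_int ((g : L →+* L).comp (algebraMap ℤ L)) (algebraMap ℤ L)] at h2
  exact h2.symm

/-- The roots of a polynomial in `L`. -/
noncomputable def rts (p : ℤ[X]) (L : Type) [Field L] : Finset L := by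
  classical
  exact ((p.map (algebraMap ℤ L)).roots).toFinset

theorem mem_rts {p : ℤ[X]} (hp : p ≠ 0) (x : L) : x ∈ rts p L ↔ aeval x p = 0 := by
  classical
  unfold rts
  rw [Multiset.mem_toFinset, mem_roots, IsRoot.def, eval_map]
  · rfl
  · exact (Polynomial.map_ne_zero_iff (algebraMap ℤ L).injective_int).2 hp

omit [NumberField L] in
theorem card_rts (p : ℤ[X]) : (rts p L).card ≤ p.natDegree := by
  classical
  unfold rts
  refine (Multiset.toFinset_card_le _).trans ((card_roots' _).trans ?_)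
  exact natDegree_map_le

variable {q r g : ℕ} {h : ℤ[X]}

theorem SplitEl.theta (hq : q ≠ 0) (hm : h.Monic) (hr : r.Prime) {σ : L ≃ₐ[ℚ] L} {x₀ y₀ : L}
    (hs : SplitEl q r (weil q h) σ x₀ y₀) :
    minimalPeriod (σ • ·) (x₀ + (q : L) / x₀) = r ∧ minimalPeriod (σ • ·) x₀ = r := by
  have hx0 := root_ne_zero hq hm hs.rx
  constructor
  · refine per_prime hr ?_ ?_
    · rw [smul_theta, hs.per]
    · intro h1
      rw [smul_theta] at h1
      rcases pair_of_theta (smul_ne hx0) hx0 h1 with h2 | h2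
      · exact hs.n1 h2
      · exact hs.n2 h2
  · exact per_prime hr hs.per hs.n1

theorem SplitEl.sq_ne (hq : q ≠ 0) (hm : h.Monic) (hr : r.Prime) (hr2 : r ≠ 2)
    {σ : L ≃ₐ[ℚ] L} {x₀ y₀ : L} (hs : SplitEl q r (weil q h) σ x₀ y₀) :
    x₀ ≠ q / x₀ := by
  intro h1
  have hx0 := root_ne_zero hq hm hs.rx
  have h2 := congrArg (fun z => σ • z) h1
  simp only [smul_div] at h2
  have h3 : x₀ ^ 2 = q := by
    field_simp at h1
    exact h1
  have h4 : (σ • x₀) ^ 2 = q := by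
    have := smul_ne (g := σ) hx0
    field_simp at h2
    exact h2
  rcases sq_eq_sq_iff_eq_or_eq_neg.1 (h4.trans h3.symm) with h5 | h5
  · exact hs.n1 h5
  · have h6 : σ ^ 2 • x₀ = x₀ := by
      rw [sq, mul_smul, h5, smul_neg, h5, neg_neg]
    have h7 := (pow_smul_iff (hs.theta hq hm hr).2 2).1 h6
    exact hr2 ((Nat.prime_dvd_prime_iff_eq hr Nat.prime_two).1 h7)

/-- The number `x₀` is not `√q` times a root of unity. -/
theorem SplitEl.not_torsion (hq : q ≠ 0) (hm : h.Monic) (hr : r.Prime) (hr2 : r ≠ 2)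
    {σ : L ≃ₐ[ℚ] L} {x₀ y₀ : L} (hs : SplitEl q r (weil q h) σ x₀ y₀)
    (g : L ≃ₐ[ℚ] L) (hg : g • x₀ = y₀ ∨ g • x₀ = q / y₀) (s : ℕ) (hs0 : 0 < s) :
    (x₀ ^ 2) ^ s ≠ (q : L) ^ s := by
  intro h1
  have hx0 := root_ne_zero hq hm hs.rx
  have hy0 := root_ne_zero hq hm hs.ry
  have hqL : (q : L) ≠ 0 := by exact_mod_cast hq
  set ζ : L := x₀ ^ 2 / q with hζ
  have hζs : ζ ^ s = 1 := by
    rw [hζ, div_pow, h1, div_self (pow_ne_zero _ hqL)]
  have hfin : IsOfFinOrder ζ := isOfFinOrder_iff_pow_eq_one.2 ⟨s, hs0, hζs⟩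
  have hprim : IsPrimitiveRoot ζ (orderOf ζ) := IsPrimitiveRoot.orderOf ζ
  have hn : 0 < orderOf ζ := hfin.orderOf_pos
  set η : L := g • ζ with hη
  have hη1 : IsPrimitiveRoot η (orderOf ζ) := by
    rw [hη, AlgEquiv.smul_def]
    exact hprim.map_of_injective g.injective
  have hgq : ∀ g : L ≃ₐ[ℚ] L, g • (q : L) = q := fun g => by
    rw [AlgEquiv.smul_def, map_natCast]
  have hsy : σ ^ 2 • y₀ = y₀ := by
    rw [sq, mul_smul, hs.flip, smul_div, hs.flip, div_div_cancel₀ hqL]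
  have hsη : σ ^ 2 • η = η := by
    have h2 : η = (g • x₀) ^ 2 / q := by
      rw [hη, hζ]
      simp only [AlgEquiv.smul_def, map_div₀, map_pow, map_natCast]
    rw [h2]
    have h3 : σ ^ 2 • (g • x₀) = g • x₀ := by
      rcases hg with h4 | h4
      · rw [h4, hsy]
      · rw [h4, smul_div, hsy]
    have h4 : σ ^ 2 • ((g • x₀) ^ 2 / (q : L)) = (σ ^ 2 • (g • x₀)) ^ 2 / (q : L) := by
      simp only [AlgEquiv.smul_def, map_div₀, map_pow, map_natCast]
    rw [h4, h3]
  have : NeZero (orderOf ζ) := ⟨hn.ne'⟩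
  obtain ⟨i, -, hi⟩ := hη1.eq_pow_of_pow_eq_one hprim.pow_eq_one
  have hsζ : σ ^ 2 • ζ = ζ := by
    rw [← hi, AlgEquiv.smul_def, map_pow, ← AlgEquiv.smul_def, hsη]
  have h5 : (σ ^ 2 • x₀) ^ 2 = x₀ ^ 2 := by
    have h6 : σ ^ 2 • ζ = (σ ^ 2 • x₀) ^ 2 / q := by
      rw [hζ]
      simp only [AlgEquiv.smul_def, map_div₀, map_pow, map_natCast]
    rw [h6, hζ] at hsζ
    field_simp at hsζ
    exact hsζ
  have h7 : σ ^ 4 • x₀ = x₀ := by
    have e : σ ^ 4 = σ ^ 2 * σ ^ 2 := by rw [← pow_add]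
    rw [e, mul_smul]
    rcases sq_eq_sq_iff_eq_or_eq_neg.1 h5 with h6 | h6
    · rw [h6, h6]
    · rw [h6, smul_neg, h6, neg_neg]
  have h8 := (pow_smul_iff (hs.theta hq hm hr).2 4).1 h7
  have h9 : r ∣ 2 ^ 2 := h8
  exact hr2 ((Nat.prime_dvd_prime_iff_eq hr Nat.prime_two).1 (hr.dvd_of_dvd_pow h9))

/-- Powers of `σ` fix all numbers whose traces are off the long cycle. -/
theorem fix_or (hq : q ≠ 0) (hm : h.Monic) (hdeg : h.natDegree ≤ g) {d : ℕ} (hd0 : 0 < d)
    (hgd : g < d + r) {σ : L ≃ₐ[ℚ] L} {θ : L} (hθ : aeval θ h = 0)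
    (hper : minimalPeriod (σ • ·) θ = d) (x : L) (hx : aeval x (weil q h) = 0) :
    (∃ k, x + (q : L) / x = σ ^ k • θ) ∨ σ ^ (2 * (r - 1).factorial) • x = x := by
  classical
  have hx0 := root_ne_zero hq hm hx
  have hqL : (q : L) ≠ 0 := by exact_mod_cast hq
  rcases off_cycle (rts h L) (fun z hz => (mem_rts hm.ne_zero _).2
    (aeval_smul h σ z ((mem_rts hm.ne_zero _).1 hz))) ((card_rts h).trans hdeg) hgd hd0
    ((mem_rts hm.ne_zero _).2 hθ) hper (x + (q : L) / x)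
    ((mem_rts hm.ne_zero _).2 ((root_iff hq hm x).1 hx).2) with ⟨k, -, h1⟩ | h1
  · exact Or.inl ⟨k, h1⟩
  · right
    rw [mul_comm, pow_mul]
    exact sq_fix hx0 hqL h1

end

section

variable {I : Type*} {q : ℕ} {h : I → ℤ[X]}

/-- The roots of the Weil polynomials. -/
def Rt (q : ℕ) (h : I → ℤ[X]) (L : Type) [Field L] [NumberField L] :
    SubMulAction (L ≃ₐ[ℚ] L) L where
  carrier := {x | ∃ i, aeval x (weil q (h i)) = 0}
  smul_mem' := fun g x ⟨i, hi⟩ => ⟨i, aeval_smul _ g x hi⟩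

variable {L : Type} [Field L] [NumberField L]

/-- The involution. -/
def bar (hq : q ≠ 0) (hm : ∀ i, (h i).Monic) (x : Rt q h L) : Rt q h L :=
  ⟨(q : L) / (x : L), by obtain ⟨i, hi⟩ := x.2; exact ⟨i, root_conj hq (hm i) hi⟩⟩

theorem coe_bar (hq : q ≠ 0) (hm : ∀ i, (h i).Monic) (x : Rt q h L) :
    ((bar hq hm x : Rt q h L) : L) = (q : L) / (x : L) := rfl

theorem bar_bar (hq : q ≠ 0) (hm : ∀ i, (h i).Monic) (x : Rt q h L) :
    bar hq hm (bar hq hm x) = x := by
  apply Subtype.ext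
  have hqL : (q : L) ≠ 0 := by exact_mod_cast hq
  rw [coe_bar, coe_bar, div_div_cancel₀ hqL]

theorem bar_smul (hq : q ≠ 0) (hm : ∀ i, (h i).Monic) (g : L ≃ₐ[ℚ] L) (x : Rt q h L) :
    bar hq hm (g • x) = g • bar hq hm x := by
  apply Subtype.ext
  rw [coe_bar, SubMulAction.val_smul, SubMulAction.val_smul, coe_bar, smul_div]

/-- The block of the roots of one of the Weil polynomials. -/
def blk (q : ℕ) (h : I → ℤ[X]) (L : Type) [Field L] [NumberField L] (i : I) : Set (Rt q h L) :=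
  {x | aeval (x : L) (weil q (h i)) = 0}

theorem blk_smul (i : I) (g : L ≃ₐ[ℚ] L) (x : Rt q h L) (hx : x ∈ blk q h L i) :
    g • x ∈ blk q h L i := aeval_smul _ g x hx

/-- **The cycle data.** -/
theorem cyc_of (hq : q ≠ 0) (hm : ∀ i, (h i).Monic) (i : I) {g r : ℕ}
    (hdeg : (h i).natDegree ≤ g) (hr : r.Prime) (hr2 : r ≠ 2) (hgr : g < 2 * r)
    (htrans : ∀ α β : L, aeval α (weil q (h i)) = 0 → aeval β (weil q (h i)) = 0 →
      ∃ τ : L ≃ₐ[ℚ] L, τ • α = β ∨ τ • α = q / β)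
    {σ : L ≃ₐ[ℚ] L} {x₀ y₀ : L} (hs : SplitEl q r (weil q (h i)) σ x₀ y₀) {N : ℕ}
    (hN : N.Coprime r) (hN2 : 2 * (r - 1).factorial ∣ N) :
    Cyc (bar hq hm) (blk q h L i) r (σ ^ N) σ (⟨x₀, i, hs.rx⟩ : Rt q h L)
      (⟨y₀, i, hs.ry⟩ : Rt q h L) := by
  classical
  have hqL : (q : L) ≠ 0 := by exact_mod_cast hq
  have hx0 := root_ne_zero hq (hm i) hs.rx
  set θ : L := x₀ + (q : L) / x₀ with hθ
  have hθr : aeval θ (h i) = 0 := ((root_iff hq (hm i) x₀).1 hs.rx).2
  obtain ⟨hp1, hp2⟩ := hs.theta hq (hm i) hr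
  have hrN : ¬ r ∣ N := fun h1 => by
    have h2 := hr.one_lt
    have h3 : r ∣ N.gcd r := Nat.dvd_gcd h1 dvd_rfl
    rw [hN] at h3
    exact absurd (Nat.le_of_dvd one_pos h3) (by omega)
  have hτθ : minimalPeriod ((σ ^ N) • ·) θ = r := by
    refine per_prime hr ?_ ?_
    · rw [← pow_mul, pow_smul_iff hp1]
      exact dvd_mul_left r N
    · rw [Ne, pow_smul_iff hp1]
      exact hrN
  have hτx : minimalPeriod ((σ ^ N) • ·) x₀ = r := by
    refine per_prime hr ?_ ?_
    · rw [← pow_mul, pow_smul_iff hp2]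
      exact dvd_mul_left r N
    · rw [Ne, pow_smul_iff hp2]
      exact hrN
  have hroot : ∀ g : L ≃ₐ[ℚ] L, g • θ ∈ rts (h i) L := fun g =>
    (mem_rts (hm i).ne_zero _).2 (aeval_smul _ g θ hθr)
  refine ⟨hs.rx, hs.ry, ?_, ?_, ?_, ?_, ?_, ?_, ?_, ?_⟩
  · -- trans
    intro x hx
    obtain ⟨τ, h1 | h1⟩ := htrans x₀ x hs.rx hx
    · exact ⟨τ, Or.inl (Subtype.ext h1)⟩
    · exact ⟨τ, Or.inr (Subtype.ext h1)⟩
  · -- meet
    intro γ
    have h1 : ∃ k l : ℕ, γ • (σ ^ N) ^ k • θ = (σ ^ N) ^ l • θ := by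
      by_contra hcon
      push Not at hcon
      set A : Finset L := (Finset.range r).image (fun k => γ • (σ ^ N) ^ k • θ) with hA
      set B : Finset L := (Finset.range r).image (fun k => (σ ^ N) ^ k • θ) with hB
      have hinj : ∀ k < r, ∀ l < r, (σ ^ N) ^ k • θ = (σ ^ N) ^ l • θ → k = l := by
        intro k hk l hl hkl
        exact Nat.ModEq.eq_of_lt_of_lt ((pow_smul_eq_iff hτθ k l).1 hkl) hk hl
      have hAc : A.card = r := by
        rw [hA, Finset.card_image_of_injOn, Finset.card_range]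
        intro k hk l hl hkl
        exact hinj k (Finset.mem_range.1 (Finset.mem_coe.1 hk)) l
          (Finset.mem_range.1 (Finset.mem_coe.1 hl)) (smul_left_cancel γ hkl)
      have hBc : B.card = r := by
        rw [hB, Finset.card_image_of_injOn, Finset.card_range]
        intro k hk l hl hkl
        exact hinj k (Finset.mem_range.1 (Finset.mem_coe.1 hk)) l
          (Finset.mem_range.1 (Finset.mem_coe.1 hl)) hkl
      have hdisj : Disjoint A B := by
        rw [Finset.disjoint_left]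
        intro x hx hx'
        obtain ⟨k, -, rfl⟩ := Finset.mem_image.1 hx
        obtain ⟨l, -, h2⟩ := Finset.mem_image.1 hx'
        exact hcon k l h2.symm
      have hsub : A ∪ B ⊆ rts (h i) L := by
        intro x hx
        rcases Finset.mem_union.1 hx with h2 | h2
        · obtain ⟨k, -, rfl⟩ := Finset.mem_image.1 h2
          rw [← mul_smul]
          exact hroot _
        · obtain ⟨k, -, rfl⟩ := Finset.mem_image.1 h2
          exact hroot _
      have h2 := Finset.card_le_card hsub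
      rw [Finset.card_union_of_disjoint hdisj, hAc, hBc] at h2
      have h3 := (card_rts (L := L) (h i)).trans hdeg
      omega
    obtain ⟨k, l, h1⟩ := h1
    refine ⟨k, l, ?_⟩
    rw [hθ, smul_theta, smul_theta, smul_theta] at h1
    rcases pair_of_theta (smul_ne (smul_ne hx0)) (smul_ne hx0) h1 with h2 | h2
    · exact Or.inl (Subtype.ext h2)
    · exact Or.inr (Subtype.ext h2)
  · -- sigr
    exact Subtype.ext hs.per
  · -- sigy
    exact Subtype.ext hs.flip
  · -- taur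
    exact Subtype.ext ((pow_smul_iff hτx r).2 dvd_rfl)
  · -- inj
    intro k hk l hl hkl
    exact Nat.ModEq.eq_of_lt_of_lt ((pow_smul_eq_iff hτx k l).1 (congrArg Subtype.val hkl)) hk hl
  · -- ne
    intro k l hkl
    have h1 : (σ ^ N) ^ k • x₀ = (q : L) / ((σ ^ N) ^ l • x₀) := congrArg Subtype.val hkl
    have h2 : (σ ^ N) ^ k • θ = (σ ^ N) ^ l • θ := by
      rw [hθ, smul_theta, smul_theta, h1, div_div_cancel₀ hqL, add_comm]
    have h3 := (pow_smul_eq_iff hτx k l).2 ((pow_smul_eq_iff hτθ k l).1 h2)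
    rw [h3, ← smul_div, smul_left_cancel_iff] at h1
    exact hs.sq_ne hq (hm i) hr hr2 h1
  · -- fix
    intro x hx
    have hx00 : (x : L) ≠ 0 := root_ne_zero hq (hm i) hx
    rcases fix_or hq (hm i) hdeg hr.pos (show g < r + r by omega) hθr hp1 (x : L) hx with
      ⟨k, h1⟩ | h1
    · left
      obtain ⟨m, -, h2⟩ := Nat.exists_mul_mod_eq_of_coprime k hN hr.ne_zero
      refine ⟨m, ?_⟩
      have h3 : σ ^ k • θ = (σ ^ N) ^ m • θ := by
        rw [← pow_mul]
        exact (pow_smul_eq_iff hp1 _ _).2 h2.symm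
      rw [h3, hθ, smul_theta] at h1
      rcases pair_of_theta hx00 (smul_ne hx0) h1 with h4 | h4
      · exact Or.inl (Subtype.ext h4)
      · exact Or.inr (Subtype.ext h4)
    · right
      obtain ⟨c, rfl⟩ := hN2
      rw [pow_mul]
      exact Subtype.ext (pow_fix h1 c)

end

end Pool.Agent.J4H9.Gal
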