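import Mathlib
import Pool.Agent.J4H9.Gal

/-!
# Frobenius elements with long cycles
-/

set_option autoImplicit false
set_option linter.unusedSectionVars false

namespace Pool.Agent.J4H9.Fr

open Polynomial NumberField Pool.Agent.W521.Frob Pool.Agent.J4H9.Per Pool.Agent.J4H9.Gal Function

/-- The reduction of `h` modulo `l` has an irreducible factor `u` of degree `r` such that
`T ^ 2 - X T + q` has a root modulo `u`, and a simple root `a` such that `a ^ 2 - 4 q` is not a
square. -/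
def PatE (q r : ℕ) (h : ℤ[X]) (l : ℕ) : Prop :=
  ∃ (u p : (ZMod l)[X]) (a : ZMod l), Irreducible u ∧ u.natDegree = r ∧
    u ∣ h.map (Int.castRingHom (ZMod l)) ∧ u ∣ p ^ 2 - X * p + C (q : ZMod l) ∧
    (h.map (Int.castRingHom (ZMod l))).eval a = 0 ∧
    (h.map (Int.castRingHom (ZMod l))).derivative.eval a ≠ 0 ∧ ¬ IsSquare (a ^ 2 - 4 * (q : ZMod l))

/-- The reduction of `h` modulo `l` has an irreducible factor of degree `d`. -/
def PatF (d : ℕ) (h : ℤ[X]) (l : ℕ) : Prop :=
  ∃ v : (ZMod l)[X], Irreducible v ∧ v.natDegree = d ∧ v ∣ h.map (Int.castRingHom (ZMod l))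

section field

variable {l : ℕ} [Fact l.Prime] {k : Type*} [Field k] [CharP k l]

/-- The period of a root of an irreducible polynomial under Frobenius. -/
theorem frob_period {u : (ZMod l)[X]} (hu : Irreducible u) {t : k}
    (ht : (u.map (ZMod.castHom dvd_rfl k)).eval t = 0) (n : ℕ) :
    t ^ l ^ n = t ↔ u.natDegree ∣ n := by
  have key := hu.natDegree_dvd_iff_dvd_X_pow_card_pow_sub_X (n := n)
  rw [Nat.card_zmod] at key
  constructor
  · intro h
    rw [key]
    by_contra hnd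
    obtain ⟨a, b, hab⟩ := (hu.coprime_iff_not_dvd).2 hnd
    have h1 := congrArg (fun p => (p.map (ZMod.castHom dvd_rfl k)).eval t) hab
    simp only [Polynomial.map_add, Polynomial.map_mul, Polynomial.map_sub, Polynomial.map_pow,
      map_X, eval_add, eval_mul, eval_sub, eval_pow, eval_X, Polynomial.map_one, eval_one] at h1
    rw [ht, h, sub_self, mul_zero, mul_zero, add_zero] at h1
    exact zero_ne_one h1
  · intro h
    obtain ⟨w, hw⟩ := key.1 h
    have h1 := congrArg (fun p => (p.map (ZMod.castHom dvd_rfl k)).eval t) hw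
    simp only [Polynomial.map_mul, Polynomial.map_sub, Polynomial.map_pow,
      map_X, eval_mul, eval_sub, eval_pow, eval_X] at h1
    rw [ht, zero_mul] at h1
    exact sub_eq_zero.1 h1

theorem map_cast (h : ℤ[X]) : (h.map (Int.castRingHom (ZMod l))).map (ZMod.castHom dvd_rfl k) =
    h.map (Int.castRingHom k) := by
  rw [Polynomial.map_map]
  congr 1
  exact RingHom.ext_int _ _

/-- Values of polynomials over the prime field. -/
theorem pow_eval (p : (ZMod l)[X]) (t : k) (n : ℕ) :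
    (p.map (ZMod.castHom dvd_rfl k)).eval t ^ l ^ n =
      (p.map (ZMod.castHom dvd_rfl k)).eval (t ^ l ^ n) := by
  rw [eval_map, eval_map]
  have h1 := Polynomial.hom_eval₂ p (ZMod.castHom dvd_rfl k) (iterateFrobenius k l n) t
  rw [iterateFrobenius_def, iterateFrobenius_def] at h1
  rw [h1]
  congr 1
  exact Subsingleton.elim _ _

/-- Roots of a factor of large degree are simple. -/
theorem deriv_ne {H u : (ZMod l)[X]} (hu : Irreducible u) (hH : H ≠ 0) (hd : u ∣ H)
    (hdeg : H.natDegree < 2 * u.natDegree) {t : k}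
    (ht : (u.map (ZMod.castHom dvd_rfl k)).eval t = 0) :
    (H.map (ZMod.castHom dvd_rfl k)).derivative.eval t ≠ 0 := by
  obtain ⟨w, rfl⟩ := hd
  have hw0 : w ≠ 0 := right_ne_zero_of_mul hH
  have hnd : ¬ u ∣ w := by
    intro h
    have h1 := natDegree_le_of_dvd h hw0
    rw [natDegree_mul hu.ne_zero hw0] at hdeg
    omega
  obtain ⟨a, b, hab⟩ := (hu.coprime_iff_not_dvd).2 hnd
  have h1 := congrArg (fun p => (p.map (ZMod.castHom dvd_rfl k)).eval t) hab
  simp only [Polynomial.map_add, Polynomial.map_mul, eval_add, eval_mul, Polynomial.map_one,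
    eval_one] at h1
  rw [ht, mul_zero, zero_add] at h1
  have h2 : (w.map (ZMod.castHom dvd_rfl k)).eval t ≠ 0 := by
    intro h
    rw [h, mul_zero] at h1
    exact zero_ne_one h1
  have hsep : u.Separable := PerfectField.separable_of_irreducible hu
  have h3 : (u.map (ZMod.castHom dvd_rfl k)).derivative.eval t ≠ 0 := by
    have hs := hsep.map (f := ZMod.castHom dvd_rfl k)
    exact hs.eval₂_derivative_ne_zero (RingHom.id k) ht
  rw [Polynomial.map_mul, derivative_mul, eval_add, eval_mul, eval_mul, ht, zero_mul, add_zero]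
  exact mul_ne_zero h3 h2

end field

universe u

section

variable {L : Type u} [Field L] [NumberField L] {l : ℕ} {k : Type u} [Field k]
  (φ : 𝓞 L →+* k)

theorem root_inj (h : ℤ[X]) (t t' : 𝓞 L) (ht : aeval t h = 0) (ht' : aeval t' h = 0)
    (hφ : φ t = φ t') (hd : (h.map (Int.castRingHom k)).derivative.eval (φ t) ≠ 0) : t = t' := by
  by_contra hne
  set H : (𝓞 L)[X] := h.map (Int.castRingHom (𝓞 L)) with hH
  have e1 : H.eval t = 0 := by rw [hH, eval_map]; exact ht
  have e2 : H.eval t' = 0 := by rw [hH, eval_map]; exact ht'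
  obtain ⟨c, hc⟩ := H.binomExpansion t (t' - t)
  rw [add_sub_cancel, e1, e2, zero_add] at hc
  have hdd : t' - t ≠ 0 := sub_ne_zero.2 (Ne.symm hne)
  have h1 : H.derivative.eval t + c * (t' - t) = 0 := by
    have h2 : (t' - t) * (H.derivative.eval t + c * (t' - t)) = 0 := by
      linear_combination (-1 : 𝓞 L) * hc
    exact (mul_eq_zero.1 h2).resolve_left hdd
  have h2 : φ (H.derivative.eval t) = 0 := by
    have h3 := congrArg φ h1
    rw [map_add, map_mul, map_sub, hφ, sub_self, mul_zero, add_zero, map_zero] at h3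
    exact h3
  apply hd
  rw [hH, derivative_map, eval_map, Polynomial.hom_eval₂] at h2
  rw [derivative_map, eval_map]
  rwa [RingHom.ext_int (φ.comp (Int.castRingHom (𝓞 L))) (Int.castRingHom k)] at h2

theorem prod_form {h : ℤ[X]} (hm : h.Monic) (hsplit : (h.map (algebraMap ℤ L)).Splits) :
    ∃ R' : Multiset (𝓞 L), h.map (algebraMap ℤ (𝓞 L)) = (R'.map (fun a => X - C a)).prod ∧
      h.map (Int.castRingHom k) = (R'.map (fun a => X - C (φ a))).prod := by
  have hlift : ∀ R : Multiset L, (∀ x ∈ R, IsIntegral ℤ x) →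
      ∃ R' : Multiset (𝓞 L), R'.map (algebraMap (𝓞 L) L) = R := by
    intro R
    induction R using Multiset.induction_on with
    | empty => exact fun _ => ⟨0, rfl⟩
    | cons a s ih =>
      intro hR
      obtain ⟨R', hR'⟩ := ih fun x hx => hR x (Multiset.mem_cons_of_mem hx)
      obtain ⟨a', ha'⟩ : ∃ a' : 𝓞 L, algebraMap (𝓞 L) L a' = a :=
        ⟨⟨a, hR a (Multiset.mem_cons_self a s)⟩, rfl⟩
      refine ⟨a' ::ₘ R', ?_⟩
      rw [Multiset.map_cons, hR', ha']
  obtain ⟨R', hR'⟩ := hlift (h.map (algebraMap ℤ L)).roots (by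
    intro x hx
    have h1 := (mem_roots'.1 hx).2
    rw [IsRoot.def, eval_map] at h1
    exact ⟨h, hm, h1⟩)
  have h1 : h.map (algebraMap ℤ L) = (h.map (algebraMap ℤ (𝓞 L))).map
      (algebraMap (𝓞 L) L) := by
    rw [Polynomial.map_map]
    congr 1
  have h2 : h.map (algebraMap ℤ (𝓞 L)) = (R'.map (fun a => X - C a)).prod := by
    apply Polynomial.map_injective (algebraMap (𝓞 L) L) RingOfIntegers.coe_injective
    rw [← h1, hsplit.eq_prod_roots_of_monic (hm.map _), ← hR', Polynomial.map_multiset_prod,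
      Multiset.map_map, Multiset.map_map]
    congr 1
    refine Multiset.map_congr rfl fun x _ => ?_
    simp
  refine ⟨R', h2, ?_⟩
  have h5 : h.map (Int.castRingHom k) = (h.map (algebraMap ℤ (𝓞 L))).map φ := by
    rw [Polynomial.map_map]
    congr 1
    exact RingHom.ext_int _ _
  rw [h5, h2, Polynomial.map_multiset_prod, Multiset.map_map]
  congr 1
  refine Multiset.map_congr rfl fun x _ => ?_
  simp

theorem exists_lift {h : ℤ[X]} (hm : h.Monic) (hsplit : (h.map (algebraMap ℤ L)).Splits) (t₀ : k)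
    (h3 : (h.map (Int.castRingHom k)).eval t₀ = 0) :
    ∃ t₁ : 𝓞 L, aeval t₁ h = 0 ∧ φ t₁ = t₀ := by
  obtain ⟨R', h2, h4⟩ := prod_form φ hm hsplit
  rw [h4, eval_multiset_prod, Multiset.map_map, Multiset.prod_eq_zero_iff, Multiset.mem_map] at h3
  obtain ⟨t, ht, ht2⟩ := h3
  refine ⟨t, ?_, ?_⟩
  · have h5 : (h.map (algebraMap ℤ (𝓞 L))).eval t = 0 := by
      rw [h2, eval_multiset_prod, Multiset.map_map]
      refine Multiset.prod_eq_zero (Multiset.mem_map.2 ⟨t, ht, ?_⟩)
      simp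
    rw [eval_map] at h5
    exact h5
  · simp only [Function.comp_apply, eval_sub, eval_X, eval_C] at ht2
    exact (sub_eq_zero.1 ht2).symm

include φ in
theorem splits_red {h : ℤ[X]} (hm : h.Monic) (hsplit : (h.map (algebraMap ℤ L)).Splits) :
    (h.map (Int.castRingHom k)).Splits := by
  obtain ⟨R', -, h4⟩ := prod_form φ hm hsplit
  rw [h4]
  refine Splits.multisetProd ?_
  intro p hp
  obtain ⟨a, -, rfl⟩ := Multiset.mem_map.1 hp
  exact Splits.X_sub_C _

variable [CharP k l] [Fact l.Prime] {σ : Gal(L/ℚ)} (hσ : ∀ x : 𝓞 L, φ (σ • x) = φ x ^ l)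

include hσ in
theorem frob_pow (n : ℕ) (x : 𝓞 L) : φ (σ ^ n • x) = φ x ^ l ^ n := by
  induction n generalizing x with
  | zero => simp
  | succ n ih => rw [pow_succ, mul_smul, ih, hσ, ← pow_mul, ← pow_succ']

theorem aeval_smul_int (h : ℤ[X]) (γ : Gal(L/ℚ)) (t : 𝓞 L) (ht : aeval t h = 0) :
    aeval (γ • t) h = 0 := by
  have h2 := Polynomial.hom_eval₂ h (algebraMap ℤ (𝓞 L))
    (MulSemiringAction.toRingHom (Gal(L/ℚ)) (𝓞 L) γ) t
  have h3 : eval₂ (algebraMap ℤ (𝓞 L)) t h = 0 := ht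
  rw [h3, map_zero, RingHom.ext_int ((MulSemiringAction.toRingHom (Gal(L/ℚ)) (𝓞 L) γ).comp
    (algebraMap ℤ (𝓞 L))) (algebraMap ℤ (𝓞 L))] at h2
  exact h2.symm

/-- The root over a root of a factor of large degree. -/
theorem root_over {h : ℤ[X]} (hm : h.Monic) (hsplit : (h.map (algebraMap ℤ L)).Splits) {g : ℕ}
    (hdeg : h.natDegree ≤ g) {v : (ZMod l)[X]} (hv : Irreducible v) (hgd : g < 2 * v.natDegree)
    (hvd : v ∣ h.map (Int.castRingHom (ZMod l))) :
    ∃ θ : 𝓞 L, aeval θ h = 0 ∧ (v.map (ZMod.castHom dvd_rfl k)).eval (φ θ) = 0 ∧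
      (h.map (Int.castRingHom k)).derivative.eval (φ θ) ≠ 0 := by
  have hmap := map_cast (l := l) (k := k) h
  have hne : h.map (Int.castRingHom (ZMod l)) ≠ 0 := (hm.map _).ne_zero
  have hdvd : v.map (ZMod.castHom dvd_rfl k) ∣ h.map (Int.castRingHom k) := by
    rw [← hmap]
    exact Polynomial.map_dvd _ hvd
  have hs : (v.map (ZMod.castHom dvd_rfl k)).Splits :=
    (splits_red φ hm hsplit).of_dvd ((hm.map _).ne_zero) hdvd
  obtain ⟨t, ht⟩ := hs.exists_eval_eq_zero (by
    rw [degree_map]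
    exact (degree_pos_of_irreducible hv).ne')
  obtain ⟨θ, h1, h2⟩ := exists_lift φ hm hsplit t (by
    obtain ⟨w, hw⟩ := hdvd
    rw [hw, eval_mul, ht, zero_mul])
  refine ⟨θ, h1, by rw [h2, ht], ?_⟩
  rw [h2, ← hmap]
  refine deriv_ne hv hne hvd ?_ ht
  rw [hm.natDegree_map]
  omega

include hσ in
/-- **Long cycles.** -/
theorem long_of_pat {h : ℤ[X]} (hm : h.Monic) (hsplit : (h.map (algebraMap ℤ L)).Splits) {g d : ℕ}
    (hdeg : h.natDegree ≤ g) (hgd : g < 2 * d) {v : (ZMod l)[X]} (hv : Irreducible v)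
    (hvdeg : v.natDegree = d) (hvd : v ∣ h.map (Int.castRingHom (ZMod l))) :
    ∃ θ : 𝓞 L, aeval θ h = 0 ∧ (v.map (ZMod.castHom dvd_rfl k)).eval (φ θ) = 0 ∧
      minimalPeriod (σ • ·) θ = d := by
  obtain ⟨θ, h1, h2, h3⟩ := root_over φ hm hsplit hdeg hv (by rw [hvdeg]; exact hgd) hvd
  have hd : 0 < d := by
    rw [← hvdeg]
    exact hv.natDegree_pos
  refine ⟨θ, h1, h2, per_eq hd ?_ ?_⟩
  · refine (root_inj φ h θ _ h1 (aeval_smul_int h _ θ h1) ?_ h3).symm
    rw [frob_pow φ hσ, (frob_period hv h2 d).2 (by rw [hvdeg])]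
  · intro m hm0 hmd heq
    have h4 := congrArg φ heq
    rw [frob_pow φ hσ, frob_period hv h2, hvdeg] at h4
    exact absurd (Nat.le_of_dvd hm0 h4) (by omega)

end

section

variable {L : Type} [Field L] [NumberField L] {l : ℕ} {k : Type} [Field k]
  (φ : 𝓞 L →+* k) [CharP k l] [Fact l.Prime] {σ : Gal(L/ℚ)} (hσ : ∀ x : 𝓞 L, φ (σ • x) = φ x ^ l)

theorem coe_smul (γ : Gal(L/ℚ)) (x : 𝓞 L) : ((γ • x : 𝓞 L) : L) = γ • (x : L) := rfl

theorem period_coe {d : ℕ} (hd : 0 < d) {θ : 𝓞 L} (h : minimalPeriod (σ • ·) θ = d) :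
    minimalPeriod (σ • ·) (θ : L) = d := by
  have key : ∀ n : ℕ, σ ^ n • (θ : L) = θ ↔ d ∣ n := by
    intro n
    rw [← pow_smul_iff h n, ← coe_smul]
    exact ⟨fun h => RingOfIntegers.coe_injective h, fun h => by rw [h]⟩
  refine per_eq hd ((key d).2 dvd_rfl) ?_
  intro m hm hmd h1
  exact absurd (Nat.le_of_dvd hm ((key m).1 h1)) (by omega)

include hσ in
theorem longEl_of_pat {h : ℤ[X]} (hm : h.Monic) (hsplit : (h.map (algebraMap ℤ L)).Splits)
    {g d : ℕ} (hdeg : h.natDegree ≤ g) (hgd : g < 2 * d) (hd0 : 0 < d) (hp : PatF d h l) :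
    ∃ θ : L, LongEl d h σ θ := by
  obtain ⟨v, hv, hvdeg, hvd⟩ := hp
  obtain ⟨θ, h1, -, h3⟩ := long_of_pat φ hσ hm hsplit hdeg hgd hv hvdeg hvd
  refine ⟨θ, ?_, period_coe hd0 h3⟩
  rw [aeval_algebraMap_apply, h1, map_zero]

include hσ in
theorem splitEl_of_pat {q : ℕ} {h : ℤ[X]} (hm : h.Monic)
    (hsplit : (h.map (algebraMap ℤ L)).Splits)
    (hsplit2 : ∀ θ : L, aeval θ h = 0 → ∃ α : L, α ^ 2 + q = θ * α)
    {g r : ℕ} (hdeg : h.natDegree ≤ g) (hgr : g < 2 * r) (hr : r.Prime) (hr2 : r ≠ 2)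
    (hl2 : l ≠ 2) (hlq : ¬ l ∣ q) (hp : PatE q r h l) :
    ∃ x₀ y₀ : L, SplitEl q r (weil q h) σ x₀ y₀ := by
  obtain ⟨u, p, a, hu, hudeg, hud, hpu, ha0, ha1, ha2⟩ := hp
  have hl : l.Prime := Fact.out
  have hq0 : q ≠ 0 := by
    rintro rfl
    exact hlq (dvd_zero _)
  have hqk : (q : k) ≠ 0 := by
    rw [Ne, CharP.cast_eq_zero_iff k l]
    exact hlq
  have hqL : (q : L) ≠ 0 := by exact_mod_cast hq0
  have h2k : (2 : k) ≠ 0 := by
    have h1 : ((2 : ℕ) : k) ≠ 0 := by
      rw [Ne, CharP.cast_eq_zero_iff k l]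
      intro h1
      exact hl2 ((Nat.prime_dvd_prime_iff_eq hl Nat.prime_two).1 h1)
    exact_mod_cast h1
  obtain ⟨θ, h1, h2, h3⟩ := long_of_pat φ hσ hm hsplit hdeg hgr hu hudeg hud
  -- the square root of the discriminant
  have hα : ∀ t : 𝓞 L, aeval t h = 0 → ∃ (α : L) (b : 𝓞 L), aeval α (weil q h) = 0 ∧
      (b : L) = α ∧ b ^ 2 + q = t * b ∧ (q : L) / α = ((t - b : 𝓞 L) : L) ∧ α ≠ 0 ∧
      (t : L) = α + q / α := by
    intro t ht
    have htL : aeval (t : L) h = 0 := by rw [aeval_algebraMap_apply, ht, map_zero]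
    obtain ⟨α, hα⟩ := hsplit2 t htL
    have hα0 : α ≠ 0 := by
      rintro rfl
      rw [zero_pow two_ne_zero, zero_add, mul_zero] at hα
      exact hqL hα
    have hαw : aeval α (weil q h) = 0 := by
      rw [aeval_weil q h α t hα, htL, mul_zero]
    have hint : IsIntegral ℤ α := ⟨weil q h, weil_monic q hm, hαw⟩
    have hθα : (t : L) = α + q / α := by
      field_simp
      rw [hα]
    refine ⟨α, ⟨α, hint⟩, hαw, rfl, ?_, ?_, hα0, hθα⟩
    · apply RingOfIntegers.ext
      change α ^ 2 + (algebraMap (𝓞 L) L) (q : 𝓞 L) = (t : L) * α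
      rw [map_natCast]
      exact hα
    · have e : ((t - ⟨α, hint⟩ : 𝓞 L) : L) = (t : L) - α := map_sub _ _ _
      rw [e, hθα]
      ring
  have hquad : ∀ b t : 𝓞 L, b ^ 2 + q = t * b → φ b ^ 2 + q = φ t * φ b := by
    intro b t hb
    have h1 := congrArg φ hb
    rwa [map_add, map_mul, map_pow, map_natCast] at h1
  have hγq : ∀ (γ : Gal(L/ℚ)) (b t : 𝓞 L), b ^ 2 + q = t * b →
      (γ • b) ^ 2 + (q : 𝓞 L) = (γ • t) * (γ • b) := by
    intro γ b t hb
    have h1 := congrArg (fun x => γ • x) hb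
    simp only [smul_add, smul_mul', smul_pow'] at h1
    have h2 : γ • ((q : ℕ) : 𝓞 L) = (q : 𝓞 L) :=
      map_natCast (MulSemiringAction.toRingHom (Gal(L/ℚ)) (𝓞 L) γ) q
    rwa [h2] at h1
  have hsame : ∀ b b' t : 𝓞 L, b ^ 2 + q = t * b → b' ^ 2 + q = t * b' → b = b' ∨ b = t - b' := by
    intro b b' t hb hb'
    have h1 : (b - b') * (b + b' - t) = 0 := by linear_combination hb - hb'
    rcases mul_eq_zero.1 h1 with h2 | h2
    · exact Or.inl (sub_eq_zero.1 h2)
    · right
      linear_combination h2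
  -- the number over the long factor
  obtain ⟨x₀, b, hx1, hb, hbt, hbinv, hx0, hθx⟩ := hα θ h1
  have hT := hquad b θ hbt
  set t := φ θ with ht
  set T := φ b with hTdef
  have hp1 : ((p ^ 2 - X * p + C (q : ZMod l)).map (ZMod.castHom dvd_rfl k)).eval t = 0 := by
    obtain ⟨w, hw⟩ := hpu
    rw [hw, Polynomial.map_mul, eval_mul, h2, zero_mul]
  set P := (p.map (ZMod.castHom dvd_rfl k)).eval t with hP
  have hp2 : P ^ 2 - t * P + q = 0 := by
    simp only [Polynomial.map_add, Polynomial.map_sub, Polynomial.map_mul, Polynomial.map_pow,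
      map_X, eval_add, eval_sub, eval_mul, eval_pow, eval_X] at hp1
    rw [map_C, eval_C, map_natCast] at hp1
    exact hp1
  have htr : t ^ l ^ r = t := (frob_period hu h2 r).2 (by rw [hudeg])
  have hPr : P ^ l ^ r = P := by
    rw [hP, pow_eval, htr]
  have hTr : T ^ l ^ r = T := by
    have h4 : (T - P) * (T - (t - P)) = 0 := by linear_combination hT - hp2
    rcases mul_eq_zero.1 h4 with h5 | h5
    · rw [sub_eq_zero.1 h5, hPr]
    · have h6 : T = t - P := sub_eq_zero.1 h5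
      rw [h6, sub_pow_char_pow, hPr, htr]
  have hθr : σ ^ r • θ = θ := (pow_smul_iff h3 r).2 dvd_rfl
  have hne2 : ∀ n : ℕ, t ^ l ^ n = t → r ∣ n := fun n hn => by
    have := (frob_period hu h2 n).1 hn
    rwa [hudeg] at this
  have hTne : T ≠ t - T := by
    intro h4
    have h5 : t ^ 2 = 4 * q := by
      have e1 : t = 2 * T := by linear_combination (-1 : k) * h4
      have e2 : T ^ 2 = q := by rw [e1] at hT; linear_combination -hT
      rw [e1]
      linear_combination 4 * e2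
    have h6 : (t ^ l) ^ 2 = t ^ 2 := by
      have e : (4 * (q : k)) = ((4 * q : ℕ) : k) := by push_cast; rfl
      rw [← pow_mul, mul_comm, pow_mul, h5, e]
      have := map_natCast (frobenius k l) (4 * q)
      rwa [frobenius_def] at this
    have h7 : t ^ l ^ 2 = t := by
      rw [sq, pow_mul]
      rcases sq_eq_sq_iff_eq_or_eq_neg.1 h6 with h8 | h8
      · rw [h8, h8]
      · have hodd : Odd l := hl.odd_of_ne_two hl2
        rw [h8, hodd.neg_pow, h8, neg_neg]
    exact hr2 ((Nat.prime_dvd_prime_iff_eq hr Nat.prime_two).1 (hne2 2 h7))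
  have hbr : σ ^ r • b = b := by
    have h4 := hγq (σ ^ r) b θ hbt
    rw [hθr] at h4
    rcases hsame _ _ _ h4 hbt with h5 | h5
    · exact h5
    · exfalso
      have h6 := congrArg φ h5
      rw [frob_pow φ hσ, map_sub] at h6
      exact hTne (by rw [← hTr]; exact h6.trans (by rw [hTr]))
  have hθ1 : σ • θ ≠ θ := by
    intro h4
    have h5 := (pow_smul_iff h3 1).1 (by rw [pow_one]; exact h4)
    have := Nat.le_of_dvd one_pos h5
    have := hr.two_le
    omega
  -- the number over the simple root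
  have hmap := map_cast (l := l) (k := k) h
  have hak : (h.map (Int.castRingHom k)).eval (ZMod.castHom dvd_rfl k a) = 0 := by
    rw [← hmap, eval_map, eval₂_hom, ha0, map_zero]
  obtain ⟨s, hs1, hs2⟩ := exists_lift φ hm hsplit _ hak
  have hsd : (h.map (Int.castRingHom k)).derivative.eval (φ s) ≠ 0 := by
    rw [hs2, ← hmap, derivative_map, eval_map, eval₂_hom, Ne, map_eq_zero]
    exact ha1
  have hψl : (ZMod.castHom dvd_rfl k a : k) ^ l = ZMod.castHom dvd_rfl k a := by
    rw [← map_pow, ZMod.pow_card]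
  have hσs : σ • s = s := by
    refine (root_inj φ h s _ hs1 (aeval_smul_int h σ s hs1) ?_ hsd).symm
    rw [hσ, hs2, hψl]
  obtain ⟨y₀, c, hy1, hc, hct, hcinv, hy0, hsy⟩ := hα s hs1
  have hd0 : a ^ 2 - 4 * (q : ZMod l) ≠ 0 := by
    intro h0
    rw [h0] at ha2
    exact ha2 (IsSquare.zero)
  have hdpow : (a ^ 2 - 4 * (q : ZMod l)) ^ (l / 2) = -1 := by
    rcases ZMod.pow_div_two_eq_neg_one_or_one l hd0 with h1 | h1
    · exact absurd ((ZMod.euler_criterion l hd0).2 h1) ha2
    · exact h1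
  have hq1 := hquad c s hct
  rw [hs2] at hq1
  set ψa : k := ZMod.castHom dvd_rfl k a with hψa
  have hy : (2 * φ c - ψa) ^ 2 = ZMod.castHom dvd_rfl k (a ^ 2 - 4 * (q : ZMod l)) := by
    rw [map_sub, map_pow, map_mul, map_natCast, map_ofNat]
    linear_combination (4 : k) * hq1
  have hl' : l = 2 * (l / 2) + 1 := by
    rcases hl.eq_two_or_odd' with h1 | h1
    · exact absurd h1 hl2
    · obtain ⟨c, hc⟩ := h1
      omega
  have hyl : (2 * φ c - ψa) ^ l = -(2 * φ c - ψa) := by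
    have e1 : (2 * φ c - ψa) ^ l = (2 * φ c - ψa) ^ (2 * (l / 2) + 1) := congrArg _ hl'
    rw [e1, pow_succ, pow_mul, hy, ← map_pow, hdpow, map_neg, map_one]
    ring
  have h2l : (2 : k) ^ l = 2 := by
    have := map_natCast (frobenius k l) 2
    rw [frobenius_def] at this
    exact_mod_cast this
  have hcl : φ c ^ l = φ (s - c) := by
    have h1 : (2 * φ c - ψa) ^ l = (2 * φ c) ^ l - ψa ^ l := sub_pow_char _ _
    rw [h1, hψl, mul_pow, h2l] at hyl
    rw [map_sub, hs2]
    apply mul_left_cancel₀ h2k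
    linear_combination hyl
  have hσc : σ • c = s - c := by
    have h4 := hγq σ c s hct
    rw [hσs] at h4
    rcases hsame _ _ _ h4 hct with h5 | h5
    · exfalso
      have h6 := congrArg φ h5
      rw [hσ, hcl, map_sub, hs2] at h6
      have h7 : 2 * φ c - ψa = 0 := by linear_combination (-1 : k) * h6
      rw [h7, zero_pow two_ne_zero] at hy
      exact hd0 ((map_eq_zero _).1 hy.symm)
    · exact h5
  refine ⟨x₀, y₀, hx1, hy1, ?_, ?_, ?_, ?_⟩
  · rw [← hb, ← coe_smul, hbr]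
  · intro h4
    apply hθ1
    apply RingOfIntegers.coe_injective
    change ((σ • θ : 𝓞 L) : L) = (θ : L)
    rw [coe_smul, hθx, smul_theta, h4]
  · intro h4
    apply hθ1
    apply RingOfIntegers.coe_injective
    change ((σ • θ : 𝓞 L) : L) = (θ : L)
    rw [coe_smul, hθx, smul_theta, h4, div_div_cancel₀ hqL, add_comm]
  · rw [hcinv, ← hσc, coe_smul, hc]

end

end Pool.Agent.J4H9.Fr
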