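import Mathlib
import Pool.Agent.J4H9.Gal
import Pool.Agent.W484.BB.Three5

/-!
# No multiplicative relations
-/

set_option autoImplicit false

namespace Pool.Agent.J4H9.NoRel

open Polynomial NumberField Pool.Agent.W521.Frob Pool.Agent.W521.Criterion Pool.Agent.J4H9.Grp
  Pool.Agent.J4H9.Per Pool.Agent.J4H9.SatQ Pool.Agent.J4H9.Gal Function

theorem coprime_N {r : ℕ} (hr : r.Prime) (hr2 : r ≠ 2) :
    (2 * (r - 1).factorial * (r + 1)).Coprime r := by
  refine Nat.Coprime.mul_left (Nat.Coprime.mul_left ?_ ?_) ?_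
  · exact (Nat.coprime_primes Nat.prime_two hr).2 (Ne.symm hr2)
  · rw [Nat.coprime_comm, hr.coprime_iff_not_dvd, hr.dvd_factorial]
    have := hr.pos
    omega
  · rw [Nat.coprime_comm]
    simp

section

variable {I : Type*} {q : ℕ} {h : I → ℤ[X]} {L : Type} [Field L] [NumberField L]

/-- The number underlying a root. -/
def vl (y : Rt q h L) : L := (y : L)

theorem vl_inj : Function.Injective (vl : Rt q h L → L) := Subtype.val_injective

theorem finite_Rt [Finite I] (hm : ∀ i, (h i).Monic) : Finite (Rt q h L) := by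
  classical
  cases nonempty_fintype I
  have h1 : {x : L | ∃ i, aeval x (weil q (h i)) = 0}.Finite := by
    refine (Finset.finite_toSet (Finset.univ.biUnion fun i => rts (weil q (h i)) L)).subset ?_
    rintro x ⟨i, hi⟩
    rw [Finset.mem_coe, Finset.mem_biUnion]
    exact ⟨i, Finset.mem_univ _, (mem_rts (weil_monic q (hm i)).ne_zero x).2 hi⟩
  exact h1.to_subtype

theorem zpow_transfer {q : ℕ} (j : L →+* ℂ) {x : L} (hx : ‖j x‖ ^ 2 = q) {s : ℕ}
    {e : ℤ} (h1 : x ^ s = (q : L) ^ e) : (x ^ 2) ^ s = (q : L) ^ s := by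
  have h2 := congrArg (fun z => ‖j z‖ ^ 2) h1
  simp only [map_pow, map_zpow₀, map_natCast, norm_pow, norm_zpow, Complex.norm_natCast] at h2
  have h3 : ((q : ℝ)) ^ s = ((q : ℝ) ^ e) ^ 2 := by
    rw [← h2, ← hx]
    ring
  have h4 : ((q : ℚ)) ^ s = ((q : ℚ) ^ e) ^ 2 := by
    have : (((q : ℚ) ^ s : ℚ) : ℝ) = ((((q : ℚ) ^ e) ^ 2 : ℚ) : ℝ) := by
      push_cast
      exact h3
    exact Rat.cast_injective this
  have h5 : ((q : L)) ^ s = ((q : L) ^ e) ^ 2 := by
    have := congrArg (algebraMap ℚ L) h4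
    rw [map_pow, map_pow, map_zpow₀, map_natCast] at this
    exact this
  rw [h5, ← h1]
  ring

/-- **No relations in the number field.** -/
theorem counts_Rt [Finite I] [DecidableEq I] [DecidableEq (Rt q h L)] (hq : q ≠ 0) (hm : ∀ i, (h i).Monic)
    {g r : ℕ}
    (hdeg : ∀ i, (h i).natDegree ≤ g) (hr : r.Prime) (hr2 : r ≠ 2) (hgr : g < 2 * r)
    (htrans : ∀ i, ∀ α β : L, aeval α (weil q (h i)) = 0 → aeval β (weil q (h i)) = 0 →
      ∃ τ : L ≃ₐ[ℚ] L, τ • α = β ∨ τ • α = q / β)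
    (hE : ∀ i, ∃ (σ : L ≃ₐ[ℚ] L) (x₀ y₀ : L), SplitEl q r (weil q (h i)) σ x₀ y₀)
    (hEF : ∀ i j, j ≠ i → ∃ (σ : L ≃ₐ[ℚ] L) (x₀ y₀ θ : L),
      SplitEl q r (weil q (h i)) σ x₀ y₀ ∧ LongEl (r + 1) (h j) σ θ)
    (j : L →+* ℂ) (hnorm : ∀ i, ∀ x : L, aeval x (weil q (h i)) = 0 → ‖j x‖ ^ 2 = q)
    (ρ : L) (hρ : ∀ σ γ : L ≃ₐ[ℚ] L, σ ^ (r - 1).factorial • (γ • ρ) = γ • ρ) (hρ0 : ρ ≠ 0)
    (T : List (Rt q h L)) (s c M : ℕ) (hs : 0 < s)
    (hM : 0 < M) (hrel : ((T.map vl).prod ^ s * ρ) ^ M = (((q : L) ^ s) ^ c) ^ M)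
    (x : Rt q h L) : T.count x = T.count (bar hq hm x) := by
  have hqL : (q : L) ≠ 0 := by exact_mod_cast hq
  have : Finite (Rt q h L) := finite_Rt hm
  cases nonempty_fintype (Rt q h L)
  cases nonempty_fintype I
  -- the quotient group
  let Q : Lˣ := Units.mk0 (q : L) hqL
  let φ : (L ≃ₐ[ℚ] L) →* Monoid.End Lˣ := MulDistribMulAction.toMonoidEnd (L ≃ₐ[ℚ] L) Lˣ
  have hφc : ∀ (γ : L ≃ₐ[ℚ] L) (u : Lˣ), ((φ γ u : Lˣ) : L) = γ • (u : L) := fun γ u => rfl
  have hφ : ∀ γ, φ γ Q = Q := by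
    intro γ
    apply Units.ext
    rw [hφc]
    change γ • (q : L) = q
    rw [AlgEquiv.smul_def, map_natCast]
  have hne0 : ∀ y : Rt q h L, vl y ≠ 0 := fun y => by
    obtain ⟨i, hi⟩ := y.2
    exact root_ne_zero hq (hm i) hi
  let A := SatQ.act Q φ hφ
  let m0 : Rt q h L → Lˣ := fun y => Units.mk0 (vl y) (hne0 y)
  let w : Rt q h L → Wq Q := fun y => cl Q (m0 y)
  have hw : ∀ (γ : L ≃ₐ[ℚ] L) y, w (γ • y) = A γ (w y) := by
    intro γ y
    have e : m0 (γ • y) = φ γ (m0 y) := by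
      apply Units.ext
      rw [hφc]
      rfl
    change cl Q (m0 (γ • y)) = cl Q (φ γ (m0 y))
    rw [e]
  have hodd : ∀ y, w (bar hq hm y) = - w y := by
    intro y
    have e : m0 (bar hq hm y) = Q * (m0 y)⁻¹ := by
      apply Units.ext
      rw [Units.val_mul, Units.val_inv_eq_inv_val]
      change (q : L) / (vl y) = q * (vl y)⁻¹
      rw [div_eq_mul_inv]
    change cl Q (m0 (bar hq hm y)) = - cl Q (m0 y)
    rw [e, cl_mul, cl_self, zero_add, cl_inv]
  have htf := torsion_free Q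
  -- the relation
  let R : Lˣ := Units.mk0 ρ hρ0
  have hsumT : (T.map w).sum = cl Q ((T.map m0).prod) := by
    rw [cl_prod, List.map_map]
    rfl
  have hrelW : s • (T.map w).sum + cl Q R = 0 := by
    refine htf (M : ℤ) _ (by exact_mod_cast hM.ne') ?_
    rw [hsumT, ← cl_pow, ← cl_mul, natCast_zsmul, ← cl_pow, cl_eq_zero, mem_sat]
    refine ⟨1, one_pos, ((s * c * M : ℕ) : ℤ), ?_⟩
    rw [pow_one, zpow_natCast]
    apply Units.ext
    have h1 : (((T.map m0).prod : Lˣ) : L) = (T.map vl).prod := by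
      have h2 := map_list_prod (Units.coeHom L) (T.map m0)
      rw [List.map_map] at h2
      exact h2
    have h3 : ((((T.map m0).prod ^ s * R) ^ M : Lˣ) : L) = ((T.map vl).prod ^ s * ρ) ^ M := by
      rw [Units.val_pow_eq_pow_val, Units.val_mul, Units.val_pow_eq_pow_val, h1]
      rfl
    rw [h3, hrel, Units.val_pow_eq_pow_val, ← pow_mul, ← pow_mul, mul_assoc]
    rfl
  -- the coefficients
  let c' : Rt q h L → ℤ := fun y => s * ((T.count y : ℤ) - T.count (bar hq hm y))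
  have hbb := bar_bar (L := L) hq hm
  have hbs := bar_smul (L := L) hq hm
  have hc' : ∀ y, c' (bar hq hm y) = - c' y := by
    intro y
    simp only [c']
    rw [hbb]
    ring
  have hsum1 : ∑ y, (T.count y : ℤ) • w y = (T.map w).sum := by
    rw [Finset.sum_list_map_count T w]
    symm
    calc ∑ m ∈ T.toFinset, List.count m T • w m = ∑ m ∈ T.toFinset, (List.count m T : ℤ) • w m :=
          Finset.sum_congr rfl fun m _ => by rw [natCast_zsmul]
      _ = ∑ y, (T.count y : ℤ) • w y := by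
          refine Finset.sum_subset (Finset.subset_univ _) fun m _ hm => ?_
          rw [List.mem_toFinset] at hm
          rw [List.count_eq_zero.2 hm, Nat.cast_zero, zero_smul]
  have hsum2 : ∑ y, (T.count (bar hq hm y) : ℤ) • w y = - (T.map w).sum := by
    rw [← hsum1, ← Finset.sum_neg_distrib]
    let e : Rt q h L ≃ Rt q h L := ⟨bar hq hm, bar hq hm, hbb, hbb⟩
    rw [← Equiv.sum_comp e (fun y => (T.count (bar hq hm y) : ℤ) • w y)]
    refine Finset.sum_congr rfl fun y _ => ?_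
    change (T.count (bar hq hm (bar hq hm y)) : ℤ) • w (bar hq hm y) = _
    rw [hbb, hodd, smul_neg]
  have hrel' : ∑ y, c' y • w y = - ((2 : ℤ) • cl Q R) := by
    have e : ∑ y, c' y • w y = (s : ℤ) • ((T.map w).sum + (T.map w).sum) := by
      simp only [c', mul_smul, sub_smul]
      rw [← Finset.smul_sum, Finset.sum_sub_distrib, hsum1, hsum2, sub_neg_eq_add]
    have h1 : (s : ℤ) • (T.map w).sum = - cl Q R := by
      rw [natCast_zsmul]
      exact eq_neg_of_add_eq_zero_left hrelW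
    rw [e, smul_add, h1, two_zsmul, neg_add]
  -- the conjugates of `ρ` are fixed by the powers
  have hfixρ : ∀ (σ γ : L ≃ₐ[ℚ] L) (n : ℕ), A (σ ^ ((r - 1).factorial * n)) (A γ (cl Q R)) =
      A γ (cl Q R) := by
    intro σ γ n
    have h1 : σ ^ (r - 1).factorial • (γ • ρ) = γ • ρ := hρ σ γ
    have h2 : φ (σ ^ ((r - 1).factorial * n)) (φ γ R) = φ γ R := by
      apply Units.ext
      rw [hφc, hφc]
      change _ • γ • ρ = γ • ρ
      rw [pow_mul]
      exact pow_fix h1 n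
    change cl Q (φ (σ ^ ((r - 1).factorial * n)) (φ γ R)) = cl Q (φ γ R)
    rw [h2]
  have hfixu : ∀ (σ γ : L ≃ₐ[ℚ] L) (n : ℕ), A (σ ^ ((r - 1).factorial * n))
      (A γ (- ((2 : ℤ) • cl Q R))) = A γ (- ((2 : ℤ) • cl Q R)) := by
    intro σ γ n
    rw [map_neg, map_neg, map_zsmul, map_zsmul, hfixρ]
  -- the block of `x`
  obtain ⟨i, hxi⟩ := x.2
  set N := 2 * (r - 1).factorial * (r + 1) with hN
  have hNc := coprime_N hr hr2
  have hNd : 2 * (r - 1).factorial ∣ N := Dvd.intro _ rfl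
  have hN' : N = (r - 1).factorial * (2 * (r + 1)) := by rw [hN]; ring
  obtain ⟨σ, x₀, y₀, hs1⟩ := hE i
  have hcyc := cyc_of hq hm i (hdeg i) hr hr2 hgr (htrans i) hs1 hNc hNd
  have hchoose : ∀ k : I, ∃ (σ' : L ≃ₐ[ℚ] L) (x' y' : Rt q h L), k ≠ i →
      Cyc (bar hq hm) (blk q h L i) r (σ' ^ N) σ' x' y' ∧ ∀ z ∈ blk q h L k, σ' ^ N • z = z := by
    intro k
    by_cases hk : k = i
    · exact ⟨1, x, x, fun h => absurd hk h⟩
    · obtain ⟨σ', x₀', y₀', θ, h1, h2⟩ := hEF i k hk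
      refine ⟨σ', ⟨x₀', i, h1.rx⟩, ⟨y₀', i, h1.ry⟩, fun _ =>
        ⟨cyc_of hq hm i (hdeg i) hr hr2 hgr (htrans i) h1 hNc hNd, ?_⟩⟩
      intro z hz
      apply Subtype.ext
      change σ' ^ N • (z : L) = z
      rcases fix_or hq (hm k) (hdeg k) (Nat.succ_pos r) (show g < r + 1 + r by omega) h2.rx h2.per
        (z : L) hz with ⟨m, h3⟩ | h3
      · have hz0 : (z : L) ≠ 0 := root_ne_zero hq (hm k) hz
        have h4 : σ' ^ (r + 1) • ((z : L) + q / z) = z + q / z := by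
          rw [h3, ← mul_smul, ← pow_add, pow_smul_eq_iff h2.per]
          simp [Nat.ModEq]
        have h5 := sq_fix hz0 hqL h4
        have e : N = (r + 1) * 2 * (r - 1).factorial := by rw [hN]; ring
        rw [e, pow_mul, pow_mul]
        exact pow_fix h5 _
      · rw [hN, pow_mul]
        exact pow_fix h3 _
  choose σ' x' y' hσ' using hchoose
  have hne : ∃ y ∈ blk q h L i, w y ≠ 0 := by
    refine ⟨⟨x₀, i, hs1.rx⟩, hs1.rx, ?_⟩
    intro h0
    have h1 : cl Q (m0 ⟨x₀, i, hs1.rx⟩) = 0 := h0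
    rw [cl_eq_zero, mem_sat] at h1
    obtain ⟨s', hs', e, h2⟩ := h1
    have h3 : x₀ ^ s' = (q : L) ^ e := by
      have h4 := congrArg (fun u : Lˣ => (u : L)) h2
      simp only [Units.val_pow_eq_pow_val, Units.val_zpow_eq_zpow_val] at h4
      exact h4
    obtain ⟨γ, hγ⟩ := htrans i x₀ y₀ hs1.rx hs1.ry
    exact hs1.not_torsion hq (hm i) hr hr2 γ hγ s' hs' (zpow_transfer j (hnorm i x₀ hs1.rx) h3)
  have key := multi htf A w hw hbb hbs hodd (blk q h L) (fun i g x hx => blk_smul i g x hx) hr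
    (hr.odd_of_ne_two hr2) i hcyc hne (fun k => σ' k ^ N) σ' x' y' (fun k hk => (hσ' k hk).1)
    (fun k hk => (hσ' k hk).2) (Finset.univ.erase i) (Finset.notMem_erase i _) c' hc'
    (fun y _ => by
      obtain ⟨k, hk⟩ := y.2
      by_cases hki : k = i
      · left
        rw [← hki]
        exact hk
      · exact Or.inr ⟨k, Finset.mem_erase.2 ⟨hki, Finset.mem_univ _⟩, hk⟩)
    (- ((2 : ℤ) • cl Q R)) (fun γ => by
      change A (σ ^ N) _ = _
      rw [hN']; exact hfixu σ γ _)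
    (fun k _ γ => by
      change A (σ' k ^ N) _ = _
      rw [hN']; exact hfixu (σ' k) γ _) hrel' x hxi
  have h1 : (s : ℤ) ≠ 0 := by exact_mod_cast hs.ne'
  have h2 := (mul_eq_zero.1 key).resolve_left h1
  have h3 := sub_eq_zero.1 h2
  exact_mod_cast h3

end

end Pool.Agent.J4H9.NoRel
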