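import Mathlib
import Pool.Agent.J4H9.Fr
import Pool.Agent.J4H9.NoRel
import Pool.Agent.W484.AA.Tate

/-!
# The Tate classes for families with the factorisation patterns
-/

set_option autoImplicit false

namespace Pool.Agent.J4H9.Alg

open Polynomial NumberField Module Pool.Agent.W521.Frob Pool.Agent.W521.Criterion
  Pool.Agent.J4H9.Per Pool.Agent.J4H9.Gal Pool.Agent.J4H9.NoRel Pool.Agent.J4H9.Fr
  Pool.Agent.W484.AA Pool.Agent.W484.BB TensorProduct

/-- The members are irreducible over `ℚ` and have the factorisation patterns modulo suitable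
primes. -/
def GoodFam {I : Type} (q r : ℕ) (h : I → ℤ[X]) : Prop :=
  (∀ i, Irreducible ((h i).map (Int.castRingHom ℚ))) ∧
  (∀ i, ∃ l : ℕ, l.Prime ∧ l ≠ 2 ∧ ¬ l ∣ q ∧ PatE q r (h i) l) ∧
  ∀ i j, j ≠ i → ∃ l : ℕ, l.Prime ∧ l ≠ 2 ∧ ¬ l ∣ q ∧ PatE q r (h i) l ∧ PatF (r + 1) (h j) l

/-- The subfield of the complex numbers generated by all algebraic integers of degree at most `b`
(that is, by all algebraic numbers of degree at most `b`). -/
noncomputable def smallField (b : ℕ) : Subfield ℂ :=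
  Subfield.closure {z : ℂ | ∃ χ : ℤ[X], χ.Monic ∧ χ.natDegree ≤ b ∧ aeval z χ = 0}

theorem exists_gens {b : ℕ} {x : ℂ} (hx : x ∈ smallField b) : ∃ T : Finset ℂ,
    (∀ z ∈ T, ∃ χ : ℤ[X], χ.Monic ∧ χ.natDegree ≤ b ∧ aeval z χ = 0) ∧
      x ∈ Subfield.closure (T : Set ℂ) := by
  classical
  unfold smallField at hx
  induction hx using Subfield.closure_induction with
  | mem x hx =>
    refine ⟨{x}, fun z hz => ?_, Subfield.subset_closure (by simp)⟩
    rw [Finset.mem_singleton] at hz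
    rw [hz]
    exact hx
  | one => exact ⟨∅, fun z hz => absurd hz (Finset.notMem_empty z), one_mem _⟩
  | add x y _ _ hx hy =>
    obtain ⟨T, h1, h2⟩ := hx
    obtain ⟨T', h1', h2'⟩ := hy
    refine ⟨T ∪ T', fun z hz => (Finset.mem_union.1 hz).elim (h1 z) (h1' z), add_mem ?_ ?_⟩
    · exact Subfield.closure_mono (by simp) h2
    · exact Subfield.closure_mono (by simp) h2'
  | neg x _ hx =>
    obtain ⟨T, h1, h2⟩ := hx
    exact ⟨T, h1, neg_mem h2⟩
  | inv x _ hx =>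
    obtain ⟨T, h1, h2⟩ := hx
    exact ⟨T, h1, inv_mem h2⟩
  | mul x y _ _ hx hy =>
    obtain ⟨T, h1, h2⟩ := hx
    obtain ⟨T', h1', h2'⟩ := hy
    refine ⟨T ∪ T', fun z hz => (Finset.mem_union.1 hz).elim (h1 z) (h1' z), mul_mem ?_ ?_⟩
    · exact Subfield.closure_mono (by simp) h2
    · exact Subfield.closure_mono (by simp) h2'

theorem exists_fixed {L : Type} [Field L] [NumberField L] (j : L →+* ℂ) {b r : ℕ} (hbr : b < r)
    {T : Finset ℂ} (hT : ∀ z ∈ T, ∃ χ : ℤ[X], χ.Monic ∧ χ.natDegree ≤ b ∧ aeval z χ = 0)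
    (hj : ∀ y ∈ T, ∃ x : L, j x = y) {ρ : ℂ} (hρ : ρ ∈ Subfield.closure (T : Set ℂ)) :
    ∃ ρ' : L, (∀ σ γ : L ≃ₐ[ℚ] L, σ ^ (r - 1).factorial • (γ • ρ') = γ • ρ') ∧ j ρ' = ρ := by
  classical
  let F : Subfield L := ⨅ σ : L ≃ₐ[ℚ] L, ⨅ γ : L ≃ₐ[ℚ] L,
    RingHom.eqLocusField (((σ ^ (r - 1).factorial * γ : L ≃ₐ[ℚ] L) : L ≃+* L) : L →+* L)
      ((γ : L ≃+* L) : L →+* L)
  have hF : ∀ x : L, x ∈ F ↔ ∀ σ γ : L ≃ₐ[ℚ] L, σ ^ (r - 1).factorial • (γ • x) = γ • x := by
    intro x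
    simp only [F, Subfield.mem_iInf]
    refine forall_congr' fun σ => forall_congr' fun γ => ?_
    rw [← mul_smul]
    exact Iff.rfl
  have h1 : Subfield.closure (T : Set ℂ) ≤ F.map j := by
    rw [Subfield.closure_le]
    intro z hz
    obtain ⟨x, hx⟩ := hj z (Finset.mem_coe.1 hz)
    obtain ⟨χ, h1, h2, h3⟩ := hT z (Finset.mem_coe.1 hz)
    refine ⟨x, (hF x).2 ?_, hx⟩
    intro σ γ
    have h4 : aeval x χ = 0 := by
      apply j.injective
      have h5 := Polynomial.hom_eval₂ χ (algebraMap ℤ L) j x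
      rw [RingHom.ext_int (j.comp (algebraMap ℤ L)) (algebraMap ℤ ℂ), hx] at h5
      rw [map_zero]
      exact h5.trans h3
    exact kill (rts χ L) (fun z hz => (mem_rts h1.ne_zero _).2
      (aeval_smul χ σ z ((mem_rts h1.ne_zero _).1 hz)))
      (lt_of_le_of_lt ((card_rts χ).trans h2) hbr) _
      ((mem_rts h1.ne_zero _).2 (aeval_smul χ γ x h4))
  obtain ⟨ρ', h2, h3⟩ := h1 hρ
  exact ⟨ρ', (hF ρ').1 h2, h3⟩

section

variable {I : Type} [Finite I] {q r g : ℕ} {h : I → ℤ[X]} (hq : q ≠ 0) (hm : ∀ i, (h i).Monic)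
  (hdeg : ∀ i, (h i).natDegree ≤ g) (hr : r.Prime) (hr2 : r ≠ 2) (hgr : g < 2 * r)
  (hgood : GoodFam q r h)

include hq hm hdeg hr hr2 hgr hgood

theorem field_data (T₀ : Finset ℂ) (hT₀ : ∀ y ∈ T₀, IsIntegral ℤ y) :
    ∃ (L : Type) (_ : Field L) (_ : NumberField L) (j : L →+* ℂ),
      (∀ y ∈ T₀, ∃ x : L, j x = y) ∧
      (∀ i, ∀ z : ℂ, aeval z (weil q (h i)) = 0 → ∃ x : L, j x = z) ∧
      (∀ i, ∀ α β : L, aeval α (weil q (h i)) = 0 → aeval β (weil q (h i)) = 0 →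
        ∃ τ : L ≃ₐ[ℚ] L, τ • α = β ∨ τ • α = q / β) ∧
      (∀ i, ∃ (σ : L ≃ₐ[ℚ] L) (x₀ y₀ : L), SplitEl q r (weil q (h i)) σ x₀ y₀) ∧
      (∀ i j, j ≠ i → ∃ (σ : L ≃ₐ[ℚ] L) (x₀ y₀ θ : L),
        SplitEl q r (weil q (h i)) σ x₀ y₀ ∧ LongEl (r + 1) (h j) σ θ) := by
  classical
  cases nonempty_fintype I
  let T : Finset ℂ := (Finset.univ.biUnion fun i =>
    ((weil q (h i)).map (algebraMap ℤ ℂ)).roots.toFinset) ∪ T₀
  have hTint : ∀ y : T, IsIntegral ℤ (y : ℂ) := by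
    rintro ⟨y, hy⟩
    rcases Finset.mem_union.1 hy with h1 | h1
    · obtain ⟨i, -, h2⟩ := Finset.mem_biUnion.1 h1
      have h3 := (mem_roots'.1 (Multiset.mem_toFinset.1 h2)).2
      rw [IsRoot.def, eval_map] at h3
      exact ⟨weil q (h i), weil_monic q (hm i), h3⟩
    · exact hT₀ y h1
  obtain ⟨L, hL1, hL2, j, hj⟩ := exists_galois_of (fun y : T => (y : ℂ)) hTint
  have hL : ∀ i, ∀ z : ℂ, aeval z (weil q (h i)) = 0 → ∃ x : L, j x = z := by
    intro i z hz
    refine hj ⟨z, Finset.mem_union.2 (Or.inl (Finset.mem_biUnion.2 ⟨i, Finset.mem_univ _, ?_⟩))⟩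
    rw [Multiset.mem_toFinset, mem_roots ((weil_monic q (hm i)).map _).ne_zero, IsRoot.def, eval_map]
    exact hz
  obtain ⟨hirr, hE, hEF⟩ := hgood
  refine ⟨L, inferInstance, hL1, j, fun y hy => hj ⟨y, Finset.mem_union.2 (Or.inr hy)⟩, hL, ?_,
    ?_, ?_⟩
  · intro i α β hα hβ
    exact exists_tau hq hm L j hL i (hirr i) α β hα hβ
  · intro i
    obtain ⟨l, hl, hl2, hlq, hp⟩ := hE i
    have : Fact l.Prime := ⟨hl⟩
    obtain ⟨k, _, hchar, φ, σ, hσ⟩ := exists_frob L l hl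
    obtain ⟨x₀, y₀, h1⟩ := splitEl_of_pat φ hσ (hm i) (splits_h hq hm L j hL i)
      (quad_L hq hm L j hL i) (hdeg i) hgr hr hr2 hl2 hlq hp
    exact ⟨σ, x₀, y₀, h1⟩
  · intro i i' hne
    obtain ⟨l, hl, hl2, hlq, hp, hp'⟩ := hEF i i' hne
    have : Fact l.Prime := ⟨hl⟩
    obtain ⟨k, _, hchar, φ, σ, hσ⟩ := exists_frob L l hl
    obtain ⟨x₀, y₀, h1⟩ := splitEl_of_pat φ hσ (hm i) (splits_h hq hm L j hL i)
      (quad_L hq hm L j hL i) (hdeg i) hgr hr hr2 hl2 hlq hp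
    obtain ⟨θ, h2⟩ := longEl_of_pat φ hσ (hm i') (splits_h hq hm L j hL i') (hdeg i')
      (show g < 2 * (r + 1) by omega) (Nat.succ_pos r) hp'
    exact ⟨σ, x₀, y₀, θ, h1, h2⟩

/-- **No relations between complex roots.** -/
theorem counts_C (hnorm : ∀ i, ∀ z : ℂ, aeval z (weil q (h i)) = 0 → ‖z‖ ^ 2 = q)
    {b : ℕ} (hbr : b < r) (ρ : ℂ) (hρ : ρ ∈ smallField b)
    [DecidableEq ℂ] (T : List ℂ) (hT : ∀ z ∈ T, ∃ i, aeval z (weil q (h i)) = 0) (s c M : ℕ)
    (hs : 0 < s)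
    (hM : 0 < M) (hrel : (T.prod ^ s * ρ) ^ M = (((q : ℂ) ^ s) ^ c) ^ M)
    (z : ℂ) (hz : ∃ i, aeval z (weil q (h i)) = 0) : T.count z = T.count ((q : ℂ) / z) := by
  obtain ⟨T₀, hT₀, hρT⟩ := exists_gens hρ
  obtain ⟨L, _, _, j, hj, hL, htrans, hE, hEF⟩ := field_data hq hm hdeg hr hr2 hgr hgood T₀ (by
    intro y hy
    obtain ⟨χ, h1, -, h2⟩ := hT₀ y hy
    exact ⟨χ, h1, h2⟩)
  have hqC : (q : ℂ) ≠ 0 := by exact_mod_cast hq
  have hρ0 : ρ ≠ 0 := by
    rintro rfl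
    rw [mul_zero, zero_pow hM.ne'] at hrel
    exact pow_ne_zero _ (pow_ne_zero _ (pow_ne_zero _ hqC)) hrel.symm
  obtain ⟨ρ', hρ', rfl⟩ := exists_fixed j hbr hT₀ hj hρT
  have hdown : ∀ (f : ℤ[X]) (x : L), aeval (j x) f = 0 → aeval x f = 0 := by
    intro f x hx
    apply j.injective
    have h2 := Polynomial.hom_eval₂ f (algebraMap ℤ L) j x
    rw [RingHom.ext_int (j.comp (algebraMap ℤ L)) (algebraMap ℤ ℂ)] at h2
    rw [map_zero]
    exact h2.trans hx
  have hup : ∀ (f : ℤ[X]) (x : L), aeval x f = 0 → aeval (j x) f = 0 := by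
    intro f x hx
    have h2 := Polynomial.hom_eval₂ f (algebraMap ℤ L) j x
    rw [RingHom.ext_int (j.comp (algebraMap ℤ L)) (algebraMap ℤ ℂ)] at h2
    have h3 : eval₂ (algebraMap ℤ L) x f = 0 := hx
    rw [h3, map_zero] at h2
    exact h2.symm
  obtain ⟨T', rfl⟩ : ∃ T' : List (Rt q h L), T'.map (fun y => j (vl y)) = T := by
    clear hrel
    induction T with
    | nil => exact ⟨[], rfl⟩
    | cons a T ih =>
      obtain ⟨T', h1⟩ := ih fun z hz => hT z (List.mem_cons_of_mem a hz)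
      obtain ⟨i, hi⟩ := hT a List.mem_cons_self
      obtain ⟨x, rfl⟩ := hL i a hi
      exact ⟨⟨x, i, hdown _ x hi⟩ :: T', by rw [List.map_cons, h1]; rfl⟩
  obtain ⟨i, hi⟩ := hz
  obtain ⟨x, rfl⟩ := hL i z hi
  let X₀ : Rt q h L := ⟨x, i, hdown _ x hi⟩
  have hinj : Function.Injective (fun y : Rt q h L => j (vl y)) :=
    j.injective.comp vl_inj
  let _ : DecidableEq (Rt q h L) := Classical.decEq _
  let _ : DecidableEq I := Classical.decEq _
  have hc1 : (T'.map (fun y : Rt q h L => j (vl y))).count (j x) = T'.count X₀ :=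
    List.count_map_of_injective _ _ hinj X₀
  have hc2 : (T'.map (fun y : Rt q h L => j (vl y))).count ((q : ℂ) / j x) =
      T'.count (bar hq hm X₀) := by
    have h1 : (q : ℂ) / j x = j (vl (bar hq hm X₀)) := by
      change _ = j ((q : L) / x)
      rw [map_div₀, map_natCast]
    rw [h1]
    exact List.count_map_of_injective _ _ hinj (bar hq hm X₀)
  refine (Eq.trans ?_ (hc1.trans ((counts_Rt hq hm hdeg hr hr2 hgr htrans hE hEF j
    (fun i x hx => hnorm i _ (hup _ x hx)) ρ' hρ' (fun h0 => hρ0 (by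
      rw [h0, map_zero])) T' s c M hs hM ?_ X₀).trans hc2.symm))).trans ?_
  · rfl
  · apply j.injective
    rw [map_pow, map_mul, map_pow, map_list_prod, List.map_map, map_pow, map_pow, map_pow,
      map_natCast]
    exact hrel
  · rfl

theorem ne_conj_C (z : ℂ) (hz : ∃ i, aeval z (weil q (h i)) = 0) : z ≠ (q : ℂ) / z := by
  obtain ⟨L, _, _, j, hj, hL, htrans, hE, hEF⟩ := field_data hq hm hdeg hr hr2 hgr hgood ∅ (by
    intro y hy
    exact absurd hy (Finset.notMem_empty y))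
  obtain ⟨i, hi⟩ := hz
  obtain ⟨x, rfl⟩ := hL i z hi
  have hdown : aeval x (weil q (h i)) = 0 := by
    apply j.injective
    have h2 := Polynomial.hom_eval₂ (weil q (h i)) (algebraMap ℤ L) j x
    rw [RingHom.ext_int (j.comp (algebraMap ℤ L)) (algebraMap ℤ ℂ)] at h2
    rw [map_zero]
    exact h2.trans hi
  intro h1
  have h2 : x = (q : L) / x := by
    apply j.injective
    rw [map_div₀, map_natCast]
    exact h1
  have hx0 := root_ne_zero hq (hm i) hdown
  have hqL : (q : L) ≠ 0 := by exact_mod_cast hq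
  obtain ⟨σ, x₀, y₀, hs⟩ := hE i
  obtain ⟨γ, hγ⟩ := htrans i x x₀ hdown hs.rx
  apply hs.sq_ne hq (hm i) hr hr2
  have h3 : γ • x = (q : L) / (γ • x) := by
    rw [← smul_div, ← h2]
  rcases hγ with h4 | h4
  · rw [h4] at h3
    exact h3
  · rw [h4, div_div_cancel₀ hqL] at h3
    exact h3.symm

end

/-- Every eigenvalue of `G` has a power (with a positive exponent) in the field generated by all
algebraic numbers of degree at most `b`. -/
def SmallDegree (b : ℕ) {H : Type} [AddCommGroup H] [Module ℂ H] (G : H →ₗ[ℂ] H) : Prop :=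
  ∀ ρ : ℂ, Module.End.HasEigenvalue G ρ → ∃ t : ℕ, 0 < t ∧ ρ ^ t ∈ smallField b

/-- The formula for the Tate classes on the products `A × Y`, for all products `A` of powers of
abelian varieties with characteristic polynomials of Frobenius `f i`, over all extensions of the
field with `q` elements, and for all `Y` such that the eigenvalues of Frobenius on the cohomology `H`
in degree `w` have powers in the field generated by the algebraic numbers of degree at most `b`. -/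
def TateForSmall {I : Type} (q b : ℕ) (f : I → ℤ[X]) : Prop :=
  ∀ (V : Type) [AddCommGroup V] [Module ℂ V] [FiniteDimensional ℂ V] (F : V →ₗ[ℂ] V),
    Submodule.span ℂ {v : V | ∃ i, ∃ z : ℂ, aeval z (f i) = 0 ∧ F v = z • v} = ⊤ →
    ∀ s : ℕ, 0 < s →
    ∀ (H : Type) [AddCommGroup H] [Module ℂ H] [FiniteDimensional ℂ H] (G : H →ₗ[ℂ] H),
      SmallDegree b G → ∀ w : ℕ, TateFormula ((q : ℂ) ^ s) (F ^ s) G w

/-- If the characteristic polynomial is integral of degree at most `b` then the eigenvalues are in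
the field generated by the numbers of degree at most `b`. -/
theorem smallDegree_of_charpoly {b : ℕ} {H : Type} [AddCommGroup H] [Module ℂ H]
    [FiniteDimensional ℂ H] {G : H →ₗ[ℂ] H} {χ : ℤ[X]} (hχ : G.charpoly = χ.map (Int.castRingHom ℂ))
    (hH : finrank ℂ H ≤ b) : SmallDegree b G := by
  intro ρ hρ
  have hχm : χ.Monic := by
    have h1 := G.charpoly_monic
    rw [hχ] at h1
    exact Polynomial.monic_of_injective (Int.castRingHom ℂ).injective_int h1
  refine ⟨1, one_pos, Subfield.subset_closure ⟨χ, hχm, ?_, ?_⟩⟩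
  · have h1 := G.charpoly_natDegree
    rw [hχ, hχm.natDegree_map] at h1
    omega
  · rw [pow_one]
    have h1 := Module.End.hasEigenvalue_iff_isRoot_charpoly _ _ |>.1 hρ
    rw [hχ, IsRoot.def, eval_map, RingHom.ext_int (Int.castRingHom ℂ) (algebraMap ℤ ℂ)] at h1
    exact h1

/-- **The Tate classes.** -/
theorem tate_of_good {I : Type} [Finite I] {q r g b : ℕ} {h : I → ℤ[X]} (hq : q ≠ 0)
    (hm : ∀ i, (h i).Monic) (hdeg : ∀ i, (h i).natDegree ≤ g) (hr : r.Prime) (hr2 : r ≠ 2)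
    (hgr : g < 2 * r) (hbr : b < r) (hgood : GoodFam q r h)
    (hnorm : ∀ i, ∀ z : ℂ, aeval z (weil q (h i)) = 0 → ‖z‖ ^ 2 = q) :
    TateForSmall q b (fun i => weil q (h i)) := by
  classical
  intro V _ _ _ F hF s hs H _ _ _ G hG w n c N hnc hN u hu
  let X := {z : ℂ // ∃ i, aeval z (weil q (h i)) = 0}
  let val : X → ℂ := fun z => (z : ℂ) ^ s
  have hspan : Submodule.span ℂ {v : V | ∃ y : X, (F ^ s) v = val y • v} = ⊤ := by
    rw [eq_top_iff, ← hF]
    refine Submodule.span_mono ?_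
    rintro v ⟨i, z, hz, hv⟩
    exact ⟨⟨z, i, hz⟩, pow_apply_eigen F v z hv s⟩
  have hqC : (q : ℂ) ≠ 0 := by exact_mod_cast hq
  have hQ : (q : ℂ) ^ s ≠ 0 := pow_ne_zero _ hqC
  refine mem_tateProducts (F ^ s) val hspan ((q : ℂ) ^ s) hQ G w ?_ n c N hN hnc u hu
  intro ρ hρe n c N hN hn hnc ys hlen hrel hpw
  obtain ⟨t, ht, hρ⟩ := hG ρ hρe
  have h7 : ∀ ys : List X, (ys.map (fun y : X => (y : ℂ))).prod ^ s = (ys.map val).prod := by
    intro ys
    induction ys with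
    | nil => simp
    | cons y ys ih =>
      rw [List.map_cons, List.prod_cons, mul_pow, ih, List.map_cons, List.prod_cons]
  have key := counts_C hq hm hdeg hr hr2 hgr hgood hnorm hbr (ρ ^ t) hρ
    (ys.map (fun y : X => (y : ℂ))) (by
      intro z hz
      obtain ⟨y, -, rfl⟩ := List.mem_map.1 hz
      exact y.2) (s * t) c N (Nat.mul_pos hs ht) hN (by
      rw [pow_mul, h7, ← mul_pow, ← pow_mul, mul_comm t N, pow_mul, hrel]
      ring)
  cases ys with
  | nil =>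
    rw [List.length_nil] at hlen
    omega
  | cons y ys =>
    have h1 := key (y : ℂ) y.2
    have h2 : 0 < ((y :: ys).map (fun y : X => (y : ℂ))).count (y : ℂ) := by
      rw [List.count_pos_iff, List.map_cons]
      exact List.mem_cons_self
    rw [h1, List.count_pos_iff, List.map_cons, List.mem_cons] at h2
    have hne := ne_conj_C hq hm hdeg hr hr2 hgr hgood (y : ℂ) y.2
    rcases h2 with h3 | h3
    · exact hne h3.symm
    · obtain ⟨y', hy', h4⟩ := List.mem_map.1 h3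
      refine (List.pairwise_cons.1 hpw).1 y' hy' ⟨1, one_pos, ?_⟩
      have hy0 : (y : ℂ) ≠ 0 := by
        obtain ⟨i, hi⟩ := y.2
        exact root_ne_zero hq (hm i) hi
      have h4' : (y' : ℂ) = (q : ℂ) / y := h4
      rw [pow_one, pow_one]
      change (y : ℂ) ^ s * (y' : ℂ) ^ s = _
      rw [← mul_pow, h4', mul_div_cancel₀ _ hy0]

end Pool.Agent.J4H9.Alg
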