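import Mathlib
import Pool.Agent.W521.Turan

/-!
# Equidistribution and the second moment
-/

set_option autoImplicit false

namespace Pool.Agent.J4H9.Eqd

open Finset

/-- The sum over `T` of a bounded function of `κ x` and `π x` whose sum over the second variable
is zero is at most `ε` times the number of elements of `T`. -/
def Equi {X K R : Type*} [Fintype R] (T : Finset X) (κ : X → K) (π : X → R) (ε : ℝ) : Prop :=
  ∀ G : K → R → ℝ, (∀ k ρ, |G k ρ| ≤ 1) → (∀ k, ∑ ρ, G k ρ = 0) →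
    |∑ x ∈ T, G (κ x) (π x)| ≤ ε * T.card

theorem sum_Ico_le (m : ℕ) [NeZero m] (G : ZMod m → ℝ) {B : ℝ} (hG : ∀ r, |G r| ≤ B)
    (h0 : ∑ r, G r = 0) (s : ℤ) (M : ℕ) :
    |∑ a ∈ Finset.Ico s (s + (M : ℤ)), G (a : ZMod m)| ≤ B * m := by
  have hm : 0 < m := Nat.pos_of_ne_zero (NeZero.ne m)
  have hB : 0 ≤ B := (abs_nonneg _).trans (hG 0)
  have hM : M = M / m * m + M % m := by
    rw [mul_comm]
    exact (Nat.div_add_mod M m).symm
  have hle : s ≤ s + ((M / m * m : ℕ) : ℤ) := by omega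
  have hle2 : s + ((M / m * m : ℕ) : ℤ) ≤ s + (M : ℤ) := by
    have : M / m * m ≤ M := Nat.div_mul_le_self M m
    omega
  have hdisj : Finset.Ico s (s + (M : ℤ)) = Finset.Ico s (s + ((M / m * m : ℕ) : ℤ)) ∪
      Finset.Ico (s + ((M / m * m : ℕ) : ℤ)) (s + (M : ℤ)) :=
    (Finset.Ico_union_Ico_eq_Ico hle hle2).symm
  rw [hdisj, Finset.sum_union (Finset.Ico_disjoint_Ico_consecutive _ _ _)]
  have h1 : ∑ a ∈ Finset.Ico s (s + ((M / m * m : ℕ) : ℤ)), G (a : ZMod m) = 0 := by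
    rw [← Finset.sum_fiberwise (Finset.Ico s (s + ((M / m * m : ℕ) : ℤ)))
      (fun a : ℤ => (a : ZMod m)) (fun a : ℤ => G (a : ZMod m))]
    have h2 : ∀ r : ZMod m, ∑ a ∈ (Finset.Ico s (s + ((M / m * m : ℕ) : ℤ))).filter
        (fun a : ℤ => (a : ZMod m) = r), G (a : ZMod m) = (M / m : ℕ) * G r := by
      intro r
      rw [Finset.sum_congr rfl (fun x hx => by rw [(Finset.mem_filter.1 hx).2]), Finset.sum_const,
        Pool.Agent.W521.Turan.card_fiber_one m (M / m) hm s r, nsmul_eq_mul]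
    rw [Finset.sum_congr rfl fun r _ => h2 r, ← Finset.mul_sum, h0, mul_zero]
  rw [h1, zero_add]
  refine (Finset.abs_sum_le_sum_abs _ _).trans ?_
  refine (Finset.sum_le_card_nsmul _ _ B (fun x _ => hG _)).trans ?_
  rw [nsmul_eq_mul, Int.card_Ico, mul_comm]
  refine mul_le_mul_of_nonneg_left ?_ hB
  have h3 : (s + (M : ℤ) - (s + ((M / m * m : ℕ) : ℤ))).toNat ≤ m := by
    have := Nat.mod_lt M hm
    omega
  exact_mod_cast h3

section

variable {X K R : Type*} [Fintype R]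

theorem Equi.mono {T : Finset X} {κ : X → K} {π : X → R} {ε ε' : ℝ} (h : Equi T κ π ε)
    (hε : ε ≤ ε') : Equi T κ π ε' := fun G h1 h2 =>
  (h G h1 h2).trans (mul_le_mul_of_nonneg_right hε (Nat.cast_nonneg _))

/-- A function bounded by `B` instead of one. -/
theorem Equi.bound {T : Finset X} {κ : X → K} {π : X → R} {ε : ℝ} (h : Equi T κ π ε) {B : ℝ}
    (hB : 0 < B) (G : K → R → ℝ) (h1 : ∀ k ρ, |G k ρ| ≤ B) (h2 : ∀ k, ∑ ρ, G k ρ = 0) :
    |∑ x ∈ T, G (κ x) (π x)| ≤ B * (ε * T.card) := by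
  have h3 := h (fun k ρ => G k ρ / B) (fun k ρ => by
    rw [abs_div, abs_of_pos hB, div_le_one hB]
    exact h1 k ρ) (fun k => by rw [← Finset.sum_div, h2, zero_div])
  rw [← Finset.sum_div, abs_div, abs_of_pos hB, div_le_iff₀ hB] at h3
  linarith

/-- One more coordinate. -/
theorem Equi.extend {X' : Type*} {T : Finset X} {κ : X → K} {π : X → R} {ε : ℝ}
    (h : Equi T κ π ε) (m : ℕ) [NeZero m] (T' : Finset X') (p : X' → X) (a : X' → ℤ)
    (s : X → ℤ) (M : ℕ) (hM : 0 < M)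
    (hsum : ∀ F : X → ℤ → ℝ, ∑ x ∈ T', F (p x) (a x) =
      ∑ x ∈ T, ∑ b ∈ Finset.Ico (s x) (s x + (M : ℤ)), F x b) :
    Equi T' (fun x => κ (p x)) (fun x => ((a x : ZMod m), π (p x))) (ε + 2 * m / M) := by
  intro G h1 h2
  have hm : (0 : ℝ) < m := by exact_mod_cast Nat.pos_of_ne_zero (NeZero.ne m)
  have hMR : (0 : ℝ) < M := by exact_mod_cast hM
  have hcard : (T'.card : ℝ) = M * T.card := by
    have h3 := hsum (fun _ _ => 1)
    rw [Finset.sum_const, nsmul_eq_mul, mul_one] at h3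
    rw [h3, Finset.sum_congr rfl (fun x _ => by
      rw [Finset.sum_const, Int.card_Ico, nsmul_eq_mul, mul_one]), Finset.sum_congr rfl (fun x _ => by
      rw [add_sub_cancel_left, Int.toNat_natCast]), Finset.sum_const, nsmul_eq_mul, mul_comm]
  let G' : K → R → ℝ := fun k ρ => (∑ α : ZMod m, G k (α, ρ)) / m
  have hG'1 : ∀ k ρ, |G' k ρ| ≤ 1 := by
    intro k ρ
    simp only [G']
    rw [abs_div, abs_of_pos hm, div_le_one hm]
    refine (Finset.abs_sum_le_sum_abs _ _).trans ?_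
    refine (Finset.sum_le_card_nsmul _ _ 1 (fun x _ => h1 _ _)).trans ?_
    rw [Finset.card_univ, ZMod.card, nsmul_eq_mul, mul_one]
  have hG'2 : ∀ k, ∑ ρ, G' k ρ = 0 := by
    intro k
    simp only [G']
    rw [← Finset.sum_div, Finset.sum_comm]
    have h3 := h2 k
    rw [Fintype.sum_prod_type] at h3
    rw [h3, zero_div]
  have hmain := hsum (fun x b => G (κ x) ((b : ZMod m), π x))
  rw [hmain]
  have hinner : ∀ x, |∑ b ∈ Finset.Ico (s x) (s x + (M : ℤ)), G (κ x) ((b : ZMod m), π x) -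
      M * G' (κ x) (π x)| ≤ 2 * m := by
    intro x
    have h3 := sum_Ico_le m (fun α => G (κ x) (α, π x) - G' (κ x) (π x)) (B := 2) (fun α => by
      have h4 := abs_sub (G (κ x) (α, π x)) (G' (κ x) (π x))
      have h5 := h1 (κ x) (α, π x)
      have h6 := hG'1 (κ x) (π x)
      linarith) (by
      rw [Finset.sum_sub_distrib, Finset.sum_const, Finset.card_univ, ZMod.card, nsmul_eq_mul]
      simp only [G']
      field_simp
      ring) (s x) M
    rw [Finset.sum_sub_distrib, Finset.sum_const, Int.card_Ico, add_sub_cancel_left,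
      Int.toNat_natCast, nsmul_eq_mul] at h3
    exact h3
  have h4 : |∑ x ∈ T, (M * G' (κ x) (π x))| ≤ M * (ε * T.card) := by
    rw [← Finset.mul_sum, abs_mul, abs_of_pos hMR]
    exact mul_le_mul_of_nonneg_left (h G' hG'1 hG'2) hMR.le
  have h5 : |∑ x ∈ T, (∑ b ∈ Finset.Ico (s x) (s x + (M : ℤ)), G (κ x) ((b : ZMod m), π x) -
      M * G' (κ x) (π x))| ≤ T.card * (2 * m) := by
    refine (Finset.abs_sum_le_sum_abs _ _).trans ?_
    refine (Finset.sum_le_card_nsmul _ _ (2 * (m : ℝ)) (fun x _ => hinner x)).trans ?_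
    rw [nsmul_eq_mul]
  rw [Finset.sum_sub_distrib] at h5
  have h6 : ∑ x ∈ T, ∑ b ∈ Finset.Ico (s x) (s x + (M : ℤ)), G (κ x) ((b : ZMod m), π x) =
      (∑ x ∈ T, ∑ b ∈ Finset.Ico (s x) (s x + (M : ℤ)), G (κ x) ((b : ZMod m), π x) -
        ∑ x ∈ T, (M * G' (κ x) (π x))) + ∑ x ∈ T, (M * G' (κ x) (π x)) := by ring
  rw [h6]
  refine (abs_add_le _ _).trans ((add_le_add h5 h4).trans (le_of_eq ?_))
  have e : 2 * (m : ℝ) / M * (M * T.card) = 2 * m * T.card := by
    rw [← mul_assoc, div_mul_cancel₀ _ hMR.ne']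
  rw [hcard, add_mul, e]
  ring

/-- Change of the residues by a bijection. -/
theorem Equi.congr {R' : Type*} [Fintype R'] {T : Finset X} {κ : X → K} {π : X → R} {ε : ℝ}
    (h : Equi T κ π ε) (e : R ≃ R') : Equi T κ (fun x => e (π x)) ε := by
  intro G h1 h2
  refine h (fun k ρ => G k (e ρ)) (fun k ρ => h1 _ _) (fun k => ?_)
  rw [Equiv.sum_comp e (G k)]
  exact h2 k

/-- Products. -/
theorem Equi.prod {X' K' R' : Type*} [Fintype R'] [Nonempty R] {T : Finset X} {κ : X → K}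
    {π : X → R} {ε : ℝ} (h : Equi T κ π ε) {T' : Finset X'} {κ' : X' → K'} {π' : X' → R'} {ε' : ℝ}
    (h' : Equi T' κ' π' ε') :
    Equi (T ×ˢ T') (fun x => (κ x.1, κ' x.2)) (fun x => (π x.1, π' x.2)) (2 * ε + ε') := by
  intro G h1 h2
  have hR : (0 : ℝ) < Fintype.card R := by exact_mod_cast Fintype.card_pos
  let G' : K × K' → R' → ℝ := fun k ρ' => (∑ ρ : R, G k (ρ, ρ')) / Fintype.card R
  have hG'1 : ∀ k ρ, |G' k ρ| ≤ 1 := by
    intro k ρ
    simp only [G']
    rw [abs_div, abs_of_pos hR, div_le_one hR]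
    refine (Finset.abs_sum_le_sum_abs _ _).trans ?_
    refine (Finset.sum_le_card_nsmul _ _ 1 (fun x _ => h1 _ _)).trans ?_
    rw [Finset.card_univ, nsmul_eq_mul, mul_one]
  have hG'2 : ∀ k, ∑ ρ, G' k ρ = 0 := by
    intro k
    simp only [G']
    rw [← Finset.sum_div, Finset.sum_comm]
    have h3 := h2 k
    rw [Fintype.sum_prod_type] at h3
    rw [h3, zero_div]
  have e1 : ∑ x ∈ T ×ˢ T', G (κ x.1, κ' x.2) (π x.1, π' x.2) =
      ∑ x' ∈ T', ∑ x ∈ T, (G (κ x, κ' x') (π x, π' x') - G' (κ x, κ' x') (π' x')) +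
      ∑ x ∈ T, ∑ x' ∈ T', G' (κ x, κ' x') (π' x') := by
    rw [Finset.sum_product, Finset.sum_comm]
    conv_rhs => rw [Finset.sum_comm (s := T) (t := T')]
    rw [← Finset.sum_add_distrib]
    refine Finset.sum_congr rfl fun x' _ => ?_
    rw [← Finset.sum_add_distrib]
    exact Finset.sum_congr rfl fun x _ => by ring
  have e2 : ∀ x' ∈ T', |∑ x ∈ T, (G (κ x, κ' x') (π x, π' x') - G' (κ x, κ' x') (π' x'))| ≤
      2 * (ε * T.card) := by
    intro x' _
    refine h.bound two_pos (fun k ρ => G (k, κ' x') (ρ, π' x') - G' (k, κ' x') (π' x')) ?_ ?_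
    · intro k ρ
      have h4 := abs_sub (G (k, κ' x') (ρ, π' x')) (G' (k, κ' x') (π' x'))
      have h5 := h1 (k, κ' x') (ρ, π' x')
      have h6 := hG'1 (k, κ' x') (π' x')
      linarith
    · intro k
      rw [Finset.sum_sub_distrib, Finset.sum_const, Finset.card_univ, nsmul_eq_mul]
      simp only [G']
      field_simp
      ring
  have e3 : ∀ x ∈ T, |∑ x' ∈ T', G' (κ x, κ' x') (π' x')| ≤ ε' * T'.card := by
    intro x _
    exact h' (fun k ρ => G' (κ x, k) ρ) (fun k ρ => hG'1 _ _) (fun k => hG'2 _)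
  rw [e1]
  refine (abs_add_le _ _).trans ?_
  have e4 := (Finset.abs_sum_le_sum_abs _ _).trans (Finset.sum_le_card_nsmul T' _ _ e2)
  have e5 := (Finset.abs_sum_le_sum_abs _ _).trans (Finset.sum_le_card_nsmul T _ _ e3)
  rw [nsmul_eq_mul] at e4 e5
  refine (add_le_add e4 e5).trans (le_of_eq ?_)
  rw [Finset.card_product]
  push_cast
  ring

/-- Disjoint unions. -/
theorem Equi.sigma {Λ : Type*} {Λ₀ : Finset Λ} {T : Λ → Finset X} {κ : X → K}
    {π : X → R} {ε : ℝ} (h : ∀ i ∈ Λ₀, Equi (T i) κ π ε) :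
    Equi (Λ₀.sigma T) (fun x => (x.1, κ x.2)) (fun x => π x.2) ε := by
  intro G h1 h2
  rw [Finset.sum_sigma]
  refine (Finset.abs_sum_le_sum_abs _ _).trans ?_
  rw [Finset.card_sigma, Nat.cast_sum, Finset.mul_sum]
  exact Finset.sum_le_sum fun i hi => h i hi (fun k => G (i, k)) (fun k ρ => h1 _ _) (fun k => h2 _)

open Classical in
/-- **The second moment method.** -/
theorem turan {ι : Type*} (P : Finset ι) (hne : P.Nonempty)
    (T : Finset X) (κ : X → K) (R : ι → Type*) [∀ l, Fintype (R l)] [∀ l, Nonempty (R l)]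
    (π : ∀ l, X → R l) {ε : ℝ} (hε : 0 ≤ ε) (hequi : ∀ l ∈ P, ∀ l' ∈ P, l ≠ l' →
      Equi T κ (fun x => (π l x, π l' x)) ε)
    (Ω : ∀ l, K → Set (R l)) {c : ℝ} (hc : 0 < c)
    (hΩ : ∀ l ∈ P, ∀ x ∈ T, c * Fintype.card (R l) ≤ ((Ω l (κ x)).ncard : ℝ)) :
    ((T.filter (fun x => ∀ l ∈ P, π l x ∉ Ω l (κ x))).card : ℝ) ≤
      (1 / (c ^ 2 * P.card) + ε / c ^ 2) * T.card := by
  have hPc : (0 : ℝ) < P.card := by exact_mod_cast hne.card_pos
  have hRpos : ∀ l, (0 : ℝ) < Fintype.card (R l) := fun l => by exact_mod_cast Fintype.card_pos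
  let ω : ι → K → ℝ := fun l k => ((Ω l k).ncard : ℝ) / Fintype.card (R l)
  let a : ∀ l, K → R l → ℝ := fun l k ρ => (if ρ ∈ Ω l k then 1 else 0) - ω l k
  have hω : ∀ l k, 0 ≤ ω l k ∧ ω l k ≤ 1 := by
    intro l k
    refine ⟨div_nonneg (Nat.cast_nonneg _) (hRpos l).le, (div_le_one (hRpos l)).2 ?_⟩
    have h1 := Set.ncard_le_ncard (Set.subset_univ (Ω l k)) Set.finite_univ
    rw [Set.ncard_univ, Nat.card_eq_fintype_card] at h1
    exact_mod_cast h1
  have hωc : ∀ l ∈ P, ∀ x ∈ T, c ≤ ω l (κ x) := by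
    intro l hl x hx
    exact (le_div_iff₀ (hRpos l)).2 (hΩ l hl x hx)
  have ha1 : ∀ l k ρ, |a l k ρ| ≤ 1 := by
    intro l k ρ
    have h1 := hω l k
    simp only [a]
    rw [abs_le]
    split_ifs <;> constructor <;> linarith [h1.1, h1.2]
  have ha0 : ∀ l k, ∑ ρ, a l k ρ = 0 := by
    intro l k
    simp only [a]
    rw [Finset.sum_sub_distrib, Finset.sum_boole, Finset.sum_const, Finset.card_univ, nsmul_eq_mul]
    have h1 : ((Finset.univ.filter (fun ρ => ρ ∈ Ω l k)).card : ℝ) = ((Ω l k).ncard : ℝ) := by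
      rw [← Set.ncard_coe_finset]
      congr 2
      ext ρ
      simp
    rw [h1]
    simp only [ω]
    have := (hRpos l).ne'
    field_simp
    ring
  let Z : X → ℝ := fun x => ∑ l ∈ P, a l (κ x) (π l x)
  have hcardT : (0 : ℝ) ≤ T.card := Nat.cast_nonneg _
  have hε0 : 0 ≤ ε * T.card := mul_nonneg hε hcardT
  have hsecond : ∑ x ∈ T, Z x ^ 2 ≤ P.card * T.card + P.card ^ 2 * (ε * T.card) := by
    have h1 : ∀ x, Z x ^ 2 = ∑ l ∈ P, ∑ l' ∈ P, a l (κ x) (π l x) * a l' (κ x) (π l' x) := by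
      intro x
      rw [sq, Finset.sum_mul_sum]
    rw [Finset.sum_congr rfl (fun x _ => h1 x), Finset.sum_comm]
    have h2 : ∀ l ∈ P, ∑ x ∈ T, ∑ l' ∈ P, a l (κ x) (π l x) * a l' (κ x) (π l' x) ≤
        T.card + P.card * (ε * T.card) := by
      intro l hl
      rw [Finset.sum_comm]
      have hdiag : ∑ x ∈ T, a l (κ x) (π l x) * a l (κ x) (π l x) ≤ T.card := by
        have h3 : ∀ x ∈ T, a l (κ x) (π l x) * a l (κ x) (π l x) ≤ 1 := by
          intro x _
          have h4 := ha1 l (κ x) (π l x)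
          rw [← abs_mul_abs_self]
          nlinarith [abs_nonneg (a l (κ x) (π l x))]
        refine (Finset.sum_le_card_nsmul _ _ 1 h3).trans ?_
        rw [nsmul_eq_mul, mul_one]
      have hoff : ∀ l' ∈ P.erase l, ∑ x ∈ T, a l (κ x) (π l x) * a l' (κ x) (π l' x) ≤
          ε * T.card := by
        intro l' hl'
        obtain ⟨hne', hl'P⟩ := Finset.mem_erase.1 hl'
        refine (le_abs_self _).trans (hequi l hl l' hl'P hne'.symm
          (fun k ρ => a l k ρ.1 * a l' k ρ.2) (fun k ρ => ?_) (fun k => ?_))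
        · rw [abs_mul]
          have h4 := ha1 l k ρ.1
          have h5 := ha1 l' k ρ.2
          nlinarith [abs_nonneg (a l k ρ.1), abs_nonneg (a l' k ρ.2)]
        · rw [Fintype.sum_prod_type]
          simp only
          rw [← Finset.sum_mul_sum, ha0, zero_mul]
      rw [← Finset.add_sum_erase P _ hl]
      have h4 := Finset.sum_le_card_nsmul (P.erase l) _ _ hoff
      rw [nsmul_eq_mul] at h4
      have h5 : ((P.erase l).card : ℝ) ≤ P.card := by
        exact_mod_cast Finset.card_le_card (Finset.erase_subset _ _)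
      nlinarith
    refine (Finset.sum_le_card_nsmul P _ _ h2).trans ?_
    rw [nsmul_eq_mul]
    apply le_of_eq
    ring
  set Y := T.filter (fun x => ∀ l ∈ P, π l x ∉ Ω l (κ x)) with hY
  have hbad : (Y.card : ℝ) * (c * P.card) ^ 2 ≤ ∑ x ∈ T, Z x ^ 2 := by
    have h1 : ∑ x ∈ Y, Z x ^ 2 ≤ ∑ x ∈ T, Z x ^ 2 :=
      Finset.sum_le_sum_of_subset_of_nonneg (Finset.filter_subset _ _) fun _ _ _ => sq_nonneg _
    refine le_trans ?_ h1
    have h2 : ∀ x ∈ Y, (c * P.card) ^ 2 ≤ Z x ^ 2 := by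
      intro x hx
      obtain ⟨hxT, h3⟩ := Finset.mem_filter.1 hx
      have h4 : Z x = - ∑ l ∈ P, ω l (κ x) := by
        simp only [Z, a]
        rw [← Finset.sum_neg_distrib]
        refine Finset.sum_congr rfl fun l hl => ?_
        rw [if_neg (h3 l hl), zero_sub]
      have h5 : c * P.card ≤ ∑ l ∈ P, ω l (κ x) := by
        have h6 := Finset.card_nsmul_le_sum P (fun l => ω l (κ x)) c (fun l hl => hωc l hl x hxT)
        rw [nsmul_eq_mul] at h6
        linarith
      rw [h4, neg_sq]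
      exact pow_le_pow_left₀ (by positivity) h5 2
    have h3 := Finset.card_nsmul_le_sum Y (fun x => Z x ^ 2) _ h2
    rwa [nsmul_eq_mul] at h3
  have hfin := hbad.trans hsecond
  have hcP : 0 < (c * P.card : ℝ) ^ 2 := by positivity
  rw [← le_div_iff₀ hcP] at hfin
  refine hfin.trans (le_of_eq ?_)
  have h1 := hc.ne'
  have h2 := hPc.ne'
  rw [add_mul, add_div]
  congr 1
  · rw [mul_pow, one_div, ← div_eq_inv_mul, div_eq_div_iff (by positivity) (by positivity)]
    ring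
  · rw [mul_pow, div_mul_eq_mul_div, div_eq_div_iff (by positivity) (by positivity)]
    ring

end

end Pool.Agent.J4H9.Eqd
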