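import Mathlib
import Pool.Agent.J4H9.Equi

/-!
# Sets of polynomials whose coefficients run through intervals which depend on the higher ones
-/

set_option autoImplicit false

namespace Pool.Agent.J4H9.Ch

open Polynomial Pool.Agent.J4H9.Eqd

/-- `𝒯 j` is the set of the polynomials in `𝒯 0` without the `j` lowest coefficients, and the
coefficient of index `j` runs through an interval with `M j` elements which depends on the higher
coefficients. -/
structure Chain (M : ℕ → ℕ) (n : ℕ) (𝒯 : ℕ → Finset ℤ[X]) : Prop where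
  pos : ∀ j < n, 0 < M j
  down : ∀ j < n, ∀ h ∈ 𝒯 j, h.divX ∈ 𝒯 (j + 1)
  fib : ∀ j < n, ∀ f ∈ 𝒯 (j + 1), ∃ s : ℤ, ∀ a : ℤ, X * f + C a ∈ 𝒯 j ↔ s ≤ a ∧ a < s + M j

theorem divX_form (f : ℤ[X]) (a : ℤ) : (X * f + C a).divX = f := by
  rw [divX_add, divX_C, add_zero, mul_comm, ← divX_mul_X_add (f * X)]
  ext n
  simp [coeff_divX]

theorem coeff_form_zero (f : ℤ[X]) (a : ℤ) : (X * f + C a).coeff 0 = a := by
  simp

theorem coeff_form_succ (f : ℤ[X]) (a : ℤ) (k : ℕ) : (X * f + C a).coeff (k + 1) = f.coeff k := by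
  rw [coeff_add, coeff_X_mul, coeff_C_succ, add_zero]

theorem form_eq (h : ℤ[X]) : X * h.divX + C (h.coeff 0) = h := by
  rw [mul_comm]
  exact divX_mul_X_add h

variable {M : ℕ → ℕ} {n : ℕ} {𝒯 : ℕ → Finset ℤ[X]}

theorem Chain.sum (hc : Chain M n 𝒯) (j : ℕ) (hj : j < n) : ∃ s : ℤ[X] → ℤ,
    ∀ F : ℤ[X] → ℤ → ℝ, ∑ h ∈ 𝒯 j, F h.divX (h.coeff 0) =
      ∑ f ∈ 𝒯 (j + 1), ∑ b ∈ Finset.Ico (s f) (s f + (M j : ℤ)), F f b := by
  classical
  have h1 : ∀ f, ∃ s : ℤ, f ∈ 𝒯 (j + 1) → ∀ a : ℤ, X * f + C a ∈ 𝒯 j ↔ s ≤ a ∧ a < s + M j := by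
    intro f
    by_cases hf : f ∈ 𝒯 (j + 1)
    · obtain ⟨s, hs⟩ := hc.fib j hj f hf
      exact ⟨s, fun _ => hs⟩
    · exact ⟨0, fun h => absurd h hf⟩
  choose s hs using h1
  refine ⟨s, fun F => ?_⟩
  rw [Finset.sum_sigma']
  refine Finset.sum_bij' (fun h _ => (⟨h.divX, h.coeff 0⟩ : Σ _ : ℤ[X], ℤ))
    (fun x _ => X * x.1 + C x.2) ?_ ?_ ?_ ?_ ?_
  · intro h hh
    rw [Finset.mem_sigma, Finset.mem_Ico]
    have h2 := hc.down j hj h hh
    refine ⟨h2, ?_⟩
    have h3 := (hs _ h2 (h.coeff 0)).1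
    rw [form_eq] at h3
    exact h3 hh
  · rintro ⟨f, b⟩ hx
    rw [Finset.mem_sigma, Finset.mem_Ico] at hx
    exact (hs f hx.1 b).2 hx.2
  · intro h _
    exact form_eq h
  · rintro ⟨f, b⟩ _
    simp only [divX_form, coeff_form_zero]
  · intro h _
    rfl

theorem Chain.card_step (hc : Chain M n 𝒯) (j : ℕ) (hj : j < n) :
    (𝒯 j).card = M j * (𝒯 (j + 1)).card := by
  obtain ⟨s, hs⟩ := hc.sum j hj
  have h1 := hs (fun _ _ => 1)
  rw [Finset.sum_const, nsmul_eq_mul, mul_one, Finset.sum_congr rfl (fun f _ => by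
    rw [Finset.sum_const, Int.card_Ico, add_sub_cancel_left, Int.toNat_natCast, nsmul_eq_mul,
      mul_one]), Finset.sum_const, nsmul_eq_mul, mul_comm] at h1
  exact_mod_cast h1

theorem Chain.card (hc : Chain M n 𝒯) (k : ℕ) (hk : k ≤ n) :
    (𝒯 0).card = (∏ j ∈ Finset.range k, M j) * (𝒯 k).card := by
  induction k with
  | zero => simp
  | succ k ih =>
    rw [ih (by omega), hc.card_step k (by omega), Finset.prod_range_succ, mul_assoc]

theorem iterate_divX_coeff (h : ℤ[X]) (k j : ℕ) : (divX^[k] h).coeff j = h.coeff (j + k) := by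
  induction k generalizing h with
  | zero => simp
  | succ k ih =>
    rw [Function.iterate_succ, Function.comp_apply, ih, coeff_divX]
    congr 1

theorem Chain.iterate (hc : Chain M n 𝒯) (k j : ℕ) (hk : j + k ≤ n) (h : ℤ[X]) (hh : h ∈ 𝒯 j) :
    divX^[k] h ∈ 𝒯 (j + k) := by
  induction k with
  | zero => simpa using hh
  | succ k ih =>
    rw [Function.iterate_succ', Function.comp_apply, ← add_assoc]
    exact hc.down _ (by omega) _ (ih (by omega))

/-- The residues of the lowest coefficients. -/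
def low (i m : ℕ) (h : ℤ[X]) : Fin i → ZMod m := fun k => (h.coeff k : ZMod m)

/-- **Equidistribution in a chain.** -/
theorem Chain.equi (hc : Chain M n 𝒯) (m : ℕ) [NeZero m] (i j : ℕ) (hij : j + i = n) :
    Equi (𝒯 j) (fun h => divX^[i] h) (low i m) (∑ k ∈ Finset.Ico j n, 2 * (m : ℝ) / M k) := by
  induction i generalizing j with
  | zero =>
    intro G h1 h2
    have h3 : ∀ (k : ℤ[X]) (ρ : Fin 0 → ZMod m), G k ρ = 0 := by
      intro k ρ
      have h4 := h2 k
      rw [Fintype.sum_unique] at h4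
      rw [← h4]
      congr 1
      exact Subsingleton.elim _ _
    rw [Finset.sum_congr rfl (fun x _ => h3 _ _), Finset.sum_const_zero, abs_zero]
    refine mul_nonneg (Finset.sum_nonneg fun k _ => by positivity) (Nat.cast_nonneg _)
  | succ i ih =>
    have hj : j < n := by omega
    obtain ⟨s, hs⟩ := hc.sum j hj
    have h1 := (ih (j + 1) (by omega)).extend m (𝒯 j) divX (fun h => h.coeff 0) s (M j)
      (hc.pos j hj) hs
    have h2 := h1.congr (Fin.consEquiv (fun _ : Fin (i + 1) => ZMod m))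
    refine Equi.mono (ε := (∑ k ∈ Finset.Ico (j + 1) n, 2 * (m : ℝ) / M k) + 2 * m / M j) ?_
      (le_of_eq ?_)
    · have e : (low (i + 1) m : ℤ[X] → Fin (i + 1) → ZMod m) =
          fun x => (Fin.consEquiv fun _ => ZMod m) ((x.coeff 0 : ZMod m), low i m x.divX) := by
        funext h k
        refine Fin.cases ?_ (fun k => ?_) k
        · simp [low]
        · simp only [low, Fin.consEquiv_apply, Fin.cons_succ, Fin.val_succ, coeff_divX]
      rw [e]
      exact h2
    · rw [Finset.sum_eq_sum_Ico_succ_bot hj, add_comm]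

end Pool.Agent.J4H9.Ch
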