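import Mathlib
import Pool.Agent.W521.Lower

/-!
# The coefficients of the Weil polynomials: each coefficient lies in a short interval if the higher
ones are given
-/

set_option autoImplicit false

namespace Pool.Agent.J4H9.Newton

open Polynomial Finset Pool.Agent.W521.Frob Pool.Agent.W521.Descent

section

variable {d : ℕ}

theorem psum_formula (x : Fin d → ℂ) (k : ℕ) (hk : 0 < k) :
    ∑ i, x i ^ k = (-1) ^ (k + 1) * k * (Finset.univ.val.map x).esymm k -
      ∑ a ∈ antidiagonal k with a.1 ∈ Set.Ioo 0 k, (-1) ^ a.1 * (Finset.univ.val.map x).esymm a.1 *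
        ∑ i, x i ^ a.2 := by
  have h1 := congrArg (MvPolynomial.aeval x) (MvPolynomial.psum_eq_mul_esymm_sub_sum (Fin d) ℤ k hk)
  simp only [map_sub, map_mul, map_pow, map_neg, map_one, map_natCast, map_sum,
    MvPolynomial.aeval_esymm_eq_multiset_esymm, MvPolynomial.psum, MvPolynomial.aeval_X] at h1
  exact h1

theorem psum_eq_of (x y : Fin d → ℂ) (i : ℕ)
    (h : ∀ k < i, (Finset.univ.val.map x).esymm k = (Finset.univ.val.map y).esymm k) :
    ∀ k < i, ∑ j, x j ^ k = ∑ j, y j ^ k := by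
  intro k
  induction k using Nat.strong_induction_on with
  | _ k ih =>
    intro hk
    rcases Nat.eq_zero_or_pos k with h0 | h0
    · subst h0
      simp
    · rw [psum_formula x k h0, psum_formula y k h0, h k hk]
      congr 1
      refine Finset.sum_congr rfl fun a ha => ?_
      obtain ⟨h1, h2, h3⟩ := Finset.mem_filter.1 ha
      have h1 := Finset.HasAntidiagonal.mem_antidiagonal.1 h1
      rw [h a.1 (by omega), ih a.2 (by omega) (by omega)]

theorem psum_diff (x y : Fin d → ℂ) (i : ℕ) (hi : 0 < i)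
    (h : ∀ k < i, (Finset.univ.val.map x).esymm k = (Finset.univ.val.map y).esymm k) :
    ∑ j, x j ^ i - ∑ j, y j ^ i = (-1) ^ (i + 1) * i *
      ((Finset.univ.val.map x).esymm i - (Finset.univ.val.map y).esymm i) := by
  rw [psum_formula x i hi, psum_formula y i hi]
  have h1 : ∑ a ∈ antidiagonal i with a.1 ∈ Set.Ioo 0 i, (-1) ^ a.1 *
      (Finset.univ.val.map x).esymm a.1 * ∑ j, x j ^ a.2 =
      ∑ a ∈ antidiagonal i with a.1 ∈ Set.Ioo 0 i, (-1) ^ a.1 *
      (Finset.univ.val.map y).esymm a.1 * ∑ j, y j ^ a.2 := by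
    refine Finset.sum_congr rfl fun a ha => ?_
    obtain ⟨h1, h2, h3⟩ := Finset.mem_filter.1 ha
    have h1 := Finset.HasAntidiagonal.mem_antidiagonal.1 h1
    rw [h a.1 (by omega), psum_eq_of x y i h a.2 (by omega)]
  rw [h1]
  ring

theorem psum_norm (x : Fin d → ℂ) {ρ : ℝ} (hx : ∀ j, ‖x j‖ ≤ ρ) (i : ℕ) :
    ‖∑ j, x j ^ i‖ ≤ d * ρ ^ i := by
  refine (norm_sum_le _ _).trans ?_
  refine (Finset.sum_le_card_nsmul _ _ (ρ ^ i) (fun j _ => ?_)).trans ?_
  · rw [norm_pow]
    exact pow_le_pow_left₀ (norm_nonneg _) (hx j) i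
  · rw [Finset.card_univ, Fintype.card_fin, nsmul_eq_mul]

end

/-- The roots as a function. -/
theorem exists_roots {P : ℂ[X]} (hP : P.Monic) {d : ℕ} (hd : P.natDegree = d) :
    ∃ x : Fin d → ℂ, (Finset.univ.val.map x) = P.roots ∧
      ∀ i ≤ d, P.coeff (d - i) = (-1) ^ i * (Finset.univ.val.map x).esymm i := by
  have hs : P.Splits := IsAlgClosed.splits P
  have hcard : Multiset.card P.roots = d := by
    rw [← hd]
    exact splits_iff_card_roots.1 hs
  obtain ⟨x, hx⟩ : ∃ x : Fin d → ℂ, (Finset.univ.val.map x) = P.roots := by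
    obtain ⟨L, hL⟩ := Quotient.exists_rep P.roots
    have hlen : L.length = d := by
      rw [← hcard, ← hL]
      rfl
    subst hlen
    refine ⟨fun i => L.get i, ?_⟩
    rw [← hL]
    have h1 : (Finset.univ : Finset (Fin L.length)).val = (List.finRange L.length : Multiset _) :=
      rfl
    rw [h1, Multiset.map_coe]
    change _ = (L : Multiset ℂ)
    congr 1
    exact List.map_get_finRange L
  refine ⟨x, hx, fun i hi => ?_⟩
  rw [hx, coeff_eq_esymm_roots_of_card (by rw [hcard, hd]) (by rw [hd]; omega), hP.leadingCoeff,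
    one_mul, hd]
  have h2 : d - (d - i) = i := by omega
  rw [h2]

/-- **Newton's identities**: the difference of two coefficients. -/
theorem coeff_diff {P P' : ℂ[X]} (hP : P.Monic) (hP' : P'.Monic) {d : ℕ} (hd : P.natDegree = d)
    (hd' : P'.natDegree = d) {ρ : ℝ} (hρ : ∀ z ∈ P.roots, ‖z‖ ≤ ρ) (hρ' : ∀ z ∈ P'.roots, ‖z‖ ≤ ρ)
    {i : ℕ} (hi : 0 < i) (hid : i ≤ d) (heq : ∀ k < i, P.coeff (d - k) = P'.coeff (d - k)) :
    i * ‖P.coeff (d - i) - P'.coeff (d - i)‖ ≤ 2 * d * ρ ^ i := by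
  obtain ⟨x, hx1, hx2⟩ := exists_roots hP hd
  obtain ⟨y, hy1, hy2⟩ := exists_roots hP' hd'
  have hunit : ∀ k : ℕ, ((-1 : ℂ) ^ k) * (-1) ^ k = 1 := fun k => by
    rw [← mul_pow]
    norm_num
  have he : ∀ k < i, (Finset.univ.val.map x).esymm k = (Finset.univ.val.map y).esymm k := by
    intro k hk
    have h1 := heq k hk
    rw [hx2 k (by omega), hy2 k (by omega)] at h1
    have h2 := congrArg (fun z => (-1) ^ k * z) h1
    simp only [← mul_assoc, hunit, one_mul] at h2
    exact h2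
  have h1 := psum_diff x y i hi he
  have hxn : ∀ j, ‖x j‖ ≤ ρ := fun j => hρ _ (by
    rw [← hx1]
    exact Multiset.mem_map_of_mem x (Finset.mem_univ j))
  have hyn : ∀ j, ‖y j‖ ≤ ρ := fun j => hρ' _ (by
    rw [← hy1]
    exact Multiset.mem_map_of_mem y (Finset.mem_univ j))
  rw [hx2 i hid, hy2 i hid, ← mul_sub, norm_mul, norm_pow, norm_neg, norm_one, one_pow, one_mul]
  have h2 : ‖∑ j, x j ^ i - ∑ j, y j ^ i‖ = i *
      ‖(Finset.univ.val.map x).esymm i - (Finset.univ.val.map y).esymm i‖ := by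
    rw [h1, norm_mul, norm_mul, norm_pow, norm_neg, norm_one, one_pow, one_mul, Complex.norm_natCast]
  rw [← h2]
  have h3 := psum_norm x hxn i
  have h4 := psum_norm y hyn i
  calc ‖∑ j, x j ^ i - ∑ j, y j ^ i‖ ≤ _ := norm_sub_le _ _
    _ ≤ d * ρ ^ i + d * ρ ^ i := add_le_add h3 h4
    _ = 2 * d * ρ ^ i := by ring

end Pool.Agent.J4H9.Newton
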