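import Mathlib
import Pool.Agent.J4H9.Newton
import Pool.Agent.J4H9.Chain
import Pool.Agent.W521.Count

/-!
# The set of the real Weil polynomials is contained in a chain
-/

set_option autoImplicit false

namespace Pool.Agent.J4H9.Cover

open Polynomial Pool.Agent.W521.Frob Pool.Agent.W521.Descent Pool.Agent.W521.Lower
  Pool.Agent.W521.Count Pool.Agent.J4H9.Ch

theorem term_coeff (q g k m : ℕ) (hk : k ≤ g) :
    (k < m → ((X ^ 2 + C (q : ℤ)) ^ k * X ^ (g - k) : ℤ[X]).coeff (g + m) = 0) ∧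
    (k = m → ((X ^ 2 + C (q : ℤ)) ^ k * X ^ (g - k) : ℤ[X]).coeff (g + m) = 1) := by
  have h1 : ((X ^ 2 + C (q : ℤ)) ^ k : ℤ[X]).Monic := (monic_X_pow_add_C _ two_ne_zero).pow _
  have h2 : ((X ^ 2 + C (q : ℤ)) ^ k : ℤ[X]).natDegree = 2 * k := by
    rw [(monic_X_pow_add_C _ two_ne_zero).natDegree_pow, natDegree_X_pow_add_C, mul_comm]
  have h3 : ((X ^ 2 + C (q : ℤ)) ^ k * X ^ (g - k) : ℤ[X]).Monic := h1.mul (monic_X_pow _)
  have h4 : ((X ^ 2 + C (q : ℤ)) ^ k * X ^ (g - k) : ℤ[X]).natDegree = g + k := by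
    rw [h1.natDegree_mul (monic_X_pow _), h2, natDegree_X_pow]
    omega
  constructor
  · intro hkm
    exact coeff_eq_zero_of_natDegree_lt (by rw [h4]; omega)
  · rintro rfl
    rw [← h4]
    exact h3.coeff_natDegree

theorem weil_coeff_diff (q : ℕ) {g j : ℕ} {h h' : ℤ[X]} (hd : h.natDegree = g)
    (hd' : h'.natDegree = g) (heq : ∀ k, j < k → h.coeff k = h'.coeff k) (m : ℕ)
    (hm : j ≤ m) (hmg : m ≤ g) : (weil q h).coeff (g + m) - (weil q h').coeff (g + m) =
      if m = j then h.coeff j - h'.coeff j else 0 := by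
  unfold weil
  rw [hd, hd', finsetSum_coeff, finsetSum_coeff, ← Finset.sum_sub_distrib]
  simp only [coeff_C_mul, ← sub_mul]
  rw [Finset.sum_eq_single m]
  · rw [(term_coeff q g m m hmg).2 rfl, mul_one]
    split_ifs with h1
    · rw [h1]
    · rw [heq m (by omega), sub_self]
  · intro k hk hkm
    have hk' := Finset.mem_range.1 hk
    rcases lt_or_gt_of_ne hkm with h1 | h1
    · rw [(term_coeff q g k m (by omega)).1 h1, mul_zero]
    · rw [heq k (by omega), sub_self, zero_mul]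
  · intro h1
    exact absurd (Finset.mem_range.2 (by omega)) h1

/-- Two real Weil polynomials with the same coefficients above `j`. -/
theorem real_diff {q g j : ℕ} {h h' : ℤ[X]} (hh : weil q h ∈ weilPolys q g)
    (hh' : weil q h' ∈ weilPolys q g) (hd : h.natDegree = g) (hd' : h'.natDegree = g)
    (hj : j < g) (heq : ∀ k, j < k → h.coeff k = h'.coeff k) :
    ((g - j : ℕ) : ℝ) * |((h.coeff j - h'.coeff j : ℤ) : ℝ)| ≤ 4 * g * Real.sqrt q ^ (g - j) := by
  have hmapd : ∀ f ∈ weilPolys q g, (f.map (Int.castRingHom ℂ)).Monic ∧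
      (f.map (Int.castRingHom ℂ)).natDegree = 2 * g ∧
      ∀ z ∈ (f.map (Int.castRingHom ℂ)).roots, ‖z‖ ≤ Real.sqrt q := by
    intro f hf
    refine ⟨hf.1.map _, by rw [hf.1.natDegree_map, hf.2.1], ?_⟩
    intro z hz
    have h1 := (mem_roots'.1 hz).2
    rw [IsRoot.def, eval_map] at h1
    have h2 : aeval z f = 0 := h1
    have h3 := hf.2.2.2 z h2
    rw [← h3, Real.sqrt_sq (norm_nonneg _)]
  obtain ⟨a1, a2, a3⟩ := hmapd _ hh
  obtain ⟨b1, b2, b3⟩ := hmapd _ hh'
  have key := Newton.coeff_diff a1 b1 a2 b2 a3 b3 (i := g - j) (by omega) (by omega) (by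
    intro k hk
    rw [coeff_map, coeff_map]
    have h1 : 2 * g - k = g + (g - k) := by omega
    have h2 := weil_coeff_diff q hd hd' heq (g - k) (by omega) (by omega)
    rw [if_neg (by omega), sub_eq_zero] at h2
    rw [h1, h2])
  have h1 : 2 * g - (g - j) = g + j := by omega
  have h2 := weil_coeff_diff q hd hd' heq j le_rfl hj.le
  rw [if_pos rfl] at h2
  rw [h1, coeff_map, coeff_map, ← map_sub, h2, eq_intCast, Complex.norm_intCast] at key
  refine key.trans (le_of_eq ?_)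
  push_cast
  ring

/-- One more coefficient. -/
noncomputable def ext (T : Finset ℤ[X]) (s : ℤ[X] → ℤ) (M : ℕ) : Finset ℤ[X] := by
  classical
  exact T.biUnion fun f => (Finset.Ico (s f) (s f + (M : ℤ))).image fun a => X * f + C a

theorem mem_ext {T : Finset ℤ[X]} {s : ℤ[X] → ℤ} {M : ℕ} {h : ℤ[X]} :
    h ∈ ext T s M ↔ h.divX ∈ T ∧ s h.divX ≤ h.coeff 0 ∧ h.coeff 0 < s h.divX + M := by
  classical
  unfold ext
  rw [Finset.mem_biUnion]
  constructor
  · rintro ⟨f, hf, h1⟩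
    obtain ⟨a, ha, rfl⟩ := Finset.mem_image.1 h1
    rw [divX_form, coeff_form_zero]
    exact ⟨hf, Finset.mem_Ico.1 ha⟩
  · rintro ⟨h1, h2⟩
    exact ⟨h.divX, h1, Finset.mem_image.2 ⟨h.coeff 0, Finset.mem_Ico.2 h2, form_eq h⟩⟩

/-- The levels of the covering chain. -/
noncomputable def lev (g : ℕ) (s : ℕ → ℤ[X] → ℤ) (M : ℕ → ℕ) : ℕ → Finset ℤ[X]
  | 0 => {1}
  | i + 1 => ext (lev g s M i) (s (g - (i + 1))) (M (g - (i + 1)))

theorem chain_lev (g : ℕ) (s : ℕ → ℤ[X] → ℤ) (M : ℕ → ℕ) (hM : ∀ j < g, 0 < M j) :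
    Chain M g (fun j => lev g s M (g - j)) := by
  have key : ∀ j < g, lev g s M (g - j) = ext (lev g s M (g - (j + 1))) (s j) (M j) := by
    intro j hj
    obtain ⟨i, hi⟩ : ∃ i, g - j = i + 1 := ⟨g - j - 1, by omega⟩
    have h1 : g - (j + 1) = i := by omega
    have h2 : g - (i + 1) = j := by omega
    rw [hi, h1]
    change ext (lev g s M i) (s (g - (i + 1))) (M (g - (i + 1))) = _
    rw [h2]
  refine ⟨hM, ?_, ?_⟩
  · intro j hj h hh
    have hh' : h ∈ lev g s M (g - j) := hh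
    rw [key j hj, mem_ext] at hh'
    exact hh'.1
  · intro j hj f hf
    refine ⟨s j f, fun a => ?_⟩
    rw [key j hj, mem_ext, divX_form, coeff_form_zero]
    exact ⟨fun h => h.2, fun h => ⟨hf, h⟩⟩

theorem divX_top {g : ℕ} {h : ℤ[X]} (hm : h.Monic) (hd : h.natDegree = g) : divX^[g] h = 1 := by
  ext j
  rw [iterate_divX_coeff, coeff_one]
  split_ifs with h1
  · rw [h1, zero_add, ← hd]
    exact hm.coeff_natDegree
  · exact coeff_eq_zero_of_natDegree_lt (by omega)

theorem of_divX_top {g : ℕ} {h : ℤ[X]} (h1 : divX^[g] h = 1) : h.Monic ∧ h.natDegree = g := by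
  have h2 : ∀ j, h.coeff (j + g) = (1 : ℤ[X]).coeff j := fun j => by
    rw [← h1, iterate_divX_coeff]
  have h3 : h.coeff g = 1 := by
    have := h2 0
    rwa [zero_add, coeff_one_zero] at this
  have h4 : h.natDegree ≤ g := by
    rw [natDegree_le_iff_coeff_eq_zero]
    intro N hN
    have := h2 (N - g)
    rw [Nat.sub_add_cancel hN.le, coeff_one, if_neg (by omega)] at this
    exact this
  have h5 : h.natDegree = g := by
    refine le_antisymm h4 (le_natDegree_of_ne_zero ?_)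
    rw [h3]
    exact one_ne_zero
  exact ⟨monic_of_natDegree_le_of_coeff_eq_one g h4 h3, h5⟩

/-- The members of the levels of a chain that ends in `1` are monic. -/
theorem monic_of_chain {M : ℕ → ℕ} {g : ℕ} {𝒯 : ℕ → Finset ℤ[X]} (hc : Chain M g 𝒯)
    (htop : 𝒯 g = {1}) (j : ℕ) (hj : j ≤ g) (f : ℤ[X]) (hf : f ∈ 𝒯 j) :
    f.Monic ∧ f.natDegree + j = g := by
  have h1 := hc.iterate (g - j) j (by omega) f hf
  rw [show j + (g - j) = g by omega, htop, Finset.mem_singleton] at h1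
  obtain ⟨h2, h3⟩ := of_divX_top h1
  exact ⟨h2, by omega⟩

/-- **The covering chain.** -/
theorem cover {g : ℕ} (𝒲 : Finset ℤ[X]) (h𝒲 : ∀ h ∈ 𝒲, h.Monic ∧ h.natDegree = g) (M : ℕ → ℕ)
    (hM : ∀ j < g, 0 < M j)
    (hdiff : ∀ j < g, ∀ h ∈ 𝒲, ∀ h' ∈ 𝒲, divX^[j + 1] h = divX^[j + 1] h' →
      h.coeff j < h'.coeff j + M j) :
    ∃ 𝒯 : ℕ → Finset ℤ[X], Chain M g 𝒯 ∧ 𝒲 ⊆ 𝒯 0 ∧ 𝒯 g = {1} := by
  classical
  have hex : ∀ (j : ℕ) (f : ℤ[X]), ∃ s : ℤ, j < g → ∀ h ∈ 𝒲, divX^[j + 1] h = f →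
      s ≤ h.coeff j ∧ h.coeff j < s + M j := by
    intro j f
    by_cases hne : ((𝒲.filter (fun h => divX^[j + 1] h = f))).Nonempty
    · obtain ⟨h₀, h1, h2⟩ := Finset.exists_min_image _ (fun h : ℤ[X] => h.coeff j) hne
      obtain ⟨h3, h4⟩ := Finset.mem_filter.1 h1
      refine ⟨h₀.coeff j, fun hj h hh hf => ⟨h2 h (Finset.mem_filter.2 ⟨hh, hf⟩), ?_⟩⟩
      exact hdiff j hj h hh h₀ h3 (hf.trans h4.symm)
    · refine ⟨0, fun _ h hh hf => absurd ⟨h, Finset.mem_filter.2 ⟨hh, hf⟩⟩ hne⟩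
  choose s hs using hex
  refine ⟨fun j => lev g s M (g - j), chain_lev g s M hM, ?_, ?_⟩
  · intro h hh
    have key : ∀ i ≤ g, divX^[g - i] h ∈ lev g s M i := by
      intro i
      induction i with
      | zero =>
        intro _
        change _ ∈ ({1} : Finset ℤ[X])
        rw [Finset.mem_singleton, Nat.sub_zero]
        exact divX_top (h𝒲 h hh).1 (h𝒲 h hh).2
      | succ i ih =>
        intro hi
        change _ ∈ ext (lev g s M i) (s (g - (i + 1))) (M (g - (i + 1)))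
        rw [mem_ext]
        have h1 : (divX^[g - (i + 1)] h).divX = divX^[g - i] h := by
          have h2 : g - i = (g - (i + 1)) + 1 := by omega
          rw [h2, Function.iterate_succ', Function.comp_apply]
        rw [h1, iterate_divX_coeff, zero_add]
        have h3 : g - i = (g - (i + 1)) + 1 := by omega
        exact ⟨ih (by omega), hs (g - (i + 1)) _ (by omega) h hh (by rw [← h3])⟩
    have h1 := key g le_rfl
    rw [Nat.sub_self] at h1
    change h ∈ lev g s M (g - 0)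
    rw [Nat.sub_zero]
    exact h1
  · change lev g s M (g - g) = {1}
    rw [Nat.sub_self]
    rfl

/-- The lengths of the intervals. -/
noncomputable def len (q g j : ℕ) : ℕ := ⌊4 * g * Real.sqrt q ^ (g - j) / (g - j : ℕ)⌋₊ + 1

theorem len_le {q g j : ℕ} (hq : 0 < q) (hj : j < g) :
    (len q g j : ℝ) ≤ 5 * g * Real.sqrt q ^ (g - j) / (g - j : ℕ) := by
  have h0 : (0 : ℝ) < (g - j : ℕ) := by
    have : 0 < g - j := by omega
    exact_mod_cast this
  have h1 : (1 : ℝ) ≤ Real.sqrt q := by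
    rw [Real.one_le_sqrt]
    exact_mod_cast hq
  have h2 : (1 : ℝ) ≤ Real.sqrt q ^ (g - j) := one_le_pow₀ h1
  have h3 : ((g - j : ℕ) : ℝ) ≤ g := by exact_mod_cast Nat.sub_le g j
  unfold len
  push_cast
  have h4 := Nat.floor_le (show 0 ≤ 4 * (g : ℝ) * Real.sqrt q ^ (g - j) / (g - j : ℕ) by positivity)
  have h5 : (1 : ℝ) ≤ g * Real.sqrt q ^ (g - j) / (g - j : ℕ) := by
    rw [le_div_iff₀ h0, one_mul]
    nlinarith
  have h6 : 5 * (g : ℝ) * Real.sqrt q ^ (g - j) / (g - j : ℕ) =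
      4 * g * Real.sqrt q ^ (g - j) / (g - j : ℕ) + g * Real.sqrt q ^ (g - j) / (g - j : ℕ) := by
    ring
  rw [h6]
  linarith

theorem le_len {q g j : ℕ} (hj : j < g) : Real.sqrt q ^ (g - j) ≤ (len q g j : ℝ) := by
  have h0 : (0 : ℝ) < (g - j : ℕ) := by
    have : 0 < g - j := by omega
    exact_mod_cast this
  have h3 : ((g - j : ℕ) : ℝ) ≤ g := by exact_mod_cast Nat.sub_le g j
  unfold len
  push_cast
  have h4 := Nat.lt_floor_add_one (4 * (g : ℝ) * Real.sqrt q ^ (g - j) / (g - j : ℕ))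
  refine le_trans ?_ h4.le
  rw [le_div_iff₀ h0]
  have h5 : 0 ≤ Real.sqrt q ^ (g - j) := by positivity
  nlinarith

/-- The real Weil polynomials. -/
def realWeil (q g : ℕ) : Set ℤ[X] := {h | h.Monic ∧ h.natDegree = g ∧ weil q h ∈ weilPolys q g}

theorem finite_realWeil {q g : ℕ} (hq : q ≠ 0) : (realWeil q g).Finite := by
  refine Set.Finite.of_finite_image ((finite_weilPolys hq (g := g)).subset ?_)
    (f := fun h => weil q h) ?_
  · rintro _ ⟨h, hh, rfl⟩
    exact hh.2.2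
  · intro h hh h' hh' heq
    exact weil_injective hq hh.2.1 hh'.2.1 heq

/-- **The chain which contains the real Weil polynomials.** -/
theorem cover_real {q : ℕ} (hq : 0 < q) (g : ℕ) :
    ∃ 𝒯 : ℕ → Finset ℤ[X], Chain (len q g) g 𝒯 ∧ realWeil q g ⊆ 𝒯 0 ∧ 𝒯 g = {1} := by
  have hfin := finite_realWeil (g := g) hq.ne'
  obtain ⟨𝒯, h1, h2, h3⟩ := cover hfin.toFinset (fun h hh => by
    rw [Set.Finite.mem_toFinset] at hh
    exact ⟨hh.1, hh.2.1⟩) (len q g) (fun j _ => Nat.succ_pos _) (by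
    intro j hj h hh h' hh' heq
    rw [Set.Finite.mem_toFinset] at hh hh'
    have h4 := real_diff hh.2.2 hh'.2.2 hh.2.1 hh'.2.1 hj (by
      intro k hk
      have h5 := congrArg (fun p => p.coeff (k - (j + 1))) heq
      simp only [iterate_divX_coeff] at h5
      rwa [Nat.sub_add_cancel hk] at h5)
    have h0 : (0 : ℝ) < (g - j : ℕ) := by
      have : 0 < g - j := by omega
      exact_mod_cast this
    have h5 : |((h.coeff j - h'.coeff j : ℤ) : ℝ)| ≤ 4 * g * Real.sqrt q ^ (g - j) / (g - j : ℕ) := by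
      rw [le_div_iff₀ h0]
      linarith
    have h6 : (h.coeff j - h'.coeff j).toNat ≤ ⌊4 * (g : ℝ) * Real.sqrt q ^ (g - j) / (g - j : ℕ)⌋₊ := by
      refine Nat.le_floor ?_
      refine le_trans ?_ h5
      by_cases h7 : 0 ≤ h.coeff j - h'.coeff j
      · have h8 : (((h.coeff j - h'.coeff j).toNat : ℤ) : ℝ) = ((h.coeff j - h'.coeff j : ℤ) : ℝ) := by
          rw [Int.toNat_of_nonneg h7]
        rw [Int.cast_natCast] at h8
        rw [h8]
        exact le_abs_self _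
      · rw [Int.toNat_of_nonpos (by omega)]
        simp
    unfold len
    omega)
  exact ⟨𝒯, h1, fun h hh => h2 ((Set.Finite.mem_toFinset hfin).2 hh), h3⟩

end Pool.Agent.J4H9.Cover
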