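import Mathlib
import Pool.Agent.J4H9.Cover

/-!
# Boxes with respect to a unitriangular basis are chains
-/

set_option autoImplicit false

namespace Pool.Agent.J4H9.Basis

open Polynomial Pool.Agent.J4H9.Ch Pool.Agent.J4H9.Cover

/-- The combination. -/
noncomputable def comb (B : ℕ → ℤ[X]) (g : ℕ) (e : Fin g → ℤ) : ℤ[X] :=
  B g + ∑ k : Fin g, C (e k) * B k

section

variable {B : ℕ → ℤ[X]} {g : ℕ}

theorem comb_coeff (e : Fin g → ℤ) (i : ℕ) :
    (comb B g e).coeff i = (B g).coeff i + ∑ k : Fin g, e k * (B k).coeff i := by
  unfold comb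
  rw [coeff_add, finsetSum_coeff]
  simp only [coeff_C_mul]

theorem comb_update (e : Fin g → ℤ) (i : Fin g) (x : ℤ) :
    comb B g (Function.update e i x) = comb B g (Function.update e i 0) + C x * B i := by
  unfold comb
  rw [← Finset.add_sum_erase Finset.univ _ (Finset.mem_univ i),
    ← Finset.add_sum_erase Finset.univ (fun k => C (Function.update e i 0 k) * B k)
      (Finset.mem_univ i), Function.update_self, Function.update_self, C_0, zero_mul, zero_add,
    add_assoc, add_comm (C x * B i)]
  congr 2
  refine Finset.sum_congr rfl fun k hk => ?_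
  have := Finset.ne_of_mem_erase hk
  rw [Function.update_of_ne this, Function.update_of_ne this]

variable (hB : ∀ k, (B k).Monic ∧ (B k).natDegree = k)

include hB

theorem comb_monic (e : Fin g → ℤ) : (comb B g e).Monic ∧ (comb B g e).natDegree = g := by
  have h1 : (∑ k : Fin g, C (e k) * B k).degree < (B g).degree := by
    refine lt_of_le_of_lt (degree_sum_le _ _) ?_
    rw [Finset.sup_lt_iff]
    · intro k _
      have h0 : (C (e k) * B k).degree ≤ (B k).degree := by
        refine (degree_mul_le _ _).trans ?_
        calc (C (e k)).degree + (B k).degree ≤ 0 + (B k).degree :=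
              add_le_add degree_C_le le_rfl
          _ = _ := zero_add _
      refine lt_of_le_of_lt h0 ?_
      rw [degree_eq_natDegree (hB k).1.ne_zero, degree_eq_natDegree (hB g).1.ne_zero, (hB k).2,
        (hB g).2]
      exact_mod_cast k.2
    · rw [bot_lt_iff_ne_bot, Ne, degree_eq_bot]
      exact (hB g).1.ne_zero
  refine ⟨(hB g).1.add_of_left h1, ?_⟩
  have h2 : (comb B g e).degree = (B g).degree := degree_add_eq_left_of_degree_lt h1
  have h3 := natDegree_eq_natDegree h2
  rw [h3, (hB g).2]

/-- The combination determines the coordinates. -/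
theorem coords {e e' : Fin g → ℤ} {j : ℕ}
    (h : ∀ i, j ≤ i → (comb B g e).coeff i = (comb B g e').coeff i) (k : Fin g)
    (hk : j ≤ k) : e k = e' k := by
  classical
  by_contra hne
  have hne' : (Finset.univ.filter (fun k : Fin g => j ≤ (k : ℕ) ∧ e k ≠ e' k)).Nonempty :=
    ⟨k, Finset.mem_filter.2 ⟨Finset.mem_univ _, hk, hne⟩⟩
  obtain ⟨k₀, h1, h2⟩ := Finset.exists_max_image _ (fun k : Fin g => (k : ℕ)) hne'
  obtain ⟨-, h3, h4⟩ := Finset.mem_filter.1 h1
  have h5 := h k₀ h3
  rw [comb_coeff, comb_coeff, add_right_inj, ← sub_eq_zero, ← Finset.sum_sub_distrib,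
    Finset.sum_eq_single k₀] at h5
  · have h6 : (B k₀).coeff k₀ = 1 := by
      have := (hB k₀).1.coeff_natDegree
      rwa [(hB k₀).2] at this
    rw [h6, mul_one, mul_one, sub_eq_zero] at h5
    exact h4 h5
  · intro i _ hi
    rcases lt_or_gt_of_ne (fun h => hi (Fin.ext h) : (i : ℕ) ≠ k₀) with h6 | h6
    · have h7 : (B i).coeff k₀ = 0 := coeff_eq_zero_of_natDegree_lt (by rw [(hB i).2]; exact h6)
      rw [h7, mul_zero, mul_zero, sub_zero]
    · have h7 : e i = e' i := by
        by_contra h8
        have := h2 i (Finset.mem_filter.2 ⟨Finset.mem_univ _, by omega, h8⟩)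
        omega
      rw [h7, sub_self]
  · intro h6
    exact absurd (Finset.mem_univ _) h6

theorem comb_injective : Function.Injective (comb B g) := by
  intro e e' h
  funext k
  exact coords hB (j := 0) (fun i _ => by rw [h]) k (Nat.zero_le _)

open Classical in
/-- **Boxes are chains.** -/
theorem chain_box (lo hi : ℕ → ℤ) (hne : ∀ k < g, lo k ≤ hi k) :
    Chain (fun k => (hi k - lo k + 1).toNat) g (fun j =>
      (Fintype.piFinset fun k : Fin g => Finset.Icc (lo k) (hi k)).image
        fun e => divX^[j] (comb B g e)) := by
  refine ⟨?_, ?_, ?_⟩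
  · intro j hj
    have := hne j hj
    omega
  · intro j hj h hh
    obtain ⟨e, he, rfl⟩ := Finset.mem_image.1 hh
    exact Finset.mem_image.2 ⟨e, he, by rw [Function.iterate_succ', Function.comp_apply]⟩
  · intro j hj f hf
    obtain ⟨e₀, he₀, rfl⟩ := Finset.mem_image.1 hf
    rw [Fintype.mem_piFinset] at he₀
    let i : Fin g := ⟨j, hj⟩
    have hBj : (B j).coeff j = 1 := by
      have := (hB j).1.coeff_natDegree
      rwa [(hB j).2] at this
    refine ⟨(comb B g (Function.update e₀ i 0)).coeff j + lo j, fun a => ?_⟩
    have hcoe : ∀ x : ℤ, (comb B g (Function.update e₀ i x)).coeff j =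
        (comb B g (Function.update e₀ i 0)).coeff j + x := by
      intro x
      rw [comb_update, coeff_add, coeff_C_mul]
      change _ + x * (B j).coeff j = _
      rw [hBj, mul_one]
    constructor
    · intro ha
      obtain ⟨e, he, h1⟩ := Finset.mem_image.1 ha
      rw [Fintype.mem_piFinset] at he
      have h2 : a = (comb B g e).coeff j := by
        have h3 := congrArg (fun p => p.coeff 0) h1
        simp only [coeff_form_zero, iterate_divX_coeff, zero_add] at h3
        exact h3.symm
      have h3 : ∀ k : Fin g, j + 1 ≤ k → e k = e₀ k := by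
        refine coords hB (j := j + 1) ?_
        intro n hn
        have h4 := congrArg (fun p => p.divX) h1
        simp only [divX_form] at h4
        have h5 : (divX^[j] (comb B g e)).divX = divX^[j + 1] (comb B g e) := by
          rw [Function.iterate_succ', Function.comp_apply]
        rw [h5] at h4
        have h6 := congrArg (fun p => p.coeff (n - (j + 1))) h4
        simp only [iterate_divX_coeff] at h6
        rwa [Nat.sub_add_cancel hn] at h6
      have h4 : (comb B g e).coeff j = (comb B g (Function.update e₀ i (e i))).coeff j := by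
        rw [comb_coeff, comb_coeff]
        congr 1
        refine Finset.sum_congr rfl fun k _ => ?_
        rcases lt_trichotomy (k : ℕ) j with h5 | h5 | h5
        · have h6 : (B k).coeff j = 0 := coeff_eq_zero_of_natDegree_lt (by rw [(hB k).2]; exact h5)
          rw [h6, mul_zero, mul_zero]
        · have h6 : k = i := Fin.ext h5
          rw [h6, Function.update_self]
        · have h6 : k ≠ i := fun h => by rw [h] at h5; exact lt_irrefl _ h5
          rw [Function.update_of_ne h6, h3 k h5]
      have h5 : lo j ≤ e i ∧ e i ≤ hi j := Finset.mem_Icc.1 (he i)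
      rw [h2, h4, hcoe (e i)]
      omega
    · intro ha
      set x : ℤ := a - (comb B g (Function.update e₀ i 0)).coeff j with hx
      have hxr : lo j ≤ x ∧ x ≤ hi j := by
        have := hne j hj
        omega
      refine Finset.mem_image.2 ⟨Function.update e₀ i x, ?_, ?_⟩
      · rw [Fintype.mem_piFinset]
        intro k
        by_cases hk : k = i
        · rw [hk, Function.update_self]
          exact Finset.mem_Icc.2 hxr
        · rw [Function.update_of_ne hk]
          exact he₀ k
      · ext n
        rw [iterate_divX_coeff]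
        rcases Nat.eq_zero_or_pos n with hn | hn
        · subst hn
          rw [zero_add, coeff_form_zero, hcoe]
          omega
        · obtain ⟨n', rfl⟩ : ∃ n', n = n' + 1 := ⟨n - 1, by omega⟩
          rw [coeff_form_succ, iterate_divX_coeff]
          have h1 : Function.update e₀ i (e₀ i) = e₀ := Function.update_eq_self i e₀
          conv_rhs => rw [← h1]
          rw [comb_update, comb_update (B := B) e₀ i (e₀ i), coeff_add, coeff_add, coeff_C_mul,
            coeff_C_mul]
          have h2 : (B i).coeff (n' + 1 + j) = 0 :=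
            coeff_eq_zero_of_natDegree_lt (by rw [(hB i).2]; change j < _; omega)
          have h3 : n' + (j + 1) = n' + 1 + j := by omega
          rw [h3, h2, mul_zero, mul_zero]

theorem box_top (lo hi : ℕ → ℤ) (hne : ∀ k < g, lo k ≤ hi k) [DecidableEq ℤ[X]] :
    ((Fintype.piFinset fun k : Fin g => Finset.Icc (lo k) (hi k)).image
        fun e => divX^[g] (comb B g e)) = {1} := by
  rw [Finset.eq_singleton_iff_unique_mem]
  constructor
  · refine Finset.mem_image.2 ⟨fun k => lo k, ?_, ?_⟩
    · rw [Fintype.mem_piFinset]
      intro k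
      exact Finset.mem_Icc.2 ⟨le_rfl, hne k k.2⟩
    · exact divX_top (comb_monic hB _).1 (comb_monic hB _).2
  · intro x hx
    obtain ⟨e, -, rfl⟩ := Finset.mem_image.1 hx
    exact divX_top (comb_monic hB _).1 (comb_monic hB _).2

end

end Pool.Agent.J4H9.Basis
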