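import Mathlib
import Pool.Agent.J4H9.Basis

/-!
# Weil polynomials with small coefficients
-/

set_option autoImplicit false

namespace Pool.Agent.J4H9.Dick

open Polynomial Pool.Agent.W521.Frob Pool.Agent.W521.Descent Pool.Agent.W521.Lower
  Pool.Agent.J4H9.Ch Pool.Agent.J4H9.Cover Pool.Agent.J4H9.Basis

/-- All roots of a polynomial with alternating signs at the points `pt q g j` are real and of
absolute value at most `2 √q`. -/
theorem real_roots_of_sign {q g : ℕ} (hq : 0 < q) (hg : 0 < g) {H : ℤ[X]} (hm : H.Monic)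
    (hdeg : H.natDegree = g) (hsign : ∀ j ≤ g, 0 < (-1) ^ j * aeval (pt q g j) H) (z : ℂ)
    (hz : aeval z H = 0) : ∃ r : ℝ, |r| ≤ 2 * Real.sqrt q ∧ (r : ℂ) = z := by
  classical
  set P : ℝ[X] := H.map (algebraMap ℤ ℝ) with hP
  have hPm : P.Monic := hm.map _
  have hPdeg : P.natDegree = g := by rw [hP, hm.natDegree_map, hdeg]
  have hPev : ∀ y : ℝ, P.eval y = aeval y H := by
    intro y
    rw [hP, eval_map]
    rfl
  have hroot : ∀ j : Fin g, ∃ r ∈ Set.Ioo (pt q g (j + 1)) (pt q g j), P.eval r = 0 := by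
    intro j
    have hlt := pt_anti (q := q) hq hg (Nat.lt_succ_self (j : ℕ)) j.2
    have e1 : 0 < (-1) ^ (j : ℕ) * P.eval (pt q g j) := by
      rw [hPev]
      exact hsign j j.2.le
    have e2 : 0 < (-1) ^ ((j : ℕ) + 1) * P.eval (pt q g (j + 1)) := by
      rw [hPev]
      exact hsign (j + 1) j.2
    have hc : ContinuousOn (fun y => P.eval y) (Set.Icc (pt q g (j + 1)) (pt q g j)) :=
      P.continuous.continuousOn
    rcases neg_one_pow_eq_or ℝ (j : ℕ) with h | h
    · rw [h, one_mul] at e1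
      rw [pow_succ, h, one_mul] at e2
      have h3 : P.eval (pt q g (j + 1)) < 0 := by linarith
      obtain ⟨r, hr, hr2⟩ := intermediate_value_Ioo hlt.le hc ⟨h3, e1⟩
      exact ⟨r, hr, hr2⟩
    · rw [h] at e1
      rw [pow_succ, h] at e2
      have h3 : 0 < P.eval (pt q g (j + 1)) := by linarith
      have h4 : P.eval (pt q g j) < 0 := by linarith
      obtain ⟨r, hr, hr2⟩ := intermediate_value_Ioo' hlt.le hc ⟨h4, h3⟩
      exact ⟨r, hr, hr2⟩
  choose r hr hr0 using hroot
  have hrinj : Function.Injective r := by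
    intro i j hij
    by_contra hne
    rcases lt_or_gt_of_ne hne with h | h
    · have h1 := (hr i).1
      have h2 := (hr j).2
      have h3 : pt q g j ≤ pt q g ((i : ℕ) + 1) := by
        rcases eq_or_lt_of_le (Nat.succ_le_of_lt (Fin.lt_def.1 h)) with e | e
        · rw [← e]
        · exact (pt_anti hq hg e j.2.le).le
      rw [hij] at h1
      linarith
    · have h1 := (hr j).1
      have h2 := (hr i).2
      have h3 : pt q g i ≤ pt q g ((j : ℕ) + 1) := by
        rcases eq_or_lt_of_le (Nat.succ_le_of_lt (Fin.lt_def.1 h)) with e | e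
        · rw [← e]
        · exact (pt_anti hq hg e i.2.le).le
      rw [← hij] at h1
      linarith
  set S : Finset ℝ := Finset.univ.image r with hS
  have hScard : S.card = g := by
    rw [hS, Finset.card_image_of_injective _ hrinj, Finset.card_univ, Fintype.card_fin]
  have hSsub : S ⊆ P.roots.toFinset := by
    intro y hy
    obtain ⟨j, -, rfl⟩ := Finset.mem_image.1 hy
    rw [Multiset.mem_toFinset, mem_roots hPm.ne_zero]
    exact hr0 j
  have hcard : Multiset.card P.roots = g := by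
    have h1 := P.card_roots'
    have h2 := Finset.card_le_card hSsub
    have h3 := Multiset.toFinset_card_le P.roots
    omega
  have hSeq : S = P.roots.toFinset := by
    apply Finset.eq_of_subset_of_card_le hSsub
    rw [hScard, ← hcard]
    exact Multiset.toFinset_card_le _
  have hsplit : P.Splits := splits_iff_card_roots.2 (by rw [hcard, hPdeg])
  have hzroot : (P.map (algebraMap ℝ ℂ)).IsRoot z := by
    have e1 : P.map (algebraMap ℝ ℂ) = H.map (algebraMap ℤ ℂ) := by
      rw [hP, Polynomial.map_map]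
      congr 1
    rw [e1, IsRoot.def, eval_map]
    exact hz
  obtain ⟨y, hy⟩ := hsplit.mem_range_of_isRoot hPm.ne_zero hzroot
  refine ⟨y, ?_, hy⟩
  have hyroot : P.IsRoot y := by
    rw [← hy, IsRoot.def, eval_map_algebraMap, aeval_algebraMap_apply] at hzroot
    exact (algebraMap ℝ ℂ).injective (by rw [map_zero]; exact hzroot)
  have hyS : y ∈ S := by
    rw [hSeq, Multiset.mem_toFinset, mem_roots hPm.ne_zero]
    exact hyroot
  obtain ⟨j, -, rfl⟩ := Finset.mem_image.1 hyS
  have h1 := abs_le.1 (pt_abs (q := q) (g := g) ((j : ℕ) + 1))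
  have h2 := abs_le.1 (pt_abs (q := q) (g := g) (j : ℕ))
  have h3 := hr j
  rw [abs_le]
  exact ⟨by linarith [h3.1], by linarith [h3.2]⟩

/-- The basis. -/
noncomputable def bas (q : ℕ) (k : ℕ) : ℤ[X] := if k = 0 then 1 else dick q k

theorem bas_zero (q : ℕ) : bas q 0 = 1 := if_pos rfl

theorem bas_pos {q k : ℕ} (hk : 0 < k) : bas q k = dick q k := if_neg hk.ne'

theorem bas_monic (q k : ℕ) : (bas q k).Monic ∧ (bas q k).natDegree = k := by
  rcases Nat.eq_zero_or_pos k with hk | hk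
  · subst hk
    rw [bas_zero]
    exact ⟨monic_one, natDegree_one⟩
  · rw [bas_pos hk]
    exact dick_monic q hk

theorem sum_comb {A : Type*} [CommRing A] (q g : ℕ) (hg : 0 < g) (a : ℕ → ℤ) (y : A) :
    aeval y (comb (bas q) g (fun k : Fin g => a (g - k))) =
      aeval y (dick q g) + ∑ j ∈ Finset.Ico 1 g, (a j : A) * aeval y (dick q (g - j)) +
        (a g : A) := by
  unfold comb
  rw [map_add, map_sum, bas_pos hg, add_assoc]
  congr 1
  have h1 : ∑ k : Fin g, aeval y (C (a (g - k)) * bas q k) =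
      ∑ k ∈ Finset.range g, aeval y (C (a (g - k)) * bas q k) :=
    Fin.sum_univ_eq_sum_range (fun k => aeval y (C (a (g - k)) * bas q k)) g
  rw [h1, Finset.range_eq_Ico, Finset.sum_eq_sum_Ico_succ_bot hg, zero_add, bas_zero, mul_one,
    Nat.sub_zero, aeval_C, eq_intCast (algebraMap ℤ A), add_comm]
  congr 1
  have h2 := Finset.sum_Ico_reflect (fun k => aeval y (C (a (g - k)) * bas q k)) 1
    (show g ≤ g + 1 by omega)
  have h3 : g + 1 - g = 1 := by omega
  have h4 : g + 1 - 1 = g := by omega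
  rw [h3, h4] at h2
  rw [← h2]
  refine Finset.sum_congr rfl fun j hj => ?_
  have hj' := Finset.mem_Ico.1 hj
  have h5 : g - (g - j) = j := by omega
  rw [h5, map_mul, aeval_C, eq_intCast (algebraMap ℤ A), bas_pos (by omega)]

/-- The condition for the coefficients. -/
def SmallCoeffs (q g : ℕ) (a : ℕ → ℤ) : Prop :=
  ∑ j ∈ Finset.Ico 1 g, 2 * |(a j : ℝ)| / Real.sqrt q ^ j + |(a g : ℝ)| / Real.sqrt q ^ g < 2

theorem sign_comb {q g : ℕ} (hq : 0 < q) (hg : 0 < g) {a : ℕ → ℤ} (ha : SmallCoeffs q g a) (j : ℕ) :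
    0 < (-1) ^ j * aeval (pt q g j) (comb (bas q) g (fun k : Fin g => a (g - k))) := by
  have hs : 0 < Real.sqrt q := Real.sqrt_pos.2 (by exact_mod_cast hq)
  have hg' : (g : ℝ) ≠ 0 := by exact_mod_cast hg.ne'
  have hev : ∀ k : ℕ, aeval (pt q g j) (dick q k) =
      2 * Real.sqrt q ^ k * Real.cos (k * (j * Real.pi / g)) := fun k =>
    (dick_eval q (j * Real.pi / g) k).1
  rw [sum_comb q g hg]
  have hD : aeval (pt q g j) (dick q g) = 2 * Real.sqrt q ^ g * (-1) ^ j := by
    rw [hev]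
    have h2 : (g : ℝ) * (j * Real.pi / g) = j * Real.pi := by
      field_simp
    rw [h2, Real.cos_nat_mul_pi]
  rw [hD]
  set R : ℝ := ∑ i ∈ Finset.Ico 1 g, (a i : ℝ) * aeval (pt q g j) (dick q (g - i)) with hR
  have hbound : |R + (a g : ℝ)| < 2 * Real.sqrt q ^ g := by
    have h1 : |R| ≤ ∑ i ∈ Finset.Ico 1 g, 2 * |(a i : ℝ)| / Real.sqrt q ^ i * Real.sqrt q ^ g := by
      refine (Finset.abs_sum_le_sum_abs _ _).trans (Finset.sum_le_sum fun i hi => ?_)
      have hi' := Finset.mem_Ico.1 hi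
      rw [hev, abs_mul, abs_mul, abs_of_pos (by positivity : 0 < 2 * Real.sqrt q ^ (g - i))]
      have h2 : Real.sqrt q ^ g = Real.sqrt q ^ (g - i) * Real.sqrt q ^ i := by
        rw [← pow_add, Nat.sub_add_cancel hi'.2.le]
      rw [h2]
      have h3 := Real.abs_cos_le_one (((g - i : ℕ) : ℝ) * (j * Real.pi / g))
      have h4 : 2 * |(a i : ℝ)| / Real.sqrt q ^ i * (Real.sqrt q ^ (g - i) * Real.sqrt q ^ i) =
          |(a i : ℝ)| * (2 * Real.sqrt q ^ (g - i) * 1) := by
        field_simp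
      rw [h4]
      refine mul_le_mul_of_nonneg_left ?_ (abs_nonneg _)
      exact mul_le_mul_of_nonneg_left h3 (by positivity)
    have h2 : |(a g : ℝ)| = |(a g : ℝ)| / Real.sqrt q ^ g * Real.sqrt q ^ g := by
      field_simp
    calc |R + (a g : ℝ)| ≤ |R| + |(a g : ℝ)| := abs_add_le _ _
      _ ≤ ∑ i ∈ Finset.Ico 1 g, 2 * |(a i : ℝ)| / Real.sqrt q ^ i * Real.sqrt q ^ g +
          |(a g : ℝ)| / Real.sqrt q ^ g * Real.sqrt q ^ g := add_le_add h1 h2.le
      _ = (∑ i ∈ Finset.Ico 1 g, 2 * |(a i : ℝ)| / Real.sqrt q ^ i +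
          |(a g : ℝ)| / Real.sqrt q ^ g) * Real.sqrt q ^ g := by
            rw [← Finset.sum_mul, add_mul]
      _ < 2 * Real.sqrt q ^ g := mul_lt_mul_of_pos_right ha (by positivity)
  have hsq : ((-1 : ℝ) ^ j) * ((-1) ^ j) = 1 := by
    rw [← mul_pow]
    norm_num
  have habs : |(-1 : ℝ) ^ j| = 1 := by
    rw [abs_pow, abs_neg, abs_one, one_pow]
  have h5 : |(-1 : ℝ) ^ j * (R + (a g : ℝ))| < 2 * Real.sqrt q ^ g := by
    rw [abs_mul, habs, one_mul]
    exact hbound
  have h6 := (abs_lt.1 h5).1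
  calc (0 : ℝ) < 2 * Real.sqrt q ^ g + (-1) ^ j * (R + (a g : ℝ)) := by linarith
    _ = 2 * Real.sqrt q ^ g * ((-1) ^ j * (-1) ^ j) + (-1) ^ j * (R + (a g : ℝ)) := by
        rw [hsq, mul_one]
    _ = _ := by ring

/-- The Weil property. -/
theorem comb_mem {q g : ℕ} (hq : 0 < q) (hg : 0 < g) {a : ℕ → ℤ} (ha : SmallCoeffs q g a) :
    weil q (comb (bas q) g (fun k : Fin g => a (g - k))) ∈ weilPolys q g := by
  have hm := comb_monic (g := g) (bas_monic q) (fun k : Fin g => a (g - k))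
  exact mem_weilPolys hq hm.1 hm.2 (real_roots_of_sign hq hg hm.1 hm.2
    fun j _ => sign_comb hq hg ha j)

theorem aeval_dick {q : ℕ} {x θ : ℂ} (hx : x ≠ 0) (hθ : θ = x + q / x) (n : ℕ) :
    aeval θ (dick q n) = x ^ n + (q / x) ^ n ∧
    aeval θ (dick q (n + 1)) = x ^ (n + 1) + (q / x) ^ (n + 1) := by
  induction n with
  | zero =>
    constructor
    · have h1 : dick q 0 = C 2 := rfl
      rw [h1, aeval_C]
      norm_num
    · have h1 : dick q (0 + 1) = X := rfl
      rw [h1, aeval_X, hθ]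
      ring
  | succ n ih =>
    obtain ⟨h1, h2⟩ := ih
    refine ⟨h2, ?_⟩
    have h7 : dick q (n + 1 + 1) = X * dick q (n + 1) - C (q : ℤ) * dick q n := rfl
    rw [h7, map_sub, map_mul, map_mul, aeval_X, aeval_C, h1, h2, eq_intCast (algebraMap ℤ ℂ),
      Int.cast_natCast, hθ]
    have h8 : (q : ℂ) = x * (q / x) := by field_simp
    generalize (q : ℂ) / x = y at *
    rw [h8]
    ring

/-- The polynomial
`T ^ 2g + a₁ T ^ (2g - 1) + … + a_g T ^ g + q a_{g - 1} T ^ (g - 1) + … + q ^ g`. -/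
noncomputable def recip (q g : ℕ) (a : ℕ → ℤ) : ℤ[X] :=
  X ^ (2 * g) + ∑ j ∈ Finset.Ico 1 g, C (a j) * (X ^ (2 * g - j) + C ((q : ℤ) ^ (g - j)) * X ^ j) +
    C (a g) * X ^ g + C ((q : ℤ) ^ g)

theorem weil_comb {q g : ℕ} (hg : 0 < g) (a : ℕ → ℤ) :
    weil q (comb (bas q) g (fun k : Fin g => a (g - k))) = recip q g a := by
  have hm := comb_monic (g := g) (bas_monic q) (fun k : Fin g => a (g - k))
  apply Polynomial.map_injective (algebraMap ℤ ℂ) (algebraMap ℤ ℂ).injective_int
  apply Polynomial.eq_of_infinite_eval_eq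
  refine Set.Infinite.mono (s := {x : ℂ | x ≠ 0}) ?_ ?_
  · intro x hx
    have hx0 : x ≠ 0 := hx
    rw [Set.mem_ofPred_eq]
    have h1 : (map (algebraMap ℤ ℂ) (weil q (comb (bas q) g (fun k : Fin g => a (g - k))))).eval x =
        aeval x (weil q (comb (bas q) g (fun k : Fin g => a (g - k)))) := by
      rw [eval_map]
      rfl
    have h2 : (map (algebraMap ℤ ℂ) (recip q g a)).eval x = aeval x (recip q g a) := by
      rw [eval_map]
      rfl
    rw [h1, h2, aeval_weil q _ x (x + q / x) (by field_simp), hm.2, sum_comb q g hg]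
    have h3 : ∀ n, aeval (x + (q : ℂ) / x) (dick q n) = x ^ n + (q / x) ^ n := fun n =>
      (aeval_dick hx0 rfl n).1
    rw [h3]
    unfold recip
    simp only [map_add, map_sum, map_mul, map_pow, aeval_X, aeval_C, eq_intCast (algebraMap ℤ ℂ),
      Int.cast_natCast]
    rw [mul_add, mul_add, Finset.mul_sum]
    have h4 : ∀ j ≤ g, x ^ g * (x ^ (g - j) + (q / x) ^ (g - j)) =
        x ^ (2 * g - j) + (q : ℂ) ^ (g - j) * x ^ j := by
      intro j hj
      rw [mul_add, ← pow_add, div_pow]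
      have h5 : g + (g - j) = 2 * g - j := by omega
      have h6 : x ^ g = x ^ (g - j) * x ^ j := by
        rw [← pow_add, Nat.sub_add_cancel hj]
      rw [h5, h6]
      congr 1
      field_simp
    have h5 : x ^ g * (x ^ g + (q / x) ^ g) = x ^ (2 * g) + (q : ℂ) ^ g := by
      have := h4 0 (Nat.zero_le _)
      rwa [Nat.sub_zero, pow_zero, mul_one, Nat.sub_zero] at this
    rw [h5]
    have h6 : ∑ j ∈ Finset.Ico 1 g, x ^ g * ((a j : ℂ) * aeval (x + (q : ℂ) / x) (dick q (g - j))) =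
        ∑ j ∈ Finset.Ico 1 g, (a j : ℂ) * (x ^ (2 * g - j) + (q : ℂ) ^ (g - j) * x ^ j) := by
      refine Finset.sum_congr rfl fun j hj => ?_
      have hj' := Finset.mem_Ico.1 hj
      rw [h3, ← h4 j hj'.2.le]
      ring
    rw [h6]
    ring
  · have : {x : ℂ | x ≠ 0} = {0}ᶜ := rfl
    rw [this]
    exact (Set.finite_singleton (0 : ℂ)).infinite_compl

end Pool.Agent.J4H9.Dick
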