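import Mathlib
import Pool.Agent.J4H9.Cover

/-!
# The number of real Weil polynomials, and the reducible members of a chain
-/

set_option autoImplicit false

namespace Pool.Agent.J4H9.Size

open Polynomial Pool.Agent.W521.Frob Pool.Agent.W521.Descent Pool.Agent.W521.Lower
  Pool.Agent.W521.Count Pool.Agent.J4H9.Ch Pool.Agent.J4H9.Cover

/-- The product of the powers of the square root. -/
noncomputable def tri (q g : ℕ) : ℝ := ∏ j ∈ Finset.range g, Real.sqrt q ^ (g - j)

theorem tri_pos {q : ℕ} (hq : 0 < q) (g : ℕ) : 0 < tri q g := by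
  unfold tri
  have : 0 < Real.sqrt q := Real.sqrt_pos.2 (by exact_mod_cast hq)
  exact Finset.prod_pos fun j _ => by positivity

theorem prod_sub (g : ℕ) : ∏ j ∈ Finset.range g, ((g - j : ℕ) : ℝ) = (g.factorial : ℝ) := by
  rw [← Finset.prod_range_add_one_eq_factorial, ← Finset.prod_range_reflect]
  push_cast
  refine Finset.prod_congr rfl fun j hj => ?_
  have h1 := Finset.mem_range.1 hj
  have h2 : g - (g - 1 - j) = j + 1 := by omega
  rw [h2]
  push_cast
  ring

theorem pow_le_factorial (g : ℕ) : (g : ℝ) ^ g ≤ 3 ^ g * (g.factorial : ℝ) := by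
  have h1 := Real.pow_div_factorial_le_exp (g : ℝ) (Nat.cast_nonneg g) g
  have h2 : Real.exp (g : ℝ) ≤ 3 ^ g := by
    have h3 : Real.exp (g : ℝ) = Real.exp 1 ^ g := by
      rw [← Real.exp_nat_mul, mul_one]
    rw [h3]
    refine pow_le_pow_left₀ (Real.exp_pos _).le ?_ g
    have := Real.exp_one_lt_d9
    linarith
  have h3 : (0 : ℝ) < (g.factorial : ℝ) := by exact_mod_cast g.factorial_pos
  rw [div_le_iff₀ h3] at h1
  exact h1.trans (mul_le_mul_of_nonneg_right h2 h3.le)

/-- **The size of the covering chain.** -/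
theorem card_cover_le {q g : ℕ} (hq : 0 < q) {𝒯 : ℕ → Finset ℤ[X]} (hc : Chain (len q g) g 𝒯)
    (htop : 𝒯 g = {1}) : ((𝒯 0).card : ℝ) ≤ 15 ^ g * tri q g := by
  have h1 := hc.card g le_rfl
  rw [htop, Finset.card_singleton, mul_one] at h1
  have h2 : ((𝒯 0).card : ℝ) = ∏ j ∈ Finset.range g, (len q g j : ℝ) := by
    rw [h1]
    push_cast
    rfl
  rw [h2]
  have h3 : ∏ j ∈ Finset.range g, (len q g j : ℝ) ≤
      ∏ j ∈ Finset.range g, (5 * (g : ℝ) * Real.sqrt q ^ (g - j) / (g - j : ℕ)) :=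
    Finset.prod_le_prod (fun j _ => Nat.cast_nonneg _) fun j hj =>
      len_le hq (Finset.mem_range.1 hj)
  refine h3.trans ?_
  rw [Finset.prod_div_distrib, Finset.prod_mul_distrib, Finset.prod_const, Finset.card_range,
    prod_sub]
  change (5 * (g : ℝ)) ^ g * tri q g / _ ≤ _
  have h4 : (0 : ℝ) < (g.factorial : ℝ) := by exact_mod_cast g.factorial_pos
  rw [div_le_iff₀ h4, mul_pow]
  have h5 := pow_le_factorial g
  have h6 := (tri_pos hq g).le
  calc 5 ^ g * (g : ℝ) ^ g * tri q g ≤ 5 ^ g * (3 ^ g * (g.factorial : ℝ)) * tri q g := by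
        refine mul_le_mul_of_nonneg_right (mul_le_mul_of_nonneg_left h5 (by positivity)) h6
    _ = (5 * 3) ^ g * tri q g * (g.factorial : ℝ) := by
        rw [mul_pow]
        ring
    _ = _ := by norm_num

/-- The number of real Weil polynomials. -/
theorem card_realWeil_le {q : ℕ} (hq : 0 < q) (g : ℕ) :
    ((realWeil q g).ncard : ℝ) ≤ 15 ^ g * tri q g := by
  obtain ⟨𝒯, h1, h2, h3⟩ := cover_real hq g
  refine le_trans ?_ (card_cover_le hq h1 h3)
  rw [← Set.ncard_coe_finset (𝒯 0)]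
  exact_mod_cast Set.ncard_le_ncard h2 (Finset.finite_toSet _)

theorem mem_realWeil_of_dvd {q g : ℕ} (hq : q ≠ 0) {h u : ℤ[X]} (hh : h ∈ realWeil q g)
    (hu : u.Monic) (hdvd : u ∣ h) : u ∈ realWeil q u.natDegree := by
  refine ⟨hu, rfl, weil_monic q hu, weil_natDegree q hu, weil_coeff_zero q hu, ?_⟩
  intro z hz
  obtain ⟨h1, h2⟩ := (root_iff hq hu z).1 hz
  refine hh.2.2.2.2.2 z ((root_iff hq hh.1 z).2 ⟨h1, ?_⟩)
  obtain ⟨v, rfl⟩ := hdvd
  rw [map_mul, h2, zero_mul]

/-- The member of `𝒯 0` with given higher coefficients that is divisible by `u`. -/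
theorem eq_of_divX {k : ℕ} {u h h' : ℤ[X]} (hu : u.Monic) (hud : u.natDegree = k) (h1 : u ∣ h)
    (h2 : u ∣ h') (heq : divX^[k] h = divX^[k] h') : h = h' := by
  by_contra hne
  have h3 : h - h' ≠ 0 := sub_ne_zero.2 hne
  have h4 : (h - h').natDegree < k ∨ k = 0 ∧ h - h' = 0 := by
    rcases Nat.eq_zero_or_pos k with h5 | h5
    · right
      subst h5
      simp only [Function.iterate_zero, id] at heq
      exact ⟨rfl, sub_eq_zero.2 heq⟩
    · left
      have h6 : (h - h').natDegree ≤ k - 1 := by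
        rw [natDegree_le_iff_coeff_eq_zero]
        intro N hN
        have h7 := congrArg (fun p => p.coeff (N - k)) heq
        simp only [iterate_divX_coeff] at h7
        rw [Nat.sub_add_cancel (by omega)] at h7
        rw [coeff_sub, h7, sub_self]
      omega
  rcases h4 with h4 | h4
  · exact hu.not_dvd_of_natDegree_lt h3 (by rw [hud]; exact h4) (dvd_sub h1 h2)
  · exact h3 h4.2

open Classical in
theorem card_dvd {M : ℕ → ℕ} {n : ℕ} {𝒯 : ℕ → Finset ℤ[X]} (hc : Chain M n 𝒯) {q k : ℕ}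
    (hq : q ≠ 0) (hk : k ≤ n) :
    ((𝒯 0).filter (fun h => ∃ u ∈ realWeil q k, u ∣ h)).card ≤
      (realWeil q k).ncard * (𝒯 k).card := by
  have hfin := finite_realWeil (g := k) hq
  have hex : ∀ h : ℤ[X], ∃ u : ℤ[X], (∃ u ∈ realWeil q k, u ∣ h) → u ∈ realWeil q k ∧ u ∣ h := by
    intro h
    by_cases h1 : ∃ u ∈ realWeil q k, u ∣ h
    · obtain ⟨u, h2, h3⟩ := h1
      exact ⟨u, fun _ => ⟨h2, h3⟩⟩
    · exact ⟨0, fun h2 => absurd h2 h1⟩
  choose u hu using hex
  rw [Set.ncard_eq_toFinset_card _ hfin, ← Finset.card_product]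
  refine Finset.card_le_card_of_injOn (fun h => (u h, divX^[k] h)) ?_ ?_
  · intro h hh
    obtain ⟨h1, h2⟩ := Finset.mem_filter.1 hh
    refine Finset.mem_coe.2 (Finset.mem_product.2 ⟨?_, ?_⟩)
    · exact (Set.Finite.mem_toFinset hfin).2 (hu h h2).1
    · have := hc.iterate k 0 (by omega) h h1
      simpa using this
  · intro h hh h' hh' heq
    obtain ⟨h1, h2⟩ := Finset.mem_filter.1 (Finset.mem_coe.1 hh)
    obtain ⟨h3, h4⟩ := Finset.mem_filter.1 (Finset.mem_coe.1 hh')
    obtain ⟨h5, h6⟩ := Prod.mk.inj heq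
    have h7 := hu h h2
    refine eq_of_divX h7.1.1 h7.1.2.1 h7.2 ?_ h6
    rw [h5]
    exact (hu h' h4).2

theorem exists_factor {q g : ℕ} (hq : q ≠ 0) {h : ℤ[X]} (hh : h ∈ realWeil q g)
    (hg : 0 < g) (hred : ¬ Irreducible (h.map (Int.castRingHom ℚ))) :
    ∃ k ∈ Finset.Icc 1 (g / 2), ∃ u ∈ realWeil q k, u ∣ h := by
  have h1 : ¬ Irreducible h := by
    intro h2
    apply hred
    have h3 := (Polynomial.Monic.irreducible_iff_irreducible_map_fraction_map (K := ℚ) hh.1).1 h2
    exact h3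
  have h2 : h ≠ 1 := by
    rintro rfl
    have := hh.2.1
    rw [natDegree_one] at this
    omega
  rw [hh.1.irreducible_iff_natDegree'] at h1
  push Not at h1
  obtain ⟨f, v, hf, hv, hfv, h3⟩ := h1 h2
  rw [Finset.mem_Ioc, hh.2.1] at h3
  have h4 : v ∣ h := ⟨f, by rw [← hfv, mul_comm]⟩
  exact ⟨v.natDegree, Finset.mem_Icc.2 ⟨h3.1, h3.2⟩, v, mem_realWeil_of_dvd hq hh hv h4, h4⟩

open Classical in
/-- **The reducible members.** -/
theorem red_bound {M : ℕ → ℕ} {n : ℕ} {𝒯 : ℕ → Finset ℤ[X]} (hc : Chain M n 𝒯) {q g : ℕ}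
    (hq : 0 < q) (hg : 0 < g) (hgn : g / 2 ≤ n) {D : ℝ} (hD : 0 ≤ D)
    (hM : ∀ j < n, Real.sqrt q ^ (g - j) ≤ D * M j) :
    (((𝒯 0).filter (fun h => h ∈ realWeil q g ∧
      ¬ Irreducible (h.map (Int.castRingHom ℚ)))).card : ℝ) ≤
      g * (15 * D * (q : ℝ) ^ (-(g : ℝ) / 4)) * ((𝒯 0).card : ℝ) := by
  have hqR : (0 : ℝ) < q := by exact_mod_cast hq
  have hq1 : (1 : ℝ) ≤ q := by exact_mod_cast hq
  have hs0 : 0 < Real.sqrt q := Real.sqrt_pos.2 hqR
  have hs1 : 1 ≤ Real.sqrt q := by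
    rw [Real.one_le_sqrt]
    exact hq1
  set y : ℝ := 15 * D * (q : ℝ) ^ (-(g : ℝ) / 4) with hy
  have hy0 : 0 ≤ y := by positivity
  have hT0 : (0 : ℝ) ≤ ((𝒯 0).card : ℝ) := Nat.cast_nonneg _
  have hgR : (1 : ℝ) ≤ g := by exact_mod_cast hg
  by_cases hy1 : 1 < y
  · have h1 : (((𝒯 0).filter (fun h => h ∈ realWeil q g ∧
      ¬ Irreducible (h.map (Int.castRingHom ℚ)))).card : ℝ) ≤ ((𝒯 0).card : ℝ) := by
      exact_mod_cast Finset.card_filter_le _ _
    refine h1.trans ?_
    nlinarith [mul_nonneg (sub_nonneg.2 hgR) hy0]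
  · push Not at hy1
    have key : ∀ k ∈ Finset.Icc 1 (g / 2), (((realWeil q k).ncard * (𝒯 k).card : ℕ) : ℝ) ≤
        y * ((𝒯 0).card : ℝ) := by
      intro k hk
      obtain ⟨hk1, hk2⟩ := Finset.mem_Icc.1 hk
      have hkn : k ≤ n := hk2.trans hgn
      have h1 := card_realWeil_le hq k
      have h2 : ((𝒯 0).card : ℝ) = (∏ j ∈ Finset.range k, (M j : ℝ)) * ((𝒯 k).card : ℝ) := by
        rw [hc.card k hkn]
        push_cast
        rfl
      have h3 : ∏ j ∈ Finset.range k, Real.sqrt q ^ (g - j) ≤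
          D ^ k * ∏ j ∈ Finset.range k, (M j : ℝ) := by
        calc ∏ j ∈ Finset.range k, Real.sqrt q ^ (g - j) ≤ ∏ j ∈ Finset.range k, (D * (M j : ℝ)) :=
              Finset.prod_le_prod (fun j _ => by positivity) fun j hj =>
                hM j (by have := Finset.mem_range.1 hj; omega)
          _ = _ := by rw [Finset.prod_mul_distrib, Finset.prod_const, Finset.card_range]
      have h4 : ∏ j ∈ Finset.range k, Real.sqrt q ^ (g - j) =
          tri q k * Real.sqrt q ^ ((g - k) * k) := by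
        unfold tri
        rw [pow_mul, ← Finset.card_range k, ← Finset.prod_const, Finset.card_range,
          ← Finset.prod_mul_distrib]
        refine Finset.prod_congr rfl fun j hj => ?_
        rw [← pow_add]
        congr 1
        have := Finset.mem_range.1 hj
        omega
      have h5 : (q : ℝ) ^ ((g : ℝ) / 4) ≤ Real.sqrt q ^ (g - k) := by
        rw [Real.sqrt_eq_rpow, ← Real.rpow_natCast, ← Real.rpow_mul hqR.le]
        refine Real.rpow_le_rpow_of_exponent_le hq1 ?_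
        have h6 : ((g - k : ℕ) : ℝ) = g - k := by
          rw [Nat.cast_sub (by omega)]
        rw [h6]
        have h7 : (k : ℝ) ≤ g / 2 := by
          have h8 : 2 * k ≤ g := by omega
          have h9 : (2 : ℝ) * k ≤ g := by exact_mod_cast h8
          linarith
        linarith
      have h6 : (15 * D) ≤ y * Real.sqrt q ^ (g - k) := by
        calc 15 * D = y * (q : ℝ) ^ ((g : ℝ) / 4) := by
              rw [hy, mul_assoc, ← Real.rpow_add hqR]
              have : -(g : ℝ) / 4 + (g : ℝ) / 4 = 0 := by ring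
              rw [this, Real.rpow_zero, mul_one]
          _ ≤ _ := mul_le_mul_of_nonneg_left h5 hy0
      have h7 : (15 * D) ^ k ≤ y * Real.sqrt q ^ ((g - k) * k) := by
        calc (15 * D) ^ k ≤ (y * Real.sqrt q ^ (g - k)) ^ k :=
              pow_le_pow_left₀ (by positivity) h6 k
          _ = y ^ k * Real.sqrt q ^ ((g - k) * k) := by rw [mul_pow, pow_mul]
          _ ≤ y * Real.sqrt q ^ ((g - k) * k) := by
              refine mul_le_mul_of_nonneg_right ?_ (by positivity)
              calc y ^ k ≤ y ^ 1 := pow_le_pow_of_le_one hy0 hy1 hk1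
                _ = y := pow_one y
      have hP0 : 0 ≤ ∏ j ∈ Finset.range k, (M j : ℝ) :=
        Finset.prod_nonneg fun j _ => Nat.cast_nonneg _
      have hX : 0 < Real.sqrt q ^ ((g - k) * k) := by positivity
      have hTk : (0 : ℝ) ≤ ((𝒯 k).card : ℝ) := Nat.cast_nonneg _
      push_cast
      rw [h2]
      have h8 : 15 ^ k * tri q k ≤ y * ∏ j ∈ Finset.range k, (M j : ℝ) := by
        have h9 : (15 ^ k * tri q k) * Real.sqrt q ^ ((g - k) * k) ≤
            (y * ∏ j ∈ Finset.range k, (M j : ℝ)) * Real.sqrt q ^ ((g - k) * k) := by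
          calc (15 ^ k * tri q k) * Real.sqrt q ^ ((g - k) * k) =
              15 ^ k * (∏ j ∈ Finset.range k, Real.sqrt q ^ (g - j)) := by
                rw [h4]
                ring
            _ ≤ 15 ^ k * (D ^ k * ∏ j ∈ Finset.range k, (M j : ℝ)) :=
                mul_le_mul_of_nonneg_left h3 (by positivity)
            _ = (15 * D) ^ k * ∏ j ∈ Finset.range k, (M j : ℝ) := by
                rw [mul_pow]
                ring
            _ ≤ (y * Real.sqrt q ^ ((g - k) * k)) * ∏ j ∈ Finset.range k, (M j : ℝ) :=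
                mul_le_mul_of_nonneg_right h7 hP0
            _ = _ := by ring
        exact le_of_mul_le_mul_right h9 hX
      calc ((realWeil q k).ncard : ℝ) * ((𝒯 k).card : ℝ) ≤
          (15 ^ k * tri q k) * ((𝒯 k).card : ℝ) := mul_le_mul_of_nonneg_right h1 hTk
        _ ≤ (y * ∏ j ∈ Finset.range k, (M j : ℝ)) * ((𝒯 k).card : ℝ) :=
            mul_le_mul_of_nonneg_right h8 hTk
        _ = _ := by ring
    have hsub : (𝒯 0).filter (fun h => h ∈ realWeil q g ∧
        ¬ Irreducible (h.map (Int.castRingHom ℚ))) ⊆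
        (Finset.Icc 1 (g / 2)).biUnion fun k =>
          (𝒯 0).filter (fun h => ∃ u ∈ realWeil q k, u ∣ h) := by
      intro h hh
      obtain ⟨h1, h2, h3⟩ := Finset.mem_filter.1 hh
      obtain ⟨k, hk, h4⟩ := exists_factor hq.ne' h2 hg h3
      exact Finset.mem_biUnion.2 ⟨k, hk, Finset.mem_filter.2 ⟨h1, h4⟩⟩
    have h1 : ((𝒯 0).filter (fun h => h ∈ realWeil q g ∧
        ¬ Irreducible (h.map (Int.castRingHom ℚ)))).card ≤
        ∑ k ∈ Finset.Icc 1 (g / 2), (realWeil q k).ncard * (𝒯 k).card := by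
      refine (Finset.card_le_card hsub).trans (Finset.card_biUnion_le.trans ?_)
      refine Finset.sum_le_sum fun k hk => ?_
      have hk2 := (Finset.mem_Icc.1 hk).2
      exact card_dvd hc hq.ne' (hk2.trans hgn)
    calc (((𝒯 0).filter (fun h => h ∈ realWeil q g ∧
        ¬ Irreducible (h.map (Int.castRingHom ℚ)))).card : ℝ) ≤
        ((∑ k ∈ Finset.Icc 1 (g / 2), (realWeil q k).ncard * (𝒯 k).card : ℕ) : ℝ) := by
          exact_mod_cast h1
      _ = ∑ k ∈ Finset.Icc 1 (g / 2), (((realWeil q k).ncard * (𝒯 k).card : ℕ) : ℝ) := by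
          push_cast
          rfl
      _ ≤ ∑ k ∈ Finset.Icc 1 (g / 2), y * ((𝒯 0).card : ℝ) := Finset.sum_le_sum key
      _ = ((g / 2 : ℕ) : ℝ) * (y * ((𝒯 0).card : ℝ)) := by
          rw [Finset.sum_const, Nat.card_Icc, nsmul_eq_mul, Nat.add_sub_cancel]
      _ ≤ (g : ℝ) * (y * ((𝒯 0).card : ℝ)) := by
          refine mul_le_mul_of_nonneg_right ?_ (by positivity)
          exact_mod_cast Nat.div_le_self g 2
      _ = _ := by ring

end Pool.Agent.J4H9.Size
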