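import Mathlib
import Pool.Agent.J4H9.Dick
import Pool.Agent.J4H9.Size

/-!
# The number of ordinary Weil polynomials
-/

set_option autoImplicit false

namespace Pool.Agent.J4H9.Low

open Polynomial Pool.Agent.W521.Frob Pool.Agent.W521.Descent Pool.Agent.W521.Lower
  Pool.Agent.W521.Count Pool.Agent.J4H9.Ch Pool.Agent.J4H9.Cover Pool.Agent.J4H9.Basis
  Pool.Agent.J4H9.Dick Pool.Agent.J4H9.Size

theorem recip_coeff (q : ℕ) {g : ℕ} (hg : 0 < g) (a : ℕ → ℤ) : (recip q g a).coeff g = a g := by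
  unfold recip
  rw [coeff_add, coeff_add, coeff_add, finsetSum_coeff, Finset.sum_eq_zero, coeff_X_pow,
    if_neg (by omega), coeff_C_mul, coeff_X_pow, if_pos rfl, coeff_C, if_neg (by omega)]
  · ring
  · intro j hj
    have hj' := Finset.mem_Ico.1 hj
    rw [coeff_C_mul, coeff_add, coeff_X_pow, if_neg (by omega), coeff_C_mul, coeff_X_pow,
      if_neg (by omega)]
    ring

theorem le_sqrt_two_pow {g : ℕ} (hg : 4 ≤ g) : (g : ℝ) ≤ Real.sqrt 2 ^ g := by
  induction g, hg using Nat.le_induction with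
  | base =>
    have h1 : Real.sqrt 2 ^ 4 = 4 := by
      have h2 : Real.sqrt 2 ^ 2 = 2 := Real.sq_sqrt (by norm_num)
      calc Real.sqrt 2 ^ 4 = (Real.sqrt 2 ^ 2) ^ 2 := by ring
        _ = 4 := by rw [h2]; norm_num
    rw [h1]
    norm_num
  | succ n hn ih =>
    have h1 : (1.4 : ℝ) ≤ Real.sqrt 2 := by
      rw [Real.le_sqrt' (by norm_num)]
      norm_num
    have h2 : (4 : ℝ) ≤ n := by exact_mod_cast hn
    rw [pow_succ]
    push_cast
    nlinarith

theorem small_of_le {q g : ℕ} (hq : 0 < q) (hg : 0 < g) {a : ℕ → ℤ}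
    (ha : ∀ j ∈ Finset.Icc 1 g, |(a j : ℝ)| ≤ Real.sqrt q ^ j / g) : SmallCoeffs q g a := by
  have hs : 0 < Real.sqrt q := Real.sqrt_pos.2 (by exact_mod_cast hq)
  have hg' : (0 : ℝ) < g := by exact_mod_cast hg
  unfold SmallCoeffs
  have h1 : ∑ j ∈ Finset.Ico 1 g, 2 * |(a j : ℝ)| / Real.sqrt q ^ j ≤
      ∑ _j ∈ Finset.Ico 1 g, 2 / (g : ℝ) := by
    refine Finset.sum_le_sum fun j hj => ?_
    have hj' := Finset.mem_Ico.1 hj
    have h2 := ha j (Finset.mem_Icc.2 ⟨hj'.1, hj'.2.le⟩)
    rw [div_le_iff₀ (by positivity)]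
    calc 2 * |(a j : ℝ)| ≤ 2 * (Real.sqrt q ^ j / g) := by linarith
      _ = _ := by ring
  have h2 : |(a g : ℝ)| / Real.sqrt q ^ g ≤ 1 / (g : ℝ) := by
    have h3 := ha g (Finset.mem_Icc.2 ⟨hg, le_rfl⟩)
    rw [div_le_iff₀ (by positivity)]
    calc |(a g : ℝ)| ≤ Real.sqrt q ^ g / g := h3
      _ = _ := by ring
  rw [Finset.sum_const, Nat.card_Ico, nsmul_eq_mul] at h1
  have h3 : ((g - 1 : ℕ) : ℝ) = g - 1 := by
    rw [Nat.cast_sub hg]
    simp
  rw [h3] at h1
  calc ∑ j ∈ Finset.Ico 1 g, 2 * |(a j : ℝ)| / Real.sqrt q ^ j + |(a g : ℝ)| / Real.sqrt q ^ g ≤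
      ((g : ℝ) - 1) * (2 / g) + 1 / g := add_le_add h1 h2
    _ = 2 - 1 / g := by
        field_simp
        ring
    _ < 2 := by
        have : 0 < 1 / (g : ℝ) := by positivity
        linarith

/-- The radius. -/
noncomputable def rad (q g k : ℕ) : ℝ := Real.sqrt q ^ (g - k) / g

theorem rad_nonneg (q g k : ℕ) : 0 ≤ rad q g k := by
  unfold rad
  positivity

/-- **The lower bound.** -/
theorem ordinary_lower {q : ℕ} (hq : IsPrimePow q) {g : ℕ} (hg4 : 4 ≤ g) :
    tri q g ≤ 4 * (g : ℝ) ^ g * ((ordinaryWeilPolys q g).ncard : ℝ) := by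
  classical
  have hg : 0 < g := by omega
  have hq0 : 0 < q := hq.pos
  have hqR : (2 : ℝ) ≤ q := by exact_mod_cast hq.two_le
  have hg' : (0 : ℝ) < g := by exact_mod_cast hg
  obtain ⟨p, hp, hpq, hcop⟩ := isPrimePow_coprime hq
  set z0 : Fin g := ⟨0, hg⟩ with hz0
  -- the sets of coordinates
  let E : Fin g → Finset ℤ := fun k =>
    if k = z0 then ((Finset.Icc 1 ⌊rad q g 0⌋₊).filter (fun e => ¬ p ∣ e)).map Nat.castEmbedding
    else (Finset.range (⌊rad q g k⌋₊ + 1)).map Nat.castEmbedding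
  let F : (Fin g → ℤ) → ℤ[X] := fun e => weil q (comb (bas q) g e)
  have hE : ∀ k, ∀ e ∈ E k, |(e : ℝ)| ≤ rad q g k := by
    intro k e he
    by_cases hk : k = z0
    · simp only [E, if_pos hk, Finset.mem_map, Finset.mem_filter, Finset.mem_Icc] at he
      obtain ⟨n, ⟨⟨h1, h2⟩, h3⟩, rfl⟩ := he
      have h4 : (n : ℝ) ≤ rad q g 0 := (Nat.le_floor_iff (rad_nonneg q g 0)).1 h2
      rw [hk]
      simpa [hz0] using h4
    · simp only [E, if_neg hk, Finset.mem_map, Finset.mem_range] at he
      obtain ⟨n, h2, rfl⟩ := he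
      have h4 : (n : ℝ) ≤ rad q g k := (Nat.le_floor_iff (rad_nonneg q g k)).1 (by omega)
      simpa using h4
  have hinj : Function.Injective F := by
    intro e e' hee
    have h1 := weil_injective hq0.ne' (comb_monic (bas_monic q) e).2 (comb_monic (bas_monic q) e').2
      hee
    exact comb_injective (bas_monic q) h1
  have hmem : ∀ e ∈ Fintype.piFinset E, F e ∈ ordinaryWeilPolys q g := by
    intro e he
    rw [Fintype.mem_piFinset] at he
    obtain ⟨a, ha⟩ : ∃ a : ℕ → ℤ, ∀ k : Fin g, a (g - k) = e k := by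
      refine ⟨fun j => if h : g - j < g then e ⟨g - j, h⟩ else 0, fun k => ?_⟩
      have h1 : g - (g - (k : ℕ)) = k := by omega
      have h2 : g - (g - (k : ℕ)) < g := by omega
      simp only [dif_pos h2]
      congr 1
      exact Fin.ext h1
    have he' : e = fun k : Fin g => a (g - k) := funext fun k => (ha k).symm
    have hsmall : SmallCoeffs q g a := by
      refine small_of_le hq0 hg fun j hj => ?_
      have hj' := Finset.mem_Icc.1 hj
      have h1 := ha ⟨g - j, by omega⟩
      have h2 : g - (g - j) = j := by omega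
      simp only [h2] at h1
      have h3 := hE _ _ (he ⟨g - j, by omega⟩)
      rw [← h1] at h3
      unfold rad at h3
      simp only [h2] at h3
      exact h3
    constructor
    · change weil q (comb (bas q) g e) ∈ _
      rw [he']
      exact comb_mem hq0 hg hsmall
    · change IsCoprime ((weil q (comb (bas q) g e)).coeff g) _
      rw [he', weil_comb hg, recip_coeff q hg]
      have h1 := ha z0
      have h2 : g - (z0 : ℕ) = g := by
        change g - 0 = g
        omega
      rw [h2] at h1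
      rw [h1]
      have h7 := he z0
      simp only [E, if_true, Finset.mem_map, Finset.mem_filter] at h7
      obtain ⟨n, ⟨_, h8⟩, h9⟩ := h7
      rw [← h9]
      refine hcop _ ?_
      intro h10
      rw [Nat.castEmbedding_apply] at h10
      exact h8 (by exact_mod_cast h10)
  have hcard : (Fintype.piFinset E).card ≤ (ordinaryWeilPolys q g).ncard := by
    rw [← Set.ncard_coe_finset, ← Set.ncard_image_of_injective _ hinj]
    refine Set.ncard_le_ncard ?_ (finite_ordinary hq0.ne')
    rintro _ ⟨e, he, rfl⟩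
    exact hmem e (by simpa using he)
  have hEcard : ∀ k : Fin g, rad q g k ≤ (if k = z0 then 4 else 1) * ((E k).card : ℝ) := by
    intro k
    by_cases hk : k = z0
    · rw [if_pos hk]
      simp only [E, if_pos hk, Finset.card_map]
      have h1 := card_prime_to p ⌊rad q g 0⌋₊ hp
      have h2 : (1 : ℝ) ≤ rad q g 0 := by
        unfold rad
        rw [le_div_iff₀ hg', one_mul, Nat.sub_zero]
        refine (le_sqrt_two_pow hg4).trans ?_
        exact pow_le_pow_left₀ (Real.sqrt_nonneg _) (Real.sqrt_le_sqrt hqR) g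
      have h3 := Nat.lt_floor_add_one (rad q g 0)
      have h4 : (1 : ℝ) ≤ (⌊rad q g 0⌋₊ : ℝ) := by
        have h5 : 1 ≤ ⌊rad q g 0⌋₊ := (Nat.le_floor_iff (rad_nonneg q g 0)).2 (by simpa using h2)
        exact_mod_cast h5
      have h5 : (⌊rad q g 0⌋₊ : ℝ) ≤
          2 * (((Finset.Icc 1 ⌊rad q g 0⌋₊).filter (fun e => ¬ p ∣ e)).card : ℝ) := by
        exact_mod_cast h1
      rw [hk]
      change rad q g 0 ≤ _
      linarith
    · rw [if_neg hk, one_mul]
      simp only [E, if_neg hk, Finset.card_map, Finset.card_range]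
      have h3 := Nat.lt_floor_add_one (rad q g k)
      push_cast
      linarith
  have hprod : ∏ k : Fin g, rad q g k ≤ 4 * ((ordinaryWeilPolys q g).ncard : ℝ) := by
    calc ∏ k : Fin g, rad q g k ≤ ∏ k : Fin g, ((if k = z0 then 4 else 1) * ((E k).card : ℝ)) :=
          Finset.prod_le_prod (fun k _ => rad_nonneg q g k) fun k _ => hEcard k
      _ = 4 * ((Fintype.piFinset E).card : ℝ) := by
          rw [Finset.prod_mul_distrib, Fintype.card_piFinset, Finset.prod_ite_eq']
          simp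
      _ ≤ 4 * ((ordinaryWeilPolys q g).ncard : ℝ) := by
          have : ((Fintype.piFinset E).card : ℝ) ≤ ((ordinaryWeilPolys q g).ncard : ℝ) := by
            exact_mod_cast hcard
          linarith
  have hprod2 : ∏ k : Fin g, rad q g k = tri q g / (g : ℝ) ^ g := by
    have h1 : ∏ k : Fin g, rad q g k = ∏ k ∈ Finset.range g, rad q g k :=
      Fin.prod_univ_eq_prod_range (fun k => rad q g k) g
    rw [h1]
    unfold rad tri
    rw [Finset.prod_div_distrib, Finset.prod_const, Finset.card_range]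
  rw [hprod2, div_le_iff₀ (by positivity)] at hprod
  linarith

end Pool.Agent.J4H9.Low
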