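import Mathlib

/-!
# The volume of a simplex
-/

set_option autoImplicit false

namespace Pool.Agent.J4H9.SimplexVol

open MeasureTheory Set

/-- The open simplex. -/
def spx (n : ℕ) (R : ℝ) : Set (Fin n → ℝ) := {x | (∀ i, 0 < x i) ∧ ∑ i, x i < R}

theorem spx_open (n : ℕ) (R : ℝ) : IsOpen (spx n R) := by
  have h1 : spx n R = (⋂ i, {x : Fin n → ℝ | 0 < x i}) ∩ {x | ∑ i, x i < R} := by
    ext x
    simp [spx]
  rw [h1]
  refine IsOpen.inter (isOpen_iInter_of_finite fun i => isOpen_lt continuous_const
    (continuous_apply i)) ?_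
  exact isOpen_lt (continuous_finsetSum _ fun i _ => continuous_apply i) continuous_const

theorem vol_spx (n : ℕ) {R : ℝ} (hR : 0 < R) :
    volume (spx n R) = ENNReal.ofReal (R ^ n / n.factorial) := by
  induction n generalizing R with
  | zero =>
    have h1 : spx 0 R = univ := by
      ext x
      simp [spx, hR]
    rw [h1, volume_pi, Measure.pi_univ]
    simp
  | succ n ih =>
    have hmp := volume_preserving_piFinSuccAbove (fun _ : Fin (n + 1) => ℝ) 0
    have hset : spx (n + 1) R = (MeasurableEquiv.piFinSuccAbove (fun _ : Fin (n + 1) => ℝ) 0) ⁻¹'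
        {p : ℝ × (Fin n → ℝ) | 0 < p.1 ∧ (∀ i, 0 < p.2 i) ∧ p.1 + ∑ i, p.2 i < R} := by
      ext x
      simp only [spx, mem_preimage, mem_ofPred_eq, Fin.sum_univ_succ, Fin.forall_fin_succ]
      tauto
    have hmeas : MeasurableSet
        {p : ℝ × (Fin n → ℝ) | 0 < p.1 ∧ (∀ i, 0 < p.2 i) ∧ p.1 + ∑ i, p.2 i < R} := by
      have h1 : {p : ℝ × (Fin n → ℝ) | 0 < p.1 ∧ (∀ i, 0 < p.2 i) ∧ p.1 + ∑ i, p.2 i < R} =
          {p : ℝ × (Fin n → ℝ) | 0 < p.1} ∩ ((⋂ i, {p : ℝ × (Fin n → ℝ) | 0 < p.2 i}) ∩
            {p : ℝ × (Fin n → ℝ) | p.1 + ∑ i, p.2 i < R}) := by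
        ext p
        simp
      rw [h1]
      have h2 : IsOpen ({p : ℝ × (Fin n → ℝ) | 0 < p.1} ∩
          ((⋂ i, {p : ℝ × (Fin n → ℝ) | 0 < p.2 i}) ∩
            {p : ℝ × (Fin n → ℝ) | p.1 + ∑ i, p.2 i < R})) := by
        refine IsOpen.inter (isOpen_lt continuous_const continuous_fst) (IsOpen.inter
          (isOpen_iInter_of_finite fun i => isOpen_lt continuous_const
            ((continuous_apply i).comp continuous_snd)) ?_)
        refine isOpen_lt (continuous_fst.add (continuous_finsetSum _ fun i _ =>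
          (continuous_apply i).comp continuous_snd)) continuous_const
      exact h2.measurableSet
    rw [hset, hmp.measure_preimage hmeas.nullMeasurableSet]
    change (Measure.prod volume volume) _ = _
    rw [Measure.prod_apply hmeas]
    have hslice : ∀ t : ℝ, volume (Prod.mk t ⁻¹'
        {p : ℝ × (Fin n → ℝ) | 0 < p.1 ∧ (∀ i, 0 < p.2 i) ∧ p.1 + ∑ i, p.2 i < R}) =
        (Ioo 0 R).indicator (fun t => ENNReal.ofReal ((R - t) ^ n / n.factorial)) t := by
      intro t
      by_cases ht : t ∈ Ioo 0 R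
      · rw [indicator_of_mem ht, ← ih (show 0 < R - t by linarith [ht.2])]
        congr 1
        ext y
        simp only [spx, mem_preimage, mem_ofPred_eq]
        constructor
        · rintro ⟨-, h2, h3⟩
          exact ⟨h2, by linarith⟩
        · rintro ⟨h2, h3⟩
          exact ⟨ht.1, h2, by linarith⟩
      · rw [indicator_of_notMem ht]
        have h1 : (Prod.mk t ⁻¹'
            {p : ℝ × (Fin n → ℝ) | 0 < p.1 ∧ (∀ i, 0 < p.2 i) ∧ p.1 + ∑ i, p.2 i < R}) = ∅ := by
          rw [eq_empty_iff_forall_notMem]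
          rintro y ⟨h1, h2, h3⟩
          apply ht
          have h4 : 0 ≤ ∑ i, y i := Finset.sum_nonneg fun i _ => (h2 i).le
          exact ⟨h1, by
            simp only at h3
            linarith⟩
        rw [h1, measure_empty]
    simp_rw [hslice]
    rw [lintegral_indicator measurableSet_Ioo]
    have hint : IntegrableOn (fun t : ℝ => (R - t) ^ n / n.factorial) (Ioo 0 R) volume := by
      refine (Continuous.integrableOn_Icc ?_).mono_set Ioo_subset_Icc_self
      fun_prop
    rw [← ofReal_integral_eq_lintegral_ofReal hint]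
    · congr 1
      rw [← integral_Ioc_eq_integral_Ioo, ← intervalIntegral.integral_of_le hR.le]
      rw [intervalIntegral.integral_div, intervalIntegral.integral_comp_sub_left (fun x => x ^ n)]
      rw [integral_pow, Nat.factorial_succ]
      push_cast
      have h1 : (n.factorial : ℝ) ≠ 0 := by exact_mod_cast n.factorial_ne_zero
      have h2 : ((n : ℝ) + 1) ≠ 0 := by positivity
      rw [sub_self, sub_zero, zero_pow (by omega)]
      field_simp
      ring
    · refine (ae_restrict_iff' measurableSet_Ioo).2 (Filter.Eventually.of_forall fun t ht => ?_)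
      have h1 : 0 ≤ R - t := by linarith [ht.2]
      change (0 : ℝ) ≤ (R - t) ^ n / n.factorial
      positivity

end Pool.Agent.J4H9.SimplexVol
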