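import Mathlib

/-!
# Orthogonality of cosines, and the kernel of Fejér
-/

set_option autoImplicit false

namespace Pool.Agent.J4H9.Trig

open Finset Real

/-- The nodes `(2 i + 1) π / (2 n)`. -/
noncomputable def mid (n i : ℕ) : ℝ := (2 * i + 1) * π / (2 * n)

/-- The nodes `i π / g`. -/
noncomputable def nod (g i : ℕ) : ℝ := i * π / g

theorem sin_ne {x : ℝ} (h0 : 0 < x) (h1 : x < π) : Real.sin x ≠ 0 :=
  (Real.sin_pos_of_pos_of_lt_pi h0 h1).ne'

theorem sum_mid {n m : ℕ} (hm : 0 < m) (hmn : m < 2 * n) :
    ∑ i ∈ range n, Real.cos (m * mid n i) = 0 := by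
  have hn : (0 : ℝ) < n := by
    have : 0 < n := by omega
    exact_mod_cast this
  have hmR : (0 : ℝ) < m := by exact_mod_cast hm
  have hmn' : (m : ℝ) < 2 * n := by exact_mod_cast hmn
  have hs : Real.sin (m * π / (2 * n)) ≠ 0 := by
    refine sin_ne (by positivity) ?_
    rw [div_lt_iff₀ (by positivity)]
    nlinarith [Real.pi_pos]
  have key : ∀ N : ℕ, 2 * Real.sin (m * π / (2 * n)) * ∑ i ∈ range N, Real.cos (m * mid n i) =
      Real.sin (m * (2 * N) * π / (2 * n)) := by
    intro N
    induction N with
    | zero => simp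
    | succ N ih =>
      rw [sum_range_succ, mul_add, ih]
      have h1 : Real.sin (m * (2 * (N + 1 : ℕ)) * π / (2 * n)) -
          Real.sin (m * (2 * N) * π / (2 * n)) =
          2 * Real.sin (m * π / (2 * n)) * Real.cos (m * mid n N) := by
        rw [Real.sin_sub_sin]
        congr 2
        · congr 1
          push_cast
          field_simp
          ring
        · unfold mid
          push_cast
          field_simp
          ring
      linarith
  have h1 := key n
  have h2 : (m : ℝ) * (2 * n) * π / (2 * n) = m * π := by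
    field_simp
  rw [h2, Real.sin_nat_mul_pi] at h1
  have h3 : 2 * Real.sin (m * π / (2 * n)) ≠ 0 := mul_ne_zero two_ne_zero hs
  exact (mul_eq_zero.1 h1).resolve_left h3

/-- The weights. -/
noncomputable def wt (g i : ℕ) : ℝ := if i = 0 ∨ i = g then 1 / 2 else 1

theorem sum_wt (g : ℕ) (hg : 0 < g) (F : ℕ → ℝ) : ∑ i ∈ range (g + 1), wt g i * F i =
    1 / 2 * (∑ i ∈ range g, (F i + F (i + 1))) := by
  have h1 : ∑ i ∈ range g, (F i + F (i + 1)) = 2 * (∑ i ∈ range (g + 1), F i) - F 0 - F g := by
    rw [sum_add_distrib]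
    have h2 := sum_range_succ F g
    have h3 := sum_range_succ' F g
    linarith
  rw [h1]
  have h4 : ∀ i ∈ range (g + 1), wt g i * F i = F i - (if i = 0 then 1 / 2 * F 0 else 0) -
      (if i = g then 1 / 2 * F g else 0) := by
    intro i _
    unfold wt
    by_cases h0 : i = 0
    · subst h0
      rw [if_pos (Or.inl rfl), if_pos rfl, if_neg (by omega)]
      ring
    · by_cases hg' : i = g
      · subst hg'
        rw [if_pos (Or.inr rfl), if_neg h0, if_pos rfl]
        ring
      · rw [if_neg (by tauto), if_neg h0, if_neg hg']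
        ring
  rw [sum_congr rfl h4, sum_sub_distrib, sum_sub_distrib, sum_ite_eq', sum_ite_eq',
    if_pos (mem_range.2 (by omega)), if_pos (mem_range.2 (by omega))]
  ring

theorem sum_nod {g m : ℕ} (hm : 0 < m) (hmg : m < 2 * g) :
    ∑ i ∈ range (g + 1), wt g i * Real.cos (m * nod g i) = 0 := by
  have hg0 : 0 < g := by omega
  have hg : (0 : ℝ) < g := by exact_mod_cast hg0
  rw [sum_wt g hg0]
  have h1 : ∀ i ∈ range g, Real.cos (m * nod g i) + Real.cos (m * nod g (i + 1)) =
      2 * Real.cos (m * π / (2 * g)) * Real.cos (m * mid g i) := by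
    intro i _
    rw [Real.cos_add_cos]
    have e1 : ((m : ℝ) * nod g i + m * nod g (i + 1)) / 2 = m * mid g i := by
      unfold nod mid
      push_cast
      field_simp
      ring
    have e2 : ((m : ℝ) * nod g i - m * nod g (i + 1)) / 2 = -(m * π / (2 * g)) := by
      unfold nod
      push_cast
      field_simp
      ring
    rw [e1, e2, Real.cos_neg]
    ring
  rw [sum_congr rfl h1, ← mul_sum, sum_mid hm hmg]
  ring

/-- **Orthogonality.** -/
theorem orth_mid {n k l : ℕ} (hk : k < n) (hl : l < n) :
    ∑ i ∈ range n, Real.cos (k * mid n i) * Real.cos (l * mid n i) =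
      if k = l then (if k = 0 then (n : ℝ) else n / 2) else 0 := by
  have h1 : ∀ i, Real.cos (k * mid n i) * Real.cos (l * mid n i) =
      1 / 2 * (Real.cos (((k + l : ℕ) : ℝ) * mid n i) +
        Real.cos (((max k l - min k l : ℕ) : ℝ) * mid n i)) := by
    intro i
    have e : Real.cos (((max k l - min k l : ℕ) : ℝ) * mid n i) =
        Real.cos (k * mid n i - l * mid n i) := by
      rcases le_total k l with h | h
      · rw [max_eq_right h, min_eq_left h, Nat.cast_sub h, ← Real.cos_neg]
        congr 1
        ring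
      · rw [max_eq_left h, min_eq_right h, Nat.cast_sub h]
        congr 1
        ring
    rw [e, Real.cos_sub]
    push_cast
    rw [add_mul, Real.cos_add]
    ring
  rw [sum_congr rfl fun i _ => h1 i, ← mul_sum, sum_add_distrib]
  split_ifs with h2 h3
  · subst h2
    subst h3
    simp
    ring
  · subst h2
    rw [sum_mid (by omega) (by omega), max_self, min_self, Nat.sub_self]
    simp
    ring
  · rw [sum_mid (by omega) (by omega), sum_mid (by
      rcases le_total k l with h | h
      · rw [max_eq_right h, min_eq_left h]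
        omega
      · rw [max_eq_left h, min_eq_right h]
        omega) (by
      rcases le_total k l with h | h
      · rw [max_eq_right h, min_eq_left h]
        omega
      · rw [max_eq_left h, min_eq_right h]
        omega)]
    ring

theorem orth_nod {g k l : ℕ} (hg : 0 < g) (hk : k ≤ g) (hl : l ≤ g) :
    ∑ i ∈ range (g + 1), wt g i * (Real.cos (k * nod g i) * Real.cos (l * nod g i)) =
      if k = l then (if k = 0 ∨ k = g then (g : ℝ) else g / 2) else 0 := by
  have hg' : (g : ℝ) ≠ 0 := by exact_mod_cast hg.ne'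
  have h1 : ∀ i, wt g i * (Real.cos (k * nod g i) * Real.cos (l * nod g i)) =
      1 / 2 * (wt g i * Real.cos (((k + l : ℕ) : ℝ) * nod g i) +
        wt g i * Real.cos (((max k l - min k l : ℕ) : ℝ) * nod g i)) := by
    intro i
    have e : Real.cos (((max k l - min k l : ℕ) : ℝ) * nod g i) =
        Real.cos (k * nod g i - l * nod g i) := by
      rcases le_total k l with h | h
      · rw [max_eq_right h, min_eq_left h, Nat.cast_sub h, ← Real.cos_neg]
        congr 1
        ring
      · rw [max_eq_left h, min_eq_right h, Nat.cast_sub h]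
        congr 1
        ring
    rw [e, Real.cos_sub]
    push_cast
    rw [add_mul, Real.cos_add]
    ring
  have h0 : ∑ i ∈ range (g + 1), wt g i * Real.cos (((0 : ℕ) : ℝ) * nod g i) = g := by
    simp only [Nat.cast_zero, zero_mul, Real.cos_zero]
    rw [sum_wt g hg (fun _ => (1 : ℝ))]
    simp
    ring
  have h2g : ∑ i ∈ range (g + 1), wt g i * Real.cos (((g + g : ℕ) : ℝ) * nod g i) = g := by
    rw [← h0]
    refine sum_congr rfl fun i _ => ?_
    congr 1
    have e : ((g + g : ℕ) : ℝ) * nod g i = i * (2 * π) := by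
      unfold nod
      push_cast
      field_simp
      ring
    rw [e, Real.cos_nat_mul_two_pi, Nat.cast_zero, zero_mul, Real.cos_zero]
  rw [sum_congr rfl fun i _ => h1 i, ← mul_sum, sum_add_distrib]
  split_ifs with h2 h3
  · subst h2
    rw [max_self, min_self, Nat.sub_self, h0]
    rcases h3 with h3 | h3
    · subst h3
      rw [Nat.add_zero, h0]
      ring
    · rw [h3, h2g]
      ring
  · subst h2
    rw [max_self, min_self, Nat.sub_self, h0, sum_nod (by omega) (by omega)]
    ring
  · rw [sum_nod (by omega) (by omega), sum_nod (by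
      rcases le_total k l with h | h
      · rw [max_eq_right h, min_eq_left h]
        omega
      · rw [max_eq_left h, min_eq_right h]
        omega) (by
      rcases le_total k l with h | h
      · rw [max_eq_right h, min_eq_left h]
        omega
      · rw [max_eq_left h, min_eq_right h]
        omega)]
    ring

/-- The coefficients one and two. -/
noncomputable def cc (k : ℕ) : ℝ := if k = 0 then 1 else 2

/-- The kernel of Fejér. -/
theorem fejer (n : ℕ) (x : ℝ) : ∑ k ∈ range n, cc k * ((n : ℝ) - k) * Real.cos (k * x) =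
    (∑ j ∈ range n, Real.cos (j * x)) ^ 2 + (∑ j ∈ range n, Real.sin (j * x)) ^ 2 := by
  induction n with
  | zero => simp
  | succ n ih =>
    have h1 : ∑ k ∈ range (n + 1), cc k * (((n + 1 : ℕ) : ℝ) - k) * Real.cos (k * x) =
        ∑ k ∈ range n, cc k * ((n : ℝ) - k) * Real.cos (k * x) +
          ∑ k ∈ range (n + 1), cc k * Real.cos (k * x) := by
      have h2 : ∑ k ∈ range n, cc k * ((n : ℝ) - k) * Real.cos (k * x) =
          ∑ k ∈ range (n + 1), cc k * ((n : ℝ) - k) * Real.cos (k * x) := by
        rw [sum_range_succ, sub_self, mul_zero, zero_mul, add_zero]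
      rw [h2, ← sum_add_distrib]
      refine sum_congr rfl fun k _ => ?_
      push_cast
      ring
    have h3 : ∑ k ∈ range (n + 1), cc k * Real.cos (k * x) = 1 + 2 * ∑ j ∈ range n,
        (Real.cos (n * x) * Real.cos (j * x) + Real.sin (n * x) * Real.sin (j * x)) := by
      rw [sum_range_succ', mul_sum, ← sum_range_reflect]
      have h4 : cc 0 * Real.cos (((0 : ℕ) : ℝ) * x) = 1 := by simp [cc]
      rw [h4, add_comm]
      congr 1
      refine sum_congr rfl fun j hj => ?_
      have hj' := mem_range.1 hj
      rw [← Real.cos_sub]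
      have h5 : n - 1 - j + 1 = n - j := by omega
      rw [h5]
      have h6 : cc (n - j) = 2 := if_neg (by omega)
      rw [h6, Nat.cast_sub (by omega)]
      congr 2
      ring
    rw [h1, ih, h3, sum_range_succ, sum_range_succ, sum_add_distrib, ← mul_sum, ← mul_sum]
    have h7 := Real.sin_sq_add_cos_sq ((n : ℝ) * x)
    linear_combination -h7

theorem fejer_nonneg (n : ℕ) (x : ℝ) :
    0 ≤ ∑ k ∈ range n, cc k * ((n : ℝ) - k) * Real.cos (k * x) := by
  rw [fejer]
  positivity

/-- The symmetric kernel. -/
theorem kernel_nonneg (n : ℕ) (φ θ : ℝ) :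
    0 ≤ ∑ k ∈ range n, cc k * ((n : ℝ) - k) * (Real.cos (k * φ) * Real.cos (k * θ)) := by
  have h1 := fejer_nonneg n (φ - θ)
  have h2 := fejer_nonneg n (φ + θ)
  have h3 : ∑ k ∈ range n, cc k * ((n : ℝ) - k) * (Real.cos (k * φ) * Real.cos (k * θ)) =
      1 / 2 * (∑ k ∈ range n, cc k * ((n : ℝ) - k) * Real.cos (k * (φ - θ)) +
        ∑ k ∈ range n, cc k * ((n : ℝ) - k) * Real.cos (k * (φ + θ))) := by
    rw [← sum_add_distrib, mul_sum]
    refine sum_congr rfl fun k _ => ?_
    rw [mul_sub (k : ℝ) φ θ, mul_add (k : ℝ) φ θ, Real.cos_sub, Real.cos_add]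
    ring
  rw [h3]
  positivity

end Pool.Agent.J4H9.Trig
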