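import Mathlib
import Pool.Agent.J4H9.Trig
import Pool.Agent.J4H9.SimplexVol
import Pool.Agent.J4H9.Low

/-!
# The number of ordinary Weil polynomials, the lower bound
-/

set_option autoImplicit false

namespace Pool.Agent.J4H9.Cone

open MeasureTheory Set Matrix Polynomial Pool.Agent.W521.Frob Pool.Agent.W521.Descent
  Pool.Agent.W521.Lower Pool.Agent.W521.Count Pool.Agent.J4H9.Trig Pool.Agent.J4H9.SimplexVol
  Pool.Agent.J4H9.Basis Pool.Agent.J4H9.Dick Pool.Agent.J4H9.Size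

/-- The cosine matrix. -/
noncomputable def matC (g : ℕ) : Matrix (Fin (g + 1)) (Fin (g + 1)) ℝ :=
  fun i k => Real.cos ((k : ℕ) * nod g i)

theorem prod_wt {g : ℕ} (hg : 0 < g) : ∏ i : Fin (g + 1), wt g i = 1 / 4 := by
  obtain ⟨m, rfl⟩ : ∃ m, g = m + 1 := ⟨g - 1, by omega⟩
  rw [Fin.prod_univ_eq_prod_range (fun i => wt (m + 1) i) (m + 1 + 1), Finset.prod_range_succ',
    Finset.prod_range_succ]
  have h1 : ∏ i ∈ Finset.range m, wt (m + 1) (i + 1) = 1 := by
    refine Finset.prod_eq_one fun i hi => ?_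
    have := Finset.mem_range.1 hi
    unfold wt
    rw [if_neg (by omega)]
  rw [h1]
  unfold wt
  rw [if_pos (Or.inr rfl), if_pos (Or.inl rfl)]
  norm_num

theorem det_matC {g : ℕ} (hg : 0 < g) :
    (matC g).det ^ 2 = 4 * ((g : ℝ) ^ 2 * ((g : ℝ) / 2) ^ (g - 1)) := by
  have h1 : (matC g)ᵀ * (diagonal (fun i : Fin (g + 1) => wt g i) * matC g) =
      diagonal fun k : Fin (g + 1) => if (k : ℕ) = 0 ∨ (k : ℕ) = g then (g : ℝ) else g / 2 := by
    ext k l
    rw [mul_apply, diagonal_apply]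
    have h2 := orth_nod hg (Nat.lt_succ_iff.1 k.2) (Nat.lt_succ_iff.1 l.2)
    rw [← Fin.sum_univ_eq_sum_range (fun i => wt g i * (Real.cos ((k : ℕ) * nod g i) *
      Real.cos ((l : ℕ) * nod g i))) (g + 1)] at h2
    have h3 : ∑ j, (matC g)ᵀ k j * (diagonal (fun i : Fin (g + 1) => wt g i) * matC g) j l =
        ∑ i : Fin (g + 1), wt g i * (Real.cos ((k : ℕ) * nod g i) * Real.cos ((l : ℕ) * nod g i)) := by
      refine Finset.sum_congr rfl fun j _ => ?_
      rw [diagonal_mul]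
      simp only [transpose_apply, matC]
      ring
    rw [h3, h2]
    by_cases hkl : k = l
    · subst hkl
      simp
    · rw [if_neg hkl, if_neg (fun h => hkl (Fin.ext h))]
  have h2 := congrArg Matrix.det h1
  rw [det_mul, det_transpose, det_mul, det_diagonal, det_diagonal, prod_wt hg,
    Fin.prod_univ_eq_prod_range (fun k => if k = 0 ∨ k = g then (g : ℝ) else g / 2) (g + 1)] at h2
  obtain ⟨m, rfl⟩ : ∃ m, g = m + 1 := ⟨g - 1, by omega⟩
  rw [Finset.prod_range_succ', Finset.prod_range_succ, if_pos (Or.inr rfl), if_pos (Or.inl rfl),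
    Finset.prod_congr rfl (fun k hk => if_neg (by
      have := Finset.mem_range.1 hk
      omega)), Finset.prod_const, Finset.card_range] at h2
  rw [Nat.add_sub_cancel]
  linear_combination 4 * h2

/-- The matrix of the values. -/
noncomputable def matB (g : ℕ) : Matrix (Fin (g + 1)) (Fin (g + 1)) ℝ :=
  diagonal (fun i : Fin (g + 1) => (-1 : ℝ) ^ (i : ℕ)) * matC g *
    diagonal fun k : Fin (g + 1) => cc (k : ℕ)

theorem matB_apply (g : ℕ) (i k : Fin (g + 1)) :
    matB g i k = (-1) ^ (i : ℕ) * Real.cos ((k : ℕ) * nod g i) * cc k := by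
  unfold matB
  rw [mul_diagonal, diagonal_mul]
  rfl

theorem prod_cc (g : ℕ) : ∏ k : Fin (g + 1), cc (k : ℕ) = 2 ^ g := by
  rw [Fin.prod_univ_eq_prod_range (fun k => cc k) (g + 1), Finset.prod_range_succ']
  have h1 : cc 0 = 1 := if_pos rfl
  have h2 : ∀ k ∈ Finset.range g, cc (k + 1) = 2 := fun k _ => if_neg (Nat.succ_ne_zero k)
  rw [h1, mul_one, Finset.prod_congr rfl h2, Finset.prod_const, Finset.card_range]

theorem abs_det_matB {g : ℕ} (hg : 0 < g) :
    |(matB g).det| = 2 ^ g * Real.sqrt (4 * ((g : ℝ) ^ 2 * ((g : ℝ) / 2) ^ (g - 1))) := by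
  unfold matB
  rw [det_mul, det_mul, det_diagonal, det_diagonal, prod_cc, abs_mul, abs_mul, ← det_matC hg,
    Real.sqrt_sq_eq_abs, Finset.abs_prod]
  have h1 : ∀ i : Fin (g + 1), |(-1 : ℝ) ^ (i : ℕ)| = 1 := fun i => by
    rw [abs_pow, abs_neg, abs_one, one_pow]
  rw [Finset.prod_congr rfl fun i _ => h1 i, Finset.prod_const_one, one_mul,
    abs_of_pos (show (0 : ℝ) < 2 ^ g by positivity), mul_comm]

theorem det_pos {g : ℕ} (hg : 0 < g) : 0 < |(matB g).det| := by
  have : (0 : ℝ) < g := by exact_mod_cast hg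
  rw [abs_det_matB hg]
  positivity

theorem neg_one_pow_eq {g : ℕ} (hg : 0 < g) (i : ℕ) : Real.cos (g * nod g i) = (-1) ^ i := by
  have h2 : (g : ℝ) * nod g i = i * Real.pi := by
    have hg' : (g : ℝ) ≠ 0 := by exact_mod_cast hg.ne'
    unfold nod
    field_simp
  rw [h2, Real.cos_nat_mul_pi]

theorem sign_sq (i : ℕ) : ((-1 : ℝ) ^ i) * ((-1) ^ i) = 1 := by
  rw [← mul_pow]
  norm_num

/-- The leading coefficient. -/
theorem weighted_sum {g : ℕ} (hg : 0 < g) (β : Fin (g + 1) → ℝ) :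
    ∑ i : Fin (g + 1), wt g i * (matB g *ᵥ β) i = 2 * g * β (Fin.last g) := by
  have h1 : ∀ i : Fin (g + 1), wt g i * (matB g *ᵥ β) i =
      ∑ k : Fin (g + 1), cc (k : ℕ) * β k *
        (wt g i * (Real.cos ((k : ℕ) * nod g i) * Real.cos (g * nod g i))) := by
    intro i
    simp only [mulVec, dotProduct, matB_apply]
    rw [Finset.mul_sum]
    refine Finset.sum_congr rfl fun k _ => ?_
    rw [neg_one_pow_eq hg]
    ring
  rw [Finset.sum_congr rfl fun i _ => h1 i, Finset.sum_comm]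
  have h2 : ∀ k : Fin (g + 1), ∑ i : Fin (g + 1), cc (k : ℕ) * β k *
        (wt g i * (Real.cos ((k : ℕ) * nod g i) * Real.cos (g * nod g i))) =
      if k = Fin.last g then 2 * (g : ℝ) * β (Fin.last g) else 0 := by
    intro k
    rw [← Finset.mul_sum, Fin.sum_univ_eq_sum_range (fun i => wt g i *
      (Real.cos ((k : ℕ) * nod g i) * Real.cos (g * nod g i))) (g + 1),
      orth_nod hg (Nat.lt_succ_iff.1 k.2) le_rfl]
    by_cases hk : k = Fin.last g
    · subst hk
      rw [if_pos (Fin.val_last g), if_pos (Or.inr (Fin.val_last g)), if_pos rfl]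
      have h3 : cc ((Fin.last g : Fin (g + 1)) : ℕ) = 2 := if_neg (by rw [Fin.val_last]; omega)
      rw [h3]
      ring
    · have h3 : (k : ℕ) ≠ g := fun h => hk (Fin.ext h)
      rw [if_neg h3, if_neg hk, mul_zero]
  rw [Finset.sum_congr rfl fun k _ => h2 k, Finset.sum_ite_eq', if_pos (Finset.mem_univ _)]

/-- The region. -/
def reg (g : ℕ) (t : ℝ) : Set (Fin (g + 1) → ℝ) :=
  {β | (∀ i, t < (matB g *ᵥ β) i) ∧ ∑ i, (matB g *ᵥ β) i < 2 * g}

theorem last_bounds {g : ℕ} (hg : 0 < g) {t : ℝ} (ht : 0 ≤ t) {β : Fin (g + 1) → ℝ}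
    (hβ : β ∈ reg g t) : 0 < β (Fin.last g) ∧ β (Fin.last g) < 1 := by
  have h1 := weighted_sum hg β
  have hg' : (0 : ℝ) < g := by exact_mod_cast hg
  have hw : ∀ i : ℕ, 0 < wt g i ∧ wt g i ≤ 1 := by
    intro i
    unfold wt
    split_ifs <;> norm_num
  have h2 : 0 < ∑ i : Fin (g + 1), wt g i * (matB g *ᵥ β) i :=
    Finset.sum_pos (fun i _ => mul_pos (hw i).1 (lt_of_le_of_lt ht (hβ.1 i)))
      ⟨0, Finset.mem_univ _⟩
  have h3 : ∑ i : Fin (g + 1), wt g i * (matB g *ᵥ β) i ≤ ∑ i : Fin (g + 1), (matB g *ᵥ β) i := by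
    refine Finset.sum_le_sum fun i _ => ?_
    have h4 := lt_of_le_of_lt ht (hβ.1 i)
    have h5 := (hw i).2
    nlinarith
  have h4 := hβ.2
  rw [h1] at h2 h3
  constructor
  · exact pos_of_mul_pos_right h2 (by positivity)
  · have h5 : 2 * (g : ℝ) * β (Fin.last g) < 2 * g * 1 := by linarith
    exact lt_of_mul_lt_mul_left h5 (by positivity)

theorem vol_reg {g : ℕ} (hg : 0 < g) {t : ℝ} (ht : ((g : ℝ) + 1) * t < 2 * g) :
    volume (reg g t) = ENNReal.ofReal (|(matB g).det|⁻¹ *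
      ((2 * (g : ℝ) - (g + 1) * t) ^ (g + 1) / (g + 1).factorial)) := by
  have hR : 0 < 2 * (g : ℝ) - (g + 1) * t := by linarith
  have h1 : reg g t = toLin' (matB g) ⁻¹' ((fun z : Fin (g + 1) → ℝ => z + fun _ => -t) ⁻¹'
      spx (g + 1) (2 * (g : ℝ) - (g + 1) * t)) := by
    ext β
    simp only [reg, spx, mem_preimage, mem_ofPred_eq, toLin'_apply, Pi.add_apply,
      Finset.sum_add_distrib, Finset.sum_const, Finset.card_univ, Fintype.card_fin, nsmul_eq_mul]
    push_cast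
    constructor
    · rintro ⟨h1, h2⟩
      exact ⟨fun i => by linarith [h1 i], by linarith⟩
    · rintro ⟨h1, h2⟩
      exact ⟨fun i => by linarith [h1 i], by linarith⟩
  have hdet : LinearMap.det (toLin' (matB g)) ≠ 0 := by
    rw [LinearMap.det_toLin']
    exact abs_pos.1 (det_pos hg)
  rw [h1, Measure.addHaar_preimage_linearMap volume hdet, measure_preimage_add_right,
    vol_spx _ hR, LinearMap.det_toLin', ← ENNReal.ofReal_mul (abs_nonneg _), abs_inv]

/-- Half the side lengths. -/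
noncomputable def hf (k : ℕ) : ℝ := if k = 0 then 1 else 1 / 2

theorem cc_hf (k : ℕ) : cc k * hf k = 1 := by
  unfold cc hf
  split_ifs <;> norm_num

theorem aeval_bas (q : ℕ) {g : ℕ} (i k : ℕ) :
    aeval (pt q g i) (bas q k) = cc k * Real.sqrt q ^ k * Real.cos (k * nod g i) := by
  unfold bas cc
  split_ifs with h
  · subst h
    simp
  · exact (dick_eval q (nod g i) k).1

/-- Rounding keeps the signs. -/
theorem sign_round {q g : ℕ} (hq : 0 < q) (hg : 0 < g) {t : ℝ} (ht0 : 0 ≤ t)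
    (ht : ∑ k : Fin g, 1 / Real.sqrt q ^ (g - k) ≤ t) {β : Fin (g + 1) → ℝ} (hβ : β ∈ reg g t)
    {e : Fin g → ℤ} (he : ∀ k : Fin g, |(e k : ℝ) - β k.castSucc * Real.sqrt q ^ (g - k)| ≤ hf k)
    (i : ℕ) (hi : i ≤ g) : 0 < (-1) ^ i * aeval (pt q g i) (comb (bas q) g e) := by
  have hs : 0 < Real.sqrt q := Real.sqrt_pos.2 (by exact_mod_cast hq)
  have hsg : 0 < Real.sqrt q ^ g := by positivity
  have h1 := hβ.1 ⟨i, Nat.lt_succ_of_le hi⟩
  have h2 : (matB g *ᵥ β) ⟨i, Nat.lt_succ_of_le hi⟩ =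
      ∑ k : Fin g, (-1) ^ i * Real.cos ((k : ℕ) * nod g i) * cc k * β k.castSucc +
        cc g * β (Fin.last g) := by
    simp only [mulVec, dotProduct, matB_apply, Fin.sum_univ_castSucc, Fin.val_castSucc,
      Fin.val_last]
    rw [neg_one_pow_eq hg, sign_sq, one_mul]
  have hccg : cc g = 2 := if_neg hg.ne'
  have h3 : (-1) ^ i * aeval (pt q g i) (comb (bas q) g e) = Real.sqrt q ^ g *
      (∑ k : Fin g, (-1) ^ i * Real.cos ((k : ℕ) * nod g i) * cc k *
        (e k / Real.sqrt q ^ (g - k)) + cc g) := by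
    unfold comb
    rw [map_add, map_sum, aeval_bas, neg_one_pow_eq hg, mul_add, mul_add, Finset.mul_sum,
      Finset.mul_sum, add_comm]
    congr 1
    · refine Finset.sum_congr rfl fun k _ => ?_
      rw [map_mul, aeval_C, aeval_bas, eq_intCast (algebraMap ℤ ℝ)]
      have h4 : Real.sqrt q ^ g = Real.sqrt q ^ (g - (k : ℕ)) * Real.sqrt q ^ (k : ℕ) := by
        rw [← pow_add, Nat.sub_add_cancel k.2.le]
      rw [h4]
      field_simp
    · calc (-1 : ℝ) ^ i * (cc g * Real.sqrt q ^ g * (-1) ^ i) =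
          Real.sqrt q ^ g * cc g * ((-1) ^ i * (-1) ^ i) := by ring
        _ = _ := by rw [sign_sq, mul_one]
  rw [h3]
  refine mul_pos hsg ?_
  have h4 : ∑ k : Fin g, (-1) ^ i * Real.cos ((k : ℕ) * nod g i) * cc k *
        (e k / Real.sqrt q ^ (g - k)) =
      ∑ k : Fin g, (-1) ^ i * Real.cos ((k : ℕ) * nod g i) * cc k * β k.castSucc +
      ∑ k : Fin g, (-1) ^ i * Real.cos ((k : ℕ) * nod g i) * cc k *
        (((e k : ℝ) - β k.castSucc * Real.sqrt q ^ (g - k)) / Real.sqrt q ^ (g - k)) := by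
    rw [← Finset.sum_add_distrib]
    refine Finset.sum_congr rfl fun k _ => ?_
    field_simp
    ring
  have h5 : -(∑ k : Fin g, 1 / Real.sqrt q ^ (g - k)) ≤
      ∑ k : Fin g, (-1) ^ i * Real.cos ((k : ℕ) * nod g i) * cc k *
        (((e k : ℝ) - β k.castSucc * Real.sqrt q ^ (g - k)) / Real.sqrt q ^ (g - k)) := by
    rw [← Finset.sum_neg_distrib]
    refine Finset.sum_le_sum fun k _ => ?_
    have h6 : |(-1) ^ i * Real.cos ((k : ℕ) * nod g i) * cc k *
        (((e k : ℝ) - β k.castSucc * Real.sqrt q ^ (g - k)) / Real.sqrt q ^ (g - k))| ≤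
        1 / Real.sqrt q ^ (g - k) := by
      have h7 : 0 < cc (k : ℕ) := by
        unfold cc
        split_ifs <;> norm_num
      have h8 : 0 < Real.sqrt q ^ (g - (k : ℕ)) := by positivity
      rw [abs_mul, abs_mul, abs_mul, abs_pow, abs_neg, abs_one, one_pow, one_mul, abs_of_pos h7,
        abs_div, abs_of_pos h8]
      calc |Real.cos ((k : ℕ) * nod g i)| * cc k *
          (|(e k : ℝ) - β k.castSucc * Real.sqrt q ^ (g - k)| / Real.sqrt q ^ (g - k)) ≤
          1 * cc k * (hf k / Real.sqrt q ^ (g - k)) := by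
            refine mul_le_mul (mul_le_mul_of_nonneg_right (Real.abs_cos_le_one _) h7.le)
              (div_le_div_of_nonneg_right (he k) h8.le) (by positivity) (by positivity)
        _ = (cc k * hf k) / Real.sqrt q ^ (g - k) := by ring
        _ = _ := by rw [cc_hf]
    exact (abs_le.1 h6).1
  have h6 := (last_bounds hg ht0 hβ).2
  rw [h2] at h1
  rw [h4, hccg]
  rw [hccg] at h1
  linarith

/-- Rounding to an integer which is not divisible by `p`. -/
theorem round_coprime {p : ℕ} (hp : p.Prime) (x : ℝ) : ∃ e : ℤ, |(e : ℝ) - x| ≤ 1 ∧ ¬ (p : ℤ) ∣ e := by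
  by_cases h : (p : ℤ) ∣ ⌊x⌋
  · refine ⟨⌊x⌋ + 1, ?_, fun h2 => ?_⟩
    · have h1 := Int.lt_floor_add_one x
      have h2 := Int.floor_le x
      push_cast
      rw [abs_le]
      constructor <;> linarith
    · have h3 : (p : ℤ) ∣ 1 := by
        have := dvd_sub h2 h
        rwa [add_sub_cancel_left] at this
      have h4 := Int.natAbs_dvd_natAbs.2 h3
      simp at h4
      exact hp.one_lt.ne' h4
  · refine ⟨⌊x⌋, ?_, h⟩
    have h1 := Int.lt_floor_add_one x
    have h2 := Int.floor_le x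
    rw [abs_le]
    constructor <;> linarith

theorem round_half (x : ℝ) : ∃ e : ℤ, |(e : ℝ) - x| ≤ 1 / 2 :=
  ⟨round x, by rw [abs_sub_comm]; exact abs_sub_round x⟩

/-- **The lower bound.** -/
theorem ordinary_lower {q : ℕ} (hq : IsPrimePow q) {g : ℕ} (hg : 0 < g) {t : ℝ} (ht0 : 0 ≤ t)
    (ht : ∑ k : Fin g, 1 / Real.sqrt q ^ (g - k) ≤ t) (ht2 : ((g : ℝ) + 1) * t < 2 * g) :
    tri q g * (|(matB g).det|⁻¹ * ((2 * (g : ℝ) - (g + 1) * t) ^ (g + 1) / (g + 1).factorial)) ≤
      2 * ((ordinaryWeilPolys q g).ncard : ℝ) := by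
  classical
  have hq0 : 0 < q := hq.pos
  have hs : 0 < Real.sqrt q := Real.sqrt_pos.2 (by exact_mod_cast hq0)
  obtain ⟨p, hp, hpq, hcop⟩ := isPrimePow_coprime hq
  let F : (Fin g → ℤ) → ℤ[X] := fun e => weil q (comb (bas q) g e)
  have hinj : Function.Injective F := by
    intro e e' hee
    have h1 := weil_injective hq0.ne' (comb_monic (bas_monic q) e).2 (comb_monic (bas_monic q) e').2
      hee
    exact comb_injective (bas_monic q) h1
  let L : Set (Fin g → ℤ) := {e | (∀ i ≤ g, 0 < (-1) ^ i * aeval (pt q g i) (comb (bas q) g e)) ∧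
    ¬ (p : ℤ) ∣ e ⟨0, hg⟩}
  have hLF : ∀ e ∈ L, F e ∈ ordinaryWeilPolys q g := by
    rintro e ⟨h1, h2⟩
    have hm := comb_monic (g := g) (bas_monic q) e
    refine ⟨mem_weilPolys hq0 hm.1 hm.2 (real_roots_of_sign hq0 hg hm.1 hm.2 h1), ?_⟩
    obtain ⟨a, ha⟩ : ∃ a : ℕ → ℤ, ∀ k : Fin g, a (g - k) = e k := by
      refine ⟨fun j => if h : g - j < g then e ⟨g - j, h⟩ else 0, fun k => ?_⟩
      have h1 : g - (g - (k : ℕ)) = k := by omega
      have h2 : g - (g - (k : ℕ)) < g := by omega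
      simp only [dif_pos h2]
      congr 1
      exact Fin.ext h1
    have he' : e = fun k : Fin g => a (g - k) := funext fun k => (ha k).symm
    change IsCoprime ((weil q (comb (bas q) g e)).coeff g) _
    rw [he', weil_comb hg, Low.recip_coeff q hg]
    have h3 := ha ⟨0, hg⟩
    rw [Nat.sub_zero] at h3
    rw [h3]
    exact hcop _ h2
  have hLfin : L.Finite := by
    refine ((finite_ordinary (g := g) hq0.ne').preimage (f := F) hinj.injOn).subset ?_
    intro e he
    exact hLF e he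
  have hLcard : L.ncard ≤ (ordinaryWeilPolys q g).ncard := by
    rw [← Set.ncard_image_of_injective _ hinj]
    refine Set.ncard_le_ncard ?_ (finite_ordinary hq0.ne')
    rintro _ ⟨e, he, rfl⟩
    exact hLF e he
  -- the boxes
  let bx : (Fin g → ℤ) → Set (Fin (g + 1) → ℝ) := fun e =>
    Set.pi univ fun k : Fin (g + 1) => if h : (k : ℕ) < g then
      Icc (((e ⟨k, h⟩ : ℝ) - hf k) / Real.sqrt q ^ (g - k)) (((e ⟨k, h⟩ : ℝ) + hf k) / Real.sqrt q ^ (g - k))
      else Icc 0 1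
  have hcov : reg g t ⊆ ⋃ e ∈ hLfin.toFinset, bx e := by
    intro β hβ
    have h1 : ∀ k : Fin g, ∃ e : ℤ, |(e : ℝ) - β k.castSucc * Real.sqrt q ^ (g - k)| ≤ hf k ∧
        ((k : ℕ) = 0 → ¬ (p : ℤ) ∣ e) := by
      intro k
      by_cases hk : (k : ℕ) = 0
      · obtain ⟨e, h1, h2⟩ := round_coprime hp (β k.castSucc * Real.sqrt q ^ (g - k))
        have h3 : hf k = 1 := if_pos hk
        exact ⟨e, by rw [h3]; exact h1, fun _ => h2⟩
      · obtain ⟨e, h1⟩ := round_half (β k.castSucc * Real.sqrt q ^ (g - k))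
        have h3 : hf k = 1 / 2 := if_neg hk
        exact ⟨e, by rw [h3]; exact h1, fun h => absurd h hk⟩
    choose e he hep using h1
    refine mem_iUnion₂.2 ⟨e, (Set.Finite.mem_toFinset hLfin).2
      ⟨fun i hi => sign_round hq0 hg ht0 ht hβ he i hi, hep ⟨0, hg⟩ rfl⟩, ?_⟩
    intro k _
    by_cases hk : (k : ℕ) < g
    · simp only [dif_pos hk]
      have h2 := abs_le.1 (he ⟨k, hk⟩)
      have h3 : (⟨k, hk⟩ : Fin g).castSucc = k := Fin.ext rfl
      rw [h3] at h2
      have h4 : 0 < Real.sqrt q ^ (g - (k : ℕ)) := by positivity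
      rw [mem_Icc, div_le_iff₀ h4, le_div_iff₀ h4]
      constructor <;> linarith [h2.1, h2.2]
    · have h2 : k = Fin.last g := Fin.ext (by
        have := k.2
        rw [Fin.val_last]
        omega)
      simp only [dif_neg hk]
      rw [h2]
      have := last_bounds hg ht0 hβ
      exact ⟨this.1.le, this.2.le⟩
  have hvolbx : ∀ e, volume (bx e) = ENNReal.ofReal (2 / tri q g) := by
    intro e
    have h1 : bx e = Set.pi univ fun k : Fin (g + 1) => Icc
        (if h : (k : ℕ) < g then ((e ⟨k, h⟩ : ℝ) - hf k) / Real.sqrt q ^ (g - k) else 0)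
        (if h : (k : ℕ) < g then ((e ⟨k, h⟩ : ℝ) + hf k) / Real.sqrt q ^ (g - k) else 1) := by
      simp only [bx]
      congr 1
      funext k
      by_cases hk : (k : ℕ) < g
      · simp only [dif_pos hk]
      · simp only [dif_neg hk]
    have h2 : ∏ k : Fin g, (2 * hf k) = 2 := by
      rw [Fin.prod_univ_eq_prod_range (fun k => 2 * hf k) g]
      obtain ⟨m, rfl⟩ : ∃ m, g = m + 1 := ⟨g - 1, by omega⟩
      rw [Finset.prod_range_succ', Finset.prod_eq_one]
      · simp [hf]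
      · intro k _
        simp [hf]
    have h3 : ∏ k : Fin g, Real.sqrt q ^ (g - (k : ℕ)) = tri q g :=
      Fin.prod_univ_eq_prod_range (fun k => Real.sqrt q ^ (g - k)) g
    rw [h1, Set.pi_univ_Icc, Real.volume_Icc_pi, Fin.prod_univ_castSucc]
    have h4 : ∀ k : Fin g, ENNReal.ofReal
        ((if h : ((k.castSucc : Fin (g + 1)) : ℕ) < g then
          ((e ⟨k.castSucc, h⟩ : ℝ) + hf k.castSucc) / Real.sqrt q ^ (g - (k.castSucc : ℕ)) else 1) -
        (if h : ((k.castSucc : Fin (g + 1)) : ℕ) < g then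
          ((e ⟨k.castSucc, h⟩ : ℝ) - hf k.castSucc) / Real.sqrt q ^ (g - (k.castSucc : ℕ)) else 0)) =
        ENNReal.ofReal (2 * hf k / Real.sqrt q ^ (g - (k : ℕ))) := by
      intro k
      have hk : ((k.castSucc : Fin (g + 1)) : ℕ) < g := k.2
      rw [dif_pos hk, dif_pos hk]
      congr 1
      rw [← sub_div]
      congr 1
      simp only [Fin.val_castSucc]
      ring
    have h5 : ENNReal.ofReal
        ((if h : ((Fin.last g : Fin (g + 1)) : ℕ) < g then
          ((e ⟨Fin.last g, h⟩ : ℝ) + hf (Fin.last g : Fin (g + 1))) /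
            Real.sqrt q ^ (g - ((Fin.last g : Fin (g + 1)) : ℕ)) else 1) -
        (if h : ((Fin.last g : Fin (g + 1)) : ℕ) < g then
          ((e ⟨Fin.last g, h⟩ : ℝ) - hf (Fin.last g : Fin (g + 1))) /
            Real.sqrt q ^ (g - ((Fin.last g : Fin (g + 1)) : ℕ)) else 0)) = 1 := by
      have hk : ¬ ((Fin.last g : Fin (g + 1)) : ℕ) < g := by simp
      rw [dif_neg hk, dif_neg hk]
      simp
    rw [Finset.prod_congr rfl fun k _ => h4 k, h5, mul_one, ← ENNReal.ofReal_prod_of_nonneg]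
    · rw [Finset.prod_div_distrib, h2, h3]
    · intro k _
      have : 0 ≤ hf k := by
        unfold hf
        split_ifs <;> norm_num
      positivity
  have htri : 0 < tri q g := tri_pos hq0 g
  have h1 : volume (reg g t) ≤ (L.ncard : ENNReal) * ENNReal.ofReal (2 / tri q g) := by
    refine (measure_mono hcov).trans ((measure_biUnion_finset_le _ _).trans ?_)
    rw [Finset.sum_congr rfl fun e _ => hvolbx e, Finset.sum_const, nsmul_eq_mul,
      Set.ncard_eq_toFinset_card L hLfin]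
  rw [vol_reg hg ht2, ← ENNReal.ofReal_natCast, ← ENNReal.ofReal_mul (Nat.cast_nonneg _),
    ENNReal.ofReal_le_ofReal_iff (by positivity)] at h1
  have h2 : (L.ncard : ℝ) ≤ ((ordinaryWeilPolys q g).ncard : ℝ) := by exact_mod_cast hLcard
  calc _ ≤ tri q g * ((L.ncard : ℝ) * (2 / tri q g)) := mul_le_mul_of_nonneg_left h1 htri.le
    _ = 2 * (L.ncard : ℝ) := by
        field_simp
    _ ≤ _ := by linarith

end Pool.Agent.J4H9.Cone
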