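import Mathlib
import Pool.Agent.J4H9.Trig
import Pool.Agent.J4H9.SimplexVol

/-!
# The number of the cells which contain moments of a positive measure
-/

set_option autoImplicit false

namespace Pool.Agent.J4H9.Cells

open MeasureTheory Set Matrix Pool.Agent.J4H9.Trig Pool.Agent.J4H9.SimplexVol

/-- The cosine matrix. -/
noncomputable def matD (n : ℕ) : Matrix (Fin n) (Fin n) ℝ :=
  fun i k => Real.cos ((k : ℕ) * mid n i)

/-- The weights of the kernel of Fejér. -/
noncomputable def lam (n : ℕ) (k : Fin n) : ℝ := ((n : ℝ) - (k : ℕ)) / n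

/-- The matrix. -/
noncomputable def matA (n : ℕ) : Matrix (Fin n) (Fin n) ℝ := matD n * diagonal (lam n)

theorem matA_apply (n : ℕ) (i k : Fin n) : matA n i k = Real.cos ((k : ℕ) * mid n i) * lam n k := by
  unfold matA
  rw [mul_diagonal]
  rfl

theorem det_matD {n : ℕ} (hn : 0 < n) : (matD n).det ^ 2 = n * ((n : ℝ) / 2) ^ (n - 1) := by
  have h1 : (matD n)ᵀ * matD n = diagonal fun k : Fin n => if (k : ℕ) = 0 then (n : ℝ) else n / 2 := by
    ext k l
    rw [mul_apply, diagonal_apply]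
    have h2 := orth_mid k.2 l.2
    rw [← Fin.sum_univ_eq_sum_range (fun i => Real.cos ((k : ℕ) * mid n i) *
      Real.cos ((l : ℕ) * mid n i)) n] at h2
    simp only [transpose_apply, matD]
    rw [h2]
    by_cases hkl : k = l
    · subst hkl
      simp
    · rw [if_neg hkl, if_neg (fun h => hkl (Fin.ext h))]
  have h2 := congrArg Matrix.det h1
  rw [det_mul, det_transpose, det_diagonal,
    Fin.prod_univ_eq_prod_range (fun k => if k = 0 then (n : ℝ) else n / 2) n] at h2
  obtain ⟨m, rfl⟩ : ∃ m, n = m + 1 := ⟨n - 1, by omega⟩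
  rw [Finset.prod_range_succ', if_pos rfl, Finset.prod_congr rfl
    (fun k _ => if_neg (Nat.succ_ne_zero k)), Finset.prod_const, Finset.card_range] at h2
  rw [Nat.add_sub_cancel, sq, h2, mul_comm]

theorem prod_lam {n : ℕ} (hn : 0 < n) : ∏ k, lam n k = (n.factorial : ℝ) / (n : ℝ) ^ n := by
  unfold lam
  rw [Finset.prod_div_distrib, Finset.prod_const, Finset.card_univ, Fintype.card_fin,
    Fin.prod_univ_eq_prod_range (fun k => (n : ℝ) - (k : ℕ)) n]
  congr 1
  have h1 : ∏ k ∈ Finset.range n, ((n : ℝ) - (k : ℕ)) = ((∏ k ∈ Finset.range n, (n - k) : ℕ) : ℝ) := by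
    push_cast
    refine Finset.prod_congr rfl fun k hk => ?_
    rw [Nat.cast_sub (Finset.mem_range.1 hk).le]
  rw [h1]
  congr 1
  rw [← Finset.prod_range_reflect, ← Finset.prod_range_add_one_eq_factorial]
  refine Finset.prod_congr rfl fun k hk => ?_
  have := Finset.mem_range.1 hk
  omega

theorem lam_pos {n : ℕ} (k : Fin n) : 0 < lam n k := by
  unfold lam
  have h1 : ((k : ℕ) : ℝ) < n := by exact_mod_cast k.2
  have h2 : (0 : ℝ) < n := lt_of_le_of_lt (Nat.cast_nonneg _) h1
  exact div_pos (by linarith) h2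

theorem sum_lam {n : ℕ} (hn : 0 < n) : ∑ k, lam n k = ((n : ℝ) + 1) / 2 := by
  unfold lam
  rw [← Finset.sum_div, Finset.sum_sub_distrib, Finset.sum_const, Finset.card_univ,
    Fintype.card_fin, nsmul_eq_mul, Fin.sum_univ_eq_sum_range (fun k => (k : ℝ)) n]
  have h1 := Finset.sum_range_id_mul_two n
  have h2 : (∑ i ∈ Finset.range n, (i : ℝ)) * 2 = n * ((n : ℝ) - 1) := by
    have h3 : (((∑ i ∈ Finset.range n, i) * 2 : ℕ) : ℝ) = ((n * (n - 1) : ℕ) : ℝ) := by
      exact_mod_cast h1
    push_cast [Nat.cast_sub (show 1 ≤ n from hn)] at h3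
    exact h3
  have hn' : (n : ℝ) ≠ 0 := by exact_mod_cast hn.ne'
  field_simp
  linarith

/-- The rows of the matrix. -/
theorem row_sum {n : ℕ} (hn : 0 < n) (u : Fin n → ℝ) :
    ∑ i, (matA n *ᵥ u) i = n * u ⟨0, hn⟩ := by
  simp only [mulVec, dotProduct, matA_apply]
  rw [Finset.sum_comm]
  have h1 : ∀ k : Fin n, ∑ i : Fin n, Real.cos ((k : ℕ) * mid n i) * lam n k * u k =
      if k = ⟨0, hn⟩ then (n : ℝ) * u ⟨0, hn⟩ else 0 := by
    intro k
    rw [← Finset.sum_mul, ← Finset.sum_mul]
    have h2 := orth_mid (n := n) k.2 hn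
    rw [← Fin.sum_univ_eq_sum_range (fun i => Real.cos ((k : ℕ) * mid n i) *
      Real.cos (((0 : ℕ) : ℝ) * mid n i)) n] at h2
    simp only [Nat.cast_zero, zero_mul, Real.cos_zero, mul_one] at h2
    rw [h2]
    by_cases hk : k = ⟨0, hn⟩
    · subst hk
      simp only [if_true]
      unfold lam
      have hn' : (n : ℝ) ≠ 0 := by exact_mod_cast hn.ne'
      simp only [Nat.cast_zero, sub_zero, div_self hn', mul_one]
    · have hk' : (k : ℕ) ≠ 0 := fun h => hk (Fin.ext h)
      rw [if_neg hk', if_neg hk, zero_mul, zero_mul]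
  rw [Finset.sum_congr rfl fun k _ => h1 k, Finset.sum_ite_eq', if_pos (Finset.mem_univ _)]

/-- The cells. -/
def cell {n : ℕ} (w : ℝ) (z : Fin n → ℤ) : Set (Fin n → ℝ) :=
  Set.pi univ fun k => Ico (z k * w) ((z k + 1) * w)

theorem cell_disjoint {n : ℕ} {w : ℝ} (hw : 0 < w) {z z' : Fin n → ℤ} (h : z ≠ z') :
    Disjoint (cell w z) (cell w z') := by
  rw [Set.disjoint_left]
  intro x hx hx'
  apply h
  funext k
  have h1 := hx k (mem_univ _)
  have h2 := hx' k (mem_univ _)
  have h3 : (z k : ℝ) < z' k + 1 := by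
    by_contra hcon
    push Not at hcon
    have := mul_le_mul_of_nonneg_right hcon hw.le
    linarith [h1.1, h2.2]
  have h4 : (z' k : ℝ) < z k + 1 := by
    by_contra hcon
    push Not at hcon
    have := mul_le_mul_of_nonneg_right hcon hw.le
    linarith [h2.1, h1.2]
  have h3' : z k < z' k + 1 := by exact_mod_cast h3
  have h4' : z' k < z k + 1 := by exact_mod_cast h4
  omega

theorem vol_cell {n : ℕ} {w : ℝ} (z : Fin n → ℤ) :
    volume (cell w z) = ENNReal.ofReal w ^ n := by
  unfold cell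
  rw [Real.volume_pi_Ico]
  have h1 : ∀ k : Fin n, ENNReal.ofReal (((z k : ℝ) + 1) * w - z k * w) = ENNReal.ofReal w := by
    intro k
    congr 1
    ring
  rw [Finset.prod_congr rfl fun k _ => h1 k, Finset.prod_const, Finset.card_univ, Fintype.card_fin]

/-- **The bound for the number of cells.** -/
theorem card_cells {n : ℕ} (hn : 3 ≤ n) {w : ℝ} (hw : 0 < w) (Z : Finset (Fin n → ℤ))
    (hZ : ∀ z ∈ Z, ∃ v ∈ cell w z, v ⟨0, by omega⟩ ≤ n - 1 ∧ ∀ i, 0 ≤ (matA n *ᵥ v) i) :
    (Z.card : ℝ) * w ^ n * |(matA n).det| ≤ ((n : ℝ) ^ 2 * (1 + w)) ^ n / n.factorial := by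
  have hn0 : 0 < n := by omega
  have hnR : (3 : ℝ) ≤ n := by exact_mod_cast hn
  set R : ℝ := (n : ℝ) ^ 2 * (1 + w) with hR
  have hR0 : 0 < R := by positivity
  let E : Set (Fin n → ℝ) := ⋃ z ∈ Z, cell w z
  set s : ℝ := w * (((n : ℝ) + 1) / 2) with hs
  -- the image
  have himg : (fun x : Fin n → ℝ => x + fun _ => s) '' (toLin' (matA n) '' E) ⊆ spx n R := by
    rintro _ ⟨_, ⟨u, hu, rfl⟩, rfl⟩
    obtain ⟨z, hz, huz⟩ := mem_iUnion₂.1 hu
    obtain ⟨v, hv, hv0, hAv⟩ := hZ z hz
    have hdiff : ∀ k, |u k - v k| < w := by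
      intro k
      have h1 := huz k (mem_univ _)
      have h2 := hv k (mem_univ _)
      rw [abs_lt]
      constructor
      · linarith [h1.1, h2.2]
      · linarith [h2.1, h1.2]
    have hrow : ∀ i, -s < (matA n *ᵥ u) i := by
      intro i
      have h1 : (matA n *ᵥ u) i = (matA n *ᵥ v) i + ∑ k, matA n i k * (u k - v k) := by
        simp only [mulVec, dotProduct]
        rw [← Finset.sum_add_distrib]
        refine Finset.sum_congr rfl fun k _ => ?_
        ring
      have h2 : ∑ k, lam n k * (-w) < ∑ k, matA n i k * (u k - v k) := by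
        refine Finset.sum_lt_sum_of_nonempty ⟨⟨0, hn0⟩, Finset.mem_univ _⟩ fun k _ => ?_
        have h3 : |matA n i k * (u k - v k)| < lam n k * w := by
          rw [abs_mul, matA_apply, abs_mul, abs_of_pos (lam_pos k)]
          have h4 := Real.abs_cos_le_one ((k : ℕ) * mid n i)
          have h5 := lam_pos k
          have h6 := hdiff k
          have h7 : |Real.cos ((k : ℕ) * mid n i)| * lam n k ≤ lam n k := by nlinarith
          calc |Real.cos ((k : ℕ) * mid n i)| * lam n k * |u k - v k| ≤ lam n k * |u k - v k| :=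
                mul_le_mul_of_nonneg_right h7 (abs_nonneg _)
            _ < lam n k * w := mul_lt_mul_of_pos_left h6 h5
        have := (abs_lt.1 h3).1
        linarith
      rw [← Finset.sum_mul, sum_lam hn0] at h2
      have h3 := hAv i
      rw [h1, hs]
      linarith
    have hsum := row_sum hn0 u
    have hu0 : u ⟨0, hn0⟩ < n - 1 + w := by
      have := (abs_lt.1 (hdiff ⟨0, hn0⟩)).2
      linarith
    refine ⟨fun i => ?_, ?_⟩
    · have := hrow i
      simp only [toLin'_apply, Pi.add_apply]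
      linarith
    · simp only [toLin'_apply, Pi.add_apply]
      rw [Finset.sum_add_distrib, hsum, Finset.sum_const, Finset.card_univ, Fintype.card_fin,
        nsmul_eq_mul, hR, hs]
      have h1 : (n : ℝ) * u ⟨0, hn0⟩ < n * (n - 1 + w) :=
        mul_lt_mul_of_pos_left hu0 (by positivity)
      have h2 : (n : ℝ) * (n - 1 + w) + n * (w * ((n + 1) / 2)) ≤ (n : ℝ) ^ 2 * (1 + w) := by
        have h3 : (n : ℝ) ^ 2 * (1 + w) - ((n : ℝ) * (n - 1 + w) + n * (w * ((n + 1) / 2))) =
            n * (1 + w * ((n - 3) / 2)) := by ring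
        have h4 : 0 ≤ (n : ℝ) * (1 + w * ((n - 3) / 2)) := by
          have : (0 : ℝ) ≤ (n - 3) / 2 := by linarith
          positivity
        linarith
      linarith
  have hvolE : volume E = (Z.card : ENNReal) * ENNReal.ofReal w ^ n := by
    rw [measure_biUnion_finset]
    · rw [Finset.sum_congr rfl fun z _ => vol_cell z, Finset.sum_const, nsmul_eq_mul]
    · intro z _ z' _ hne
      exact cell_disjoint hw hne
    · intro z _
      exact MeasurableSet.univ_pi fun k => measurableSet_Ico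
  have hvol : volume ((fun x : Fin n → ℝ => x + fun _ => s) '' (toLin' (matA n) '' E)) =
      ENNReal.ofReal |(matA n).det| * ((Z.card : ENNReal) * ENNReal.ofReal w ^ n) := by
    rw [image_add_right, measure_preimage_add_right, Measure.addHaar_image_linearMap,
      LinearMap.det_toLin', hvolE]
  have h1 := measure_mono (μ := volume) himg
  rw [hvol, vol_spx n hR0, ← ENNReal.ofReal_pow hw.le, ← ENNReal.ofReal_natCast,
    ← ENNReal.ofReal_mul (Nat.cast_nonneg _), ← ENNReal.ofReal_mul (abs_nonneg _),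
    ENNReal.ofReal_le_ofReal_iff (by positivity)] at h1
  calc _ = |(matA n).det| * ((Z.card : ℝ) * w ^ n) := by ring
    _ ≤ _ := h1

theorem abs_det_matA {n : ℕ} (hn : 0 < n) :
    |(matA n).det| = (n.factorial : ℝ) / (n : ℝ) ^ n * Real.sqrt (n * ((n : ℝ) / 2) ^ (n - 1)) := by
  unfold matA
  rw [det_mul, det_diagonal, prod_lam hn, abs_mul, abs_of_pos (show (0 : ℝ) <
    (n.factorial : ℝ) / (n : ℝ) ^ n by
      have := n.factorial_pos
      positivity), ← det_matD hn, Real.sqrt_sq_eq_abs, mul_comm]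

end Pool.Agent.J4H9.Cells
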