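import Mathlib
import Pool.Agent.J4H9.Cells
import Pool.Agent.J4H9.Size

/-!
# The real Weil polynomials are contained in a small union of chains
-/

set_option autoImplicit false

namespace Pool.Agent.J4H9.Cover2

open Polynomial Matrix Pool.Agent.W521.Frob Pool.Agent.W521.Descent Pool.Agent.W521.Lower
  Pool.Agent.W521.Count Pool.Agent.J4H9.Ch Pool.Agent.J4H9.Cover Pool.Agent.J4H9.Size
  Pool.Agent.J4H9.Trig Pool.Agent.J4H9.Cells

/-- The normalised power sums of the roots. -/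
noncomputable def mom (q : ℕ) (f : ℤ[X]) (k : ℕ) : ℝ :=
  cc k / 2 * ((((f.map (Int.castRingHom ℂ)).roots.map (fun z => z ^ k)).sum).re / Real.sqrt q ^ k)

theorem exists_angles {q g : ℕ} {f : ℤ[X]} (hf : f ∈ weilPolys q g) :
    ∃ x : Fin (2 * g) → ℂ, (∀ k : ℕ, ((f.map (Int.castRingHom ℂ)).roots.map (fun z => z ^ k)).sum =
      ∑ i, x i ^ k) ∧ (∀ i ≤ 2 * g, (f.map (Int.castRingHom ℂ)).coeff (2 * g - i) =
        (-1) ^ i * (Finset.univ.val.map x).esymm i) ∧
      ∀ i, ∀ k : ℕ, (x i ^ k).re = Real.sqrt q ^ k * Real.cos (k * (x i).arg) := by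
  have hm : (f.map (Int.castRingHom ℂ)).Monic := hf.1.map _
  have hd : (f.map (Int.castRingHom ℂ)).natDegree = 2 * g := by
    rw [hf.1.natDegree_map, hf.2.1]
  obtain ⟨x, hx1, hx2⟩ := Newton.exists_roots hm hd
  refine ⟨x, fun k => ?_, hx2, fun i k => ?_⟩
  · rw [← hx1, Multiset.map_map]
    rfl
  · have h1 : x i ∈ (f.map (Int.castRingHom ℂ)).roots := by
      rw [← hx1]
      exact Multiset.mem_map_of_mem x (Finset.mem_univ i)
    have h2 := (mem_roots'.1 h1).2
    rw [IsRoot.def, eval_map] at h2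
    have h3 := hf.2.2.2 (x i) h2
    have h4 : ‖x i‖ = Real.sqrt q := by
      rw [← h3, Real.sqrt_sq (norm_nonneg _)]
    have h5 := Complex.norm_mul_exp_arg_mul_I (x i)
    have h6 : x i ^ k = ((Real.sqrt q ^ k : ℝ) : ℂ) * Complex.exp ((((k : ℝ) * (x i).arg : ℝ) : ℂ) *
        Complex.I) := by
      conv_lhs => rw [← h5]
      rw [mul_pow, ← Complex.exp_nat_mul, h4]
      push_cast
      congr 2
      ring
    rw [h6, Complex.re_ofReal_mul, Complex.exp_ofReal_mul_I_re]

theorem mom_eq {q g : ℕ} (hq : 0 < q) {f : ℤ[X]} (hf : f ∈ weilPolys q g) :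
    ∃ θ : Fin (2 * g) → ℝ, ∀ k, mom q f k = cc k / 2 * ∑ i, Real.cos (k * θ i) := by
  obtain ⟨x, h1, -, h3⟩ := exists_angles hf
  have hs : 0 < Real.sqrt q := Real.sqrt_pos.2 (by exact_mod_cast hq)
  refine ⟨fun i => (x i).arg, fun k => ?_⟩
  unfold mom
  rw [h1, Complex.re_sum, Finset.sum_congr rfl fun i _ => h3 i k, ← Finset.mul_sum]
  have h4 : Real.sqrt q ^ k ≠ 0 := by positivity
  field_simp

theorem mom_zero {q g : ℕ} (hq : 0 < q) {f : ℤ[X]} (hf : f ∈ weilPolys q g) : mom q f 0 = g := by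
  obtain ⟨θ, hθ⟩ := mom_eq hq hf
  rw [hθ]
  simp [cc]

theorem mom_nonneg {q g : ℕ} (hq : 0 < q) {f : ℤ[X]} (hf : f ∈ weilPolys q g) (n : ℕ)
    (i : Fin n) : 0 ≤ (matA n *ᵥ fun k : Fin n => mom q f k) i := by
  obtain ⟨θ, hθ⟩ := mom_eq hq hf
  have hn : (0 : ℝ) < n := by
    have : 0 < n := lt_of_le_of_lt (Nat.zero_le _) i.2
    exact_mod_cast this
  have h1 : (matA n *ᵥ fun k : Fin n => mom q f k) i = ∑ j, 1 / (2 * (n : ℝ)) *
      ∑ k ∈ Finset.range n, cc k * ((n : ℝ) - k) * (Real.cos (k * mid n i) * Real.cos (k * θ j)) := by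
    simp only [mulVec, dotProduct, matA_apply, hθ]
    rw [← Finset.mul_sum, Finset.sum_comm, Finset.mul_sum,
      ← Fin.sum_univ_eq_sum_range (fun k => 1 / (2 * (n : ℝ)) * ∑ y : Fin (2 * g),
        cc k * ((n : ℝ) - k) * (Real.cos (k * mid n i) * Real.cos (k * θ y))) n]
    refine Finset.sum_congr rfl fun k _ => ?_
    rw [Finset.mul_sum, Finset.mul_sum, Finset.mul_sum]
    refine Finset.sum_congr rfl fun j _ => ?_
    unfold lam
    field_simp
  rw [h1]
  refine Finset.sum_nonneg fun j _ => mul_nonneg (by positivity) (kernel_nonneg n _ _)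

/-- Two real Weil polynomials with the same coefficients above `j`. -/
theorem mom_diff {q g j : ℕ} (hq : 0 < q) {h h' : ℤ[X]} (hh : weil q h ∈ weilPolys q g)
    (hh' : weil q h' ∈ weilPolys q g) (hd : h.natDegree = g) (hd' : h'.natDegree = g)
    (hj : j < g) (heq : ∀ k, j < k → h.coeff k = h'.coeff k) :
    ((g - j : ℕ) : ℝ) * |((h.coeff j - h'.coeff j : ℤ) : ℝ)| =
      |mom q (weil q h) (g - j) - mom q (weil q h') (g - j)| * Real.sqrt q ^ (g - j) := by
  obtain ⟨x, hx1, hx2, -⟩ := exists_angles hh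
  obtain ⟨y, hy1, hy2, -⟩ := exists_angles hh'
  have hs : 0 < Real.sqrt q := Real.sqrt_pos.2 (by exact_mod_cast hq)
  have hunit : ∀ k : ℕ, ((-1 : ℂ) ^ k) * (-1) ^ k = 1 := fun k => by
    rw [← mul_pow]
    norm_num
  have he : ∀ k < g - j, (Finset.univ.val.map x).esymm k = (Finset.univ.val.map y).esymm k := by
    intro k hk
    have h1 : (map (Int.castRingHom ℂ) (weil q h)).coeff (2 * g - k) =
        (map (Int.castRingHom ℂ) (weil q h')).coeff (2 * g - k) := by
      rw [coeff_map, coeff_map]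
      have h1 : 2 * g - k = g + (g - k) := by omega
      have h2 := weil_coeff_diff q hd hd' heq (g - k) (by omega) (by omega)
      rw [if_neg (by omega), sub_eq_zero] at h2
      rw [h1, h2]
    rw [hx2 k (by omega), hy2 k (by omega)] at h1
    have h2 := congrArg (fun z => (-1) ^ k * z) h1
    simp only [← mul_assoc, hunit, one_mul] at h2
    exact h2
  have h1 := Newton.psum_diff x y (g - j) (by omega) he
  have h2 := weil_coeff_diff q hd hd' heq j le_rfl hj.le
  rw [if_pos rfl] at h2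
  have h3 := hx2 (g - j) (by omega)
  have h4 := hy2 (g - j) (by omega)
  have h5 : 2 * g - (g - j) = g + j := by omega
  rw [h5, coeff_map] at h3 h4
  have h6 : ((-1 : ℂ)) ^ (g - j) * ((Finset.univ.val.map x).esymm (g - j) -
      (Finset.univ.val.map y).esymm (g - j)) = ((h.coeff j - h'.coeff j : ℤ) : ℂ) := by
    rw [mul_sub, ← h3, ← h4, ← h2]
    simp
  have h7 : ∑ i, x i ^ (g - j) - ∑ i, y i ^ (g - j) =
      ((-(((g - j : ℕ) : ℝ) * ((h.coeff j - h'.coeff j : ℤ) : ℝ)) : ℝ) : ℂ) := by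
    rw [h1]
    have h8 : ((-1 : ℂ)) ^ (g - j + 1) * ((g - j : ℕ) : ℂ) *
        ((Finset.univ.val.map x).esymm (g - j) - (Finset.univ.val.map y).esymm (g - j)) =
        -(((g - j : ℕ) : ℂ) * (((-1 : ℂ)) ^ (g - j) * ((Finset.univ.val.map x).esymm (g - j) -
          (Finset.univ.val.map y).esymm (g - j)))) := by
      rw [pow_succ]
      ring
    rw [h8, h6]
    push_cast
    ring
  have hcc : cc (g - j) = 2 := if_neg (by omega)
  unfold mom
  rw [hcc, div_self two_ne_zero, one_mul, one_mul, hx1, hy1, ← sub_div, ← Complex.sub_re, h7,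
    Complex.ofReal_re, abs_div, abs_neg, abs_mul, abs_of_pos (show (0 : ℝ) < Real.sqrt q ^ (g - j) by
      positivity), Nat.abs_cast]
  field_simp

/-- The lengths of the intervals. -/
noncomputable def len2 (w : ℝ) (q g j : ℕ) : ℕ := ⌊w * Real.sqrt q ^ (g - j) / (g - j : ℕ)⌋₊ + 1

/-- **The covering by few chains.** -/
theorem cover_cells {q : ℕ} (hq : 0 < q) {g : ℕ} (hg : 2 ≤ g) {w : ℝ} (hw : 0 < w) :
    ∃ (Λ₀ : Finset (Fin (g + 1) → ℤ)) (𝒯 : (Fin (g + 1) → ℤ) → ℕ → Finset ℤ[X]),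
      (∀ z ∈ Λ₀, Chain (len2 w q g) g (𝒯 z)) ∧ (∀ z ∈ Λ₀, 𝒯 z g = {1}) ∧
      (∀ h ∈ realWeil q g, ∃ z ∈ Λ₀, h ∈ 𝒯 z 0) ∧
      (Λ₀.card : ℝ) * w ^ (g + 1) * |(matA (g + 1)).det| ≤
        (((g : ℝ) + 1) ^ 2 * (1 + w)) ^ (g + 1) / (g + 1).factorial := by
  classical
  have hfin := finite_realWeil (g := g) hq.ne'
  let zc : ℤ[X] → (Fin (g + 1) → ℤ) := fun h k => ⌊mom q (weil q h) k / w⌋
  let Λ₀ : Finset (Fin (g + 1) → ℤ) := hfin.toFinset.image zc
  have hz : ∀ z ∈ Λ₀, ∃ h ∈ realWeil q g, zc h = z := by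
    intro z hz
    obtain ⟨h, hh, h1⟩ := Finset.mem_image.1 hz
    exact ⟨h, (Set.Finite.mem_toFinset hfin).1 hh, h1⟩
  have hcov : ∀ z : Fin (g + 1) → ℤ, ∃ 𝒯 : ℕ → Finset ℤ[X], Chain (len2 w q g) g 𝒯 ∧
      (hfin.toFinset.filter fun h => zc h = z) ⊆ 𝒯 0 ∧ 𝒯 g = {1} := by
    intro z
    refine cover _ (fun h hh => ?_) (len2 w q g) (fun j _ => Nat.succ_pos _) ?_
    · have h1 := (Set.Finite.mem_toFinset hfin).1 (Finset.mem_filter.1 hh).1
      exact ⟨h1.1, h1.2.1⟩
    · intro j hj h hh h' hh' heq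
      obtain ⟨h1, h2⟩ := Finset.mem_filter.1 hh
      obtain ⟨h1', h2'⟩ := Finset.mem_filter.1 hh'
      rw [Set.Finite.mem_toFinset] at h1 h1'
      have h4 := mom_diff hq h1.2.2 h1'.2.2 h1.2.1 h1'.2.1 hj (by
        intro k hk
        have h5 := congrArg (fun p => p.coeff (k - (j + 1))) heq
        simp only [iterate_divX_coeff] at h5
        rwa [Nat.sub_add_cancel hk] at h5)
      have h0 : (0 : ℝ) < (g - j : ℕ) := by
        have : 0 < g - j := by omega
        exact_mod_cast this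
      have h5 : |mom q (weil q h) (g - j) - mom q (weil q h') (g - j)| < w := by
        have h6 := congrFun (h2.trans h2'.symm) ⟨g - j, by omega⟩
        simp only [zc] at h6
        have h7 := Int.floor_le (mom q (weil q h) (g - j) / w)
        have h8 := Int.lt_floor_add_one (mom q (weil q h) (g - j) / w)
        have h9 := Int.floor_le (mom q (weil q h') (g - j) / w)
        have h10 := Int.lt_floor_add_one (mom q (weil q h') (g - j) / w)
        rw [h6] at h7 h8
        have h11 : |mom q (weil q h) (g - j) / w - mom q (weil q h') (g - j) / w| < 1 := by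
          rw [abs_lt]
          constructor <;> linarith
        rw [← sub_div, abs_div, abs_of_pos hw, div_lt_one hw] at h11
        exact h11
      have h6 : |((h.coeff j - h'.coeff j : ℤ) : ℝ)| ≤ w * Real.sqrt q ^ (g - j) / (g - j : ℕ) := by
        rw [le_div_iff₀ h0, mul_comm, h4]
        exact mul_le_mul_of_nonneg_right h5.le (by positivity)
      have h7 : (h.coeff j - h'.coeff j).toNat ≤ ⌊w * Real.sqrt q ^ (g - j) / (g - j : ℕ)⌋₊ := by
        refine Nat.le_floor ?_
        refine le_trans ?_ h6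
        by_cases h7 : 0 ≤ h.coeff j - h'.coeff j
        · have h8 : (((h.coeff j - h'.coeff j).toNat : ℤ) : ℝ) = ((h.coeff j - h'.coeff j : ℤ) : ℝ) := by
            rw [Int.toNat_of_nonneg h7]
          rw [Int.cast_natCast] at h8
          rw [h8]
          exact le_abs_self _
        · rw [Int.toNat_of_nonpos (by omega)]
          simp
      unfold len2
      omega
  choose 𝒯 h1 h2 h3 using hcov
  refine ⟨Λ₀, 𝒯, fun z _ => h1 z, fun z _ => h3 z, ?_, ?_⟩
  · intro h hh
    have h4 : h ∈ hfin.toFinset := (Set.Finite.mem_toFinset hfin).2 hh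
    exact ⟨zc h, Finset.mem_image_of_mem zc h4, h2 _ (Finset.mem_filter.2 ⟨h4, rfl⟩)⟩
  · have key := card_cells (n := g + 1) (by omega) hw Λ₀ (by
      intro z hz'
      obtain ⟨h, hh, rfl⟩ := hz z hz'
      refine ⟨fun k => mom q (weil q h) k, ?_, ?_, fun i => mom_nonneg hq hh.2.2 _ i⟩
      · intro k _
        simp only [zc]
        have h7 := Int.floor_le (mom q (weil q h) k / w)
        have h8 := Int.lt_floor_add_one (mom q (weil q h) k / w)
        rw [le_div_iff₀ hw] at h7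
        rw [div_lt_iff₀ hw] at h8
        exact ⟨h7, h8⟩
      · change mom q (weil q h) 0 ≤ _
        rw [mom_zero hq hh.2.2]
        push_cast
        linarith)
    push_cast at key
    exact key

end Pool.Agent.J4H9.Cover2
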