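import Mathlib
import Pool.Agent.W521.Density
import Pool.Agent.J4H9.Fr
import Pool.Agent.J4H9.Chain

/-!
# Local densities with prescribed highest coefficients
-/

set_option autoImplicit false

namespace Pool.Agent.J4H9.Local

open Polynomial Pool.Agent.W521.Density Pool.Agent.J4H9.Fr Pool.Agent.J4H9.Ch

section

variable {l : ℕ} [Fact l.Prime]

/-- The polynomial with highest part `A` and lowest coefficients `b`. -/
noncomputable def mk (n : ℕ) (A : (ZMod l)[X]) (b : Fin n → ZMod l) : (ZMod l)[X] :=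
  A * X ^ n + ∑ k : Fin n, C (b k) * X ^ (k : ℕ)

theorem map_eq (n : ℕ) (h : ℤ[X]) : h.map (Int.castRingHom (ZMod l)) =
    mk n ((divX^[n] h).map (Int.castRingHom (ZMod l))) (low n l h) := by
  ext k
  unfold mk
  rw [coeff_add, coeff_mul_X_pow', finsetSum_coeff, coeff_map, coeff_map]
  by_cases hk : n ≤ k
  · rw [if_pos hk, iterate_divX_coeff, Nat.sub_add_cancel hk, Finset.sum_eq_zero, add_zero]
    intro i _
    rw [coeff_C_mul_X_pow, if_neg (by have := i.2; omega)]
  · rw [if_neg hk, zero_add, Finset.sum_eq_single (⟨k, by omega⟩ : Fin n)]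
    · rw [coeff_C_mul_X_pow, if_pos rfl]
      rfl
    · intro i _ hi
      rw [coeff_C_mul_X_pow, if_neg]
      intro e
      exact hi (Fin.ext e.symm)
    · intro h1
      exact absurd (Finset.mem_univ _) h1

theorem sum_coeff {n : ℕ} {B : (ZMod l)[X]} (hB : B.natDegree < n) :
    ∑ k : Fin n, C (B.coeff k) * X ^ (k : ℕ) = B := by
  conv_rhs => rw [B.as_sum_range_C_mul_X_pow' hB]
  rw [Finset.sum_range]

theorem mk_coeff {n : ℕ} (A : (ZMod l)[X]) {B : (ZMod l)[X]} (hB : B.natDegree < n) :
    mk n A (fun k => B.coeff k) = A * X ^ n + B := by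
  unfold mk
  rw [sum_coeff hB]

/-- The lowest part for which the polynomial is `m` times the quotient plus `c`. -/
noncomputable def lowPart (n : ℕ) (A m : (ZMod l)[X]) (c : ZMod l) : (ZMod l)[X] :=
  C c * m - (A * X ^ n) %ₘ m

theorem lowPart_deg {n : ℕ} (A : (ZMod l)[X]) {m : (ZMod l)[X]} (hm : m.Monic)
    (hmd : m.natDegree + 1 = n) (hmd0 : 0 < m.natDegree) (c : ZMod l) :
    (lowPart n A m c).natDegree < n := by
  unfold lowPart
  refine lt_of_le_of_lt (natDegree_sub_le _ _) (max_lt ?_ ?_)
  · exact lt_of_le_of_lt (natDegree_C_mul_le _ _) (by omega)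
  · have h1 := natDegree_modByMonic_lt (A * X ^ n) hm (by
      intro h
      rw [h, natDegree_one] at hmd0
      exact lt_irrefl _ hmd0)
    omega

theorem lowPart_mul (n : ℕ) (A m : (ZMod l)[X]) (c : ZMod l) :
    A * X ^ n + lowPart n A m c = m * ((A * X ^ n) /ₘ m + C c) := by
  unfold lowPart
  have h1 := modByMonic_add_div (A * X ^ n) m
  linear_combination (-1 : (ZMod l)[X]) * h1

theorem mk_lowPart {n : ℕ} (A : (ZMod l)[X]) {m : (ZMod l)[X]} (hm : m.Monic)
    (hmd : m.natDegree + 1 = n) (hmd0 : 0 < m.natDegree) (c : ZMod l) :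
    mk n A (fun k => (lowPart n A m c).coeff k) = m * ((A * X ^ n) /ₘ m + C c) := by
  rw [mk_coeff A (lowPart_deg A hm hmd hmd0 c), lowPart_mul]

theorem mk_inj {n : ℕ} (A : (ZMod l)[X]) {b b' : Fin n → ZMod l} (h : mk n A b = mk n A b') :
    b = b' := by
  funext k
  have h1 := congrArg (fun p => p.coeff k) h
  unfold mk at h1
  simp only [coeff_add, finsetSum_coeff, coeff_C_mul_X_pow] at h1
  rw [add_left_cancel_iff, Finset.sum_eq_single k, Finset.sum_eq_single k] at h1
  · simpa using h1
  · intro i _ hi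
    rw [if_neg (fun e => hi (Fin.ext e.symm))]
  · intro h; exact absurd (Finset.mem_univ _) h
  · intro i _ hi
    rw [if_neg (fun e => hi (Fin.ext e.symm))]
  · intro h; exact absurd (Finset.mem_univ _) h

/-- Two irreducible factors of large degree are equal. -/
theorem factor_unique {H u v : (ZMod l)[X]} (hH : H ≠ 0) (hu : Irreducible u) (hv : Irreducible v)
    (hum : u.Monic) (hvm : v.Monic) (huH : u ∣ H) (hvH : v ∣ H)
    (hdeg : H.natDegree < u.natDegree + v.natDegree) : u = v := by
  by_contra hne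
  have hcop : IsCoprime u v := by
    rw [hu.coprime_iff_not_dvd]
    intro hd
    exact hne (eq_of_monic_of_associated hum hvm (hu.associated_of_dvd hv hd))
  have h1 := natDegree_le_of_dvd (hcop.mul_dvd huH hvH) hH
  rw [hum.natDegree_mul hvm] at h1
  omega

theorem natDegree_mk {n : ℕ} {A : (ZMod l)[X]} (hA : A.Monic) (b : Fin n → ZMod l) :
    (mk n A b).natDegree = A.natDegree + n ∧ mk n A b ≠ 0 := by
  have h1 : (∑ k : Fin n, C (b k) * X ^ (k : ℕ) : (ZMod l)[X]).degree < (A * X ^ n).degree := by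
    refine lt_of_lt_of_le (degree_sum_fin_lt b) ?_
    rw [degree_mul, degree_X_pow]
    have h2 : (0 : WithBot ℕ) ≤ A.degree := by
      rw [degree_eq_natDegree hA.ne_zero]
      exact_mod_cast Nat.zero_le _
    calc (n : WithBot ℕ) = 0 + n := (zero_add _).symm
      _ ≤ A.degree + n := by gcongr
  have hm : (mk n A b).Monic := by
    unfold mk
    exact (hA.mul (monic_X_pow n)).add_of_left h1
  refine ⟨?_, hm.ne_zero⟩
  unfold mk
  rw [natDegree_add_eq_left_of_degree_lt h1, hA.natDegree_mul (monic_X_pow n), natDegree_X_pow]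

/-- The number of vectors for which the polynomial has an irreducible factor of degree `d`. -/
theorem card_F {n d g : ℕ} (hd : 0 < d) (hdn : d + 1 = n) (hgd : g < 2 * d) (hl : 3 ≤ l)
    {A : (ZMod l)[X]} (hA : A.Monic) (hAd : A.natDegree + n = g) :
    l ^ n ≤ 2 * d * {b : Fin n → ZMod l | ∃ v : (ZMod l)[X], Irreducible v ∧ v.natDegree = d ∧
      v ∣ mk n A b}.ncard := by
  classical
  have hirr := card_irrSet l d hl hd
  set Ω : Set (Fin n → ZMod l) := {b | ∃ v : (ZMod l)[X], Irreducible v ∧ v.natDegree = d ∧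
      v ∣ mk n A b} with hΩ
  let f : (Fin d → ZMod l) × ZMod l → (Fin n → ZMod l) := fun x k =>
    (lowPart n A (mkPoly d x.1) x.2).coeff k
  have hmono : ∀ a : Fin d → ZMod l, (mkPoly d a).Monic := fun a => mkPoly_monic d a
  have hdegp : ∀ a : Fin d → ZMod l, (mkPoly d a).natDegree = d := fun a => mkPoly_natDegree d a
  have hmk : ∀ x, mk n A (f x) = mkPoly d x.1 * ((A * X ^ n) /ₘ mkPoly d x.1 + C x.2) := fun x =>
    mk_lowPart A (hmono _) (by rw [hdegp]; exact hdn) (by rw [hdegp]; exact hd) x.2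
  have hmem : ∀ x ∈ (irrSet l d) ×ˢ (Finset.univ : Finset (ZMod l)), f x ∈ Ω := by
    intro x hx
    have h1 := (Finset.mem_product.1 hx).1
    unfold irrSet at h1
    have h2 := (Finset.mem_filter.1 h1).2
    refine ⟨mkPoly d x.1, h2, hdegp _, ?_⟩
    rw [hmk]
    exact dvd_mul_right _ _
  have hinj : Set.InjOn f ((irrSet l d) ×ˢ (Finset.univ : Finset (ZMod l)) :
      Finset ((Fin d → ZMod l) × ZMod l)) := by
    intro x hx y hy hxy
    have h1 := (Finset.mem_product.1 (Finset.mem_coe.1 hx)).1
    have h1' := (Finset.mem_product.1 (Finset.mem_coe.1 hy)).1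
    unfold irrSet at h1 h1'
    have h2 := (Finset.mem_filter.1 h1).2
    have h2' := (Finset.mem_filter.1 h1').2
    have h3 := hmk x
    have h4 := hmk y
    rw [← hxy] at h4
    obtain ⟨h5, h6⟩ := natDegree_mk hA (f x)
    have h7 : mkPoly d x.1 = mkPoly d y.1 := by
      refine factor_unique h6 h2 h2' (hmono _) (hmono _) ?_ ?_ ?_
      · rw [h3]; exact dvd_mul_right _ _
      · rw [h4]; exact dvd_mul_right _ _
      · rw [h5, hdegp, hdegp]
        omega
    have h8 : x.1 = y.1 := mkPoly_injective d h7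
    rw [h3, h7] at h4
    have h9 := mul_left_cancel₀ (hmono _).ne_zero h4
    have h10 := C_injective (add_left_cancel h9)
    exact Prod.ext h8 h10
  have hcard : ((irrSet l d) ×ˢ (Finset.univ : Finset (ZMod l))).card ≤ Ω.ncard := by
    rw [← Finset.card_image_of_injOn hinj, ← Set.ncard_coe_finset]
    refine Set.ncard_le_ncard ?_ (Set.toFinite _)
    intro b hb
    obtain ⟨x, hx, rfl⟩ := Finset.mem_image.1 (Finset.mem_coe.1 hb)
    exact hmem x hx
  rw [Finset.card_product, Finset.card_univ, ZMod.card] at hcard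
  calc l ^ n = l ^ d * l := by rw [← hdn, pow_succ]
    _ ≤ (2 * d * (irrSet l d).card) * l := Nat.mul_le_mul_right _ hirr
    _ = 2 * d * ((irrSet l d).card * l) := by ring
    _ ≤ _ := Nat.mul_le_mul_left _ hcard

/-- The polynomials for which `T ^ 2 - X T + q` has a root modulo the polynomial. -/
def splitSet (l r q : ℕ) [Fact l.Prime] : Set ((ZMod l)[X]) :=
  {u | u.Monic ∧ Irreducible u ∧ u.natDegree = r ∧
    ∃ p : (ZMod l)[X], u ∣ p ^ 2 - X * p + C (q : ZMod l)}

theorem finite_degree (d : ℕ) : {u : (ZMod l)[X] | u.natDegree = d}.Finite := by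
  have h1 : (Set.range (fun a : Fin (d + 1) → ZMod l => ∑ k : Fin (d + 1), C (a k) * X ^ (k : ℕ))
      : Set ((ZMod l)[X])).Finite := Set.finite_range _
  refine h1.subset ?_
  intro u hu
  have hu' : u.natDegree = d := hu
  exact ⟨fun k => u.coeff k, sum_coeff (by rw [hu']; omega)⟩

theorem card_split {r q : ℕ} (hr : r.Prime) (hr3 : 3 ≤ r) (hl : 3 ≤ l) :
    l ^ r ≤ 4 * r * (splitSet l r q).ncard := by
  classical
  let K := GaloisField l r
  have : Fintype K := Fintype.ofFinite K
  have hK : Module.finrank (ZMod l) K = r := GaloisField.finrank l hr.ne_zero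
  have hcardK : Fintype.card K = l ^ r := by
    rw [Module.card_eq_pow_finrank (K := ZMod l) (V := K), hK, ZMod.card]
  have hfin : (splitSet l r q).Finite := (finite_degree r).subset fun u hu => hu.2.2.1
  have hint : ∀ t : K, IsIntegral (ZMod l) t := fun t => Algebra.IsIntegral.isIntegral t
  let F : K → (ZMod l)[X] := fun T => minpoly (ZMod l) (T + q / T)
  set S : Finset K := Finset.univ.filter (fun T => T ≠ 0 ∧ (F T).natDegree = r) with hS
  have hquad : ∀ T : K, T ≠ 0 → T ^ 2 - (T + q / T) * T + q = 0 := by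
    intro T hT
    rw [add_mul, div_mul_cancel₀ _ hT]
    ring
  have hQ2 : ∀ t : K, (X ^ 2 - C t * X + C (q : K) : K[X]).natDegree = 2 ∧
      (X ^ 2 - C t * X + C (q : K) : K[X]) ≠ 0 := by
    intro t
    have h1 : (X ^ 2 - C t * X + C (q : K) : K[X]).natDegree = 2 := by
      compute_degree!
    refine ⟨h1, fun h0 => ?_⟩
    rw [h0, natDegree_zero] at h1
    omega
  -- few elements are excluded
  have hexc : Fintype.card K ≤ S.card + (1 + 2 * l) := by
    have h1 : (Finset.univ : Finset K) ⊆ S ∪ ({0} ∪ (Finset.univ : Finset (ZMod l)).biUnion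
        (fun t => (X ^ 2 - C (algebraMap (ZMod l) K t) * X + C (q : K) : K[X]).roots.toFinset)) := by
      intro T _
      by_cases hT : T = 0
      · rw [hT]
        exact Finset.mem_union_right _ (Finset.mem_union_left _ (Finset.mem_singleton_self _))
      by_cases hd : (F T).natDegree = r
      · exact Finset.mem_union_left _ (Finset.mem_filter.2 ⟨Finset.mem_univ _, hT, hd⟩)
      · refine Finset.mem_union_right _ (Finset.mem_union_right _ ?_)
        have h2 : (F T).natDegree ∣ r := by
          rw [← hK]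
          exact minpoly.degree_dvd (hint _)
        have h3 : (F T).natDegree = 1 := by
          rcases (Nat.dvd_prime hr).1 h2 with h4 | h4
          · exact h4
          · exact absurd h4 hd
        obtain ⟨t, ht⟩ := minpoly.natDegree_eq_one_iff.1 h3
        rw [Finset.mem_biUnion]
        refine ⟨t, Finset.mem_univ _, ?_⟩
        rw [Multiset.mem_toFinset, mem_roots (hQ2 _).2, IsRoot.def]
        simp only [eval_add, eval_sub, eval_mul, eval_pow, eval_X, eval_C]
        rw [ht]
        exact hquad T hT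
    have h2 := Finset.card_le_card h1
    rw [Finset.card_univ] at h2
    refine h2.trans ((Finset.card_union_le _ _).trans (Nat.add_le_add_left
      ((Finset.card_union_le _ _).trans ?_) _))
    rw [Finset.card_singleton]
    refine Nat.add_le_add_left ?_ _
    refine (Finset.card_biUnion_le).trans ?_
    refine (Finset.sum_le_card_nsmul _ _ 2 (fun t _ => ?_)).trans ?_
    · refine (Multiset.toFinset_card_le _).trans ((card_roots' _).trans ?_)
      rw [(hQ2 _).1]
    · rw [Finset.card_univ, ZMod.card, smul_eq_mul, mul_comm]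
  -- the images are in the set
  have hmaps : ∀ T ∈ S, F T ∈ hfin.toFinset := by
    intro T hT
    obtain ⟨-, hT0, hTd⟩ := Finset.mem_filter.1 hT
    rw [Set.Finite.mem_toFinset]
    refine ⟨minpoly.monic (hint _), minpoly.irreducible (hint _), hTd, ?_⟩
    set t := T + (q : K) / T with ht
    have h1 : IntermediateField.adjoin (ZMod l) {t} = ⊤ := by
      rw [← IntermediateField.finrank_eq_one_iff_eq_top]
      have h2 := Module.finrank_mul_finrank (ZMod l) (IntermediateField.adjoin (ZMod l) {t}) K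
      rw [IntermediateField.adjoin.finrank (hint t), hK] at h2
      have h3 : (minpoly (ZMod l) t).natDegree = r := hTd
      rw [h3] at h2
      have := hr.pos
      exact Nat.eq_of_mul_eq_mul_left this (by rw [h2, mul_one])
    have h2 : T ∈ IntermediateField.adjoin (ZMod l) {t} := by
      rw [h1]
      exact IntermediateField.mem_top
    rw [← IntermediateField.mem_toSubalgebra,
      IntermediateField.adjoin_simple_toSubalgebra_of_isAlgebraic (hint t).isAlgebraic,
      Algebra.adjoin_singleton_eq_range_aeval] at h2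
    obtain ⟨p, hp⟩ := h2
    refine ⟨p, ?_⟩
    apply minpoly.dvd
    have hp' : aeval t p = T := hp
    rw [map_add, map_sub, map_pow, map_mul, aeval_X, aeval_C, hp', map_natCast]
    have := hquad T hT0
    rw [← ht] at this
    exact this
  have hfib : ∀ u ∈ hfin.toFinset, (S.filter (fun T => F T = u)).card ≤ 2 * r := by
    intro u hu
    rw [Set.Finite.mem_toFinset] at hu
    have hPne : (u.map (algebraMap (ZMod l) K)) ≠ 0 := (hu.1.map _).ne_zero
    have h1 : S.filter (fun T => F T = u) ⊆
        (u.map (algebraMap (ZMod l) K)).roots.toFinset.biUnion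
          (fun t => (X ^ 2 - C t * X + C (q : K) : K[X]).roots.toFinset) := by
      intro T hT
      obtain ⟨hT1, hT2⟩ := Finset.mem_filter.1 hT
      obtain ⟨-, hT0, -⟩ := Finset.mem_filter.1 hT1
      rw [Finset.mem_biUnion]
      refine ⟨T + q / T, ?_, ?_⟩
      · rw [Multiset.mem_toFinset, mem_roots hPne, IsRoot.def, eval_map, ← hT2]
        exact minpoly.aeval _ _
      · rw [Multiset.mem_toFinset, mem_roots (hQ2 _).2, IsRoot.def]
        simp only [eval_add, eval_sub, eval_mul, eval_pow, eval_X, eval_C]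
        exact hquad T hT0
    refine (Finset.card_le_card h1).trans (Finset.card_biUnion_le.trans ?_)
    refine (Finset.sum_le_card_nsmul _ _ 2 (fun t _ => ?_)).trans ?_
    · refine (Multiset.toFinset_card_le _).trans ((card_roots' _).trans ?_)
      rw [(hQ2 _).1]
    · rw [smul_eq_mul, mul_comm]
      refine Nat.mul_le_mul_left 2 ?_
      refine (Multiset.toFinset_card_le _).trans ((card_roots' _).trans ?_)
      rw [hu.1.natDegree_map, hu.2.2.1]
  have h5 := Finset.card_le_mul_card_image_of_maps_to hmaps (2 * r) hfib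
  rw [← Set.ncard_eq_toFinset_card _ hfin] at h5
  have h6 : 2 * (1 + 2 * l) ≤ l ^ r := by
    calc 2 * (1 + 2 * l) ≤ (3 * 3) * l := by omega
      _ ≤ (l * l) * l := Nat.mul_le_mul_right _ (Nat.mul_le_mul hl hl)
      _ = l ^ 3 := by ring
      _ ≤ l ^ r := Nat.pow_le_pow_right (by omega) hr3
  rw [hcardK] at hexc
  nlinarith

/-- The pattern for a polynomial modulo `l`. -/
def PolE (q r : ℕ) (P : (ZMod l)[X]) : Prop :=
  ∃ (u p : (ZMod l)[X]) (a : ZMod l), Irreducible u ∧ u.natDegree = r ∧
    u ∣ P ∧ u ∣ p ^ 2 - X * p + C (q : ZMod l) ∧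
    P.eval a = 0 ∧ P.derivative.eval a ≠ 0 ∧ ¬ IsSquare (a ^ 2 - 4 * (q : ZMod l))

/-- The number of vectors with the pattern. -/
theorem card_E {n r g q : ℕ} (hr : r.Prime) (hr3 : 3 ≤ r) (hrn : r + 2 = n) (hgr : g < 2 * r)
    (hl : 8 ≤ l) (hlq : ¬ l ∣ q) {A : (ZMod l)[X]} (hA : A.Monic) (hAd : A.natDegree + n = g) :
    l ^ n ≤ 32 * r * g * {b : Fin n → ZMod l | PolE q r (mk n A b)}.ncard := by
  classical
  have hfin : (splitSet l r q).Finite := (finite_degree r).subset fun u hu => hu.2.2.1
  have hsplit := card_split (l := l) (q := q) hr hr3 (by omega)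
  have hNN := card_NN l q (by omega) hlq
  set Ω : Set (Fin n → ZMod l) := {b | PolE q r (mk n A b)} with hΩ
  -- the triples
  let U : Finset ((ZMod l)[X]) := hfin.toFinset
  have hUc : U.card = (splitSet l r q).ncard := (Set.ncard_eq_toFinset_card _ hfin).symm
  let mm : (ZMod l)[X] × ZMod l → (ZMod l)[X] := fun x => x.1 * (X - C x.2)
  let Q : (ZMod l)[X] × ZMod l → (ZMod l)[X] := fun x => (A * X ^ n) /ₘ mm x
  let S : Finset (((ZMod l)[X] × ZMod l) × ZMod l) :=
    ((U ×ˢ NN l q) ×ˢ (Finset.univ : Finset (ZMod l))).filter (fun x => x.2 ≠ - (Q x.1).eval x.1.2)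
  let f : ((ZMod l)[X] × ZMod l) × ZMod l → (Fin n → ZMod l) := fun x k =>
    (lowPart n A (mm x.1) x.2).coeff k
  have hUmem : ∀ u ∈ U, u ∈ splitSet l r q := fun u hu => (Set.Finite.mem_toFinset hfin).1 hu
  have hmono : ∀ x : (ZMod l)[X] × ZMod l, x.1 ∈ U → (mm x).Monic := fun x hx =>
    (hUmem _ hx).1.mul (monic_X_sub_C _)
  have hdegm : ∀ x : (ZMod l)[X] × ZMod l, x.1 ∈ U → (mm x).natDegree = r + 1 := fun x hx => by
    have h1 := hUmem _ hx
    change (x.1 * (X - C x.2)).natDegree = r + 1
    rw [h1.1.natDegree_mul (monic_X_sub_C _), h1.2.2.1, natDegree_X_sub_C]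
  have hmk : ∀ x ∈ S, mk n A (f x) = mm x.1 * (Q x.1 + C x.2) := fun x hx => by
    have h1 := (Finset.mem_product.1 (Finset.mem_product.1 (Finset.mem_filter.1 hx).1).1).1
    exact mk_lowPart A (hmono _ h1) (by rw [hdegm _ h1]; omega) (by rw [hdegm _ h1]; omega) x.2
  have hueval : ∀ u ∈ U, ∀ a : ZMod l, u.eval a ≠ 0 := by
    intro u hu a h0
    have h1 := hUmem _ hu
    have h2 := degree_eq_one_of_irreducible_of_root h1.2.1 h0
    have h3 : u.natDegree = 1 := natDegree_eq_of_degree_eq_some (by rw [h2]; rfl)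
    rw [h1.2.2.1] at h3
    omega
  have hmem : ∀ x ∈ S, f x ∈ Ω := by
    intro x hx
    obtain ⟨h1, h2⟩ := Finset.mem_filter.1 hx
    obtain ⟨h3, h4⟩ := Finset.mem_product.1 (Finset.mem_product.1 h1).1
    obtain ⟨h5, h6, h7, p, h8⟩ := hUmem _ h3
    have e := hmk x hx
    have e2 : mk n A (f x) = (X - C x.1.2) * (x.1.1 * (Q x.1 + C x.2)) := by
      rw [e]
      change (x.1.1 * (X - C x.1.2)) * _ = _
      ring
    refine ⟨x.1.1, p, x.1.2, h6, h7, ?_, h8, ?_, ?_, (mem_NN l q _).1 h4⟩
    · rw [e]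
      exact (dvd_mul_right _ _).mul_right _
    · rw [e2, eval_mul, eval_sub, eval_X, eval_C, sub_self, zero_mul]
    · rw [e2, derivative_mul, eval_add, eval_mul, eval_mul]
      simp only [derivative_sub, derivative_X, derivative_C, sub_zero, eval_one, one_mul,
        eval_sub, eval_X, eval_C, sub_self, zero_mul, add_zero, eval_mul, eval_add]
      refine mul_ne_zero (hueval _ h3 _) ?_
      intro h0
      exact h2 (eq_neg_of_add_eq_zero_right h0)
  -- the fibres
  have hfinΩ : Ω.Finite := Set.toFinite _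
  have hfib : ∀ b ∈ hfinΩ.toFinset, (S.filter (fun x => f x = b)).card ≤ g := by
    intro b _
    obtain ⟨h5, h6⟩ := natDegree_mk hA b
    have hinj : Set.InjOn (fun x : ((ZMod l)[X] × ZMod l) × ZMod l => x.1.2)
        (S.filter (fun x => f x = b) : Finset _) := by
      intro x hx y hy hxy
      obtain ⟨hx1, hx2⟩ := Finset.mem_filter.1 (Finset.mem_coe.1 hx)
      obtain ⟨hy1, hy2⟩ := Finset.mem_filter.1 (Finset.mem_coe.1 hy)
      have hxU := (Finset.mem_product.1 (Finset.mem_product.1 (Finset.mem_filter.1 hx1).1).1).1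
      have hyU := (Finset.mem_product.1 (Finset.mem_product.1 (Finset.mem_filter.1 hy1).1).1).1
      have ex := hmk x hx1
      have ey := hmk y hy1
      rw [hx2] at ex
      rw [hy2] at ey
      have h7 : x.1.1 = y.1.1 := by
        refine factor_unique h6 (hUmem _ hxU).2.1 (hUmem _ hyU).2.1 (hUmem _ hxU).1 (hUmem _ hyU).1
          ?_ ?_ ?_
        · rw [ex]
          exact (dvd_mul_right _ _).mul_right _
        · rw [ey]
          exact (dvd_mul_right _ _).mul_right _
        · rw [h5, (hUmem _ hxU).2.2.1, (hUmem _ hyU).2.2.1]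
          omega
      have h8 : x.1 = y.1 := Prod.ext h7 hxy
      rw [ex, h8] at ey
      have h9 := mul_left_cancel₀ (hmono _ hyU).ne_zero ey
      have h10 := C_injective (add_left_cancel h9)
      exact Prod.ext h8 h10
    have himg : (S.filter (fun x => f x = b)).image (fun x => x.1.2) ⊆ (mk n A b).roots.toFinset := by
      intro a ha
      obtain ⟨x, hx, rfl⟩ := Finset.mem_image.1 ha
      obtain ⟨hx1, hx2⟩ := Finset.mem_filter.1 hx
      have ex := hmk x hx1
      rw [hx2] at ex
      rw [Multiset.mem_toFinset, mem_roots h6, IsRoot.def, ex]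
      change ((x.1.1 * (X - C x.1.2)) * _).eval _ = 0
      rw [eval_mul, eval_mul, eval_sub, eval_X, eval_C, sub_self, mul_zero, zero_mul]
    rw [← Finset.card_image_of_injOn hinj]
    refine (Finset.card_le_card himg).trans ((Multiset.toFinset_card_le _).trans
      ((card_roots' _).trans ?_))
    rw [h5, hAd]
  have hmaps : ∀ x ∈ S, f x ∈ hfinΩ.toFinset := fun x hx => by
    rw [Set.Finite.mem_toFinset]
    exact hmem x hx
  have h11 := Finset.card_le_mul_card_image_of_maps_to hmaps g hfib
  rw [← Set.ncard_eq_toFinset_card _ hfinΩ] at h11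
  -- the number of the triples
  have hScard : S.card + (U ×ˢ NN l q).card = (U ×ˢ NN l q).card * l := by
    have h12 := Finset.card_filter_add_card_filter_not
      (s := (U ×ˢ NN l q) ×ˢ (Finset.univ : Finset (ZMod l)))
      (fun x => x.2 ≠ - (Q x.1).eval x.1.2)
    rw [Finset.card_product, Finset.card_univ, ZMod.card] at h12
    rw [← h12]
    congr 1
    symm
    have h13 : ((U ×ˢ NN l q) ×ˢ (Finset.univ : Finset (ZMod l))).filter
        (fun x => ¬ x.2 ≠ - (Q x.1).eval x.1.2) =
        (U ×ˢ NN l q).image (fun y => (y, - (Q y).eval y.2)) := by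
      ext x
      rw [Finset.mem_filter, Finset.mem_image, Finset.mem_product, not_not]
      constructor
      · rintro ⟨⟨h14, -⟩, h15⟩
        exact ⟨x.1, h14, Prod.ext rfl h15.symm⟩
      · rintro ⟨z, h14, rfl⟩
        exact ⟨⟨h14, Finset.mem_univ _⟩, rfl⟩
    rw [h13, Finset.card_image_of_injective _ (fun y z h => (Prod.ext_iff.1 h).1)]
  rw [Finset.card_product, hUc] at hScard
  set u := (splitSet l r q).ncard
  set w := (NN l q).card
  have h16 : l ≤ 4 * w := by omega
  have h17 : u * w * l ≤ 2 * S.card := by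
    have : 2 * (u * w) ≤ u * w * l := by
      rw [mul_comm]
      exact Nat.mul_le_mul_left _ (by omega)
    omega
  calc l ^ n = l ^ r * l * l := by rw [← hrn, pow_add]; ring
    _ ≤ (4 * r * u) * (4 * w) * l :=
        Nat.mul_le_mul_right _ (Nat.mul_le_mul hsplit h16)
    _ = 16 * r * (u * w * l) := by ring
    _ ≤ 16 * r * (2 * S.card) := Nat.mul_le_mul_left _ h17
    _ ≤ 16 * r * (2 * (g * Ω.ncard)) := Nat.mul_le_mul_left _ (Nat.mul_le_mul_left _ h11)
    _ = 32 * r * g * Ω.ncard := by ring

end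

end Pool.Agent.J4H9.Local
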