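import Mathlib
import Pool.Agent.J4H9.Local

/-!
# The sieve for pairs of polynomials
-/

set_option autoImplicit false

namespace Pool.Agent.J4H9.Pair

open Polynomial Pool.Agent.W521.Density Pool.Agent.J4H9.Fr Pool.Agent.J4H9.Ch
  Pool.Agent.J4H9.Eqd Pool.Agent.J4H9.Local

/-- The prime numbers. -/
abbrev Pr : Type := {l : ℕ // l.Prime}

instance (l : Pr) : Fact (l : ℕ).Prime := ⟨l.2⟩

/-- The residues modulo a product. -/
noncomputable def crt (n m m' : ℕ) (h : m.Coprime m') :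
    (Fin n → ZMod (m * m')) ≃ (Fin n → ZMod m) × (Fin n → ZMod m') :=
  (Equiv.piCongrRight fun _ => (ZMod.chineseRemainder h).toEquiv).trans
    (Equiv.arrowProdEquivProdArrow _ _ _)

theorem crt_low (n m m' : ℕ) (h : m.Coprime m') (f : ℤ[X]) :
    crt n m m' h (low n (m * m') f) = (low n m f, low n m' f) := by
  refine Prod.ext ?_ ?_
  · funext i
    change ((ZMod.chineseRemainder h) (f.coeff i : ZMod (m * m'))).1 = _
    rw [map_intCast]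
    rfl
  · funext i
    change ((ZMod.chineseRemainder h) (f.coeff i : ZMod (m * m'))).2 = _
    rw [map_intCast]
    rfl

variable {Λ : Type} {Λ₀ : Finset Λ} {M : Λ → ℕ → ℕ} {n : ℕ} {𝒯 : Λ → ℕ → Finset ℤ[X]}

/-- The disjoint union of the bottom levels of a family of chains. -/
abbrev uni (Λ₀ : Finset Λ) (𝒯 : Λ → ℕ → Finset ℤ[X]) : Finset (Σ _ : Λ, ℤ[X]) :=
  Λ₀.sigma fun i => 𝒯 i 0

theorem equi_pair (hc : ∀ i ∈ Λ₀, Chain (M i) n (𝒯 i)) {E : ℝ}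
    (hE : ∀ i ∈ Λ₀, ∑ k ∈ Finset.range n, 1 / (M i k : ℝ) ≤ E)
    (l l' : ℕ) [NeZero l] [NeZero l'] (h : l.Coprime l') :
    Equi (uni Λ₀ 𝒯 ×ˢ uni Λ₀ 𝒯)
      (fun x => ((x.1.1, divX^[n] x.1.2), (x.2.1, divX^[n] x.2.2)))
      (fun x => ((low n l x.1.2, low n l x.2.2), (low n l' x.1.2, low n l' x.2.2)))
      (6 * ((l : ℝ) * l') * E) := by
  have : NeZero (l * l') := ⟨mul_ne_zero (NeZero.ne l) (NeZero.ne l')⟩
  have h0 : ∀ i ∈ Λ₀, Equi (𝒯 i 0) (fun h => divX^[n] h) (low n (l * l'))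
      (2 * ((l : ℝ) * l') * E) := by
    intro i hi
    refine ((hc i hi).equi (l * l') n 0 (by omega)).mono ?_
    calc ∑ k ∈ Finset.Ico 0 n, 2 * (((l * l' : ℕ) : ℕ) : ℝ) / (M i k : ℝ) =
        2 * ((l : ℝ) * l') * ∑ k ∈ Finset.range n, 1 / (M i k : ℝ) := by
          rw [← Finset.range_eq_Ico, Finset.mul_sum]
          refine Finset.sum_congr rfl fun k _ => ?_
          push_cast
          ring
      _ ≤ _ := mul_le_mul_of_nonneg_left (hE i hi) (by positivity)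
  have h1 := (Equi.sigma h0).congr (crt n l l' h)
  simp only [crt_low] at h1
  have h2 := (h1.prod h1).congr (Equiv.prodProdProdComm _ _ _ _)
  refine Equi.mono h2 (le_of_eq ?_)
  ring

/-- The pair has the patterns for one of the primes in `P`. -/
def HasPair (q r : ℕ) (P : Finset Pr) (x : ℤ[X] × ℤ[X]) : Prop :=
  ∃ l ∈ P, PatE q r x.1 l ∧ PatF (r + 1) x.2 l

open Classical in
/-- **The sieve for pairs.** -/
theorem pair_sieve (hc : ∀ i ∈ Λ₀, Chain (M i) n (𝒯 i)) {E : ℝ} (hE0 : 0 ≤ E)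
    (hE : ∀ i ∈ Λ₀, ∑ k ∈ Finset.range n, 1 / (M i k : ℝ) ≤ E)
    {q r g : ℕ} (hr : r.Prime) (hr3 : 3 ≤ r) (hrn : r + 2 = n)
    (hgr : g < 2 * r) (hng : n ≤ g)
    (htop : ∀ i ∈ Λ₀, ∀ f ∈ 𝒯 i n, f.Monic ∧ f.natDegree + n = g) (P : Finset Pr)
    (hP : P.Nonempty)
    (L : ℝ) (hPL : ∀ l ∈ P, ((l : ℕ) : ℝ) ≤ L) (hP8 : ∀ l ∈ P, 8 ≤ (l : ℕ))
    (hPq : ∀ l ∈ P, ¬ (l : ℕ) ∣ q) :
    (((uni Λ₀ 𝒯 ×ˢ uni Λ₀ 𝒯).filter (fun x => ¬ HasPair q r P (x.1.2, x.2.2))).card : ℝ) ≤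
      ((64 * (g : ℝ) ^ 3) ^ 2 * (1 / P.card + 6 * L ^ 2 * E)) *
        ((uni Λ₀ 𝒯).card : ℝ) ^ 2 := by
  have hg0 : (0 : ℝ) < g := by
    have : 0 < g := by omega
    exact_mod_cast this
  have hL0 : 0 ≤ L := by
    obtain ⟨l, hl⟩ := hP
    exact (Nat.cast_nonneg _).trans (hPL l hl)
  let c : ℝ := 1 / (64 * (g : ℝ) ^ 3)
  have hc0 : 0 < c := by positivity
  set ε : ℝ := 6 * L ^ 2 * E with hε
  have hε0 : 0 ≤ ε := by positivity
  let R : Pr → Type := fun l => (Fin n → ZMod l) × (Fin n → ZMod l)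
  let π : ∀ l : Pr, (Σ _ : Λ, ℤ[X]) × (Σ _ : Λ, ℤ[X]) → R l :=
    fun l x => (low n l x.1.2, low n l x.2.2)
  let κ : (Σ _ : Λ, ℤ[X]) × (Σ _ : Λ, ℤ[X]) → (Λ × ℤ[X]) × (Λ × ℤ[X]) :=
    fun x => ((x.1.1, divX^[n] x.1.2), (x.2.1, divX^[n] x.2.2))
  let Ω : ∀ l : Pr, (Λ × ℤ[X]) × (Λ × ℤ[X]) → Set (R l) := fun l k =>
    {b : Fin n → ZMod l | PolE q r (mk n (k.1.2.map (Int.castRingHom (ZMod l))) b)} ×ˢ
    {b : Fin n → ZMod l | ∃ v : (ZMod l)[X], Irreducible v ∧ v.natDegree = r + 1 ∧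
      v ∣ mk n (k.2.2.map (Int.castRingHom (ZMod l))) b}
  let instR : ∀ l : Pr, Fintype (R l) := fun l =>
    (inferInstance : Fintype ((Fin n → ZMod l) × (Fin n → ZMod l)))
  have : ∀ l : Pr, Nonempty (R l) := fun l =>
    (inferInstance : Nonempty ((Fin n → ZMod l) × (Fin n → ZMod l)))
  have key := turan (X := (Σ _ : Λ, ℤ[X]) × (Σ _ : Λ, ℤ[X])) P hP (uni Λ₀ 𝒯 ×ˢ uni Λ₀ 𝒯)
    κ R π hε0 (by
    intro l hl l' hl' hne
    have hcop : (l : ℕ).Coprime l' := (Nat.coprime_primes l.2 l'.2).2 (fun h => hne (Subtype.ext h))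
    refine (equi_pair hc hE (l : ℕ) (l' : ℕ) hcop).mono ?_
    refine mul_le_mul_of_nonneg_right ?_ hE0
    refine mul_le_mul_of_nonneg_left ?_ (by norm_num)
    rw [sq]
    exact mul_le_mul (hPL l hl) (hPL l' hl') (Nat.cast_nonneg _) hL0) Ω hc0 (by
    intro l hl x hx
    obtain ⟨hx1, hx2⟩ := Finset.mem_product.1 hx
    rw [Finset.mem_sigma] at hx1 hx2
    have h1 := htop _ hx1.1 _ (by simpa using (hc _ hx1.1).iterate n 0 (by omega) x.1.2 hx1.2)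
    have h2 := htop _ hx2.1 _ (by simpa using (hc _ hx2.1).iterate n 0 (by omega) x.2.2 hx2.2)
    have hE := card_E (l := (l : ℕ)) (n := n) (q := q) hr hr3 hrn hgr (hP8 l hl) (hPq l hl)
      (h1.1.map (Int.castRingHom (ZMod l))) (by rw [h1.1.natDegree_map]; exact h1.2)
    have hF := card_F (l := (l : ℕ)) (n := n) (d := r + 1) (Nat.succ_pos r) (by omega)
      (show g < 2 * (r + 1) by omega) (by have := hP8 l hl; omega)
      (h2.1.map (Int.castRingHom (ZMod l))) (by rw [h2.1.natDegree_map]; exact h2.2)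
    have hcardR : Fintype.card (R l) = (l : ℕ) ^ n * (l : ℕ) ^ n := by
      change Fintype.card ((Fin n → ZMod l) × (Fin n → ZMod l)) = _
      rw [Fintype.card_prod, Fintype.card_fun, ZMod.card, Fintype.card_fin]
    have hΩc : (Ω l (κ x)).ncard =
        {b : Fin n → ZMod l |
          PolE q r (mk n ((divX^[n] x.1.2).map (Int.castRingHom (ZMod l))) b)}.ncard *
        {b : Fin n → ZMod l | ∃ v : (ZMod l)[X], Irreducible v ∧ v.natDegree = r + 1 ∧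
          v ∣ mk n ((divX^[n] x.2.2).map (Int.castRingHom (ZMod l))) b}.ncard := Set.ncard_prod
    rw [hcardR, hΩc]
    set e := {b : Fin n → ZMod l |
      PolE q r (mk n ((divX^[n] x.1.2).map (Int.castRingHom (ZMod l))) b)}.ncard
    set f := {b : Fin n → ZMod l | ∃ v : (ZMod l)[X], Irreducible v ∧ v.natDegree = r + 1 ∧
          v ∣ mk n ((divX^[n] x.2.2).map (Int.castRingHom (ZMod l))) b}.ncard
    have h3 : (l : ℕ) ^ n * (l : ℕ) ^ n ≤ 64 * g ^ 3 * (e * f) := by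
      calc (l : ℕ) ^ n * (l : ℕ) ^ n ≤ (32 * r * g * e) * (2 * (r + 1) * f) := Nat.mul_le_mul hE hF
        _ = (64 * (r * (r + 1)) * g) * (e * f) := by ring
        _ ≤ (64 * (g * g) * g) * (e * f) := by
            refine Nat.mul_le_mul_right _ (Nat.mul_le_mul_right _ (Nat.mul_le_mul_left _
              (Nat.mul_le_mul (by omega) (by omega))))
        _ = _ := by ring
    have h4 : ((l : ℕ) : ℝ) ^ n * ((l : ℕ) : ℝ) ^ n ≤ 64 * (g : ℝ) ^ 3 * (e * f) := by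
      exact_mod_cast h3
    push_cast
    simp only [c]
    rw [div_mul_eq_mul_div, one_mul, div_le_iff₀ (by positivity)]
    linarith)
  have hsub : (uni Λ₀ 𝒯 ×ˢ uni Λ₀ 𝒯).filter (fun x => ¬ HasPair q r P (x.1.2, x.2.2)) ⊆
      (uni Λ₀ 𝒯 ×ˢ uni Λ₀ 𝒯).filter (fun x => ∀ l ∈ P, π l x ∉ Ω l (κ x)) := by
    intro x hx
    obtain ⟨h1, h2⟩ := Finset.mem_filter.1 hx
    refine Finset.mem_filter.2 ⟨h1, fun l hl hmem => h2 ⟨l, hl, ?_, ?_⟩⟩
    · obtain ⟨u, p, a, h3⟩ := hmem.1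
      refine ⟨u, p, a, ?_⟩
      rw [map_eq n x.1.2]
      exact h3
    · obtain ⟨v, h3⟩ := hmem.2
      refine ⟨v, ?_⟩
      rw [map_eq n x.2.2]
      exact h3
  have h5 : (((uni Λ₀ 𝒯 ×ˢ uni Λ₀ 𝒯).filter
      (fun x => ¬ HasPair q r P (x.1.2, x.2.2))).card : ℝ) ≤
      (((uni Λ₀ 𝒯 ×ˢ uni Λ₀ 𝒯).filter (fun x => ∀ l ∈ P, π l x ∉ Ω l (κ x))).card : ℝ) := by
    exact_mod_cast Finset.card_le_card hsub
  have key' : (((uni Λ₀ 𝒯 ×ˢ uni Λ₀ 𝒯).filter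
      (fun x => ∀ l ∈ P, π l x ∉ Ω l (κ x))).card : ℝ) ≤
      (1 / (c ^ 2 * P.card) + ε / c ^ 2) * ((uni Λ₀ 𝒯 ×ˢ uni Λ₀ 𝒯).card : ℝ) := by
    convert key
  refine (h5.trans key').trans (le_of_eq ?_)
  rw [Finset.card_product]
  simp only [c]
  have hPc : (0 : ℝ) < P.card := by exact_mod_cast hP.card_pos
  push_cast
  field_simp

end Pool.Agent.J4H9.Pair
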