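import Mathlib
import Pool.Agent.J4H9.Cover2
import Pool.Agent.J4H9.Cone
import Pool.Agent.J4H9.Pair

/-!
# The cover of the real Weil polynomials is small
-/

set_option autoImplicit false

namespace Pool.Agent.J4H9.Asym

open Polynomial Filter Matrix Pool.Agent.W521.Frob Pool.Agent.W521.Descent Pool.Agent.W521.Lower
  Pool.Agent.W521.Count Pool.Agent.J4H9.Ch Pool.Agent.J4H9.Cover Pool.Agent.J4H9.Size
  Pool.Agent.J4H9.Trig Pool.Agent.J4H9.Cells Pool.Agent.J4H9.Cover2 Pool.Agent.J4H9.Cone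

theorem pow_le_exp_fact (g : ℕ) : (g : ℝ) ^ g ≤ Real.exp 1 ^ g * (g.factorial : ℝ) := by
  have h1 := Real.pow_div_factorial_le_exp (g : ℝ) (Nat.cast_nonneg g) g
  have h3 : Real.exp (g : ℝ) = Real.exp 1 ^ g := by
    rw [← Real.exp_nat_mul, mul_one]
  have h4 : (0 : ℝ) < (g.factorial : ℝ) := by exact_mod_cast g.factorial_pos
  rw [h3, div_le_iff₀ h4] at h1
  exact h1

theorem succ_pow_le {g : ℕ} (hg : 0 < g) : ((g : ℝ) + 1) ^ g ≤ Real.exp 1 * (g : ℝ) ^ g := by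
  have hg' : (0 : ℝ) < g := by exact_mod_cast hg
  have h1 : (1 : ℝ) / g + 1 ≤ Real.exp (1 / g) := Real.add_one_le_exp _
  have h2 : ((1 : ℝ) / g + 1) ^ g ≤ Real.exp 1 := by
    calc ((1 : ℝ) / g + 1) ^ g ≤ Real.exp (1 / g) ^ g := pow_le_pow_left₀ (by positivity) h1 g
      _ = Real.exp 1 := by
          rw [← Real.exp_nat_mul]
          congr 1
          field_simp
  have h3 : ((g : ℝ) + 1) ^ g = ((1 : ℝ) / g + 1) ^ g * (g : ℝ) ^ g := by
    rw [← mul_pow]
    congr 1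
    field_simp
    ring
  rw [h3]
  exact mul_le_mul_of_nonneg_right h2 (by positivity)

/-- The numerical inequality. -/
theorem numeric : ∀ᶠ g : ℕ in atTop, ∀ t : ℝ, 0 ≤ t → t ≤ 1 / 1000 →
    18 * 2 ^ g * ((g : ℝ) + 1) ^ (3 * (g + 1)) * (1 + 1 / 40) ^ (g + 1) ≤
      8 ^ g * (1 / 40) * ((g + 1).factorial : ℝ) * (g.factorial : ℝ) *
        (2 * (g : ℝ) - (g + 1) * t) ^ (g + 1) := by
  have hev : ∀ᶠ g : ℕ in atTop, 60480 * (g : ℝ) * 7.6 ^ g ≤ 8 ^ g := by
    have h1 := tendsto_pow_const_div_const_pow_of_one_lt 1 (r := (8 / 7.6 : ℝ)) (by norm_num)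
    filter_upwards [h1.eventually_le_const (show (0 : ℝ) < 1 / 60480 by norm_num)] with g hg
    rw [pow_one, div_pow, div_div_eq_mul_div, div_le_div_iff₀ (by positivity) (by norm_num)] at hg
    linarith
  filter_upwards [hev, eventually_ge_atTop 1] with g hg hg1 t ht0 ht1
  have hg0 : 0 < g := hg1
  have hgR : (1 : ℝ) ≤ g := by exact_mod_cast hg1
  have he : (0 : ℝ) < Real.exp 1 := Real.exp_pos _
  have he1 : Real.exp 1 < 2.7182818286 := Real.exp_one_lt_d9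
  have hf1 := pow_le_exp_fact (g + 1)
  have hf2 := pow_le_exp_fact g
  have hs := succ_pow_le hg0
  push_cast at hf1
  set e := Real.exp 1 with hedef
  set G : ℝ := (g : ℝ) ^ g with hG
  have hGpos : 0 < G := by positivity
  set N : ℝ := ((g : ℝ) + 1) ^ (g + 1) with hN
  have hNpos : 0 < N := by positivity
  have hfpos : (0 : ℝ) < ((g + 1).factorial : ℝ) := by exact_mod_cast (g + 1).factorial_pos
  have hfpos' : (0 : ℝ) < (g.factorial : ℝ) := by exact_mod_cast g.factorial_pos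
  -- the power of the last factor
  have ht2 : (2 * (g : ℝ)) ^ (g + 1) * (1 - t) ^ (g + 1) ≤ (2 * (g : ℝ) - (g + 1) * t) ^ (g + 1) := by
    rw [← mul_pow]
    refine pow_le_pow_left₀ (mul_nonneg (by positivity) (by linarith)) ?_ _
    nlinarith
  have hNle : N ≤ e * G * (2 * g) := by
    rw [hN, pow_succ]
    refine mul_le_mul hs (by linarith) (by positivity) (by positivity)
  have h3N : ((g : ℝ) + 1) ^ (3 * (g + 1)) = N * N * N := by
    rw [hN]
    ring
  have hq1 : (1 + 1 / 40 : ℝ) * e ^ 2 ≤ 7.6 * (1 - t) := by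
    have h1 : e ^ 2 ≤ 7.3891 := by
      nlinarith
    nlinarith
  have hq2 : (1 + 1 / 40 : ℝ) ^ (g + 1) * (e ^ 2) ^ (g + 1) ≤ 7.6 ^ (g + 1) * (1 - t) ^ (g + 1) := by
    rw [← mul_pow, ← mul_pow]
    exact pow_le_pow_left₀ (by positivity) hq1 _
  -- it is enough to bound the product with the exponentials
  have key : 18 * 2 ^ g * (N * N * N) * (1 + 1 / 40) ^ (g + 1) * (e ^ (g + 1) * e ^ g) ≤
      8 ^ g * (1 / 40) * (N * G) * ((2 * (g : ℝ)) ^ (g + 1) * (1 - t) ^ (g + 1)) := by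
    have e1 : e ^ (g + 1) * e ^ g * e = (e ^ 2) ^ (g + 1) := by ring
    have e2 : (2 * (g : ℝ)) ^ (g + 1) = 2 * 2 ^ g * (G * g) := by
      rw [hG]
      ring
    have h4 : (1 - t) ^ (g + 1) ≥ 0 := pow_nonneg (by linarith) _
    have h5 : N * N ≤ (e * G * (2 * g)) * (e * G * (2 * g)) :=
      mul_le_mul hNle hNle hNpos.le (by positivity)
    calc 18 * 2 ^ g * (N * N * N) * (1 + 1 / 40) ^ (g + 1) * (e ^ (g + 1) * e ^ g) =
        18 * 2 ^ g * N * (N * N) * ((1 + 1 / 40) ^ (g + 1) * (e ^ (g + 1) * e ^ g)) := by ring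
      _ ≤ 18 * 2 ^ g * N * ((e * G * (2 * g)) * (e * G * (2 * g))) *
          ((1 + 1 / 40) ^ (g + 1) * (e ^ (g + 1) * e ^ g)) := by
          refine mul_le_mul_of_nonneg_right (mul_le_mul_of_nonneg_left h5 (by positivity))
            (by positivity)
      _ = 72 * 2 ^ g * N * G * G * (g * g) * e * ((1 + 1 / 40) ^ (g + 1) *
          (e ^ (g + 1) * e ^ g * e)) := by ring
      _ = 72 * 2 ^ g * N * G * G * (g * g) * e * ((1 + 1 / 40) ^ (g + 1) * (e ^ 2) ^ (g + 1)) := by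
          rw [e1]
      _ ≤ 72 * 2 ^ g * N * G * G * (g * g) * e * (7.6 ^ (g + 1) * (1 - t) ^ (g + 1)) :=
          mul_le_mul_of_nonneg_left hq2 (by positivity)
      _ = (2 ^ g * N * G * G * g * (1 - t) ^ (g + 1)) * ((72 * e * 7.6) * (g * 7.6 ^ g)) := by ring
      _ ≤ (2 ^ g * N * G * G * g * (1 - t) ^ (g + 1)) * (1 / 20 * (60480 * g * 7.6 ^ g)) := by
          refine mul_le_mul_of_nonneg_left ?_ (by positivity)
          have h6 : 72 * e * 7.6 ≤ 3024 := by nlinarith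
          have h7 : (0 : ℝ) ≤ g * 7.6 ^ g := by positivity
          nlinarith
      _ ≤ (2 ^ g * N * G * G * g * (1 - t) ^ (g + 1)) * (1 / 20 * 8 ^ g) := by
          refine mul_le_mul_of_nonneg_left ?_ (by positivity)
          linarith
      _ = 8 ^ g * (1 / 40) * (N * G) * ((2 * (g : ℝ)) ^ (g + 1) * (1 - t) ^ (g + 1)) := by
          rw [e2]
          ring
  have hEpos : 0 < e ^ (g + 1) * e ^ g := by positivity
  refine le_of_mul_le_mul_right ?_ hEpos
  rw [h3N]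
  refine key.trans ?_
  have h4 : (1 - t) ^ (g + 1) ≥ 0 := pow_nonneg (by linarith) _
  calc 8 ^ g * (1 / 40) * (N * G) * ((2 * (g : ℝ)) ^ (g + 1) * (1 - t) ^ (g + 1)) ≤
      8 ^ g * (1 / 40) * ((e ^ (g + 1) * ((g + 1).factorial : ℝ)) * (e ^ g * (g.factorial : ℝ))) *
        (2 * (g : ℝ) - (g + 1) * t) ^ (g + 1) := by
        refine mul_le_mul (mul_le_mul_of_nonneg_left (mul_le_mul hf1 hf2 hGpos.le (by positivity))
          (by positivity)) ht2 (by positivity) (by positivity)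
    _ = _ := by ring

/-- The product of the lengths. -/
theorem prod_len2 {q : ℕ} (hq : 2 ^ 20 ≤ q) (g : ℕ) :
    (∏ j ∈ Finset.range g, (len2 (1 / 40) q g j : ℝ)) * (g.factorial : ℝ) ≤
      3 * ((1 / 40) ^ g * tri q g) := by
  have hqR : (2 : ℝ) ^ 20 ≤ q := by exact_mod_cast hq
  have hs : (1024 : ℝ) ≤ Real.sqrt q := by
    rw [Real.le_sqrt' (by norm_num)]
    norm_num at hqR ⊢
    exact hqR
  have h1 : ∀ j ∈ Finset.range g, (len2 (1 / 40) q g j : ℝ) * ((g - j : ℕ) : ℝ) ≤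
      (1 / 40 * Real.sqrt q ^ (g - j)) * Real.exp ((1 / 2) ^ (g - j)) := by
    intro j hj
    have hj' := Finset.mem_range.1 hj
    set k := g - j with hk
    have hk0 : 0 < k := by omega
    have hkR : (0 : ℝ) < k := by exact_mod_cast hk0
    have h2 : (len2 (1 / 40) q g j : ℝ) ≤ 1 / 40 * Real.sqrt q ^ k / k + 1 := by
      unfold len2
      push_cast
      have := Nat.floor_le (show (0 : ℝ) ≤ 1 / 40 * Real.sqrt q ^ (g - j) / ((g - j : ℕ) : ℝ) by
        positivity)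
      linarith
    have h3 : (40 : ℝ) * k ≤ (512 : ℝ) ^ k := by
      have h4 : ∀ m : ℕ, (40 : ℝ) * (m + 1) ≤ (512 : ℝ) ^ (m + 1) := by
        intro m
        induction m with
        | zero => norm_num
        | succ m ih =>
          rw [pow_succ]
          push_cast at ih ⊢
          have : (0 : ℝ) ≤ m := Nat.cast_nonneg m
          nlinarith
      have h5 := h4 (k - 1)
      rw [Nat.sub_add_cancel hk0, Nat.cast_sub hk0] at h5
      simpa using h5
    have h4 : (512 : ℝ) ^ k * 2 ^ k ≤ Real.sqrt q ^ k := by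
      rw [← mul_pow]
      exact pow_le_pow_left₀ (by norm_num) (by linarith) k
    have h5 : (k : ℝ) ≤ 1 / 40 * Real.sqrt q ^ k * (1 / 2) ^ k := by
      have h6 : (0 : ℝ) < 2 ^ k := by positivity
      have h7 : (40 : ℝ) * k * 2 ^ k ≤ Real.sqrt q ^ k :=
        (mul_le_mul_of_nonneg_right h3 h6.le).trans h4
      rw [_root_.one_div_pow, mul_one_div, le_div_iff₀ h6]
      linarith
    have h6 : (1 / 2 : ℝ) ^ k + 1 ≤ Real.exp ((1 / 2) ^ k) := Real.add_one_le_exp _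
    have h7 : (0 : ℝ) ≤ 1 / 40 * Real.sqrt q ^ k := by positivity
    calc (len2 (1 / 40) q g j : ℝ) * k ≤ (1 / 40 * Real.sqrt q ^ k / k + 1) * k :=
          mul_le_mul_of_nonneg_right h2 hkR.le
      _ = 1 / 40 * Real.sqrt q ^ k + k := by field_simp
      _ ≤ 1 / 40 * Real.sqrt q ^ k * ((1 / 2) ^ k + 1) := by linarith
      _ ≤ _ := mul_le_mul_of_nonneg_left h6 h7
  have h2 : ∏ j ∈ Finset.range g, ((len2 (1 / 40) q g j : ℝ) * ((g - j : ℕ) : ℝ)) ≤
      ∏ j ∈ Finset.range g, ((1 / 40 * Real.sqrt q ^ (g - j)) * Real.exp ((1 / 2) ^ (g - j))) :=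
    Finset.prod_le_prod (fun j _ => by positivity) h1
  rw [Finset.prod_mul_distrib, Size.prod_sub, Finset.prod_mul_distrib, Finset.prod_mul_distrib,
    Finset.prod_const, Finset.card_range, ← Real.exp_sum] at h2
  refine h2.trans ?_
  have h3 : ∑ x ∈ Finset.range g, (1 / 2 : ℝ) ^ (g - x) ≤ 1 := by
    have h4 := Finset.sum_range_reflect (fun j => (1 / 2 : ℝ) ^ (j + 1)) g
    have h5 : ∑ j ∈ Finset.range g, (1 / 2 : ℝ) ^ (g - 1 - j + 1) =
        ∑ x ∈ Finset.range g, (1 / 2 : ℝ) ^ (g - x) := by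
      refine Finset.sum_congr rfl fun j hj => ?_
      have := Finset.mem_range.1 hj
      congr 1
      omega
    rw [← h5, h4]
    have h7 : ∀ m : ℕ, ∑ j ∈ Finset.range m, (1 / 2 : ℝ) ^ (j + 1) = 1 - (1 / 2) ^ m := by
      intro m
      induction m with
      | zero => simp
      | succ m ih =>
        rw [Finset.sum_range_succ, ih, pow_succ]
        ring
    rw [h7]
    have : (0 : ℝ) < (1 / 2) ^ g := by positivity
    linarith
  have h4 : Real.exp (∑ x ∈ Finset.range g, (1 / 2 : ℝ) ^ (g - x)) ≤ 3 := by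
    have h5 := Real.exp_le_exp.2 h3
    have h6 := Real.exp_one_lt_d9
    linarith
  have h5 : (0 : ℝ) ≤ (1 / 40) ^ g * tri q g := by
    have := tri_pos (q := q) (by omega) g
    positivity
  calc ((1 / 40) ^ g * ∏ i ∈ Finset.range g, Real.sqrt q ^ (g - i)) *
      Real.exp (∑ x ∈ Finset.range g, (1 / 2 : ℝ) ^ (g - x)) =
      Real.exp (∑ x ∈ Finset.range g, (1 / 2 : ℝ) ^ (g - x)) * ((1 / 40) ^ g * tri q g) := by
        unfold tri
        ring
    _ ≤ _ := mul_le_mul_of_nonneg_right h4 h5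

/-- **The cover is small.** -/
theorem cover_small : ∀ᶠ g : ℕ in atTop, ∀ q : ℕ, IsPrimePow q → 2 ^ 20 ≤ q →
    ∃ (Λ₀ : Finset (Fin (g + 1) → ℤ)) (𝒯 : (Fin (g + 1) → ℤ) → ℕ → Finset ℤ[X]),
      (∀ z ∈ Λ₀, Chain (len2 (1 / 40) q g) g (𝒯 z)) ∧ (∀ z ∈ Λ₀, 𝒯 z g = {1}) ∧
      (∀ h ∈ realWeil q g, ∃ z ∈ Λ₀, h ∈ 𝒯 z 0) ∧
      ((Pool.Agent.J4H9.Pair.uni Λ₀ 𝒯).card : ℝ) ≤ 8 ^ g * ((ordinaryWeilPolys q g).ncard : ℝ) := by
  filter_upwards [numeric, eventually_ge_atTop 2] with g hnum hg2 q hq hq20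
  have hq0 : 0 < q := hq.pos
  have hg0 : 0 < g := by omega
  have hgR : (2 : ℝ) ≤ g := by exact_mod_cast hg2
  have hqR : (2 : ℝ) ^ 20 ≤ q := by exact_mod_cast hq20
  have hs : (1024 : ℝ) ≤ Real.sqrt q := by
    rw [Real.le_sqrt' (by norm_num)]
    norm_num at hqR ⊢
    exact hqR
  obtain ⟨Λ₀, 𝒯, hc, htop, hcov, hcard⟩ := cover_cells hq0 hg2 (w := 1 / 40) (by norm_num)
  refine ⟨Λ₀, 𝒯, hc, htop, hcov, ?_⟩
  -- the error of the rounding
  set t : ℝ := ∑ k : Fin g, 1 / Real.sqrt q ^ (g - (k : ℕ)) with ht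
  have ht0 : 0 ≤ t := Finset.sum_nonneg fun k _ => by positivity
  have ht1 : t ≤ 1 / 1000 := by
    have h1 : t ≤ ∑ k : Fin g, (1 / 1024 : ℝ) ^ (g - (k : ℕ)) := by
      refine Finset.sum_le_sum fun k _ => ?_
      rw [_root_.one_div_pow]
      refine div_le_div_of_nonneg_left (by norm_num) (by positivity) ?_
      exact pow_le_pow_left₀ (by norm_num) hs _
    refine h1.trans ?_
    rw [Fin.sum_univ_eq_sum_range (fun k => (1 / 1024 : ℝ) ^ (g - k)) g]
    have h4 := Finset.sum_range_reflect (fun j => (1 / 1024 : ℝ) ^ (j + 1)) g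
    have h5 : ∑ j ∈ Finset.range g, (1 / 1024 : ℝ) ^ (g - 1 - j + 1) =
        ∑ x ∈ Finset.range g, (1 / 1024 : ℝ) ^ (g - x) := by
      refine Finset.sum_congr rfl fun j hj => ?_
      have := Finset.mem_range.1 hj
      congr 1
      omega
    rw [← h5, h4]
    have h7 : ∀ m : ℕ, ∑ j ∈ Finset.range m, (1 / 1024 : ℝ) ^ (j + 1) =
        1 / 1023 * (1 - (1 / 1024) ^ m) := by
      intro m
      induction m with
      | zero => simp
      | succ m ih =>
        rw [Finset.sum_range_succ, ih, pow_succ]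
        ring
    rw [h7]
    have : (0 : ℝ) < (1 / 1024) ^ g := by positivity
    nlinarith
  have ht2 : ((g : ℝ) + 1) * t < 2 * g := by nlinarith
  have hlow := Cone.ordinary_lower hq hg0 ht0 (le_of_eq ht.symm) ht2
  set O : ℝ := ((ordinaryWeilPolys q g).ncard : ℝ) with hO
  have hO0 : 0 ≤ O := Nat.cast_nonneg _
  set DA : ℝ := |(matA (g + 1)).det| with hDA
  set DB : ℝ := |(matB g).det| with hDB
  have hDB0 : 0 < DB := det_pos hg0
  have hf1 : (0 : ℝ) < ((g + 1).factorial : ℝ) := by exact_mod_cast (g + 1).factorial_pos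
  have hf2 : (0 : ℝ) < (g.factorial : ℝ) := by exact_mod_cast g.factorial_pos
  have hDA0 : 0 < DA := by
    rw [hDA, abs_det_matA (Nat.succ_pos g)]
    positivity
  -- comparison of the determinants
  have hD : DB * ((g + 1).factorial : ℝ) ≤ 3 * 2 ^ g * DA * ((g : ℝ) + 1) ^ (g + 1) := by
    have h1 : Real.sqrt (4 * ((g : ℝ) ^ 2 * ((g : ℝ) / 2) ^ (g - 1))) ≤
        3 * Real.sqrt (((g + 1 : ℕ) : ℝ) * (((g + 1 : ℕ) : ℝ) / 2) ^ (g + 1 - 1)) := by
      have h2 : (3 : ℝ) = Real.sqrt 9 := by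
        rw [show (9 : ℝ) = 3 ^ 2 by norm_num, Real.sqrt_sq (by norm_num)]
      rw [h2, ← Real.sqrt_mul (by norm_num)]
      refine Real.sqrt_le_sqrt ?_
      rw [Nat.add_sub_cancel]
      have h3 : (((g + 1 : ℕ) : ℝ) / 2) ^ g = (((g + 1 : ℕ) : ℝ) / 2) ^ (g - 1) *
          (((g + 1 : ℕ) : ℝ) / 2) := by
        rw [← pow_succ, Nat.sub_add_cancel hg0]
      rw [h3]
      push_cast
      have h4 : ((g : ℝ) / 2) ^ (g - 1) ≤ (((g : ℝ) + 1) / 2) ^ (g - 1) :=
        pow_le_pow_left₀ (by positivity) (by linarith) _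
      have h5 : (0 : ℝ) ≤ (((g : ℝ) + 1) / 2) ^ (g - 1) := by positivity
      calc 4 * ((g : ℝ) ^ 2 * ((g : ℝ) / 2) ^ (g - 1)) ≤
          4 * ((g : ℝ) ^ 2 * (((g : ℝ) + 1) / 2) ^ (g - 1)) := by
            refine mul_le_mul_of_nonneg_left (mul_le_mul_of_nonneg_left h4 (by positivity))
              (by norm_num)
        _ = (4 * (g : ℝ) ^ 2) * (((g : ℝ) + 1) / 2) ^ (g - 1) := by ring
        _ ≤ (9 / 2 * ((g : ℝ) + 1) ^ 2) * (((g : ℝ) + 1) / 2) ^ (g - 1) :=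
            mul_le_mul_of_nonneg_right (by nlinarith) h5
        _ = _ := by ring
    rw [hDB, hDA, abs_det_matB hg0, abs_det_matA (Nat.succ_pos g)]
    calc 2 ^ g * Real.sqrt (4 * ((g : ℝ) ^ 2 * ((g : ℝ) / 2) ^ (g - 1))) * ((g + 1).factorial : ℝ) ≤
        2 ^ g * (3 * Real.sqrt (((g + 1 : ℕ) : ℝ) * (((g + 1 : ℕ) : ℝ) / 2) ^ (g + 1 - 1))) *
          ((g + 1).factorial : ℝ) := by
          refine mul_le_mul_of_nonneg_right (mul_le_mul_of_nonneg_left h1 (by positivity)) hf1.le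
      _ = _ := by
          push_cast
          field_simp
  -- the lower bound
  have h3 : tri q g * (2 * (g : ℝ) - (g + 1) * t) ^ (g + 1) ≤
      2 * O * DB * ((g + 1).factorial : ℝ) := by
    have h4 : tri q g * (DB⁻¹ * ((2 * (g : ℝ) - (g + 1) * t) ^ (g + 1) /
        ((g + 1).factorial : ℝ))) * (DB * ((g + 1).factorial : ℝ)) ≤
        2 * O * (DB * ((g + 1).factorial : ℝ)) :=
      mul_le_mul_of_nonneg_right hlow (by positivity)
    calc tri q g * (2 * (g : ℝ) - (g + 1) * t) ^ (g + 1) =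
        tri q g * (DB⁻¹ * ((2 * (g : ℝ) - (g + 1) * t) ^ (g + 1) /
        ((g + 1).factorial : ℝ))) * (DB * ((g + 1).factorial : ℝ)) := by field_simp
      _ ≤ _ := h4
      _ = _ := by ring
  -- the number of the cells
  have h1 : (Λ₀.card : ℝ) * (1 / 40) ^ (g + 1) * DA * ((g + 1).factorial : ℝ) ≤
      (((g : ℝ) + 1) ^ 2 * (1 + 1 / 40)) ^ (g + 1) := by
    rw [le_div_iff₀ hf1] at hcard
    exact hcard
  -- the product of the lengths
  set P : ℝ := ∏ j ∈ Finset.range g, (len2 (1 / 40) q g j : ℝ) with hP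
  have hP0 : 0 ≤ P := Finset.prod_nonneg fun j _ => Nat.cast_nonneg _
  have h2 : P * (g.factorial : ℝ) ≤ 3 * ((1 / 40) ^ g * tri q g) := prod_len2 hq20 g
  have hcardU : ((Pool.Agent.J4H9.Pair.uni Λ₀ 𝒯).card : ℝ) = (Λ₀.card : ℝ) * P := by
    rw [Finset.card_sigma]
    have h4 : ∀ z ∈ Λ₀, (𝒯 z 0).card = ∏ j ∈ Finset.range g, len2 (1 / 40) q g j := by
      intro z hz
      have h5 := (hc z hz).card g le_rfl
      rw [htop z hz, Finset.card_singleton, mul_one] at h5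
      exact h5
    rw [Finset.sum_congr rfl h4, Finset.sum_const, smul_eq_mul, hP]
    push_cast
    rfl
  rw [hcardU]
  have hn := hnum t ht0 ht1
  have htri : 0 < tri q g := tri_pos hq0 g
  have hT : 0 < 2 * (g : ℝ) - (g + 1) * t := by linarith
  set T : ℝ := (2 * (g : ℝ) - (g + 1) * t) ^ (g + 1) with hTdef
  have hT0 : 0 < T := by positivity
  set c : ℝ := (Λ₀.card : ℝ) with hcdef
  have hc0 : 0 ≤ c := Nat.cast_nonneg _
  set f1 : ℝ := ((g + 1).factorial : ℝ) with hf1def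
  set f2 : ℝ := (g.factorial : ℝ) with hf2def
  set A : ℝ := (((g : ℝ) + 1) ^ 2 * (1 + 1 / 40)) ^ (g + 1) with hA
  have hA0 : 0 < A := by positivity
  have hpos : 0 < (1 / 40 : ℝ) ^ (g + 1) * DA * f1 * f2 * T := by positivity
  refine le_of_mul_le_mul_right ?_ hpos
  have hAeq : A * ((g : ℝ) + 1) ^ (g + 1) =
      ((g : ℝ) + 1) ^ (3 * (g + 1)) * (1 + 1 / 40) ^ (g + 1) := by
    rw [hA, mul_pow, ← pow_mul, mul_right_comm, ← pow_add]
    congr 2
    ring
  calc c * P * ((1 / 40 : ℝ) ^ (g + 1) * DA * f1 * f2 * T) =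
      (c * (1 / 40) ^ (g + 1) * DA * f1) * ((P * f2) * T) := by ring
    _ ≤ A * ((3 * ((1 / 40) ^ g * tri q g)) * T) := by
        refine mul_le_mul h1 (mul_le_mul_of_nonneg_right h2 hT0.le) (by positivity) hA0.le
    _ = (3 * A * (1 / 40) ^ g) * (tri q g * T) := by ring
    _ ≤ (3 * A * (1 / 40) ^ g) * (2 * O * DB * f1) :=
        mul_le_mul_of_nonneg_left h3 (by positivity)
    _ = (6 * A * (1 / 40) ^ g * O) * (DB * f1) := by ring
    _ ≤ (6 * A * (1 / 40) ^ g * O) * (3 * 2 ^ g * DA * ((g : ℝ) + 1) ^ (g + 1)) :=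
        mul_le_mul_of_nonneg_left hD (by positivity)
    _ = (O * (1 / 40) ^ g * DA) * (18 * 2 ^ g * (A * ((g : ℝ) + 1) ^ (g + 1))) := by ring
    _ = (O * (1 / 40) ^ g * DA) * (18 * 2 ^ g * ((g : ℝ) + 1) ^ (3 * (g + 1)) *
          (1 + 1 / 40) ^ (g + 1)) := by
        rw [hAeq]
        ring
    _ ≤ (O * (1 / 40) ^ g * DA) * (8 ^ g * (1 / 40) * f1 * f2 * T) :=
        mul_le_mul_of_nonneg_left hn (by positivity)
    _ = 8 ^ g * O * ((1 / 40 : ℝ) ^ (g + 1) * DA * f1 * f2 * T) := by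
        rw [pow_succ (1 / 40 : ℝ) g]
        ring

end Pool.Agent.J4H9.Asym
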