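import Mathlib
import Pool.Agent.H204R3.GP.Defs
import Pool.Agent.H204R3.GP.FrobG
import Pool.Agent.J4H9.Alg

/-!
# Abelian varieties over number fields with a Frobenius element with the factorisation patterns
-/

set_option autoImplicit false

namespace Pool.Agent.J4H9.NF

open Polynomial Module Pool.Agent.W521.Frob Pool.Agent.J4H9.Gal Pool.Agent.J4H9.NoRel
  Pool.Agent.J4H9.Fr Pool.Agent.J4H9.Alg Pool.Agent.H204R3.GP Pool.Agent.H204R3.SP
  TensorProduct

theorem ne_of_pat {q r g l : ℕ} (hl : l.Prime) {h h' : ℤ[X]} (hm : h.Monic)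
    (hdeg : h.natDegree ≤ g) (hgr : g < 2 * r) (h1 : PatE q r h l) (h2 : PatF (r + 1) h' l) :
    h ≠ h' := by
  have : Fact l.Prime := ⟨hl⟩
  rintro rfl
  obtain ⟨u, p, a, hu, hud, hudvd, -⟩ := h1
  obtain ⟨v, hv, hvd, hvdvd⟩ := h2
  have hcop : IsCoprime u v := by
    rw [hu.coprime_iff_not_dvd]
    intro h3
    have h4 := hu.associated_of_dvd hv h3
    have h5 := natDegree_eq_of_degree_eq (degree_eq_degree_of_associated h4)
    omega
  have h3 := hcop.mul_dvd hudvd hvdvd
  have h4 := natDegree_le_of_dvd h3 (hm.map _).ne_zero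
  rw [natDegree_mul hu.ne_zero hv.ne_zero, hud, hvd, hm.natDegree_map] at h4
  omega

section

variable {I : Type} {q r g : ℕ} {h : I → ℤ[X]} (hm : ∀ i, (h i).Monic)
  (hdeg : ∀ i, (h i).natDegree ≤ g) (hgr : g < 2 * r) (hgood : GoodFam q r h)

include hm hdeg hgr hgood

theorem unique_index {θ : ℂ} {i i' : I} (h1 : aeval θ (h i) = 0) (h2 : aeval θ (h i') = 0) :
    i = i' := by
  by_contra hne
  obtain ⟨hirr, -, hEF⟩ := hgood
  obtain ⟨l, hl, -, -, hp, hp'⟩ := hEF i i' (fun h => hne h.symm)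
  refine ne_of_pat hl (hm i) (hdeg i) hgr hp hp' ?_
  have key : ∀ i, aeval θ (h i) = 0 → (h i).map (Int.castRingHom ℚ) = minpoly ℚ θ := by
    intro i hi
    refine minpoly.eq_of_irreducible_of_monic (hirr i) ?_ ((hm i).map _)
    have h3 : aeval θ ((h i).map (Int.castRingHom ℚ)) = aeval θ (h i) := by
      rw [aeval_def, eval₂_map, aeval_def]
      congr 1
    rw [h3]
    exact hi
  have h3 := (key i h1).trans (key i' h2).symm
  exact Polynomial.map_injective _ (Int.castRingHom ℚ).injective_int h3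

variable [Fintype I] (hq : q ≠ 0) (hr : r.Prime) (hr2 : r ≠ 2)

include hq hr hr2

theorem card_roots {L : Type} [Field L] [NumberField L] (j : L →+* ℂ)
    (hL : ∀ i, ∀ z : ℂ, aeval z (weil q (h i)) = 0 → ∃ x : L, j x = z) :
    ∑ i, 2 * (h i).natDegree ≤ Nat.card (Rt q h L) := by
  classical
  have : Finite (Rt q h L) := finite_Rt hm
  have hqC : (q : ℂ) ≠ 0 := by exact_mod_cast hq
  have hdown : ∀ (f : ℤ[X]) (x : L), aeval (j x) f = 0 → aeval x f = 0 := by
    intro f x hx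
    apply j.injective
    have h2 := Polynomial.hom_eval₂ f (algebraMap ℤ L) j x
    rw [RingHom.ext_int (j.comp (algebraMap ℤ L)) (algebraMap ℤ ℂ)] at h2
    rw [map_zero]
    exact h2.trans hx
  let S : I → Finset ℂ := fun i => ((h i).map (algebraMap ℤ ℂ)).roots.toFinset
  have hS : ∀ i, (S i).card = (h i).natDegree := by
    intro i
    have h1 : (h i).map (algebraMap ℤ ℂ) =
        ((h i).map (Int.castRingHom ℚ)).map (algebraMap ℚ ℂ) := by
      rw [Polynomial.map_map]
      congr 1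
    have h2 : ((h i).map (algebraMap ℤ ℂ)).Separable := by
      rw [h1]
      exact (hgood.1 i).separable.map
    simp only [S]
    rw [Multiset.toFinset_card_of_nodup (nodup_roots h2),
      ← (IsAlgClosed.splits _).natDegree_eq_card_roots, (hm i).natDegree_map]
  have hSr : ∀ i, ∀ θ ∈ S i, aeval θ (h i) = 0 := by
    intro i θ hθ
    have h1 := (mem_roots'.1 (Multiset.mem_toFinset.1 hθ)).2
    rw [IsRoot.def, eval_map] at h1
    exact h1
  have hex : ∀ y : Σ i, S i, ∃ x : Rt q h L, j (vl x) + (q : ℂ) / j (vl x) = (y.2 : ℂ) := by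
    rintro ⟨i, θ, hθ⟩
    obtain ⟨α, hα⟩ : ∃ α : ℂ, α ^ 2 + q = θ * α := by
      obtain ⟨s, hs⟩ := IsAlgClosed.exists_pow_nat_eq (θ ^ 2 - 4 * q) two_pos
      refine ⟨(θ + s) / 2, ?_⟩
      linear_combination (1 / 4 : ℂ) * hs
    have hα0 : α ≠ 0 := by
      rintro rfl
      rw [zero_pow two_ne_zero, zero_add, mul_zero] at hα
      exact hqC hα
    have hroot : aeval α (weil q (h i)) = 0 := by
      rw [aeval_weil q (h i) α θ hα, hSr i θ hθ, mul_zero]
    obtain ⟨x, rfl⟩ := hL i α hroot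
    refine ⟨⟨x, i, hdown _ x hroot⟩, ?_⟩
    change j x + (q : ℂ) / j x = θ
    rw [eq_comm, ← mul_left_inj' hα0, ← hα]
    field_simp
  choose x hx using hex
  have hxne : ∀ y : Σ i, S i, vl (x y) ≠ vl (bar hq hm (x y)) := by
    intro y h0
    obtain ⟨i, hi⟩ := (x y).2
    have h2 : aeval (j (vl (x y))) (weil q (h i)) = 0 := by
      have h3 := Polynomial.hom_eval₂ (weil q (h i)) (algebraMap ℤ L) j (vl (x y))
      rw [RingHom.ext_int (j.comp (algebraMap ℤ L)) (algebraMap ℤ ℂ)] at h3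
      have h4 : eval₂ (algebraMap ℤ L) (vl (x y)) (weil q (h i)) = 0 := hi
      rw [h4, map_zero] at h3
      exact h3.symm
    refine ne_conj_C hq hm hdeg hr hr2 hgr hgood (j (vl (x y))) ⟨i, h2⟩ ?_
    have h5 : vl (bar hq hm (x y)) = (q : L) / vl (x y) := rfl
    rw [h5] at h0
    conv_lhs => rw [h0]
    rw [map_div₀, map_natCast]
  have hbar : ∀ y : Σ i, S i, j (vl (bar hq hm (x y))) + (q : ℂ) / j (vl (bar hq hm (x y))) =
      (y.2 : ℂ) := by
    intro y
    have h5 : vl (bar hq hm (x y)) = (q : L) / vl (x y) := rfl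
    rw [h5, map_div₀, map_natCast, div_div_cancel₀ hqC, add_comm]
    exact hx y
  let f : (Σ i, S i) × Bool → Rt q h L := fun y => if y.2 then x y.1 else bar hq hm (x y.1)
  have hfθ : ∀ y, j (vl (f y)) + (q : ℂ) / j (vl (f y)) = (y.1.2 : ℂ) := by
    rintro ⟨y, b⟩
    cases b
    · exact hbar y
    · exact hx y
  have hinj : Function.Injective f := by
    rintro ⟨⟨i, θ, hθ⟩, b⟩ ⟨⟨i', θ', hθ'⟩, b'⟩ heq
    have h1 := hfθ ⟨⟨i, θ, hθ⟩, b⟩
    have h2 := hfθ ⟨⟨i', θ', hθ'⟩, b'⟩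
    rw [heq, h2] at h1
    have h3 : θ' = θ := h1
    subst h3
    have h4 : i = i' := unique_index hm hdeg hgr hgood (hSr i _ hθ) (hSr i' _ hθ')
    subst h4
    congr 1
    cases b <;> cases b'
    · rfl
    · exact absurd (congrArg vl heq).symm (hxne _)
    · exact absurd (congrArg vl heq) (hxne _)
    · rfl
  have h1 := Nat.card_le_card_of_injective f hinj
  refine le_trans (le_of_eq ?_) h1
  rw [Nat.card_prod, Nat.card_sigma, Nat.card_eq_fintype_card (α := Bool), Fintype.card_bool,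
    ← Finset.mul_sum, mul_comm]
  congr 1
  refine Finset.sum_congr rfl fun i _ => ?_
  rw [Nat.card_eq_fintype_card, Fintype.card_coe, hS]

end

/-- A basis of eigenvectors. -/
theorem exists_basis {R L Ω : Type*} [Fintype R] [Field L] [Field Ω] (jΩ : L →+* Ω) (v₀ : R → L)
    (hinj : Function.Injective v₀) {W : Type*} [AddCommGroup W] [Module Ω W]
    [FiniteDimensional Ω W] (T : Module.End Ω W) (P : ℤ[X]) (hPm : P.Monic)
    (hT : T.charpoly = P.map (Int.castRingHom Ω)) (hroot : ∀ x, aeval (v₀ x) P = 0)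
    (hcard : P.natDegree ≤ Fintype.card R) :
    ∃ e : Basis R Ω W, ∀ x, T (e x) = jΩ (v₀ x) • e x := by
  classical
  have h1 : ∀ x : R, T.HasEigenvalue (jΩ (v₀ x)) := by
    intro x
    rw [Module.End.hasEigenvalue_iff_isRoot_charpoly, hT, Polynomial.IsRoot, eval_map]
    have h2 := Polynomial.hom_eval₂ P (algebraMap ℤ L) jΩ (v₀ x)
    rw [RingHom.ext_int (jΩ.comp (algebraMap ℤ L)) (Int.castRingHom Ω)] at h2
    have h3 : eval₂ (algebraMap ℤ L) (v₀ x) P = 0 := hroot x
    rw [h3, map_zero] at h2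
    exact h2.symm
  choose v hv using fun x => (h1 x).exists_hasEigenvector
  have hinj' : Function.Injective (fun x : R => jΩ (v₀ x)) := jΩ.injective.comp hinj
  have hli := Module.End.eigenvectors_linearIndependent' T (fun x : R => jΩ (v₀ x)) hinj' v hv
  have hle : Fintype.card R ≤ finrank Ω W := hli.fintype_card_le_finrank
  have hfin : Fintype.card R = finrank Ω W := by
    refine le_antisymm hle ?_
    rw [← LinearMap.charpoly_natDegree T, hT, hPm.natDegree_map]
    exact hcard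
  by_cases hne : Nonempty R
  · refine ⟨basisOfLinearIndependentOfCardEqFinrank hli hfin, fun x => ?_⟩
    rw [coe_basisOfLinearIndependentOfCardEqFinrank]
    exact (hv x).apply_eq_smul
  · have hemp : IsEmpty R := not_nonempty_iff.1 hne
    have h0 : finrank Ω W = 0 := by rw [← hfin, Fintype.card_eq_zero_iff]; exact hemp
    have _ : Subsingleton W := finrank_zero_iff.1 h0
    exact ⟨Basis.empty W, fun x => hemp.elim x⟩

theorem card_filter_eq {R κ : Type*} [DecidableEq R] [Fintype κ] (I' : κ → R) (z : R) :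
    (Finset.univ.filter (fun l => I' l = z)).card =
      ((Finset.univ.toList : List κ).map I').count z := by
  rw [← Multiset.coe_count]
  have h6 : ((((Finset.univ.toList : List κ).map I') : List R) : Multiset R) =
      (Finset.univ : Finset κ).val.map I' := by
    rw [← Multiset.map_coe, Finset.coe_toList]
  rw [h6, Multiset.count_map]
  change _ = (Finset.univ.filter (fun l => z = I' l)).card
  congr 1
  ext l
  rw [Finset.mem_filter, Finset.mem_filter, eq_comm (a := z)]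

/-- **The Tate classes in the tensor powers.** -/
theorem tate_nf_mem {I : Type} [Fintype I] {q r g : ℕ} {h : I → ℤ[X]} (hq : q ≠ 0)
    (hm : ∀ i, (h i).Monic) (hdeg : ∀ i, (h i).natDegree ≤ g) (hr : r.Prime) (hr2 : r ≠ 2)
    (hgr : g < 2 * r) (hgood : GoodFam q r h)
    (hnorm : ∀ i, ∀ z : ℂ, aeval z (weil q (h i)) = 0 → ‖z‖ ^ 2 = q)
    {k : Type} [Field k] [CharZero k] {V : Type} [AddCommGroup V] [Module k V]
    [FiniteDimensional k V] {Γ : Type} [Group Γ] (ρ : Representation k Γ V) (χ : Γ →* k)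
    (ω : V →ₗ[k] V →ₗ[k] k) (halt : ∀ v, ω v v = 0) (hnd : ∀ u, (∀ v, ω v u = 0) → u = 0)
    (hωρ : ∀ s u v, ω (ρ s u) (ρ s v) = χ s * ω u v) (hss : FiniteIndexSemisimple ρ)
    (γ : Γ) (hχ : χ γ = q)
    (hγ : (ρ γ).charpoly = ∏ i, (weil q (h i)).map (Int.castRingHom k)) :
    ∀ (m : ℕ) (φ : MultilinearMap k (fun _ : Fin m × Fin 2 => V) k), IsTate ρ χ m φ →
      φ ∈ Submodule.span k (PT ρ χ m) := by
  classical
  obtain ⟨L, _, _, j, -, hL, htrans, hE, hEF⟩ :=
    field_data hq hm hdeg hr hr2 hgr hgood ∅ (by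
      intro y hy
      exact absurd hy (Finset.notMem_empty y))
  have hup : ∀ (f : ℤ[X]) (x : L), aeval x f = 0 → aeval (j x) f = 0 := by
    intro f x hx
    have h2 := Polynomial.hom_eval₂ f (algebraMap ℤ L) j x
    rw [RingHom.ext_int (j.comp (algebraMap ℤ L)) (algebraMap ℤ ℂ)] at h2
    have h3 : eval₂ (algebraMap ℤ L) x f = 0 := hx
    rw [h3, map_zero] at h2
    exact h2.symm
  have hfinR : Finite (Rt q h L) := finite_Rt hm
  let _ : Fintype (Rt q h L) := Fintype.ofFinite _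
  have hqL : (q : L) ≠ 0 := by exact_mod_cast hq
  have hvl0 : ∀ x : Rt q h L, vl x ≠ 0 := by
    intro x
    obtain ⟨i, hi⟩ := x.2
    exact root_ne_zero hq (hm i) hi
  have hvlbar : ∀ x : Rt q h L, vl (bar hq hm x) = (q : L) / vl x := fun x => rfl
  have hbarne : ∀ x : Rt q h L, bar hq hm x ≠ x := by
    intro x h0
    obtain ⟨i, hi⟩ := x.2
    refine ne_conj_C hq hm hdeg hr hr2 hgr hgood (j (vl x)) ⟨i, hup _ _ hi⟩ ?_
    have h1 : vl x = (q : L) / vl x := by
      conv_lhs => rw [← h0]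
      rfl
    conv_lhs => rw [h1]
    rw [map_div₀, map_natCast]
  obtain ⟨Ω, hΩ, ⟨jΩ⟩⟩ := exists_finite_ext k L
  have hanti : ∀ u v, ω u v = -ω v u := by
    intro u v
    have h1 := halt (u + v)
    simp only [map_add, LinearMap.add_apply, halt, zero_add, add_zero] at h1
    exact eq_neg_of_add_eq_zero_left (by rw [← h1]; ring)
  have hnd' : ∀ u, (∀ v, ω u v = 0) → u = 0 := by
    intro u hu
    apply hnd
    intro v
    rw [hanti, hu, neg_zero]
  have hss' : ∀ Δ : Subgroup Γ, Δ.FiniteIndex → SemiUnder (ρ '' (Δ : Set Γ)) := by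
    intro Δ hΔ U hU
    obtain ⟨U', h1, h2⟩ := hss Δ hΔ U (fun s hs u hu => hU _ ⟨s, hs, rfl⟩ u hu)
    refine ⟨U', ?_, h2⟩
    rintro _ ⟨s, hs, rfl⟩ u hu
    exact h1 s hs u hu
  let b := Module.finBasis k V
  let P : ℤ[X] := ∏ i, weil q (h i)
  have hPm : P.Monic := monic_prod_of_monic _ _ fun i _ => weil_monic q (hm i)
  have hTchar : (bcr ρ Ω γ).charpoly = P.map (Int.castRingHom Ω) := by
    change ((ρ γ).baseChange Ω).charpoly = _
    rw [LinearMap.charpoly_baseChange, hγ, Polynomial.map_prod, Polynomial.map_prod]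
    refine Finset.prod_congr rfl fun i _ => ?_
    rw [Polynomial.map_map]
    congr 1
  have hPdeg : P.natDegree ≤ Fintype.card (Rt q h L) := by
    have h1 : P.natDegree = ∑ i, 2 * (h i).natDegree := by
      rw [natDegree_prod_of_monic _ _ fun i _ => weil_monic q (hm i)]
      exact Finset.sum_congr rfl fun i _ => weil_natDegree q (hm i)
    rw [h1, ← Nat.card_eq_fintype_card]
    exact card_roots hm hdeg hgr hgood hq hr hr2 j hL
  obtain ⟨e, he⟩ := exists_basis (Ω := Ω) jΩ (vl : Rt q h L → L) vl_inj (bcr ρ Ω γ) P hPm hTchar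
    (fun x => by
      obtain ⟨i, hi⟩ := x.2
      have h1 : weil q (h i) ∣ P := Finset.dvd_prod_of_mem _ (Finset.mem_univ i)
      obtain ⟨w, hw⟩ := h1
      rw [hw, map_mul]
      have h2 : aeval (vl x) (weil q (h i)) = 0 := hi
      rw [h2, zero_mul]) hPdeg
  have hantiΩ : ∀ u v, bcb Ω ω u v = -bcb Ω ω v u := by
    have h1 : bcb Ω ω = -(bcb Ω ω).flip := by
      refine (b.baseChange Ω).ext fun i => (b.baseChange Ω).ext fun l => ?_
      rw [LinearMap.neg_apply, LinearMap.neg_apply, LinearMap.flip_apply, Basis.baseChange_apply,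
        Basis.baseChange_apply, bcb_one, bcb_one, hanti, map_neg]
    intro u v
    exact congrArg (fun F : (Ω ⊗[k] V) →ₗ[Ω] (Ω ⊗[k] V) →ₗ[Ω] Ω => F u v) h1
  have horth : ∀ x y : Rt q h L, y ≠ bar hq hm x → bcb Ω ω (e x) (e y) = 0 := by
    intro x y hxy
    by_contra h0
    apply hxy
    have h1 := bcb_inv ρ χ (Ω := Ω) ω hωρ γ (e x) (e y)
    rw [he, he, map_smul, map_smul, LinearMap.smul_apply, smul_eq_mul, smul_eq_mul, bcc_apply, hχ,
      ← mul_assoc] at h1
    have h2 := mul_right_cancel₀ h0 h1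
    have h3 : jΩ (vl y * vl x) = jΩ (q : L) := by
      simp only [map_mul, map_natCast] at h2 ⊢
      exact h2
    have h4 := jΩ.injective h3
    apply vl_inj
    rw [hvlbar, eq_div_iff (hvl0 x), h4]
  let jj : Rt q h L → Ω := fun x => bcb Ω ω (e x) (e (bar hq hm x))
  have hjj : ∀ x, jj (bar hq hm x) = -jj x := by
    intro x
    simp only [jj, Gal.bar_bar]
    exact hantiΩ _ _
  have hj0 : ∀ x, jj x ≠ 0 := by
    intro x h0
    apply e.ne_zero (bar hq hm x)
    apply bcb_nondeg b ω hnd hnd'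
    have h1 : (bcb Ω ω).flip (e (bar hq hm x)) = 0 := by
      refine e.ext fun y => ?_
      rw [LinearMap.flip_apply, LinearMap.zero_apply]
      by_cases hy : bar hq hm x = bar hq hm y
      · have h2 : y = x := by rw [← Gal.bar_bar hq hm y, ← hy, Gal.bar_bar]
        rw [h2]
        exact h0
      · exact horth _ _ hy
    intro v
    exact congrArg (fun F : (Ω ⊗[k] V) →ₗ[Ω] Ω => F v) h1
  have hω : ∀ x y, bcb Ω ω (e x) (e y) = JJ (bar hq hm) jj x y := by
    intro x y
    unfold JJ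
    by_cases hy : y = bar hq hm x
    · rw [if_pos hy, hy]
    · rw [if_neg hy, horth x y hy]
  have hbal : ∀ (m : ℕ) (φ : MultilinearMap Ω (fun _ : Fin m × Fin 2 => Ω ⊗[k] V) Ω),
      IsTate (bcr ρ Ω) (bcc χ Ω) m φ →
      ∀ I' : Fin m × Fin 2 → Rt q h L, φ (fun l => e (I' l)) ≠ 0 → ∀ y,
        (Finset.univ.filter (fun l => I' l = y)).card =
          (Finset.univ.filter (fun l => I' l = bar hq hm y)).card := by
    rintro m φ ⟨Δ, hΔ, hφ⟩ I' hI y
    obtain ⟨M, hM, -, hMΔ⟩ := Subgroup.exists_pow_mem_of_index_ne_zero hΔ.index_ne_zero γ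
    have h1 := hφ (γ ^ M) hMΔ (fun l => e (I' l))
    have h2 : ∀ (n : ℕ) (x : Rt q h L),
        bcr ρ Ω (γ ^ n) (e x) = (jΩ (vl x)) ^ n • e x := by
      intro n x
      induction n with
      | zero => rw [pow_zero, pow_zero, one_smul, map_one]; rfl
      | succ n ih =>
        rw [pow_succ, map_mul, pow_succ, Module.End.mul_apply, he]
        change bcr ρ Ω (γ ^ n) ((jΩ (vl x)) • e x) = _
        rw [map_smul, ih, smul_smul, mul_comm]
    simp only [h2] at h1
    rw [MultilinearMap.map_smul_univ, smul_eq_mul, map_pow, bcc_apply, hχ] at h1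
    have h3 := mul_right_cancel₀ hI h1
    have h4 : jΩ (∏ l, (vl (I' l)) ^ M) = jΩ ((q : L) ^ (m * M)) := by
      simp only [map_prod, map_pow, map_natCast] at h3 ⊢
      rw [h3, ← pow_mul]
      congr 1
      ring
    have h5 := jΩ.injective h4
    let T : List (Rt q h L) := (Finset.univ.toList : List (Fin m × Fin 2)).map I'
    have hTprod : (T.map vl).prod = ∏ l, vl (I' l) := by
      simp only [T, List.map_map]
      rw [Finset.prod_eq_multiset_prod, ← Finset.coe_toList, Multiset.map_coe, Multiset.prod_coe]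
      rfl
    have key := counts_Rt hq hm hdeg hr hr2 hgr htrans hE hEF j
      (fun i x hx => hnorm i _ (hup _ x hx)) (1 : L) (fun σ γ => by
        rw [smul_one, smul_one]) one_ne_zero T 1 m M one_pos hM (by
        rw [pow_one, mul_one, pow_one, hTprod, ← Finset.prod_pow, h5, pow_mul]) y
    have h6 := card_filter_eq I' y
    have h7 := card_filter_eq I' (bar hq hm y)
    rw [h6, h7]
    convert key
  intro m φ hφ
  refine tate_descentG (Ω := Ω) b ρ χ ?_ φ hφ
  intro φ' hφ'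
  refine tateG_mem e (Gal.bar_bar hq hm) hbarne hjj hj0 (bcb Ω ω) hω (bcr ρ Ω) (bcc χ Ω)
    (bcb_inv ρ χ ω hωρ) ?_ hbal φ' hφ'
  intro Δ hΔ U hU
  obtain ⟨P, hP1, hP2, hP3⟩ := exists_proj_baseChange (Ω := Ω) (ρ '' (Δ : Set Γ)) (hss' Δ hΔ) U
    (by
      rintro _ ⟨s, hs, rfl⟩ u hu
      exact hU s hs u hu)
  exact ⟨P, hP1, hP2, fun s hs v => hP3 _ ⟨s, hs, rfl⟩ v⟩

/-- **The Tate classes on the powers of an abelian variety over a number field.** -/
theorem tate_nf {I : Type} [Fintype I] {q r g : ℕ} {h : I → ℤ[X]} (hq : q ≠ 0)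
    (hm : ∀ i, (h i).Monic) (hdeg : ∀ i, (h i).natDegree ≤ g) (hr : r.Prime) (hr2 : r ≠ 2)
    (hgr : g < 2 * r) (hgood : GoodFam q r h)
    (hnorm : ∀ i, ∀ z : ℂ, aeval z (weil q (h i)) = 0 → ‖z‖ ^ 2 = q)
    {k : Type} [Field k] [CharZero k] {V : Type} [AddCommGroup V] [Module k V]
    [FiniteDimensional k V] {Γ : Type} [Group Γ] (ρ : Representation k Γ V) (χ : Γ →* k)
    (ω : V →ₗ[k] V →ₗ[k] k) (halt : ∀ v, ω v v = 0) (hnd : ∀ u, (∀ v, ω v u = 0) → u = 0)
    (hωρ : ∀ s u v, ω (ρ s u) (ρ s v) = χ s * ω u v) (hss : FiniteIndexSemisimple ρ)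
    (γ : Γ) (hχ : χ γ = q)
    (hγ : (ρ γ).charpoly = ∏ i, (weil q (h i)).map (Int.castRingHom k)) :
    TateGeneratedInDegreeTwo ρ χ := by
  have hmem := tate_nf_mem hq hm hdeg hr hr2 hgr hgood hnorm ρ χ ω halt hnd hωρ hss γ hχ hγ
  intro n m f hf
  obtain ⟨Δ, hΔ, hf⟩ := hf
  have h1 := altG_of_tate_mem ρ χ (n := n) (m := m) (hmem m) f Δ hΔ hf
  refine Submodule.span_mono ?_ h1
  rintro g' ⟨B, hB, hg⟩
  refine ⟨B, fun l => ?_, hg⟩
  obtain ⟨Δ', hΔ', h2⟩ := hB l
  refine ⟨Δ', hΔ', fun s hs v => ?_⟩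
  rw [pow_one]
  exact h2 s hs v

end Pool.Agent.J4H9.NF
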