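import Mathlib
import Pool.Agent.J4H9.NF

/-!
# The statements on abelian varieties over finite fields and over number fields
-/

set_option autoImplicit false

namespace Pool.Agent.J4H9.Stm

open Polynomial Pool.Agent.W521.Frob Pool.Agent.J4H9.Alg Pool.Agent.J4H9.NF
  Pool.Agent.H204R3.GP

/-- The Tate conjecture for all powers of all abelian varieties `A` over number fields (or finitely
generated fields of characteristic zero) such that the product of the `f i` is the characteristic
polynomial of the Frobenius element at one place of good reduction with a residue field of `q`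
elements. Here `V` is the rational Tate module of `A` with the action `ρ` of the Galois group, `ω` is
the Weil pairing of a polarization, `χ` is the cyclotomic character and `γ` the Frobenius element. -/
def TateOverNumberFields {I : Type} [Fintype I] (q : ℕ) (f : I → ℤ[X]) : Prop :=
  ∀ (ℓ : ℕ) [Fact ℓ.Prime] (V : Type) [AddCommGroup V] [Module ℚ_[ℓ] V]
    [FiniteDimensional ℚ_[ℓ] V] (Γ : Type) [Group Γ] (ρ : Representation ℚ_[ℓ] Γ V)
    (χ : Γ →* ℚ_[ℓ]) (ω : V →ₗ[ℚ_[ℓ]] V →ₗ[ℚ_[ℓ]] ℚ_[ℓ]),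
    (∀ v, ω v v = 0) → (∀ u, (∀ v, ω v u = 0) → u = 0) →
    (∀ s u v, ω (ρ s u) (ρ s v) = χ s * ω u v) → FiniteIndexSemisimple ρ →
    ∀ γ : Γ, χ γ = q → (ρ γ).charpoly = ∏ i, (f i).map (Int.castRingHom ℚ_[ℓ]) →
      TateGeneratedInDegreeTwo ρ χ

/-- The conjunction of the statements over finite fields and over number fields. -/
def Holds {I : Type} [Fintype I] (q b : ℕ) (f : I → ℤ[X]) : Prop :=
  TateForSmall q b f ∧ TateOverNumberFields q f

theorem holds_of_good {I : Type} [Fintype I] {q r g b : ℕ} {h : I → ℤ[X]} (hq : q ≠ 0)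
    (hm : ∀ i, (h i).Monic) (hdeg : ∀ i, (h i).natDegree ≤ g) (hr : r.Prime) (hr2 : r ≠ 2)
    (hgr : g < 2 * r) (hbr : b < r) (hgood : GoodFam q r h)
    (hnorm : ∀ i, ∀ z : ℂ, aeval z (weil q (h i)) = 0 → ‖z‖ ^ 2 = q) :
    Holds q b (fun i => weil q (h i)) := by
  refine ⟨tate_of_good hq hm hdeg hr hr2 hgr hbr hgood hnorm, ?_⟩
  intro ℓ _ V _ _ _ Γ _ ρ χ ω halt hnd hωρ hss γ hχ hγ
  exact tate_nf hq hm hdeg hr hr2 hgr hgood hnorm ρ χ ω halt hnd hωρ hss γ hχ hγ

end Pool.Agent.J4H9.Stm
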