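import Mathlib
import Pool.Agent.Helper112.LS
import Pool.Agent.J4H9.Pair

/-!
# The dual large sieve for functions on the residues modulo primes
-/

set_option autoImplicit false

namespace Pool.Agent.J4H9.LS1

open Finset Pool.Agent.Helper112 Pool.Agent.J4H9.Pair

theorem sum_zmod {E : Type*} [AddCommMonoid E] (l : ℕ) [NeZero l] (F : ZMod l → E) :
    ∑ x, F x = ∑ a ∈ range l, F (a : ZMod l) := by
  refine Finset.sum_nbij' (fun x => x.val) (fun a => (a : ZMod l)) ?_ ?_ ?_ ?_ ?_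
  · intro x _
    exact mem_range.2 x.val_lt
  · intro a _
    exact mem_univ _
  · intro x _
    exact ZMod.natCast_zmod_val x
  · intro a ha
    exact ZMod.val_cast_of_lt (mem_range.1 ha)
  · intro x _
    rw [ZMod.natCast_zmod_val]

theorem std_eq_ee (l : ℕ) [NeZero l] (a : ℕ) (b : ℤ) :
    (ZMod.stdAddChar ((a : ZMod l) * (b : ZMod l)) : ℂ) = ee (b * ((a : ℝ) / l)) := by
  have h1 : (a : ZMod l) * (b : ZMod l) = (((a : ℤ) * b : ℤ) : ZMod l) := by push_cast; ring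
  rw [h1, ZMod.stdAddChar_coe]
  unfold ee
  congr 1
  push_cast
  ring

/-- The Fourier coefficients. -/
noncomputable def fc (l : ℕ) [NeZero l] (u : ZMod l → ℝ) (a : ZMod l) : ℂ :=
  (l : ℂ)⁻¹ * ∑ m, (u m : ℂ) * ZMod.stdAddChar (-(a * m))

theorem sum_chi (l : ℕ) [NeZero l] (t : ZMod l) :
    ∑ ξ : ZMod l, (ZMod.stdAddChar (ξ * t) : ℂ) = if t = 0 then (l : ℂ) else 0 := by
  rw [AddChar.sum_mulShift t (ZMod.isPrimitive_stdAddChar l), ZMod.card]
  split_ifs <;> simp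

theorem inversion (l : ℕ) [NeZero l] (u : ZMod l → ℝ) (b : ZMod l) :
    (u b : ℂ) = ∑ a, fc l u a * ZMod.stdAddChar (a * b) := by
  have hl : (l : ℂ) ≠ 0 := by exact_mod_cast NeZero.ne l
  unfold fc
  have h1 : ∀ a : ZMod l, ((l : ℂ)⁻¹ * ∑ m, (u m : ℂ) * ZMod.stdAddChar (-(a * m))) *
      ZMod.stdAddChar (a * b) = (l : ℂ)⁻¹ * ∑ m, (u m : ℂ) * ZMod.stdAddChar (a * (b - m)) := by
    intro a
    rw [mul_assoc, sum_mul]
    congr 1
    refine sum_congr rfl fun m _ => ?_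
    rw [mul_assoc, ← AddChar.map_add_eq_mul]
    congr 2
    ring
  rw [sum_congr rfl fun a _ => h1 a, ← mul_sum, sum_comm]
  have h2 : ∀ m : ZMod l, ∑ a : ZMod l, (u m : ℂ) * ZMod.stdAddChar (a * (b - m)) =
      if m = b then (u m : ℂ) * l else 0 := by
    intro m
    rw [← mul_sum, sum_chi]
    by_cases h : m = b
    · rw [if_pos h, if_pos (by rw [h, sub_self])]
    · rw [if_neg h, if_neg (fun h3 => h (sub_eq_zero.1 h3).symm), mul_zero]
  rw [sum_congr rfl fun m _ => h2 m, sum_ite_eq' univ b, if_pos (mem_univ _)]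
  field_simp

theorem normsq_sum' {ι : Type*} (s : Finset ι) (f : ι → ℂ) :
    ((‖∑ i ∈ s, f i‖ ^ 2 : ℝ) : ℂ) = ∑ i ∈ s, ∑ j ∈ s, f i * (starRingEnd ℂ) (f j) := by
  rw [← Complex.normSq_eq_norm_sq, Complex.normSq_eq_conj_mul_self, mul_comm, map_sum,
    sum_mul_sum]

theorem parseval (l : ℕ) [NeZero l] (u : ZMod l → ℝ) :
    ∑ a, ‖fc l u a‖ ^ 2 = (∑ m, u m ^ 2) / l := by
  have hl : (l : ℂ) ≠ 0 := by exact_mod_cast NeZero.ne l
  have h1 : ∀ a : ZMod l, ((‖fc l u a‖ ^ 2 : ℝ) : ℂ) = (l : ℂ)⁻¹ ^ 2 *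
      ∑ m, ∑ m', ((u m : ℂ) * u m') * ZMod.stdAddChar (a * (m' - m)) := by
    intro a
    unfold fc
    rw [norm_mul, mul_pow]
    push_cast
    rw [norm_inv, Complex.norm_natCast]
    have h2 := normsq_sum' univ (fun m : ZMod l => (u m : ℂ) * ZMod.stdAddChar (-(a * m)))
    push_cast at h2 ⊢
    rw [h2]
    congr 1
    refine sum_congr rfl fun m _ => sum_congr rfl fun m' _ => ?_
    rw [map_mul (starRingEnd ℂ), Complex.conj_ofReal, ← AddChar.map_neg_eq_conj, neg_neg]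
    have h3 : (ZMod.stdAddChar (a * (m' - m)) : ℂ) =
        ZMod.stdAddChar (-(a * m)) * ZMod.stdAddChar (a * m') := by
      rw [← AddChar.map_add_eq_mul]
      congr 1
      ring
    rw [h3]
    ring
  have h2 : ((∑ a, ‖fc l u a‖ ^ 2 : ℝ) : ℂ) = (((∑ m, u m ^ 2) / l : ℝ) : ℂ) := by
    rw [Complex.ofReal_sum, sum_congr rfl fun a _ => h1 a, ← mul_sum, sum_comm]
    have h3 : ∀ m : ZMod l, ∑ a : ZMod l, ∑ m', ((u m : ℂ) * u m') *
        ZMod.stdAddChar (a * (m' - m)) = (l : ℂ) * (u m : ℂ) ^ 2 := by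
      intro m
      rw [sum_comm]
      have h4 : ∀ m' : ZMod l, ∑ a : ZMod l, ((u m : ℂ) * u m') * ZMod.stdAddChar (a * (m' - m)) =
          if m' = m then (l : ℂ) * ((u m : ℂ) * u m') else 0 := by
        intro m'
        rw [← mul_sum, sum_chi]
        by_cases h : m' = m
        · rw [if_pos h, if_pos (by rw [h, sub_self])]
          ring
        · rw [if_neg h, if_neg (fun h3 => h (sub_eq_zero.1 h3)), mul_zero]
      rw [sum_congr rfl fun m' _ => h4 m', sum_ite_eq' univ m, if_pos (mem_univ _)]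
      ring
    rw [sum_congr rfl fun m _ => h3 m, ← mul_sum]
    push_cast
    field_simp
  exact_mod_cast h2

/-- **The dual large sieve.** -/
theorem dual_one (P : Finset Pr) (F : ℕ) (hF1 : 1 ≤ F) (hF : ∀ l ∈ P, (l : ℕ) ≤ F)
    (u : ∀ l : Pr, ZMod l → ℝ) (hu : ∀ l ∈ P, ∑ ρ, u l ρ = 0) (s : ℤ) (M : ℕ) :
    ∑ b ∈ Ico s (s + (M : ℤ)), (∑ l ∈ P, u l (b : ZMod l)) ^ 2 ≤
      6 * ((M : ℝ) + F ^ 2) * ∑ l ∈ P, (∑ ρ, u l ρ ^ 2) / (l : ℕ) := by
  classical
  let R : Finset (Σ _ : Pr, ℕ) := P.sigma fun l => Ico 1 (l : ℕ)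
  let ξ : (Σ _ : Pr, ℕ) → ℝ := fun x => (x.2 : ℝ) / (x.1 : ℕ)
  let c : (Σ _ : Pr, ℕ) → ℂ := fun x => fc (x.1 : ℕ) (u x.1) (x.2 : ZMod x.1) *
    ee (((s - 1 : ℤ) : ℝ) * ξ x)
  have hsep : ∀ r ∈ R, ∀ r' ∈ R, r ≠ r' → lsSep (F ^ 2) (ξ r' - ξ r) := by
    rintro ⟨l, a⟩ hr ⟨l', a'⟩ hr' hne
    rw [mem_sigma, mem_Ico] at hr hr'
    dsimp only at hr hr'
    refine ls_sep_of_int F l l' l.2.one_le l'.2.one_le (hF l hr.1) (hF l' hr'.1) a a' hr.2.2
      hr'.2.2 ?_ ?_ ?_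
    · rw [Nat.coprime_comm]
      exact (Nat.Prime.coprime_iff_not_dvd l.2).2 fun h => by
        have := Nat.le_of_dvd (by omega) h
        omega
    · rw [Nat.coprime_comm]
      exact (Nat.Prime.coprime_iff_not_dvd l'.2).2 fun h => by
        have := Nat.le_of_dvd (by omega) h
        omega
    · rintro ⟨h1, h2⟩
      apply hne
      have h3 : l = l' := Subtype.ext h1
      subst h3
      rw [h2]
  have key := ls_dual R ξ (F ^ 2) M (Nat.one_le_pow _ _ hF1) hsep c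
  have h1 : ∑ r ∈ R, ‖c r‖ ^ 2 ≤ ∑ l ∈ P, (∑ ρ, u l ρ ^ 2) / (l : ℕ) := by
    rw [sum_sigma]
    refine sum_le_sum fun l hl => ?_
    rw [← parseval, sum_zmod]
    refine le_trans (le_of_eq ?_) (sum_le_sum_of_subset_of_nonneg
      (s := Ico 1 (l : ℕ)) (fun a ha => mem_range.2 (mem_Ico.1 ha).2) fun a _ _ => by positivity)
    refine sum_congr rfl fun a _ => ?_
    simp only [c]
    rw [norm_mul, ls_norm_ee, mul_one]
  have h2 : ∀ n : ℕ, ((∑ l ∈ P, u l (((s - 1 + n : ℤ) : ℤ) : ZMod l) : ℝ) : ℂ) =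
      ∑ r ∈ R, c r * ee (n * ξ r) := by
    intro n
    rw [sum_sigma]
    push_cast
    refine sum_congr rfl fun l hl => ?_
    have e1 : (((s : ZMod l) - 1 + n)) = (((s - 1 + n : ℤ)) : ZMod l) := by push_cast; ring
    rw [e1, inversion, sum_zmod]
    have e2 : range (l : ℕ) = insert 0 (Ico 1 (l : ℕ)) := by
      ext a
      rw [mem_range, mem_insert, mem_Ico]
      have := l.2.pos
      omega
    rw [e2, sum_insert (by rw [mem_Ico]; omega)]
    have e3 : fc (l : ℕ) (u l) ((0 : ℕ) : ZMod l) = 0 := by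
      unfold fc
      have h3 := hu l hl
      simp only [Nat.cast_zero, zero_mul, neg_zero, AddChar.map_zero_eq_one, mul_one]
      rw [← Complex.ofReal_sum, h3, Complex.ofReal_zero, mul_zero]
    rw [e3, zero_mul, zero_add]
    refine sum_congr rfl fun a _ => ?_
    simp only [c, ξ]
    rw [std_eq_ee, mul_assoc, ← ls_ee_add]
    congr 2
    push_cast
    ring
  have h3 : ∑ b ∈ Ico s (s + (M : ℤ)), (∑ l ∈ P, u l (b : ZMod l)) ^ 2 =
      ∑ n ∈ Icc 1 M, ‖∑ r ∈ R, c r * ee (n * ξ r)‖ ^ 2 := by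
    symm
    refine Finset.sum_nbij' (fun n : ℕ => s - 1 + n) (fun b : ℤ => (b - s + 1).toNat) ?_ ?_ ?_ ?_ ?_
    · intro n hn
      rw [mem_Icc] at hn
      rw [mem_Ico]
      omega
    · intro b hb
      rw [mem_Ico] at hb
      rw [mem_Icc]
      omega
    · intro n hn
      rw [mem_Icc] at hn
      omega
    · intro b hb
      rw [mem_Ico] at hb
      omega
    · intro n _
      rw [← h2, Complex.norm_real, Real.norm_eq_abs, sq_abs]
  rw [h3]
  refine key.trans ?_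
  push_cast
  exact mul_le_mul_of_nonneg_left h1 (by positivity)

end Pool.Agent.J4H9.LS1
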