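import Mathlib
import Pool.Agent.J4H9.LS1

/-!
# The dual large sieve for chains
-/

set_option autoImplicit false

namespace Pool.Agent.J4H9.LS2

open Finset Pool.Agent.J4H9.Pair Pool.Agent.J4H9.Eqd Pool.Agent.J4H9.Ch Pool.Agent.J4H9.LS1

/-- A sum over an interval of a nonnegative function of the residue. -/
theorem sum_Ico_nonneg (m : ℕ) [NeZero m] (φ : ZMod m → ℝ) (hφ : ∀ r, 0 ≤ φ r) (s : ℤ) (M : ℕ) :
    ∑ a ∈ Ico s (s + (M : ℤ)), φ (a : ZMod m) ≤ ((M : ℝ) / m + 1) * ∑ r, φ r := by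
  have hm : 0 < m := Nat.pos_of_ne_zero (NeZero.ne m)
  have hmR : (0 : ℝ) < m := by exact_mod_cast hm
  have h0 : 0 ≤ ∑ r, φ r := sum_nonneg fun r _ => hφ r
  have h1 : Ico s (s + (M : ℤ)) ⊆ Ico s (s + (((M / m + 1) * m : ℕ) : ℤ)) := by
    intro a ha
    rw [mem_Ico] at ha ⊢
    have h2 : M < (M / m + 1) * m := by
      have := Nat.lt_div_mul_add (a := M) hm
      rw [add_mul, one_mul]
      exact this
    have h3 : (M : ℤ) < (((M / m + 1) * m : ℕ) : ℤ) := by exact_mod_cast h2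
    omega
  have h2 : ∑ a ∈ Ico s (s + (((M / m + 1) * m : ℕ) : ℤ)), φ (a : ZMod m) =
      ((M / m + 1 : ℕ) : ℝ) * ∑ r, φ r := by
    rw [← sum_fiberwise (Ico s (s + (((M / m + 1) * m : ℕ) : ℤ)))
      (fun a : ℤ => (a : ZMod m)) (fun a : ℤ => φ (a : ZMod m)), mul_sum]
    refine sum_congr rfl fun r _ => ?_
    rw [sum_congr rfl (fun x hx => by rw [(mem_filter.1 hx).2]), sum_const,
      Pool.Agent.W521.Turan.card_fiber_one m (M / m + 1) hm s r, nsmul_eq_mul]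
  refine (sum_le_sum_of_subset_of_nonneg h1 fun a _ _ => hφ _).trans ?_
  rw [h2]
  refine mul_le_mul_of_nonneg_right ?_ h0
  push_cast
  have h3 : ((M / m : ℕ) : ℝ) ≤ (M : ℝ) / m := Nat.cast_div_le
  linarith

section

variable {X K : Type*}

/-- The upper bound for nonnegative functions. -/
def UB {R : Type*} [Fintype R] (T : Finset X) (κ : X → K) (π : X → R) (B : ℝ) : Prop :=
  ∀ ψ : K → R → ℝ, (∀ k ρ, 0 ≤ ψ k ρ) →
    ∑ x ∈ T, ψ (κ x) (π x) ≤ B * ∑ x ∈ T, (∑ ρ, ψ (κ x) ρ) / Fintype.card R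

/-- The dual large sieve. -/
def LSv {ι : Type*} (P : Finset ι) {R : ι → Type*} [∀ l, Fintype (R l)] (T : Finset X) (κ : X → K)
    (π : ∀ l, X → R l) (D : ℝ) : Prop :=
  ∀ G : ∀ l, K → R l → ℝ, (∀ l ∈ P, ∀ k, ∑ ρ, G l k ρ = 0) →
    ∑ x ∈ T, (∑ l ∈ P, G l (κ x) (π l x)) ^ 2 ≤
      D * ∑ x ∈ T, ∑ l ∈ P, (∑ ρ, G l (κ x) ρ ^ 2) / Fintype.card (R l)

theorem UB.mono {R : Type*} [Fintype R] {T : Finset X} {κ : X → K} {π : X → R} {B B' : ℝ}
    (h : UB T κ π B) (hB : B ≤ B') : UB T κ π B' := by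
  intro ψ hψ
  refine (h ψ hψ).trans (mul_le_mul_of_nonneg_right hB ?_)
  exact sum_nonneg fun x _ => div_nonneg (sum_nonneg fun ρ _ => hψ _ _) (Nat.cast_nonneg _)

theorem LSv.mono {ι : Type*} {P : Finset ι} {R : ι → Type*} [∀ l, Fintype (R l)] {T : Finset X}
    {κ : X → K} {π : ∀ l, X → R l} {D D' : ℝ} (h : LSv P T κ π D) (hD : D ≤ D') :
    LSv P T κ π D' := by
  intro G hG
  refine (h G hG).trans (mul_le_mul_of_nonneg_right hD ?_)
  exact sum_nonneg fun x _ => sum_nonneg fun l _ =>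
    div_nonneg (sum_nonneg fun ρ _ => sq_nonneg _) (Nat.cast_nonneg _)

theorem UB.congr {R R' : Type*} [Fintype R] [Fintype R'] {T : Finset X} {κ : X → K} {π : X → R}
    {B : ℝ} (h : UB T κ π B) (e : R ≃ R') : UB T κ (fun x => e (π x)) B := by
  intro ψ hψ
  have h1 := h (fun k ρ => ψ k (e ρ)) (fun k ρ => hψ _ _)
  simp only [Equiv.sum_comp e] at h1
  rw [Fintype.card_congr e] at h1
  exact h1

theorem LSv.congr {ι : Type*} {P : Finset ι} {R R' : ι → Type*} [∀ l, Fintype (R l)]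
    [∀ l, Fintype (R' l)] {T : Finset X} {κ : X → K} {π : ∀ l, X → R l} {D : ℝ}
    (h : LSv P T κ π D) (e : ∀ l, R l ≃ R' l) : LSv P T κ (fun l x => e l (π l x)) D := by
  intro G hG
  have h1 := h (fun l k ρ => G l k (e l ρ)) (fun l hl k => by
    rw [Equiv.sum_comp (e l) (G l k)]
    exact hG l hl k)
  refine h1.trans (le_of_eq ?_)
  congr 1
  refine sum_congr rfl fun x _ => sum_congr rfl fun l _ => ?_
  rw [Equiv.sum_comp (e l) (fun ρ => G l (κ x) ρ ^ 2), Fintype.card_congr (e l)]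

theorem UB.sigma {R : Type*} [Fintype R] {Λ : Type*} {Λ₀ : Finset Λ} {T : Λ → Finset X}
    {κ : X → K} {π : X → R} {B : ℝ} (h : ∀ i ∈ Λ₀, UB (T i) κ π B) :
    UB (Λ₀.sigma T) (fun x => (x.1, κ x.2)) (fun x => π x.2) B := by
  intro ψ hψ
  rw [sum_sigma, sum_sigma, mul_sum]
  exact sum_le_sum fun i hi => h i hi (fun k => ψ (i, k)) (fun k ρ => hψ _ _)

theorem LSv.sigma {ι : Type*} {P : Finset ι} {R : ι → Type*} [∀ l, Fintype (R l)] {Λ : Type*}
    {Λ₀ : Finset Λ} {T : Λ → Finset X} {κ : X → K} {π : ∀ l, X → R l} {D : ℝ}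
    (h : ∀ i ∈ Λ₀, LSv P (T i) κ π D) :
    LSv P (Λ₀.sigma T) (fun x => (x.1, κ x.2)) (fun l x => π l x.2) D := by
  intro G hG
  rw [sum_sigma, sum_sigma, mul_sum]
  exact sum_le_sum fun i hi => h i hi (fun l k => G l (i, k)) (fun l hl k => hG l hl _)

theorem sq_split {x y N : ℝ} (hN : 0 < N) : (x + y) ^ 2 ≤ (1 + 1 / N) * x ^ 2 + (1 + N) * y ^ 2 := by
  have h1 : 0 ≤ (x / N - y) ^ 2 * N := by positivity
  have h2 : (x / N - y) ^ 2 * N = x ^ 2 / N - 2 * x * y + N * y ^ 2 := by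
    field_simp
    ring
  have h3 : (1 + 1 / N) * x ^ 2 = x ^ 2 + x ^ 2 / N := by ring
  rw [h3]
  nlinarith

/-- One more coordinate. -/
theorem UB.extend {X' : Type*} {R : Type*} [Fintype R] [Nonempty R] {T : Finset X} {κ : X → K}
    {π : X → R} {B : ℝ} (h : UB T κ π B) (m : ℕ) [NeZero m] (T' : Finset X') (p : X' → X)
    (a : X' → ℤ) (s : X → ℤ) (M : ℕ) (hM : 0 < M)
    (hsum : ∀ F : X → ℤ → ℝ, ∑ x ∈ T', F (p x) (a x) =
      ∑ x ∈ T, ∑ b ∈ Ico (s x) (s x + (M : ℤ)), F x b) :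
    UB T' (fun x => κ (p x)) (fun x => ((a x : ZMod m), π (p x))) (B * (1 + m / M)) := by
  intro ψ hψ
  have hm : (0 : ℝ) < m := by exact_mod_cast Nat.pos_of_ne_zero (NeZero.ne m)
  have hMR : (0 : ℝ) < M := by exact_mod_cast hM
  have hR : (0 : ℝ) < Fintype.card R := by exact_mod_cast Fintype.card_pos
  have h1 := hsum (fun x b => ψ (κ x) ((b : ZMod m), π x))
  have h2 := hsum (fun x _ => (∑ ρ, ψ (κ x) ρ) / Fintype.card (ZMod m × R))
  rw [h1, h2]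
  have h3 := h (fun k ρ => ∑ β : ZMod m, ψ k (β, ρ)) (fun k ρ => sum_nonneg fun β _ => hψ _ _)
  calc ∑ x ∈ T, ∑ b ∈ Ico (s x) (s x + (M : ℤ)), ψ (κ x) ((b : ZMod m), π x) ≤
      ∑ x ∈ T, ((M : ℝ) / m + 1) * ∑ β : ZMod m, ψ (κ x) (β, π x) :=
        sum_le_sum fun x _ => sum_Ico_nonneg m (fun β => ψ (κ x) (β, π x)) (fun β => hψ _ _) _ _
    _ = ((M : ℝ) / m + 1) * ∑ x ∈ T, ∑ β : ZMod m, ψ (κ x) (β, π x) := by rw [mul_sum]
    _ ≤ ((M : ℝ) / m + 1) * (B * ∑ x ∈ T, (∑ ρ, ∑ β : ZMod m, ψ (κ x) (β, ρ)) / Fintype.card R) :=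
        mul_le_mul_of_nonneg_left h3 (by positivity)
    _ = B * (1 + m / M) * ∑ x ∈ T, ∑ _b ∈ Ico (s x) (s x + (M : ℤ)),
        (∑ ρ, ψ (κ x) ρ) / Fintype.card (ZMod m × R) := by
        have h4 : ∀ x ∈ T, ∑ _b ∈ Ico (s x) (s x + (M : ℤ)),
            (∑ ρ, ψ (κ x) ρ) / (Fintype.card (ZMod m × R) : ℝ) =
            (M : ℝ) / m * ((∑ ρ, ∑ β : ZMod m, ψ (κ x) (β, ρ)) / Fintype.card R) := by
          intro x _
          rw [sum_const, Int.card_Ico, add_sub_cancel_left, Int.toNat_natCast, nsmul_eq_mul,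
            Fintype.card_prod, ZMod.card, Fintype.sum_prod_type, sum_comm]
          push_cast
          field_simp
        rw [sum_congr rfl h4, ← mul_sum]
        field_simp

end

section

variable {X K : Type*}

/-- One more coordinate. -/
theorem LSv.extend {X' : Type*} {P : Finset Pr} {R : Pr → Type*} [∀ l, Fintype (R l)]
    [∀ l, Nonempty (R l)] {T : Finset X} {κ : X → K} {π : ∀ l, X → R l} {D B : ℝ}
    (h : LSv P T κ π D) (hB : ∀ l ∈ P, UB T κ (π l) B) (F : ℕ) (hF1 : 1 ≤ F)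
    (hF : ∀ l ∈ P, (l : ℕ) ≤ F)
    (T' : Finset X') (p : X' → X) (a : X' → ℤ) (s : X → ℤ) (M : ℕ) (hM : 0 < M)
    (hMF : (F : ℝ) ^ 2 ≤ M) {N : ℝ} (hN : 0 < N)
    (hsum : ∀ F : X → ℤ → ℝ, ∑ x ∈ T', F (p x) (a x) =
      ∑ x ∈ T, ∑ b ∈ Ico (s x) (s x + (M : ℤ)), F x b) :
    LSv P T' (fun x => κ (p x)) (fun l x => ((a x : ZMod l), π l (p x)))
      (max ((1 + 1 / N) * D) (12 * (1 + N) * B)) := by
  intro G hG
  set D' := max ((1 + 1 / N) * D) (12 * (1 + N) * B) with hD'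
  have hMR : (0 : ℝ) < M := by exact_mod_cast hM
  have hl0 : ∀ l : Pr, (0 : ℝ) < ((l : ℕ) : ℝ) := fun l => by exact_mod_cast l.2.pos
  have hR : ∀ l, (0 : ℝ) < Fintype.card (R l) := fun l => by exact_mod_cast Fintype.card_pos
  let Gb : ∀ l : Pr, K → R l → ℝ := fun l k ρ => (∑ β : ZMod l, G l k (β, ρ)) / (l : ℕ)
  let Gp : ∀ l : Pr, K → R l → ZMod l → ℝ := fun l k ρ β => G l k (β, ρ) - Gb l k ρ
  have hGb : ∀ l ∈ P, ∀ k, ∑ ρ, Gb l k ρ = 0 := by
    intro l hl k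
    simp only [Gb]
    rw [← sum_div, sum_comm]
    have h3 := hG l hl k
    rw [Fintype.sum_prod_type] at h3
    rw [h3, zero_div]
  have hGp : ∀ (l : Pr) k ρ, ∑ β, Gp l k ρ β = 0 := by
    intro l k ρ
    simp only [Gp, Gb]
    rw [sum_sub_distrib, sum_const, card_univ, ZMod.card, nsmul_eq_mul]
    have := (hl0 l).ne'
    field_simp
    ring
  have horth : ∀ (l : Pr) k ρ, ∑ β, G l k (β, ρ) ^ 2 = (l : ℕ) * Gb l k ρ ^ 2 +
      ∑ β, Gp l k ρ β ^ 2 := by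
    intro l k ρ
    have h1 : ∀ β, G l k (β, ρ) ^ 2 = Gb l k ρ ^ 2 + 2 * Gb l k ρ * Gp l k ρ β +
        Gp l k ρ β ^ 2 := by
      intro β
      simp only [Gp]
      ring
    rw [sum_congr rfl fun β _ => h1 β, sum_add_distrib, sum_add_distrib, ← mul_sum, hGp, mul_zero,
      add_zero, sum_const, card_univ, ZMod.card, nsmul_eq_mul]
  have h1 := hsum (fun x b => (∑ l ∈ P, G l (κ x) ((b : ZMod l), π l x)) ^ 2)
  have h2 := hsum (fun x _ => ∑ l ∈ P, (∑ ρ, G l (κ x) ρ ^ 2) / Fintype.card (ZMod l × R l))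
  rw [h1, h2]
  -- the second part
  have h3 : ∀ x, ∑ b ∈ Ico (s x) (s x + (M : ℤ)), (∑ l ∈ P, Gp l (κ x) (π l x) (b : ZMod l)) ^ 2 ≤
      12 * M * ∑ l ∈ P, (∑ β, Gp l (κ x) (π l x) β ^ 2) / (l : ℕ) := by
    intro x
    have h4 := dual_one P F hF1 hF (fun l β => Gp l (κ x) (π l x) β) (fun l _ => hGp l _ _)
      (s x) M
    refine h4.trans (mul_le_mul_of_nonneg_right ?_ ?_)
    · nlinarith
    · exact sum_nonneg fun l _ => div_nonneg (sum_nonneg fun β _ => sq_nonneg _) (Nat.cast_nonneg _)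
  have h4 : ∑ x ∈ T, ∑ l ∈ P, (∑ β, Gp l (κ x) (π l x) β ^ 2) / ((l : ℕ) : ℝ) ≤
      B * ∑ x ∈ T, ∑ l ∈ P, (∑ ρ, (∑ β, Gp l (κ x) ρ β ^ 2) / ((l : ℕ) : ℝ)) /
        Fintype.card (R l) := by
    rw [sum_comm, sum_comm (s := T), mul_sum]
    refine sum_le_sum fun l hl => ?_
    exact hB l hl (fun k ρ => (∑ β, Gp l k ρ β ^ 2) / ((l : ℕ) : ℝ)) fun k ρ =>
      div_nonneg (sum_nonneg fun β _ => sq_nonneg _) (Nat.cast_nonneg _)
  have h5 := h Gb hGb
  have e1 : ∀ x, ∑ b ∈ Ico (s x) (s x + (M : ℤ)), (∑ l ∈ P, G l (κ x) ((b : ZMod l), π l x)) ^ 2 ≤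
      (1 + 1 / N) * (M * (∑ l ∈ P, Gb l (κ x) (π l x)) ^ 2) +
      (1 + N) * (12 * M * ∑ l ∈ P, (∑ β, Gp l (κ x) (π l x) β ^ 2) / (l : ℕ)) := by
    intro x
    calc ∑ b ∈ Ico (s x) (s x + (M : ℤ)), (∑ l ∈ P, G l (κ x) ((b : ZMod l), π l x)) ^ 2 ≤
        ∑ b ∈ Ico (s x) (s x + (M : ℤ)), ((1 + 1 / N) * (∑ l ∈ P, Gb l (κ x) (π l x)) ^ 2 +
          (1 + N) * (∑ l ∈ P, Gp l (κ x) (π l x) (b : ZMod l)) ^ 2) := by
          refine sum_le_sum fun b _ => ?_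
          have h6 : ∑ l ∈ P, G l (κ x) ((b : ZMod l), π l x) = ∑ l ∈ P, Gb l (κ x) (π l x) +
              ∑ l ∈ P, Gp l (κ x) (π l x) (b : ZMod l) := by
            rw [← sum_add_distrib]
            refine sum_congr rfl fun l _ => ?_
            simp only [Gp]
            ring
          rw [h6]
          exact sq_split hN
      _ = (1 + 1 / N) * (M * (∑ l ∈ P, Gb l (κ x) (π l x)) ^ 2) +
          (1 + N) * ∑ b ∈ Ico (s x) (s x + (M : ℤ)),
            (∑ l ∈ P, Gp l (κ x) (π l x) (b : ZMod l)) ^ 2 := by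
          rw [sum_add_distrib, sum_const, Int.card_Ico, add_sub_cancel_left, Int.toNat_natCast,
            nsmul_eq_mul, ← mul_sum]
          ring
      _ ≤ _ := by
          have := mul_le_mul_of_nonneg_left (h3 x) (show 0 ≤ 1 + N by linarith)
          linarith
  refine (sum_le_sum fun x _ => e1 x).trans ?_
  rw [sum_add_distrib, ← mul_sum, ← mul_sum, ← mul_sum, ← mul_sum]
  set U1 := ∑ x ∈ T, (∑ l ∈ P, Gb l (κ x) (π l x)) ^ 2
  set V1 := ∑ x ∈ T, ∑ l ∈ P, (∑ ρ, Gb l (κ x) ρ ^ 2) / (Fintype.card (R l) : ℝ) with hV1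
  set U2 := ∑ x ∈ T, ∑ l ∈ P, (∑ β, Gp l (κ x) (π l x) β ^ 2) / ((l : ℕ) : ℝ)
  set V2 := ∑ x ∈ T, ∑ l ∈ P, (∑ ρ, (∑ β, Gp l (κ x) ρ β ^ 2) / ((l : ℕ) : ℝ)) /
        (Fintype.card (R l) : ℝ) with hV2
  have hV10 : 0 ≤ V1 := sum_nonneg fun x _ => sum_nonneg fun l _ =>
    div_nonneg (sum_nonneg fun ρ _ => sq_nonneg _) (hR l).le
  have hV20 : 0 ≤ V2 := sum_nonneg fun x _ => sum_nonneg fun l _ =>
    div_nonneg (sum_nonneg fun ρ _ => div_nonneg (sum_nonneg fun β _ => sq_nonneg _)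
      (hl0 l).le) (hR l).le
  have e2 : ∑ x ∈ T, ∑ _b ∈ Ico (s x) (s x + (M : ℤ)),
      ∑ l ∈ P, (∑ ρ, G l (κ x) ρ ^ 2) / (Fintype.card (ZMod l × R l) : ℝ) = M * (V1 + V2) := by
    rw [hV1, hV2, ← sum_add_distrib, mul_sum]
    refine sum_congr rfl fun x _ => ?_
    rw [sum_const, Int.card_Ico, add_sub_cancel_left, Int.toNat_natCast, nsmul_eq_mul,
      ← sum_add_distrib]
    congr 1
    refine sum_congr rfl fun l _ => ?_
    rw [Fintype.card_prod, ZMod.card, Fintype.sum_prod_type, sum_comm,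
      sum_congr rfl fun ρ _ => horth l (κ x) ρ, sum_add_distrib, ← mul_sum, ← sum_div]
    have h6 := (hl0 l).ne'
    have h7 := (hR l).ne'
    push_cast
    field_simp
  rw [e2]
  have hN1 : 0 < 1 + 1 / N := by positivity
  calc (1 + 1 / N) * (M * U1) + (1 + N) * (12 * M * U2) ≤
      (1 + 1 / N) * (M * (D * V1)) + (1 + N) * (12 * M * (B * V2)) := by
        refine add_le_add ?_ ?_
        · exact mul_le_mul_of_nonneg_left (mul_le_mul_of_nonneg_left h5 hMR.le) hN1.le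
        · exact mul_le_mul_of_nonneg_left (mul_le_mul_of_nonneg_left h4 (by positivity))
            (by linarith)
    _ = M * (((1 + 1 / N) * D) * V1 + (12 * (1 + N) * B) * V2) := by ring
    _ ≤ M * (D' * V1 + D' * V2) := by
        refine mul_le_mul_of_nonneg_left (add_le_add ?_ ?_) hMR.le
        · exact mul_le_mul_of_nonneg_right (le_max_left _ _) hV10
        · exact mul_le_mul_of_nonneg_right (le_max_right _ _) hV20
    _ = _ := by ring

/-- Products. -/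
theorem LSv.prod {ι : Type*} {P : Finset ι} {X' K' : Type*} {R R' : ι → Type*}
    [∀ l, Fintype (R l)] [∀ l, Fintype (R' l)] [∀ l, Nonempty (R l)] [∀ l, Nonempty (R' l)]
    {T : Finset X} {κ : X → K} {π : ∀ l, X → R l} {D : ℝ} (h : LSv P T κ π D) (hD : 0 ≤ D)
    {T' : Finset X'} {κ' : X' → K'} {π' : ∀ l, X' → R' l} {D' B' : ℝ} (h' : LSv P T' κ' π' D')
    (hB' : ∀ l ∈ P, UB T' κ' (π' l) B') :
    LSv P (T ×ˢ T') (fun x => (κ x.1, κ' x.2)) (fun l x => (π l x.1, π' l x.2))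
      (2 * max D' (D * B')) := by
  intro G hG
  have hR : ∀ l, (0 : ℝ) < Fintype.card (R l) := fun l => by exact_mod_cast Fintype.card_pos
  have hR' : ∀ l, (0 : ℝ) < Fintype.card (R' l) := fun l => by exact_mod_cast Fintype.card_pos
  let Gb : ∀ l : ι, K × K' → R' l → ℝ := fun l k ρ' => (∑ ρ : R l, G l k (ρ, ρ')) / Fintype.card (R l)
  let Gp : ∀ l : ι, K × K' → R' l → R l → ℝ := fun l k ρ' ρ => G l k (ρ, ρ') - Gb l k ρ'
  have hGb : ∀ l ∈ P, ∀ k, ∑ ρ', Gb l k ρ' = 0 := by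
    intro l hl k
    simp only [Gb]
    rw [← sum_div, sum_comm]
    have h3 := hG l hl k
    rw [Fintype.sum_prod_type] at h3
    rw [h3, zero_div]
  have hGp : ∀ (l : ι) k ρ', ∑ ρ, Gp l k ρ' ρ = 0 := by
    intro l k ρ'
    simp only [Gp, Gb]
    rw [sum_sub_distrib, sum_const, card_univ, nsmul_eq_mul]
    have := (hR l).ne'
    field_simp
    ring
  have horth : ∀ (l : ι) k ρ', ∑ ρ, G l k (ρ, ρ') ^ 2 = Fintype.card (R l) * Gb l k ρ' ^ 2 +
      ∑ ρ, Gp l k ρ' ρ ^ 2 := by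
    intro l k ρ'
    have h1 : ∀ ρ, G l k (ρ, ρ') ^ 2 = Gb l k ρ' ^ 2 + 2 * Gb l k ρ' * Gp l k ρ' ρ +
        Gp l k ρ' ρ ^ 2 := by
      intro ρ
      simp only [Gp]
      ring
    rw [sum_congr rfl fun β _ => h1 β, sum_add_distrib, sum_add_distrib, ← mul_sum, hGp, mul_zero,
      add_zero, sum_const, card_univ, nsmul_eq_mul]
  set U1 := ∑ x ∈ T, ∑ x' ∈ T', (∑ l ∈ P, Gb l (κ x, κ' x') (π' l x')) ^ 2 with hU1
  set V1 := ∑ x ∈ T, ∑ x' ∈ T', ∑ l ∈ P, (∑ ρ', Gb l (κ x, κ' x') ρ' ^ 2) /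
    (Fintype.card (R' l) : ℝ) with hV1
  set U2 := ∑ x' ∈ T', ∑ x ∈ T, (∑ l ∈ P, Gp l (κ x, κ' x') (π' l x') (π l x)) ^ 2 with hU2
  set W2 := ∑ x' ∈ T', ∑ x ∈ T, ∑ l ∈ P, (∑ ρ, Gp l (κ x, κ' x') (π' l x') ρ ^ 2) /
    (Fintype.card (R l) : ℝ) with hW2
  set V2 := ∑ x ∈ T, ∑ x' ∈ T', ∑ l ∈ P, (∑ ρ', (∑ ρ, Gp l (κ x, κ' x') ρ' ρ ^ 2) /
    (Fintype.card (R l) : ℝ)) / (Fintype.card (R' l) : ℝ) with hV2
  have hV10 : 0 ≤ V1 := sum_nonneg fun x _ => sum_nonneg fun x' _ => sum_nonneg fun l _ =>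
    div_nonneg (sum_nonneg fun ρ _ => sq_nonneg _) (hR' l).le
  have hV20 : 0 ≤ V2 := sum_nonneg fun x _ => sum_nonneg fun x' _ => sum_nonneg fun l _ =>
    div_nonneg (sum_nonneg fun ρ' _ => div_nonneg (sum_nonneg fun ρ _ => sq_nonneg _)
      (hR l).le) (hR' l).le
  have e1 : ∑ x ∈ T ×ˢ T', (∑ l ∈ P, G l (κ x.1, κ' x.2) (π l x.1, π' l x.2)) ^ 2 ≤
      2 * U1 + 2 * U2 := by
    rw [sum_product, hU1, hU2, sum_comm (s := T') (t := T), mul_sum, mul_sum, ← sum_add_distrib]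
    refine sum_le_sum fun x _ => ?_
    rw [mul_sum, mul_sum, ← sum_add_distrib]
    refine sum_le_sum fun x' _ => ?_
    have h6 : ∑ l ∈ P, G l (κ x, κ' x') (π l x, π' l x') =
        ∑ l ∈ P, Gb l (κ x, κ' x') (π' l x') +
          ∑ l ∈ P, Gp l (κ x, κ' x') (π' l x') (π l x) := by
      rw [← sum_add_distrib]
      refine sum_congr rfl fun l _ => ?_
      simp only [Gp]
      ring
    dsimp only
    rw [h6]
    nlinarith [sq_nonneg (∑ l ∈ P, Gb l (κ x, κ' x') (π' l x') -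
          ∑ l ∈ P, Gp l (κ x, κ' x') (π' l x') (π l x))]
  have e2 : U1 ≤ D' * V1 := by
    rw [hU1, hV1, mul_sum]
    exact sum_le_sum fun x _ => h' (fun l k' ρ' => Gb l (κ x, k') ρ') (fun l hl k' => hGb l hl _)
  have e3 : U2 ≤ D * W2 := by
    rw [hU2, hW2, mul_sum]
    exact sum_le_sum fun x' _ => h (fun l k ρ => Gp l (k, κ' x') (π' l x') ρ)
      (fun l _ k => hGp l _ _)
  have e4 : W2 ≤ B' * V2 := by
    rw [hW2, hV2, sum_comm (s := T') (t := T), mul_sum]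
    refine sum_le_sum fun x _ => ?_
    rw [sum_comm, sum_comm (s := T') (t := P), mul_sum]
    refine sum_le_sum fun l hl => ?_
    exact hB' l hl (fun k' ρ' => (∑ ρ, Gp l (κ x, k') ρ' ρ ^ 2) / (Fintype.card (R l) : ℝ))
      fun k' ρ' => div_nonneg (sum_nonneg fun ρ _ => sq_nonneg _) (hR l).le
  have e5 : ∑ x ∈ T ×ˢ T', ∑ l ∈ P, (∑ ρ, G l (κ x.1, κ' x.2) ρ ^ 2) /
      (Fintype.card (R l × R' l) : ℝ) = V1 + V2 := by
    rw [sum_product, hV1, hV2, ← sum_add_distrib]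
    refine sum_congr rfl fun x _ => ?_
    rw [← sum_add_distrib]
    refine sum_congr rfl fun x' _ => ?_
    rw [← sum_add_distrib]
    refine sum_congr rfl fun l _ => ?_
    rw [Fintype.card_prod, Fintype.sum_prod_type, sum_comm,
      sum_congr rfl fun ρ' _ => horth l (κ x, κ' x') ρ', sum_add_distrib, ← mul_sum, ← sum_div]
    have h6 := (hR l).ne'
    have h7 := (hR' l).ne'
    push_cast
    field_simp
  rw [e5]
  refine e1.trans ?_
  have e6 : D * W2 ≤ D * (B' * V2) := mul_le_mul_of_nonneg_left e4 hD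
  have e7 : D' * V1 ≤ max D' (D * B') * V1 := mul_le_mul_of_nonneg_right (le_max_left _ _) hV10
  have e8 : (D * B') * V2 ≤ max D' (D * B') * V2 :=
    mul_le_mul_of_nonneg_right (le_max_right _ _) hV20
  nlinarith

open Classical in
/-- **The sieve.** -/
theorem sieve {ι : Type*} (P : Finset ι) (hne : P.Nonempty)
    (T : Finset X) (κ : X → K) (R : ι → Type*) [∀ l, Fintype (R l)] [∀ l, Nonempty (R l)]
    (π : ∀ l, X → R l) {D : ℝ} (hD : 0 ≤ D) (hls : LSv P T κ π D)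
    (Ω : ∀ l, K → Set (R l)) {c : ℝ} (hc : 0 < c)
    (hΩ : ∀ l ∈ P, ∀ x ∈ T, c * Fintype.card (R l) ≤ ((Ω l (κ x)).ncard : ℝ)) :
    ((T.filter (fun x => ∀ l ∈ P, π l x ∉ Ω l (κ x))).card : ℝ) ≤
      D / (c * P.card) * T.card := by
  have hPc : (0 : ℝ) < P.card := by exact_mod_cast hne.card_pos
  have hRpos : ∀ l, (0 : ℝ) < Fintype.card (R l) := fun l => by exact_mod_cast Fintype.card_pos
  let ω : ι → K → ℝ := fun l k => ((Ω l k).ncard : ℝ) / Fintype.card (R l)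
  let W : K → ℝ := fun k => ∑ l ∈ P, ω l k
  let a : ∀ l, K → R l → ℝ := fun l k ρ => ((if ρ ∈ Ω l k then 1 else 0) - ω l k) / Real.sqrt (W k)
  have hω : ∀ l k, 0 ≤ ω l k ∧ ω l k ≤ 1 := by
    intro l k
    refine ⟨div_nonneg (Nat.cast_nonneg _) (hRpos l).le, (div_le_one (hRpos l)).2 ?_⟩
    have h1 := Set.ncard_le_ncard (Set.subset_univ (Ω l k)) Set.finite_univ
    rw [Set.ncard_univ, Nat.card_eq_fintype_card] at h1
    exact_mod_cast h1
  have hωc : ∀ l ∈ P, ∀ x ∈ T, c ≤ ω l (κ x) := by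
    intro l hl x hx
    exact (le_div_iff₀ (hRpos l)).2 (hΩ l hl x hx)
  have hW : ∀ x ∈ T, c * P.card ≤ W (κ x) := by
    intro x hx
    have h1 := Finset.card_nsmul_le_sum P (fun l => ω l (κ x)) c fun l hl => hωc l hl x hx
    rw [nsmul_eq_mul, mul_comm] at h1
    exact h1
  have hcount : ∀ l k, ∑ ρ : R l, (if ρ ∈ Ω l k then (1 : ℝ) else 0) = Fintype.card (R l) * ω l k := by
    intro l k
    rw [Finset.sum_boole]
    have h1 : ((Finset.univ.filter (fun ρ => ρ ∈ Ω l k)).card : ℝ) = ((Ω l k).ncard : ℝ) := by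
      rw [← Set.ncard_coe_finset]
      congr 2
      ext ρ
      simp
    rw [h1]
    simp only [ω]
    have := (hRpos l).ne'
    field_simp
  have ha0 : ∀ l ∈ P, ∀ k, ∑ ρ, a l k ρ = 0 := by
    intro l _ k
    simp only [a]
    rw [← sum_div, sum_sub_distrib, hcount, sum_const, card_univ, nsmul_eq_mul, sub_self, zero_div]
  have key := hls a ha0
  have hleft : ∀ x ∈ T.filter (fun x => ∀ l ∈ P, π l x ∉ Ω l (κ x)),
      c * P.card ≤ (∑ l ∈ P, a l (κ x) (π l x)) ^ 2 := by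
    intro x hx
    obtain ⟨hx1, hx2⟩ := mem_filter.1 hx
    have h1 : ∑ l ∈ P, a l (κ x) (π l x) = - W (κ x) / Real.sqrt (W (κ x)) := by
      simp only [a, W]
      rw [← sum_div]
      congr 1
      rw [← sum_neg_distrib]
      refine sum_congr rfl fun l hl => ?_
      rw [if_neg (hx2 l hl), zero_sub]
    have hW0 : 0 < W (κ x) := lt_of_lt_of_le (by positivity) (hW x hx1)
    rw [h1, div_pow, neg_sq, Real.sq_sqrt hW0.le, sq, mul_div_assoc, div_self hW0.ne', mul_one]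
    exact hW x hx1
  have hright : ∀ x ∈ T, ∑ l ∈ P, (∑ ρ, a l (κ x) ρ ^ 2) / (Fintype.card (R l) : ℝ) ≤ 1 := by
    intro x hx
    have hW0 : 0 < W (κ x) := lt_of_lt_of_le (by positivity) (hW x hx)
    have h1 : ∀ l ∈ P, (∑ ρ, a l (κ x) ρ ^ 2) / (Fintype.card (R l) : ℝ) ≤ ω l (κ x) / W (κ x) := by
      intro l _
      have h2 : ∑ ρ, a l (κ x) ρ ^ 2 = (Fintype.card (R l) * (ω l (κ x) - ω l (κ x) ^ 2)) /
          W (κ x) := by
        have h3 : ∀ ρ, a l (κ x) ρ ^ 2 = ((1 - 2 * ω l (κ x)) * (if ρ ∈ Ω l (κ x) then (1 : ℝ) else 0)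
            + ω l (κ x) ^ 2) / W (κ x) := by
          intro ρ
          simp only [a]
          rw [div_pow, Real.sq_sqrt hW0.le]
          congr 1
          split_ifs <;> ring
        rw [sum_congr rfl fun ρ _ => h3 ρ, ← sum_div, sum_add_distrib, ← mul_sum, hcount, sum_const,
          card_univ, nsmul_eq_mul]
        congr 1
        ring
      rw [h2, div_div, div_le_div_iff₀ (mul_pos hW0 (hRpos l)) hW0]
      have h4 := sq_nonneg (ω l (κ x))
      have h5 := mul_nonneg (mul_nonneg (hRpos l).le h4) hW0.le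
      nlinarith
    refine (sum_le_sum h1).trans (le_of_eq ?_)
    rw [← sum_div]
    exact div_self hW0.ne'
  have h1 : ((T.filter (fun x => ∀ l ∈ P, π l x ∉ Ω l (κ x))).card : ℝ) * (c * P.card) ≤
      D * T.card := by
    calc ((T.filter (fun x => ∀ l ∈ P, π l x ∉ Ω l (κ x))).card : ℝ) * (c * P.card) ≤
        ∑ x ∈ T.filter (fun x => ∀ l ∈ P, π l x ∉ Ω l (κ x)), (∑ l ∈ P, a l (κ x) (π l x)) ^ 2 := by
          have := Finset.card_nsmul_le_sum _ _ _ hleft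
          rw [nsmul_eq_mul] at this
          exact this
      _ ≤ ∑ x ∈ T, (∑ l ∈ P, a l (κ x) (π l x)) ^ 2 :=
          sum_le_sum_of_subset_of_nonneg (filter_subset _ _) fun x _ _ => sq_nonneg _
      _ ≤ D * ∑ x ∈ T, ∑ l ∈ P, (∑ ρ, a l (κ x) ρ ^ 2) / (Fintype.card (R l) : ℝ) := key
      _ ≤ D * T.card := by
          refine mul_le_mul_of_nonneg_left ?_ hD
          have := Finset.sum_le_card_nsmul _ _ _ hright
          rw [nsmul_eq_mul, mul_one] at this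
          exact this
  rw [div_mul_eq_mul_div, le_div_iff₀ (by positivity)]
  exact h1

end

end Pool.Agent.J4H9.LS2
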