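import Mathlib
import Pool.Agent.J4H9.LS2

/-!
# The dual large sieve for the residues of the lowest coefficients in a chain
-/

set_option autoImplicit false

namespace Pool.Agent.J4H9.LS3

open Polynomial Pool.Agent.J4H9.Pair Pool.Agent.J4H9.Eqd Pool.Agent.J4H9.Ch Pool.Agent.J4H9.LS1
  Pool.Agent.J4H9.LS2

variable {M : ℕ → ℕ} {n : ℕ} {𝒯 : ℕ → Finset ℤ[X]}

theorem consEquiv_low (i m : ℕ) : (low (i + 1) m : ℤ[X] → Fin (i + 1) → ZMod m) =
    fun x => (Fin.consEquiv fun _ => ZMod m) ((x.coeff 0 : ZMod m), low i m x.divX) := by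
  funext h k
  refine Fin.cases ?_ (fun k => ?_) k
  · simp [low]
  · simp only [low, Fin.consEquiv_apply, Fin.cons_succ, Fin.val_succ, coeff_divX]

theorem chain_UB (hc : Chain M n 𝒯) (l : ℕ) [NeZero l] (i j : ℕ) (hij : j + i = n) :
    UB (𝒯 j) (fun h => divX^[i] h) (low i l) (∏ k ∈ Finset.Ico j n, (1 + (l : ℝ) / M k)) := by
  induction i generalizing j with
  | zero =>
    intro ψ _
    have h1 : Finset.Ico j n = ∅ := by
      rw [Finset.Ico_eq_empty_iff]
      omega
    rw [h1, Finset.prod_empty, one_mul]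
    refine le_of_eq (Finset.sum_congr rfl fun x _ => ?_)
    rw [Fintype.sum_unique, Fintype.card_unique, Nat.cast_one, div_one]
    congr 1
    exact Subsingleton.elim _ _
  | succ i ih =>
    have hj : j < n := by omega
    obtain ⟨s, hs⟩ := hc.sum j hj
    have h1 := (ih (j + 1) (by omega)).extend l (𝒯 j) divX (fun h => h.coeff 0) s (M j)
      (hc.pos j hj) hs
    have h2 := h1.congr (Fin.consEquiv (fun _ : Fin (i + 1) => ZMod l))
    refine UB.mono (B := (∏ k ∈ Finset.Ico (j + 1) n, (1 + (l : ℝ) / M k)) * (1 + l / M j)) ?_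
      (le_of_eq ?_)
    · rw [consEquiv_low]
      exact h2
    · rw [Finset.prod_eq_prod_Ico_succ_bot hj, mul_comm]

theorem chain_LSv (hc : Chain M n 𝒯) (P : Finset Pr) (F : ℕ) (hF1 : 1 ≤ F)
    (hF : ∀ l ∈ P, (l : ℕ) ≤ F) (hM : ∀ k < n, (F : ℝ) ^ 2 ≤ M k) {B N : ℝ}
    (hB : ∀ j ≤ n, ∀ l ∈ P, ∏ k ∈ Finset.Ico j n, (1 + ((l : ℕ) : ℝ) / M k) ≤ B) (hB0 : 0 ≤ B)
    (hN : 0 < N) (i j : ℕ) (hij : j + i = n) :
    LSv P (R := fun l : Pr => Fin i → ZMod l) (𝒯 j) (fun h => divX^[i] h)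
      (fun l => low i l) ((1 + 1 / N) ^ i * (12 * (1 + N) * B)) := by
  have hN1 : 0 < 1 + 1 / N := by positivity
  induction i generalizing j with
  | zero =>
    intro G hG
    have h3 : ∀ l ∈ P, ∀ (k : ℤ[X]) (ρ : Fin 0 → ZMod l), G l k ρ = 0 := by
      intro l hl k ρ
      have h4 := hG l hl k
      rw [Fintype.sum_unique] at h4
      rw [← h4]
      congr 1
      exact Subsingleton.elim _ _
    rw [Finset.sum_eq_zero fun x _ => by
      rw [Finset.sum_eq_zero fun l hl => h3 l hl _ _]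
      ring]
    refine mul_nonneg (by positivity) (Finset.sum_nonneg fun x _ => Finset.sum_nonneg fun l _ =>
      div_nonneg (Finset.sum_nonneg fun ρ _ => sq_nonneg _) (Nat.cast_nonneg _))
  | succ i ih =>
    have hj : j < n := by omega
    obtain ⟨s, hs⟩ := hc.sum j hj
    have hub : ∀ l ∈ P, UB (𝒯 (j + 1)) (fun h => divX^[i] h) (low i (l : ℕ)) B := fun l hl =>
      (chain_UB hc (l : ℕ) i (j + 1) (by omega)).mono (hB (j + 1) (by omega) l hl)
    have h1 := (ih (j + 1) (by omega)).extend hub F hF1 hF (𝒯 j) divX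
      (fun h => h.coeff 0) s (M j) (hc.pos j hj) (hM j hj) hN hs
    have h2 := h1.congr (fun l : Pr => Fin.consEquiv (fun _ : Fin (i + 1) => ZMod l))
    refine LSv.mono (D := max ((1 + 1 / N) * ((1 + 1 / N) ^ i * (12 * (1 + N) * B)))
      (12 * (1 + N) * B)) ?_ ?_
    · have e : (fun l : Pr => (low (i + 1) (l : ℕ) : ℤ[X] → Fin (i + 1) → ZMod l)) =
          fun (l : Pr) (x : ℤ[X]) => (Fin.consEquiv fun _ => ZMod (l : ℕ))
            ((x.coeff 0 : ZMod (l : ℕ)), low i (l : ℕ) x.divX) := by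
        funext l
        rw [consEquiv_low]
      rw [e]
      exact h2
    · refine max_le (le_of_eq (by ring)) ?_
      have h3 : 1 ≤ (1 + 1 / N) ^ (i + 1) := one_le_pow₀ (by
        have : 0 ≤ 1 / N := by positivity
        linarith)
      have h4 : 0 ≤ 12 * (1 + N) * B := by positivity
      nlinarith

/-- **The dual large sieve in a chain.** -/
theorem chain_bounds (hc : Chain M n 𝒯) (hn : 0 < n) (P : Finset Pr) (F : ℕ) (hF1 : 1 ≤ F)
    (hF : ∀ l ∈ P, (l : ℕ) ≤ F) (hM : ∑ k ∈ Finset.range n, (F : ℝ) ^ 2 / M k ≤ 1) :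
    (∀ l ∈ P, UB (𝒯 0) (fun h => divX^[n] h) (low n (l : ℕ)) 3) ∧
    LSv P (R := fun l : Pr => Fin n → ZMod l) (𝒯 0) (fun h => divX^[n] h)
      (fun l => low n l) (108 * (1 + n)) := by
  have hF1R : (1 : ℝ) ≤ F := by exact_mod_cast hF1
  have hMpos : ∀ k < n, (0 : ℝ) < M k := fun k hk => by exact_mod_cast hc.pos k hk
  have hexp : Real.exp 1 ≤ 3 := by
    have := Real.exp_one_lt_d9
    linarith
  have hM' : ∀ k < n, (F : ℝ) ^ 2 ≤ M k := by
    intro k hk
    have h1 : (F : ℝ) ^ 2 / M k ≤ 1 := by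
      refine le_trans ?_ hM
      exact Finset.single_le_sum (f := fun k => (F : ℝ) ^ 2 / M k) (fun k hk => by positivity)
        (Finset.mem_range.2 hk)
    rwa [div_le_one (hMpos k hk)] at h1
  have hB : ∀ j ≤ n, ∀ l ∈ P, ∏ k ∈ Finset.Ico j n, (1 + ((l : ℕ) : ℝ) / M k) ≤ 3 := by
    intro j _ l hl
    have hl1 : (((l : Pr) : ℕ) : ℝ) ≤ F := by exact_mod_cast hF l hl
    have hl0 : (0 : ℝ) ≤ ((l : Pr) : ℕ) := Nat.cast_nonneg _
    have h2 : (((l : Pr) : ℕ) : ℝ) ≤ (F : ℝ) ^ 2 := by nlinarith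
    calc ∏ k ∈ Finset.Ico j n, (1 + ((l : ℕ) : ℝ) / M k) ≤
        ∏ k ∈ Finset.Ico j n, Real.exp ((F : ℝ) ^ 2 / M k) := by
          refine Finset.prod_le_prod (fun k _ => by positivity) fun k _ => ?_
          refine le_trans ?_ (Real.add_one_le_exp _)
          rw [add_comm]
          have := div_le_div_of_nonneg_right h2 (Nat.cast_nonneg (α := ℝ) (M k))
          linarith
      _ = Real.exp (∑ k ∈ Finset.Ico j n, (F : ℝ) ^ 2 / M k) := (Real.exp_sum _ _).symm
      _ ≤ Real.exp 1 := by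
          refine Real.exp_le_exp.2 (le_trans ?_ hM)
          refine Finset.sum_le_sum_of_subset_of_nonneg ?_ fun k _ _ => by positivity
          intro k hk
          rw [Finset.mem_Ico] at hk
          exact Finset.mem_range.2 hk.2
      _ ≤ 3 := hexp
  have hnR : (0 : ℝ) < n := by exact_mod_cast hn
  refine ⟨fun l hl => ?_, ?_⟩
  · refine (chain_UB hc (l : ℕ) n 0 (by omega)).mono ?_
    exact hB 0 (Nat.zero_le _) l hl
  · refine (chain_LSv hc P F hF1 hF hM' hB (by norm_num) hnR n 0 (by omega)).mono ?_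
    have h1 : (1 + 1 / (n : ℝ)) ^ n ≤ 3 := by
      calc (1 + 1 / (n : ℝ)) ^ n ≤ (Real.exp (1 / n)) ^ n := by
            refine pow_le_pow_left₀ (by positivity) ?_ n
            have := Real.add_one_le_exp (1 / (n : ℝ))
            linarith
        _ = Real.exp 1 := by
            rw [← Real.exp_nat_mul]
            congr 1
            field_simp
        _ ≤ 3 := hexp
    calc (1 + 1 / (n : ℝ)) ^ n * (12 * (1 + n) * 3) ≤ 3 * (12 * (1 + n) * 3) :=
          mul_le_mul_of_nonneg_right h1 (by positivity)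
      _ = _ := by ring

end Pool.Agent.J4H9.LS3
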