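import Mathlib
import Pool.Agent.J4H9.PairA
import Pool.Agent.W521.Sieve
import Pool.Agent.Helper213.Sidon.Prime

/-!
# The choice of the parameters
-/

set_option autoImplicit false

namespace Pool.Agent.J4H9.Engine

open Polynomial Filter Pool.Agent.W521.Sieve Pool.Agent.J4H9.Fr Pool.Agent.J4H9.Ch
  Pool.Agent.J4H9.Pair

theorem exists_r {κ ε : ℝ} (hκ : 1 / 2 ≤ κ) (hκ1 : κ < 1) (hε : 0 < ε) :
    ∀ᶠ g : ℕ in atTop, ∃ r : ℕ, r.Prime ∧ κ * g < r ∧ (r : ℝ) ≤ (κ + ε) * g := by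
  have h1 := Helper213.Sidon.prime_between ε hε
  have h2 : Tendsto (fun g : ℕ => κ * (g : ℝ)) atTop atTop :=
    tendsto_natCast_atTop_atTop.const_mul_atTop (by linarith)
  filter_upwards [h2.eventually h1] with g hg
  obtain ⟨p, hp, h3, h4⟩ := hg
  refine ⟨p, hp, h3, h4.trans ?_⟩
  have h5 : (0 : ℝ) ≤ g := Nat.cast_nonneg g
  nlinarith [mul_nonneg hε.le h5]

theorem exists_P {μ : ℝ} (hμ : 0 < μ) (hμ1 : μ ≤ 1 / 8) : ∀ᶠ g : ℕ in atTop, ∀ q : ℕ,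
    IsPrimePow q → ∃ P : Finset Pr, P.Nonempty ∧
    (∀ l ∈ P, (l : ℕ) ≤ ⌊(q : ℝ) ^ (μ * g)⌋₊) ∧ (∀ l ∈ P, 8 ≤ (l : ℕ)) ∧
    (∀ l ∈ P, ¬ (l : ℕ) ∣ q) ∧ (1 : ℝ) / P.card ≤ g * (q : ℝ) ^ (1 - μ * g) := by
  classical
  obtain ⟨n₀, hn₀⟩ := eventually_atTop.1 (prime_count ((9 : ℕ) : ℝ))
  have h2 : Tendsto (fun g : ℕ => (2 : ℝ) ^ (μ * g)) atTop atTop := by
    have h3 : Tendsto (fun g : ℕ => μ * (g : ℝ)) atTop atTop :=
      tendsto_natCast_atTop_atTop.const_mul_atTop hμ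
    exact (tendsto_rpow_atTop_of_base_gt_one 2 (by norm_num)).comp h3
  filter_upwards [h2.eventually_ge_atTop ((n₀ : ℝ) + 3), eventually_ge_atTop 1] with g h3 h4 q hq
  have hq2 : 2 ≤ q := hq.two_le
  have hqR : (2 : ℝ) ≤ q := by exact_mod_cast hq2
  have hq0 : (0 : ℝ) < q := by linarith
  have hgR : (1 : ℝ) ≤ g := by exact_mod_cast h4
  set x : ℝ := (q : ℝ) ^ (μ * g) with hx
  have hx1 : (n₀ : ℝ) + 3 ≤ x :=
    h3.trans (Real.rpow_le_rpow (by norm_num) hqR (by positivity))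
  set Q : ℕ := ⌊x⌋₊ with hQ
  have hQ1 : n₀ + 3 ≤ Q := Nat.le_floor (by push_cast; exact hx1)
  have hxQ : x < (Q : ℝ) + 1 := Nat.lt_floor_add_one x
  have hx0 : 0 < x := by positivity
  have hQx : (Q : ℝ) ≤ x := Nat.floor_le hx0.le
  have hQR : (3 : ℝ) ≤ Q := by
    have : 3 ≤ Q := by omega
    exact_mod_cast this
  have h5 := hn₀ Q (by omega)
  have h6 := card_primesOf hq 8 Q
  have h7 : (Nat.primeCounting Q : ℝ) ≤ ((primesOf q 8 Q).card : ℝ) + 9 := by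
    have : Nat.primeCounting Q ≤ (primesOf q 8 Q).card + 9 := h6
    exact_mod_cast this
  have h8 : (Q : ℝ) / (4 * Real.log Q) ≤ ((primesOf q 8 Q).card : ℝ) := by
    push_cast at h5
    linarith
  let P : Finset Pr := (primesOf q 8 Q).subtype Nat.Prime
  have hPcard : P.card = (primesOf q 8 Q).card := by
    rw [Finset.card_subtype, Finset.filter_true_of_mem]
    intro l hl
    exact (Finset.mem_filter.1 hl).2.1
  have hmem : ∀ l ∈ P, (l : ℕ) ∈ primesOf q 8 Q := fun l hl => Finset.mem_subtype.1 hl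
  have hlogQ : 0 < Real.log Q := Real.log_pos (by linarith)
  have hlogq : 0 < Real.log q := Real.log_pos (by linarith)
  have hlog : Real.log Q ≤ μ * g * Real.log q := by
    rw [← Real.log_rpow hq0]
    exact Real.log_le_log (by linarith) hQx
  have hcpos : (0 : ℝ) < (primesOf q 8 Q).card := by
    refine lt_of_lt_of_le ?_ h8
    positivity
  refine ⟨P, ?_, ?_, ?_, ?_, ?_⟩
  · rw [← Finset.card_pos, hPcard]
    exact_mod_cast hcpos
  · intro l hl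
    have h9 := (Finset.mem_filter.1 (hmem l hl)).1
    have h10 : (l : ℕ) ≤ Q := by
      have := Finset.mem_range.1 h9
      omega
    exact h10
  · intro l hl
    exact (Finset.mem_filter.1 (hmem l hl)).2.2.1
  · intro l hl
    exact (Finset.mem_filter.1 (hmem l hl)).2.2.2
  · rw [hPcard, div_le_iff₀ hcpos]
    set N : ℝ := ((primesOf q 8 Q).card : ℝ) with hN
    have hlq : Real.log q ≤ q := (Real.log_le_sub_one_of_pos hq0).trans (by linarith)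
    have h9 : (Q : ℝ) ≤ 4 * Real.log Q * N := by
      rw [div_le_iff₀ (by positivity)] at h8
      linarith
    have h10 : x ≤ 2 * Q := by linarith
    have h11 : x ≤ g * q * N := by
      calc x ≤ 2 * Q := h10
        _ ≤ 2 * (4 * Real.log Q * N) := by linarith
        _ ≤ 2 * (4 * (μ * g * q) * N) := by
            refine mul_le_mul_of_nonneg_left (mul_le_mul_of_nonneg_right ?_ hcpos.le) (by norm_num)
            refine mul_le_mul_of_nonneg_left (hlog.trans ?_) (by norm_num)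
            exact mul_le_mul_of_nonneg_left hlq (by positivity)
        _ = (8 * μ) * (g * q * N) := by ring
        _ ≤ 1 * (g * q * N) := mul_le_mul_of_nonneg_right (by linarith) (by positivity)
        _ = _ := one_mul _
    have h12 : (q : ℝ) ^ (1 - μ * g) = q * x⁻¹ := by
      rw [Real.rpow_sub hq0, Real.rpow_one, hx, div_eq_mul_inv]
    rw [h12]
    calc (1 : ℝ) = x * x⁻¹ := (mul_inv_cancel₀ hx0.ne').symm
      _ ≤ (g * q * N) * x⁻¹ := mul_le_mul_of_nonneg_right h11 (by positivity)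
      _ = _ := by ring

theorem poly_le {ε : ℝ} (hε : 0 < ε) (C : ℝ) (n : ℕ) :
    ∀ᶠ g : ℕ in atTop, C * (g : ℝ) ^ n ≤ (2 : ℝ) ^ (ε * g) := by
  have hb : 1 < (2 : ℝ) ^ ε := Real.one_lt_rpow (by norm_num) hε
  have h1 := tendsto_pow_const_div_const_pow_of_one_lt n hb
  have h2 : (0 : ℝ) < 1 / (|C| + 1) := by positivity
  filter_upwards [h1.eventually_le_const h2] with g hg
  have h3 : ((2 : ℝ) ^ ε) ^ g = (2 : ℝ) ^ (ε * g) := by
    rw [← Real.rpow_natCast, ← Real.rpow_mul (by norm_num)]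
  rw [h3, div_le_div_iff₀ (by positivity) (by positivity), one_mul] at hg
  calc C * (g : ℝ) ^ n ≤ (|C| + 1) * (g : ℝ) ^ n :=
        mul_le_mul_of_nonneg_right (by linarith [le_abs_self C]) (by positivity)
    _ = (g : ℝ) ^ n * (|C| + 1) := mul_comm _ _
    _ ≤ _ := hg

open Classical in
/-- **The exceptional pairs in a union of chains.** -/
theorem engine {κ δ ε : ℝ} (hκ : 1 / 2 ≤ κ) (hκ1 : κ < 1) (hδ : 0 ≤ δ) (hε : 0 < ε)
    (hε1 : δ / 2 + ε < (1 - κ) / 4) :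
    ∀ᶠ g : ℕ in atTop, ∃ r : ℕ, r.Prime ∧ 3 ≤ r ∧ κ * g < r ∧ g < 2 * r ∧ r + 2 ≤ g ∧
    ∀ q : ℕ, IsPrimePow q → ∃ P : Finset Pr, (∀ l ∈ P, 8 ≤ (l : ℕ)) ∧ (∀ l ∈ P, ¬ (l : ℕ) ∣ q) ∧
      ∀ (Λ : Type) (Λ₀ : Finset Λ) (M : Λ → ℕ → ℕ) (𝒯 : Λ → ℕ → Finset ℤ[X]),
        (∀ i ∈ Λ₀, Chain (M i) (r + 2) (𝒯 i)) →
        (∀ i ∈ Λ₀, ∀ f ∈ 𝒯 i (r + 2), f.Monic ∧ f.natDegree + (r + 2) = g) →
        (∀ i ∈ Λ₀, ∀ k < r + 2, Real.sqrt q ^ (g - k) ≤ (q : ℝ) ^ (δ * g) * M i k) →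
        ∀ A : Finset ℤ[X], (∀ h ∈ A, ∃ i ∈ Λ₀, h ∈ 𝒯 i 0) →
        ((A.filter (fun h => ¬ ∃ l ∈ P, PatE q r h (l : ℕ))).card : ℝ) ≤
          1 / 2 * (q : ℝ) ^ (-(((1 - κ) / 4 - δ / 2 - ε) * g)) * ((uni Λ₀ 𝒯).card : ℝ) ∧
        (((A ×ˢ A).filter (fun x => ¬ HasPair q r P x)).card : ℝ) ≤
          1 / 2 * (q : ℝ) ^ (-(((1 - κ) / 4 - δ / 2 - ε) * g)) * ((uni Λ₀ 𝒯).card : ℝ) *
            (A.card : ℝ) := by
  have hμ : 0 < (1 - κ) / 4 - δ / 2 - ε / 2 := by linarith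
  have h4ev : ∀ᶠ g : ℕ in atTop, 4 ≤ ε * (g : ℝ) := by
    have h5 : Tendsto (fun g : ℕ => ε * (g : ℝ)) atTop atTop :=
      tendsto_natCast_atTop_atTop.const_mul_atTop hε
    exact h5.eventually_ge_atTop 4
  filter_upwards [exists_r hκ hκ1 hε, exists_P hμ (by linarith), eventually_ge_atTop 20,
    poly_le (show 0 < ε / 4 by linarith) (2 * 82944) 5, h4ev] with g h1 h2 h3 hpoly h4g
  obtain ⟨r, hr, hgr, hr13⟩ := h1
  have hgR : (20 : ℝ) ≤ g := by exact_mod_cast h3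
  have hrg : r + 2 ≤ g := by
    have h5 : ((r + 2 : ℕ) : ℝ) ≤ g := by
      push_cast
      nlinarith
    exact_mod_cast h5
  have hgr2 : g < 2 * r := by
    have h5 : (g : ℝ) < ((2 * r : ℕ) : ℝ) := by
      push_cast
      nlinarith
    exact_mod_cast h5
  refine ⟨r, hr, by omega, hgr, hgr2, hrg, ?_⟩
  intro q hq
  obtain ⟨P, hP, hPL, hP8, hPq, hPc⟩ := h2 q hq
  refine ⟨P, hP8, hPq, ?_⟩
  intro Λ Λ₀ M 𝒯 hc htop hM A hA
  have hq2 : 2 ≤ q := hq.two_le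
  have hqR : (2 : ℝ) ≤ q := by exact_mod_cast hq2
  have hq0 : (0 : ℝ) < q := by linarith
  have hq1 : (1 : ℝ) ≤ q := by linarith
  set F : ℕ := ⌊(q : ℝ) ^ (((1 - κ) / 4 - δ / 2 - ε / 2) * g)⌋₊ with hF
  have hF1 : 1 ≤ F := by
    obtain ⟨l, hl⟩ := hP
    have := hPL l hl
    have := hP8 l hl
    omega
  have hFR : (F : ℝ) ^ 2 ≤ (q : ℝ) ^ (((1 - κ) / 2 - δ - ε) * g) := by
    have h5 : (F : ℝ) ≤ (q : ℝ) ^ (((1 - κ) / 4 - δ / 2 - ε / 2) * g) :=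
      Nat.floor_le (by positivity)
    calc (F : ℝ) ^ 2 ≤ ((q : ℝ) ^ (((1 - κ) / 4 - δ / 2 - ε / 2) * g)) ^ 2 :=
          pow_le_pow_left₀ (Nat.cast_nonneg _) h5 2
      _ = _ := by
          rw [← Real.rpow_natCast, ← Real.rpow_mul hq0.le]
          congr 1
          push_cast
          ring
  have hpoly2 : (2 * 82944) * (g : ℝ) ^ 5 ≤ (q : ℝ) ^ (ε * g / 4) := by
    refine hpoly.trans ?_
    have h9 : ε / 4 * (g : ℝ) = ε * g / 4 := by ring
    rw [h9]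
    exact Real.rpow_le_rpow (by norm_num) hqR (by positivity)
  have hg5 : (g : ℝ) ≤ (2 * 82944) * (g : ℝ) ^ 5 := by
    have h5 : (1 : ℝ) ≤ (g : ℝ) ^ 4 := one_le_pow₀ (by linarith)
    nlinarith
  set τ : ℝ := δ * g - ((1 - κ - ε) * g / 2 - 1) with hτ
  have hterm : ∀ i ∈ Λ₀, ∀ k ∈ Finset.range (r + 2), 1 / (M i k : ℝ) ≤ (q : ℝ) ^ τ := by
    intro i hi k hk
    have hk' := Finset.mem_range.1 hk
    have hMk : (0 : ℝ) < M i k := by exact_mod_cast (hc i hi).pos k hk'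
    have h5 : (q : ℝ) ^ ((1 - κ - ε) * g / 2 - 1) ≤ Real.sqrt q ^ (g - k) := by
      rw [Real.sqrt_eq_rpow, ← Real.rpow_natCast, ← Real.rpow_mul hq0.le]
      refine Real.rpow_le_rpow_of_exponent_le hq1 ?_
      have h6 : ((g - k : ℕ) : ℝ) = g - k := by
        rw [Nat.cast_sub (by omega)]
      rw [h6]
      have h7 : (k : ℝ) ≤ r + 1 := by
        have : k ≤ r + 1 := by omega
        exact_mod_cast this
      linarith
    rw [hτ, Real.rpow_sub hq0, div_le_div_iff₀ hMk (by positivity), one_mul]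
    exact h5.trans (hM i hi k hk')
  have hsum : ∀ i ∈ Λ₀, ∑ k ∈ Finset.range (r + 2), (F : ℝ) ^ 2 / (M i k : ℝ) ≤ 1 := by
    intro i hi
    have h5 : ∀ k ∈ Finset.range (r + 2), (F : ℝ) ^ 2 / (M i k : ℝ) ≤
        (q : ℝ) ^ (-(ε * g / 4)) := by
      intro k hk
      calc (F : ℝ) ^ 2 / (M i k : ℝ) = (F : ℝ) ^ 2 * (1 / (M i k : ℝ)) := by ring
        _ ≤ (q : ℝ) ^ (((1 - κ) / 2 - δ - ε) * g) * (q : ℝ) ^ τ :=
            mul_le_mul hFR (hterm i hi k hk) (by positivity) (by positivity)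
        _ = (q : ℝ) ^ (((1 - κ) / 2 - δ - ε) * g + τ) := (Real.rpow_add hq0 _ _).symm
        _ ≤ _ := by
            refine Real.rpow_le_rpow_of_exponent_le hq1 ?_
            rw [hτ]
            nlinarith
    calc ∑ k ∈ Finset.range (r + 2), (F : ℝ) ^ 2 / (M i k : ℝ) ≤
        ∑ _k ∈ Finset.range (r + 2), (q : ℝ) ^ (-(ε * g / 4)) := Finset.sum_le_sum h5
      _ = ((r + 2 : ℕ) : ℝ) * (q : ℝ) ^ (-(ε * g / 4)) := by
          rw [Finset.sum_const, Finset.card_range, nsmul_eq_mul]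
      _ ≤ (q : ℝ) ^ (ε * g / 4) * (q : ℝ) ^ (-(ε * g / 4)) := by
          refine mul_le_mul_of_nonneg_right ?_ (by positivity)
          have h6 : ((r + 2 : ℕ) : ℝ) ≤ g := by exact_mod_cast hrg
          linarith
      _ = 1 := by rw [← Real.rpow_add hq0, add_neg_cancel, Real.rpow_zero]
  have key := PairA.pair_sieve hc P hP F hF1 hPL hsum (q := q) hr (by omega) rfl
    hgr2 hrg htop hP8 hPq A hA
  have hmain : 82944 * (g : ℝ) ^ 4 / (P.card : ℝ) ≤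
      1 / 2 * (q : ℝ) ^ (-(((1 - κ) / 4 - δ / 2 - ε) * g)) := ?_
  · exact ⟨key.1.trans (mul_le_mul_of_nonneg_right hmain (by positivity)),
      key.2.trans (mul_le_mul_of_nonneg_right (mul_le_mul_of_nonneg_right hmain (by positivity))
        (by positivity))⟩
  calc 82944 * (g : ℝ) ^ 4 / (P.card : ℝ) = 82944 * (g : ℝ) ^ 4 * (1 / (P.card : ℝ)) := by ring
    _ ≤ 82944 * (g : ℝ) ^ 4 * (g * (q : ℝ) ^ (1 - ((1 - κ) / 4 - δ / 2 - ε / 2) * g)) :=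
        mul_le_mul_of_nonneg_left hPc (by positivity)
    _ = 1 / 2 * ((2 * 82944) * (g : ℝ) ^ 5) *
        (q : ℝ) ^ (1 - ((1 - κ) / 4 - δ / 2 - ε / 2) * g) := by ring
    _ ≤ 1 / 2 * (q : ℝ) ^ (ε * g / 4) * (q : ℝ) ^ (1 - ((1 - κ) / 4 - δ / 2 - ε / 2) * g) := by
        refine mul_le_mul_of_nonneg_right ?_ (by positivity)
        exact mul_le_mul_of_nonneg_left hpoly2 (by norm_num)
    _ = 1 / 2 * (q : ℝ) ^ (ε * g / 4 + (1 - ((1 - κ) / 4 - δ / 2 - ε / 2) * g)) := by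
        rw [mul_assoc, ← Real.rpow_add hq0]
    _ ≤ _ := by
        refine mul_le_mul_of_nonneg_left ?_ (by norm_num)
        refine Real.rpow_le_rpow_of_exponent_le hq1 ?_
        nlinarith

end Pool.Agent.J4H9.Engine
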