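import Mathlib
import Pool.Agent.J4H9.Engine
import Pool.Agent.J4H9.Size
import Pool.Agent.J4H9.Alg

/-!
# Counting tuples
-/

set_option autoImplicit false

namespace Pool.Agent.J4H9.Tuples

open Polynomial Filter Pool.Agent.W521.Frob Pool.Agent.W521.Descent Pool.Agent.W521.Lower
  Pool.Agent.W521.Count Pool.Agent.J4H9.Fr Pool.Agent.J4H9.Ch Pool.Agent.J4H9.Cover
  Pool.Agent.J4H9.Size Pool.Agent.J4H9.Pair Pool.Agent.J4H9.Alg

section

variable {X : Type} [DecidableEq X] {m : ℕ} (S : Finset X)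

open Classical in
theorem card_single (B : Finset X) {b : ℝ} (hB : (B.card : ℝ) ≤ b * S.card) (i : Fin m) :
    (((Fintype.piFinset fun _ : Fin m => S).filter (fun f => f i ∈ B)).card : ℝ) ≤
      b * (S.card : ℝ) ^ m := by
  have hsub : (Fintype.piFinset fun _ : Fin m => S).filter (fun f => f i ∈ B) ⊆
      Fintype.piFinset fun j : Fin m => if j = i then B else S := by
    intro f hf
    obtain ⟨h1, h2⟩ := Finset.mem_filter.1 hf
    rw [Fintype.mem_piFinset] at h1 ⊢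
    intro j
    by_cases hj : j = i
    · subst hj
      rw [if_pos rfl]
      exact h2
    · rw [if_neg hj]
      exact h1 j
  have h1 : (((Fintype.piFinset fun _ : Fin m => S).filter (fun f => f i ∈ B)).card : ℝ) ≤
      ∏ j : Fin m, (((if j = i then B else S).card : ℕ) : ℝ) := by
    have h2 := Finset.card_le_card hsub
    rw [Fintype.card_piFinset] at h2
    exact_mod_cast h2
  refine h1.trans ?_
  calc ∏ j : Fin m, (((if j = i then B else S).card : ℕ) : ℝ) ≤
      ∏ j : Fin m, ((if j = i then b else 1) * (S.card : ℝ)) := by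
        refine Finset.prod_le_prod (fun j _ => Nat.cast_nonneg _) fun j _ => ?_
        by_cases hj : j = i
        · rw [if_pos hj, if_pos hj]
          exact hB
        · rw [if_neg hj, if_neg hj, one_mul]
    _ = _ := by
        rw [Finset.prod_mul_distrib, Finset.prod_ite_eq', if_pos (Finset.mem_univ _),
          Finset.prod_const, Finset.card_univ, Fintype.card_fin]

open Classical in
theorem card_double (B : Finset (X × X)) {b : ℝ} (hB : (B.card : ℝ) ≤ b * (S.card : ℝ) ^ 2)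
    (i j : Fin m) (hij : i ≠ j) :
    (((Fintype.piFinset fun _ : Fin m => S).filter (fun f => (f i, f j) ∈ B)).card : ℝ) ≤
      b * (S.card : ℝ) ^ m := by
  rcases S.eq_empty_or_nonempty with hS | ⟨s₀, hs₀⟩
  · have h1 : (Fintype.piFinset fun _ : Fin m => S) = ∅ := by
      rw [Finset.eq_empty_iff_forall_notMem]
      intro f hf
      have := Fintype.mem_piFinset.1 hf i
      rw [hS] at this
      exact absurd this (Finset.notMem_empty _)
    have hm : m ≠ 0 := by
      rintro rfl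
      exact i.elim0
    have h2 : ((S.card : ℕ) : ℝ) = 0 := by rw [hS, Finset.card_empty, Nat.cast_zero]
    have h3 : (Fintype.piFinset fun _ : Fin m => S).filter (fun f => (f i, f j) ∈ B) = ∅ := by
      rw [h1, Finset.filter_empty]
    rw [h3, h2, Finset.card_empty, Nat.cast_zero, zero_pow hm, mul_zero]
  · let Q : Finset (Fin m → X) :=
      Fintype.piFinset fun k : Fin m => if k ∈ ({i, j} : Finset (Fin m)) then {s₀} else S
    have h1 : ((Fintype.piFinset fun _ : Fin m => S).filter (fun f => (f i, f j) ∈ B)).card ≤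
        (B ×ˢ Q).card := by
      refine Finset.card_le_card_of_injOn
        (fun f => ((f i, f j), fun k => if k ∈ ({i, j} : Finset (Fin m)) then s₀ else f k)) ?_ ?_
      · intro f hf
        obtain ⟨h1, h2⟩ := Finset.mem_filter.1 (Finset.mem_coe.1 hf)
        rw [Fintype.mem_piFinset] at h1
        refine Finset.mem_coe.2 (Finset.mem_product.2 ⟨h2, ?_⟩)
        rw [Fintype.mem_piFinset]
        intro k
        by_cases hk : k ∈ ({i, j} : Finset (Fin m))
        · simp only [if_pos hk]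
          exact Finset.mem_singleton_self _
        · simp only [if_neg hk]
          exact h1 k
      · intro f _ f' _ heq
        obtain ⟨h3, h4⟩ := Prod.mk.inj heq
        obtain ⟨h5, h6⟩ := Prod.mk.inj h3
        funext k
        by_cases hk : k ∈ ({i, j} : Finset (Fin m))
        · rcases Finset.mem_insert.1 hk with h7 | h7
          · rw [h7]
            exact h5
          · rw [Finset.mem_singleton.1 h7]
            exact h6
        · have h7 := congrFun h4 k
          simp only [if_neg hk] at h7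
          exact h7
    have hQ : (Q.card : ℝ) * (S.card : ℝ) ^ 2 = (S.card : ℝ) ^ m := by
      have h2 : (Q.card : ℝ) = ∏ k : Fin m, (if k ∈ ({i, j} : Finset (Fin m)) then (1 : ℝ) else
          S.card) := by
        simp only [Q, Fintype.card_piFinset]
        push_cast
        refine Finset.prod_congr rfl fun k _ => ?_
        by_cases hk : k ∈ ({i, j} : Finset (Fin m))
        · rw [if_pos hk, if_pos hk, Finset.card_singleton, Nat.cast_one]
        · rw [if_neg hk, if_neg hk]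
      have h3 : (S.card : ℝ) ^ 2 = ∏ k : Fin m, (if k ∈ ({i, j} : Finset (Fin m)) then
          (S.card : ℝ) else 1) := by
        rw [Finset.prod_ite_mem, Finset.univ_inter, Finset.prod_const, Finset.card_pair hij]
      rw [h2, h3, ← Finset.prod_mul_distrib]
      calc ∏ k : Fin m, ((if k ∈ ({i, j} : Finset (Fin m)) then (1 : ℝ) else S.card) *
          (if k ∈ ({i, j} : Finset (Fin m)) then (S.card : ℝ) else 1)) =
          ∏ _k : Fin m, (S.card : ℝ) := by
            refine Finset.prod_congr rfl fun k _ => ?_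
            by_cases hk : k ∈ ({i, j} : Finset (Fin m))
            · rw [if_pos hk, if_pos hk, one_mul]
            · rw [if_neg hk, if_neg hk, mul_one]
        _ = _ := by rw [Finset.prod_const, Finset.card_univ, Fintype.card_fin]
    have h2 : (((Fintype.piFinset fun _ : Fin m => S).filter (fun f => (f i, f j) ∈ B)).card : ℝ) ≤
        (B.card : ℝ) * Q.card := by
      rw [Finset.card_product] at h1
      exact_mod_cast h1
    refine h2.trans ?_
    calc (B.card : ℝ) * Q.card ≤ (b * (S.card : ℝ) ^ 2) * Q.card :=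
          mul_le_mul_of_nonneg_right hB (Nat.cast_nonneg _)
      _ = b * ((Q.card : ℝ) * (S.card : ℝ) ^ 2) := by ring
      _ = _ := by rw [hQ]

open Classical in
/-- **Tuples with an exceptional member or an exceptional pair of members.** -/
theorem card_tuples (B₁ : Finset X) (B₂ : Finset (X × X)) {b₁ b₂ : ℝ}
    (h₁ : (B₁.card : ℝ) ≤ b₁ * S.card) (h₂ : (B₂.card : ℝ) ≤ b₂ * (S.card : ℝ) ^ 2) :
    (((Fintype.piFinset fun _ : Fin m => S).filter
      (fun f => (∃ i, f i ∈ B₁) ∨ ∃ i j, i ≠ j ∧ (f i, f j) ∈ B₂)).card : ℝ) ≤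
      (m * b₁ + m * (m - 1) * b₂) * (S.card : ℝ) ^ m := by
  set A : Finset (Fin m → X) := Fintype.piFinset fun _ : Fin m => S
  have hsub : A.filter (fun f => (∃ i, f i ∈ B₁) ∨ ∃ i j, i ≠ j ∧ (f i, f j) ∈ B₂) ⊆
      (Finset.univ.biUnion fun i : Fin m => A.filter (fun f => f i ∈ B₁)) ∪
      ((Finset.univ : Finset (Fin m)).offDiag.biUnion fun p : Fin m × Fin m =>
        A.filter (fun f => (f p.1, f p.2) ∈ B₂)) := by
    intro f hf
    obtain ⟨h1, h2⟩ := Finset.mem_filter.1 hf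
    rcases h2 with ⟨i, hi⟩ | ⟨i, j, hij, h3⟩
    · exact Finset.mem_union_left _ (Finset.mem_biUnion.2 ⟨i, Finset.mem_univ _,
        Finset.mem_filter.2 ⟨h1, hi⟩⟩)
    · exact Finset.mem_union_right _ (Finset.mem_biUnion.2 ⟨(i, j), Finset.mem_offDiag.2
        ⟨Finset.mem_univ _, Finset.mem_univ _, hij⟩, Finset.mem_filter.2 ⟨h1, h3⟩⟩)
  have h1 : ((A.filter (fun f => (∃ i, f i ∈ B₁) ∨ ∃ i j, i ≠ j ∧ (f i, f j) ∈ B₂)).card : ℝ) ≤
      ∑ i : Fin m, ((A.filter (fun f => f i ∈ B₁)).card : ℝ) +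
      ∑ p ∈ (Finset.univ : Finset (Fin m)).offDiag,
        ((A.filter (fun f => (f p.1, f p.2) ∈ B₂)).card : ℝ) := by
    have h2 := (Finset.card_le_card hsub).trans (Finset.card_union_le _ _)
    have h3 := h2.trans (Nat.add_le_add Finset.card_biUnion_le Finset.card_biUnion_le)
    exact_mod_cast h3
  refine h1.trans ?_
  have h2 : ∑ i : Fin m, ((A.filter (fun f => f i ∈ B₁)).card : ℝ) ≤
      m * (b₁ * (S.card : ℝ) ^ m) := by
    calc ∑ i : Fin m, ((A.filter (fun f => f i ∈ B₁)).card : ℝ) ≤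
        ∑ _i : Fin m, b₁ * (S.card : ℝ) ^ m :=
          Finset.sum_le_sum fun i _ => card_single S B₁ h₁ i
      _ = _ := by rw [Finset.sum_const, Finset.card_univ, Fintype.card_fin, nsmul_eq_mul]
  have h3 : ∑ p ∈ (Finset.univ : Finset (Fin m)).offDiag,
        ((A.filter (fun f => (f p.1, f p.2) ∈ B₂)).card : ℝ) ≤
      m * (m - 1) * (b₂ * (S.card : ℝ) ^ m) := by
    calc ∑ p ∈ (Finset.univ : Finset (Fin m)).offDiag,
        ((A.filter (fun f => (f p.1, f p.2) ∈ B₂)).card : ℝ) ≤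
        ∑ _p ∈ (Finset.univ : Finset (Fin m)).offDiag, b₂ * (S.card : ℝ) ^ m :=
          Finset.sum_le_sum fun p hp => card_double S B₂ h₂ p.1 p.2 (Finset.mem_offDiag.1 hp).2.2
      _ = _ := by
          rw [Finset.sum_const, Finset.offDiag_card, Finset.card_univ, Fintype.card_fin,
            nsmul_eq_mul, Nat.cast_sub (Nat.le_mul_self m)]
          push_cast
          ring
  calc _ ≤ m * (b₁ * (S.card : ℝ) ^ m) + m * (m - 1) * (b₂ * (S.card : ℝ) ^ m) := add_le_add h2 h3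
    _ = _ := by ring

end

open Classical in
/-- **The main bound.** -/
theorem main {κ δ ε : ℝ} (hκ : 1 / 2 ≤ κ) (hκ1 : κ < 1) (hδ : 0 ≤ δ) (hε : 0 < ε)
    (hε1 : δ / 2 + ε < (1 - κ) / 4) :
    ∀ᶠ g : ℕ in atTop, ∃ r : ℕ, r.Prime ∧
    r ≠ 2 ∧ κ * g < r ∧ g < 2 * r ∧ ∀ q : ℕ, IsPrimePow q →
    ∀ (Λ : Type) (Λ₀ : Finset Λ) (M : Λ → ℕ → ℕ) (𝒯 : Λ → ℕ → Finset ℤ[X]),
    (∀ i ∈ Λ₀, Chain (M i) g (𝒯 i)) → (∀ i ∈ Λ₀, 𝒯 i g = {1}) →
    (∀ i ∈ Λ₀, ∀ k < g, Real.sqrt q ^ (g - k) ≤ (q : ℝ) ^ (δ * g) * M i k) →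
    ∀ (K : ℝ), 1 ≤ K → ∀ S : Finset ℤ[X], (∀ h ∈ S, ∃ i ∈ Λ₀, h ∈ 𝒯 i 0) →
    (∀ h ∈ S, weil q h ∈ weilPolys q g) →
    ((uni Λ₀ 𝒯).card : ℝ) ≤ K * S.card → ∀ m : ℕ,
    (((Fintype.piFinset fun _ : Fin m => S).filter (fun f => ¬ GoodFam q r f)).card : ℝ) ≤
      ((m : ℝ) ^ 2 * K * (q : ℝ) ^ (-(((1 - κ) / 4 - δ / 2 - ε) * g))) * (S.card : ℝ) ^ m := by
  filter_upwards [Engine.engine hκ hκ1 hδ hε hε1, eventually_ge_atTop 2,
    Engine.poly_le (show (0 : ℝ) < ε / 2 by linarith) 30 1] with g hg hg2 hpoly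
  obtain ⟨r, hr, hr3, hκr, hgr, hrg, H⟩ := hg
  refine ⟨r, hr, by omega, hκr, hgr, ?_⟩
  intro q hq Λ Λ₀ M 𝒯 hc htop hM K hK S hST hSW hKS m
  obtain ⟨P, hP8, hPq, H'⟩ := H q hq
  have hq0 : 0 < q := hq.pos
  have hqR : (2 : ℝ) ≤ q := by exact_mod_cast hq.two_le
  have hq1 : (1 : ℝ) ≤ q := by linarith
  have hq0R : (0 : ℝ) < q := by linarith
  have hc' : ∀ i ∈ Λ₀, Chain (M i) (r + 2) (𝒯 i) := fun i hi =>
    ⟨fun j hj => (hc i hi).pos j (by omega), fun j hj => (hc i hi).down j (by omega),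
      fun j hj => (hc i hi).fib j (by omega)⟩
  have hmon : ∀ i ∈ Λ₀, ∀ j ≤ g, ∀ f ∈ 𝒯 i j, f.Monic ∧ f.natDegree + j = g :=
    fun i hi => monic_of_chain (hc i hi) (htop i hi)
  obtain ⟨hsing, hpair⟩ := H' Λ Λ₀ M 𝒯 hc' (fun i hi f hf => hmon i hi (r + 2) hrg f hf)
    (fun i hi k hk => hM i hi k (by omega)) S hST
  set θ : ℝ := (q : ℝ) ^ (-(((1 - κ) / 4 - δ / 2 - ε) * g)) with hθ
  have hθ0 : 0 < θ := by positivity
  set U : Finset (Σ _ : Λ, ℤ[X]) := uni Λ₀ 𝒯 with hU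
  have hU0 : (0 : ℝ) ≤ (U.card : ℝ) := Nat.cast_nonneg _
  have hgR : (1 : ℝ) ≤ g := by
    have : 1 ≤ g := by omega
    exact_mod_cast this
  -- the exceptional members
  let B₁ : Finset ℤ[X] := S.filter (fun h => ¬ Irreducible (h.map (Int.castRingHom ℚ)) ∨
    ¬ ∃ l ∈ P, PatE q r h l)
  let B₂ : Finset (ℤ[X] × ℤ[X]) := (S ×ˢ S).filter (fun x => ¬ HasPair q r P x)
  let Rd : Finset (Σ _ : Λ, ℤ[X]) := U.filter (fun x => x.2 ∈ realWeil q g ∧
    ¬ Irreducible (x.2.map (Int.castRingHom ℚ)))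
  have hB₂ : (B₂.card : ℝ) ≤ 1 / 2 * θ * (U.card : ℝ) * (S.card : ℝ) := hpair
  have hR' : (Rd.card : ℝ) ≤ 1 / 2 * θ * (U.card : ℝ) := by
    have h1 : 30 * (g : ℝ) ≤ (q : ℝ) ^ (ε * g / 2) := by
      rw [pow_one] at hpoly
      refine hpoly.trans ?_
      have h2 : ε / 2 * (g : ℝ) = ε * g / 2 := by ring
      rw [h2]
      exact Real.rpow_le_rpow (by norm_num) hqR (by positivity)
    have h2 : (g : ℝ) * (15 * (q : ℝ) ^ (δ * g) * (q : ℝ) ^ (-(g : ℝ) / 4)) ≤ 1 / 2 * θ := by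
      calc (g : ℝ) * (15 * (q : ℝ) ^ (δ * g) * (q : ℝ) ^ (-(g : ℝ) / 4)) =
          1 / 2 * ((30 * (g : ℝ)) * ((q : ℝ) ^ (δ * g) * (q : ℝ) ^ (-(g : ℝ) / 4))) := by ring
        _ ≤ 1 / 2 * ((q : ℝ) ^ (ε * g / 2) * ((q : ℝ) ^ (δ * g) * (q : ℝ) ^ (-(g : ℝ) / 4))) := by
            refine mul_le_mul_of_nonneg_left ?_ (by norm_num)
            exact mul_le_mul_of_nonneg_right h1 (by positivity)
        _ ≤ 1 / 2 * θ := by
            refine mul_le_mul_of_nonneg_left ?_ (by norm_num)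
            rw [← Real.rpow_add hq0R, ← Real.rpow_add hq0R, hθ]
            refine Real.rpow_le_rpow_of_exponent_le hq1 ?_
            nlinarith
    have h3 : ∀ i ∈ Λ₀, (((𝒯 i 0).filter (fun h => h ∈ realWeil q g ∧
        ¬ Irreducible (h.map (Int.castRingHom ℚ)))).card : ℝ) ≤
        1 / 2 * θ * ((𝒯 i 0).card : ℝ) := by
      intro i hi
      refine (red_bound (hc i hi) hq0 (show 0 < g by omega) (Nat.div_le_self g 2)
        (D := (q : ℝ) ^ (δ * g)) (by positivity) (hM i hi)).trans ?_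
      exact mul_le_mul_of_nonneg_right h2 (Nat.cast_nonneg _)
    have h4 : Rd.card = ∑ i ∈ Λ₀, ((𝒯 i 0).filter (fun h => h ∈ realWeil q g ∧
        ¬ Irreducible (h.map (Int.castRingHom ℚ)))).card := by
      rw [← Finset.card_sigma]
      congr 1
      ext ⟨i, h⟩
      simp only [Rd, hU, Finset.mem_filter, Finset.mem_sigma]
      tauto
    rw [h4, hU, Finset.card_sigma]
    push_cast
    rw [Finset.mul_sum]
    exact Finset.sum_le_sum h3
  have hB₁ : (B₁.card : ℝ) ≤ θ * (U.card : ℝ) := by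
    have h1 : B₁ ⊆ Rd.image (fun x => x.2) ∪ S.filter (fun h => ¬ ∃ l ∈ P, PatE q r h (l : ℕ)) := by
      intro h hh
      obtain ⟨h2, h3⟩ := Finset.mem_filter.1 hh
      obtain ⟨i, hi, h4⟩ := hST h h2
      have h5 : (⟨i, h⟩ : Σ _ : Λ, ℤ[X]) ∈ U := Finset.mem_sigma.2 ⟨hi, h4⟩
      have h6 := hmon i hi 0 (Nat.zero_le _) h h4
      rcases h3 with h3 | h3
      · exact Finset.mem_union_left _ (Finset.mem_image.2 ⟨⟨i, h⟩, Finset.mem_filter.2
          ⟨h5, ⟨h6.1, by simpa using h6.2, hSW h h2⟩, h3⟩, rfl⟩)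
      · exact Finset.mem_union_right _ (Finset.mem_filter.2 ⟨h2, h3⟩)
    have h2 : B₁.card ≤ Rd.card + (S.filter (fun h => ¬ ∃ l ∈ P, PatE q r h (l : ℕ))).card :=
      (Finset.card_le_card h1).trans ((Finset.card_union_le _ _).trans
        (Nat.add_le_add_right Finset.card_image_le _))
    have h3 : (B₁.card : ℝ) ≤ (Rd.card : ℝ) +
        ((S.filter (fun h => ¬ ∃ l ∈ P, PatE q r h (l : ℕ))).card : ℝ) := by exact_mod_cast h2
    linarith
  -- the tuples
  have hS0 : (0 : ℝ) ≤ S.card := Nat.cast_nonneg _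
  have h₁ : (B₁.card : ℝ) ≤ (K * θ) * S.card := by
    calc (B₁.card : ℝ) ≤ θ * (U.card : ℝ) := hB₁
      _ ≤ θ * (K * S.card) := mul_le_mul_of_nonneg_left hKS hθ0.le
      _ = _ := by ring
  have h₂ : (B₂.card : ℝ) ≤ (K * θ) * (S.card : ℝ) ^ 2 := by
    calc (B₂.card : ℝ) ≤ 1 / 2 * θ * (U.card : ℝ) * S.card := hB₂
      _ ≤ θ * (U.card : ℝ) * S.card := by
          refine mul_le_mul_of_nonneg_right (mul_le_mul_of_nonneg_right ?_ hU0) hS0
          linarith
      _ ≤ θ * (K * S.card) * S.card :=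
          mul_le_mul_of_nonneg_right (mul_le_mul_of_nonneg_left hKS hθ0.le) hS0
      _ = _ := by ring
  have key := card_tuples (m := m) S B₁ B₂ h₁ h₂
  have hsub : (Fintype.piFinset fun _ : Fin m => S).filter (fun f => ¬ GoodFam q r f) ⊆
      (Fintype.piFinset fun _ : Fin m => S).filter
      (fun f => (∃ i, f i ∈ B₁) ∨ ∃ i j, i ≠ j ∧ (f i, f j) ∈ B₂) := by
    intro f hf
    obtain ⟨h3, h4⟩ := Finset.mem_filter.1 hf
    refine Finset.mem_filter.2 ⟨h3, ?_⟩
    rw [Fintype.mem_piFinset] at h3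
    by_contra hcon
    push Not at hcon
    obtain ⟨h5, h6⟩ := hcon
    apply h4
    refine ⟨?_, ?_, ?_⟩
    · intro i
      by_contra h9
      exact h5 i (Finset.mem_filter.2 ⟨h3 i, Or.inl h9⟩)
    · intro i
      by_contra h9
      refine h5 i (Finset.mem_filter.2 ⟨h3 i, Or.inr ?_⟩)
      rintro ⟨l, hl, h10⟩
      exact h9 ⟨l, l.2, by have := hP8 l hl; omega, hPq l hl, h10⟩
    · intro i j hji
      by_contra h9
      refine h6 i j (fun h => hji h.symm) (Finset.mem_filter.2 ⟨Finset.mem_product.2 ⟨h3 i, h3 j⟩, ?_⟩)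
      rintro ⟨l, hl, h10, h11⟩
      exact h9 ⟨l, l.2, by have := hP8 l hl; omega, hPq l hl, h10, h11⟩
  have h3 : (((Fintype.piFinset fun _ : Fin m => S).filter (fun f => ¬ GoodFam q r f)).card : ℝ) ≤
      (((Fintype.piFinset fun _ : Fin m => S).filter
      (fun f => (∃ i, f i ∈ B₁) ∨ ∃ i j, i ≠ j ∧ (f i, f j) ∈ B₂)).card : ℝ) := by
    exact_mod_cast Finset.card_le_card hsub
  refine (h3.trans ?_).trans ((key).trans (le_of_eq ?_))
  · refine le_of_eq ?_
    congr!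
  · ring

end Pool.Agent.J4H9.Tuples
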