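import Mathlib
import Pool.Agent.J4H9.Tuples
import Pool.Agent.J4H9.Low
import Pool.Agent.J4H9.Stm

/-!
# The exceptional tuples of Weil polynomials
-/

set_option autoImplicit false

namespace Pool.Agent.J4H9.Final

open Polynomial Filter Pool.Agent.W521.Frob Pool.Agent.W521.Descent Pool.Agent.W521.Lower
  Pool.Agent.W521.Count Pool.Agent.J4H9.Ch Pool.Agent.J4H9.Cover Pool.Agent.J4H9.Size
  Pool.Agent.J4H9.Alg Pool.Agent.J4H9.Basis Pool.Agent.J4H9.Dick Pool.Agent.J4H9.Stm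

open Classical in
/-- The main bound for sets of Weil polynomials. -/
theorem transfer {κ δ ε : ℝ} (hκ : 1 / 2 ≤ κ) (hκ1 : κ < 1) (hδ : 0 ≤ δ) (hε : 0 < ε)
    (hε1 : δ / 2 + ε < (1 - κ) / 4) :
    ∀ᶠ g : ℕ in atTop, ∀ q : ℕ,
    IsPrimePow q → ∀ (Λ : Type) (Λ₀ : Finset Λ) (M : Λ → ℕ → ℕ) (𝒯 : Λ → ℕ → Finset ℤ[X]),
    (∀ i ∈ Λ₀, Chain (M i) g (𝒯 i)) → (∀ i ∈ Λ₀, 𝒯 i g = {1}) →
    (∀ i ∈ Λ₀, ∀ k < g, Real.sqrt q ^ (g - k) ≤ (q : ℝ) ^ (δ * g) * M i k) →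
    ∀ (K : ℝ), 1 ≤ K → ∀ S : Set ℤ[X], S ⊆ weilPolys q g →
    (∀ f ∈ S, ∃ i ∈ Λ₀, ∃ h ∈ 𝒯 i 0, weil q h = f) →
    ((Pair.uni Λ₀ 𝒯).card : ℝ) ≤ K * S.ncard → ∀ m : ℕ,
    ({f : Fin m → ℤ[X] | (∀ i, f i ∈ S) ∧ ¬ Holds q ⌊κ * g⌋₊ f}.ncard : ℝ) ≤
      ((m : ℝ) ^ 2 * K * (q : ℝ) ^ (-(((1 - κ) / 4 - δ / 2 - ε) * g))) *
        (S.ncard : ℝ) ^ m := by
  filter_upwards [Tuples.main hκ hκ1 hδ hε hε1] with g hmain
  obtain ⟨r, hr, hr2, hκr, hgr, H⟩ := hmain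
  intro q hq Λ Λ₀ M 𝒯 hc htop hM K hK S hSW hS𝒯 hKS m
  have hq0 : q ≠ 0 := hq.pos.ne'
  have hbr : ⌊κ * g⌋₊ < r := by
    have h1 := Nat.floor_le (show 0 ≤ κ * (g : ℝ) by positivity)
    have h2 : ((⌊κ * (g : ℝ)⌋₊ : ℕ) : ℝ) < r := lt_of_le_of_lt h1 hκr
    exact_mod_cast h2
  have hmon : ∀ i ∈ Λ₀, ∀ f ∈ 𝒯 i 0, f.Monic ∧ f.natDegree = g := fun i hi f hf => by
    have := monic_of_chain (hc i hi) (htop i hi) 0 (Nat.zero_le _) f hf
    exact ⟨this.1, by omega⟩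
  let S' : Finset ℤ[X] := (Λ₀.biUnion fun i => 𝒯 i 0).filter (fun h => weil q h ∈ S)
  have hS' : ∀ h ∈ S', (∃ i ∈ Λ₀, h ∈ 𝒯 i 0) ∧ weil q h ∈ S := by
    intro h hh
    obtain ⟨h1, h2⟩ := Finset.mem_filter.1 hh
    obtain ⟨i, hi, h3⟩ := Finset.mem_biUnion.1 h1
    exact ⟨⟨i, hi, h3⟩, h2⟩
  have hmon' : ∀ h ∈ S', h.Monic ∧ h.natDegree = g := by
    intro h hh
    obtain ⟨⟨i, hi, h1⟩, -⟩ := hS' h hh
    exact hmon i hi h h1
  have himg : S = (fun h => weil q h) '' (S' : Set ℤ[X]) := by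
    ext f
    constructor
    · intro hf
      obtain ⟨i, hi, h, h1, h2⟩ := hS𝒯 f hf
      exact ⟨h, Finset.mem_coe.2 (Finset.mem_filter.2 ⟨Finset.mem_biUnion.2 ⟨i, hi, h1⟩,
        by rw [h2]; exact hf⟩), h2⟩
    · rintro ⟨h, h1, rfl⟩
      exact (hS' h (Finset.mem_coe.1 h1)).2
  have hinj : Set.InjOn (fun h => weil q h) (S' : Set ℤ[X]) := by
    intro h h1 h' h1' heq
    exact weil_injective hq0 (hmon' h (Finset.mem_coe.1 h1)).2
      (hmon' h' (Finset.mem_coe.1 h1')).2 heq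
  have hcard : S.ncard = S'.card := by
    rw [himg, Set.InjOn.ncard_image hinj, Set.ncard_coe_finset]
  rw [hcard] at hKS ⊢
  have hS'W : ∀ h ∈ S', weil q h ∈ weilPolys q g := fun h hh => hSW (hS' h hh).2
  have key := H q hq Λ Λ₀ M 𝒯 hc htop hM K hK S' (fun h hh => (hS' h hh).1) hS'W hKS m
  refine le_trans ?_ key
  have hsub : {f : Fin m → ℤ[X] | (∀ i, f i ∈ S) ∧ ¬ Holds q ⌊κ * g⌋₊ f} ⊆
      (fun (h : Fin m → ℤ[X]) (i : Fin m) => weil q (h i)) ''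
        (((Fintype.piFinset fun _ : Fin m => S').filter
      (fun f => ¬ GoodFam q r f) : Finset (Fin m → ℤ[X])) : Set (Fin m → ℤ[X])) := by
    rintro f ⟨h1, h2⟩
    have h3 : ∀ i, ∃ h ∈ S', weil q h = f i := by
      intro i
      have h4 := h1 i
      rw [himg] at h4
      obtain ⟨h, h5, h6⟩ := h4
      exact ⟨h, Finset.mem_coe.1 h5, h6⟩
    choose h h4 h5 using h3
    have h6 : (fun i => weil q (h i)) = f := funext h5
    refine ⟨h, Finset.mem_coe.2 (Finset.mem_filter.2 ⟨Fintype.mem_piFinset.2 h4, ?_⟩), h6⟩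
    intro hgood
    apply h2
    rw [← h6]
    have h8 : ∀ i, (h i).Monic ∧ (h i).natDegree = g := fun i => hmon' (h i) (h4 i)
    exact holds_of_good (r := r) (g := g) hq0 (fun i => (h8 i).1) (fun i => (h8 i).2.le) hr hr2 hgr
      hbr hgood fun i z hz => (hS'W _ (h4 i)).2.2.2 z hz
  have h1 : {f : Fin m → ℤ[X] | (∀ i, f i ∈ S) ∧ ¬ Holds q ⌊κ * g⌋₊ f}.ncard ≤
      ((Fintype.piFinset fun _ : Fin m => S').filter (fun f => ¬ GoodFam q r f)).card := by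
    refine (Set.ncard_le_ncard hsub ((Finset.finite_toSet _).image _)).trans ?_
    refine (Set.ncard_image_le (Finset.finite_toSet _)).trans ?_
    rw [Set.ncard_coe_finset]
  exact_mod_cast h1

/-- **Sets of Weil polynomials of positive density.** -/
theorem large {κ ε : ℝ} (hκ : 1 / 2 ≤ κ) (hκ1 : κ < 1) (hε : 0 < ε) (hε1 : ε < (1 - κ) / 4) :
    ∀ᶠ g : ℕ in atTop, ∀ q : ℕ,
    IsPrimePow q → ∀ (S : Set ℤ[X]) (D : ℝ), S ⊆ weilPolys q g → 1 ≤ D →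
    ((ordinaryWeilPolys q g).ncard : ℝ) ≤ D * S.ncard → ∀ m : ℕ,
    ({f : Fin m → ℤ[X] | (∀ i, f i ∈ S) ∧ ¬ Holds q ⌊κ * g⌋₊ f}.ncard : ℝ) ≤
      (m : ℝ) ^ 2 * (D * (16 * g) ^ g) *
        (q : ℝ) ^ (-(((1 - κ) / 4 - ε) * g)) * (S.ncard : ℝ) ^ m := by
  have hpow : ∀ᶠ g : ℕ in atTop, (4 : ℝ) * 15 ^ g ≤ 16 ^ g := by
    have h1 := tendsto_pow_const_div_const_pow_of_one_lt 0 (r := (16 / 15 : ℝ)) (by norm_num)
    filter_upwards [h1.eventually_le_const (show (0 : ℝ) < 1 / 4 by norm_num)] with g hg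
    rw [pow_zero, div_pow, one_div_div, div_le_div_iff₀ (by positivity) (by norm_num)] at hg
    linarith
  filter_upwards [transfer hκ hκ1 le_rfl hε (show 0 / 2 + ε < (1 - κ) / 4 by linarith), hpow, eventually_ge_atTop 4] with g htr hpow hg4
  intro q hq S D hSW hD hDS m
  have hq0 : 0 < q := hq.pos
  have hq1 : (1 : ℝ) ≤ q := by exact_mod_cast hq0
  have hgR : (4 : ℝ) ≤ g := by exact_mod_cast hg4
  obtain ⟨𝒯, hc, hsub, htop⟩ := cover_real hq0 g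
  have hlow := Low.ordinary_lower hq hg4
  have hup := card_cover_le hq0 hc htop
  set K : ℝ := D * (16 * g) ^ g with hK
  have hg1 : (1 : ℝ) ≤ (16 * (g : ℝ)) ^ g := one_le_pow₀ (by linarith)
  have hK1 : 1 ≤ K := by
    rw [hK]
    nlinarith
  have hKS : ((𝒯 0).card : ℝ) ≤ K * S.ncard := by
    calc ((𝒯 0).card : ℝ) ≤ 15 ^ g * tri q g := hup
      _ ≤ 15 ^ g * (4 * (g : ℝ) ^ g * ((ordinaryWeilPolys q g).ncard : ℝ)) :=
          mul_le_mul_of_nonneg_left hlow (by positivity)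
      _ ≤ 15 ^ g * (4 * (g : ℝ) ^ g * (D * S.ncard)) :=
          mul_le_mul_of_nonneg_left (mul_le_mul_of_nonneg_left hDS (by positivity)) (by positivity)
      _ = (4 * 15 ^ g) * ((g : ℝ) ^ g * (D * S.ncard)) := by ring
      _ ≤ 16 ^ g * ((g : ℝ) ^ g * (D * S.ncard)) := by
          refine mul_le_mul_of_nonneg_right hpow ?_
          have : 0 ≤ D := by linarith
          positivity
      _ = _ := by
          rw [hK, mul_pow]
          ring
  have hcardU : (Pair.uni (Finset.univ : Finset Unit) (fun _ => 𝒯)).card = (𝒯 0).card := by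
    rw [Finset.card_sigma]
    simp
  have key := htr q hq Unit Finset.univ (fun _ => len q g) (fun _ => 𝒯) (fun _ _ => hc)
    (fun _ _ => htop) (fun _ _ k hk => by
    have h1 := le_len (q := q) hk
    rw [zero_mul, Real.rpow_zero, one_mul]
    exact h1) K hK1 S hSW (fun f hf => by
    obtain ⟨h, h1, h2, h3⟩ := exists_real hq0.ne' (hSW hf)
    refine ⟨(), Finset.mem_univ _, h, hsub ⟨h1, h2, ?_⟩, h3.symm⟩
    rw [← h3]
    exact hSW hf) (by rw [hcardU]; exact hKS) m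
  rw [zero_div, sub_zero] at key
  exact key

/-- The polynomials
`T ^ 2g + a₁ T ^ (2g - 1) + … + a_g T ^ g + q a_{g - 1} T ^ (g - 1) + … + q ^ g` with
`lo j ≤ a_j ≤ hi j`. -/
def box (q g : ℕ) (lo hi : ℕ → ℤ) : Set ℤ[X] :=
  {f | ∃ a : ℕ → ℤ, (∀ j ∈ Finset.Icc 1 g, lo j ≤ a j ∧ a j ≤ hi j) ∧ f = recip q g a}

section

open Classical

/-- The chain of a box. -/
noncomputable def tow (q g : ℕ) (lo hi : ℕ → ℤ) : ℕ → Finset ℤ[X] := fun j =>
  (Fintype.piFinset fun k : Fin g => Finset.Icc (lo (g - k)) (hi (g - k))).image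
    fun e => divX^[j] (comb (bas q) g e)

variable {q g : ℕ} {lo hi : ℕ → ℤ} (hne : ∀ j ∈ Finset.Icc 1 g, lo j ≤ hi j)

include hne

theorem tow_chain : Chain (fun k => (hi (g - k) - lo (g - k) + 1).toNat) g (tow q g lo hi) :=
  chain_box (bas_monic q) (fun k => lo (g - k)) (fun k => hi (g - k)) fun k hk =>
    hne (g - k) (Finset.mem_Icc.2 ⟨by omega, by omega⟩)

theorem tow_top : tow q g lo hi g = {1} :=
  box_top (bas_monic q) (fun k => lo (g - k)) (fun k => hi (g - k)) fun k hk =>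
    hne (g - k) (Finset.mem_Icc.2 ⟨by omega, by omega⟩)

theorem box_eq_image (hg : 1 ≤ g) :
    box q g lo hi = (fun h => weil q h) '' (tow q g lo hi 0 : Set ℤ[X]) := by
  ext f
  constructor
  · rintro ⟨a, ha, rfl⟩
    refine ⟨comb (bas q) g (fun k : Fin g => a (g - k)), ?_, weil_comb hg a⟩
    refine Finset.mem_coe.2 (Finset.mem_image.2 ⟨_, ?_, rfl⟩)
    rw [Fintype.mem_piFinset]
    intro k
    exact Finset.mem_Icc.2 (ha (g - k) (Finset.mem_Icc.2 ⟨by omega, by omega⟩))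
  · rintro ⟨h, h1, rfl⟩
    obtain ⟨e, he, rfl⟩ := Finset.mem_image.1 (Finset.mem_coe.1 h1)
    rw [Fintype.mem_piFinset] at he
    let a : ℕ → ℤ := fun j => if h : g - j < g then e ⟨g - j, h⟩ else 0
    have ha : ∀ k : Fin g, a (g - k) = e k := by
      intro k
      have h1 : g - (g - (k : ℕ)) = k := by omega
      have h2 : g - (g - (k : ℕ)) < g := by omega
      simp only [a, dif_pos h2]
      congr 1
      exact Fin.ext h1
    refine ⟨a, ?_, ?_⟩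
    · intro j hj
      have hj' := Finset.mem_Icc.1 hj
      have h1 := ha ⟨g - j, by omega⟩
      have h2 : g - (g - j) = j := by omega
      simp only [h2] at h1
      rw [h1]
      have h3 := Finset.mem_Icc.1 (he ⟨g - j, by omega⟩)
      simp only [h2] at h3
      exact h3
    · rw [← weil_comb hg]
      change weil q (comb (bas q) g e) = _
      congr 2
      funext k
      exact (ha k).symm

theorem ncard_box (hq : q ≠ 0) (hg : 1 ≤ g) :
    (box q g lo hi).ncard = (tow q g lo hi 0).card := by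
  have hmon := monic_of_chain (tow_chain (q := q) hne) (tow_top hne)
  have hinj : Set.InjOn (fun h => weil q h) (tow q g lo hi 0 : Set ℤ[X]) := by
    intro h h1 h' h1' heq
    have h2 := hmon 0 (Nat.zero_le _) h (Finset.mem_coe.1 h1)
    have h3 := hmon 0 (Nat.zero_le _) h' (Finset.mem_coe.1 h1')
    exact weil_injective hq (g := g) (by omega) (by omega) heq
  rw [box_eq_image hne hg, Set.InjOn.ncard_image hinj, Set.ncard_coe_finset]

theorem ncard_box_eq (hq : q ≠ 0) (hg : 1 ≤ g) :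
    (box q g lo hi).ncard = ∏ j ∈ Finset.Icc 1 g, (hi j - lo j + 1).toNat := by
  have h1 := (tow_chain (q := q) hne).card g le_rfl
  rw [tow_top hne, Finset.card_singleton, mul_one] at h1
  rw [ncard_box hne hq hg, h1]
  have h4 := Finset.prod_Ico_reflect (fun j => (hi j - lo j + 1).toNat) 0
    (show g ≤ g + 1 by omega)
  have h5 : g + 1 - g = 1 := by omega
  rw [h5, Nat.sub_zero] at h4
  have h6 : Finset.Ico 1 (g + 1) = Finset.Icc 1 g := by
    ext j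
    rw [Finset.mem_Ico, Finset.mem_Icc]
    omega
  rw [← h6, ← h4, Finset.range_eq_Ico]

end

/-- **Unions of boxes.** -/
theorem boxes {κ δ ε : ℝ} (hκ : 1 / 2 ≤ κ) (hκ1 : κ < 1) (hδ : 0 ≤ δ) (hε : 0 < ε)
    (hε1 : δ / 2 + ε < (1 - κ) / 4) :
    ∀ᶠ g : ℕ in atTop, ∀ q : ℕ,
    IsPrimePow q → ∀ (Λ : Type) (Λ₀ : Finset Λ) (lo hi : Λ → ℕ → ℤ),
    (∀ i ∈ Λ₀, ∀ j ∈ Finset.Icc 1 g, Real.sqrt q ^ j ≤
      (q : ℝ) ^ (δ * g) * ((hi i j - lo i j + 1 : ℤ) : ℝ)) →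
    ∀ (S : Set ℤ[X]) (K : ℝ), S ⊆ weilPolys q g → (∀ f ∈ S, ∃ i ∈ Λ₀, f ∈ box q g (lo i) (hi i)) →
      1 ≤ K → (∑ i ∈ Λ₀, ((box q g (lo i) (hi i)).ncard : ℝ)) ≤ K * S.ncard → ∀ m : ℕ,
      ({f : Fin m → ℤ[X] | (∀ i, f i ∈ S) ∧ ¬ Holds q ⌊κ * g⌋₊ f}.ncard : ℝ) ≤
        (m : ℝ) ^ 2 * K * (q : ℝ) ^ (-(((1 - κ) / 4 - δ / 2 - ε) * g)) *
          (S.ncard : ℝ) ^ m := by
  filter_upwards [transfer hκ hκ1 hδ hε hε1, eventually_ge_atTop 1] with g htr hg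
  intro q hq Λ Λ₀ lo hi hlen S K hSW hSB hK hKS m
  have hq0 : 0 < q := hq.pos
  have hqR : (0 : ℝ) < q := by exact_mod_cast hq0
  have hs : 0 < Real.sqrt q := Real.sqrt_pos.2 hqR
  have hpos : ∀ i ∈ Λ₀, ∀ j ∈ Finset.Icc 1 g, 0 < hi i j - lo i j + 1 := by
    intro i hi' j hj
    by_contra hcon
    push Not at hcon
    have h1 : ((hi i j - lo i j + 1 : ℤ) : ℝ) ≤ 0 := by exact_mod_cast hcon
    have h2 := hlen i hi' j hj
    have h3 : 0 < Real.sqrt q ^ j := by positivity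
    have h4 : 0 < (q : ℝ) ^ (δ * g) := by positivity
    nlinarith
  have hne : ∀ i ∈ Λ₀, ∀ j ∈ Finset.Icc 1 g, lo i j ≤ hi i j := by
    intro i hi' j hj
    have := hpos i hi' j hj
    omega
  refine htr q hq Λ Λ₀ (fun i k => (hi i (g - k) - lo i (g - k) + 1).toNat)
    (fun i => tow q g (lo i) (hi i)) (fun i hi' => tow_chain (hne i hi'))
    (fun i hi' => tow_top (hne i hi')) ?_ K hK S hSW ?_ ?_ m
  · intro i hi' k hk
    have h1 := hlen i hi' (g - k) (Finset.mem_Icc.2 ⟨by omega, by omega⟩)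
    have h2 := hpos i hi' (g - k) (Finset.mem_Icc.2 ⟨by omega, by omega⟩)
    have h3 : (((hi i (g - k) - lo i (g - k) + 1).toNat : ℕ) : ℝ) =
        ((hi i (g - k) - lo i (g - k) + 1 : ℤ) : ℝ) := by
      have h4 : (((hi i (g - k) - lo i (g - k) + 1).toNat : ℕ) : ℤ) =
        hi i (g - k) - lo i (g - k) + 1 := Int.toNat_of_nonneg h2.le
      exact_mod_cast h4
    rw [h3]
    exact h1
  · intro f hf
    obtain ⟨i, hi', h1⟩ := hSB f hf
    rw [box_eq_image (hne i hi') hg] at h1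
    obtain ⟨h, h2, h3⟩ := h1
    exact ⟨i, hi', h, Finset.mem_coe.1 h2, h3⟩
  · refine le_trans (le_of_eq ?_) hKS
    rw [Finset.card_sigma]
    push_cast
    exact Finset.sum_congr rfl fun i hi' => by rw [ncard_box (hne i hi') hq0.ne' hg]

end Pool.Agent.J4H9.Final
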