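import Mathlib
import Pool.Agent.J4H9.Final
import Pool.Agent.J4H9.Asym

/-!
# All Weil polynomials over a fixed finite field
-/

set_option autoImplicit false

namespace Pool.Agent.J4H9.AllW

open Polynomial Filter Pool.Agent.W521.Frob Pool.Agent.W521.Descent Pool.Agent.W521.Lower
  Pool.Agent.W521.Count Pool.Agent.J4H9.Ch Pool.Agent.J4H9.Cover Pool.Agent.J4H9.Size
  Pool.Agent.J4H9.Cover2 Pool.Agent.J4H9.Stm Pool.Agent.J4H9.Final

theorem le_len2 {q g j : ℕ} {E : ℝ} (hE : 40 * (g : ℝ) ≤ E) (hj : j < g) :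
    Real.sqrt q ^ (g - j) ≤ E * (len2 (1 / 40) q g j : ℝ) := by
  have h0 : (0 : ℝ) < (g - j : ℕ) := by
    have : 0 < g - j := by omega
    exact_mod_cast this
  have h1 : ((g - j : ℕ) : ℝ) ≤ g := by exact_mod_cast Nat.sub_le g j
  have h2 := Nat.lt_floor_add_one (1 / 40 * Real.sqrt q ^ (g - j) / ((g - j : ℕ) : ℝ))
  have h3 : 1 / 40 * Real.sqrt q ^ (g - j) / ((g - j : ℕ) : ℝ) ≤ (len2 (1 / 40) q g j : ℝ) := by
    unfold len2
    push_cast
    exact h2.le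
  have h4 : (0 : ℝ) ≤ Real.sqrt q ^ (g - j) := by positivity
  have hE0 : 0 ≤ E := by
    have : (0 : ℝ) ≤ g := Nat.cast_nonneg g
    linarith
  calc Real.sqrt q ^ (g - j) =
      (40 * ((g - j : ℕ) : ℝ)) * (1 / 40 * Real.sqrt q ^ (g - j) / ((g - j : ℕ) : ℝ)) := by
        field_simp
    _ ≤ E * (1 / 40 * Real.sqrt q ^ (g - j) / ((g - j : ℕ) : ℝ)) :=
        mul_le_mul_of_nonneg_right (by linarith) (by positivity)
    _ ≤ _ := mul_le_mul_of_nonneg_left h3 hE0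

/-- The number of all tuples. -/
theorem card_tuples_le {S : Set ℤ[X]} (hS : S.Finite) (m : ℕ) (P : (Fin m → ℤ[X]) → Prop) :
    ({f : Fin m → ℤ[X] | (∀ i, f i ∈ S) ∧ P f}.ncard : ℝ) ≤ (S.ncard : ℝ) ^ m := by
  classical
  have h1 : {f : Fin m → ℤ[X] | (∀ i, f i ∈ S) ∧ P f} ⊆
      ((Fintype.piFinset fun _ : Fin m => hS.toFinset : Finset (Fin m → ℤ[X])) :
        Set (Fin m → ℤ[X])) := by
    rintro f ⟨hf, -⟩
    rw [Finset.mem_coe, Fintype.mem_piFinset]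
    exact fun i => (Set.Finite.mem_toFinset hS).2 (hf i)
  have h2 := Set.ncard_le_ncard h1 (Finset.finite_toSet _)
  rw [Set.ncard_coe_finset, Fintype.card_piFinset, Finset.prod_const, Finset.card_univ,
    Fintype.card_fin, ← Set.ncard_eq_toFinset_card S hS] at h2
  exact_mod_cast h2

/-- **All Weil polynomials.** -/
theorem all {κ ε : ℝ} (hκ : 1 / 2 ≤ κ) (hκ1 : κ < 1) (hε : 0 < ε) (hε1 : ε < (1 - κ) / 4) :
    ∀ᶠ g : ℕ in atTop, ∀ q : ℕ,
    IsPrimePow q → ∀ (S : Set ℤ[X]) (D : ℝ), S ⊆ weilPolys q g → 1 ≤ D →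
    ((ordinaryWeilPolys q g).ncard : ℝ) ≤ D * S.ncard → ∀ m : ℕ,
    ({f : Fin m → ℤ[X] | (∀ i, f i ∈ S) ∧ ¬ Holds q ⌊κ * g⌋₊ f}.ncard : ℝ) ≤
      (m : ℝ) ^ 2 * D * 8 ^ g *
        (q : ℝ) ^ (-(((1 - κ) / 4 - ε) * g)) * (S.ncard : ℝ) ^ m := by
  filter_upwards [transfer hκ hκ1 hε.le (show 0 < ε / 2 by linarith)
    (show ε / 2 + ε / 2 < (1 - κ) / 4 by linarith), Asym.cover_small, large hκ hκ1 hε hε1,
    Engine.poly_le hε 40 1] with g htr hcov hlarge hpoly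
  intro q hq S D hSW hD hDS m
  have hq0 : 0 < q := hq.pos
  have hq1 : (1 : ℝ) ≤ q := by exact_mod_cast hq0
  have hq2 : (2 : ℝ) ≤ q := by exact_mod_cast hq.two_le
  have hqR : (0 : ℝ) < q := by linarith
  have hSfin : S.Finite := (finite_weilPolys hq0.ne').subset hSW
  rcases le_or_gt (2 ^ 20) q with hq20 | hq20
  · obtain ⟨Λ₀, 𝒯, hc, htop, hcv, hcard⟩ := hcov q hq hq20
    have h8 : (1 : ℝ) ≤ 8 ^ g := one_le_pow₀ (by norm_num)
    have hE : 40 * (g : ℝ) ≤ (q : ℝ) ^ (ε * g) := by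
      rw [pow_one] at hpoly
      exact hpoly.trans (Real.rpow_le_rpow (by norm_num) hq2 (by positivity))
    have key := htr q hq (Fin (g + 1) → ℤ) Λ₀ (fun _ => len2 (1 / 40) q g) 𝒯 hc htop
      (fun _ _ k hk => le_len2 hE hk) (D * 8 ^ g) (by nlinarith) S hSW (fun f hf => by
      obtain ⟨h, h1, h2, h3⟩ := exists_real hq0.ne' (hSW hf)
      obtain ⟨z, hz, h4⟩ := hcv h ⟨h1, h2, by
        rw [← h3]
        exact hSW hf⟩
      exact ⟨z, hz, h, h4, h3.symm⟩) (by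
      refine hcard.trans ?_
      calc (8 : ℝ) ^ g * ((ordinaryWeilPolys q g).ncard : ℝ) ≤ 8 ^ g * (D * S.ncard) :=
            mul_le_mul_of_nonneg_left hDS (by positivity)
        _ = _ := by ring) m
    refine key.trans (le_of_eq ?_)
    have e : -(((1 - κ) / 4 - ε / 2 - ε / 2) * (g : ℝ)) = -(((1 - κ) / 4 - ε) * g) := by ring
    rw [e]
    ring
  · rcases Nat.eq_zero_or_pos m with hm | hm
    · subst hm
      have h1 := hlarge q hq S D hSW hD hDS 0
      refine h1.trans (le_of_eq ?_)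
      simp
    · refine (card_tuples_le hSfin m _).trans ?_
      have hm1 : (1 : ℝ) ≤ (m : ℝ) ^ 2 := by
        have : (1 : ℝ) ≤ m := by exact_mod_cast hm
        exact one_le_pow₀ this
      have h1 : (1 : ℝ) ≤ 8 ^ g * (q : ℝ) ^ (-(((1 - κ) / 4 - ε) * g)) := by
        rw [Real.rpow_neg hqR.le, ← div_eq_mul_inv, le_div_iff₀ (by positivity), one_mul]
        have h2 : (q : ℝ) ≤ 2 ^ (20 : ℝ) := by
          have : (q : ℝ) < 2 ^ 20 := by exact_mod_cast hq20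
          have e : (2 : ℝ) ^ (20 : ℝ) = 2 ^ 20 := by
            rw [← Real.rpow_natCast]
            norm_num
          rw [e]
          exact this.le
        have hexp : 0 ≤ ((1 - κ) / 4 - ε) * (g : ℝ) := mul_nonneg (by linarith) (Nat.cast_nonneg g)
        calc (q : ℝ) ^ (((1 - κ) / 4 - ε) * g) ≤ (2 ^ (20 : ℝ)) ^ (((1 - κ) / 4 - ε) * (g : ℝ)) :=
              Real.rpow_le_rpow hqR.le h2 hexp
          _ = 2 ^ (20 * (((1 - κ) / 4 - ε) * (g : ℝ))) := by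
              rw [← Real.rpow_mul (by norm_num)]
          _ ≤ 2 ^ (3 * (g : ℝ)) := by
              refine Real.rpow_le_rpow_of_exponent_le (by norm_num) ?_
              have : (0 : ℝ) ≤ g := Nat.cast_nonneg g
              nlinarith
          _ = 8 ^ g := by
              rw [Real.rpow_mul (by norm_num), Real.rpow_natCast]
              norm_num
      have hS0 : (0 : ℝ) ≤ (S.ncard : ℝ) ^ m := by positivity
      have h2 : (1 : ℝ) ≤ (m : ℝ) ^ 2 * D * (8 ^ g * (q : ℝ) ^ (-(((1 - κ) / 4 - ε) * g))) := by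
        have h3 : (1 : ℝ) ≤ (m : ℝ) ^ 2 * D := by nlinarith
        nlinarith
      calc (S.ncard : ℝ) ^ m = 1 * (S.ncard : ℝ) ^ m := (one_mul _).symm
        _ ≤ (m : ℝ) ^ 2 * D * (8 ^ g * (q : ℝ) ^ (-(((1 - κ) / 4 - ε) * g))) *
            (S.ncard : ℝ) ^ m := mul_le_mul_of_nonneg_right h2 hS0
        _ = _ := by ring

end Pool.Agent.J4H9.AllW
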