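import Mathlib
import Pool.Agent.Q282.UZ.Ord

/-!
# Abelian varieties over finite fields, their zeta functions, and the schemes built from them
-/

set_option autoImplicit false

open CategoryTheory CategoryTheory.Limits AlgebraicGeometry Polynomial Pool.Agent.Y116.UV

universe w

namespace Pool.Agent.J4H9.BS

/-- The scheme `B` over the field `k`, as a scheme over `ℤ`. -/
noncomputable def toZ {k : Type} [Field k] (B : Over (Spec (CommRingCat.of k))) : Sch ℤ :=
  Over.mk (B.hom ≫ Spec.map (CommRingCat.ofHom (algebraMap ℤ k)))

/-- The points of `B` with values in the extension `K` of `k`. -/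
abbrev Points {k : Type} [Field k] (B : Over (Spec (CommRingCat.of k))) (K : Type) [Field K]
    [Algebra k K] : Type :=
  {x : Spec (CommRingCat.of K) ⟶ B.left //
    x ≫ B.hom = Spec.map (CommRingCat.ofHom (algebraMap k K))}

/-- `B` is an abelian variety over `k`: a proper geometrically integral group scheme. -/
structure IsAbelianVariety {k : Type} [Field k] (B : Over (Spec (CommRingCat.of k))) : Prop where
  proper : IsProper B.hom
  integral : GeometricallyIntegral B.hom
  group : Nonempty (GrpObj B)

/-- `h` is the characteristic polynomial of the Frobenius endomorphism of the abelian variety `B`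
over the finite field `k`: it is monic with integral coefficients, its complex roots have the absolute
value `√q`, `q` the number of elements of `k`, and `B` has `∏ (1 - z ^ n)` points with values in the
extensions of degree `n`, where `z` runs through the roots of `h`. -/
structure IsWeilPolynomial {k : Type} [Field k] (B : Over (Spec (CommRingCat.of k))) (h : ℤ[X]) :
    Prop where
  monic : h.Monic
  norm : ∀ z : ℂ, aeval z h = 0 → ‖z‖ ^ 2 = Nat.card k
  points : ∀ (K : Type) [Field K] [Finite K] [Algebra k K], (Nat.card (Points B K) : ℂ) =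
    ((h.aroots ℂ).map fun z => 1 - z ^ Module.finrank k K).prod

/-- The rational function `∏ (1 - ∏_{z ∈ S} z · q^{-s}) ^ (-(-1)^{|S|})` of `q^{-s}`, for the
subsets `S` of `R`. -/
noncomputable def weilZeta (q : ℕ) (R : Multiset ℂ) (s : ℂ) : ℂ :=
  (R.powerset.map fun S => (1 - S.prod * (q : ℂ) ^ (-s)) ^ (-(-1 : ℤ) ^ Multiset.card S)).prod

/-- The number of the subsets `S` of the family of the complex roots of `h` (with multiplicities) whose
product is `q ^ m`: the order of the pole of the zeta function at `s = m`. -/
noncomputable def tateNumber (q : ℕ) (h : ℤ[X]) (m : ℤ) : ℕ :=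
  open Classical in
  Multiset.card ((h.aroots ℂ).powerset.filter fun S => S.prod = (q : ℂ) ^ m)

/-- `S` is a union of pairs `x, y` such that `x y / Q` is a root of unity. -/
def IsUnionOfPairs (Q : ℕ) (S : Multiset ℂ) : Prop :=
  ∃ T : Multiset (ℂ × ℂ), S = T.map Prod.fst + T.map Prod.snd ∧
    ∀ t ∈ T, ∃ n : ℕ, 0 < n ∧ (t.1 * t.2) ^ n = (Q : ℂ) ^ n

/-- All Tate classes, over all finite extensions of the field with `Q` elements, on an abelian variety
with the characteristic polynomial `h` of Frobenius are combinations of products of Tate classes of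
degree two: each set `S` of roots such that the product of the elements of `S` is `Q ^ m`, up to a root
of unity, is a union of such pairs. -/
def NoExotic (Q : ℕ) (h : ℤ[X]) : Prop :=
  ∀ S ≤ h.aroots ℂ, ∀ m n : ℕ, 0 < n → S.prod ^ n = ((Q : ℂ) ^ m) ^ n → IsUnionOfPairs Q S

/-- `π` is an affine bundle of rank `n`: over small open sets it is the affine space. -/
def IsAffineBundle (n : ℕ) {E X : Sch ℤ} (π : E ⟶ X) : Prop :=
  ∀ x : X.left, ∃ U : X.left.Opens, x ∈ U ∧
    ∃ e : (π.left ⁻¹ᵁ U).toScheme ≅ 𝔸(Fin n; U.toScheme),
      e.hom ≫ (𝔸(Fin n; U.toScheme) ↘ U.toScheme) = π.left ∣_ U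

/-- The properties of the groups `A m k X = CH_m(X, k) ⊗ ℚ`, for the schemes `X` of finite type over
`ℤ`: those of `IsChow`, and the homotopy invariance for affine bundles. -/
structure IsChowTheory (A : ℤ → ℤ → Sch ℤ → ModuleCat.{w} ℚ) : Prop extends
    Pool.Agent.Q282.UZ.IsChow A where
  bundle : ∀ {E X : Sch ℤ} (n : ℕ) (π : E ⟶ X), FT False E → FT False X → IsAffineBundle n π →
    ∀ m k : ℤ, Nonempty (A (m + n) k E ≅ A m k X)

/-- **The theorem of Kahn** (2003; with the theorems of Tate 1966 and Soulé 1984) for `A`: let `B` be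
an abelian variety over the finite field `k` such that all Tate classes are combinations of products of
Tate classes of degree two (so they are algebraic, by Tate). Then `CH_m(B, j) ⊗ ℚ` is zero for `j ≠ 0`,
and the dimension of `CH_m(B) ⊗ ℚ` is the number of the Tate classes. -/
def KahnTheorem (A : ℤ → ℤ → Sch ℤ → ModuleCat.{w} ℚ) : Prop :=
  ∀ (k : Type) [Field k] [Finite k] (B : Over (Spec (CommRingCat.of k))) (h : ℤ[X]),
    IsAbelianVariety B → IsWeilPolynomial B h → NoExotic (Nat.card k) h → ∀ m : ℤ,
      (∀ j : ℤ, j ≠ 0 → Subsingleton (A m j (toZ B))) ∧ Module.Finite ℚ (A m 0 (toZ B)) ∧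
        Module.finrank ℚ (A m 0 (toZ B)) = tateNumber (Nat.card k) h m

/-- `X` is an abelian variety over an extension `k` of degree `s` of the field with `q` elements, and
its characteristic polynomial of Frobenius is a product `h₁ h₂`, where the roots of `h₁` are `s`-th
powers of roots of the `f i` (so the part for `h₁` is isogenous to a product of factors of the abelian
varieties with the characteristic polynomials `f i`, with arbitrary multiplicities), and `h₂` has the
degree at most `b` and the property `NoExotic`. -/
def IsMember {I : Type} (q b : ℕ) (f : I → ℤ[X]) (X : Sch ℤ) : Prop :=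
  ∃ (s : ℕ) (k : Type) (_ : Field k) (_ : Finite k) (B : Over (Spec (CommRingCat.of k)))
    (h₁ h₂ : ℤ[X]), 0 < s ∧ Nat.card k = q ^ s ∧ IsAbelianVariety B ∧
      IsWeilPolynomial B (h₁ * h₂) ∧ h₁.Monic ∧ h₂.Monic ∧
      (∀ z : ℂ, aeval z h₁ = 0 → ∃ i, ∃ x : ℂ, aeval x (f i) = 0 ∧ z = x ^ s) ∧
      h₂.natDegree ≤ b ∧ NoExotic (q ^ s) h₂ ∧ X = toZ B

/-- The schemes that are built from those with the property `P` by isomorphisms, decompositions into
a closed subscheme and its open complement (two of the three schemes give the third one), and affine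
bundles (the base gives the total space, and conversely). All schemes are of finite type over `ℤ`. -/
inductive Built (P : Sch ℤ → Prop) : Sch ℤ → Prop
  | of {X : Sch ℤ} (hX : FT False X) (h : P X) : Built P X
  | iso {X Y : Sch ℤ} (hX : FT False X) (e : X ≅ Y) (h : Built P X) : Built P Y
  | total {Z X U : Sch ℤ} (i : Z ⟶ X) (j : U ⟶ X) (hX : FT False X) (ht : IsTriple i j)
      (h1 : Built P Z) (h2 : Built P U) : Built P X
  | opened {Z X U : Sch ℤ} (i : Z ⟶ X) (j : U ⟶ X) (hX : FT False X) (ht : IsTriple i j)
      (h1 : Built P Z) (h2 : Built P X) : Built P U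
  | closed {Z X U : Sch ℤ} (i : Z ⟶ X) (j : U ⟶ X) (hX : FT False X) (ht : IsTriple i j)
      (h1 : Built P X) (h2 : Built P U) : Built P Z
  | bundle {E X : Sch ℤ} (n : ℕ) (π : E ⟶ X) (hE : FT False E) (hX : FT False X)
      (hπ : IsAffineBundle n π) (h : Built P X) : Built P E
  | base {E X : Sch ℤ} (n : ℕ) (π : E ⟶ X) (hE : FT False E) (hX : FT False X)
      (hπ : IsAffineBundle n π) (h : Built P E) : Built P X

end Pool.Agent.J4H9.BS
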