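import Mathlib
import Pool.Agent.J4H9.BSDefs

/-!
# The zeta function of an abelian variety over a finite field
-/

set_option autoImplicit false

open CategoryTheory CategoryTheory.Limits AlgebraicGeometry Polynomial Pool.Agent.Y116.UV
  Pool.Agent.Q193.Zeta

namespace Pool.Agent.J4H9.BS

section field

variable {k : Type} [Field k] (B : Over (Spec (CommRingCat.of k)))

/-- The structure of a `k`-algebra on the field of values. -/
noncomputable def baseHom (K : Type) [Field K] (x : Spec (CommRingCat.of K) ⟶ B.left) : k →+* K :=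
  (Spec.preimage (x ≫ B.hom)).hom

theorem baseHom_eq_iff (K : Type) [Field K] (x : Spec (CommRingCat.of K) ⟶ B.left) (φ : k →+* K) :
    baseHom B K x = φ ↔ x ≫ B.hom = Spec.map (CommRingCat.ofHom φ) := by
  constructor
  · rintro rfl
    exact (Spec.map_preimage (x ≫ B.hom)).symm
  · intro h
    unfold baseHom
    rw [h, Spec.preimage_map]
    rfl

/-- The points of the scheme with values in `K` are the points over the different embeddings of `k`. -/
noncomputable def ptSigma (K : Type) [Field K] :
    Pt B.left K ≃ Σ φ : k →+* K, {x : Spec (CommRingCat.of K) ⟶ B.left //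
      x ≫ B.hom = Spec.map (CommRingCat.ofHom φ)} :=
  (Scheme.SpecToEquivOfField K B.left).symm.trans
    ((Equiv.sigmaFiberEquiv (baseHom B K)).symm.trans
      (Equiv.sigmaCongrRight fun φ => Equiv.subtypeEquivRight fun x => baseHom_eq_iff B K x φ))

theorem card_pt_eq {K : Type} [Field K] [Finite K] (hfin : Finite (Pt B.left K)) {h : ℤ[X]}
    (hw : IsWeilPolynomial B h) {n : ℕ} (hn : Nat.card k ^ n = Nat.card K) :
    (Nat.card (Pt B.left K) : ℂ) =
      Nat.card (k →+* K) * ((h.aroots ℂ).map fun z => 1 - z ^ n).prod := by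
  classical
  by_cases he : IsEmpty (k →+* K)
  · have h1 : IsEmpty (Pt B.left K) := ⟨fun P => he.elim (ptSigma B K P).1⟩
    rw [Nat.card_of_isEmpty, Nat.card_of_isEmpty, Nat.cast_zero, zero_mul]
  rw [not_isEmpty_iff] at he
  have hk : Finite k := Finite.of_injective he.some he.some.injective
  have hk1 : 1 < Nat.card k := Finite.one_lt_card
  have h2 : Finite (k →+* K) := Finite.of_injective (fun f => (f : k → K)) DFunLike.coe_injective
  have : Fintype (k →+* K) := Fintype.ofFinite _
  have h3 : ∀ φ : k →+* K, Finite {x : Spec (CommRingCat.of K) ⟶ B.left //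
      x ≫ B.hom = Spec.map (CommRingCat.ofHom φ)} := by
    intro φ
    have : Finite (Σ φ : k →+* K, {x : Spec (CommRingCat.of K) ⟶ B.left //
      x ≫ B.hom = Spec.map (CommRingCat.ofHom φ)}) := Finite.of_equiv _ (ptSigma B K)
    exact Finite.of_injective (fun x => (⟨φ, x⟩ : Σ φ : k →+* K,
      {x : Spec (CommRingCat.of K) ⟶ B.left //
        x ≫ B.hom = Spec.map (CommRingCat.ofHom φ)})) fun x y hxy => eq_of_heq (Sigma.mk.inj hxy).2
  have h4 : ∀ φ : k →+* K, (Nat.card {x : Spec (CommRingCat.of K) ⟶ B.left //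
      x ≫ B.hom = Spec.map (CommRingCat.ofHom φ)} : ℂ) =
        ((h.aroots ℂ).map fun z => 1 - z ^ n).prod := by
    intro φ
    let _ : Algebra k K := φ.toAlgebra
    have h5 := hw.points K
    have h6 : Module.finrank k K = n := by
      have : Fintype k := Fintype.ofFinite k
      have : Fintype K := Fintype.ofFinite K
      have h7 : Nat.card K = Nat.card k ^ Module.finrank k K := by
        rw [Nat.card_eq_fintype_card, Nat.card_eq_fintype_card]
        exact Module.card_eq_pow_finrank
      rw [← hn] at h7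
      exact (Nat.pow_right_injective hk1 h7).symm
    rw [h6] at h5
    exact h5
  rw [Nat.card_congr (ptSigma B K), Nat.card_sigma]
  push_cast
  rw [Finset.sum_congr rfl fun φ _ => h4 φ, Finset.sum_const, Finset.card_univ, nsmul_eq_mul,
    Nat.card_eq_fintype_card]

/-- The coefficients of the logarithm of the zeta function. -/
theorem cf_pow [Finite k] {C l : ℕ} (hb : Bounded B.left C l) {h : ℤ[X]}
    (hw : IsWeilPolynomial B h) (n : ℕ) :
    ((cf (nm B.left) (Nat.card k ^ n) : ℝ) : ℂ) =
      ((h.aroots ℂ).map fun z => 1 - z ^ n).prod / n := by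
  have : Fintype k := Fintype.ofFinite k
  obtain ⟨p, _, a, hp, hka⟩ := FiniteField.card' k
  have hk : Nat.card k = p ^ (a : ℕ) := by rw [Nat.card_eq_fintype_card, hka]
  rcases Nat.eq_zero_or_pos n with rfl | hn
  · rw [pow_zero, Nat.cast_zero, div_zero]
    have : IsEmpty (Fib (nm B.left) 1) := ⟨fun j => by
      have h1 := one_lt_nm B.left j.1.1
      have h2 := Nat.one_lt_pow (Nat.succ_ne_zero j.1.2) h1
      exact absurd j.2 h2.ne'⟩
    rw [cf, tsum_empty, Complex.ofReal_zero]
  obtain ⟨K, _, _, hK⟩ := exists_field hp (mul_ne_zero a.ne_zero hn.ne')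
  have hfin := (hb K).1
  have h1 := card_pt B.left K hp hK
  have hKk : Nat.card k ^ n = Nat.card K := by rw [hk, hK, pow_mul]
  obtain ⟨e, rfl⟩ := Nat.exists_eq_succ_of_ne_zero hn.ne'
  have h2 := card_hom (k := k) (K := K) hp hK hKk
  have h3 := card_pt_eq B hfin hw hKk
  rw [hKk]
  have h4 : (((a : ℕ) * (e + 1) : ℕ) : ℂ) * ((cf (nm B.left) (Nat.card K) : ℝ) : ℂ) =
      Nat.card (k →+* K) * ((h.aroots ℂ).map fun z => 1 - z ^ (e + 1)).prod := by
    rw [← h3, ← Complex.ofReal_natCast, ← Complex.ofReal_natCast, ← Complex.ofReal_mul, h1]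
  have h5 : ((e : ℂ) + 1) * (Nat.card (k →+* K) : ℂ) = (a : ℂ) * ((e : ℂ) + 1) := by
    exact_mod_cast h2
  have ha : ((a : ℕ) : ℂ) ≠ 0 := by exact_mod_cast a.ne_zero
  have he : ((e : ℂ) + 1) ≠ 0 := by exact_mod_cast Nat.succ_ne_zero e
  have h6 : (Nat.card (k →+* K) : ℂ) = (a : ℂ) := by
    refine mul_left_cancel₀ he ?_
    rw [h5]
    ring
  rw [h6] at h4
  push_cast at h4 ⊢
  rw [eq_div_iff he]
  refine mul_left_cancel₀ ha ?_
  linear_combination h4

theorem cf_other [Finite k] {m : ℕ} (hm : m ∉ Set.range fun n => Nat.card k ^ n) :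
    cf (nm B.left) m = 0 := by
  have : IsEmpty (Fib (nm B.left) m) := ⟨fun j => hm (by
    obtain ⟨⟨x, e⟩, hj⟩ := j
    have : Finite (B.left.residueField x.1) := x.2
    obtain ⟨c, hc⟩ := card_pow_of_hom (K := B.left.residueField x.1)
      (baseHom B (B.left.residueField x.1) (B.left.fromSpecResidueField x.1))
    refine ⟨(c + 1) * (e + 1), ?_⟩
    change Nat.card k ^ ((c + 1) * (e + 1)) = m
    rw [pow_mul, hc]
    exact hj)⟩
  rw [cf, tsum_empty]

end field

section series

theorem prod_expand (R : Multiset ℂ) (n : ℕ) : (R.map fun z => 1 - z ^ n).prod =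
    (R.powerset.map fun S => (-1 : ℂ) ^ Multiset.card S * S.prod ^ n).sum := by
  induction R using Multiset.induction_on with
  | empty => simp
  | cons a R ih =>
    rw [Multiset.map_cons, Multiset.prod_cons, Multiset.powerset_cons, Multiset.map_add,
      Multiset.sum_add, Multiset.map_map, ih]
    have h1 : (R.powerset.map ((fun S => (-1 : ℂ) ^ Multiset.card S * S.prod ^ n) ∘
        Multiset.cons a)).sum =
        -(a ^ n) * (R.powerset.map fun S => (-1 : ℂ) ^ Multiset.card S * S.prod ^ n).sum := by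
      rw [← Multiset.sum_map_mul_left]
      refine congrArg _ (Multiset.map_congr rfl fun S _ => ?_)
      simp only [Function.comp_apply, Multiset.card_cons, Multiset.prod_cons, mul_pow, pow_succ]
      ring
    rw [h1]
    ring

theorem hasSum_multiset {α : Type*} (P : Multiset α) (f : α → ℕ → ℂ) (a : α → ℂ)
    (h : ∀ S ∈ P, HasSum (f S) (a S)) :
    HasSum (fun n => (P.map fun S => f S n).sum) (P.map a).sum := by
  induction P using Multiset.induction_on with
  | empty =>
    simp only [Multiset.map_zero, Multiset.sum_zero]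
    exact hasSum_zero
  | cons S P ih =>
    simp only [Multiset.map_cons, Multiset.sum_cons]
    exact (h S (Multiset.mem_cons_self S P)).add
      (ih fun T hT => h T (Multiset.mem_cons_of_mem hT))

theorem norm_prod_le {q : ℝ} (hq : 1 ≤ q) {R S : Multiset ℂ} (hS : S ≤ R)
    (hR : ∀ z ∈ R, ‖z‖ ≤ q) : ‖S.prod‖ ≤ q ^ Multiset.card R := by
  have h1 : ∀ T : Multiset ℂ, (∀ z ∈ T, ‖z‖ ≤ q) → ‖T.prod‖ ≤ q ^ Multiset.card T := by
    intro T
    induction T using Multiset.induction_on with
    | empty => intro _; simp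
    | cons a T ih =>
      intro hT
      rw [Multiset.prod_cons, norm_mul, Multiset.card_cons, pow_succ, mul_comm]
      exact mul_le_mul (ih fun z hz => hT z (Multiset.mem_cons_of_mem hz))
        (hT a (Multiset.mem_cons_self a T)) (norm_nonneg _) (by positivity)
  exact (h1 S fun z hz => hR z (Multiset.mem_of_le hS hz)).trans
    (pow_le_pow_right₀ hq (Multiset.card_le_card hS))

end series

/-- **The zeta function of an abelian variety.** -/
theorem zeta_weil {k : Type} [Field k] [Finite k] (B : Over (Spec (CommRingCat.of k)))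
    (hB : FT False (toZ B)) {h : ℤ[X]} (hw : IsWeilPolynomial B h) :
    ∃ τ : ℝ, ∀ s : ℂ, τ < s.re →
      weilZeta (Nat.card k) (h.aroots ℂ) s = zeta (toZ B).left s := by
  obtain ⟨C, l, hb⟩ := ft_bounded hB
  have hk1 : 1 < Nat.card k := Finite.one_lt_card
  set q := Nat.card k with hq
  set R := h.aroots ℂ with hR
  refine ⟨max ((l : ℝ) + 1) (Multiset.card R), fun s hs => ?_⟩
  have hs1 : (l : ℝ) + 1 < s.re := lt_of_le_of_lt (le_max_left _ _) hs
  have hs2 : (Multiset.card R : ℝ) < s.re := lt_of_le_of_lt (le_max_right _ _) hs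
  have hq0 : (0 : ℝ) < q := by exact_mod_cast hk1.le
  have hq1 : (1 : ℝ) < q := by exact_mod_cast hk1
  have hqC : (q : ℂ) ≠ 0 := by exact_mod_cast (ne_of_gt (lt_trans Nat.zero_lt_one hk1))
  have hRn : ∀ z ∈ R, ‖z‖ ≤ q := by
    intro z hz
    have h1 : aeval z h = 0 := by
      rw [hR, mem_aroots] at hz
      exact hz.2
    have h2 := hw.norm z h1
    rw [← hq] at h2
    by_contra h3
    rw [not_le] at h3
    nlinarith [norm_nonneg z]
  have hnorm : ∀ S ∈ R.powerset, ‖S.prod * (q : ℂ) ^ (-s)‖ < 1 := by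
    intro S hS
    rw [norm_mul, Complex.norm_natCast_cpow_of_pos (lt_trans Nat.zero_lt_one hk1),
      Complex.neg_re]
    refine lt_of_le_of_lt (mul_le_mul_of_nonneg_right
      (norm_prod_le hq1.le (Multiset.mem_powerset.1 hS) hRn) (by positivity)) ?_
    rw [← Real.rpow_natCast, ← Real.rpow_add hq0]
    exact Real.rpow_lt_one_of_one_lt_of_neg hq1 (by linarith)
  have hsum : HasSum (LSeries.term (fun m => (cf (nm B.left) m : ℂ)) s)
      (R.powerset.map fun S => (-1 : ℂ) ^ Multiset.card S *
        -Complex.log (1 - S.prod * (q : ℂ) ^ (-s))).sum := by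
    have hinj : Function.Injective fun n => q ^ n := Nat.pow_right_injective hk1
    refine (hinj.hasSum_iff ?_).1 ?_
    · intro m hm
      rw [LSeries.term_def]
      split_ifs
      · rfl
      · rw [cf_other B hm, Complex.ofReal_zero, zero_div]
    · have h1 := hasSum_multiset R.powerset
        (fun S n => (-1 : ℂ) ^ Multiset.card S * ((S.prod * (q : ℂ) ^ (-s)) ^ n / n))
        (fun S => (-1 : ℂ) ^ Multiset.card S * -Complex.log (1 - S.prod * (q : ℂ) ^ (-s)))
        (fun S hS => (Complex.hasSum_taylorSeries_neg_log (hnorm S hS)).mul_left _)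
      refine h1.congr_fun ?_ 
      intro n
      have hqn : q ^ n ≠ 0 := pow_ne_zero _ (lt_trans Nat.zero_lt_one hk1).ne'
      simp only [Function.comp_apply]
      rw [LSeries.term_of_ne_zero hqn, cf_pow B hb hw n, ← hR, prod_expand, div_div, div_eq_mul_inv,
        ← Multiset.sum_map_mul_right]
      refine congrArg _ (Multiset.map_congr rfl fun S _ => ?_)
      rw [mul_pow, ← Complex.cpow_nat_mul, mul_inv, Nat.cast_pow,
        Complex.natCast_cpow_natCast_mul, Complex.cpow_neg]
      ring
  have hlz : lz B.left s = (R.powerset.map fun S => (-1 : ℂ) ^ Multiset.card S *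
        -Complex.log (1 - S.prod * (q : ℂ) ^ (-s))).sum := hsum.tsum_eq
  have hz : zeta (toZ B).left s = Complex.exp (lz B.left s) := ft_zeta hB hb hs1
  rw [hz, hlz, Complex.exp_multiset_sum, Multiset.map_map, weilZeta]
  refine congrArg _ (Multiset.map_congr rfl fun S hS => ?_)
  have hne : 1 - S.prod * (q : ℂ) ^ (-s) ≠ 0 := by
    intro h0
    have h1 : S.prod * (q : ℂ) ^ (-s) = 1 := (sub_eq_zero.1 h0).symm
    have h2 := hnorm S hS
    rw [h1, norm_one] at h2
    exact lt_irrefl _ h2
  simp only [Function.comp_apply]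
  have h1 : (-1 : ℂ) ^ Multiset.card S * -Complex.log (1 - S.prod * (q : ℂ) ^ (-s)) =
      ((-(-1 : ℤ) ^ Multiset.card S : ℤ) : ℂ) * Complex.log (1 - S.prod * (q : ℂ) ^ (-s)) := by
    push_cast
    ring
  rw [h1, Complex.exp_int_mul, Complex.exp_log hne]

end Pool.Agent.J4H9.BS
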