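import Mathlib
import Pool.Agent.J4H9.Cover
import Pool.Agent.J4H9.Local

/-!
# Polynomials whose coefficients are divisible by given numbers
-/

set_option autoImplicit false

namespace Pool.Agent.J4H9.NScale

open Polynomial Pool.Agent.J4H9.Ch Pool.Agent.J4H9.Local

/-- The coefficient of index `k` is multiplied by `d k`. -/
noncomputable def sc {R : Type*} [Semiring R] (d : ℕ → R) (B : R[X]) : R[X] :=
  ∑ k ∈ B.support, monomial k (d k * B.coeff k)

theorem coeff_sc {R : Type*} [Semiring R] (d : ℕ → R) (B : R[X]) (k : ℕ) :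
    (sc d B).coeff k = d k * B.coeff k := by
  unfold sc
  rw [finsetSum_coeff]
  simp only [coeff_monomial]
  rw [Finset.sum_ite_eq']
  split_ifs with h
  · rfl
  · rw [notMem_support_iff.1 h, mul_zero]

theorem exists_sc {d : ℕ → ℤ} {h : ℤ[X]} (hd : ∀ k, d k ∣ h.coeff k) : ∃ B : ℤ[X], sc d B = h := by
  refine ⟨∑ k ∈ h.support, monomial k (h.coeff k / d k), ?_⟩
  ext k
  rw [coeff_sc, finsetSum_coeff]
  simp only [coeff_monomial]
  rw [Finset.sum_ite_eq']
  split_ifs with h1
  · exact Int.mul_ediv_cancel' (hd k)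
  · rw [notMem_support_iff.1 h1, mul_zero]

theorem sc_injective {d : ℕ → ℤ} (hd : ∀ k, d k ≠ 0) : Function.Injective (sc d) := by
  intro B B' h
  ext k
  have h1 := congrArg (fun p => p.coeff k) h
  simp only [coeff_sc] at h1
  exact mul_left_cancel₀ (hd k) h1

theorem monic_sc {d : ℕ → ℤ} {B : ℤ[X]} {g : ℕ} (hd : ∀ k, d k ≠ 0) (hg : d g = 1) :
    (B.Monic ∧ B.natDegree = g) ↔ ((sc d B).Monic ∧ (sc d B).natDegree = g) := by
  have hdeg : (sc d B).natDegree = B.natDegree := by
    refine le_antisymm ?_ ?_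
    · rw [natDegree_le_iff_coeff_eq_zero]
      intro N hN
      rw [coeff_sc, coeff_eq_zero_of_natDegree_lt hN, mul_zero]
    · rw [natDegree_le_iff_coeff_eq_zero]
      intro N hN
      have h1 := coeff_eq_zero_of_natDegree_lt hN
      rw [coeff_sc] at h1
      rcases mul_eq_zero.1 h1 with h2 | h2
      · exact absurd h2 (hd N)
      · exact h2
  rw [hdeg]
  constructor
  · rintro ⟨h1, h2⟩
    refine ⟨?_, h2⟩
    have h3 : B.coeff g = 1 := by
      rw [← h2]
      exact h1
    unfold Monic leadingCoeff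
    rw [hdeg, h2, coeff_sc, h3, hg, mul_one]
  · rintro ⟨h1, h2⟩
    refine ⟨?_, h2⟩
    unfold Monic leadingCoeff at h1 ⊢
    rw [hdeg, h2, coeff_sc, hg, one_mul] at h1
    rw [h2]
    exact h1

theorem iterate_sc (d : ℕ → ℤ) (n : ℕ) (B : ℤ[X]) :
    divX^[n] (sc d B) = sc (fun k => d (k + n)) (divX^[n] B) := by
  ext k
  rw [iterate_divX_coeff, coeff_sc, coeff_sc, iterate_divX_coeff]

/-- The reduction of a scaled polynomial. -/
theorem map_sc_eq (l n : ℕ) [Fact l.Prime] (d : ℕ → ℤ) (B : ℤ[X]) :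
    (sc d B).map (Int.castRingHom (ZMod l)) =
      mk n ((sc (fun k => d (k + n)) (divX^[n] B)).map (Int.castRingHom (ZMod l)))
        (fun i : Fin n => (d i : ZMod l) * low n l B i) := by
  rw [map_eq n (sc d B), iterate_sc]
  congr 1
  funext i
  unfold low
  rw [coeff_sc]
  push_cast
  rfl

/-- The scaling of the residues. -/
theorem ncard_scaled {l n : ℕ} [Fact l.Prime] {d : ℕ → ℤ} (hd : ∀ k, ¬ (l : ℤ) ∣ d k)
    (Q : (Fin n → ZMod l) → Prop) :
    {b : Fin n → ZMod l | Q (fun i => (d i : ZMod l) * b i)}.ncard = {b | Q b}.ncard := by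
  have hu : ∀ k, (d k : ZMod l) ≠ 0 := by
    intro k h
    rw [ZMod.intCast_zmod_eq_zero_iff_dvd] at h
    exact hd k h
  have hinj : Function.Injective (fun (b : Fin n → ZMod l) (i : Fin n) => (d i : ZMod l) * b i) := by
    intro b b' h
    funext i
    exact mul_left_cancel₀ (hu i) (congrFun h i)
  rw [← Set.ncard_image_of_injective _ hinj]
  congr 1
  ext b
  constructor
  · rintro ⟨c, hc, rfl⟩
    exact hc
  · intro hb
    have h1 : (fun i : Fin n => (d i : ZMod l) * ((d i : ZMod l)⁻¹ * b i)) = b := by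
      funext i
      rw [mul_inv_cancel_left₀ (hu i)]
    refine ⟨fun i => (d i : ZMod l)⁻¹ * b i, ?_, h1⟩
    change Q (fun i => (d i : ZMod l) * ((d i : ZMod l)⁻¹ * b i))
    rw [h1]
    exact hb

end Pool.Agent.J4H9.NScale
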