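import Mathlib
import Pool.Agent.J4H9.PairA
import Pool.Agent.J4H9.NScale

/-!
# The large sieve for pairs of polynomials whose coefficients are divisible by given numbers
-/

set_option autoImplicit false

namespace Pool.Agent.J4H9.NPair

open Polynomial Pool.Agent.W521.Density Pool.Agent.J4H9.Fr Pool.Agent.J4H9.Ch
  Pool.Agent.J4H9.Eqd Pool.Agent.J4H9.Local Pool.Agent.J4H9.Pair Pool.Agent.J4H9.LS2
  Pool.Agent.J4H9.LS3 Pool.Agent.J4H9.PairA Pool.Agent.J4H9.NScale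

theorem top_sc {d : ℕ → ℤ} {g n : ℕ} (hd0 : ∀ k, d k ≠ 0) (hdg : d g = 1) {f : ℤ[X]}
    (hf : f.Monic ∧ f.natDegree + n = g) : (sc (fun k => d (k + n)) f).Monic ∧
      (sc (fun k => d (k + n)) f).natDegree + n = g := by
  have h1 := (monic_sc (d := fun k => d (k + n)) (g := f.natDegree) (fun k => hd0 (k + n)) (by
    rw [hf.2]
    exact hdg)).1 ⟨hf.1, rfl⟩
  exact ⟨h1.1, by rw [h1.2]; exact hf.2⟩

variable {Λ : Type} {Λ₀ : Finset Λ} {M : Λ → ℕ → ℕ} {n : ℕ} {𝒯 : Λ → ℕ → Finset ℤ[X]}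

open Classical in
/-- The members with few primes of the first type. -/
theorem few_E (hc : ∀ i ∈ Λ₀, Chain (M i) n (𝒯 i)) (P : Finset Pr) (hP : P.Nonempty)
    (F : ℕ) (hF1 : 1 ≤ F) (hF : ∀ l ∈ P, (l : ℕ) ≤ F)
    (hM : ∀ i ∈ Λ₀, ∑ k ∈ Finset.range n, (F : ℝ) ^ 2 / M i k ≤ 1)
    {q r g : ℕ} (hr : r.Prime) (hr3 : 3 ≤ r) (hrn : r + 2 = n)
    (hgr : g < 2 * r) (hng : n ≤ g)
    (htop : ∀ i ∈ Λ₀, ∀ f ∈ 𝒯 i n, f.Monic ∧ f.natDegree + n = g)
    (hP8 : ∀ l ∈ P, 8 ≤ (l : ℕ)) (hPq : ∀ l ∈ P, ¬ (l : ℕ) ∣ q)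
    {d : ℕ → ℤ} (hd0 : ∀ k, d k ≠ 0) (hdg : d g = 1)
    (hdl : ∀ l ∈ P, ∀ k, ¬ ((l : ℕ) : ℤ) ∣ d k) :
    (((uni Λ₀ 𝒯).filter (fun x => 2 * ((P.filter fun l : Pr => PatE q r (sc d x.2) (l : ℕ)).card : ℝ) ≤
      1 / (32 * (g : ℝ) ^ 2) * P.card)).card : ℝ) ≤
      27648 * (g : ℝ) ^ 3 / P.card * ((uni Λ₀ 𝒯).card : ℝ) := by
  have hgn : 0 < g := by omega
  have hg0 : (0 : ℝ) < g := by exact_mod_cast hgn
  have hg1 : (1 : ℝ) ≤ g := by exact_mod_cast hgn
  have hPc : (0 : ℝ) < P.card := by exact_mod_cast hP.card_pos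
  let c : ℝ := 1 / (32 * (g : ℝ) ^ 2)
  have hc0 : 0 < c := by positivity
  have : ∀ l : Pr, Nonempty (Fin n → ZMod l) := fun l => inferInstance
  have hls : LSv P (R := fun l : Pr => Fin n → ZMod l) (uni Λ₀ 𝒯)
      (fun x => (x.1, divX^[n] x.2)) (fun l x => low n l x.2) (108 * (1 + n)) :=
    LSv.sigma fun i hi => (chain_bounds (hc i hi) (by omega) P F hF1 hF (hM i hi)).2
  have key := sieve_half (X := (Σ _ : Λ, ℤ[X])) P hP (uni Λ₀ 𝒯)
    (fun x => (x.1, divX^[n] x.2)) (fun l : Pr => Fin n → ZMod l) (fun l x => low n l x.2)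
    (D := 108 * (1 + n)) (by positivity) hls
    (fun l k => {b : Fin n → ZMod l | PolE q r (mk n ((sc (fun k => d (k + n)) k.2).map
      (Int.castRingHom (ZMod l))) (fun i => (d i : ZMod l) * b i))})
    hc0 (by
    intro l hl x hx
    rw [Finset.mem_sigma] at hx
    have h1 := top_sc hd0 hdg
      (htop _ hx.1 _ (by simpa using (hc _ hx.1).iterate n 0 (by omega) x.2 hx.2))
    have hsc := fun Q => ncard_scaled (l := (l : ℕ)) (n := n) (hdl l hl) Q
    have hE := card_E (l := (l : ℕ)) (n := n) (q := q) hr hr3 hrn hgr (hP8 l hl) (hPq l hl)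
      (h1.1.map (Int.castRingHom (ZMod l))) (by rw [h1.1.natDegree_map]; exact h1.2)
    have hcardR : Fintype.card (Fin n → ZMod l) = (l : ℕ) ^ n := by
      rw [Fintype.card_fun, ZMod.card, Fintype.card_fin]
    rw [hcardR]
    rw [hsc (fun b => PolE q r (mk n ((sc (fun k => d (k + n)) (divX^[n] x.2)).map
      (Int.castRingHom (ZMod l))) b))]
    set e := {b : Fin n → ZMod l | PolE q r (mk n ((sc (fun k => d (k + n)) (divX^[n] x.2)).map
      (Int.castRingHom (ZMod l))) b)}.ncard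
    have h3 : (l : ℕ) ^ n ≤ 32 * g ^ 2 * e := by
      calc (l : ℕ) ^ n ≤ 32 * r * g * e := hE
        _ ≤ 32 * g * g * e := by
            refine Nat.mul_le_mul_right _ (Nat.mul_le_mul_right _ (Nat.mul_le_mul_left _ (by omega)))
        _ = _ := by ring
    have h4 : ((l : ℕ) : ℝ) ^ n ≤ 32 * (g : ℝ) ^ 2 * e := by exact_mod_cast h3
    push_cast
    simp only [c]
    rw [div_mul_eq_mul_div, one_mul, div_le_iff₀ (by positivity)]
    linarith)
  have hsub : (uni Λ₀ 𝒯).filter (fun x => 2 * ((P.filter fun l : Pr => PatE q r (sc d x.2) (l : ℕ)).card : ℝ) ≤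
      1 / (32 * (g : ℝ) ^ 2) * P.card) ⊆
      (uni Λ₀ 𝒯).filter (fun x => 2 * ((P.filter fun l : Pr => low n (l : ℕ) x.2 ∈
        {b : Fin n → ZMod l | PolE q r (mk n ((sc (fun k => d (k + n)) (divX^[n] x.2)).map
          (Int.castRingHom (ZMod l))) (fun i => (d i : ZMod l) * b i))}).card : ℝ) ≤ c * P.card) := by
    intro x hx
    obtain ⟨h1, h2⟩ := Finset.mem_filter.1 hx
    refine Finset.mem_filter.2 ⟨h1, le_trans ?_ h2⟩
    have h3 : (P.filter fun l : Pr => low n (l : ℕ) x.2 ∈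
        {b : Fin n → ZMod l | PolE q r (mk n ((sc (fun k => d (k + n)) (divX^[n] x.2)).map
          (Int.castRingHom (ZMod l))) (fun i => (d i : ZMod l) * b i))}).card ≤ (P.filter fun l : Pr => PatE q r (sc d x.2) (l : ℕ)).card := by
      refine Finset.card_le_card fun l hl => ?_
      obtain ⟨h4, h5⟩ := Finset.mem_filter.1 hl
      refine Finset.mem_filter.2 ⟨h4, ?_⟩
      obtain ⟨u, p, a, h3⟩ := h5
      refine ⟨u, p, a, ?_⟩
      rw [map_sc_eq (l : ℕ) n d x.2]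
      exact h3
    have h4 : (((P.filter fun l : Pr => low n (l : ℕ) x.2 ∈
        {b : Fin n → ZMod l | PolE q r (mk n ((sc (fun k => d (k + n)) (divX^[n] x.2)).map
          (Int.castRingHom (ZMod l))) (fun i => (d i : ZMod l) * b i))}).card : ℕ) : ℝ) ≤
        ((P.filter fun l : Pr => PatE q r (sc d x.2) (l : ℕ)).card : ℝ) := by exact_mod_cast h3
    linarith
  refine ((Nat.cast_le (α := ℝ)).2 (Finset.card_le_card hsub)).trans ?_
  have key' : (((uni Λ₀ 𝒯).filter (fun x => 2 * ((P.filter fun l : Pr => low n (l : ℕ) x.2 ∈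
        {b : Fin n → ZMod l | PolE q r (mk n ((sc (fun k => d (k + n)) (divX^[n] x.2)).map
          (Int.castRingHom (ZMod l))) (fun i => (d i : ZMod l) * b i))}).card : ℝ) ≤ c * P.card)).card : ℝ) ≤
      4 * (108 * (1 + n)) / (c * P.card) * ((uni Λ₀ 𝒯).card : ℝ) := by
    convert key
  refine key'.trans (mul_le_mul_of_nonneg_right ?_ (Nat.cast_nonneg _))
  have h6 : (1 : ℝ) + n ≤ 2 * g := by
    have : (n : ℝ) ≤ g := by exact_mod_cast hng
    linarith
  simp only [c]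
  rw [div_le_div_iff₀ (by positivity) hPc]
  have h7 : 27648 * (g : ℝ) ^ 3 * (1 / (32 * (g : ℝ) ^ 2) * P.card) = 864 * g * P.card := by
    field_simp
    ring
  rw [h7]
  nlinarith

open Classical in
/-- The members without a prime of the second type. -/
theorem none_F (hc : ∀ i ∈ Λ₀, Chain (M i) n (𝒯 i)) (P : Finset Pr) (hP : P.Nonempty)
    (F : ℕ) (hF1 : 1 ≤ F) (hF : ∀ l ∈ P, (l : ℕ) ≤ F)
    (hM : ∀ i ∈ Λ₀, ∑ k ∈ Finset.range n, (F : ℝ) ^ 2 / M i k ≤ 1)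
    {r g : ℕ} (hr3 : 3 ≤ r) (hrn : r + 2 = n)
    (hgr : g < 2 * r) (hng : n ≤ g)
    (htop : ∀ i ∈ Λ₀, ∀ f ∈ 𝒯 i n, f.Monic ∧ f.natDegree + n = g)
    (hP8 : ∀ l ∈ P, 8 ≤ (l : ℕ))
    {d : ℕ → ℤ} (hd0 : ∀ k, d k ≠ 0) (hdg : d g = 1)
    (hdl : ∀ l ∈ P, ∀ k, ¬ ((l : ℕ) : ℤ) ∣ d k) :
    (((uni Λ₀ 𝒯).filter (fun x => ∀ l ∈ P, ¬ PatF (r + 1) (sc d x.2) (l : ℕ))).card : ℝ) ≤
      432 * (g : ℝ) ^ 2 / P.card * ((uni Λ₀ 𝒯).card : ℝ) := by
  have hgn : 0 < g := by omega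
  have hg0 : (0 : ℝ) < g := by exact_mod_cast hgn
  have hg1 : (1 : ℝ) ≤ g := by exact_mod_cast hgn
  have hPc : (0 : ℝ) < P.card := by exact_mod_cast hP.card_pos
  let c : ℝ := 1 / (2 * (g : ℝ))
  have hc0 : 0 < c := by positivity
  have : ∀ l : Pr, Nonempty (Fin n → ZMod l) := fun l => inferInstance
  have hls : LSv P (R := fun l : Pr => Fin n → ZMod l) (uni Λ₀ 𝒯)
      (fun x => (x.1, divX^[n] x.2)) (fun l x => low n l x.2) (108 * (1 + n)) :=
    LSv.sigma fun i hi => (chain_bounds (hc i hi) (by omega) P F hF1 hF (hM i hi)).2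
  have key := sieve (X := (Σ _ : Λ, ℤ[X])) P hP (uni Λ₀ 𝒯)
    (fun x => (x.1, divX^[n] x.2)) (fun l : Pr => Fin n → ZMod l) (fun l x => low n l x.2)
    (D := 108 * (1 + n)) (by positivity) hls
    (fun l k => {b : Fin n → ZMod l | ∃ v : (ZMod l)[X], Irreducible v ∧ v.natDegree = r + 1 ∧
      v ∣ mk n ((sc (fun k => d (k + n)) k.2).map (Int.castRingHom (ZMod l)))
        (fun i => (d i : ZMod l) * b i)})
    hc0 (by
    intro l hl x hx
    rw [Finset.mem_sigma] at hx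
    have h1 := top_sc hd0 hdg
      (htop _ hx.1 _ (by simpa using (hc _ hx.1).iterate n 0 (by omega) x.2 hx.2))
    have hsc := fun Q => ncard_scaled (l := (l : ℕ)) (n := n) (hdl l hl) Q
    have hF := card_F (l := (l : ℕ)) (n := n) (d := r + 1) (Nat.succ_pos r) (by omega)
      (show g < 2 * (r + 1) by omega) (by have := hP8 l hl; omega)
      (h1.1.map (Int.castRingHom (ZMod l))) (by rw [h1.1.natDegree_map]; exact h1.2)
    have hcardR : Fintype.card (Fin n → ZMod l) = (l : ℕ) ^ n := by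
      rw [Fintype.card_fun, ZMod.card, Fintype.card_fin]
    rw [hcardR]
    rw [hsc (fun b => ∃ v : (ZMod l)[X], Irreducible v ∧ v.natDegree = r + 1 ∧
          v ∣ mk n ((sc (fun k => d (k + n)) (divX^[n] x.2)).map (Int.castRingHom (ZMod l))) b)]
    set f := {b : Fin n → ZMod l | ∃ v : (ZMod l)[X], Irreducible v ∧ v.natDegree = r + 1 ∧
          v ∣ mk n ((sc (fun k => d (k + n)) (divX^[n] x.2)).map (Int.castRingHom (ZMod l))) b}.ncard
    have h3 : (l : ℕ) ^ n ≤ 2 * g * f := by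
      calc (l : ℕ) ^ n ≤ 2 * (r + 1) * f := hF
        _ ≤ _ := Nat.mul_le_mul_right _ (Nat.mul_le_mul_left _ (by omega))
    have h4 : ((l : ℕ) : ℝ) ^ n ≤ 2 * (g : ℝ) * f := by exact_mod_cast h3
    push_cast
    simp only [c]
    rw [div_mul_eq_mul_div, one_mul, div_le_iff₀ (by positivity)]
    linarith)
  have hsub : (uni Λ₀ 𝒯).filter (fun x => ∀ l ∈ P, ¬ PatF (r + 1) (sc d x.2) (l : ℕ)) ⊆
      (uni Λ₀ 𝒯).filter (fun x => ∀ l ∈ P, low n (l : ℕ) x.2 ∉
        {b : Fin n → ZMod l | ∃ v : (ZMod l)[X], Irreducible v ∧ v.natDegree = r + 1 ∧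
          v ∣ mk n ((sc (fun k => d (k + n)) (divX^[n] x.2)).map (Int.castRingHom (ZMod l)))
            (fun i => (d i : ZMod l) * b i)}) := by
    intro x hx
    obtain ⟨h1, h2⟩ := Finset.mem_filter.1 hx
    refine Finset.mem_filter.2 ⟨h1, fun l hl hmem => h2 l hl ?_⟩
    obtain ⟨v, h3⟩ := hmem
    refine ⟨v, ?_⟩
    rw [map_sc_eq (l : ℕ) n d x.2]
    exact h3
  refine ((Nat.cast_le (α := ℝ)).2 (Finset.card_le_card hsub)).trans ?_
  have key' : (((uni Λ₀ 𝒯).filter (fun x => ∀ l ∈ P, low n (l : ℕ) x.2 ∉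
        {b : Fin n → ZMod l | ∃ v : (ZMod l)[X], Irreducible v ∧ v.natDegree = r + 1 ∧
          v ∣ mk n ((sc (fun k => d (k + n)) (divX^[n] x.2)).map (Int.castRingHom (ZMod l)))
            (fun i => (d i : ZMod l) * b i)})).card : ℝ) ≤
      108 * (1 + n) / (c * P.card) * ((uni Λ₀ 𝒯).card : ℝ) := by
    convert key
  refine key'.trans (mul_le_mul_of_nonneg_right ?_ (Nat.cast_nonneg _))
  have h6 : (1 : ℝ) + n ≤ 2 * g := by
    have : (n : ℝ) ≤ g := by exact_mod_cast hng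
    linarith
  simp only [c]
  rw [div_le_div_iff₀ (by positivity) hPc]
  have h7 : 432 * (g : ℝ) ^ 2 * (1 / (2 * (g : ℝ)) * P.card) = 216 * g * P.card := by
    field_simp
    ring
  rw [h7]
  nlinarith

open Classical in
/-- **The large sieve for pairs, asymmetric form.** -/
theorem pair_sieve (hc : ∀ i ∈ Λ₀, Chain (M i) n (𝒯 i)) (P : Finset Pr) (hP : P.Nonempty)
    (F : ℕ) (hF1 : 1 ≤ F) (hF : ∀ l ∈ P, (l : ℕ) ≤ F)
    (hM : ∀ i ∈ Λ₀, ∑ k ∈ Finset.range n, (F : ℝ) ^ 2 / M i k ≤ 1)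
    {q r g : ℕ} (hr : r.Prime) (hr3 : 3 ≤ r) (hrn : r + 2 = n)
    (hgr : g < 2 * r) (hng : n ≤ g)
    (htop : ∀ i ∈ Λ₀, ∀ f ∈ 𝒯 i n, f.Monic ∧ f.natDegree + n = g)
    (hP8 : ∀ l ∈ P, 8 ≤ (l : ℕ)) (hPq : ∀ l ∈ P, ¬ (l : ℕ) ∣ q)
    {d : ℕ → ℤ} (hd0 : ∀ k, d k ≠ 0) (hdg : d g = 1)
    (hdl : ∀ l ∈ P, ∀ k, ¬ ((l : ℕ) : ℤ) ∣ d k) (A : Finset ℤ[X])
    (hA : ∀ h ∈ A, ∃ i ∈ Λ₀, h ∈ 𝒯 i 0) :
    ((A.filter (fun h => ¬ ∃ l ∈ P, PatE q r (sc d h) (l : ℕ))).card : ℝ) ≤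
      82944 * (g : ℝ) ^ 4 / P.card * ((uni Λ₀ 𝒯).card : ℝ) ∧
    (((A ×ˢ A).filter (fun x => ¬ HasPair q r P (sc d x.1, sc d x.2))).card : ℝ) ≤
      82944 * (g : ℝ) ^ 4 / P.card * ((uni Λ₀ 𝒯).card : ℝ) * (A.card : ℝ) := by
  have hgn : 0 < g := by omega
  have hg0 : (0 : ℝ) < g := by exact_mod_cast hgn
  have hg1 : (1 : ℝ) ≤ g := by exact_mod_cast hgn
  have hPc : (0 : ℝ) < P.card := by exact_mod_cast hP.card_pos
  set U := uni Λ₀ 𝒯 with hU
  have hU0 : (0 : ℝ) ≤ U.card := Nat.cast_nonneg _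
  have hE := few_E hc P hP F hF1 hF hM hr hr3 hrn hgr hng htop hP8 hPq hd0 hdg hdl
  rw [← hU] at hE
  -- the exceptional members of `A`
  let B : Finset ℤ[X] := A.filter (fun h => 2 * ((P.filter fun l : Pr => PatE q r (sc d h) (l : ℕ)).card : ℝ) ≤
      1 / (32 * (g : ℝ) ^ 2) * P.card)
  have hB : (B.card : ℝ) ≤ 27648 * (g : ℝ) ^ 3 / P.card * U.card := by
    refine le_trans ?_ hE
    have h1 : B ⊆ (U.filter (fun x => 2 * ((P.filter fun l : Pr => PatE q r (sc d x.2) (l : ℕ)).card : ℝ) ≤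
      1 / (32 * (g : ℝ) ^ 2) * P.card)).image (fun x => x.2) := by
      intro h hh
      obtain ⟨h2, h3⟩ := Finset.mem_filter.1 hh
      obtain ⟨i, hi, h4⟩ := hA h h2
      exact Finset.mem_image.2 ⟨⟨i, h⟩, Finset.mem_filter.2 ⟨Finset.mem_sigma.2 ⟨hi, h4⟩, h3⟩, rfl⟩
    exact_mod_cast (Finset.card_le_card h1).trans Finset.card_image_le
  have hg34 : 27648 * (g : ℝ) ^ 3 ≤ 27648 * (g : ℝ) ^ 4 := by
    have : (g : ℝ) ^ 3 * 1 ≤ (g : ℝ) ^ 3 * g := mul_le_mul_of_nonneg_left hg1 (by positivity)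
    have h2 : (g : ℝ) ^ 3 * g = (g : ℝ) ^ 4 := by ring
    linarith
  have hg34' : 27648 * (g : ℝ) ^ 3 / P.card * U.card ≤ 27648 * (g : ℝ) ^ 4 / P.card * U.card :=
    mul_le_mul_of_nonneg_right (div_le_div_of_nonneg_right hg34 hPc.le) hU0
  constructor
  · have h1 : A.filter (fun h => ¬ ∃ l ∈ P, PatE q r (sc d h) (l : ℕ)) ⊆ B := by
      intro h hh
      obtain ⟨h2, h3⟩ := Finset.mem_filter.1 hh
      refine Finset.mem_filter.2 ⟨h2, ?_⟩
      have h4 : (P.filter fun l : Pr => PatE q r (sc d h) (l : ℕ)) = ∅ := by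
        rw [Finset.filter_eq_empty_iff]
        intro l hl h5
        exact h3 ⟨l, hl, h5⟩
      rw [h4, Finset.card_empty, Nat.cast_zero, mul_zero]
      positivity
    have h2 : ((A.filter (fun h => ¬ ∃ l ∈ P, PatE q r (sc d h) (l : ℕ))).card : ℝ) ≤ (B.card : ℝ) := by
      exact_mod_cast Finset.card_le_card h1
    refine h2.trans (hB.trans (hg34'.trans ?_))
    refine mul_le_mul_of_nonneg_right (div_le_div_of_nonneg_right ?_ hPc.le) hU0
    have : (0 : ℝ) ≤ (g : ℝ) ^ 4 := by positivity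
    linarith
  · -- the pairs with a good first member
    have hgood : ∀ h ∈ A, h ∉ B → (((A.filter (fun h' => ¬ HasPair q r P (sc d h, sc d h'))).card : ℕ) : ℝ) ≤
        27648 * (g : ℝ) ^ 4 / P.card * U.card := by
      intro h hh hhB
      set P' := P.filter fun l : Pr => PatE q r (sc d h) (l : ℕ) with hP'
      have h1 : 1 / (32 * (g : ℝ) ^ 2) * P.card < 2 * (P'.card : ℝ) := by
        by_contra hcon
        push Not at hcon
        exact hhB (Finset.mem_filter.2 ⟨hh, hcon⟩)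
      have h2 : (0 : ℝ) < P'.card := by
        have : 0 < 1 / (32 * (g : ℝ) ^ 2) * P.card := by positivity
        linarith
      have h3 : P'.Nonempty := by
        rw [← Finset.card_pos]
        exact_mod_cast h2
      have hsubP : P' ⊆ P := Finset.filter_subset _ _
      have h4 := none_F hc P' h3 F hF1 (fun l hl => hF l (hsubP hl)) hM hr3 hrn hgr hng htop
        (fun l hl => hP8 l (hsubP hl)) hd0 hdg (fun l hl => hdl l (hsubP hl))
      rw [← hU] at h4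
      have h5 : A.filter (fun h' => ¬ HasPair q r P (sc d h, sc d h')) ⊆
          (U.filter (fun x => ∀ l ∈ P', ¬ PatF (r + 1) (sc d x.2) (l : ℕ))).image (fun x => x.2) := by
        intro h' hh'
        obtain ⟨h6, h7⟩ := Finset.mem_filter.1 hh'
        obtain ⟨i, hi, h8⟩ := hA h' h6
        refine Finset.mem_image.2 ⟨⟨i, h'⟩, Finset.mem_filter.2 ⟨Finset.mem_sigma.2 ⟨hi, h8⟩, ?_⟩, rfl⟩
        intro l hl h9
        obtain ⟨h10, h11⟩ := Finset.mem_filter.1 hl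
        exact h7 ⟨l, h10, h11, h9⟩
      have h6 : (((A.filter (fun h' => ¬ HasPair q r P (sc d h, sc d h'))).card : ℕ) : ℝ) ≤
          ((U.filter (fun x => ∀ l ∈ P', ¬ PatF (r + 1) (sc d x.2) (l : ℕ))).card : ℝ) := by
        exact_mod_cast (Finset.card_le_card h5).trans Finset.card_image_le
      refine h6.trans (h4.trans ?_)
      refine mul_le_mul_of_nonneg_right ?_ hU0
      rw [div_le_div_iff₀ h2 hPc]
      have h7 : (P.card : ℝ) < 64 * (g : ℝ) ^ 2 * P'.card := by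
        rw [div_mul_eq_mul_div, one_mul, div_lt_iff₀ (by positivity)] at h1
        linarith
      calc 432 * (g : ℝ) ^ 2 * P.card ≤ 432 * (g : ℝ) ^ 2 * (64 * (g : ℝ) ^ 2 * P'.card) :=
            mul_le_mul_of_nonneg_left h7.le (by positivity)
        _ = _ := by ring
    have h1 : (A ×ˢ A).filter (fun x => ¬ HasPair q r P (sc d x.1, sc d x.2)) ⊆
        (B ×ˢ A) ∪ ((A.filter (fun h => h ∉ B)).biUnion fun h =>
          (A.filter (fun h' => ¬ HasPair q r P (sc d h, sc d h'))).image fun h' => (h, h')) := by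
      rintro ⟨h, h'⟩ hx
      obtain ⟨h2, h3⟩ := Finset.mem_filter.1 hx
      obtain ⟨h4, h5⟩ := Finset.mem_product.1 h2
      by_cases hhB : h ∈ B
      · exact Finset.mem_union_left _ (Finset.mem_product.2 ⟨hhB, h5⟩)
      · exact Finset.mem_union_right _ (Finset.mem_biUnion.2 ⟨h, Finset.mem_filter.2 ⟨h4, hhB⟩,
          Finset.mem_image.2 ⟨h', Finset.mem_filter.2 ⟨h5, h3⟩, rfl⟩⟩)
    have h2 : (((A ×ˢ A).filter (fun x => ¬ HasPair q r P (sc d x.1, sc d x.2))).card : ℝ) ≤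
        (B.card : ℝ) * A.card + ∑ h ∈ A.filter (fun h => h ∉ B),
          (((A.filter (fun h' => ¬ HasPair q r P (sc d h, sc d h'))).card : ℕ) : ℝ) := by
      have h3 := (Finset.card_le_card h1).trans (Finset.card_union_le _ _)
      rw [Finset.card_product] at h3
      have h4 := h3.trans (Nat.add_le_add_left (Finset.card_biUnion_le.trans
        (Finset.sum_le_sum fun h _ => Finset.card_image_le)) _)
      exact_mod_cast h4
    have h3 : ∑ h ∈ A.filter (fun h => h ∉ B),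
          (((A.filter (fun h' => ¬ HasPair q r P (sc d h, sc d h'))).card : ℕ) : ℝ) ≤
        (A.card : ℝ) * (27648 * (g : ℝ) ^ 4 / P.card * U.card) := by
      have h4 := Finset.sum_le_card_nsmul (A.filter (fun h => h ∉ B))
        (fun h => (((A.filter (fun h' => ¬ HasPair q r P (sc d h, sc d h'))).card : ℕ) : ℝ))
        (27648 * (g : ℝ) ^ 4 / P.card * U.card) (fun h hh => by
          obtain ⟨h5, h6⟩ := Finset.mem_filter.1 hh
          exact hgood h h5 h6)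
      rw [nsmul_eq_mul] at h4
      refine h4.trans (mul_le_mul_of_nonneg_right ?_ (by positivity))
      exact_mod_cast Finset.card_filter_le _ _
    have h4 : (B.card : ℝ) * A.card ≤ (27648 * (g : ℝ) ^ 4 / P.card * U.card) * A.card :=
      mul_le_mul_of_nonneg_right (hB.trans hg34') (Nat.cast_nonneg _)
    refine h2.trans ((add_le_add h4 h3).trans ?_)
    have h5 : (27648 * (g : ℝ) ^ 4 / P.card * U.card) * A.card +
        (A.card : ℝ) * (27648 * (g : ℝ) ^ 4 / P.card * U.card) =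
        (55296 * (g : ℝ) ^ 4 / P.card * U.card) * A.card := by ring
    rw [h5]
    refine mul_le_mul_of_nonneg_right (mul_le_mul_of_nonneg_right
      (div_le_div_of_nonneg_right ?_ hPc.le) hU0) (Nat.cast_nonneg _)
    have : (0 : ℝ) ≤ (g : ℝ) ^ 4 := by positivity
    linarith

end Pool.Agent.J4H9.NPair
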