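import Mathlib
import Pool.Agent.J4H9.Size

/-!
# Newton polygons
-/

set_option autoImplicit false

namespace Pool.Agent.J4H9.NGauss

open Polynomial Pool.Agent.W521.Frob Pool.Agent.W521.Descent Pool.Agent.J4H9.Cover

/-- The height of the polygon with the slopes `lam 0, lam 1, …` at the abscissa `j`. -/
noncomputable def ht (lam : ℕ → ℝ) (j : ℕ) : ℝ := ∑ i ∈ Finset.range j, lam i

/-- The smallest integer that is at least `a` times the height. -/
noncomputable def ex (a : ℕ) (lam : ℕ → ℝ) (j : ℕ) : ℕ := ⌈a * ht lam j⌉₊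

/-- Slopes. -/
structure Slopes (lam : ℕ → ℝ) : Prop where
  mono : Monotone lam
  nonneg : ∀ i, 0 ≤ lam i
  le_half : ∀ i, lam i ≤ 1 / 2

variable {lam : ℕ → ℝ}

theorem ht_zero : ht lam 0 = 0 := by simp [ht]

theorem ht_succ (j : ℕ) : ht lam (j + 1) = ht lam j + lam j := Finset.sum_range_succ _ _

theorem ht_add_ge (hs : Slopes lam) (j n : ℕ) : ht lam j + lam j * n ≤ ht lam (j + n) := by
  induction n with
  | zero => simp
  | succ n ih =>
    rw [← add_assoc, ht_succ]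
    have := hs.mono (Nat.le_add_right j n)
    push_cast
    linarith

theorem ht_add_le (hs : Slopes lam) (i n : ℕ) : ht lam (i + n) ≤ ht lam i + lam (i + n) * n := by
  induction n with
  | zero => simp
  | succ n ih =>
    rw [← add_assoc, ht_succ]
    have h1 := hs.mono (Nat.le_succ (i + n))
    have h2 : lam (i + n) * n ≤ lam (i + n + 1) * n :=
      mul_le_mul_of_nonneg_right h1 (Nat.cast_nonneg n)
    push_cast
    have h3 : lam (i + n) ≤ lam (i + n + 1) := h1
    linarith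

/-- The polygon is above its tangents. -/
theorem ht_tangent (hs : Slopes lam) (i j : ℕ) : ht lam j + lam j * ((i : ℝ) - j) ≤ ht lam i := by
  rcases le_total j i with h | h
  · obtain ⟨n, rfl⟩ := Nat.exists_eq_add_of_le h
    have := ht_add_ge hs j n
    push_cast
    have e : lam j * ((j : ℝ) + n - j) = lam j * n := by ring
    linarith
  · obtain ⟨n, rfl⟩ := Nat.exists_eq_add_of_le h
    have := ht_add_le hs i n
    push_cast
    have e : lam (i + n) * ((i : ℝ) - (i + n)) = -(lam (i + n) * n) := by ring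
    linarith

theorem ht_nonneg (hs : Slopes lam) (j : ℕ) : 0 ≤ ht lam j :=
  Finset.sum_nonneg fun i _ => hs.nonneg i

theorem ht_le_half (hs : Slopes lam) (j n : ℕ) : ht lam (j + n) ≤ ht lam j + n / 2 := by
  induction n with
  | zero => simp
  | succ n ih =>
    rw [← add_assoc, ht_succ]
    have := hs.le_half (j + n)
    push_cast
    linarith

/-- The slope of the chords. -/
theorem ht_le (hs : Slopes lam) {μ : ℝ} {g : ℕ} (hg : ht lam g ≤ (1 / 2 - μ) * g) {j : ℕ}
    (hj : j ≤ g) : ht lam j ≤ (1 / 2 - μ) * j := by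
  rcases Nat.eq_zero_or_pos g with h0 | h0
  · have : j = 0 := by omega
    subst this
    simp [ht_zero]
  · have h1 := ht_tangent hs g j
    have h2 := ht_tangent hs 0 j
    rw [ht_zero] at h2
    have hgR : (0 : ℝ) < g := by exact_mod_cast h0
    have hjR : (j : ℝ) ≤ g := by exact_mod_cast hj
    have hj0 : (0 : ℝ) ≤ j := Nat.cast_nonneg j
    have h3 : ht lam j * g ≤ ht lam g * j := by
      have h4 := mul_le_mul_of_nonneg_right h1 hj0
      have h5 := mul_le_mul_of_nonneg_right h2 (sub_nonneg.2 hjR)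
      push_cast at h5
      nlinarith
    have h6 : ht lam j * g ≤ ((1 / 2 - μ) * j) * g := by
      have := mul_le_mul_of_nonneg_right hg hj0
      nlinarith
    exact le_of_mul_le_mul_right h6 hgR

theorem ex_zero (a : ℕ) : ex a lam 0 = 0 := by simp [ex, ht_zero]

theorem ex_le (hs : Slopes lam) (a : ℕ) {j i : ℕ} (hij : 2 * i ≤ j) :
    ex a lam j ≤ ex a lam (j - 2 * i) + a * i := by
  unfold ex
  refine Nat.ceil_le.2 ?_
  push_cast
  have h1 := ht_le_half hs (j - 2 * i) (2 * i)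
  rw [Nat.sub_add_cancel hij] at h1
  push_cast at h1
  have h2 := Nat.le_ceil ((a : ℝ) * ht lam (j - 2 * i))
  have h3 : (a : ℝ) * ht lam j ≤ a * (ht lam (j - 2 * i) + 2 * i / 2) :=
    mul_le_mul_of_nonneg_left h1 (Nat.cast_nonneg a)
  have h4 : (a : ℝ) * (ht lam (j - 2 * i) + 2 * i / 2) = a * ht lam (j - 2 * i) + a * i := by ring
  linarith

/-- The norm of an integer. -/
theorem dvd_of_norm {p : ℕ} [hp : Fact p.Prime] {x : ℝ} {w : ℤ}
    (h : ‖(w : ℚ_[p])‖ ≤ (p : ℝ) ^ (-x)) : ((p : ℤ) ^ ⌈x⌉₊) ∣ w := by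
  have hpR : (1 : ℝ) < p := by exact_mod_cast hp.out.one_lt
  have hp0 : (0 : ℝ) < p := by linarith
  rcases Nat.eq_zero_or_pos ⌈x⌉₊ with h0 | h0
  · rw [h0, pow_zero]
    exact one_dvd w
  · obtain ⟨n, hn⟩ : ∃ n, ⌈x⌉₊ = n + 1 := ⟨⌈x⌉₊ - 1, by omega⟩
    have h1 : (n : ℝ) < x := by
      have : n < ⌈x⌉₊ := by omega
      exact Nat.lt_ceil.1 this
    have h2 : ‖(w : ℚ_[p])‖ < (p : ℝ) ^ (-(n : ℤ)) := by
      refine h.trans_lt ?_
      rw [← Real.rpow_intCast]
      refine Real.rpow_lt_rpow_of_exponent_lt hpR ?_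
      push_cast
      linarith
    rw [hn]
    have h3 := (Padic.norm_lt_pow_iff_norm_le_pow_sub_one (w : ℚ_[p]) (-(n : ℤ))).1 h2
    have h4 := (Padic.norm_int_le_pow_iff_dvd w (n + 1)).1 (by
      refine h3.trans (le_of_eq ?_)
      congr 1
      push_cast
      ring)
    exact_mod_cast h4

theorem norm_of_dvd {p : ℕ} [hp : Fact p.Prime] {x : ℝ} {w : ℤ}
    (h : ((p : ℤ) ^ ⌈x⌉₊) ∣ w) : ‖(w : ℚ_[p])‖ ≤ (p : ℝ) ^ (-x) := by
  have hpR : (1 : ℝ) < p := by exact_mod_cast hp.out.one_lt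
  have h1 := (Padic.norm_int_le_pow_iff_dvd (p := p) w ⌈x⌉₊).2 (by exact_mod_cast h)
  refine h1.trans ?_
  rw [← Real.rpow_intCast]
  refine Real.rpow_le_rpow_of_exponent_le hpR.le ?_
  push_cast
  have := Nat.le_ceil x
  linarith

/-- **The coefficients of a factor.** -/
theorem factor_dvd {p : ℕ} [hp : Fact p.Prime] (hs : Slopes lam) {a g k : ℕ} {h u : ℤ[X]}
    (hh : h.Monic) (hdeg : h.natDegree = g) (hu : u.Monic) (hk : u.natDegree = k) (hdvd : u ∣ h)
    (hdiv : ∀ j ≤ g, ((p : ℤ) ^ ex a lam j) ∣ h.coeff (g - j)) :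
    ∀ j ≤ k, ((p : ℤ) ^ ex a lam j) ∣ u.coeff (k - j) := by
  intro j₀ hj₀
  have hpR : (1 : ℝ) < p := by exact_mod_cast hp.out.one_lt
  have hp0 : (0 : ℝ) < p := by linarith
  obtain ⟨w, hw⟩ := hdvd
  have hwm : w.Monic := by
    have h1 : (u * w).Monic := by rw [← hw]; exact hh
    exact hu.of_mul_monic_left h1
  have hdw : w.natDegree = g - k := by
    have h1 := hu.natDegree_mul hwm
    rw [← hw, hdeg, hk] at h1
    omega
  have hkg : k ≤ g := by
    have h1 := hu.natDegree_mul hwm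
    rw [← hw, hdeg, hk] at h1
    omega
  set s : ℝ := lam j₀ with hsdef
  set r : ℝ := (p : ℝ) ^ (-((a : ℝ) * s)) with hr
  have hr0 : 0 < r := by positivity
  set v : AbsoluteValue ℚ_[p] ℝ := NormedField.toAbsoluteValue ℚ_[p] with hv
  have hna : IsNonarchimedean v := fun x y => Padic.nonarchimedean x y
  set φ : ℤ →+* ℚ_[p] := Int.castRingHom ℚ_[p] with hφ
  have hvc : ∀ (f : ℤ[X]) (n : ℕ), v ((f.map φ).coeff n) = ‖((f.coeff n : ℤ) : ℚ_[p])‖ := by
    intro f n
    rw [coeff_map]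
    rfl
  have hmul : (h.map φ).gaussNorm v r = (u.map φ).gaussNorm v r * (w.map φ).gaussNorm v r := by
    rw [hw, Polynomial.map_mul]
    exact gaussNorm_mul hna hr0 _ _
  -- powers of the radius
  have hrpow : ∀ n : ℕ, r ^ n = (p : ℝ) ^ (-((a : ℝ) * s * n)) := by
    intro n
    rw [hr, ← Real.rpow_natCast, ← Real.rpow_mul hp0.le]
    congr 1
    ring
  -- the product
  have h1 : (h.map φ).gaussNorm v r ≤ (p : ℝ) ^ ((a : ℝ) * (s * j₀ - ht lam j₀)) * r ^ g := by
    obtain ⟨i, hi⟩ := exists_eq_gaussNorm v r (h.map φ)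
    rw [hi, hvc]
    rcases le_or_gt i g with hig | hig
    · obtain ⟨j, hj⟩ : ∃ j, j ≤ g ∧ i = g - j := ⟨g - i, by omega, by omega⟩
      have h2 := hdiv j hj.1
      rw [← hj.2] at h2
      have h3 := norm_of_dvd (p := p) (x := (a : ℝ) * ht lam j) h2
      have h4 := ht_tangent hs j j₀
      calc ‖((h.coeff i : ℤ) : ℚ_[p])‖ * r ^ i ≤ (p : ℝ) ^ (-((a : ℝ) * ht lam j)) * r ^ i :=
            mul_le_mul_of_nonneg_right h3 (by positivity)
        _ = (p : ℝ) ^ (-((a : ℝ) * ht lam j) + -((a : ℝ) * s * i)) := by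
            rw [hrpow, Real.rpow_add hp0]
        _ ≤ (p : ℝ) ^ ((a : ℝ) * (s * j₀ - ht lam j₀) + -((a : ℝ) * s * g)) := by
            refine Real.rpow_le_rpow_of_exponent_le hpR.le ?_
            have h5 : (i : ℝ) = g - j := by
              rw [hj.2, Nat.cast_sub hj.1]
            rw [h5]
            have h6 := mul_le_mul_of_nonneg_left h4 (Nat.cast_nonneg (α := ℝ) a)
            nlinarith
        _ = _ := by rw [hrpow, Real.rpow_add hp0]
    · have h2 : h.coeff i = 0 := coeff_eq_zero_of_natDegree_lt (by omega)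
      rw [h2]
      simp only [Int.cast_zero, norm_zero, zero_mul]
      positivity
  have h2 : r ^ (g - k) ≤ (w.map φ).gaussNorm v r := by
    have h3 := le_gaussNorm v (w.map φ) hr0.le (g - k)
    rw [hvc] at h3
    have h4 : w.coeff (g - k) = 1 := by
      rw [← hdw]
      exact hwm
    rw [h4] at h3
    simpa using h3
  have h3 := le_gaussNorm v (u.map φ) hr0.le (k - j₀)
  rw [hvc] at h3
  have h4 : ‖((u.coeff (k - j₀) : ℤ) : ℚ_[p])‖ * r ^ (k - j₀) * r ^ (g - k) ≤
      (p : ℝ) ^ ((a : ℝ) * (s * j₀ - ht lam j₀)) * r ^ g := by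
    refine le_trans ?_ h1
    rw [hmul]
    exact mul_le_mul h3 h2 (by positivity) (gaussNorm_nonneg v _ hr0.le)
  have h5 : ‖((u.coeff (k - j₀) : ℤ) : ℚ_[p])‖ ≤ (p : ℝ) ^ (-((a : ℝ) * ht lam j₀)) := by
    have h6 : r ^ g = r ^ (k - j₀) * r ^ (g - k) * r ^ j₀ := by
      rw [← pow_add, ← pow_add]
      congr 1
      omega
    rw [h6] at h4
    have h7 : 0 < r ^ (k - j₀) * r ^ (g - k) := by positivity
    have h8 : ‖((u.coeff (k - j₀) : ℤ) : ℚ_[p])‖ * (r ^ (k - j₀) * r ^ (g - k)) ≤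
        ((p : ℝ) ^ ((a : ℝ) * (s * j₀ - ht lam j₀)) * r ^ j₀) * (r ^ (k - j₀) * r ^ (g - k)) := by
      calc _ = ‖((u.coeff (k - j₀) : ℤ) : ℚ_[p])‖ * r ^ (k - j₀) * r ^ (g - k) := by ring
        _ ≤ _ := h4
        _ = _ := by ring
    refine (le_of_mul_le_mul_right h8 h7).trans (le_of_eq ?_)
    rw [hrpow, ← Real.rpow_add hp0]
    congr 1
    ring
  exact dvd_of_norm h5

/-- The coefficients of the terms. -/
theorem term_dvd (q g k m : ℕ) (hk : k ≤ g) (hm : m ≤ k) :
    (∀ i, k = m + 2 * i → ((q : ℤ) ^ i) ∣ ((X ^ 2 + C (q : ℤ)) ^ k * X ^ (g - k) : ℤ[X]).coeff (g + m)) ∧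
    ((∀ i, k ≠ m + 2 * i) → ((X ^ 2 + C (q : ℤ)) ^ k * X ^ (g - k) : ℤ[X]).coeff (g + m) = 0) := by
  have h1 : ((X ^ 2 + C (q : ℤ)) ^ k : ℤ[X]) = expand ℤ 2 ((X + C (q : ℤ)) ^ k) := by
    rw [map_pow, map_add, expand_X, expand_C]
  have h2 : ((X ^ 2 + C (q : ℤ)) ^ k * X ^ (g - k) : ℤ[X]).coeff (g + m) =
      (expand ℤ 2 ((X + C (q : ℤ)) ^ k)).coeff (k + m) := by
    have h3 : g + m = (k + m) + (g - k) := by omega
    rw [h3, coeff_mul_X_pow, h1]
  rw [h2, coeff_expand (by norm_num)]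
  constructor
  · intro i hi
    have h3 : 2 ∣ k + m := ⟨m + i, by omega⟩
    rw [if_pos h3, coeff_X_add_C_pow]
    have h4 : k - (k + m) / 2 = i := by omega
    rw [h4]
    exact Dvd.intro _ rfl
  · intro h
    rw [if_neg]
    rintro ⟨c, hc⟩
    exact h (c - m) (by omega)

/-- **From the coefficients of the Weil polynomial to those of the real polynomial.** -/
theorem weil_dvd {p a g : ℕ} {h : ℤ[X]} (hdeg : h.natDegree = g) {e : ℕ → ℕ}
    (he : ∀ j i, 2 * i ≤ j → e j ≤ e (j - 2 * i) + a * i)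
    (hf : ∀ j ≤ g, ((p : ℤ) ^ e j) ∣ (weil (p ^ a) h).coeff (2 * g - j)) :
    ∀ j ≤ g, ((p : ℤ) ^ e j) ∣ h.coeff (g - j) := by
  intro j
  induction j using Nat.strong_induction_on with
  | _ j ih =>
    intro hj
    have h1 := hf j hj
    have h2 : 2 * g - j = g + (g - j) := by omega
    rw [h2] at h1
    unfold weil at h1
    rw [hdeg, finsetSum_coeff] at h1
    simp only [coeff_C_mul] at h1
    have h3 : ∀ k ∈ Finset.range (g + 1), k ≠ g - j → ((p : ℤ) ^ e j) ∣
        h.coeff k * ((X ^ 2 + C ((p ^ a : ℕ) : ℤ)) ^ k * X ^ (g - k) : ℤ[X]).coeff (g + (g - j)) := by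
      intro k hk hne
      have hk' := Finset.mem_range.1 hk
      rcases lt_or_gt_of_ne hne with h4 | h4
      · rw [(term_coeff (p ^ a) g k (g - j) (by omega)).1 h4, mul_zero]
        exact dvd_zero _
      · obtain ⟨h5, h6⟩ := term_dvd (p ^ a) g k (g - j) (by omega) h4.le
        by_cases h7 : ∃ i, k = g - j + 2 * i
        · obtain ⟨i, hi⟩ := h7
          have h8 := h5 i hi
          have h9 : k = g - (j - 2 * i) := by omega
          have h10 := ih (j - 2 * i) (by omega) (by omega)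
          rw [← h9] at h10
          have h11 : ((p : ℤ) ^ (a * i)) ∣
              ((X ^ 2 + C ((p ^ a : ℕ) : ℤ)) ^ k * X ^ (g - k) : ℤ[X]).coeff (g + (g - j)) := by
            rw [pow_mul]
            exact_mod_cast h8
          refine dvd_trans (pow_dvd_pow _ (he j i (by omega))) ?_
          rw [pow_add]
          exact mul_dvd_mul h10 h11
        · push Not at h7
          rw [h6 h7, mul_zero]
          exact dvd_zero _
    rw [← Finset.add_sum_erase _ _ (Finset.mem_range.2 (show g - j < g + 1 by omega)),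
      (term_coeff (p ^ a) g (g - j) (g - j) (by omega)).2 rfl, mul_one] at h1
    refine (dvd_add_left ?_).1 h1
    refine Finset.dvd_sum fun k hk => ?_
    rw [Finset.mem_erase] at hk
    exact h3 k hk.2 hk.1

end Pool.Agent.J4H9.NGauss
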