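import Mathlib
import Pool.Agent.J4H9.NGauss
import Pool.Agent.J4H9.NScale

/-!
# The reducible members of a chain of polynomials with divisible coefficients
-/

set_option autoImplicit false

namespace Pool.Agent.J4H9.NSize

open Polynomial Filter Pool.Agent.W521.Frob Pool.Agent.W521.Descent Pool.Agent.W521.Lower
  Pool.Agent.W521.Count Pool.Agent.J4H9.Ch Pool.Agent.J4H9.Cover Pool.Agent.J4H9.Size
  Pool.Agent.J4H9.NScale Pool.Agent.J4H9.NGauss

/-- The multiplier of the coefficient of index `k` of a polynomial of degree `g`. -/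
noncomputable def dd (p a : ℕ) (lam : ℕ → ℝ) (g : ℕ) (k : ℕ) : ℤ := (p : ℤ) ^ ex a lam (g - k)

/-- The number of the multiples of the multiplier in an interval of length `q ^ (j / 2)`. -/
noncomputable def sg (q p a : ℕ) (lam : ℕ → ℝ) (j : ℕ) : ℝ :=
  Real.sqrt q ^ j / (p : ℝ) ^ ex a lam j

/-- The exponent. -/
noncomputable def P (lam : ℕ → ℝ) (j : ℕ) : ℝ := (j : ℝ) / 2 - ht lam j

variable {p a q g : ℕ} {lam : ℕ → ℝ}

theorem dd_ne (hp : p.Prime) (k : ℕ) : dd p a lam g k ≠ 0 := by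
  unfold dd
  exact pow_ne_zero _ (by exact_mod_cast hp.ne_zero)

theorem dd_top : dd p a lam g g = 1 := by
  unfold dd
  rw [Nat.sub_self, ex_zero, pow_zero]

theorem dd_prime (hp : p.Prime) (k l : ℕ) (hl : l.Prime) (h : (l : ℤ) ∣ dd p a lam g k) :
    l = p := by
  unfold dd at h
  have h1 : l ∣ p ^ ex a lam (g - k) := by exact_mod_cast h
  exact (Nat.prime_dvd_prime_iff_eq hl hp).1 (hl.dvd_of_dvd_pow h1)

theorem abs_dd (k : ℕ) : |((dd p a lam g k : ℤ) : ℝ)| = (p : ℝ) ^ ex a lam (g - k) := by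
  unfold dd
  push_cast
  rw [abs_of_nonneg (by positivity)]

section bounds

variable (hp : p.Prime) (ha : 0 < a) (hq : q = p ^ a) (hs : Slopes lam)

include hp ha hq

theorem q_pos : 0 < q := by
  rw [hq]
  exact Nat.pow_pos hp.pos

theorem q_ge : 2 ≤ q := by
  rw [hq]
  calc 2 ≤ p := hp.two_le
    _ = p ^ 1 := (pow_one p).symm
    _ ≤ p ^ a := Nat.pow_le_pow_right hp.pos ha

theorem p_le_q : p ≤ q := by
  rw [hq]
  calc p = p ^ 1 := (pow_one p).symm
    _ ≤ p ^ a := Nat.pow_le_pow_right hp.pos ha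

theorem q_rpow (x : ℝ) : (q : ℝ) ^ x = (p : ℝ) ^ ((a : ℝ) * x) := by
  rw [hq]
  push_cast
  rw [← Real.rpow_natCast, ← Real.rpow_mul (Nat.cast_nonneg p)]

theorem sqrt_pow (j : ℕ) : Real.sqrt q ^ j = (q : ℝ) ^ ((j : ℝ) / 2) := by
  rw [Real.sqrt_eq_rpow, ← Real.rpow_natCast, ← Real.rpow_mul (Nat.cast_nonneg q)]
  congr 1
  ring

theorem sg_pos (j : ℕ) : 0 < sg q p a lam j := by
  have h1 : (0 : ℝ) < q := by exact_mod_cast q_pos hp ha hq
  have h2 : (0 : ℝ) < p := by exact_mod_cast hp.pos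
  unfold sg
  have := Real.sqrt_pos.2 h1
  positivity

include hs

theorem pow_ex_ge (j : ℕ) : (q : ℝ) ^ ht lam j ≤ (p : ℝ) ^ ex a lam j := by
  have h2 : (1 : ℝ) ≤ p := by exact_mod_cast hp.one_lt.le
  rw [q_rpow hp ha hq, ← Real.rpow_natCast]
  exact Real.rpow_le_rpow_of_exponent_le h2 (Nat.le_ceil _)

theorem pow_ex_le (j : ℕ) : (p : ℝ) ^ ex a lam j ≤ (q : ℝ) ^ (ht lam j + 1) := by
  have h2 : (1 : ℝ) ≤ p := by exact_mod_cast hp.one_lt.le
  rw [q_rpow hp ha hq, ← Real.rpow_natCast]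
  refine Real.rpow_le_rpow_of_exponent_le h2 ?_
  have h3 : (0 : ℝ) ≤ (a : ℝ) * ht lam j := mul_nonneg (Nat.cast_nonneg a) (ht_nonneg hs j)
  have h4 := (Nat.ceil_lt_add_one h3).le
  have h5 : (1 : ℝ) ≤ a := by exact_mod_cast ha
  unfold ex
  nlinarith

theorem sg_le (j : ℕ) : sg q p a lam j ≤ (q : ℝ) ^ P lam j := by
  have h1 : (0 : ℝ) < q := by exact_mod_cast q_pos hp ha hq
  unfold sg P
  rw [Real.rpow_sub h1, sqrt_pow hp ha hq]
  exact div_le_div_of_nonneg_left (by positivity) (by positivity) (pow_ex_ge hp ha hq hs j)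

theorem sg_ge (j : ℕ) : (q : ℝ) ^ (P lam j - 1) ≤ sg q p a lam j := by
  have h1 : (0 : ℝ) < q := by exact_mod_cast q_pos hp ha hq
  have h2 : (0 : ℝ) < p := by exact_mod_cast hp.pos
  unfold sg P
  have e : (j : ℝ) / 2 - ht lam j - 1 = (j : ℝ) / 2 - (ht lam j + 1) := by ring
  rw [e, Real.rpow_sub h1, sqrt_pow hp ha hq]
  exact div_le_div_of_nonneg_left (by positivity) (by positivity) (pow_ex_le hp ha hq hs j)

end bounds

theorem P_nonneg (hs : Slopes lam) (j : ℕ) : 0 ≤ P lam j := by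
  have h1 := ht_le_half hs 0 j
  rw [zero_add, ht_zero] at h1
  unfold P
  linarith

theorem P_mono (hs : Slopes lam) (j n : ℕ) : P lam j ≤ P lam (j + n) := by
  have h1 := ht_le_half hs j n
  unfold P
  push_cast
  linarith

theorem P_le (hs : Slopes lam) (j : ℕ) : P lam j ≤ j / 2 := by
  have := ht_nonneg hs j
  unfold P
  linarith

theorem P_ge (hs : Slopes lam) {μ : ℝ} (hg : ht lam g ≤ (1 / 2 - μ) * g) {j : ℕ} (hj : j ≤ g) :
    μ * j ≤ P lam j := by
  have := ht_le hs hg hj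
  unfold P
  linarith

theorem finite_sc {d : ℕ → ℤ} (hd : ∀ k, d k ≠ 0) (hq : q ≠ 0) :
    {B : ℤ[X] | sc d B ∈ realWeil q g}.Finite :=
  (finite_realWeil hq).preimage (sc_injective hd).injOn

/-- The lengths of the intervals. -/
noncomputable def len' (q g : ℕ) (d : ℕ → ℤ) (j : ℕ) : ℕ :=
  ⌊4 * g * Real.sqrt q ^ (g - j) / ((g - j : ℕ) * |((d j : ℤ) : ℝ)|)⌋₊ + 1

/-- **The chain which contains the real Weil polynomials with divisible coefficients.** -/
theorem cover_sc {q : ℕ} (hq : 0 < q) (g : ℕ) {d : ℕ → ℤ} (hd : ∀ k, d k ≠ 0) (hdg : d g = 1) :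
    ∃ 𝒯 : ℕ → Finset ℤ[X], Chain (len' q g d) g 𝒯 ∧
      {B : ℤ[X] | sc d B ∈ realWeil q g} ⊆ 𝒯 0 ∧ 𝒯 g = {1} := by
  have hfin := finite_sc (g := g) hd hq.ne'
  obtain ⟨𝒯, h1, h2, h3⟩ := cover hfin.toFinset (fun B hB => by
    rw [Set.Finite.mem_toFinset] at hB
    exact (monic_sc hd hdg).2 ⟨hB.1, hB.2.1⟩) (len' q g d) (fun j _ => Nat.succ_pos _) (by
    intro j hj B hB B' hB' heq
    rw [Set.Finite.mem_toFinset] at hB hB'
    have hB : sc d B ∈ realWeil q g := hB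
    have hB' : sc d B' ∈ realWeil q g := hB'
    have h4 := real_diff hB.2.2 hB'.2.2 hB.2.1 hB'.2.1 hj (by
      intro k hk
      have h5 := congrArg (fun p => p.coeff (k - (j + 1))) heq
      simp only [iterate_divX_coeff] at h5
      rw [Nat.sub_add_cancel hk] at h5
      rw [coeff_sc, coeff_sc, h5])
    have h0 : (0 : ℝ) < (g - j : ℕ) := by
      have : 0 < g - j := by omega
      exact_mod_cast this
    have hdj : 0 < |((d j : ℤ) : ℝ)| := abs_pos.2 (by exact_mod_cast hd j)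
    rw [coeff_sc, coeff_sc, ← mul_sub] at h4
    push_cast at h4
    rw [abs_mul] at h4
    have h5 : |((B.coeff j - B'.coeff j : ℤ) : ℝ)| ≤
        4 * g * Real.sqrt q ^ (g - j) / ((g - j : ℕ) * |((d j : ℤ) : ℝ)|) := by
      rw [le_div_iff₀ (by positivity)]
      push_cast
      linarith
    have h6 : (B.coeff j - B'.coeff j).toNat ≤
        ⌊4 * (g : ℝ) * Real.sqrt q ^ (g - j) / ((g - j : ℕ) * |((d j : ℤ) : ℝ)|)⌋₊ := by
      refine Nat.le_floor ?_
      refine le_trans ?_ h5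
      by_cases h7 : 0 ≤ B.coeff j - B'.coeff j
      · have h8 : (((B.coeff j - B'.coeff j).toNat : ℤ) : ℝ) = ((B.coeff j - B'.coeff j : ℤ) : ℝ) := by
          rw [Int.toNat_of_nonneg h7]
        rw [Int.cast_natCast] at h8
        rw [h8]
        exact le_abs_self _
      · rw [Int.toNat_of_nonpos (by omega)]
        simp
    unfold len'
    omega)
  exact ⟨𝒯, h1, fun B hB => h2 ((Set.Finite.mem_toFinset hfin).2 hB), h3⟩

/-- The real Weil polynomials of degree `k` with divisible coefficients. -/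
def strat (q p a : ℕ) (lam : ℕ → ℝ) (k : ℕ) : Set ℤ[X] :=
  {u | u ∈ realWeil q k ∧ ∀ j ≤ k, ((p : ℤ) ^ ex a lam j) ∣ u.coeff (k - j)}

theorem finite_strat (hq : q ≠ 0) (k : ℕ) : (strat q p a lam k).Finite :=
  (finite_realWeil hq).subset fun _ h => h.1

theorem exists_sc_strat {k : ℕ} {u : ℤ[X]} (hu : u ∈ strat q p a lam k) :
    ∃ B, sc (dd p a lam k) B = u := by
  refine exists_sc fun i => ?_
  unfold dd
  rcases le_or_gt i k with h | h
  · have := hu.2 (k - i) (Nat.sub_le _ _)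
    rwa [show k - (k - i) = i by omega] at this
  · rw [coeff_eq_zero_of_natDegree_lt (by rw [hu.1.2.1]; exact h)]
    exact dvd_zero _

theorem card_strat_le (hp : p.Prime) (hq : 0 < q) (k : ℕ) :
    ((strat q p a lam k).ncard : ℝ) ≤ 15 ^ k * ∏ j ∈ Finset.range k, max (sg q p a lam (k - j)) 1 := by
  set d := dd p a lam k with hd
  have hd0 : ∀ i, d i ≠ 0 := dd_ne hp
  obtain ⟨𝒯, hc, hsub, htop⟩ := cover_sc hq k hd0 dd_top
  have h1 : ((strat q p a lam k).ncard : ℝ) ≤ ((𝒯 0).card : ℝ) := by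
    have h2 : strat q p a lam k ⊆ sc d '' {B : ℤ[X] | sc d B ∈ realWeil q k} := by
      intro u hu
      obtain ⟨B, hB⟩ := exists_sc_strat hu
      exact ⟨B, by
        change sc d B ∈ realWeil q k
        rw [hd, hB]
        exact hu.1, hB⟩
    have h3 := Set.ncard_le_ncard h2 ((finite_sc hd0 hq.ne').image _)
    rw [Set.ncard_image_of_injective _ (sc_injective hd0)] at h3
    have h4 := Set.ncard_le_ncard hsub (Finset.finite_toSet _)
    rw [Set.ncard_coe_finset] at h4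
    exact_mod_cast h3.trans h4
  refine h1.trans ?_
  have h2 := hc.card k le_rfl
  rw [htop, Finset.card_singleton, mul_one] at h2
  have h3 : ((𝒯 0).card : ℝ) = ∏ j ∈ Finset.range k, (len' q k d j : ℝ) := by
    rw [h2]
    push_cast
    rfl
  rw [h3]
  have h4 : ∀ j ∈ Finset.range k, (len' q k d j : ℝ) ≤
      5 * (k : ℝ) * max (sg q p a lam (k - j)) 1 / (k - j : ℕ) := by
    intro j hj
    have hj' := Finset.mem_range.1 hj
    have h0 : (0 : ℝ) < (k - j : ℕ) := by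
      have : 0 < k - j := by omega
      exact_mod_cast this
    have h5 : ((k - j : ℕ) : ℝ) ≤ k := by exact_mod_cast Nat.sub_le k j
    have hdj : 0 < |((d j : ℤ) : ℝ)| := abs_pos.2 (by exact_mod_cast hd0 j)
    have h6 : 4 * (k : ℝ) * Real.sqrt q ^ (k - j) / ((k - j : ℕ) * |((d j : ℤ) : ℝ)|) =
        4 * k * sg q p a lam (k - j) / (k - j : ℕ) := by
      unfold sg
      rw [hd, abs_dd]
      field_simp
    have h7 := Nat.floor_le (show (0 : ℝ) ≤
      4 * (k : ℝ) * Real.sqrt q ^ (k - j) / ((k - j : ℕ) * |((d j : ℤ) : ℝ)|) by positivity)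
    unfold len'
    push_cast
    rw [h6] at h7 ⊢
    have h8 : 4 * (k : ℝ) * sg q p a lam (k - j) / (k - j : ℕ) ≤
        4 * k * max (sg q p a lam (k - j)) 1 / (k - j : ℕ) := by
      refine div_le_div_of_nonneg_right ?_ h0.le
      exact mul_le_mul_of_nonneg_left (le_max_left _ _) (by positivity)
    have h9 : (1 : ℝ) ≤ k * max (sg q p a lam (k - j)) 1 / (k - j : ℕ) := by
      rw [le_div_iff₀ h0, one_mul]
      have := le_max_right (sg q p a lam (k - j)) 1
      nlinarith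
    have h10 : 5 * (k : ℝ) * max (sg q p a lam (k - j)) 1 / (k - j : ℕ) =
        4 * k * max (sg q p a lam (k - j)) 1 / (k - j : ℕ) +
          k * max (sg q p a lam (k - j)) 1 / (k - j : ℕ) := by ring
    rw [h10]
    linarith
  refine (Finset.prod_le_prod (fun j _ => Nat.cast_nonneg _) h4).trans ?_
  rw [Finset.prod_div_distrib, Finset.prod_mul_distrib, Finset.prod_const, Finset.card_range,
    prod_sub]
  have h5 : (0 : ℝ) < (k.factorial : ℝ) := by exact_mod_cast k.factorial_pos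
  rw [div_le_iff₀ h5, mul_pow]
  have h6 := pow_le_factorial k
  have h7 : (0 : ℝ) ≤ ∏ j ∈ Finset.range k, max (sg q p a lam (k - j)) 1 :=
    Finset.prod_nonneg fun j _ => zero_le_one.trans (le_max_right _ _)
  calc 5 ^ k * (k : ℝ) ^ k * ∏ j ∈ Finset.range k, max (sg q p a lam (k - j)) 1 ≤
      5 ^ k * (3 ^ k * (k.factorial : ℝ)) * ∏ j ∈ Finset.range k, max (sg q p a lam (k - j)) 1 :=
        mul_le_mul_of_nonneg_right (mul_le_mul_of_nonneg_left h6 (by positivity)) h7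
    _ = (5 * 3) ^ k * (∏ j ∈ Finset.range k, max (sg q p a lam (k - j)) 1) *
        (k.factorial : ℝ) := by
        rw [mul_pow]
        ring
    _ = _ := by norm_num

open Classical in
theorem card_dvd' {M : ℕ → ℕ} {n : ℕ} {𝒯 : ℕ → Finset ℤ[X]} (hc : Chain M n 𝒯) {k : ℕ}
    (hq : q ≠ 0) (hk : k ≤ n) {d : ℕ → ℤ} (hd : ∀ i, d i ≠ 0) :
    ((𝒯 0).filter (fun B => ∃ u ∈ strat q p a lam k, u ∣ sc d B)).card ≤
      (strat q p a lam k).ncard * (𝒯 k).card := by
  have hfin := finite_strat (p := p) (a := a) (lam := lam) hq k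
  have hex : ∀ B : ℤ[X], ∃ u : ℤ[X], (∃ u ∈ strat q p a lam k, u ∣ sc d B) →
      u ∈ strat q p a lam k ∧ u ∣ sc d B := by
    intro B
    by_cases h1 : ∃ u ∈ strat q p a lam k, u ∣ sc d B
    · obtain ⟨u, h2, h3⟩ := h1
      exact ⟨u, fun _ => ⟨h2, h3⟩⟩
    · exact ⟨0, fun h2 => absurd h2 h1⟩
  choose u hu using hex
  rw [Set.ncard_eq_toFinset_card _ hfin, ← Finset.card_product]
  refine Finset.card_le_card_of_injOn (fun B => (u B, divX^[k] B)) ?_ ?_
  · intro B hB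
    obtain ⟨h1, h2⟩ := Finset.mem_filter.1 hB
    refine Finset.mem_coe.2 (Finset.mem_product.2 ⟨?_, ?_⟩)
    · exact (Set.Finite.mem_toFinset hfin).2 (hu B h2).1
    · have := hc.iterate k 0 (by omega) B h1
      simpa using this
  · intro B hB B' hB' heq
    obtain ⟨h1, h2⟩ := Finset.mem_filter.1 (Finset.mem_coe.1 hB)
    obtain ⟨h3, h4⟩ := Finset.mem_filter.1 (Finset.mem_coe.1 hB')
    obtain ⟨h5, h6⟩ := Prod.mk.inj heq
    have h7 := hu B h2
    refine sc_injective hd (eq_of_divX h7.1.1.1 h7.1.1.2.1 h7.2 ?_ ?_)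
    · rw [h5]
      exact (hu B' h4).2
    · rw [iterate_sc, iterate_sc, h6]

open Classical in
/-- **The reducible members.** -/
theorem red_bound' {M : ℕ → ℕ} {n : ℕ} {𝒯 : ℕ → Finset ℤ[X]} (hc : Chain M n 𝒯) (hp : p.Prime)
    (hq : 0 < q) (hs : Slopes lam) (hg : 0 < g) (hgn : g / 2 ≤ n) {y : ℝ} (hy : 0 ≤ y)
    (hM : ∀ k, 1 ≤ k → k ≤ g / 2 → 15 ^ k * ∏ j ∈ Finset.range k, max (sg q p a lam (k - j)) 1 ≤
      y * ∏ j ∈ Finset.range k, (M j : ℝ)) :
    (((𝒯 0).filter (fun B => sc (dd p a lam g) B ∈ strat q p a lam g ∧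
      ¬ Irreducible ((sc (dd p a lam g) B).map (Int.castRingHom ℚ)))).card : ℝ) ≤
      g * y * ((𝒯 0).card : ℝ) := by
  have : Fact p.Prime := ⟨hp⟩
  set d := dd p a lam g with hd
  have hd0 : ∀ i, d i ≠ 0 := dd_ne hp
  have key : ∀ k ∈ Finset.Icc 1 (g / 2), (((strat q p a lam k).ncard * (𝒯 k).card : ℕ) : ℝ) ≤
      y * ((𝒯 0).card : ℝ) := by
    intro k hk
    obtain ⟨hk1, hk2⟩ := Finset.mem_Icc.1 hk
    have h1 := card_strat_le (p := p) (a := a) (lam := lam) hp hq k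
    have h2 : ((𝒯 0).card : ℝ) = (∏ j ∈ Finset.range k, (M j : ℝ)) * ((𝒯 k).card : ℝ) := by
      rw [hc.card k (hk2.trans hgn)]
      push_cast
      rfl
    push_cast
    rw [h2]
    calc ((strat q p a lam k).ncard : ℝ) * ((𝒯 k).card : ℝ) ≤
        (15 ^ k * ∏ j ∈ Finset.range k, max (sg q p a lam (k - j)) 1) * ((𝒯 k).card : ℝ) :=
          mul_le_mul_of_nonneg_right h1 (Nat.cast_nonneg _)
      _ ≤ (y * ∏ j ∈ Finset.range k, (M j : ℝ)) * ((𝒯 k).card : ℝ) :=
          mul_le_mul_of_nonneg_right (hM k hk1 hk2) (Nat.cast_nonneg _)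
      _ = _ := by ring
  have hsub : (𝒯 0).filter (fun B => sc d B ∈ strat q p a lam g ∧
      ¬ Irreducible ((sc d B).map (Int.castRingHom ℚ))) ⊆
      (Finset.Icc 1 (g / 2)).biUnion fun k =>
        (𝒯 0).filter (fun B => ∃ u ∈ strat q p a lam k, u ∣ sc d B) := by
    intro B hB
    obtain ⟨h1, h2, h3⟩ := Finset.mem_filter.1 hB
    obtain ⟨k, hk, u, hu, hud⟩ := exists_factor hq.ne' h2.1 hg h3
    refine Finset.mem_biUnion.2 ⟨k, hk, Finset.mem_filter.2 ⟨h1, u, ⟨hu, ?_⟩, hud⟩⟩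
    exact factor_dvd hs h2.1.1 h2.1.2.1 hu.1 hu.2.1 hud h2.2
  have h1 : ((𝒯 0).filter (fun B => sc d B ∈ strat q p a lam g ∧
      ¬ Irreducible ((sc d B).map (Int.castRingHom ℚ)))).card ≤
      ∑ k ∈ Finset.Icc 1 (g / 2), (strat q p a lam k).ncard * (𝒯 k).card := by
    refine (Finset.card_le_card hsub).trans (Finset.card_biUnion_le.trans ?_)
    refine Finset.sum_le_sum fun k hk => ?_
    have hk2 := (Finset.mem_Icc.1 hk).2
    exact card_dvd' hc hq.ne' (hk2.trans hgn) hd0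
  calc (((𝒯 0).filter (fun B => sc d B ∈ strat q p a lam g ∧
      ¬ Irreducible ((sc d B).map (Int.castRingHom ℚ)))).card : ℝ) ≤
      ((∑ k ∈ Finset.Icc 1 (g / 2), (strat q p a lam k).ncard * (𝒯 k).card : ℕ) : ℝ) := by
        exact_mod_cast h1
    _ = ∑ k ∈ Finset.Icc 1 (g / 2), (((strat q p a lam k).ncard * (𝒯 k).card : ℕ) : ℝ) := by
        push_cast
        rfl
    _ ≤ ∑ k ∈ Finset.Icc 1 (g / 2), y * ((𝒯 0).card : ℝ) := Finset.sum_le_sum key
    _ = ((g / 2 : ℕ) : ℝ) * (y * ((𝒯 0).card : ℝ)) := by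
        rw [Finset.sum_const, Nat.card_Icc, nsmul_eq_mul, Nat.add_sub_cancel]
    _ ≤ (g : ℝ) * (y * ((𝒯 0).card : ℝ)) := by
        refine mul_le_mul_of_nonneg_right ?_ (by positivity)
        exact_mod_cast Nat.div_le_self g 2
    _ = _ := by ring

/-- **The comparison of the numbers.** -/
theorem ratio {μ δ : ℝ} (hμ : 0 < μ) (hμ1 : μ ≤ 1 / 2) (hδ1 : δ ≤ μ ^ 2 / 16) :
    ∀ᶠ g : ℕ in atTop, ∀ p a q : ℕ, p.Prime → 0 < a → q = p ^ a → ∀ lam : ℕ → ℝ, Slopes lam →
    ht lam g ≤ (1 / 2 - μ) * g → ∀ M : ℕ → ℕ,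
    (∀ j < g, sg q p a lam (g - j) ≤ (q : ℝ) ^ (δ * g) * M j) →
    ∀ k, 1 ≤ k → k ≤ g / 2 → 15 ^ k * ∏ j ∈ Finset.range k, max (sg q p a lam (k - j)) 1 ≤
      (q : ℝ) ^ (-(μ * g / 2)) * ∏ j ∈ Finset.range k, (M j : ℝ) := by
  have hδμ : δ ≤ μ / 32 := by nlinarith
  obtain ⟨n₁, hn₁⟩ := exists_nat_ge (5 / (μ / 16))
  obtain ⟨n₂, hn₂⟩ := exists_nat_ge ((5 / 2 + μ) / (μ ^ 2 / 16))
  filter_upwards [eventually_ge_atTop n₁, eventually_ge_atTop n₂] with g hg1 hg2
  intro p a q hp ha hq lam hs hht M hM k hk1 hk2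
  have hq0 : (0 : ℝ) < q := by exact_mod_cast q_pos hp ha hq
  have hq2 : (2 : ℝ) ≤ q := by exact_mod_cast q_ge hp ha hq
  have hq1 : (1 : ℝ) ≤ q := by linarith
  have hgR0 : (0 : ℝ) ≤ g := Nat.cast_nonneg g
  have hb1 : 5 ≤ μ / 16 * g := by
    have h1 : (n₁ : ℝ) ≤ g := by exact_mod_cast hg1
    have h2 := hn₁.trans h1
    rw [div_le_iff₀ (by positivity)] at h2
    linarith
  have hb2 : 5 / 2 + μ ≤ μ ^ 2 / 16 * g := by
    have h1 : (n₂ : ℝ) ≤ g := by exact_mod_cast hg2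
    have h2 := hn₂.trans h1
    rw [div_le_iff₀ (by positivity)] at h2
    linarith
  have hkg : 2 * k ≤ g := by omega
  have hkgR : 2 * (k : ℝ) ≤ g := by exact_mod_cast hkg
  let E : ℕ → ℝ := fun j => δ * g + 5 + P lam (k - j) - P lam (g - j)
  have hterm : ∀ j ∈ Finset.range k, 15 * max (sg q p a lam (k - j)) 1 ≤ (q : ℝ) ^ E j * M j := by
    intro j hj
    have hj' := Finset.mem_range.1 hj
    have h1 : max (sg q p a lam (k - j)) 1 ≤ (q : ℝ) ^ P lam (k - j) :=
      max_le (sg_le hp ha hq hs _) (Real.one_le_rpow hq1 (P_nonneg hs _))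
    have h2 : (15 : ℝ) ≤ (q : ℝ) ^ (4 : ℝ) := by
      have h3 : (2 : ℝ) ^ (4 : ℝ) ≤ (q : ℝ) ^ (4 : ℝ) :=
        Real.rpow_le_rpow (by norm_num) hq2 (by norm_num)
      have h4 : (2 : ℝ) ^ (4 : ℝ) = 16 := by
        rw [show (4 : ℝ) = ((4 : ℕ) : ℝ) by norm_num, Real.rpow_natCast]
        norm_num
      linarith
    have h3 : (q : ℝ) ^ (P lam (g - j) - 1) ≤ (q : ℝ) ^ (δ * g) * M j :=
      (sg_ge hp ha hq hs _).trans (hM j (by omega))
    calc 15 * max (sg q p a lam (k - j)) 1 ≤ (q : ℝ) ^ (4 : ℝ) * (q : ℝ) ^ P lam (k - j) :=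
          mul_le_mul h2 h1 (by positivity) (by positivity)
      _ = (q : ℝ) ^ (5 + P lam (k - j) - P lam (g - j)) * (q : ℝ) ^ (P lam (g - j) - 1) := by
          rw [← Real.rpow_add hq0, ← Real.rpow_add hq0]
          congr 1
          ring
      _ ≤ (q : ℝ) ^ (5 + P lam (k - j) - P lam (g - j)) * ((q : ℝ) ^ (δ * g) * M j) :=
          mul_le_mul_of_nonneg_left h3 (by positivity)
      _ = _ := by
          rw [← mul_assoc, ← Real.rpow_add hq0]
          congr 2
          simp only [E]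
          ring
  have hprod : 15 ^ k * ∏ j ∈ Finset.range k, max (sg q p a lam (k - j)) 1 ≤
      (q : ℝ) ^ (∑ j ∈ Finset.range k, E j) * ∏ j ∈ Finset.range k, (M j : ℝ) := by
    have h1 : 15 ^ k * ∏ j ∈ Finset.range k, max (sg q p a lam (k - j)) 1 =
        ∏ j ∈ Finset.range k, (15 * max (sg q p a lam (k - j)) 1) := by
      rw [Finset.prod_mul_distrib, Finset.prod_const, Finset.card_range]
    rw [h1, Real.rpow_sum_of_pos hq0, ← Finset.prod_mul_distrib]
    exact Finset.prod_le_prod (fun j _ => by positivity) hterm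
  refine hprod.trans (mul_le_mul_of_nonneg_right ?_ (Finset.prod_nonneg fun j _ =>
    Nat.cast_nonneg _))
  refine Real.rpow_le_rpow_of_exponent_le hq1 ?_
  -- the exponents
  have hmono : ∀ j < k, P lam (k - j) ≤ P lam (g - j) := by
    intro j hj
    have h1 := P_mono hs (k - j) (g - k)
    rwa [show k - j + (g - k) = g - j by omega] at h1
  have hgain : ∀ j < k, P lam (k - j) - P lam (g - j) ≤ ((k : ℝ) - j) / 2 - μ * (g - j) := by
    intro j hj
    have h1 := P_le hs (k - j)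
    have h2 := P_ge hs hht (Nat.sub_le g j)
    rw [Nat.cast_sub hj.le] at h1
    rw [Nat.cast_sub (by omega)] at h2
    linarith
  set i₀ : ℕ := ⌊μ * g / 4⌋₊ with hi₀
  have hi1 : (i₀ : ℝ) ≤ μ * g / 4 := Nat.floor_le (by positivity)
  have hi2 : μ * g / 4 < i₀ + 1 := Nat.lt_floor_add_one _
  rcases le_or_gt k i₀ with hki | hki
  · have hkiR : (k : ℝ) ≤ μ * g / 4 := le_trans (by exact_mod_cast hki) hi1
    have h1 : ∀ j ∈ Finset.range k, E j ≤ -(μ * g / 2) := by
      intro j hj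
      have hj' := Finset.mem_range.1 hj
      have h2 := hgain j hj'
      have h3 : (j : ℝ) ≤ k := by exact_mod_cast hj'.le
      have h4 : (0 : ℝ) ≤ j := Nat.cast_nonneg j
      simp only [E]
      have h5 : μ * ((g : ℝ) - j) ≥ μ * g - μ * (μ * g / 4) := by
        have : μ * (j : ℝ) ≤ μ * (μ * g / 4) := mul_le_mul_of_nonneg_left (h3.trans hkiR) hμ.le
        linarith
      have h6 : μ * (μ * g / 4) ≤ μ * g / 8 := by
        have : 0 ≤ μ * (g : ℝ) := by positivity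
        nlinarith
      have h7 : δ * g ≤ μ / 32 * g := mul_le_mul_of_nonneg_right hδμ hgR0
      nlinarith
    calc ∑ j ∈ Finset.range k, E j ≤ ∑ _j ∈ Finset.range k, -(μ * g / 2) := Finset.sum_le_sum h1
      _ = k * (-(μ * g / 2)) := by rw [Finset.sum_const, Finset.card_range, nsmul_eq_mul]
      _ ≤ 1 * (-(μ * g / 2)) := by
          have h2 : (1 : ℝ) ≤ k := by exact_mod_cast hk1
          have h3 : 0 ≤ μ * (g : ℝ) := by positivity
          nlinarith
      _ = _ := one_mul _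
  · have h1 : ∀ j ∈ Finset.range k, E j ≤ (δ * g + 5) -
        (if k - i₀ ≤ j then 3 * μ * g / 8 else 0) := by
      intro j hj
      have hj' := Finset.mem_range.1 hj
      have h2 := hgain j hj'
      have h3 := hmono j hj'
      have h4 : (j : ℝ) ≤ k := by exact_mod_cast hj'.le
      simp only [E]
      split_ifs with h5
      · have h6 : (k : ℝ) - j ≤ i₀ := by
          have : k ≤ j + i₀ := by omega
          have h7 : (k : ℝ) ≤ j + i₀ := by exact_mod_cast this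
          linarith
        have h7 : μ * ((g : ℝ) - j) ≥ μ * (g / 2) := mul_le_mul_of_nonneg_left (by linarith) hμ.le
        nlinarith
      · linarith
    have h2 : ∑ j ∈ Finset.range k, (if k - i₀ ≤ j then 3 * μ * (g : ℝ) / 8 else 0) ≥
        i₀ * (3 * μ * g / 8) := by
      have h3 : ∑ j ∈ Finset.Ico (k - i₀) k, (if k - i₀ ≤ j then 3 * μ * (g : ℝ) / 8 else 0) =
          i₀ * (3 * μ * g / 8) := by
        rw [Finset.sum_congr rfl (g := fun _ => 3 * μ * (g : ℝ) / 8) (fun j hj => if_pos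
          (Finset.mem_Ico.1 hj).1), Finset.sum_const, Nat.card_Ico, nsmul_eq_mul]
        congr 2
        omega
      rw [← h3]
      refine Finset.sum_le_sum_of_subset_of_nonneg ?_ ?_
      · intro j hj
        exact Finset.mem_range.2 (Finset.mem_Ico.1 hj).2
      · intro j _ _
        split_ifs <;> positivity
    have h3 : ∑ j ∈ Finset.range k, E j ≤ k * (δ * g + 5) - i₀ * (3 * μ * g / 8) := by
      refine (Finset.sum_le_sum h1).trans ?_
      rw [Finset.sum_sub_distrib, Finset.sum_const, Finset.card_range, nsmul_eq_mul]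
      linarith
    refine h3.trans ?_
    have h4 : (k : ℝ) * (δ * g + 5) ≤ g / 2 * (μ ^ 2 / 16 * g + 5) := by
      have h5 : δ * (g : ℝ) + 5 ≤ μ ^ 2 / 16 * g + 5 := by
        have := mul_le_mul_of_nonneg_right hδ1 hgR0
        linarith
      have h6 : (k : ℝ) ≤ g / 2 := by linarith
      calc (k : ℝ) * (δ * g + 5) ≤ k * (μ ^ 2 / 16 * g + 5) :=
            mul_le_mul_of_nonneg_left h5 (Nat.cast_nonneg k)
        _ ≤ _ := mul_le_mul_of_nonneg_right h6 (by positivity)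
    have h5 : (i₀ : ℝ) * (3 * μ * g / 8) ≥ (μ * g / 4 - 1) * (3 * μ * g / 8) :=
      mul_le_mul_of_nonneg_right (by linarith) (by positivity)
    have h6 : (5 / 2 + μ) * g ≤ μ ^ 2 / 16 * g * g := mul_le_mul_of_nonneg_right hb2 hgR0
    have h7 : 0 ≤ μ * (g : ℝ) := by positivity
    nlinarith

end Pool.Agent.J4H9.NSize
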