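import Mathlib
import Pool.Agent.J4H9.Cone

/-!
# Concentration in a simplex
-/

set_option autoImplicit false

namespace Pool.Agent.J4H9.NVol

open MeasureTheory Set Matrix Filter Pool.Agent.J4H9.Trig Pool.Agent.J4H9.SimplexVol
  Pool.Agent.J4H9.Cone

/-- The bound of Chernoff for a part of a simplex. -/
theorem chernoff {n : ℕ} {R : ℝ} {c : Fin n → ℝ} {s l θ : ℝ} (hs0 : 0 ≤ s) (hl0 : 0 ≤ l)
    (hs : ∀ i, l * c i < s) :
    volume (spx n R ∩ {x | θ ≤ ∑ i, c i * x i}) ≤
      ENNReal.ofReal (Real.exp (s * R - l * θ) * ∏ i, (s - l * c i)⁻¹) := by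
  let F : Fin n → ℝ → ℝ := fun i => (Ioi (0 : ℝ)).indicator fun x => Real.exp (-(s - l * c i) * x)
  have hF0 : ∀ i x, 0 ≤ F i x := by
    intro i x
    simp only [F, indicator]
    split_ifs <;> positivity
  have hFint : ∀ i, Integrable (F i) := by
    intro i
    have h1 := integrableOn_exp_mul_Ioi (a := -(s - l * c i)) (by linarith [hs i]) 0
    exact (integrable_indicator_iff measurableSet_Ioi).2 h1
  have hFval : ∀ i, ∫ x, F i x = (s - l * c i)⁻¹ := by
    intro i
    have h2 : 0 < s - l * c i := by linarith [hs i]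
    simp only [F]
    rw [integral_indicator measurableSet_Ioi, integral_exp_mul_Ioi (by linarith) 0, mul_zero,
      Real.exp_zero]
    field_simp
  have hprod : Integrable (fun x : Fin n → ℝ => ∏ i, F i (x i)) := Integrable.fintype_prod hFint
  have hval : ∫ x : Fin n → ℝ, ∏ i, F i (x i) = ∏ i, (s - l * c i)⁻¹ := by
    rw [integral_fintype_prod_volume_eq_prod]
    exact Finset.prod_congr rfl fun i _ => hFval i
  have hint : Integrable (fun x : Fin n → ℝ => Real.exp (s * R - l * θ) * ∏ i, F i (x i)) :=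
    hprod.const_mul _
  have h1 : volume (spx n R ∩ {x | θ ≤ ∑ i, c i * x i}) ≤
      ∫⁻ x : Fin n → ℝ, ENNReal.ofReal (Real.exp (s * R - l * θ) * ∏ i, F i (x i)) := by
    refine meas_le_lintegral₀ hint.aestronglyMeasurable.aemeasurable.ennreal_ofReal ?_
    rintro x ⟨⟨hx1, hx2⟩, hx3⟩
    have hx3 : θ ≤ ∑ i, c i * x i := hx3
    rw [← ENNReal.ofReal_one]
    refine ENNReal.ofReal_le_ofReal ?_
    have h2 : ∀ i, F i (x i) = Real.exp (-(s - l * c i) * x i) := by
      intro i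
      simp only [F]
      exact indicator_of_mem (hx1 i) _
    rw [Finset.prod_congr rfl fun i _ => h2 i, ← Real.exp_sum, ← Real.exp_add]
    refine Real.one_le_exp ?_
    have h3 : ∑ i, -(s - l * c i) * x i = -(s * ∑ i, x i) + l * ∑ i, c i * x i := by
      rw [Finset.mul_sum, Finset.mul_sum, ← Finset.sum_neg_distrib, ← Finset.sum_add_distrib]
      refine Finset.sum_congr rfl fun i _ => ?_
      ring
    rw [h3]
    have h4 := mul_le_mul_of_nonneg_left hx2.le hs0
    have h5 := mul_le_mul_of_nonneg_left hx3 hl0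
    linarith
  refine h1.trans (le_of_eq ?_)
  rw [← ofReal_integral_eq_lintegral_ofReal hint (Eventually.of_forall fun x => ?_),
    integral_const_mul, hval]
  exact mul_nonneg (Real.exp_pos _).le (Finset.prod_nonneg fun i _ => hF0 i _)

theorem factorial_exp (n : ℕ) (hn : 1 ≤ n) :
    (n.factorial : ℝ) * Real.exp 1 ^ n ≤ Real.exp 1 * (n : ℝ) ^ (n + 1) := by
  induction n, hn using Nat.le_induction with
  | base => simp
  | succ n hn ih =>
    have hnR : (1 : ℝ) ≤ n := by exact_mod_cast hn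
    have he : (0 : ℝ) < Real.exp 1 := Real.exp_pos _
    have h1 : Real.exp 1 * (n : ℝ) ^ (n + 1) ≤ ((n : ℝ) + 1) ^ (n + 1) := by
      have h2 := Real.add_one_le_exp (-(1 / ((n : ℝ) + 1)))
      have h3 : -(1 / ((n : ℝ) + 1)) + 1 = n / (n + 1) := by
        field_simp
        ring
      rw [h3] at h2
      have h4 : ((n : ℝ) / (n + 1)) ^ (n + 1) ≤ Real.exp (-1) := by
        calc ((n : ℝ) / (n + 1)) ^ (n + 1) ≤ Real.exp (-(1 / ((n : ℝ) + 1))) ^ (n + 1) :=
              pow_le_pow_left₀ (by positivity) h2 _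
          _ = Real.exp (-1) := by
              rw [← Real.exp_nat_mul]
              congr 1
              push_cast
              field_simp
      rw [div_pow, div_le_iff₀ (by positivity), Real.exp_neg] at h4
      calc Real.exp 1 * (n : ℝ) ^ (n + 1) ≤ Real.exp 1 * ((Real.exp 1)⁻¹ * ((n : ℝ) + 1) ^ (n + 1)) :=
            mul_le_mul_of_nonneg_left h4 he.le
        _ = _ := by field_simp
    rw [Nat.factorial_succ]
    push_cast
    calc ((n : ℝ) + 1) * (n.factorial : ℝ) * Real.exp 1 ^ (n + 1) =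
        ((n : ℝ) + 1) * Real.exp 1 * ((n.factorial : ℝ) * Real.exp 1 ^ n) := by ring
      _ ≤ ((n : ℝ) + 1) * Real.exp 1 * (Real.exp 1 * (n : ℝ) ^ (n + 1)) :=
          mul_le_mul_of_nonneg_left ih (by positivity)
      _ ≤ ((n : ℝ) + 1) * Real.exp 1 * ((n : ℝ) + 1) ^ (n + 1) :=
          mul_le_mul_of_nonneg_left h1 (by positivity)
      _ = _ := by ring

theorem inv_le_exp {x : ℝ} (hx : x ≤ 1 / 2) : (1 - x)⁻¹ ≤ Real.exp (x + 2 * x ^ 2) := by
  rw [inv_le_iff_one_le_mul₀ (by linarith)]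
  have h1 := Real.add_one_le_exp (x + 2 * x ^ 2)
  have h2 : (0 : ℝ) < 1 - x := by linarith
  calc (1 : ℝ) ≤ (x + 2 * x ^ 2 + 1) * (1 - x) := by nlinarith [sq_nonneg x]
    _ ≤ Real.exp (x + 2 * x ^ 2) * (1 - x) := mul_le_mul_of_nonneg_right h1 h2.le

/-- **The bound for the tail.** -/
theorem tail {n : ℕ} (hn : 1 ≤ n) {R : ℝ} (hR : 0 < R) {c : Fin n → ℝ} (hc : ∀ i, |c i| ≤ 1)
    (hc0 : ∑ i, c i = 0) {θ : ℝ} (hθ : 0 ≤ θ) (hθ2 : θ ≤ 2) :
    volume (spx n R ∩ {x | θ * R ≤ ∑ i, c i * x i}) ≤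
      ENNReal.ofReal (Real.exp 1 * n * Real.exp (-(n * θ ^ 2 / 8)) * (R ^ n / n.factorial)) := by
  have hnR : (1 : ℝ) ≤ n := by exact_mod_cast hn
  set s : ℝ := n / R with hs
  have hs0 : 0 < s := by positivity
  set η : ℝ := θ / 4 with hη
  have hη0 : 0 ≤ η := by positivity
  have hη1 : η ≤ 1 / 2 := by rw [hη]; linarith
  have hci : ∀ i, η * c i ≤ 1 / 2 := by
    intro i
    have h1 := (abs_le.1 (hc i)).2
    nlinarith
  have h1 := chernoff (n := n) (R := R) (c := c) (s := s) (l := η * s) (θ := θ * R) hs0.le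
    (by positivity) (fun i => by
      have := hci i
      nlinarith)
  refine h1.trans (ENNReal.ofReal_le_ofReal ?_)
  have h2 : ∏ i, (s - η * s * c i)⁻¹ ≤ (R / n) ^ n * Real.exp (2 * η ^ 2 * n) := by
    calc ∏ i, (s - η * s * c i)⁻¹ ≤ ∏ i : Fin n, (R / n * Real.exp (η * c i + 2 * (η * c i) ^ 2)) := by
          refine Finset.prod_le_prod (fun i _ => ?_) fun i _ => ?_
          · have := hci i
            have h3 : 0 < s - η * s * c i := by nlinarith
            positivity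
          · have h3 : s - η * s * c i = s * (1 - η * c i) := by ring
            have h4 : s⁻¹ = R / n := by
              rw [hs, inv_div]
            rw [h3, mul_inv, h4]
            exact mul_le_mul_of_nonneg_left (inv_le_exp (hci i)) (by positivity)
      _ = (R / n) ^ n * Real.exp (∑ i, (η * c i + 2 * (η * c i) ^ 2)) := by
          rw [Finset.prod_mul_distrib, Finset.prod_const, Finset.card_univ, Fintype.card_fin,
            Real.exp_sum]
      _ ≤ _ := by
          refine mul_le_mul_of_nonneg_left (Real.exp_le_exp.2 ?_) (by positivity)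
          rw [Finset.sum_add_distrib, ← Finset.mul_sum, hc0, mul_zero, zero_add]
          calc ∑ i, 2 * (η * c i) ^ 2 ≤ ∑ _i : Fin n, 2 * η ^ 2 := by
                refine Finset.sum_le_sum fun i _ => ?_
                have h3 : (c i) ^ 2 ≤ 1 := by
                  rw [← sq_abs]
                  have := hc i
                  have := abs_nonneg (c i)
                  nlinarith
                have h4 : 0 ≤ η ^ 2 := sq_nonneg η
                nlinarith
            _ = 2 * η ^ 2 * n := by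
                rw [Finset.sum_const, Finset.card_univ, Fintype.card_fin, nsmul_eq_mul]
                ring
  have h3 : s * R - η * s * (θ * R) = n - η * θ * n := by
    rw [hs]
    field_simp
  rw [h3]
  have h4 : Real.exp (n - η * θ * n) * Real.exp (2 * η ^ 2 * n) =
      Real.exp 1 ^ n * Real.exp (-(n * θ ^ 2 / 8)) := by
    rw [← Real.exp_nat_mul, ← Real.exp_add, ← Real.exp_add]
    congr 1
    rw [hη]
    ring
  have hf : (0 : ℝ) < (n.factorial : ℝ) := by exact_mod_cast n.factorial_pos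
  have h5 : (R / n) ^ n * Real.exp 1 ^ n ≤ Real.exp 1 * n * (R ^ n / n.factorial) := by
    have h6 := factorial_exp n hn
    rw [div_pow, div_mul_eq_mul_div, div_le_iff₀ (by positivity)]
    have h7 : Real.exp 1 * n * (R ^ n / n.factorial) * (n : ℝ) ^ n =
        (R ^ n / n.factorial) * (Real.exp 1 * (n : ℝ) ^ (n + 1)) := by ring
    rw [h7]
    calc R ^ n * Real.exp 1 ^ n = (R ^ n / n.factorial) * ((n.factorial : ℝ) * Real.exp 1 ^ n) := by
          field_simp
      _ ≤ _ := mul_le_mul_of_nonneg_left h6 (by positivity)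
  calc Real.exp (n - η * θ * n) * ∏ i, (s - η * s * c i)⁻¹ ≤
      Real.exp (n - η * θ * n) * ((R / n) ^ n * Real.exp (2 * η ^ 2 * n)) :=
        mul_le_mul_of_nonneg_left h2 (Real.exp_pos _).le
    _ = (R / n) ^ n * (Real.exp (n - η * θ * n) * Real.exp (2 * η ^ 2 * n)) := by ring
    _ = ((R / n) ^ n * Real.exp 1 ^ n) * Real.exp (-(n * θ ^ 2 / 8)) := by
        rw [h4]
        ring
    _ ≤ (Real.exp 1 * n * (R ^ n / n.factorial)) * Real.exp (-(n * θ ^ 2 / 8)) :=
        mul_le_mul_of_nonneg_right h5 (Real.exp_pos _).le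
    _ = _ := by ring

/-- The weights of the coefficient of index `g - j`. -/
noncomputable def cj (g j : ℕ) (i : Fin (g + 1)) : ℝ := wt g i * Real.cos (j * nod g i)

theorem cj_abs (g j : ℕ) (i : Fin (g + 1)) : |cj g j i| ≤ 1 := by
  unfold cj wt
  have h := Real.abs_cos_le_one ((j : ℝ) * nod g i)
  split_ifs
  · rw [abs_mul, abs_of_pos (by norm_num : (0 : ℝ) < 1 / 2)]
    linarith
  · rw [one_mul]
    exact h

theorem cj_sum {g j : ℕ} (hj : 0 < j) (hjg : j < 2 * g) : ∑ i, cj g j i = 0 := by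
  have h1 := sum_nod hj hjg
  rw [← Fin.sum_univ_eq_sum_range (fun i => wt g i * Real.cos (j * nod g i)) (g + 1)] at h1
  exact h1

theorem cos_flip {g j : ℕ} (hg : 0 < g) (hj : j ≤ g) (i : ℕ) :
    Real.cos (j * nod g i) * (-1) ^ i = Real.cos (((g - j : ℕ) : ℝ) * nod g i) := by
  rw [← neg_one_pow_eq hg i, Nat.cast_sub hj, sub_mul, Real.cos_sub]
  have h2 : (g : ℝ) * nod g i = i * Real.pi := by
    have hg' : (g : ℝ) ≠ 0 := by exact_mod_cast hg.ne'
    unfold nod
    field_simp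
  rw [h2, Real.sin_nat_mul_pi]
  ring

/-- The coefficient of index `g - j`. -/
theorem cj_matB {g j : ℕ} (hj : 0 < j) (hjg : j < g) (β : Fin (g + 1) → ℝ) :
    ∑ i, cj g j i * (matB g *ᵥ β) i = g * β ⟨g - j, by omega⟩ := by
  have hg : 0 < g := by omega
  have h1 : ∀ i : Fin (g + 1), cj g j i * (matB g *ᵥ β) i =
      ∑ k : Fin (g + 1), cc (k : ℕ) * β k *
        (wt g i * (Real.cos ((k : ℕ) * nod g i) * Real.cos (((g - j : ℕ) : ℝ) * nod g i))) := by
    intro i
    simp only [mulVec, dotProduct, matB_apply, cj]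
    rw [Finset.mul_sum]
    refine Finset.sum_congr rfl fun k _ => ?_
    rw [← cos_flip hg hjg.le]
    ring
  rw [Finset.sum_congr rfl fun i _ => h1 i, Finset.sum_comm]
  have h2 : ∀ k : Fin (g + 1), ∑ i : Fin (g + 1), cc (k : ℕ) * β k *
        (wt g i * (Real.cos ((k : ℕ) * nod g i) * Real.cos (((g - j : ℕ) : ℝ) * nod g i))) =
      if k = ⟨g - j, by omega⟩ then (g : ℝ) * β ⟨g - j, by omega⟩ else 0 := by
    intro k
    rw [← Finset.mul_sum, Fin.sum_univ_eq_sum_range (fun i => wt g i *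
      (Real.cos ((k : ℕ) * nod g i) * Real.cos (((g - j : ℕ) : ℝ) * nod g i))) (g + 1),
      orth_nod hg (Nat.lt_succ_iff.1 k.2) (Nat.sub_le g j)]
    by_cases hk : k = ⟨g - j, by omega⟩
    · subst hk
      have h3 : cc (g - j) = 2 := if_neg (by omega)
      have h4 : ¬ (g - j = 0 ∨ g - j = g) := by omega
      simp only [if_true, h3]
      rw [if_neg h4]
      ring
    · have h3 : (k : ℕ) ≠ g - j := fun h => hk (Fin.ext h)
      rw [if_neg h3, if_neg hk, mul_zero]
  rw [Finset.sum_congr rfl fun k _ => h2 k, Finset.sum_ite_eq', if_pos (Finset.mem_univ _)]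

/-- A part of the region. -/
theorem vol_part {g : ℕ} (hg : 0 < g) {t : ℝ} (ht0 : 0 ≤ t) (ht : ((g : ℝ) + 1) * t < 2 * g)
    {c : Fin (g + 1) → ℝ} (hc : ∀ i, |c i| ≤ 1) (hc0 : ∑ i, c i = 0) {τ : ℝ} (hτ : 0 ≤ τ)
    (hτ1 : τ ≤ 1) :
    volume (reg g t ∩ {β | g * τ ≤ ∑ i, c i * (matB g *ᵥ β) i}) ≤
      ENNReal.ofReal (Real.exp 1 * ((g + 1 : ℕ) : ℝ) * Real.exp (-(((g + 1 : ℕ) : ℝ) * τ ^ 2 / 32))) *
        volume (reg g t) := by
  have hR : 0 < 2 * (g : ℝ) - (g + 1) * t := by linarith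
  set R : ℝ := 2 * (g : ℝ) - (g + 1) * t with hRdef
  have h1 : reg g t ∩ {β | g * τ ≤ ∑ i, c i * (matB g *ᵥ β) i} ⊆
      toLin' (matB g) ⁻¹' ((fun z : Fin (g + 1) → ℝ => z + fun _ => -t) ⁻¹'
        (spx (g + 1) R ∩ {x | τ / 2 * R ≤ ∑ i, c i * x i})) := by
    rintro β ⟨⟨h1, h2⟩, h3⟩
    have h3 : g * τ ≤ ∑ i, c i * (matB g *ᵥ β) i := h3
    simp only [spx, mem_preimage, mem_inter_iff, mem_ofPred_eq, toLin'_apply, Pi.add_apply,
      Finset.sum_add_distrib, Finset.sum_const, Finset.card_univ, Fintype.card_fin, nsmul_eq_mul,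
      mul_add]
    rw [← Finset.sum_mul, hc0, zero_mul, add_zero]
    push_cast
    refine ⟨⟨fun i => by linarith [h1 i], by rw [hRdef]; linarith⟩, ?_⟩
    refine le_trans ?_ h3
    have h4 : R ≤ 2 * g := by
      rw [hRdef]
      have : 0 ≤ ((g : ℝ) + 1) * t := by positivity
      linarith
    nlinarith
  have hdet : LinearMap.det (toLin' (matB g)) ≠ 0 := by
    rw [LinearMap.det_toLin']
    exact abs_pos.1 (det_pos hg)
  refine (measure_mono h1).trans ?_
  rw [Measure.addHaar_preimage_linearMap volume hdet, measure_preimage_add_right,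
    LinearMap.det_toLin', vol_reg hg ht]
  have h2 := tail (n := g + 1) (by omega) hR hc hc0 (θ := τ / 2) (by positivity) (by linarith)
  have h3 : 0 ≤ |(matB g).det|⁻¹ := by positivity
  calc ENNReal.ofReal |((matB g).det)⁻¹| * volume (spx (g + 1) R ∩ {x | τ / 2 * R ≤ ∑ i, c i * x i}) ≤
      ENNReal.ofReal |((matB g).det)⁻¹| * ENNReal.ofReal (Real.exp 1 * ((g + 1 : ℕ) : ℝ) *
        Real.exp (-(((g + 1 : ℕ) : ℝ) * (τ / 2) ^ 2 / 8)) * (R ^ (g + 1) / (g + 1).factorial)) := by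
        gcongr
    _ = _ := by
        rw [abs_inv, ← ENNReal.ofReal_mul h3, ← ENNReal.ofReal_mul (by positivity)]
        congr 1
        have e : ((g + 1 : ℕ) : ℝ) * (τ / 2) ^ 2 / 8 = ((g + 1 : ℕ) : ℝ) * τ ^ 2 / 32 := by ring
        rw [e]
        ring

/-- The part of the region in which the highest coefficients are small. -/
def regJ (g : ℕ) (t : ℝ) (J : ℕ) (τ : ℝ) : Set (Fin (g + 1) → ℝ) :=
  reg g t ∩ {β | ∀ k : Fin (g + 1), (k : ℕ) < g → g ≤ k + J → |β k| ≤ τ}

/-- **Concentration.** -/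
theorem conc (J : ℕ) {τ : ℝ} (hτ : 0 < τ) (hτ1 : τ ≤ 1) : ∀ᶠ g : ℕ in atTop, ∀ t : ℝ, 0 ≤ t →
    ((g : ℝ) + 1) * t < 2 * g → volume (reg g t) ≤ 2 * volume (regJ g t J τ) := by
  have hlim : Tendsto (fun g : ℕ => (2 * J : ℝ) * (Real.exp 1 * ((g + 1 : ℕ) : ℝ) *
      Real.exp (-(((g + 1 : ℕ) : ℝ) * τ ^ 2 / 32)))) atTop (nhds 0) := by
    have h1 : Tendsto (fun x : ℝ => x ^ (1 : ℝ) * Real.exp (-(τ ^ 2 / 32) * x)) atTop (nhds 0) :=
      tendsto_rpow_mul_exp_neg_mul_atTop_nhds_zero 1 (τ ^ 2 / 32) (by positivity)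
    have h2 : Tendsto (fun g : ℕ => ((g + 1 : ℕ) : ℝ)) atTop atTop :=
      tendsto_natCast_atTop_atTop.comp (tendsto_add_atTop_nat 1)
    have h3 := (h1.comp h2).const_mul ((2 * J : ℝ) * Real.exp 1)
    rw [mul_zero] at h3
    refine h3.congr fun g => ?_
    simp only [Function.comp_apply, Real.rpow_one]
    have e : -(τ ^ 2 / 32) * ((g + 1 : ℕ) : ℝ) = -(((g + 1 : ℕ) : ℝ) * τ ^ 2 / 32) := by ring
    rw [e]
    ring
  filter_upwards [hlim.eventually_le_const (show (0 : ℝ) < 1 / 2 by norm_num),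
    eventually_gt_atTop (J + 1)] with g hg1 hg2 t ht0 ht
  have hg : 0 < g := by omega
  set ε : ℝ := Real.exp 1 * ((g + 1 : ℕ) : ℝ) * Real.exp (-(((g + 1 : ℕ) : ℝ) * τ ^ 2 / 32)) with hε
  have hε0 : 0 ≤ ε := by positivity
  have hsub : reg g t ⊆ regJ g t J τ ∪ ⋃ j ∈ Finset.Icc 1 J,
      ((reg g t ∩ {β | g * τ ≤ ∑ i, cj g j i * (matB g *ᵥ β) i}) ∪
        (reg g t ∩ {β | g * τ ≤ ∑ i, (-cj g j i) * (matB g *ᵥ β) i})) := by
    intro β hβ
    by_cases h : ∀ k : Fin (g + 1), (k : ℕ) < g → g ≤ k + J → |β k| ≤ τ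
    · exact Or.inl ⟨hβ, h⟩
    · right
      push Not at h
      obtain ⟨k, hk1, hk2, hk3⟩ := h
      have hj1 : 0 < g - (k : ℕ) := by omega
      have hj2 : g - (k : ℕ) < g := by omega
      refine mem_iUnion₂.2 ⟨g - k, Finset.mem_Icc.2 ⟨by omega, by omega⟩, ?_⟩
      have h1 := cj_matB hj1 hj2 β
      have h2 : (⟨g - (g - (k : ℕ)), by omega⟩ : Fin (g + 1)) = k := Fin.ext (by
        change g - (g - (k : ℕ)) = k
        omega)
      rw [h2] at h1
      have hgR : (0 : ℝ) < g := by exact_mod_cast hg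
      rcases lt_abs.1 hk3 with h3 | h3
      · left
        refine ⟨hβ, ?_⟩
        change g * τ ≤ _
        rw [h1]
        exact mul_le_mul_of_nonneg_left h3.le hgR.le
      · right
        refine ⟨hβ, ?_⟩
        change g * τ ≤ _
        simp only [neg_mul, Finset.sum_neg_distrib]
        rw [h1, ← mul_neg]
        exact mul_le_mul_of_nonneg_left h3.le hgR.le
  have hfin : volume (reg g t) ≠ ⊤ := by
    rw [vol_reg hg ht]
    exact ENNReal.ofReal_ne_top
  have hbad : volume (⋃ j ∈ Finset.Icc 1 J,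
      ((reg g t ∩ {β | g * τ ≤ ∑ i, cj g j i * (matB g *ᵥ β) i}) ∪
        (reg g t ∩ {β | g * τ ≤ ∑ i, (-cj g j i) * (matB g *ᵥ β) i}))) ≤
      ENNReal.ofReal (1 / 2) * volume (reg g t) := by
    refine (measure_biUnion_finset_le _ _).trans ?_
    have h1 : ∀ j ∈ Finset.Icc 1 J, volume ((reg g t ∩ {β | g * τ ≤ ∑ i, cj g j i * (matB g *ᵥ β) i}) ∪
        (reg g t ∩ {β | g * τ ≤ ∑ i, (-cj g j i) * (matB g *ᵥ β) i})) ≤
        ENNReal.ofReal (2 * ε) * volume (reg g t) := by
      intro j hj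
      obtain ⟨hj1, hj2⟩ := Finset.mem_Icc.1 hj
      have hs := cj_sum (g := g) (j := j) (by omega) (by omega)
      refine (measure_union_le _ _).trans ?_
      have h2 := vol_part hg ht0 ht (cj_abs g j) hs hτ.le hτ1
      have h3 := vol_part hg ht0 ht (c := fun i => -cj g j i) (fun i => by
        rw [abs_neg]
        exact cj_abs g j i) (by rw [Finset.sum_neg_distrib, hs, neg_zero]) hτ.le hτ1
      refine (add_le_add h2 h3).trans (le_of_eq ?_)
      rw [← add_mul, ← ENNReal.ofReal_add hε0 hε0]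
      congr 2
      ring
    refine (Finset.sum_le_sum h1).trans ?_
    rw [Finset.sum_const, Nat.card_Icc, nsmul_eq_mul, ← mul_assoc, Nat.add_sub_cancel]
    refine mul_le_mul_left ?_ _
    rw [← ENNReal.ofReal_natCast, ← ENNReal.ofReal_mul (Nat.cast_nonneg J)]
    refine ENNReal.ofReal_le_ofReal ?_
    calc (J : ℝ) * (2 * ε) = 2 * J * ε := by ring
      _ ≤ 1 / 2 := hg1
  have h1 : volume (reg g t) ≤ volume (regJ g t J τ) + ENNReal.ofReal (1 / 2) * volume (reg g t) :=
    (measure_mono hsub).trans ((measure_union_le _ _).trans (add_le_add le_rfl hbad))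
  have hfin2 : volume (regJ g t J τ) ≠ ⊤ :=
    ne_top_of_le_ne_top hfin (measure_mono inter_subset_left)
  have h2 : (volume (reg g t)).toReal ≤ (volume (regJ g t J τ)).toReal +
      1 / 2 * (volume (reg g t)).toReal := by
    have h3 := ENNReal.toReal_mono (ENNReal.add_ne_top.2 ⟨hfin2, ENNReal.mul_ne_top
      ENNReal.ofReal_ne_top hfin⟩) h1
    rw [ENNReal.toReal_add hfin2 (ENNReal.mul_ne_top ENNReal.ofReal_ne_top hfin),
      ENNReal.toReal_mul, ENNReal.toReal_ofReal (by norm_num)] at h3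
    exact h3
  rw [← ENNReal.toReal_le_toReal hfin (ENNReal.mul_ne_top (by norm_num) hfin2), ENNReal.toReal_mul]
  simp only [ENNReal.toReal_ofNat]
  linarith

end Pool.Agent.J4H9.NVol
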