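import Mathlib
import Pool.Agent.J4H9.NVol
import Pool.Agent.J4H9.NSize

/-!
# The number of Weil polynomials with divisible coefficients, the lower bound
-/

set_option autoImplicit false

namespace Pool.Agent.J4H9.NCone

open MeasureTheory Set Matrix Polynomial Pool.Agent.W521.Frob Pool.Agent.W521.Descent
  Pool.Agent.W521.Lower Pool.Agent.W521.Count Pool.Agent.J4H9.Trig Pool.Agent.J4H9.SimplexVol
  Pool.Agent.J4H9.Basis Pool.Agent.J4H9.Dick Pool.Agent.J4H9.Size Pool.Agent.J4H9.Cone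
  Pool.Agent.J4H9.NVol Pool.Agent.J4H9.NGauss Pool.Agent.J4H9.NSize

/-- The Weil polynomials whose Newton polygon is not below the given one. -/
def W (q p a : ℕ) (lam : ℕ → ℝ) (g : ℕ) : Set ℤ[X] :=
  {f | f ∈ weilPolys q g ∧ ∀ j ≤ g, ((p : ℤ) ^ ex a lam j) ∣ f.coeff (2 * g - j)}

/-- The members such that the coefficients with indices in `E` are not divisible by higher powers. -/
def WE (q p a : ℕ) (lam : ℕ → ℝ) (g : ℕ) (E : Finset ℕ) : Set ℤ[X] :=
  {f | f ∈ W q p a lam g ∧ ∀ j ∈ E, ¬ ((p : ℤ) ^ (ex a lam j + 1)) ∣ f.coeff (2 * g - j)}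

theorem finite_W {q p a g : ℕ} {lam : ℕ → ℝ} (hq : q ≠ 0) : (W q p a lam g).Finite :=
  (finite_weilPolys hq).subset fun _ h => h.1

theorem finite_WE {q p a g : ℕ} {lam : ℕ → ℝ} {E : Finset ℕ} (hq : q ≠ 0) :
    (WE q p a lam g E).Finite :=
  (finite_W hq).subset fun _ h => h.1

theorem recip_coeff' (q : ℕ) {g : ℕ} (a : ℕ → ℤ) {j : ℕ} (hj : 0 < j) (hjg : j ≤ g) :
    (recip q g a).coeff (2 * g - j) = a j := by
  rcases Nat.lt_or_ge j g with h | h
  · unfold recip
    rw [coeff_add, coeff_add, coeff_add, finsetSum_coeff, Finset.sum_eq_single j, coeff_X_pow,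
      if_neg (by omega), coeff_C_mul, coeff_C_mul, coeff_X_pow, if_neg (by omega), coeff_C,
      if_neg (by omega), coeff_add, coeff_X_pow, if_pos rfl, coeff_C_mul, coeff_X_pow,
      if_neg (by omega)]
    · ring
    · intro i hi hij
      have hi' := Finset.mem_Ico.1 hi
      rw [coeff_C_mul, coeff_add, coeff_X_pow, if_neg (by omega), coeff_C_mul, coeff_X_pow,
        if_neg (by omega)]
      ring
    · intro h1
      exact absurd (Finset.mem_Ico.2 ⟨hj, h⟩) h1
  · have h1 : j = g := le_antisymm hjg h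
    subst h1
    have h2 : 2 * j - j = j := by omega
    rw [h2]
    exact Low.recip_coeff q hj a

/-- Rounding keeps the signs. -/
theorem sign_round' {q g : ℕ} (hq : 0 < q) (hg : 0 < g) {t : ℝ} (ht0 : 0 ≤ t) {ρ : ℕ → ℝ}
    (hρ : ∑ k : Fin g, ρ k ≤ t) {β : Fin (g + 1) → ℝ} (hβ : β ∈ reg g t)
    {e : Fin g → ℤ}
    (he : ∀ k : Fin g, cc k * |(e k : ℝ) - β k.castSucc * Real.sqrt q ^ (g - k)| ≤
      ρ k * Real.sqrt q ^ (g - k))
    (i : ℕ) (hi : i ≤ g) : 0 < (-1) ^ i * aeval (pt q g i) (comb (bas q) g e) := by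
  have hs : 0 < Real.sqrt q := Real.sqrt_pos.2 (by exact_mod_cast hq)
  have hsg : 0 < Real.sqrt q ^ g := by positivity
  have h1 := hβ.1 ⟨i, Nat.lt_succ_of_le hi⟩
  have h2 : (matB g *ᵥ β) ⟨i, Nat.lt_succ_of_le hi⟩ =
      ∑ k : Fin g, (-1) ^ i * Real.cos ((k : ℕ) * nod g i) * cc k * β k.castSucc +
        cc g * β (Fin.last g) := by
    simp only [mulVec, dotProduct, matB_apply, Fin.sum_univ_castSucc, Fin.val_castSucc,
      Fin.val_last]
    rw [neg_one_pow_eq hg, sign_sq, one_mul]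
  have hccg : cc g = 2 := if_neg hg.ne'
  have h3 : (-1) ^ i * aeval (pt q g i) (comb (bas q) g e) = Real.sqrt q ^ g *
      (∑ k : Fin g, (-1) ^ i * Real.cos ((k : ℕ) * nod g i) * cc k *
        (e k / Real.sqrt q ^ (g - k)) + cc g) := by
    unfold comb
    rw [map_add, map_sum, aeval_bas, neg_one_pow_eq hg, mul_add, mul_add, Finset.mul_sum,
      Finset.mul_sum, add_comm]
    congr 1
    · refine Finset.sum_congr rfl fun k _ => ?_
      rw [map_mul, aeval_C, aeval_bas, eq_intCast (algebraMap ℤ ℝ)]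
      have h4 : Real.sqrt q ^ g = Real.sqrt q ^ (g - (k : ℕ)) * Real.sqrt q ^ (k : ℕ) := by
        rw [← pow_add, Nat.sub_add_cancel k.2.le]
      rw [h4]
      field_simp
    · calc (-1 : ℝ) ^ i * (cc g * Real.sqrt q ^ g * (-1) ^ i) =
          Real.sqrt q ^ g * cc g * ((-1) ^ i * (-1) ^ i) := by ring
        _ = _ := by rw [sign_sq, mul_one]
  rw [h3]
  refine mul_pos hsg ?_
  have h4 : ∑ k : Fin g, (-1) ^ i * Real.cos ((k : ℕ) * nod g i) * cc k *
        (e k / Real.sqrt q ^ (g - k)) =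
      ∑ k : Fin g, (-1) ^ i * Real.cos ((k : ℕ) * nod g i) * cc k * β k.castSucc +
      ∑ k : Fin g, (-1) ^ i * Real.cos ((k : ℕ) * nod g i) * cc k *
        (((e k : ℝ) - β k.castSucc * Real.sqrt q ^ (g - k)) / Real.sqrt q ^ (g - k)) := by
    rw [← Finset.sum_add_distrib]
    refine Finset.sum_congr rfl fun k _ => ?_
    field_simp
    ring
  have h5 : -(∑ k : Fin g, ρ k) ≤
      ∑ k : Fin g, (-1) ^ i * Real.cos ((k : ℕ) * nod g i) * cc k *
        (((e k : ℝ) - β k.castSucc * Real.sqrt q ^ (g - k)) / Real.sqrt q ^ (g - k)) := by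
    rw [← Finset.sum_neg_distrib]
    refine Finset.sum_le_sum fun k _ => ?_
    have h6 : |(-1) ^ i * Real.cos ((k : ℕ) * nod g i) * cc k *
        (((e k : ℝ) - β k.castSucc * Real.sqrt q ^ (g - k)) / Real.sqrt q ^ (g - k))| ≤
        ρ k := by
      have h7 : 0 < cc (k : ℕ) := by
        unfold cc
        split_ifs <;> norm_num
      have h8 : 0 < Real.sqrt q ^ (g - (k : ℕ)) := by positivity
      rw [abs_mul, abs_mul, abs_mul, abs_pow, abs_neg, abs_one, one_pow, one_mul, abs_of_pos h7,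
        abs_div, abs_of_pos h8]
      calc |Real.cos ((k : ℕ) * nod g i)| * cc k *
          (|(e k : ℝ) - β k.castSucc * Real.sqrt q ^ (g - k)| / Real.sqrt q ^ (g - k)) ≤
          1 * cc k * (|(e k : ℝ) - β k.castSucc * Real.sqrt q ^ (g - k)| / Real.sqrt q ^ (g - k)) := by
            refine mul_le_mul_of_nonneg_right ?_ (by positivity)
            exact mul_le_mul_of_nonneg_right (Real.abs_cos_le_one _) h7.le
        _ = (cc k * |(e k : ℝ) - β k.castSucc * Real.sqrt q ^ (g - k)|) / Real.sqrt q ^ (g - k) := by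
            ring
        _ ≤ _ := by
            rw [div_le_iff₀ h8]
            exact he k
    exact (abs_le.1 h6).1
  have h6 := (last_bounds hg ht0 hβ).2
  rw [h2] at h1
  rw [h4, hccg]
  rw [hccg] at h1
  linarith

/-- Rounding to a multiple of a power of `p`. -/
theorem round_mult (p n : ℕ) (hp : p.Prime) (x : ℝ) :
    ∃ e : ℤ, ((p : ℤ) ^ n ∣ e) ∧ |(e : ℝ) - x| ≤ 1 / 2 * (p : ℝ) ^ n := by
  have hD : (0 : ℝ) < (p : ℝ) ^ n := by
    have : (0 : ℝ) < p := by exact_mod_cast hp.pos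
    positivity
  obtain ⟨e, he⟩ := round_half (x / (p : ℝ) ^ n)
  refine ⟨(p : ℤ) ^ n * e, Dvd.intro _ rfl, ?_⟩
  push_cast
  have h1 : (p : ℝ) ^ n * (e : ℝ) - x = (p : ℝ) ^ n * ((e : ℝ) - x / (p : ℝ) ^ n) := by
    field_simp
  rw [h1, abs_mul, abs_of_pos hD, mul_comm]
  exact mul_le_mul_of_nonneg_right he hD.le

theorem round_mult_coprime (p n : ℕ) (hp : p.Prime) (x : ℝ) :
    ∃ e : ℤ, ((p : ℤ) ^ n ∣ e) ∧ ¬ ((p : ℤ) ^ (n + 1) ∣ e) ∧ |(e : ℝ) - x| ≤ 1 * (p : ℝ) ^ n := by
  have hD : (0 : ℝ) < (p : ℝ) ^ n := by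
    have : (0 : ℝ) < p := by exact_mod_cast hp.pos
    positivity
  obtain ⟨e, he, he2⟩ := round_coprime hp (x / (p : ℝ) ^ n)
  refine ⟨(p : ℤ) ^ n * e, Dvd.intro _ rfl, ?_, ?_⟩
  · rw [pow_succ]
    intro h
    apply he2
    refine (mul_dvd_mul_iff_left ?_).1 h
    exact pow_ne_zero _ (by exact_mod_cast hp.ne_zero)
  push_cast
  have h1 : (p : ℝ) ^ n * (e : ℝ) - x = (p : ℝ) ^ n * ((e : ℝ) - x / (p : ℝ) ^ n) := by
    field_simp
  rw [h1, abs_mul, abs_of_pos hD, mul_comm]
  exact mul_le_mul_of_nonneg_right he hD.le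

/-- Half the side lengths. -/
noncomputable def hE (E : Finset ℕ) (j : ℕ) : ℝ := by
  classical
  exact if j ∈ E then 1 else 1 / 2

theorem hE_pos (E : Finset ℕ) (j : ℕ) : 0 < hE E j := by
  unfold hE
  split_ifs <;> norm_num

theorem hE_le (E : Finset ℕ) (j : ℕ) : hE E j ≤ 1 := by
  unfold hE
  split_ifs <;> norm_num

/-- The widths of the boxes. -/
noncomputable def wd (q p a : ℕ) (lam : ℕ → ℝ) (E : Finset ℕ) (g J : ℕ) (τ : ℝ) (k : ℕ) : ℝ :=
  if k < g then (if k + J < g ∨ g - k ∈ E then 2 * hE E (g - k) / sg q p a lam (g - k) else 2 * τ)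
    else 1

theorem prod_hE (E : Finset ℕ) (g n : ℕ) (hn : n ≤ g) :
    ∏ k ∈ Finset.range n, (2 * hE E (g - k)) ≤ 2 ^ E.card := by
  classical
  have h1 : ∏ k ∈ Finset.range n, (2 * hE E (g - k)) =
      ∏ k ∈ (Finset.range n).filter (fun k => g - k ∈ E), (2 : ℝ) := by
    rw [Finset.prod_filter]
    refine Finset.prod_congr rfl fun k _ => ?_
    unfold hE
    split_ifs <;> norm_num
  rw [h1, Finset.prod_const]
  refine pow_le_pow_right₀ (by norm_num) ?_
  refine Finset.card_le_card_of_injOn (fun k => g - k) ?_ ?_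
  · intro k hk
    exact (Finset.mem_filter.1 (Finset.mem_coe.1 hk)).2
  · intro k hk k' hk' h
    have h2 := Finset.mem_range.1 (Finset.mem_filter.1 (Finset.mem_coe.1 hk)).1
    have h3 := Finset.mem_range.1 (Finset.mem_filter.1 (Finset.mem_coe.1 hk')).1
    simp only at h
    omega

/-- The product of the numbers. -/
noncomputable def PiJ (q p a : ℕ) (lam : ℕ → ℝ) (g J : ℕ) : ℝ :=
  ∏ k ∈ Finset.range (g - J), sg q p a lam (g - k)

theorem prod_wd {q p a : ℕ} {lam : ℕ → ℝ} {E : Finset ℕ} {g J : ℕ} (hp : p.Prime) (ha : 0 < a)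
    (hq : q = p ^ a) (hJ : J < g) (hE3 : ∀ j ∈ E, 2 ≤ sg q p a lam j) {τ : ℝ} (hτ : 0 ≤ τ)
    (hτ1 : τ ≤ 1 / 2) :
    ∏ k ∈ Finset.range (g + 1), wd q p a lam E g J τ k ≤ 2 ^ E.card / PiJ q p a lam g J := by
  rw [← Finset.prod_range_mul_prod_Ico _ (show g - J ≤ g + 1 by omega)]
  have h3 : 0 < PiJ q p a lam g J := Finset.prod_pos fun k _ => sg_pos hp ha hq _
  have h1 : ∏ k ∈ Finset.range (g - J), wd q p a lam E g J τ k ≤
      2 ^ E.card / PiJ q p a lam g J := by
    have h2 : ∀ k ∈ Finset.range (g - J), wd q p a lam E g J τ k =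
        2 * hE E (g - k) / sg q p a lam (g - k) := by
      intro k hk
      have := Finset.mem_range.1 hk
      unfold wd
      rw [if_pos (by omega), if_pos (Or.inl (by omega))]
    rw [Finset.prod_congr rfl h2, Finset.prod_div_distrib]
    exact div_le_div_of_nonneg_right (prod_hE E g (g - J) (Nat.sub_le g J)) h3.le
  have h5 : ∀ k, 0 ≤ wd q p a lam E g J τ k := by
    intro k
    have h1 := sg_pos (lam := lam) hp ha hq (g - k)
    have h2 := hE_pos E (g - k)
    unfold wd
    split_ifs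
    · positivity
    · positivity
    · norm_num
  have h2 : ∏ k ∈ Finset.Ico (g - J) (g + 1), wd q p a lam E g J τ k ≤ 1 := by
    refine Finset.prod_le_one (fun k _ => h5 k) fun k hk => ?_
    have hk' := Finset.mem_Ico.1 hk
    unfold wd
    split_ifs with h6 h7
    · have h8 : g - k ∈ E := h7.resolve_left (by omega)
      have h9 := hE3 _ h8
      have h10 := hE_le E (g - k)
      rw [div_le_one (by linarith)]
      linarith
    · linarith
    · exact le_rfl
  have h4 : 0 ≤ ∏ k ∈ Finset.Ico (g - J) (g + 1), wd q p a lam E g J τ k :=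
    Finset.prod_nonneg fun k _ => h5 k
  calc _ ≤ 2 ^ E.card / PiJ q p a lam g J * 1 := mul_le_mul h1 h2 h4 (by positivity)
    _ = _ := mul_one _

/-- **The lower bound.** -/
theorem WE_lower {q p a : ℕ} {lam : ℕ → ℝ} {E : Finset ℕ} {g J : ℕ} (hp : p.Prime) (ha : 0 < a)
    (hq : q = p ^ a) (hJ : J < g) (hE1 : ∀ j ∈ E, 0 < j) (hE2 : ∀ j ∈ E, j ≤ g)
    (hE3 : ∀ j ∈ E, 2 ≤ sg q p a lam j)
    {τ : ℝ} (hτ : 0 ≤ τ) (hτ1 : τ ≤ 1 / 2) {t : ℝ} (ht0 : 0 ≤ t)
    (ht : ∑ k : Fin g, (if (k : ℕ) + J < g ∨ g - (k : ℕ) ∈ E then 2 / sg q p a lam (g - k)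
      else 2 * τ) ≤ t) :
    ENNReal.ofReal (PiJ q p a lam g J) * volume (regJ g t J τ) ≤
      ENNReal.ofReal (2 ^ E.card * ((WE q p a lam g E).ncard : ℝ)) := by
  classical
  have hg : 0 < g := by omega
  have hq0 : 0 < q := q_pos hp ha hq
  have hs : 0 < Real.sqrt q := Real.sqrt_pos.2 (by exact_mod_cast hq0)
  have hpR : (0 : ℝ) < p := by exact_mod_cast hp.pos
  let F : (Fin g → ℤ) → ℤ[X] := fun e => weil q (comb (bas q) g e)
  have hinj : Function.Injective F := by
    intro e e' hee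
    have h1 := weil_injective hq0.ne' (comb_monic (bas_monic q) e).2 (comb_monic (bas_monic q) e').2
      hee
    exact comb_injective (bas_monic q) h1
  let L : Set (Fin g → ℤ) := {e | (∀ i ≤ g, 0 < (-1) ^ i * aeval (pt q g i) (comb (bas q) g e)) ∧
    (∀ k : Fin g, ((p : ℤ) ^ ex a lam (g - k)) ∣ e k) ∧
    ∀ k : Fin g, g - k ∈ E → ¬ ((p : ℤ) ^ (ex a lam (g - k) + 1)) ∣ e k}
  have hLF : ∀ e ∈ L, F e ∈ WE q p a lam g E := by
    rintro e ⟨h1, h2, h3⟩
    have hm := comb_monic (g := g) (bas_monic q) e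
    have hwp : F e ∈ weilPolys q g :=
      mem_weilPolys hq0 hm.1 hm.2 (real_roots_of_sign hq0 hg hm.1 hm.2 h1)
    obtain ⟨b, hb⟩ : ∃ b : ℕ → ℤ, ∀ k : Fin g, b (g - k) = e k := by
      refine ⟨fun j => if h : g - j < g then e ⟨g - j, h⟩ else 0, fun k => ?_⟩
      have h1 : g - (g - (k : ℕ)) = k := by omega
      have h2 : g - (g - (k : ℕ)) < g := by omega
      simp only [dif_pos h2]
      congr 1
      exact Fin.ext h1
    have he' : e = fun k : Fin g => b (g - k) := funext fun k => (hb k).symm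
    have hco : ∀ j, 0 < j → j ≤ g → (F e).coeff (2 * g - j) = b j := by
      intro j hj hjg
      change (weil q (comb (bas q) g e)).coeff _ = _
      rw [he', weil_comb hg, recip_coeff' q b hj hjg]
    refine ⟨⟨hwp, ?_⟩, ?_⟩
    · intro j hjg
      rcases Nat.eq_zero_or_pos j with hj | hj
      · rw [hj, ex_zero, pow_zero]
        exact one_dvd _
      · rw [hco j hj hjg]
        have h4 := h2 ⟨g - j, by omega⟩
        have h5 := hb ⟨g - j, by omega⟩
        have h6 : g - (g - j) = j := by omega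
        simp only [h6] at h4 h5
        rw [h5]
        exact h4
    · intro j hjE
      have hj := hE1 j hjE
      have hjg := hE2 j hjE
      rw [hco j (by omega) hjg]
      have h4 := h3 ⟨g - j, by omega⟩
      have h5 := hb ⟨g - j, by omega⟩
      have h6 : g - (g - j) = j := by omega
      simp only [h6] at h4 h5
      rw [h5]
      exact h4 hjE
  have hLfin : L.Finite := by
    refine ((finite_WE (g := g) (p := p) (a := a) (lam := lam) (E := E) hq0.ne').preimage (f := F)
      hinj.injOn).subset ?_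
    intro e he
    exact hLF e he
  have hLcard : L.ncard ≤ (WE q p a lam g E).ncard := by
    rw [← Set.ncard_image_of_injective _ hinj]
    refine Set.ncard_le_ncard ?_ (finite_WE hq0.ne')
    rintro _ ⟨e, he, rfl⟩
    exact hLF e he
  -- the boxes
  let lo : (Fin g → ℤ) → Fin (g + 1) → ℝ := fun e k =>
    if h : (k : ℕ) < g then (if (k : ℕ) + J < g ∨ g - (k : ℕ) ∈ E then
      ((e ⟨k, h⟩ : ℝ) - hE E (g - k) * (p : ℝ) ^ ex a lam (g - k)) / Real.sqrt q ^ (g - k) else -τ) else 0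
  let hi : (Fin g → ℤ) → Fin (g + 1) → ℝ := fun e k =>
    if h : (k : ℕ) < g then (if (k : ℕ) + J < g ∨ g - (k : ℕ) ∈ E then
      ((e ⟨k, h⟩ : ℝ) + hE E (g - k) * (p : ℝ) ^ ex a lam (g - k)) / Real.sqrt q ^ (g - k) else τ) else 1
  let bx : (Fin g → ℤ) → Set (Fin (g + 1) → ℝ) := fun e => Set.pi univ fun k => Icc (lo e k) (hi e k)
  have hwd : ∀ (e : Fin g → ℤ) (k : Fin (g + 1)), hi e k - lo e k = wd q p a lam E g J τ k := by
    intro e k
    simp only [hi, lo, wd]
    by_cases h1 : (k : ℕ) < g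
    · rw [dif_pos h1, dif_pos h1, if_pos h1]
      by_cases h2 : (k : ℕ) + J < g ∨ g - (k : ℕ) ∈ E
      · rw [if_pos h2, if_pos h2, if_pos h2, ← sub_div]
        unfold sg
        have h3 : (0 : ℝ) < (p : ℝ) ^ ex a lam (g - k) := by positivity
        field_simp
        ring
      · rw [if_neg h2, if_neg h2, if_neg h2]
        ring
    · rw [dif_neg h1, dif_neg h1, if_neg h1]
      ring
  have hwd0 : ∀ k, 0 ≤ wd q p a lam E g J τ k := by
    intro k
    have h1 := sg_pos (lam := lam) hp ha hq (g - k)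
    have h2 := hE_pos E (g - k)
    unfold wd
    split_ifs
    · positivity
    · positivity
    · norm_num
  have hcov : regJ g t J τ ⊆ ⋃ e ∈ hLfin.toFinset, bx e := by
    rintro β ⟨hβ, hβJ⟩
    have h1 : ∀ k : Fin g, ∃ e : ℤ,
        (if (k : ℕ) + J < g ∨ g - (k : ℕ) ∈ E then |(e : ℝ) - β k.castSucc * Real.sqrt q ^ (g - k)| ≤
          hE E (g - k) * (p : ℝ) ^ ex a lam (g - k) else e = 0) ∧
        ((p : ℤ) ^ ex a lam (g - k)) ∣ e ∧
          (g - (k : ℕ) ∈ E → ¬ ((p : ℤ) ^ (ex a lam (g - k) + 1)) ∣ e) := by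
      intro k
      by_cases hk : g - (k : ℕ) ∈ E
      · obtain ⟨e, h1, h2, h3⟩ := round_mult_coprime p (ex a lam (g - k)) hp
          (β k.castSucc * Real.sqrt q ^ (g - k))
        have h4 : hE E (g - k) = 1 := if_pos hk
        refine ⟨e, ?_, h1, fun _ => h2⟩
        rw [if_pos (Or.inr hk), h4]
        exact h3
      · by_cases hkJ : (k : ℕ) + J < g
        · obtain ⟨e, h1, h2⟩ := round_mult p (ex a lam (g - k)) hp
            (β k.castSucc * Real.sqrt q ^ (g - k))
          have h4 : hE E (g - k) = 1 / 2 := if_neg hk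
          refine ⟨e, ?_, h1, fun h => absurd h hk⟩
          rw [if_pos (Or.inl hkJ), h4]
          exact h2
        · refine ⟨0, ?_, dvd_zero _, fun h => absurd h hk⟩
          rw [if_neg (not_or.2 ⟨hkJ, hk⟩)]
    choose e he hed hep using h1
    have hround : ∀ k : Fin g, cc k * |(e k : ℝ) - β k.castSucc * Real.sqrt q ^ (g - k)| ≤
        (fun k : ℕ => if k + J < g ∨ g - k ∈ E then 2 / sg q p a lam (g - k) else 2 * τ) k *
          Real.sqrt q ^ (g - k) := by
      intro k
      have h2 := he k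
      have hc0 : 0 ≤ cc (k : ℕ) := by
        unfold cc
        split_ifs <;> norm_num
      have hc2 : cc (k : ℕ) ≤ 2 := by
        unfold cc
        split_ifs <;> norm_num
      by_cases hkJ : (k : ℕ) + J < g ∨ g - (k : ℕ) ∈ E
      · rw [if_pos hkJ] at h2
        simp only [if_pos hkJ]
        have h3 : (0 : ℝ) < (p : ℝ) ^ ex a lam (g - k) := by positivity
        have h4 := hE_le E (g - k)
        have h5 := (hE_pos E (g - k)).le
        calc cc k * |(e k : ℝ) - β k.castSucc * Real.sqrt q ^ (g - k)| ≤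
            2 * (1 * (p : ℝ) ^ ex a lam (g - k)) :=
              mul_le_mul hc2 (h2.trans (mul_le_mul_of_nonneg_right h4 h3.le)) (abs_nonneg _)
                (by norm_num)
          _ = 2 / sg q p a lam (g - k) * Real.sqrt q ^ (g - k) := by
              unfold sg
              field_simp
      · rw [if_neg hkJ] at h2
        simp only [if_neg hkJ]
        rw [h2, Int.cast_zero, zero_sub, abs_neg, abs_mul, abs_of_pos (show (0 : ℝ) <
          Real.sqrt q ^ (g - (k : ℕ)) by positivity)]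
        have h3 := hβJ k.castSucc k.2 (by
          simp only [Fin.val_castSucc]
          omega)
        calc cc k * (|β k.castSucc| * Real.sqrt q ^ (g - (k : ℕ))) ≤
            2 * (τ * Real.sqrt q ^ (g - (k : ℕ))) := by
              refine mul_le_mul hc2 ?_ (by positivity) (by norm_num)
              exact mul_le_mul_of_nonneg_right h3 (by positivity)
          _ = _ := by ring
    refine mem_iUnion₂.2 ⟨e, (Set.Finite.mem_toFinset hLfin).2
      ⟨fun i hi => sign_round' (ρ := fun k : ℕ => if k + J < g ∨ g - k ∈ E then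
        2 / sg q p a lam (g - k) else 2 * τ) hq0 hg ht0 ht hβ hround i hi, hed, hep⟩, ?_⟩
    intro k _
    simp only [lo, hi]
    by_cases hk : (k : ℕ) < g
    · rw [dif_pos hk, dif_pos hk]
      have h3 : (⟨k, hk⟩ : Fin g).castSucc = k := Fin.ext rfl
      by_cases hkJ : (k : ℕ) + J < g ∨ g - (k : ℕ) ∈ E
      · rw [if_pos hkJ, if_pos hkJ]
        have h2 := he ⟨k, hk⟩
        simp only [if_pos hkJ] at h2
        rw [h3] at h2
        have h2 := abs_le.1 h2
        have h4 : 0 < Real.sqrt q ^ (g - (k : ℕ)) := by positivity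
        rw [mem_Icc, div_le_iff₀ h4, le_div_iff₀ h4]
        constructor <;> linarith [h2.1, h2.2]
      · rw [if_neg hkJ, if_neg hkJ]
        exact abs_le.1 (hβJ k hk (by omega))
    · have h2 : k = Fin.last g := Fin.ext (by
        have := k.2
        rw [Fin.val_last]
        omega)
      rw [dif_neg hk, dif_neg hk, h2]
      have := last_bounds hg ht0 hβ
      exact ⟨this.1.le, this.2.le⟩
  have hvolbx : ∀ e, volume (bx e) ≤ ENNReal.ofReal (2 ^ E.card / PiJ q p a lam g J) := by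
    intro e
    simp only [bx]
    rw [Set.pi_univ_Icc, Real.volume_Icc_pi, Finset.prod_congr rfl fun k _ => by rw [hwd e k],
      ← ENNReal.ofReal_prod_of_nonneg (fun (k : Fin (g + 1)) _ => hwd0 (k : ℕ)),
      Fin.prod_univ_eq_prod_range (fun k => wd q p a lam E g J τ k) (g + 1)]
    exact ENNReal.ofReal_le_ofReal (prod_wd hp ha hq hJ hE3 hτ hτ1)
  have hPi : 0 < PiJ q p a lam g J := Finset.prod_pos fun k _ => sg_pos hp ha hq _
  have h1 : volume (regJ g t J τ) ≤ (L.ncard : ENNReal) *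
      ENNReal.ofReal (2 ^ E.card / PiJ q p a lam g J) := by
    refine (measure_mono hcov).trans ((measure_biUnion_finset_le _ _).trans ?_)
    refine (Finset.sum_le_sum fun e _ => hvolbx e).trans ?_
    rw [Finset.sum_const, nsmul_eq_mul, Set.ncard_eq_toFinset_card L hLfin]
  have h2 : (L.ncard : ℝ) ≤ ((WE q p a lam g E).ncard : ℝ) := by exact_mod_cast hLcard
  calc ENNReal.ofReal (PiJ q p a lam g J) * volume (regJ g t J τ) ≤
      ENNReal.ofReal (PiJ q p a lam g J) * ((L.ncard : ENNReal) *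
        ENNReal.ofReal (2 ^ E.card / PiJ q p a lam g J)) := by gcongr
    _ = ENNReal.ofReal (2 ^ E.card * (L.ncard : ℝ)) := by
        rw [← ENNReal.ofReal_natCast, ← ENNReal.ofReal_mul (Nat.cast_nonneg _),
          ← ENNReal.ofReal_mul hPi.le]
        congr 1
        field_simp
    _ ≤ _ := ENNReal.ofReal_le_ofReal (mul_le_mul_of_nonneg_left h2 (by positivity))

end Pool.Agent.J4H9.NCone
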