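import Mathlib
import Pool.Agent.J4H9.NSize
import Pool.Agent.J4H9.Cover2

/-!
# The real Weil polynomials with divisible coefficients are contained in a small union of chains
-/

set_option autoImplicit false

namespace Pool.Agent.J4H9.NCover

open Polynomial Matrix Pool.Agent.W521.Frob Pool.Agent.W521.Descent Pool.Agent.W521.Lower
  Pool.Agent.W521.Count Pool.Agent.J4H9.Ch Pool.Agent.J4H9.Cover Pool.Agent.J4H9.Size
  Pool.Agent.J4H9.Trig Pool.Agent.J4H9.Cells Pool.Agent.J4H9.Cover2 Pool.Agent.J4H9.NScale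
  Pool.Agent.J4H9.NSize

/-- The lengths of the intervals. -/
noncomputable def len3 (w : ℝ) (q g : ℕ) (d : ℕ → ℤ) (j : ℕ) : ℕ :=
  ⌊w * Real.sqrt q ^ (g - j) / ((g - j : ℕ) * |((d j : ℤ) : ℝ)|)⌋₊ + 1

/-- **The covering by few chains.** -/
theorem cover_cells' {q : ℕ} (hq : 0 < q) {g : ℕ} (hg : 2 ≤ g) {w : ℝ} (hw : 0 < w) {d : ℕ → ℤ}
    (hd : ∀ k, d k ≠ 0) (hdg : d g = 1) :
    ∃ (Λ₀ : Finset (Fin (g + 1) → ℤ)) (𝒯 : (Fin (g + 1) → ℤ) → ℕ → Finset ℤ[X]),
      (∀ z ∈ Λ₀, Chain (len3 w q g d) g (𝒯 z)) ∧ (∀ z ∈ Λ₀, 𝒯 z g = {1}) ∧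
      (∀ B : ℤ[X], sc d B ∈ realWeil q g → ∃ z ∈ Λ₀, B ∈ 𝒯 z 0) ∧
      (Λ₀.card : ℝ) * w ^ (g + 1) * |(matA (g + 1)).det| ≤
        (((g : ℝ) + 1) ^ 2 * (1 + w)) ^ (g + 1) / (g + 1).factorial := by
  classical
  have hfin := finite_sc (g := g) hd hq.ne'
  let zc : ℤ[X] → (Fin (g + 1) → ℤ) := fun B k => ⌊mom q (weil q (sc d B)) k / w⌋
  let Λ₀ : Finset (Fin (g + 1) → ℤ) := hfin.toFinset.image zc
  have hz : ∀ z ∈ Λ₀, ∃ B : ℤ[X], sc d B ∈ realWeil q g ∧ zc B = z := by
    intro z hz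
    obtain ⟨B, hB, h1⟩ := Finset.mem_image.1 hz
    exact ⟨B, (Set.Finite.mem_toFinset hfin).1 hB, h1⟩
  have hcov : ∀ z : Fin (g + 1) → ℤ, ∃ 𝒯 : ℕ → Finset ℤ[X], Chain (len3 w q g d) g 𝒯 ∧
      (hfin.toFinset.filter fun B => zc B = z) ⊆ 𝒯 0 ∧ 𝒯 g = {1} := by
    intro z
    refine cover _ (fun B hB => ?_) (len3 w q g d) (fun j _ => Nat.succ_pos _) ?_
    · have h1 : sc d B ∈ realWeil q g := (Set.Finite.mem_toFinset hfin).1 (Finset.mem_filter.1 hB).1
      exact (monic_sc hd hdg).2 ⟨h1.1, h1.2.1⟩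
    · intro j hj B hB B' hB' heq
      obtain ⟨h1, h2⟩ := Finset.mem_filter.1 hB
      obtain ⟨h1', h2'⟩ := Finset.mem_filter.1 hB'
      rw [Set.Finite.mem_toFinset] at h1 h1'
      have h1 : sc d B ∈ realWeil q g := h1
      have h1' : sc d B' ∈ realWeil q g := h1'
      have h4 := mom_diff hq h1.2.2 h1'.2.2 h1.2.1 h1'.2.1 hj (by
        intro k hk
        have h5 := congrArg (fun p => p.coeff (k - (j + 1))) heq
        simp only [iterate_divX_coeff] at h5
        rw [Nat.sub_add_cancel hk] at h5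
        rw [coeff_sc, coeff_sc, h5])
      have h0 : (0 : ℝ) < (g - j : ℕ) := by
        have : 0 < g - j := by omega
        exact_mod_cast this
      have hdj : 0 < |((d j : ℤ) : ℝ)| := abs_pos.2 (by exact_mod_cast hd j)
      have h5 : |mom q (weil q (sc d B)) (g - j) - mom q (weil q (sc d B')) (g - j)| < w := by
        have h6 := congrFun (h2.trans h2'.symm) ⟨g - j, by omega⟩
        simp only [zc] at h6
        have h7 := Int.floor_le (mom q (weil q (sc d B)) (g - j) / w)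
        have h8 := Int.lt_floor_add_one (mom q (weil q (sc d B)) (g - j) / w)
        have h9 := Int.floor_le (mom q (weil q (sc d B')) (g - j) / w)
        have h10 := Int.lt_floor_add_one (mom q (weil q (sc d B')) (g - j) / w)
        rw [h6] at h7 h8
        have h11 : |mom q (weil q (sc d B)) (g - j) / w -
            mom q (weil q (sc d B')) (g - j) / w| < 1 := by
          rw [abs_lt]
          constructor <;> linarith
        rw [← sub_div, abs_div, abs_of_pos hw, div_lt_one hw] at h11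
        exact h11
      have h6 : |((B.coeff j - B'.coeff j : ℤ) : ℝ)| ≤
          w * Real.sqrt q ^ (g - j) / ((g - j : ℕ) * |((d j : ℤ) : ℝ)|) := by
        rw [le_div_iff₀ (by positivity)]
        rw [coeff_sc, coeff_sc, ← mul_sub] at h4
        have h12 : |((d j * (B.coeff j - B'.coeff j) : ℤ) : ℝ)| =
            |((d j : ℤ) : ℝ)| * |((B.coeff j - B'.coeff j : ℤ) : ℝ)| := by
          rw [Int.cast_mul, abs_mul]
        rw [h12] at h4
        calc |((B.coeff j - B'.coeff j : ℤ) : ℝ)| * (((g - j : ℕ) : ℝ) * |((d j : ℤ) : ℝ)|) =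
            ((g - j : ℕ) : ℝ) * (|((d j : ℤ) : ℝ)| * |((B.coeff j - B'.coeff j : ℤ) : ℝ)|) := by ring
          _ = _ := h4
          _ ≤ _ := mul_le_mul_of_nonneg_right h5.le (by positivity)
      have h7 : (B.coeff j - B'.coeff j).toNat ≤
          ⌊w * Real.sqrt q ^ (g - j) / ((g - j : ℕ) * |((d j : ℤ) : ℝ)|)⌋₊ := by
        refine Nat.le_floor ?_
        refine le_trans ?_ h6
        by_cases h7 : 0 ≤ B.coeff j - B'.coeff j
        · have h8 : (((B.coeff j - B'.coeff j).toNat : ℤ) : ℝ) = ((B.coeff j - B'.coeff j : ℤ) : ℝ) := by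
            rw [Int.toNat_of_nonneg h7]
          rw [Int.cast_natCast] at h8
          rw [h8]
          exact le_abs_self _
        · rw [Int.toNat_of_nonpos (by omega)]
          simp
      unfold len3
      omega
  choose 𝒯 h1 h2 h3 using hcov
  refine ⟨Λ₀, 𝒯, fun z _ => h1 z, fun z _ => h3 z, ?_, ?_⟩
  · intro B hB
    have h4 : B ∈ hfin.toFinset := (Set.Finite.mem_toFinset hfin).2 hB
    exact ⟨zc B, Finset.mem_image_of_mem zc h4, h2 _ (Finset.mem_filter.2 ⟨h4, rfl⟩)⟩
  · have key := card_cells (n := g + 1) (by omega) hw Λ₀ (by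
      intro z hz'
      obtain ⟨B, hB, rfl⟩ := hz z hz'
      refine ⟨fun k => mom q (weil q (sc d B)) k, ?_, ?_, fun i => mom_nonneg hq hB.2.2 _ i⟩
      · intro k _
        simp only [zc]
        have h7 := Int.floor_le (mom q (weil q (sc d B)) k / w)
        have h8 := Int.lt_floor_add_one (mom q (weil q (sc d B)) k / w)
        rw [le_div_iff₀ hw] at h7
        rw [div_lt_iff₀ hw] at h8
        exact ⟨h7, h8⟩
      · change mom q (weil q (sc d B)) 0 ≤ _
        rw [mom_zero hq hB.2.2]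
        push_cast
        linarith)
    push_cast at key
    exact key

end Pool.Agent.J4H9.NCover
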