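import Mathlib
import Pool.Agent.J4H9.NCone
import Pool.Agent.J4H9.NCover
import Pool.Agent.J4H9.Asym

/-!
# The cover of the real Weil polynomials with divisible coefficients is small
-/

set_option autoImplicit false

namespace Pool.Agent.J4H9.NAsym

open MeasureTheory Polynomial Filter Matrix Pool.Agent.W521.Frob Pool.Agent.W521.Descent
  Pool.Agent.W521.Lower
  Pool.Agent.W521.Count Pool.Agent.J4H9.Ch Pool.Agent.J4H9.Cover Pool.Agent.J4H9.Size
  Pool.Agent.J4H9.Trig Pool.Agent.J4H9.Cells Pool.Agent.J4H9.Cover2 Pool.Agent.J4H9.Cone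
  Pool.Agent.J4H9.Asym Pool.Agent.J4H9.NVol Pool.Agent.J4H9.NGauss Pool.Agent.J4H9.NSize
  Pool.Agent.J4H9.NCone Pool.Agent.J4H9.NCover Pool.Agent.J4H9.NScale

/-- The comparison of the determinants. -/
theorem det_comp {g : ℕ} (hg0 : 0 < g) : |(matB g).det| * ((g + 1).factorial : ℝ) ≤
    3 * 2 ^ g * |(matA (g + 1)).det| * ((g : ℝ) + 1) ^ (g + 1) := by
  have hf1 : (0 : ℝ) < ((g + 1).factorial : ℝ) := by exact_mod_cast (g + 1).factorial_pos
  have h1 : Real.sqrt (4 * ((g : ℝ) ^ 2 * ((g : ℝ) / 2) ^ (g - 1))) ≤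
      3 * Real.sqrt (((g + 1 : ℕ) : ℝ) * (((g + 1 : ℕ) : ℝ) / 2) ^ (g + 1 - 1)) := by
    have h2 : (3 : ℝ) = Real.sqrt 9 := by
      rw [show (9 : ℝ) = 3 ^ 2 by norm_num, Real.sqrt_sq (by norm_num)]
    rw [h2, ← Real.sqrt_mul (by norm_num)]
    refine Real.sqrt_le_sqrt ?_
    rw [Nat.add_sub_cancel]
    have h3 : (((g + 1 : ℕ) : ℝ) / 2) ^ g = (((g + 1 : ℕ) : ℝ) / 2) ^ (g - 1) *
        (((g + 1 : ℕ) : ℝ) / 2) := by
      rw [← pow_succ, Nat.sub_add_cancel hg0]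
    rw [h3]
    push_cast
    have h4 : ((g : ℝ) / 2) ^ (g - 1) ≤ (((g : ℝ) + 1) / 2) ^ (g - 1) :=
      pow_le_pow_left₀ (by positivity) (by linarith) _
    have h5 : (0 : ℝ) ≤ (((g : ℝ) + 1) / 2) ^ (g - 1) := by positivity
    have hgn : (0 : ℝ) ≤ g := Nat.cast_nonneg g
    calc 4 * ((g : ℝ) ^ 2 * ((g : ℝ) / 2) ^ (g - 1)) ≤
        4 * ((g : ℝ) ^ 2 * (((g : ℝ) + 1) / 2) ^ (g - 1)) := by
          refine mul_le_mul_of_nonneg_left (mul_le_mul_of_nonneg_left h4 (by positivity))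
            (by norm_num)
      _ = (4 * (g : ℝ) ^ 2) * (((g : ℝ) + 1) / 2) ^ (g - 1) := by ring
      _ ≤ (9 / 2 * ((g : ℝ) + 1) ^ 2) * (((g : ℝ) + 1) / 2) ^ (g - 1) :=
          mul_le_mul_of_nonneg_right (by nlinarith) h5
      _ = _ := by ring
  rw [abs_det_matB hg0, abs_det_matA (Nat.succ_pos g)]
  calc 2 ^ g * Real.sqrt (4 * ((g : ℝ) ^ 2 * ((g : ℝ) / 2) ^ (g - 1))) * ((g + 1).factorial : ℝ) ≤
      2 ^ g * (3 * Real.sqrt (((g + 1 : ℕ) : ℝ) * (((g + 1 : ℕ) : ℝ) / 2) ^ (g + 1 - 1))) *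
        ((g + 1).factorial : ℝ) := by
        refine mul_le_mul_of_nonneg_right (mul_le_mul_of_nonneg_left h1 (by positivity)) hf1.le
    _ = _ := by
        push_cast
        field_simp

theorem geom_rev (x : ℝ) (hx : 0 < x) (hx1 : x ≤ 1 / 2) (g : ℕ) :
    ∑ k ∈ Finset.range g, x ^ (g - k) ≤ 1 := by
  have h4 := Finset.sum_range_reflect (fun j => x ^ (j + 1)) g
  have h5 : ∑ j ∈ Finset.range g, x ^ (g - 1 - j + 1) = ∑ k ∈ Finset.range g, x ^ (g - k) := by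
    refine Finset.sum_congr rfl fun j hj => ?_
    have := Finset.mem_range.1 hj
    congr 1
    omega
  rw [← h5, h4]
  have h7 : ∀ m : ℕ, ∑ j ∈ Finset.range m, x ^ (j + 1) ≤ 1 - (1 / 2) ^ m := by
    intro m
    induction m with
    | zero => simp
    | succ m ih =>
      rw [Finset.sum_range_succ]
      have h8 : x ^ (m + 1) ≤ (1 / 2) ^ (m + 1) := pow_le_pow_left₀ hx.le hx1 _
      rw [pow_succ (1 / 2 : ℝ) m] at h8 ⊢
      linarith
  have h8 := h7 g
  have : (0 : ℝ) < (1 / 2) ^ g := by positivity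
  linarith

theorem geom_rev' (x : ℝ) (hx : 0 ≤ x) (hx1 : x < 1) (g : ℕ) :
    ∑ k ∈ Finset.range g, x ^ (g - k) ≤ x / (1 - x) := by
  have h4 := Finset.sum_range_reflect (fun j => x ^ (j + 1)) g
  have h5 : ∑ j ∈ Finset.range g, x ^ (g - 1 - j + 1) = ∑ k ∈ Finset.range g, x ^ (g - k) := by
    refine Finset.sum_congr rfl fun j hj => ?_
    have := Finset.mem_range.1 hj
    congr 1
    omega
  have h6 : (1 - x) * ∑ j ∈ Finset.range g, x ^ j = 1 - x ^ g := mul_neg_geom_sum x g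
  have h7 : ∑ j ∈ Finset.range g, x ^ (j + 1) = x * ∑ j ∈ Finset.range g, x ^ j := by
    rw [Finset.mul_sum]
    exact Finset.sum_congr rfl fun j _ => by ring
  rw [← h5, h4, h7, le_div_iff₀ (by linarith)]
  have h8 : 0 ≤ x ^ g := by positivity
  calc x * (∑ j ∈ Finset.range g, x ^ j) * (1 - x) =
      x * ((1 - x) * ∑ j ∈ Finset.range g, x ^ j) := by ring
    _ = x * (1 - x ^ g) := by rw [h6]
    _ ≤ x := by nlinarith

/-- The number of the elements of an interval. -/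
theorem len3_eq {q p a g : ℕ} {lam : ℕ → ℝ} (hp : p.Prime) (w : ℝ) (j : ℕ) :
    len3 w q g (dd p a lam g) j = ⌊w * sg q p a lam (g - j) / (g - j : ℕ)⌋₊ + 1 := by
  have hpR : (0 : ℝ) < p := by exact_mod_cast hp.pos
  unfold len3
  congr 2
  rw [abs_dd]
  unfold sg
  have h : (0 : ℝ) < (p : ℝ) ^ ex a lam (g - j) := by positivity
  field_simp

section

variable {p a q g : ℕ} {lam : ℕ → ℝ} (hp : p.Prime) (ha : 0 < a) (hq : q = p ^ a) (hs : Slopes lam)
  {μ : ℝ} (hμ : 0 < μ) (hht : ht lam g ≤ (1 / 2 - μ) * g) (hq64 : 64 ≤ (q : ℝ) ^ (μ / 2))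
  {J : ℕ} (hJ : 2 / μ ≤ J) (hJg : J < g)

include hp ha hq hs hμ hht hq64 hJ

theorem sg_ge64 {j : ℕ} (hj : J ≤ j) (hjg : j ≤ g) : (64 : ℝ) ^ j ≤ sg q p a lam j := by
  have hq0 : (0 : ℝ) < q := by exact_mod_cast q_pos hp ha hq
  have hq2 : (2 : ℝ) ≤ q := by exact_mod_cast q_ge hp ha hq
  refine le_trans ?_ (sg_ge hp ha hq hs j)
  calc (64 : ℝ) ^ j ≤ ((q : ℝ) ^ (μ / 2)) ^ j := pow_le_pow_left₀ (by norm_num) hq64 j
    _ = (q : ℝ) ^ (μ / 2 * j) := by rw [← Real.rpow_natCast, ← Real.rpow_mul hq0.le]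
    _ ≤ _ := by
        refine Real.rpow_le_rpow_of_exponent_le (by linarith) ?_
        have h1 := P_ge hs hht hjg
        have h2 : (J : ℝ) ≤ j := by exact_mod_cast hj
        have h3 : 2 / μ ≤ j := hJ.trans h2
        rw [div_le_iff₀ hμ] at h3
        linarith

theorem sg_int {j : ℕ} (hjg : j ≤ g) (hint : (ex a lam j : ℝ) = a * ht lam j) :
    (4096 : ℝ) ^ j ≤ sg q p a lam j := by
  have hq0 : (0 : ℝ) < q := by exact_mod_cast q_pos hp ha hq
  have hq2 : (2 : ℝ) ≤ q := by exact_mod_cast q_ge hp ha hq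
  have h1 : sg q p a lam j = (q : ℝ) ^ P lam j := by
    unfold sg P
    rw [Real.rpow_sub hq0, sqrt_pow hp ha hq, q_rpow hp ha hq (ht lam j), ← hint,
      Real.rpow_natCast]
  rw [h1]
  have h2 : (4096 : ℝ) ≤ (q : ℝ) ^ μ := by
    calc (4096 : ℝ) = 64 ^ 2 := by norm_num
      _ ≤ ((q : ℝ) ^ (μ / 2)) ^ 2 := pow_le_pow_left₀ (by norm_num) hq64 2
      _ = (q : ℝ) ^ μ := by
          rw [← Real.rpow_natCast, ← Real.rpow_mul hq0.le]
          congr 1
          push_cast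
          ring
  calc (4096 : ℝ) ^ j ≤ ((q : ℝ) ^ μ) ^ j := pow_le_pow_left₀ (by norm_num) h2 j
    _ = (q : ℝ) ^ (μ * j) := by rw [← Real.rpow_natCast, ← Real.rpow_mul hq0.le]
    _ ≤ _ := Real.rpow_le_rpow_of_exponent_le (by linarith) (P_ge hs hht hjg)

/-- The product of the lengths. -/
theorem prod_len3 (hJg : J < g) (hJ4 : 4 ≤ J) :
    (∏ j ∈ Finset.range g, (len3 (1 / 40) q g (dd p a lam g) j : ℝ)) * (g.factorial : ℝ) ≤
      3 * ((1 / 40) ^ g * (PiJ q p a lam g J * ((q : ℝ) ^ J * (1 + 40 * J)) ^ J)) := by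
  have hq0 : (0 : ℝ) < q := by exact_mod_cast q_pos hp ha hq
  have hq2 : (2 : ℝ) ≤ q := by exact_mod_cast q_ge hp ha hq
  have hq1 : (1 : ℝ) ≤ q := by linarith
  have hterm : ∀ j ∈ Finset.range g, (len3 (1 / 40) q g (dd p a lam g) j : ℝ) * ((g - j : ℕ) : ℝ) ≤
      1 / 40 * sg q p a lam (g - j) + ((g - j : ℕ) : ℝ) := by
    intro j hj
    have hj' := Finset.mem_range.1 hj
    have hk0 : (0 : ℝ) < ((g - j : ℕ) : ℝ) := by
      have : 0 < g - j := by omega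
      exact_mod_cast this
    have h0 := sg_pos (lam := lam) hp ha hq (g - j)
    rw [len3_eq hp]
    push_cast
    have h1 := Nat.floor_le (show (0 : ℝ) ≤ 1 / 40 * sg q p a lam (g - j) / ((g - j : ℕ) : ℝ) by
      positivity)
    calc ((⌊1 / 40 * sg q p a lam (g - j) / ((g - j : ℕ) : ℝ)⌋₊ : ℝ) + 1) * ((g - j : ℕ) : ℝ) ≤
        (1 / 40 * sg q p a lam (g - j) / ((g - j : ℕ) : ℝ) + 1) * ((g - j : ℕ) : ℝ) :=
          mul_le_mul_of_nonneg_right (by linarith) hk0.le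
      _ = _ := by field_simp
  have hA : ∀ j ∈ Finset.range (g - J), (len3 (1 / 40) q g (dd p a lam g) j : ℝ) *
      ((g - j : ℕ) : ℝ) ≤ (1 / 40 * sg q p a lam (g - j)) * Real.exp ((1 / 2) ^ (g - j)) := by
    intro j hj
    have hj' := Finset.mem_range.1 hj
    refine (hterm j (Finset.mem_range.2 (by omega))).trans ?_
    set k := g - j with hk
    have hkJ : J ≤ k := by omega
    have h64 := sg_ge64 hp ha hq hs hμ hht hq64 hJ hkJ (Nat.sub_le g j)
    have h0 := sg_pos (lam := lam) hp ha hq k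
    have h3 : (40 : ℝ) * k ≤ (32 : ℝ) ^ k := by
      have h4 : (k : ℝ) ≤ 2 ^ k := by exact_mod_cast Nat.lt_two_pow_self.le
      have h5 : (40 : ℝ) ≤ 16 ^ k := by
        calc (40 : ℝ) ≤ 16 ^ 2 := by norm_num
          _ ≤ 16 ^ k := pow_le_pow_right₀ (by norm_num) (by omega)
      calc (40 : ℝ) * k ≤ 16 ^ k * 2 ^ k := mul_le_mul h5 h4 (Nat.cast_nonneg k) (by positivity)
        _ = (32 : ℝ) ^ k := by rw [← mul_pow]; norm_num
    have h4 : (40 : ℝ) * k * 2 ^ k ≤ sg q p a lam k := by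
      refine le_trans ?_ h64
      calc (40 : ℝ) * k * 2 ^ k ≤ 32 ^ k * 2 ^ k := mul_le_mul_of_nonneg_right h3 (by positivity)
        _ = _ := by rw [← mul_pow]; norm_num
    have h5 : (k : ℝ) ≤ 1 / 40 * sg q p a lam k * (1 / 2) ^ k := by
      rw [_root_.one_div_pow, mul_one_div, le_div_iff₀ (by positivity)]
      linarith
    have h6 : (1 / 2 : ℝ) ^ k + 1 ≤ Real.exp ((1 / 2) ^ k) := Real.add_one_le_exp _
    calc 1 / 40 * sg q p a lam k + k ≤ 1 / 40 * sg q p a lam k * ((1 / 2) ^ k + 1) := by linarith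
      _ ≤ _ := mul_le_mul_of_nonneg_left h6 (by positivity)
  have hB : ∀ j ∈ Finset.Ico (g - J) g, (len3 (1 / 40) q g (dd p a lam g) j : ℝ) *
      ((g - j : ℕ) : ℝ) ≤ 1 / 40 * ((q : ℝ) ^ J * (1 + 40 * J)) := by
    intro j hj
    have hj' := Finset.mem_Ico.1 hj
    refine (hterm j (Finset.mem_range.2 hj'.2)).trans ?_
    have h1 : sg q p a lam (g - j) ≤ (q : ℝ) ^ J := by
      refine (sg_le hp ha hq hs _).trans ?_
      rw [← Real.rpow_natCast]
      refine Real.rpow_le_rpow_of_exponent_le hq1 ?_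
      have h2 := P_le hs (g - j)
      have h3 : ((g - j : ℕ) : ℝ) ≤ J := by
        have : g - j ≤ J := by omega
        exact_mod_cast this
      have h4 : (0 : ℝ) ≤ ((g - j : ℕ) : ℝ) := Nat.cast_nonneg _
      linarith
    have h3 : ((g - j : ℕ) : ℝ) ≤ J := by
      have : g - j ≤ J := by omega
      exact_mod_cast this
    have h4 : (1 : ℝ) ≤ (q : ℝ) ^ J := one_le_pow₀ hq1
    have h5 : (J : ℝ) ≤ (q : ℝ) ^ J * J := by
      have : (0 : ℝ) ≤ J := Nat.cast_nonneg J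
      nlinarith
    calc 1 / 40 * sg q p a lam (g - j) + ((g - j : ℕ) : ℝ) ≤ 1 / 40 * (q : ℝ) ^ J + (q : ℝ) ^ J * J := by
          linarith
      _ = _ := by ring
  have hpos : ∀ j, 0 ≤ (len3 (1 / 40) q g (dd p a lam g) j : ℝ) * ((g - j : ℕ) : ℝ) := fun j => by
    positivity
  have h1 : (∏ j ∈ Finset.range g, (len3 (1 / 40) q g (dd p a lam g) j : ℝ)) * (g.factorial : ℝ) =
      (∏ j ∈ Finset.range (g - J), (len3 (1 / 40) q g (dd p a lam g) j : ℝ) * ((g - j : ℕ) : ℝ)) *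
      ∏ j ∈ Finset.Ico (g - J) g, (len3 (1 / 40) q g (dd p a lam g) j : ℝ) * ((g - j : ℕ) : ℝ) := by
    rw [Finset.prod_range_mul_prod_Ico _ (Nat.sub_le g J), Finset.prod_mul_distrib, Size.prod_sub]
  rw [h1]
  have h2 := Finset.prod_le_prod (fun j (_ : j ∈ Finset.range (g - J)) => hpos j) hA
  have h3 := Finset.prod_le_prod (fun j (_ : j ∈ Finset.Ico (g - J) g) => hpos j) hB
  have e1 : ∏ j ∈ Finset.range (g - J), ((1 / 40 * sg q p a lam (g - j)) *
      Real.exp ((1 / 2) ^ (g - j))) = (1 / 40) ^ (g - J) * PiJ q p a lam g J *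
        Real.exp (∑ x ∈ Finset.range (g - J), (1 / 2 : ℝ) ^ (g - x)) := by
    rw [Finset.prod_mul_distrib, Finset.prod_mul_distrib, Finset.prod_const, Finset.card_range,
      ← Real.exp_sum]
    rfl
  rw [e1] at h2
  rw [Finset.prod_const, Nat.card_Ico, show g - (g - J) = J by omega] at h3
  have h4 : Real.exp (∑ x ∈ Finset.range (g - J), (1 / 2 : ℝ) ^ (g - x)) ≤ 3 := by
    have h5 : ∑ x ∈ Finset.range (g - J), (1 / 2 : ℝ) ^ (g - x) ≤ 1 :=
      (Finset.sum_le_sum_of_subset_of_nonneg (Finset.range_subset_range.2 (Nat.sub_le g J))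
        fun _ _ _ => by positivity).trans (geom_rev (1 / 2) (by norm_num) le_rfl g)
    have h6 := Real.exp_le_exp.2 h5
    have h7 := Real.exp_one_lt_d9
    linarith
  have hPi : 0 < PiJ q p a lam g J := Finset.prod_pos fun k _ => sg_pos hp ha hq _
  have h5 : 0 ≤ (q : ℝ) ^ J * (1 + 40 * J) := by positivity
  calc _ ≤ ((1 / 40) ^ (g - J) * PiJ q p a lam g J *
        Real.exp (∑ x ∈ Finset.range (g - J), (1 / 2 : ℝ) ^ (g - x))) *
        (1 / 40 * ((q : ℝ) ^ J * (1 + 40 * J))) ^ J :=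
        mul_le_mul h2 h3 (Finset.prod_nonneg fun j _ => hpos j) (by positivity)
    _ ≤ ((1 / 40) ^ (g - J) * PiJ q p a lam g J * 3) *
        (1 / 40 * ((q : ℝ) ^ J * (1 + 40 * J))) ^ J := by
        refine mul_le_mul_of_nonneg_right ?_ (by positivity)
        exact mul_le_mul_of_nonneg_left h4 (by positivity)
    _ = 3 * (((1 / 40) ^ (g - J) * (1 / 40) ^ J) * (PiJ q p a lam g J *
        ((q : ℝ) ^ J * (1 + 40 * J)) ^ J)) := by
        rw [mul_pow (1 / 40 : ℝ)]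
        ring
    _ = _ := by
        rw [← pow_add, Nat.sub_add_cancel hJg.le]

/-- The error of the rounding. -/
theorem error_small (hJg : J < g) (hJ4 : 4 ≤ J) {τ : ℝ} (hτ0 : 0 ≤ τ)
    (hτ : J * (2 * τ) ≤ 1 / 4000)
    {E : Finset ℕ} (hE1 : ∀ j ∈ E, 0 < j) (hE : ∀ j ∈ E, (ex a lam j : ℝ) = a * ht lam j) :
    ∑ k : Fin g, (if (k : ℕ) + J < g ∨ g - (k : ℕ) ∈ E then 2 / sg q p a lam (g - k)
      else 2 * τ) ≤ 1 / 1000 := by
  rw [Fin.sum_univ_eq_sum_range (fun k => if k + J < g ∨ g - k ∈ E then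
    2 / sg q p a lam (g - k) else 2 * τ) g,
    ← Finset.sum_range_add_sum_Ico _ (Nat.sub_le g J)]
  have h1 : ∑ k ∈ Finset.range (g - J), (if k + J < g ∨ g - k ∈ E then
      2 / sg q p a lam (g - k) else 2 * τ) ≤ 2 / 65536 := by
    have h2 : ∀ k ∈ Finset.range (g - J), (if k + J < g ∨ g - k ∈ E then
        2 / sg q p a lam (g - k) else 2 * τ) ≤ 2 / 65536 * (1 / 4) ^ (g - k) := by
      intro k hk
      have hk' := Finset.mem_range.1 hk
      rw [if_pos (Or.inl (by omega))]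
      have h64 := sg_ge64 hp ha hq hs hμ hht hq64 hJ (show J ≤ g - k by omega) (Nat.sub_le g k)
      have h0 := sg_pos (lam := lam) hp ha hq (g - k)
      rw [_root_.one_div_pow, div_mul_div_comm, mul_one]
      refine div_le_div_of_nonneg_left (by norm_num) (by positivity) (le_trans ?_ h64)
      calc (65536 : ℝ) * 4 ^ (g - k) = 16 ^ 4 * 4 ^ (g - k) := by norm_num
        _ ≤ 16 ^ (g - k) * 4 ^ (g - k) :=
            mul_le_mul_of_nonneg_right (pow_le_pow_right₀ (by norm_num) (by omega)) (by positivity)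
        _ = _ := by rw [← mul_pow]; norm_num
    refine (Finset.sum_le_sum h2).trans ?_
    rw [← Finset.mul_sum]
    have h3 : ∑ x ∈ Finset.range (g - J), (1 / 4 : ℝ) ^ (g - x) ≤ 1 :=
      (Finset.sum_le_sum_of_subset_of_nonneg (Finset.range_subset_range.2 (Nat.sub_le g J))
        fun _ _ _ => by positivity).trans (geom_rev (1 / 4) (by norm_num) (by norm_num) g)
    linarith
  have h2 : ∑ k ∈ Finset.Ico (g - J) g, (if k + J < g ∨ g - k ∈ E then
      2 / sg q p a lam (g - k) else 2 * τ) ≤ 1 / 4000 + 2 / 4095 := by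
    have h3 : ∀ k ∈ Finset.Ico (g - J) g, (if k + J < g ∨ g - k ∈ E then
        2 / sg q p a lam (g - k) else 2 * τ) ≤ 2 * τ + 2 * (1 / 4096) ^ (g - k) := by
      intro k hk
      have hk' := Finset.mem_Ico.1 hk
      split_ifs with h4
      · have h5 : g - k ∈ E := h4.resolve_left (by omega)
        have h6 := sg_int hp ha hq hs hμ hht hq64 hJ (Nat.sub_le g k) (hE _ h5)
        have h7 : 2 / sg q p a lam (g - k) ≤ 2 * (1 / 4096) ^ (g - k) := by
          rw [_root_.one_div_pow, mul_one_div]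
          exact div_le_div_of_nonneg_left (by norm_num) (by positivity) h6
        linarith
      · have : (0 : ℝ) ≤ 2 * (1 / 4096) ^ (g - k) := by positivity
        linarith
    refine (Finset.sum_le_sum h3).trans ?_
    rw [Finset.sum_add_distrib, Finset.sum_const, Nat.card_Ico, nsmul_eq_mul,
      show g - (g - J) = J by omega, ← Finset.mul_sum]
    have h4 : ∑ x ∈ Finset.Ico (g - J) g, (1 / 4096 : ℝ) ^ (g - x) ≤ 1 / 4095 := by
      refine (Finset.sum_le_sum_of_subset_of_nonneg (t := Finset.range g) ?_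
        fun _ _ _ => by positivity).trans ?_
      · intro x hx
        exact Finset.mem_range.2 (Finset.mem_Ico.1 hx).2
      · refine (geom_rev' (1 / 4096) (by norm_num) (by norm_num) g).trans (by norm_num)
    linarith
  linarith

end

/-- **The cover is small.** -/
theorem cover_small' {μ ε : ℝ} (hμ : 0 < μ) (hμ1 : μ ≤ 1 / 2) (hε : 0 < ε) :
    ∀ᶠ g : ℕ in atTop, ∀ p a q : ℕ, p.Prime → 0 < a → q = p ^ a → ∀ lam : ℕ → ℝ, Slopes lam →
    ht lam g ≤ (1 / 2 - μ) * g → 64 ≤ (q : ℝ) ^ (μ / 2) →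
    ∀ E : Finset ℕ, (∀ j ∈ E, 0 < j) → (∀ j ∈ E, j ≤ g) →
    (∀ j ∈ E, (ex a lam j : ℝ) = a * ht lam j) →
    ∃ (Λ₀ : Finset (Fin (g + 1) → ℤ)) (𝒯 : (Fin (g + 1) → ℤ) → ℕ → Finset ℤ[X]),
      (∀ z ∈ Λ₀, Chain (len3 (1 / 40) q g (dd p a lam g)) g (𝒯 z)) ∧ (∀ z ∈ Λ₀, 𝒯 z g = {1}) ∧
      (∀ B : ℤ[X], sc (dd p a lam g) B ∈ realWeil q g → ∃ z ∈ Λ₀, B ∈ 𝒯 z 0) ∧
      ((Pool.Agent.J4H9.Pair.uni Λ₀ 𝒯).card : ℝ) ≤
        8 ^ g * (q : ℝ) ^ (ε * g) * (2 ^ E.card * ((WE q p a lam g E).ncard : ℝ)) := by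
  obtain ⟨J, hJ⟩ := exists_nat_ge (2 / μ)
  have hJ4 : 4 ≤ J := by
    have h1 : (4 : ℝ) ≤ 2 / μ := by
      rw [le_div_iff₀ hμ]
      linarith
    exact_mod_cast h1.trans hJ
  have hJR : (4 : ℝ) ≤ J := by exact_mod_cast hJ4
  set τ : ℝ := 1 / (8000 * J) with hτdef
  have hτ0 : 0 < τ := by positivity
  have hτ1 : τ ≤ 1 / 32000 := by
    rw [hτdef]
    exact div_le_div_of_nonneg_left (by norm_num) (by norm_num) (by linarith)
  have hτJ : J * (2 * τ) ≤ 1 / 4000 := by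
    rw [hτdef]
    field_simp
    norm_num
  -- the constant
  obtain ⟨m₀, hm₀⟩ : ∃ m₀ : ℕ, 2 * (1 + 40 * (J : ℝ)) ^ J ≤ 2 ^ m₀ := by
    obtain ⟨m₀, hm₀⟩ := pow_unbounded_of_one_lt (2 * (1 + 40 * (J : ℝ)) ^ J) (show (1 : ℝ) < 2 by norm_num)
    exact ⟨m₀, hm₀.le⟩
  obtain ⟨n₀, hn₀⟩ := exists_nat_ge (((J * J + m₀ : ℕ) : ℝ) / ε)
  filter_upwards [numeric, conc J hτ0 (by linarith), eventually_gt_atTop (J + 2),
    eventually_ge_atTop n₀] with g hnum hconc hg1 hg3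
  intro p a q hp ha hq lam hs hht hq64 E hE1 hE2 hE3
  have hE4 : ∀ j ∈ E, 2 ≤ sg q p a lam j := by
    intro j hj
    refine le_trans ?_ (sg_int hp ha hq hs hμ hht hq64 hJ (hE2 j hj) (hE3 j hj))
    calc (2 : ℝ) ≤ 4096 ^ 1 := by norm_num
      _ ≤ 4096 ^ j := pow_le_pow_right₀ (by norm_num) (hE1 j hj)
  have hq0 : 0 < q := q_pos hp ha hq
  have hqR : (0 : ℝ) < q := by exact_mod_cast hq0
  have hq2 : (2 : ℝ) ≤ q := by exact_mod_cast q_ge hp ha hq
  have hg0 : 0 < g := by omega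
  have hg2 : 2 ≤ g := by omega
  have hJg : J < g := by omega
  have hgR : (2 : ℝ) ≤ g := by exact_mod_cast hg2
  obtain ⟨Λ₀, 𝒯, hc, htop, hcov, hcard⟩ := cover_cells' hq0 hg2 (w := 1 / 40) (by norm_num)
    (dd_ne (a := a) (lam := lam) (g := g) hp) dd_top
  refine ⟨Λ₀, 𝒯, hc, htop, hcov, ?_⟩
  -- the constant
  set Q : ℝ := ((q : ℝ) ^ J * (1 + 40 * J)) ^ J with hQ
  have hQ0 : 0 < Q := by positivity
  have hQle : 2 * Q ≤ (q : ℝ) ^ (ε * g) := by
    have h1 : ((J * J + m₀ : ℕ) : ℝ) ≤ ε * g := by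
      have h2 : (n₀ : ℝ) ≤ g := by exact_mod_cast hg3
      have h3 := hn₀.trans h2
      rw [div_le_iff₀ hε] at h3
      linarith
    calc 2 * Q = (q : ℝ) ^ (J * J) * (2 * (1 + 40 * (J : ℝ)) ^ J) := by
          rw [hQ, mul_pow, ← pow_mul]
          ring
      _ ≤ (q : ℝ) ^ (J * J) * (q : ℝ) ^ m₀ := by
          refine mul_le_mul_of_nonneg_left (hm₀.trans ?_) (by positivity)
          exact pow_le_pow_left₀ (by norm_num) hq2 m₀
      _ = (q : ℝ) ^ ((J * J + m₀ : ℕ) : ℝ) := by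
          rw [← pow_add, Real.rpow_natCast]
      _ ≤ _ := Real.rpow_le_rpow_of_exponent_le (by linarith) h1
  -- the error of the rounding
  set t : ℝ := 1 / 1000 with ht
  have ht0 : 0 ≤ t := by norm_num
  have ht1 : t ≤ 1 / 1000 := le_rfl
  have ht2 : ((g : ℝ) + 1) * t < 2 * g := by
    rw [ht]
    linarith
  have herr := error_small hp ha hq hs hμ hht hq64 hJ hJg hJ4 hτ0.le hτJ hE1 hE3
  have hlow := WE_lower (lam := lam) hp ha hq hJg hE1 hE2 hE4 hτ0.le (by linarith) ht0 herr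
  have hcc := hconc t ht0 ht2
  set O : ℝ := 2 ^ E.card * ((WE q p a lam g E).ncard : ℝ) with hO
  have hO0 : 0 ≤ O := by positivity
  set DA : ℝ := |(matA (g + 1)).det| with hDA
  set DB : ℝ := |(matB g).det| with hDB
  have hDB0 : 0 < DB := det_pos hg0
  have hf1 : (0 : ℝ) < ((g + 1).factorial : ℝ) := by exact_mod_cast (g + 1).factorial_pos
  have hf2 : (0 : ℝ) < (g.factorial : ℝ) := by exact_mod_cast g.factorial_pos
  have hDA0 : 0 < DA := by
    rw [hDA, abs_det_matA (Nat.succ_pos g)]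
    positivity
  have hD : DB * ((g + 1).factorial : ℝ) ≤ 3 * 2 ^ g * DA * ((g : ℝ) + 1) ^ (g + 1) := det_comp hg0
  have hPi : 0 < PiJ q p a lam g J := Finset.prod_pos fun k _ => sg_pos hp ha hq _
  set Pj : ℝ := PiJ q p a lam g J with hPj
  have hT : 0 < 2 * (g : ℝ) - (g + 1) * t := by linarith
  -- the lower bound
  have h3 : Pj * (2 * (g : ℝ) - (g + 1) * t) ^ (g + 1) ≤ 4 * O * DB * ((g + 1).factorial : ℝ) := by
    have h4 : ENNReal.ofReal Pj * volume (reg g t) ≤ 2 * ENNReal.ofReal O := by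
      calc ENNReal.ofReal Pj * volume (reg g t) ≤ ENNReal.ofReal Pj * (2 * volume (regJ g t J τ)) := by
            gcongr
        _ = 2 * (ENNReal.ofReal Pj * volume (regJ g t J τ)) := by ring
        _ ≤ _ := by gcongr
    have e2 : (2 : ENNReal) = ENNReal.ofReal 2 := by simp
    rw [vol_reg hg0 ht2, e2, ← ENNReal.ofReal_mul hPi.le, ← ENNReal.ofReal_mul (by norm_num),
      ENNReal.ofReal_le_ofReal_iff (by positivity)] at h4
    have h5 : Pj * (DB⁻¹ * ((2 * (g : ℝ) - (g + 1) * t) ^ (g + 1) /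
        ((g + 1).factorial : ℝ))) * (DB * ((g + 1).factorial : ℝ)) ≤
        2 * O * (DB * ((g + 1).factorial : ℝ)) :=
      mul_le_mul_of_nonneg_right h4 (by positivity)
    calc Pj * (2 * (g : ℝ) - (g + 1) * t) ^ (g + 1) =
        Pj * (DB⁻¹ * ((2 * (g : ℝ) - (g + 1) * t) ^ (g + 1) /
        ((g + 1).factorial : ℝ))) * (DB * ((g + 1).factorial : ℝ)) := by field_simp
      _ ≤ _ := h5
      _ ≤ 4 * O * (DB * ((g + 1).factorial : ℝ)) :=
        mul_le_mul_of_nonneg_right (by linarith) (by positivity)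
      _ = _ := by ring
  -- the number of the cells
  have h1 : (Λ₀.card : ℝ) * (1 / 40) ^ (g + 1) * DA * ((g + 1).factorial : ℝ) ≤
      (((g : ℝ) + 1) ^ 2 * (1 + 1 / 40)) ^ (g + 1) := by
    rw [le_div_iff₀ hf1] at hcard
    exact hcard
  -- the product of the lengths
  set P : ℝ := ∏ j ∈ Finset.range g, (len3 (1 / 40) q g (dd p a lam g) j : ℝ) with hP
  have hP0 : 0 ≤ P := Finset.prod_nonneg fun j _ => Nat.cast_nonneg _
  have h2 : P * (g.factorial : ℝ) ≤ 3 * ((1 / 40) ^ g * (Pj * Q)) :=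
    prod_len3 hp ha hq hs hμ hht hq64 hJ hJg hJ4
  have hcardU : ((Pool.Agent.J4H9.Pair.uni Λ₀ 𝒯).card : ℝ) = (Λ₀.card : ℝ) * P := by
    rw [Finset.card_sigma]
    have h4 : ∀ z ∈ Λ₀, (𝒯 z 0).card = ∏ j ∈ Finset.range g, len3 (1 / 40) q g (dd p a lam g) j := by
      intro z hz
      have h5 := (hc z hz).card g le_rfl
      rw [htop z hz, Finset.card_singleton, mul_one] at h5
      exact h5
    rw [Finset.sum_congr rfl h4, Finset.sum_const, smul_eq_mul, hP]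
    push_cast
    rfl
  rw [hcardU]
  have hn := hnum t ht0 ht1
  set T : ℝ := (2 * (g : ℝ) - (g + 1) * t) ^ (g + 1) with hTdef
  have hT0 : 0 < T := by positivity
  set c : ℝ := (Λ₀.card : ℝ) with hcdef
  have hc0 : 0 ≤ c := Nat.cast_nonneg _
  set f1 : ℝ := ((g + 1).factorial : ℝ) with hf1def
  set f2 : ℝ := (g.factorial : ℝ) with hf2def
  set A : ℝ := (((g : ℝ) + 1) ^ 2 * (1 + 1 / 40)) ^ (g + 1) with hA
  have hA0 : 0 < A := by positivity
  have hAeq : A * ((g : ℝ) + 1) ^ (g + 1) =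
      ((g : ℝ) + 1) ^ (3 * (g + 1)) * (1 + 1 / 40) ^ (g + 1) := by
    rw [hA, mul_pow, ← pow_mul, mul_right_comm, ← pow_add]
    congr 2
    ring
  have key : c * P ≤ 8 ^ g * (2 * Q) * O := by
    have hpos : 0 < (1 / 40 : ℝ) ^ (g + 1) * DA * f1 * f2 * T := by positivity
    refine le_of_mul_le_mul_right ?_ hpos
    calc c * P * ((1 / 40 : ℝ) ^ (g + 1) * DA * f1 * f2 * T) =
        (c * (1 / 40) ^ (g + 1) * DA * f1) * ((P * f2) * T) := by ring
      _ ≤ A * ((3 * ((1 / 40) ^ g * (Pj * Q))) * T) := by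
          refine mul_le_mul h1 (mul_le_mul_of_nonneg_right h2 hT0.le) (by positivity) hA0.le
      _ = (3 * A * (1 / 40) ^ g * Q) * (Pj * T) := by ring
      _ ≤ (3 * A * (1 / 40) ^ g * Q) * (4 * O * DB * f1) :=
          mul_le_mul_of_nonneg_left h3 (by positivity)
      _ = (12 * A * (1 / 40) ^ g * Q * O) * (DB * f1) := by ring
      _ ≤ (12 * A * (1 / 40) ^ g * Q * O) * (3 * 2 ^ g * DA * ((g : ℝ) + 1) ^ (g + 1)) :=
          mul_le_mul_of_nonneg_left hD (by positivity)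
      _ = (2 * Q * O * (1 / 40) ^ g * DA) * (18 * 2 ^ g * (A * ((g : ℝ) + 1) ^ (g + 1))) := by ring
      _ = (2 * Q * O * (1 / 40) ^ g * DA) * (18 * 2 ^ g * ((g : ℝ) + 1) ^ (3 * (g + 1)) *
            (1 + 1 / 40) ^ (g + 1)) := by
          rw [hAeq]
          ring
      _ ≤ (2 * Q * O * (1 / 40) ^ g * DA) * (8 ^ g * (1 / 40) * f1 * f2 * T) :=
          mul_le_mul_of_nonneg_left hn (by positivity)
      _ = 8 ^ g * (2 * Q) * O * ((1 / 40 : ℝ) ^ (g + 1) * DA * f1 * f2 * T) := by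
          rw [pow_succ (1 / 40 : ℝ) g]
          ring
  refine key.trans ?_
  refine mul_le_mul_of_nonneg_right ?_ hO0
  exact mul_le_mul_of_nonneg_left hQle (by positivity)

end Pool.Agent.J4H9.NAsym
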