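import Mathlib
import Pool.Agent.J4H9.AllW

/-!
# The Weil polynomial of an irreducible polynomial is irreducible
-/

set_option autoImplicit false

namespace Pool.Agent.J4H9.NIrr

open Polynomial Filter IntermediateField Pool.Agent.W521.Frob Pool.Agent.W521.Descent
  Pool.Agent.W521.Lower Pool.Agent.W521.Count

/-- The Weil polynomial of an irreducible polynomial of large degree has no real root. -/
theorem no_real {q g : ℕ} (hq : 0 < q) {h : ℤ[X]} (hm : h.Monic) (hd : h.natDegree = g) (hg : 3 ≤ g)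
    (hirr : Irreducible (h.map (Int.castRingHom ℚ)))
    (hW : ∀ z : ℂ, aeval z (weil q h) = 0 → ‖z‖ ^ 2 = q) (x : ℝ) : aeval x (weil q h) ≠ 0 := by
  intro hx
  have hqR : (0 : ℝ) < q := by exact_mod_cast hq
  have hx2 : x ^ 2 = q := by
    have h1 : aeval (x : ℂ) (weil q h) = 0 := by
      have h2 := aeval_algebraMap_apply ℂ x (weil q h)
      rw [hx, map_zero] at h2
      exact h2
    have h3 := hW x h1
    rw [Complex.norm_real, Real.norm_eq_abs, sq_abs] at h3
    exact h3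
  have hx0 : x ≠ 0 := by
    rintro rfl
    rw [zero_pow two_ne_zero] at hx2
    linarith
  have hqx : (q : ℝ) / x = x := by
    rw [← hx2]
    field_simp
  have h1 := aeval_weil q h x (x + q / x) (by field_simp)
  rw [hx, hqx] at h1
  have h2 : aeval (x + x) h = 0 := by
    have h3 : x ^ h.natDegree ≠ 0 := pow_ne_zero _ hx0
    exact (mul_eq_zero.1 h1.symm).resolve_left h3
  -- the quadratic polynomial
  set Q : ℚ[X] := X ^ 2 - C (4 * (q : ℚ)) with hQ
  have hQ0 : aeval (x + x) Q = 0 := by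
    rw [hQ, map_sub, map_pow, aeval_X, aeval_C]
    have : (algebraMap ℚ ℝ) (4 * (q : ℚ)) = 4 * q := by
      simp
    rw [this, ← hx2]
    ring
  have hh0 : aeval (x + x) (h.map (Int.castRingHom ℚ)) = 0 := by
    have e : (Int.castRingHom ℚ) = algebraMap ℤ ℚ := rfl
    rw [e, aeval_map_algebraMap]
    exact h2
  have hmQ : (h.map (Int.castRingHom ℚ)).Monic := hm.map _
  have h4 := minpoly.eq_of_irreducible_of_monic hirr hh0 hmQ
  have h5 : minpoly ℚ (x + x) ∣ Q := minpoly.dvd ℚ _ hQ0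
  rw [← h4] at h5
  have hQm : Q.Monic := monic_X_pow_sub_C _ two_ne_zero
  have h6 := natDegree_le_of_dvd h5 hQm.ne_zero
  rw [hm.natDegree_map, hd, hQ, natDegree_X_pow_sub_C] at h6
  omega

theorem irreducible_weil {q g : ℕ} (hq : 0 < q) {h : ℤ[X]} (hm : h.Monic) (hd : h.natDegree = g)
    (hg : 3 ≤ g) (hirr : Irreducible (h.map (Int.castRingHom ℚ)))
    (hW : ∀ z : ℂ, aeval z (weil q h) = 0 → ‖z‖ ^ 2 = q) :
    Irreducible ((weil q h).map (Int.castRingHom ℚ)) := by
  have hqC : (q : ℂ) ≠ 0 := by exact_mod_cast hq.ne'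
  have hwm : (weil q h).Monic := weil_monic q hm
  have hwd : (weil q h).natDegree = 2 * g := by rw [weil_natDegree q hm, hd]
  obtain ⟨α, hα⟩ : ∃ α : ℂ, aeval α (weil q h) = 0 := by
    obtain ⟨α, h1⟩ := IsAlgClosed.exists_aeval_eq_zero ℂ ((weil q h).map (Int.castRingHom ℚ)) (by
      rw [hwm.degree_map, degree_eq_natDegree hwm.ne_zero, hwd]
      intro h2
      have : 2 * g = 0 := by exact_mod_cast h2
      omega)
    refine ⟨α, ?_⟩
    have e : (Int.castRingHom ℚ) = algebraMap ℤ ℚ := rfl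
    rwa [e, aeval_map_algebraMap] at h1
  have hα0 : α ≠ 0 := by
    rintro rfl
    have h1 := hW 0 hα
    rw [norm_zero, zero_pow two_ne_zero] at h1
    have : (0 : ℝ) < q := by exact_mod_cast hq
    linarith
  set β : ℂ := α + q / α with hβ
  have hβ0 : aeval β h = 0 := by
    have h1 := aeval_weil q h α β (by rw [hβ]; field_simp)
    rw [hα] at h1
    exact (mul_eq_zero.1 h1.symm).resolve_left (pow_ne_zero _ hα0)
  have hconj : (q : ℂ) / α = (starRingEnd ℂ) α := by
    have h1 : α * (starRingEnd ℂ) α = q := by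
      rw [Complex.mul_conj, Complex.normSq_eq_norm_sq, hW α hα]
      simp
    rw [← h1]
    field_simp
  have hβre : β = ((2 * α.re : ℝ) : ℂ) := by
    rw [hβ, hconj, Complex.add_conj]
  have e : (Int.castRingHom ℚ) = algebraMap ℤ ℚ := rfl
  -- the degrees
  have hβ1 : aeval β (h.map (Int.castRingHom ℚ)) = 0 := by
    rw [e, aeval_map_algebraMap]
    exact hβ0
  have hβm : minpoly ℚ β = h.map (Int.castRingHom ℚ) :=
    (minpoly.eq_of_irreducible_of_monic hirr hβ1 (hm.map _)).symm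
  have hα1 : aeval α ((weil q h).map (Int.castRingHom ℚ)) = 0 := by
    rw [e, aeval_map_algebraMap]
    exact hα
  have hαi : IsIntegral ℚ α := ⟨_, hwm.map _, by rwa [← aeval_def]⟩
  have hβi : IsIntegral ℚ β := ⟨_, hm.map _, by rwa [← aeval_def]⟩
  have hdvd : minpoly ℚ α ∣ (weil q h).map (Int.castRingHom ℚ) := minpoly.dvd ℚ α hα1
  have hfα : Module.finrank ℚ ℚ⟮α⟯ = (minpoly ℚ α).natDegree := adjoin.finrank hαi
  have hfβ : Module.finrank ℚ ℚ⟮β⟯ = g := by
    rw [adjoin.finrank hβi, hβm, hm.natDegree_map, hd]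
  have : FiniteDimensional ℚ ℚ⟮α⟯ := adjoin.finiteDimensional hαi
  have : FiniteDimensional ℚ ℚ⟮β⟯ := adjoin.finiteDimensional hβi
  have hle : ℚ⟮β⟯ ≤ ℚ⟮α⟯ := by
    rw [adjoin_simple_le_iff]
    have h1 : α ∈ ℚ⟮α⟯ := mem_adjoin_simple_self ℚ α
    exact add_mem h1 (div_mem (_root_.natCast_mem _ q) h1)
  have hne : ℚ⟮β⟯ ≠ ℚ⟮α⟯ := by
    intro h1
    have h2 : α ∈ ℚ⟮β⟯ := h1 ▸ mem_adjoin_simple_self ℚ α
    have h3 : ℚ⟮β⟯ ≤ (IsScalarTower.toAlgHom ℚ ℝ ℂ).fieldRange := by
      rw [adjoin_simple_le_iff]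
      exact ⟨2 * α.re, hβre.symm⟩
    obtain ⟨x, hx⟩ := h3 h2
    have hx : (x : ℂ) = α := hx
    refine no_real hq hm hd hg hirr hW x ?_
    have h4 := aeval_algebraMap_apply ℂ x (weil q h)
    have h5 : (algebraMap ℝ ℂ) x = α := hx
    rw [h5, hα] at h4
    exact (map_eq_zero (algebraMap ℝ ℂ)).1 h4.symm
  have hdiv : g ∣ (minpoly ℚ α).natDegree := by
    rw [← hfα, ← hfβ]
    exact finrank_dvd_of_le_right hle
  have hlt : g < (minpoly ℚ α).natDegree := by
    rw [← hfα, ← hfβ]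
    by_contra h1
    exact hne (eq_of_le_of_finrank_le hle (not_lt.1 h1))
  have hle2 : (minpoly ℚ α).natDegree ≤ 2 * g := by
    have h1 := natDegree_le_of_dvd hdvd (hwm.map _).ne_zero
    rwa [hwm.natDegree_map, hwd] at h1
  have hdeg : (minpoly ℚ α).natDegree = 2 * g := by
    obtain ⟨k, hk⟩ := hdiv
    rw [hk] at hlt hle2 ⊢
    have h1 : 1 < k := by
      by_contra h2
      have : k ≤ 1 := not_lt.1 h2
      have : g * k ≤ g * 1 := Nat.mul_le_mul_left g this
      omega
    have h2 : g * 2 ≤ g * k := Nat.mul_le_mul_left g h1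
    omega
  have heq : (weil q h).map (Int.castRingHom ℚ) = minpoly ℚ α := by
    refine (eq_of_monic_of_dvd_of_natDegree_le (minpoly.monic hαi) (hwm.map _) hdvd ?_)
    rw [hwm.natDegree_map, hwd, hdeg]
  rw [heq]
  exact minpoly.irreducible hαi

end Pool.Agent.J4H9.NIrr
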