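import Mathlib
import Pool.Agent.J4H9.NTuples
import Pool.Agent.J4H9.NAsym
import Pool.Agent.J4H9.AllW
import Pool.Agent.J4H9.NIrr

/-!
# All Weil polynomials with a given lower bound for the Newton polygon
-/

set_option autoImplicit false

namespace Pool.Agent.J4H9.NAll

open Polynomial Filter Pool.Agent.W521.Frob Pool.Agent.W521.Descent Pool.Agent.W521.Lower
  Pool.Agent.W521.Count Pool.Agent.J4H9.Ch Pool.Agent.J4H9.Cover Pool.Agent.J4H9.Size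
  Pool.Agent.J4H9.Alg Pool.Agent.J4H9.Stm Pool.Agent.J4H9.Final Pool.Agent.J4H9.NGauss
  Pool.Agent.J4H9.NSize Pool.Agent.J4H9.NScale Pool.Agent.J4H9.NCone Pool.Agent.J4H9.NCover

/-- The `f i` are the Weil polynomials of a family of polynomials with the factorisation patterns
for a prime number `r` greater than `g / 2` and greater than `b`. -/
def FamOK {I : Type} (q g b : ℕ) (f : I → ℤ[X]) : Prop :=
  ∃ (r : ℕ) (h : I → ℤ[X]), r.Prime ∧ r ≠ 2 ∧ g < 2 * r ∧ b < r ∧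
    (∀ i, (h i).Monic ∧ (h i).natDegree = g) ∧ GoodFam q r h ∧
    (∀ i, ∀ z : ℂ, aeval z (weil q (h i)) = 0 → ‖z‖ ^ 2 = q) ∧ f = fun i => weil q (h i)

theorem holds_of_fam {I : Type} [Fintype I] {q g b : ℕ} (hq : 0 < q) {f : I → ℤ[X]}
    (h : FamOK q g b f) : Holds q b f := by
  obtain ⟨r, h, hr, hr2, hgr, hbr, h8, hgood, hn, rfl⟩ := h
  exact holds_of_good (r := r) (g := g) hq.ne' (fun i => (h8 i).1) (fun i => (h8 i).2.le) hr hr2
    hgr hbr hgood hn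

theorem irreducible_of_fam {I : Type} {q g b : ℕ} (hq : 0 < q) (hg : 3 ≤ g) {f : I → ℤ[X]}
    (h : FamOK q g b f) (i : I) : Irreducible ((f i).map (Int.castRingHom ℚ)) := by
  obtain ⟨r, h, hr, hr2, hgr, hbr, h8, hgood, hn, rfl⟩ := h
  exact NIrr.irreducible_weil hq (h8 i).1 (h8 i).2 hg (hgood.1 i) (hn i)

theorem fam_empty {I : Type} [IsEmpty I] (q g b : ℕ) (f : I → ℤ[X]) : FamOK q g b f := by
  obtain ⟨r, hr1, hr2⟩ := Nat.exists_infinite_primes (g + b + 3)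
  refine ⟨r, fun i => isEmptyElim i, hr2, by omega, by omega, by omega, fun i => isEmptyElim i,
    ⟨fun i => isEmptyElim i, fun i => isEmptyElim i, fun i => isEmptyElim i⟩,
    fun i => isEmptyElim i, funext fun i => isEmptyElim i⟩

/-- A member of the stratum comes from a polynomial with divisible coefficients. -/
theorem exists_B {p a q g : ℕ} {lam : ℕ → ℝ} (hq0 : q ≠ 0) (hq : q = p ^ a) (hs : Slopes lam)
    {f : ℤ[X]} (hf : f ∈ W q p a lam g) :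
    ∃ B : ℤ[X], sc (dd p a lam g) B ∈ strat q p a lam g ∧ weil q (sc (dd p a lam g) B) = f := by
  obtain ⟨h, h1, h2, h3⟩ := exists_real hq0 hf.1
  have h4 : h ∈ strat q p a lam g := by
    refine ⟨⟨h1, h2, by rw [← h3]; exact hf.1⟩, ?_⟩
    refine weil_dvd (p := p) (a := a) h2 (fun j i hij => ex_le hs a hij) ?_
    rw [← hq, ← h3]
    exact hf.2
  obtain ⟨B, hB⟩ := exists_sc_strat h4
  exact ⟨B, by rw [hB]; exact h4, by rw [hB, ← h3]⟩

open Classical in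
/-- The main bound for sets of Weil polynomials. -/
theorem transfer' {κ μ δ ε : ℝ} (hκ : 1 / 2 ≤ κ) (hκ1 : κ < 1) (hμ : 0 < μ) (hμ1 : μ ≤ 1 / 2)
    (hδ : 0 ≤ δ) (hδ1 : δ ≤ μ ^ 2 / 16) (hε : 0 < ε) (hε1 : δ / 2 + ε < μ * (1 - κ) / 2) :
    ∀ᶠ g : ℕ in atTop, ∀ p a q : ℕ, p.Prime → 0 < a → q = p ^ a → ∀ lam : ℕ → ℝ,
    Slopes lam → ht lam g ≤ (1 / 2 - μ) * g →
    ∀ (Λ : Type) (Λ₀ : Finset Λ) (M : Λ → ℕ → ℕ) (𝒯 : Λ → ℕ → Finset ℤ[X]),
    (∀ i ∈ Λ₀, Chain (M i) g (𝒯 i)) → (∀ i ∈ Λ₀, 𝒯 i g = {1}) →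
    (∀ i ∈ Λ₀, ∀ k < g, sg q p a lam (g - k) ≤ (q : ℝ) ^ (δ * g) * M i k) →
    (∀ B : ℤ[X], sc (dd p a lam g) B ∈ realWeil q g → ∃ i ∈ Λ₀, B ∈ 𝒯 i 0) →
    ∀ (K : ℝ), 1 ≤ K → ∀ S : Set ℤ[X], S ⊆ W q p a lam g →
    ((Pair.uni Λ₀ 𝒯).card : ℝ) ≤ K * S.ncard → ∀ m : ℕ,
    ({f : Fin m → ℤ[X] | (∀ i, f i ∈ S) ∧ ¬ FamOK q g ⌊κ * g⌋₊ f}.ncard : ℝ) ≤
      ((m : ℝ) ^ 2 * K * (q : ℝ) ^ (-((μ * (1 - κ) / 2 - δ / 2 - ε) * g))) *
        (S.ncard : ℝ) ^ m := by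
  filter_upwards [NTuples.main' hκ hκ1 hμ hμ1 hδ hδ1 hε hε1, eventually_ge_atTop 3] with g hmain hg3
  obtain ⟨r, hr, hr2, hκr, hgr, H⟩ := hmain
  intro p a q hp ha hq lam hs hht Λ Λ₀ M 𝒯 hc htop hM hcov K hK S hSW hKS m
  have hq0 : q ≠ 0 := (q_pos hp ha hq).ne'
  set d : ℕ → ℤ := dd p a lam g with hd
  have hd0 : ∀ k, d k ≠ 0 := dd_ne hp
  have hdg : d g = 1 := dd_top
  have hbr : ⌊κ * g⌋₊ < r := by
    have h1 := Nat.floor_le (show 0 ≤ κ * (g : ℝ) by positivity)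
    have h2 : ((⌊κ * (g : ℝ)⌋₊ : ℕ) : ℝ) < r := lt_of_le_of_lt h1 hκr
    exact_mod_cast h2
  have hmon : ∀ i ∈ Λ₀, ∀ B ∈ 𝒯 i 0, (sc d B).Monic ∧ (sc d B).natDegree = g := fun i hi B hB => by
    have := monic_of_chain (hc i hi) (htop i hi) 0 (Nat.zero_le _) B hB
    exact (monic_sc hd0 hdg).1 ⟨this.1, by omega⟩
  let S' : Finset ℤ[X] := (Λ₀.biUnion fun i => 𝒯 i 0).filter (fun B => weil q (sc d B) ∈ S)
  have hS' : ∀ B ∈ S', (∃ i ∈ Λ₀, B ∈ 𝒯 i 0) ∧ weil q (sc d B) ∈ S := by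
    intro B hB
    obtain ⟨h1, h2⟩ := Finset.mem_filter.1 hB
    obtain ⟨i, hi, h3⟩ := Finset.mem_biUnion.1 h1
    exact ⟨⟨i, hi, h3⟩, h2⟩
  have hmon' : ∀ B ∈ S', (sc d B).Monic ∧ (sc d B).natDegree = g := by
    intro B hB
    obtain ⟨⟨i, hi, h1⟩, -⟩ := hS' B hB
    exact hmon i hi B h1
  have himg : S = (fun B => weil q (sc d B)) '' (S' : Set ℤ[X]) := by
    ext f
    constructor
    · intro hf
      obtain ⟨B, h1, h2⟩ := exists_B hq0 hq hs (hSW hf)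
      obtain ⟨i, hi, h3⟩ := hcov B h1.1
      exact ⟨B, Finset.mem_coe.2 (Finset.mem_filter.2 ⟨Finset.mem_biUnion.2 ⟨i, hi, h3⟩,
        by rw [hd, h2]; exact hf⟩), h2⟩
    · rintro ⟨B, h1, rfl⟩
      exact (hS' B (Finset.mem_coe.1 h1)).2
  have hinj : Set.InjOn (fun B => weil q (sc d B)) (S' : Set ℤ[X]) := by
    intro B h1 B' h1' heq
    exact sc_injective hd0 (weil_injective hq0 (hmon' B (Finset.mem_coe.1 h1)).2
      (hmon' B' (Finset.mem_coe.1 h1')).2 heq)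
  have hcard : S.ncard = S'.card := by
    rw [himg, Set.InjOn.ncard_image hinj, Set.ncard_coe_finset]
  rw [hcard] at hKS ⊢
  have hS'W : ∀ B ∈ S', sc d B ∈ strat q p a lam g := by
    intro B hB
    have h1 := hSW (hS' B hB).2
    refine ⟨⟨(hmon' B hB).1, (hmon' B hB).2, h1.1⟩, ?_⟩
    intro j hj
    rw [coeff_sc]
    have h2 : d (g - j) = (p : ℤ) ^ ex a lam j := by
      rw [hd]
      unfold dd
      rw [show g - (g - j) = j by omega]
    rw [h2]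
    exact Dvd.intro _ rfl
  have key := H p a q hp ha hq lam hs hht Λ Λ₀ M 𝒯 hc htop hM K hK S'
    (fun B hB => (hS' B hB).1) hS'W hKS m
  refine le_trans ?_ key
  have hsub : {f : Fin m → ℤ[X] | (∀ i, f i ∈ S) ∧ ¬ FamOK q g ⌊κ * g⌋₊ f} ⊆
      (fun (B : Fin m → ℤ[X]) (i : Fin m) => weil q (sc d (B i))) ''
        (((Fintype.piFinset fun _ : Fin m => S').filter
      (fun B => ¬ GoodFam q r (fun i => sc d (B i))) : Finset (Fin m → ℤ[X])) :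
        Set (Fin m → ℤ[X])) := by
    rintro f ⟨h1, h2⟩
    have h3 : ∀ i, ∃ B ∈ S', weil q (sc d B) = f i := by
      intro i
      have h4 := h1 i
      rw [himg] at h4
      obtain ⟨B, h5, h6⟩ := h4
      exact ⟨B, Finset.mem_coe.1 h5, h6⟩
    choose B h4 h5 using h3
    have h6 : (fun i => weil q (sc d (B i))) = f := funext h5
    refine ⟨B, Finset.mem_coe.2 (Finset.mem_filter.2 ⟨Fintype.mem_piFinset.2 h4, ?_⟩), h6⟩
    intro hgood
    apply h2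
    rw [← h6]
    have h8 : ∀ i, (sc d (B i)).Monic ∧ (sc d (B i)).natDegree = g := fun i => hmon' (B i) (h4 i)
    exact ⟨r, fun i => sc d (B i), hr, hr2, hgr, hbr, h8, hgood,
      fun i z hz => (hS'W _ (h4 i)).1.2.2.2.2.2 z hz, rfl⟩
  have h1 : {f : Fin m → ℤ[X] | (∀ i, f i ∈ S) ∧ ¬ FamOK q g ⌊κ * g⌋₊ f}.ncard ≤
      ((Fintype.piFinset fun _ : Fin m => S').filter
        (fun B => ¬ GoodFam q r (fun i => sc d (B i)))).card := by
    refine (Set.ncard_le_ncard hsub ((Finset.finite_toSet _).image _)).trans ?_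
    refine (Set.ncard_image_le (Finset.finite_toSet _)).trans ?_
    rw [Set.ncard_coe_finset]
  exact_mod_cast h1

theorem le_len3 {p a q g j : ℕ} {lam : ℕ → ℝ} (hp : p.Prime) (ha : 0 < a) (hq : q = p ^ a)
    {E : ℝ} (hE : 40 * (g : ℝ) ≤ E) (hj : j < g) :
    sg q p a lam (g - j) ≤ E * (len3 (1 / 40) q g (dd p a lam g) j : ℝ) := by
  have h0 : (0 : ℝ) < (g - j : ℕ) := by
    have : 0 < g - j := by omega
    exact_mod_cast this
  have h1 : ((g - j : ℕ) : ℝ) ≤ g := by exact_mod_cast Nat.sub_le g j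
  have hsg := sg_pos (lam := lam) hp ha hq (g - j)
  have h2 := Nat.lt_floor_add_one (1 / 40 * sg q p a lam (g - j) / ((g - j : ℕ) : ℝ))
  have h3 : 1 / 40 * sg q p a lam (g - j) / ((g - j : ℕ) : ℝ) ≤
      (len3 (1 / 40) q g (dd p a lam g) j : ℝ) := by
    rw [NAsym.len3_eq hp]
    push_cast
    exact h2.le
  have hE0 : 0 ≤ E := by
    have : (0 : ℝ) ≤ g := Nat.cast_nonneg g
    linarith
  calc sg q p a lam (g - j) =
      (40 * ((g - j : ℕ) : ℝ)) * (1 / 40 * sg q p a lam (g - j) / ((g - j : ℕ) : ℝ)) := by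
        field_simp
    _ ≤ E * (1 / 40 * sg q p a lam (g - j) / ((g - j : ℕ) : ℝ)) :=
        mul_le_mul_of_nonneg_right (by linarith) (by positivity)
    _ ≤ _ := mul_le_mul_of_nonneg_left h3 hE0

/-- **All Weil polynomials with a given lower bound for the Newton polygon.** -/
theorem all' {κ μ ε : ℝ} (hκ : 1 / 2 ≤ κ) (hκ1 : κ < 1) (hμ : 0 < μ) (hμ1 : μ ≤ 1 / 2)
    (hε : 0 < ε) (hε1 : ε < μ * (1 - κ) / 2) :
    ∀ᶠ g : ℕ in atTop, ∀ p a q : ℕ, p.Prime → 0 < a → q = p ^ a → ∀ lam : ℕ → ℝ,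
    Slopes lam → ht lam g ≤ (1 / 2 - μ) * g →
    ∀ E : Finset ℕ, (∀ j ∈ E, 0 < j) → (∀ j ∈ E, j ≤ g) →
    (∀ j ∈ E, (ex a lam j : ℝ) = a * ht lam j) →
    ∀ (S : Set ℤ[X]) (D : ℝ), S ⊆ W q p a lam g → 1 ≤ D →
    ((WE q p a lam g E).ncard : ℝ) ≤ D * S.ncard → ∀ m : ℕ,
    ({f : Fin m → ℤ[X] | (∀ i, f i ∈ S) ∧ ¬ FamOK q g ⌊κ * g⌋₊ f}.ncard : ℝ) ≤
      (m : ℝ) ^ 2 * D * 2 ^ E.card * 8 ^ g *
        (q : ℝ) ^ (-((μ * (1 - κ) / 2 - ε) * g)) * (S.ncard : ℝ) ^ m := by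
  set δ : ℝ := min (μ ^ 2 / 16) (ε / 4) with hδdef
  have hδ : 0 < δ := lt_min (by positivity) (by positivity)
  have hδ1 : δ ≤ μ ^ 2 / 16 := min_le_left _ _
  have hδ2 : δ ≤ ε / 4 := min_le_right _ _
  filter_upwards [transfer' hκ hκ1 hμ hμ1 hδ.le hδ1 (show 0 < ε / 4 by linarith)
    (show δ / 2 + ε / 4 < μ * (1 - κ) / 2 by linarith), NAsym.cover_small' hμ hμ1
      (show 0 < ε / 4 by linarith),
    Engine.poly_le hδ 40 1] with g htr hcov hpoly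
  intro p a q hp ha hq lam hs hht E hE1 hE2 hE3 S D hSW hD hDS m
  have h2E : (1 : ℝ) ≤ 2 ^ E.card := one_le_pow₀ (by norm_num)
  have hq0 : 0 < q := q_pos hp ha hq
  have hq2 : (2 : ℝ) ≤ q := by exact_mod_cast q_ge hp ha hq
  have hq1 : (1 : ℝ) ≤ q := by linarith
  have hqR : (0 : ℝ) < q := by linarith
  have hSfin : S.Finite := (finite_W hq0.ne').subset hSW
  have hg0 : (0 : ℝ) ≤ g := Nat.cast_nonneg g
  rcases le_or_gt 64 ((q : ℝ) ^ (μ / 2)) with hq64 | hq64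
  · obtain ⟨Λ₀, 𝒯, hc, htop, hcv, hcard⟩ := hcov p a q hp ha hq lam hs hht hq64 E hE1 hE2 hE3
    have h8 : (1 : ℝ) ≤ 8 ^ g := one_le_pow₀ (by norm_num)
    have hqe : (1 : ℝ) ≤ (q : ℝ) ^ (ε / 4 * g) := Real.one_le_rpow hq1 (by positivity)
    have hE : 40 * (g : ℝ) ≤ (q : ℝ) ^ (δ * g) := by
      rw [pow_one] at hpoly
      exact hpoly.trans (Real.rpow_le_rpow (by norm_num) hq2 (by positivity))
    have hK : 1 ≤ D * 2 ^ E.card * (8 ^ g * (q : ℝ) ^ (ε / 4 * g)) := by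
      have h9 : (1 : ℝ) ≤ 8 ^ g * (q : ℝ) ^ (ε / 4 * g) := by nlinarith
      have h10 : (1 : ℝ) ≤ D * 2 ^ E.card := by nlinarith
      nlinarith
    have key := htr p a q hp ha hq lam hs hht (Fin (g + 1) → ℤ) Λ₀
      (fun _ => len3 (1 / 40) q g (dd p a lam g)) 𝒯 hc htop
      (fun _ _ k hk => le_len3 hp ha hq hE hk) hcv (D * 2 ^ E.card * (8 ^ g * (q : ℝ) ^ (ε / 4 * g)))
      hK S hSW (by
      refine hcard.trans ?_
      calc (8 : ℝ) ^ g * (q : ℝ) ^ (ε / 4 * g) * (2 ^ E.card * ((WE q p a lam g E).ncard : ℝ)) ≤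
          8 ^ g * (q : ℝ) ^ (ε / 4 * g) * (2 ^ E.card * (D * S.ncard)) :=
            mul_le_mul_of_nonneg_left (mul_le_mul_of_nonneg_left hDS (by positivity))
              (by positivity)
        _ = _ := by ring) m
    refine key.trans ?_
    refine mul_le_mul_of_nonneg_right ?_ (by positivity)
    have h1 : (q : ℝ) ^ (ε / 4 * g) * (q : ℝ) ^ (-((μ * (1 - κ) / 2 - δ / 2 - ε / 4) * g)) ≤
        (q : ℝ) ^ (-((μ * (1 - κ) / 2 - ε) * g)) := by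
      rw [← Real.rpow_add hqR]
      refine Real.rpow_le_rpow_of_exponent_le hq1 ?_
      nlinarith
    have hm2 : (0 : ℝ) ≤ (m : ℝ) ^ 2 * D * 2 ^ E.card * 8 ^ g := by
      have : 0 ≤ D := by linarith
      positivity
    calc (m : ℝ) ^ 2 * (D * 2 ^ E.card * (8 ^ g * (q : ℝ) ^ (ε / 4 * g))) *
        (q : ℝ) ^ (-((μ * (1 - κ) / 2 - δ / 2 - ε / 4) * g)) =
        ((m : ℝ) ^ 2 * D * 2 ^ E.card * 8 ^ g) * ((q : ℝ) ^ (ε / 4 * g) *
          (q : ℝ) ^ (-((μ * (1 - κ) / 2 - δ / 2 - ε / 4) * g))) := by ring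
      _ ≤ _ := mul_le_mul_of_nonneg_left h1 hm2
  · rcases Nat.eq_zero_or_pos m with hm | hm
    · subst hm
      have h2 : {f : Fin 0 → ℤ[X] | (∀ i, f i ∈ S) ∧ ¬ FamOK q g ⌊κ * g⌋₊ f} = ∅ := by
        ext f
        simp only [Set.mem_ofPred_eq, Set.mem_empty_iff_false, iff_false, not_and, not_not]
        exact fun _ => fam_empty q g _ f
      rw [h2, Set.ncard_empty]
      simp
    · refine (AllW.card_tuples_le hSfin m _).trans ?_
      have hm1 : (1 : ℝ) ≤ (m : ℝ) ^ 2 := by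
        have : (1 : ℝ) ≤ m := by exact_mod_cast hm
        exact one_le_pow₀ this
      have h1 : (1 : ℝ) ≤ 8 ^ g * (q : ℝ) ^ (-((μ * (1 - κ) / 2 - ε) * g)) := by
        rw [Real.rpow_neg hqR.le, ← div_eq_mul_inv, le_div_iff₀ (by positivity), one_mul]
        calc (q : ℝ) ^ ((μ * (1 - κ) / 2 - ε) * g) ≤ (q : ℝ) ^ (μ / 2 * (g / 2)) := by
              refine Real.rpow_le_rpow_of_exponent_le hq1 ?_
              have h3 : μ * (1 - κ) / 2 - ε ≤ μ / 4 := by nlinarith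
              have h4 := mul_le_mul_of_nonneg_right h3 hg0
              linarith
          _ = ((q : ℝ) ^ (μ / 2)) ^ ((g : ℝ) / 2) := Real.rpow_mul hqR.le _ _
          _ ≤ 64 ^ ((g : ℝ) / 2) := Real.rpow_le_rpow (by positivity) hq64.le (by positivity)
          _ = 8 ^ g := by
              rw [show (64 : ℝ) = 8 ^ (2 : ℝ) by norm_num, ← Real.rpow_mul (by norm_num)]
              rw [show (2 : ℝ) * ((g : ℝ) / 2) = g by ring, Real.rpow_natCast]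
      have hS0 : (0 : ℝ) ≤ (S.ncard : ℝ) ^ m := by positivity
      have h2 : (1 : ℝ) ≤ (m : ℝ) ^ 2 * D * 2 ^ E.card *
          (8 ^ g * (q : ℝ) ^ (-((μ * (1 - κ) / 2 - ε) * g))) := by
        have h3 : (1 : ℝ) ≤ (m : ℝ) ^ 2 * D := by nlinarith
        have h4 : (1 : ℝ) ≤ (m : ℝ) ^ 2 * D * 2 ^ E.card := by nlinarith
        nlinarith
      calc (S.ncard : ℝ) ^ m = 1 * (S.ncard : ℝ) ^ m := (one_mul _).symm
        _ ≤ (m : ℝ) ^ 2 * D * 2 ^ E.card * (8 ^ g * (q : ℝ) ^ (-((μ * (1 - κ) / 2 - ε) * g))) *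
            (S.ncard : ℝ) ^ m := mul_le_mul_of_nonneg_right h2 hS0
        _ = _ := by ring

end Pool.Agent.J4H9.NAll
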