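import Mathlib
import Pool.Agent.J4H9.NAll

/-!
# The Newton strata of the set of all Weil polynomials
-/

set_option autoImplicit false

namespace Pool.Agent.J4H9.NStm

open Polynomial Filter Pool.Agent.W521.Frob Pool.Agent.W521.Descent Pool.Agent.W521.Lower
  Pool.Agent.W521.Count Pool.Agent.J4H9.Ch Pool.Agent.J4H9.Cover Pool.Agent.J4H9.Size
  Pool.Agent.J4H9.Alg Pool.Agent.J4H9.Stm Pool.Agent.J4H9.Final Pool.Agent.J4H9.NGauss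
  Pool.Agent.J4H9.NSize Pool.Agent.J4H9.NScale Pool.Agent.J4H9.NCone Pool.Agent.J4H9.NCover
  Pool.Agent.J4H9.NAll

/-- The Weil polynomials `f` of degree `2 g` over the field with `p ^ a` elements whose Newton
polygon is not below the polygon with the slopes `lam 0, lam 1, …` (each on an interval of length
one): the coefficient of index `2 g - j` is divisible by `p ^ n`, where `n` is the smallest integer
that is at least `a (lam 0 + ⋯ + lam (j - 1))`, for all `j ≤ g`. -/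
def newtonAbove (p a : ℕ) (lam : ℕ → ℝ) (g : ℕ) : Set ℤ[X] :=
  {f | f ∈ weilPolys (p ^ a) g ∧
    ∀ j ≤ g, (p : ℤ) ^ ⌈(a : ℝ) * ∑ i ∈ Finset.range j, lam i⌉₊ ∣ f.coeff (2 * g - j)}

/-- The members of `newtonAbove p a lam g` whose coefficients of index `2 g - j`, `j ∈ E`, are not
divisible by a higher power of `p`: the Newton polygon meets the given polygon over all `j ∈ E`. -/
def newtonThrough (p a : ℕ) (lam : ℕ → ℝ) (g : ℕ) (E : Finset ℕ) : Set ℤ[X] :=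
  {f | f ∈ newtonAbove p a lam g ∧
    ∀ j ∈ E, ¬ (p : ℤ) ^ (⌈(a : ℝ) * ∑ i ∈ Finset.range j, lam i⌉₊ + 1) ∣ f.coeff (2 * g - j)}

theorem above_eq (p a : ℕ) (lam : ℕ → ℝ) (g : ℕ) : newtonAbove p a lam g = W (p ^ a) p a lam g :=
  rfl

theorem through_eq (p a : ℕ) (lam : ℕ → ℝ) (g : ℕ) (E : Finset ℕ) :
    newtonThrough p a lam g E = WE (p ^ a) p a lam g E := rfl

theorem X_pow_mem {q g : ℕ} (hq : 0 < q) : (X ^ g : ℤ[X]) ∈ realWeil q g := by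
  refine ⟨monic_X_pow g, natDegree_X_pow g, mem_weilPolys hq (monic_X_pow g) (natDegree_X_pow g) ?_⟩
  intro z hz
  rw [map_pow, aeval_X] at hz
  have h1 : z = 0 := by
    by_contra h2
    exact pow_ne_zero _ h2 hz
  exact ⟨0, by simp, by simp [h1]⟩

/-- The sets are not empty. -/
theorem WE_pos {μ : ℝ} (hμ : 0 < μ) (hμ1 : μ ≤ 1 / 2) :
    ∀ᶠ g : ℕ in atTop, ∀ p a q : ℕ, p.Prime → 0 < a → q = p ^ a → ∀ lam : ℕ → ℝ, Slopes lam →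
    ht lam g ≤ (1 / 2 - μ) * g → 64 ≤ (q : ℝ) ^ (μ / 2) →
    ∀ E : Finset ℕ, (∀ j ∈ E, 0 < j) → (∀ j ∈ E, j ≤ g) →
    (∀ j ∈ E, (ex a lam j : ℝ) = a * ht lam j) → 0 < (WE q p a lam g E).ncard := by
  filter_upwards [NAsym.cover_small' hμ hμ1 one_pos] with g hcov
  intro p a q hp ha hq lam hs hht hq64 E hE1 hE2 hE3
  have hq0 : 0 < q := q_pos hp ha hq
  obtain ⟨Λ₀, 𝒯, hc, htop, hcv, hcard⟩ := hcov p a q hp ha hq lam hs hht hq64 E hE1 hE2 hE3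
  have hX : sc (dd p a lam g) (X ^ g : ℤ[X]) = X ^ g := by
    ext k
    rw [coeff_sc, coeff_X_pow]
    split_ifs with h1
    · rw [h1, dd_top, mul_one]
    · rw [mul_zero]
  obtain ⟨z, hz, hz2⟩ := hcv (X ^ g) (by rw [hX]; exact X_pow_mem hq0)
  have h1 : 0 < (Pool.Agent.J4H9.Pair.uni Λ₀ 𝒯).card :=
    Finset.card_pos.2 ⟨⟨z, X ^ g⟩, Finset.mem_sigma.2 ⟨hz, hz2⟩⟩
  have h2 : (0 : ℝ) < ((Pool.Agent.J4H9.Pair.uni Λ₀ 𝒯).card : ℝ) := by exact_mod_cast h1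
  by_contra h3
  have h4 : (WE q p a lam g E).ncard = 0 := by omega
  rw [h4, Nat.cast_zero, mul_zero, mul_zero] at hcard
  linarith

/-- **The main theorem on the Newton strata.** -/
theorem main {κ μ ε : ℝ} (hκ : 1 / 2 ≤ κ) (hκ1 : κ < 1) (hμ : 0 < μ) (hμ1 : μ ≤ 1 / 2)
    (hε : 0 < ε) (hε1 : ε < μ * (1 - κ) / 2) :
    ∃ g₀ : ℕ, ∀ g : ℕ, g₀ ≤ g → ∀ p a : ℕ, p.Prime → 0 < a → ∀ lam : ℕ → ℝ, Slopes lam →
      ∑ i ∈ Finset.range g, lam i ≤ (1 / 2 - μ) * g →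
      ∀ E : Finset ℕ, (∀ j ∈ E, 0 < j ∧ j ≤ g ∧
        ∃ n : ℕ, (a : ℝ) * ∑ i ∈ Finset.range j, lam i = n) →
      ((newtonAbove p a lam g).Finite ∧
        (64 ≤ ((p ^ a : ℕ) : ℝ) ^ (μ / 2) → 0 < (newtonThrough p a lam g E).ncard)) ∧
      ∀ (S : Set ℤ[X]) (D : ℝ), S ⊆ newtonAbove p a lam g → 1 ≤ D →
        ((newtonThrough p a lam g E).ncard : ℝ) ≤ D * S.ncard → ∀ m : ℕ,
        ({f : Fin m → ℤ[X] | (∀ i, f i ∈ S) ∧ ¬ FamOK (p ^ a) g ⌊κ * g⌋₊ f}.ncard : ℝ) ≤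
          (m : ℝ) ^ 2 * D * 2 ^ E.card * 8 ^ g *
            ((p ^ a : ℕ) : ℝ) ^ (-((μ * (1 - κ) / 2 - ε) * g)) * (S.ncard : ℝ) ^ m := by
  obtain ⟨g₀, h⟩ := eventually_atTop.1 ((NAll.all' hκ hκ1 hμ hμ1 hε hε1).and (WE_pos hμ hμ1))
  refine ⟨g₀, fun g hg p a hp ha lam hs hht E hE => ?_⟩
  have hE1 : ∀ j ∈ E, 0 < j := fun j hj => (hE j hj).1
  have hE2 : ∀ j ∈ E, j ≤ g := fun j hj => (hE j hj).2.1
  have hE3 : ∀ j ∈ E, (ex a lam j : ℝ) = a * ht lam j := by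
    intro j hj
    obtain ⟨n, hn⟩ := (hE j hj).2.2
    unfold ex ht
    rw [hn, Nat.ceil_natCast]
  refine ⟨⟨finite_W (Nat.pow_pos hp.pos).ne', fun h64 =>
    (h g hg).2 p a (p ^ a) hp ha rfl lam hs hht h64 E hE1 hE2 hE3⟩, ?_⟩
  intro S D hS hD hDS m
  exact (h g hg).1 p a (p ^ a) hp ha rfl lam hs hht E hE1 hE2 hE3 S D hS hD hDS m

/-- The main theorem for a property which follows from the factorisation patterns. -/
theorem main_pred {κ μ ε : ℝ} (hκ : 1 / 2 ≤ κ) (hκ1 : κ < 1) (hμ : 0 < μ) (hμ1 : μ ≤ 1 / 2)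
    (hε : 0 < ε) (hε1 : ε < μ * (1 - κ) / 2) (P : ℕ → ℕ → ∀ m : ℕ, (Fin m → ℤ[X]) → Prop)
    (hP : ∀ (q g b m : ℕ) (f : Fin m → ℤ[X]), 0 < q → 3 ≤ g → FamOK q g b f → P q b m f) :
    ∃ g₀ : ℕ, ∀ g : ℕ, g₀ ≤ g → ∀ p a : ℕ, p.Prime → 0 < a → ∀ lam : ℕ → ℝ, Slopes lam →
      ∑ i ∈ Finset.range g, lam i ≤ (1 / 2 - μ) * g →
      ∀ E : Finset ℕ, (∀ j ∈ E, 0 < j ∧ j ≤ g ∧
        ∃ n : ℕ, (a : ℝ) * ∑ i ∈ Finset.range j, lam i = n) →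
      ((newtonAbove p a lam g).Finite ∧
        (64 ≤ ((p ^ a : ℕ) : ℝ) ^ (μ / 2) → 0 < (newtonThrough p a lam g E).ncard)) ∧
      ∀ (S : Set ℤ[X]) (D : ℝ), S ⊆ newtonAbove p a lam g → 1 ≤ D →
        ((newtonThrough p a lam g E).ncard : ℝ) ≤ D * S.ncard → ∀ m : ℕ,
        ({f : Fin m → ℤ[X] | (∀ i, f i ∈ S) ∧ ¬ P (p ^ a) ⌊κ * g⌋₊ m f}.ncard : ℝ) ≤
          (m : ℝ) ^ 2 * D * 2 ^ E.card * 8 ^ g *
            ((p ^ a : ℕ) : ℝ) ^ (-((μ * (1 - κ) / 2 - ε) * g)) * (S.ncard : ℝ) ^ m := by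
  obtain ⟨g₀, h⟩ := main hκ hκ1 hμ hμ1 hε hε1
  refine ⟨max g₀ 3, fun g hg p a hp ha lam hs hht E hE => ?_⟩
  obtain ⟨h1, h2⟩ := h g (le_trans (le_max_left _ _) hg) p a hp ha lam hs hht E hE
  refine ⟨h1, fun S D hS hD hDS m => ?_⟩
  have hSfin : S.Finite := h1.1.subset hS
  have hfin : {f : Fin m → ℤ[X] | (∀ i, f i ∈ S) ∧ ¬ FamOK (p ^ a) g ⌊κ * g⌋₊ f}.Finite := by
    refine Set.Finite.subset (Set.Finite.pi' fun _ : Fin m => hSfin) ?_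
    rintro f ⟨h3, -⟩
    exact h3
  have hsub : {f : Fin m → ℤ[X] | (∀ i, f i ∈ S) ∧ ¬ P (p ^ a) ⌊κ * g⌋₊ m f} ⊆
      {f : Fin m → ℤ[X] | (∀ i, f i ∈ S) ∧ ¬ FamOK (p ^ a) g ⌊κ * g⌋₊ f} :=
    fun f hf => ⟨hf.1, fun h3 => hf.2 (hP _ g _ m f (Nat.pow_pos hp.pos)
      (le_trans (le_max_right _ _) hg) h3)⟩
  refine le_trans ?_ (h2 S D hS hD hDS m)
  exact_mod_cast Set.ncard_le_ncard hsub hfin

end Pool.Agent.J4H9.NStm
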