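import Mathlib
import Pool.Agent.J4H9.BSDefs

/-!
# The closure properties of the schemes for which the order formula is true
-/

set_option autoImplicit false

open CategoryTheory CategoryTheory.Limits AlgebraicGeometry Pool.Agent.Y116.UV Pool.Agent.Q193.LT
  Pool.Agent.Q193.Zeta Pool.Agent.Q282.UK Pool.Agent.Q282.UZ Filter Topology

universe w

namespace Pool.Agent.J4H9.BS

section closed

variable {A : ℤ → Sch ℤ → ModuleCat.{w} ℚ} {Z X U : Sch ℤ}
  {m : LesMaps A (Equiv.subRight 1) Z X U}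

theorem fin_closed (h : m.IsExact) (hX : FinRank A X) (hU : FinRank A U) : FinRank A Z := by
  refine ⟨fun k => ?_, ?_⟩
  · obtain ⟨k, rfl⟩ := (Equiv.subRight (1 : ℤ)).surjective k
    exact serre_exact serre_finite (h.hf k) (hU.1 k) (hX.1 _)
  · refine (hX.2.union (hU.2.preimage (Equiv.injective (Equiv.addRight (1 : ℤ))).injOn)).subset
      fun k hk => ?_
    by_contra h2
    rw [Set.mem_union, not_or] at h2
    apply hk
    obtain ⟨l, rfl⟩ := (Equiv.subRight (1 : ℤ)).surjective k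
    have h3 : Subsingleton (A l U) := by
      have h4 := not_not.mp h2.2
      have h5 : (Equiv.addRight (1 : ℤ)) ((Equiv.subRight (1 : ℤ)) l) = l := by simp
      rw [h5] at h4
      exact h4
    exact sub_mid (h.hf l) h3 (not_not.mp h2.1)

end closed

theorem formula_closed {A : ℤ → ℤ → Sch ℤ → ModuleCat.{w} ℚ} (hA : IsChow A) {Z X U : Sch ℤ}
    (i : Z ⟶ X) (j : U ⟶ X) (hX : FT False X) (ht : IsTriple i j) (hX' : Formula A X)
    (hU : Formula A U) : Formula A Z := by
  obtain ⟨F, hF, ⟨σ, hσ⟩, hm⟩ := hU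
  obtain ⟨G, hG, ⟨σ', hσ'⟩, hm'⟩ := hX'
  obtain ⟨τ, h⟩ := zeta_triple hX (ft_closed i hX ht.closed) (ft_open j hX ht.opened) ht
  refine ⟨G * F⁻¹, hG.mul hF.inv, ⟨max (max σ σ') τ, fun s hs => ?_⟩, fun m => ?_⟩
  · have a1 : σ < s.re := lt_of_le_of_lt ((le_max_left _ _).trans (le_max_left _ _)) hs
    have a2 : σ' < s.re := lt_of_le_of_lt ((le_max_right _ _).trans (le_max_left _ _)) hs
    obtain ⟨h1, h2, h3⟩ := h s (lt_of_le_of_lt (le_max_right _ _) hs)
    rw [Pi.mul_apply, Pi.inv_apply, hσ s a1, hσ' s a2, h1]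
    field_simp
  · obtain ⟨l, hl⟩ := hA.les i j hX ht m
    have h1 := fin_closed hl (hm' m).1 (hm m).1
    refine ⟨h1, ?_⟩
    have h2 := rk_les hl h1 (hm' m).1 (hm m).1
    have h3 : meromorphicOrderAt F⁻¹ (m : ℂ) = ((rk (A m) U : ℤ) : WithTop ℤ) := by
      rw [meromorphicOrderAt_inv, (hm m).2]
      change ((-(-rk (A m) U) : ℤ) : WithTop ℤ) = _
      rw [neg_neg]
    rw [meromorphicOrderAt_mul (hG _ trivial) (hF.inv _ trivial), (hm' m).2, h3,
      ← WithTop.coe_add]
    congr 1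
    rw [h2]
    ring

section bundle

/-- Points with values in a field as morphisms. -/
noncomputable def gammaSpec (K : Type) [Field K] : Γ(Spec (CommRingCat.of K), ⊤) ≃ K :=
  (Scheme.ΓSpecIso (CommRingCat.of K)).commRingCatIsoToRingEquiv.toEquiv

/-- The points of the affine space over a given point. -/
noncomputable def fiberAffine (n : ℕ) {U : Scheme.{0}} {K : Type} [Field K]
    (x : Spec (CommRingCat.of K) ⟶ U) :
    {y : Spec (CommRingCat.of K) ⟶ 𝔸(Fin n; U) // y ≫ (𝔸(Fin n; U) ↘ U) = x} ≃ (Fin n → K) := by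
  letI : (Spec (CommRingCat.of K)).Over U := ⟨x⟩
  exact ((Equiv.subtypeEquivRight fun y => ⟨fun h => ⟨h⟩, fun h => h.comp_over⟩).trans
    (AffineSpace.homOverEquiv (n := Fin n) (S := U) (X := Spec (CommRingCat.of K)))).trans
      (Equiv.piCongrRight fun _ => gammaSpec K)

/-- The points over a given point do not change over an open set. -/
noncomputable def fiberOpen {E X : Scheme.{0}} (π : E ⟶ X) (U : X.Opens) {K : Type} [Field K]
    (x : Spec (CommRingCat.of K) ⟶ U.toScheme) :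
    {y : Spec (CommRingCat.of K) ⟶ E // y ≫ π = x ≫ U.ι} ≃
      {y : Spec (CommRingCat.of K) ⟶ (π ⁻¹ᵁ U).toScheme // y ≫ (π ∣_ U) = x} :=
  Equiv.ofBijective (fun y => ⟨(isPullback_morphismRestrict π U).lift x y.1 y.2.symm,
    (isPullback_morphismRestrict π U).lift_fst x y.1 y.2.symm⟩) (by
      constructor
      · intro y y' h
        have h1 := congrArg (fun z => z.1 ≫ (π ⁻¹ᵁ U).ι) h
        simp only at h1
        rw [(isPullback_morphismRestrict π U).lift_snd, (isPullback_morphismRestrict π U).lift_snd]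
          at h1
        exact Subtype.ext h1
      · intro y
        refine ⟨⟨y.1 ≫ (π ⁻¹ᵁ U).ι, ?_⟩, Subtype.ext ?_⟩
        · rw [Category.assoc, ← morphismRestrict_ι, ← Category.assoc, y.2]
        · apply (isPullback_morphismRestrict π U).hom_ext
          · exact ((isPullback_morphismRestrict π U).lift_fst _ _ _).trans y.2.symm
          · exact (isPullback_morphismRestrict π U).lift_snd _ _ _)

theorem fiber_equiv {n : ℕ} {E X : Sch ℤ} {π : E ⟶ X} (hπ : IsAffineBundle n π) {K : Type}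
    [Field K] (x : Spec (CommRingCat.of K) ⟶ X.left) :
    Nonempty ({y : Spec (CommRingCat.of K) ⟶ E.left // y ≫ π.left = x} ≃ (Fin n → K)) := by
  obtain ⟨U, hU, e, he⟩ := hπ (x (IsLocalRing.closedPoint K))
  have hr : Set.range x ⊆ Set.range U.ι := by
    rintro _ ⟨z, rfl⟩
    rw [Scheme.Opens.range_ι]
    have : Subsingleton (Spec (CommRingCat.of K)) :=
      inferInstanceAs (Subsingleton (PrimeSpectrum K))
    rw [Subsingleton.elim z (IsLocalRing.closedPoint K)]
    exact hU
  obtain ⟨x', rfl⟩ : ∃ x', x = x' ≫ U.ι :=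
    ⟨IsOpenImmersion.lift U.ι x hr, (IsOpenImmersion.lift_fac U.ι x hr).symm⟩
  refine ⟨(fiberOpen π.left U x').trans (Equiv.trans ?_ (fiberAffine n x'))⟩
  refine (Iso.homToEquiv e).subtypeEquiv fun y => ?_
  rw [Iso.homToEquiv_apply, Category.assoc, he]

theorem card_bundle {n : ℕ} {E X : Sch ℤ} {π : E ⟶ X} (hπ : IsAffineBundle n π) (K : Type)
    [Field K] [Finite K] :
    Nat.card (Pt E.left K) = Nat.card K ^ n * Nat.card (Pt X.left K) := by
  have e1 : Pt E.left K ≃ (Spec (CommRingCat.of K) ⟶ X.left) × (Fin n → K) :=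
    (Scheme.SpecToEquivOfField K E.left).symm.trans
      ((Equiv.sigmaFiberEquiv fun y : Spec (CommRingCat.of K) ⟶ E.left => y ≫ π.left).symm.trans
        ((Equiv.sigmaCongrRight fun x => (fiber_equiv hπ x).some).trans
          (Equiv.sigmaEquivProd _ _)))
  have e2 : Pt X.left K ≃ (Spec (CommRingCat.of K) ⟶ X.left) :=
    (Scheme.SpecToEquivOfField K X.left).symm
  rw [Nat.card_congr e1, Nat.card_congr e2, Nat.card_prod, Nat.card_fun, Nat.card_fin, mul_comm]

/-- The zeta function of an affine bundle. -/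
theorem zeta_bundle {n : ℕ} {E X : Sch ℤ} {π : E ⟶ X} (hπ : IsAffineBundle n π)
    (hE : FT False E) (hX : FT False X) :
    ∃ τ : ℝ, ∀ s : ℂ, τ < s.re → zeta E.left s = zeta X.left (s - n) := by
  obtain ⟨C, k, b1⟩ := ft_bounded hE
  obtain ⟨C', k', b2⟩ := ft_bounded hX
  refine ⟨max ((k : ℝ) + 1) ((k' : ℝ) + 1 + n), fun s hs => ?_⟩
  have c1 : (k : ℝ) + 1 < s.re := lt_of_le_of_lt (le_max_left _ _) hs
  have c2 : (k' : ℝ) + 1 < (s - n).re := by
    have := lt_of_le_of_lt (le_max_right _ _) hs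
    rw [Complex.sub_re, Complex.natCast_re]
    linarith
  rw [ft_zeta hE b1 c1, ft_zeta hX b2 c2]
  congr 1
  have h1 : (fun m => (cf (nm E.left) m : ℂ)) =
      fun m : ℕ => ((m : ℂ) ^ (n : ℤ)) * (cf (nm X.left) m : ℂ) := by
    funext m
    have := cf_congr b1 b2 (fun m : ℕ => (m : ℝ) ^ n) (fun K _ _ => by
      rw [card_bundle hπ K]
      push_cast
      rfl) m
    rw [this]
    push_cast
    rw [zpow_natCast]
  rw [lz, h1, lseries_shift, lz]
  push_cast
  rfl

end bundle

section formula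

theorem fin_iso' {A B : ℤ → Sch ℤ → ModuleCat.{w} ℚ} {X Y : Sch ℤ}
    (e : ∀ k, Nonempty (A k X ≅ B k Y)) (h : FinRank A X) : FinRank B Y ∧ rk B Y = rk A X := by
  refine ⟨⟨fun k => ?_, h.2.subset fun k hk hs => hk ?_⟩, ?_⟩
  · obtain ⟨e⟩ := e k
    have := h.1 k
    exact Module.Finite.equiv e.toLinearEquiv
  · obtain ⟨e⟩ := e k
    exact e.toLinearEquiv.symm.toEquiv.subsingleton
  · rw [rk, rk]
    refine finsum_congr fun k => ?_
    obtain ⟨e⟩ := e k
    rw [e.toLinearEquiv.finrank_eq]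

variable {A : ℤ → ℤ → Sch ℤ → ModuleCat.{w} ℚ} (hA : IsChowTheory A) {n : ℕ} {E X : Sch ℤ}
  {π : E ⟶ X} (hπ : IsAffineBundle n π) (hE : FT False E) (hX : FT False X)

include hA hπ hE hX

theorem rk_bundle (m : ℤ) (h : FinRank (A (m - n)) X) :
    FinRank (A m) E ∧ rk (A m) E = rk (A (m - n)) X := by
  refine fin_iso' (fun k => ?_) h
  obtain ⟨e⟩ := hA.bundle n π hE hX hπ (m - n) k
  rw [sub_add_cancel] at e
  exact ⟨e.symm⟩

theorem rk_bundle' (m : ℤ) (h : FinRank (A (m + n)) E) :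
    FinRank (A m) X ∧ rk (A m) X = rk (A (m + n)) E :=
  fin_iso' (fun k => hA.bundle n π hE hX hπ m k) h

theorem formula_bundle (h : Formula A X) : Formula A E := by
  obtain ⟨F, hF, ⟨σ, hσ⟩, hm⟩ := h
  obtain ⟨τ, hτ⟩ := zeta_bundle hπ hE hX
  refine ⟨fun s => F (s - n), ?_, ⟨max (σ + n) τ, fun s hs => ?_⟩, fun m => ?_⟩
  · have h1 := mero_sub hF (-(n : ℂ))
    simpa only [← sub_eq_add_neg] using h1
  · have a1 : σ + n < s.re := lt_of_le_of_lt (le_max_left _ _) hs
    change F (s - n) = _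
    rw [hσ (s - n) (by rw [Complex.sub_re, Complex.natCast_re]; linarith),
      hτ s (lt_of_le_of_lt (le_max_right _ _) hs)]
  · obtain ⟨h1, h2⟩ := rk_bundle hA hπ hE hX m (hm (m - n)).1
    refine ⟨h1, ?_⟩
    have h3 : meromorphicOrderAt (fun s => F (s - n)) (m : ℂ) =
        meromorphicOrderAt F ((m : ℂ) - n) :=
      meromorphicOrderAt_comp_sub_const_eq_meromorphicOrderAt
    rw [h3, h2, ← (hm (m - n)).2]
    push_cast
    rfl

theorem formula_base (h : Formula A E) : Formula A X := by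
  obtain ⟨F, hF, ⟨σ, hσ⟩, hm⟩ := h
  obtain ⟨τ, hτ⟩ := zeta_bundle hπ hE hX
  refine ⟨fun s => F (s + n), mero_sub hF n, ⟨max σ τ, fun s hs => ?_⟩, fun m => ?_⟩
  · have a0 : (0 : ℝ) ≤ n := Nat.cast_nonneg n
    have a1 : σ < s.re := lt_of_le_of_lt (le_max_left _ _) hs
    have a2 : τ < s.re := lt_of_le_of_lt (le_max_right _ _) hs
    change F (s + n) = _
    rw [hσ (s + n) (by rw [Complex.add_re, Complex.natCast_re]; linarith),
      hτ (s + n) (by rw [Complex.add_re, Complex.natCast_re]; linarith), add_sub_cancel_right]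
  · obtain ⟨h1, h2⟩ := rk_bundle' hA hπ hE hX m (hm (m + n)).1
    refine ⟨h1, ?_⟩
    have h3 : meromorphicOrderAt (fun s => F (s + n)) (m : ℂ) =
        meromorphicOrderAt F ((m : ℂ) + n) :=
      meromorphicOrderAt_comp_add_const_eq_meromorphicOrderAt
    rw [h3, h2, ← (hm (m + n)).2]
    push_cast
    rfl

end formula

theorem ft_built {P : Sch ℤ → Prop} {X : Sch ℤ} (h : Built P X) : FT False X := by
  induction h with
  | of hX _ => exact hX
  | iso hX e _ _ => exact ft_iso hX e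
  | total i j hX ht _ _ _ _ => exact hX
  | opened i j hX ht _ _ _ _ => exact ft_open j hX ht.opened
  | closed i j hX ht _ _ _ _ => exact ft_closed i hX ht.closed
  | bundle n π hE hX hπ _ _ => exact hE
  | base n π hE hX hπ _ _ => exact hX

/-- **The order formula for all schemes that are built from schemes for which it is true.** -/
theorem formula_built {A : ℤ → ℤ → Sch ℤ → ModuleCat.{w} ℚ} (hA : IsChowTheory A)
    {P : Sch ℤ → Prop} (hP : ∀ X, FT False X → P X → Formula A X) {X : Sch ℤ} (h : Built P X) :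
    Formula A X := by
  have hclo := clo_formula hA.toIsChow
  induction h with
  | of hX h => exact hP _ hX h
  | iso hX e _ ih => exact hclo.iso hX ⟨e⟩ ih
  | total i j hX ht _ _ ih1 ih2 => exact hclo.total i j hX ht ih1 ih2
  | opened i j hX ht _ _ ih1 ih2 => exact hclo.opened i j hX ht ih1 ih2
  | closed i j hX ht _ _ ih1 ih2 => exact formula_closed hA.toIsChow i j hX ht ih1 ih2
  | bundle n π hE hX hπ _ ih => exact formula_bundle hA hπ hE hX ih
  | base n π hE hX hπ _ ih => exact formula_base hA hπ hE hX ih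

end Pool.Agent.J4H9.BS
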