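import Mathlib
import Pool.Agent.J4H9.BSZeta

/-!
# The orders of the zeta function of an abelian variety at the integers
-/

set_option autoImplicit false

open CategoryTheory CategoryTheory.Limits AlgebraicGeometry Polynomial Pool.Agent.Y116.UV
  Pool.Agent.Q193.Zeta

namespace Pool.Agent.J4H9.BS

variable {q : ℕ} (hq : 1 < q)

include hq

theorem analytic_factor (c z : ℂ) : AnalyticAt ℂ (fun s : ℂ => 1 - c * (q : ℂ) ^ (-s)) z := by
  have hqC : (q : ℂ) ≠ 0 := by exact_mod_cast (ne_of_gt (lt_trans Nat.zero_lt_one hq))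
  have h1 : (fun s : ℂ => 1 - c * (q : ℂ) ^ (-s)) =
      fun s => 1 - c * Complex.exp (Complex.log q * (-s)) := by
    funext s
    rw [Complex.cpow_def_of_ne_zero hqC]
  rw [h1]
  fun_prop

theorem deriv_factor (c z : ℂ) : deriv (fun s : ℂ => 1 - c * (q : ℂ) ^ (-s)) z =
    c * (q : ℂ) ^ (-z) * Complex.log q := by
  have hqC : (q : ℂ) ≠ 0 := by exact_mod_cast (ne_of_gt (lt_trans Nat.zero_lt_one hq))
  have h1 : HasDerivAt (fun s : ℂ => (q : ℂ) ^ (-s)) ((q : ℂ) ^ (-z) * Complex.log q * (-1)) z :=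
    (hasDerivAt_neg z).const_cpow (Or.inl hqC)
  have h2 := (h1.const_mul c).const_sub 1
  rw [h2.deriv]
  ring

theorem order_factor [DecidableEq ℂ] (c : ℂ) (m : ℤ) :
    meromorphicOrderAt (fun s : ℂ => 1 - c * (q : ℂ) ^ (-s)) (m : ℂ) =
      ((if c = (q : ℂ) ^ m then 1 else 0 : ℤ) : WithTop ℤ) := by
  have hqC : (q : ℂ) ≠ 0 := by exact_mod_cast (ne_of_gt (lt_trans Nat.zero_lt_one hq))
  have hqm : (q : ℂ) ^ (-(m : ℂ)) = ((q : ℂ) ^ m)⁻¹ := by
    rw [Complex.cpow_neg, Complex.cpow_intCast]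
  have hq1 : (q : ℂ) ^ m ≠ 0 := zpow_ne_zero _ hqC
  rw [(analytic_factor hq c m).meromorphicOrderAt_eq]
  split_ifs with h
  · have h1 : analyticOrderAt (fun s : ℂ => 1 - c * (q : ℂ) ^ (-s)) (m : ℂ) = 1 := by
      refine (analytic_factor hq c m).analyticOrderAt_eq_one_of_zero_deriv_ne_zero ?_ ?_
      · rw [hqm, h, mul_inv_cancel₀ hq1, sub_self]
      · rw [deriv_factor hq, hqm, h, mul_inv_cancel₀ hq1, one_mul]
        have h2 : Complex.log (q : ℂ) = (Real.log q : ℂ) := by
          rw [← Complex.ofReal_natCast, Complex.ofReal_log (Nat.cast_nonneg q)]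
        rw [h2]
        exact_mod_cast (Real.log_pos (by exact_mod_cast hq)).ne'
    rw [h1]
    rfl
  · have h1 : analyticOrderAt (fun s : ℂ => 1 - c * (q : ℂ) ^ (-s)) (m : ℂ) = 0 := by
      refine analyticOrderAt_eq_zero.2 (Or.inr ?_)
      rw [hqm]
      intro h2
      apply h
      have h3 : c * ((q : ℂ) ^ m)⁻¹ = 1 := (sub_eq_zero.1 h2).symm
      rw [← div_eq_mul_inv, div_eq_one_iff_eq hq1] at h3
      exact h3
    rw [h1]
    rfl

omit hq in
theorem order_prod {α : Type*} (P : Multiset α) (G : α → ℂ → ℂ) (z : ℂ) (o : α → ℤ)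
    (hG : ∀ S ∈ P, MeromorphicAt (G S) z)
    (ho : ∀ S ∈ P, meromorphicOrderAt (G S) z = ((o S : ℤ) : WithTop ℤ)) :
    MeromorphicAt (fun s => (P.map fun S => G S s).prod) z ∧
    meromorphicOrderAt (fun s => (P.map fun S => G S s).prod) z =
      (((P.map o).sum : ℤ) : WithTop ℤ) := by
  classical
  induction P using Multiset.induction_on with
  | empty =>
    simp only [Multiset.map_zero, Multiset.prod_zero, Multiset.sum_zero]
    refine ⟨MeromorphicAt.const 1 z, ?_⟩
    rw [meromorphicOrderAt_const]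
    simp
  | cons S P ih =>
    simp only [Multiset.map_cons, Multiset.prod_cons, Multiset.sum_cons]
    obtain ⟨h1, h2⟩ := ih (fun T hT => hG T (Multiset.mem_cons_of_mem hT))
      (fun T hT => ho T (Multiset.mem_cons_of_mem hT))
    have h3 := hG S (Multiset.mem_cons_self S P)
    refine ⟨h3.mul h1, ?_⟩
    have h4 := meromorphicOrderAt_mul h3 h1
    rw [ho S (Multiset.mem_cons_self S P), h2, ← WithTop.coe_add] at h4
    exact h4

omit hq in
theorem mero_prod {α : Type*} (P : Multiset α) (G : α → ℂ → ℂ) (z : ℂ)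
    (hG : ∀ S ∈ P, MeromorphicAt (G S) z) :
    MeromorphicAt (fun s => (P.map fun S => G S s).prod) z := by
  induction P using Multiset.induction_on with
  | empty =>
    simp only [Multiset.map_zero, Multiset.prod_zero]
    exact MeromorphicAt.const 1 z
  | cons S P ih =>
    simp only [Multiset.map_cons, Multiset.prod_cons]
    exact (hG S (Multiset.mem_cons_self S P)).mul
      (ih fun T hT => hG T (Multiset.mem_cons_of_mem hT))

theorem mero_weilZeta (R : Multiset ℂ) : MeromorphicOn (weilZeta q R) Set.univ := by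
  intro z _
  exact mero_prod R.powerset _ z fun S _ => (analytic_factor hq S.prod z).meromorphicAt.zpow _

omit hq in
theorem norm_prod_sq {R : Multiset ℂ} (hR : ∀ z ∈ R, ‖z‖ ^ 2 = (q : ℝ)) :
    ‖R.prod‖ ^ 2 = (q : ℝ) ^ Multiset.card R := by
  induction R using Multiset.induction_on with
  | empty => simp
  | cons a R ih =>
    rw [Multiset.prod_cons, norm_mul, mul_pow, hR a (Multiset.mem_cons_self a R),
      ih fun z hz => hR z (Multiset.mem_cons_of_mem hz), Multiset.card_cons, pow_succ, mul_comm]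

theorem even_card {S : Multiset ℂ} (hS : ∀ z ∈ S, ‖z‖ ^ 2 = (q : ℝ)) {m : ℤ}
    (h : S.prod = (q : ℂ) ^ m) : (Multiset.card S : ℤ) = 2 * m := by
  have hqR : (1 : ℝ) < q := by exact_mod_cast hq
  have h1 := norm_prod_sq hS
  rw [h, norm_zpow, Complex.norm_natCast, ← zpow_natCast, ← zpow_mul, ← zpow_natCast] at h1
  have h2 := zpow_right_injective₀ (by positivity) hqR.ne' h1
  push_cast at h2
  omega

theorem order_weilZeta [DecidableEq ℂ] {R : Multiset ℂ} (hR : ∀ z ∈ R, ‖z‖ ^ 2 = (q : ℝ)) (m : ℤ) :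
    meromorphicOrderAt (weilZeta q R) (m : ℂ) =
      ((-(Multiset.card (R.powerset.filter fun S => S.prod = (q : ℂ) ^ m) : ℤ) : ℤ) : WithTop ℤ) := by
  have h1 := (order_prod R.powerset
    (fun S s => (1 - S.prod * (q : ℂ) ^ (-s)) ^ (-(-1 : ℤ) ^ Multiset.card S)) (m : ℂ)
    (fun S => if S.prod = (q : ℂ) ^ m then -1 else 0)
    (fun S _ => (analytic_factor hq S.prod m).meromorphicAt.zpow _) (fun S hS => ?_)).2
  · have h2 : ∀ P : Multiset (Multiset ℂ),
        (P.map fun S : Multiset ℂ => if S.prod = (q : ℂ) ^ m then (-1 : ℤ) else 0).sum =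
        -(Multiset.card (P.filter fun S => S.prod = (q : ℂ) ^ m) : ℤ) := by
      intro P
      induction P using Multiset.induction_on with
      | empty => simp
      | cons S P ih =>
        rw [Multiset.map_cons, Multiset.sum_cons, ih]
        split_ifs with h
        · rw [Multiset.filter_cons_of_pos (p := fun S : Multiset ℂ => S.prod = (q : ℂ) ^ m) P h,
            Multiset.card_cons]
          push_cast
          ring
        · rw [Multiset.filter_cons_of_neg (p := fun S : Multiset ℂ => S.prod = (q : ℂ) ^ m) P h,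
            zero_add]
    rw [h2] at h1
    exact h1
  · have h3 := meromorphicOrderAt_zpow (analytic_factor hq S.prod m).meromorphicAt
      (n := -(-1 : ℤ) ^ Multiset.card S)
    rw [order_factor hq] at h3
    have h4 : meromorphicOrderAt (fun s : ℂ => (1 - S.prod * (q : ℂ) ^ (-s)) ^
      (-(-1 : ℤ) ^ Multiset.card S)) (m : ℂ) = ((-(-1 : ℤ) ^ Multiset.card S : ℤ) : WithTop ℤ) *
        ((if S.prod = (q : ℂ) ^ m then 1 else 0 : ℤ) : WithTop ℤ) := h3
    rw [h4, ← WithTop.coe_mul]
    congr 1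
    split_ifs with h
    · have h5 := even_card hq (fun z hz => hR z (Multiset.mem_of_le (Multiset.mem_powerset.1 hS) hz)) h
      have h6 : Even (Multiset.card S) := by
        have h7 : Even (Multiset.card S : ℤ) := ⟨m, by omega⟩
        exact_mod_cast h7
      rw [h6.neg_one_pow, mul_one]
    · rw [mul_zero]

end Pool.Agent.J4H9.BS
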