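import Mathlib
import Pool.Agent.J4H9.BSOrd
import Pool.Agent.J4H9.BSClo
import Pool.Agent.J4H9.NStm

/-!
# The order formula for almost all abelian varieties over a finite field, and all schemes built from
them
-/

set_option autoImplicit false

open CategoryTheory CategoryTheory.Limits AlgebraicGeometry Polynomial Pool.Agent.Y116.UV
  Pool.Agent.Q193.Zeta Pool.Agent.Q282.UZ

universe w

namespace Pool.Agent.J4H9.BS

section base

theorem ft_toZ {k : Type} [Field k] [Finite k] {B : Over (Spec (CommRingCat.of k))}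
    (hB : IsAbelianVariety B) : FT False (toZ B) := by
  have h0 := hB.proper
  have h1 : Algebra.FiniteType ℤ k := by
    have : Module.Finite ℤ k := Module.Finite.of_finite
    infer_instance
  have h2 : LocallyOfFiniteType (Spec.map (CommRingCat.ofHom (algebraMap ℤ k))) := by
    rw [HasRingHomProperty.Spec_iff (P := @LocallyOfFiniteType)]
    exact (RingHom.finiteType_algebraMap).2 h1
  refine ⟨?_, ?_, fun h => h.elim⟩
  · change LocallyOfFiniteType (B.hom ≫ Spec.map (CommRingCat.ofHom (algebraMap ℤ k)))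
    infer_instance
  · change QuasiCompact (B.hom ≫ Spec.map (CommRingCat.ofHom (algebraMap ℤ k)))
    infer_instance

theorem formula_abelian {A : ℤ → ℤ → Sch ℤ → ModuleCat.{w} ℚ} (hK : KahnTheorem A)
    {k : Type} [Field k] [Finite k] {B : Over (Spec (CommRingCat.of k))} (hB : IsAbelianVariety B)
    {h : ℤ[X]} (hw : IsWeilPolynomial B h) (hn : NoExotic (Nat.card k) h) :
    Formula A (toZ B) := by
  classical
  have hk1 : 1 < Nat.card k := Finite.one_lt_card
  have hR : ∀ z ∈ h.aroots ℂ, ‖z‖ ^ 2 = (Nat.card k : ℝ) := by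
    intro z hz
    rw [mem_aroots] at hz
    exact hw.norm z hz.2
  obtain ⟨τ, hτ⟩ := zeta_weil B (ft_toZ hB) hw
  refine ⟨weilZeta (Nat.card k) (h.aroots ℂ), mero_weilZeta hk1 _, ⟨τ, hτ⟩, fun m => ?_⟩
  obtain ⟨h1, h2, h3⟩ := hK k B h hB hw hn m
  refine ⟨⟨fun j => ?_, (Set.finite_singleton (0 : ℤ)).subset fun j hj => ?_⟩, ?_⟩
  · by_cases hj : j = 0
    · rw [hj]
      exact h2
    · have := h1 j hj
      infer_instance
  · by_contra h4
    exact hj (h1 j h4)
  · rw [order_weilZeta hk1 hR m]
    have h4 : rk (A m) (toZ B) = (tateNumber (Nat.card k) h m : ℤ) := by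
      rw [rk, finsum_eq_single _ (0 : ℤ) fun j hj => ?_, h3]
      · simp
      · have := h1 j hj
        rw [Module.finrank_zero_of_subsingleton, Nat.cast_zero, mul_zero]
    rw [h4, tateNumber]

end base

end Pool.Agent.J4H9.BS
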