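import Mathlib
import Pool.Agent.J4H9.BSMain

/-!
# No exotic classes
-/

set_option autoImplicit false

open CategoryTheory CategoryTheory.Limits AlgebraicGeometry Polynomial Pool.Agent.Y116.UV
  Pool.Agent.W521.Frob Pool.Agent.J4H9.Alg Pool.Agent.J4H9.NAll

universe w

namespace Pool.Agent.J4H9.BS

section pairs

theorem exists_half [DecidableEq ℂ] (c : ℂ → ℂ) (T : Multiset ℂ) (hcc : ∀ z ∈ T, c (c z) = z)
    (hne : ∀ z ∈ T, z ≠ c z) (hcount : ∀ z ∈ T, T.count z = T.count (c z)) :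
    ∃ P : Multiset ℂ, P ≤ T ∧ T = P + P.map c := by
  induction h : Multiset.card T using Nat.strong_induction_on generalizing T with
  | _ n ih =>
    rcases Multiset.empty_or_exists_mem T with rfl | ⟨z, hz⟩
    · exact ⟨0, le_rfl, by simp⟩
    have h1 : c z ∈ T := by
      rw [← Multiset.count_pos, ← hcount z hz, Multiset.count_pos]
      exact hz
    have h2 : c z ∈ T.erase z := by
      rw [Multiset.mem_erase_of_ne (hne z hz).symm]
      exact h1
    obtain ⟨T', hT'⟩ := Multiset.exists_cons_of_mem h2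
    have h3 : T = z ::ₘ c z ::ₘ T' := by
      rw [← hT', Multiset.cons_erase hz]
    have hsub : ∀ w ∈ T', w ∈ T := fun w hw => by
      rw [h3]
      exact Multiset.mem_cons_of_mem (Multiset.mem_cons_of_mem hw)
    have hcard : Multiset.card T' + 2 = n := by
      rw [← h, h3, Multiset.card_cons, Multiset.card_cons]
    obtain ⟨P, hP, hP2⟩ := ih (Multiset.card T') (by omega) T' (fun w hw => hcc w (hsub w hw))
      (fun w hw => hne w (hsub w hw)) (fun w hw => by
        have h4 := hcount w (hsub w hw)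
        rw [h3, Multiset.count_cons, Multiset.count_cons, Multiset.count_cons,
          Multiset.count_cons] at h4
        have h5 : w = z ↔ c w = c z := ⟨fun h => by rw [h], fun h => by
          rw [← hcc w (hsub w hw), h, hcc z hz]⟩
        have h6 : w = c z ↔ c w = z := ⟨fun h => by rw [h, hcc z hz], fun h => by
          rw [← hcc w (hsub w hw), h]⟩
        rw [if_congr h5 rfl rfl, if_congr h6 rfl rfl] at h4
        omega) rfl
    refine ⟨z ::ₘ P, ?_, ?_⟩
    · rw [h3]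
      exact (Multiset.cons_le_cons_iff z).2 (hP.trans (Multiset.le_cons_self _ _))
    · rw [Multiset.map_cons, Multiset.cons_add, Multiset.add_cons, ← hP2]
      exact h3

end pairs

theorem mem_small {b : ℕ} {h : ℤ[X]} (hm : h.Monic) (hb : h.natDegree ≤ b) {S : Multiset ℂ}
    (hS : ∀ z ∈ S, aeval z h = 0) : S.prod ∈ smallField b :=
  Subfield.multiset_prod_mem _ _ fun z hz => Subfield.subset_closure ⟨h, hm, hb, hS z hz⟩

theorem noExotic_fam {I : Type} [Finite I] {q g b : ℕ} (hq : 0 < q) {f : I → ℤ[X]}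
    (hf : FamOK q g b f) {s : ℕ} (hs : 0 < s) {h₁ h₂ : ℤ[X]} (hm1 : h₁.Monic) (hm2 : h₂.Monic)
    (hnorm : ∀ z : ℂ, aeval z (h₁ * h₂) = 0 → ‖z‖ ^ 2 = ((q ^ s : ℕ) : ℝ))
    (hroots : ∀ z : ℂ, aeval z h₁ = 0 → ∃ i, ∃ x : ℂ, aeval x (f i) = 0 ∧ z = x ^ s)
    (hb : h₂.natDegree ≤ b) (h2 : NoExotic (q ^ s) h₂) : NoExotic (q ^ s) (h₁ * h₂) := by
  classical
  obtain ⟨r, h, hr, hr2, hgr, hbr, h8, hgood, hn, rfl⟩ := hf
  intro S hS m n hn0 hrel
  have hqC : (q : ℂ) ≠ 0 := by exact_mod_cast hq.ne'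
  have hmul : h₁ * h₂ ≠ 0 := (hm1.mul hm2).ne_zero
  rw [aroots_mul hmul] at hS
  -- the two parts
  set R₁ := h₁.aroots ℂ
  set R₂ := h₂.aroots ℂ
  set S₂ := S - R₁ with hS₂
  set S₁ := S - S₂ with hS₁
  have hle2 : S₂ ≤ R₂ := by
    rw [hS₂]
    exact tsub_le_iff_left.2 hS
  have hle1 : S₁ ≤ R₁ := tsub_tsub_le
  have hsum : S = S₁ + S₂ := (tsub_add_cancel_of_le (tsub_le_self (a := S) (b := R₁))).symm
  have hz1 : ∀ z ∈ S₁, aeval z h₁ = 0 := fun z hz => (mem_aroots.1 (Multiset.mem_of_le hle1 hz)).2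
  have hz2 : ∀ z ∈ S₂, aeval z h₂ = 0 := fun z hz => (mem_aroots.1 (Multiset.mem_of_le hle2 hz)).2
  have hn1 : ∀ z ∈ S₁, ‖z‖ ^ 2 = ((q ^ s : ℕ) : ℝ) := fun z hz =>
    hnorm z (by rw [map_mul, hz1 z hz, zero_mul])
  have hn2 : ∀ z ∈ S₂, ‖z‖ ^ 2 = ((q ^ s : ℕ) : ℝ) := fun z hz =>
    hnorm z (by rw [map_mul, hz2 z hz, mul_zero])
  -- the roots
  have hex : ∀ z : ℂ, ∃ x : ℂ, z ∈ S₁ → (∃ i, aeval x (weil q (h i)) = 0) ∧ z = x ^ s := by
    intro z
    by_cases hz : z ∈ S₁
    · obtain ⟨i, x, h3, h4⟩ := hroots z (hz1 z hz)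
      exact ⟨x, fun _ => ⟨⟨i, h3⟩, h4⟩⟩
    · exact ⟨0, fun h => absurd h hz⟩
  choose a ha using hex
  set T := S₁.map a with hT
  have hTr : ∀ x ∈ T, ∃ i, aeval x (weil q (h i)) = 0 := by
    intro x hx
    obtain ⟨z, hz, rfl⟩ := Multiset.mem_map.1 hx
    exact (ha z hz).1
  have hTs : T.map (fun x => x ^ s) = S₁ := by
    rw [hT, Multiset.map_map]
    conv_rhs => rw [← Multiset.map_id S₁]
    exact Multiset.map_congr rfl fun z hz => (ha z hz).2.symm
  have hTprod : T.prod ^ s = S₁.prod := by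
    rw [← hTs, Multiset.prod_map_pow]
    simp
  have hTlist : T.toList.prod = T.prod := Multiset.prod_toList T
  have hcount : ∀ z ∈ T, T.count z = T.count ((q : ℂ) / z) := by
    intro z hz
    have h3 := counts_C hq.ne' (fun i => (h8 i).1) (fun i => (h8 i).2.le) hr hr2 hgr hgood hn hbr
      S₂.prod (mem_small hm2 hb hz2) T.toList (fun z hz => hTr z (Multiset.mem_toList.1 hz)) s m n
      hs hn0 (by
        rw [hTlist, hTprod, ← Multiset.prod_add, ← hsum, hrel]
        push_cast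
        rfl) z (hTr z hz)
    rw [← Multiset.coe_count, ← Multiset.coe_count, Multiset.coe_toList] at h3
    exact h3
  have hx0 : ∀ x ∈ T, x ≠ 0 := by
    rintro x hx rfl
    obtain ⟨i, hi⟩ := hTr _ hx
    have h3 := hn i 0 hi
    rw [norm_zero, zero_pow two_ne_zero] at h3
    exact hq.ne' (by exact_mod_cast h3.symm)
  obtain ⟨P, hPT, hP⟩ := exists_half (fun z => (q : ℂ) / z) T
    (fun z _ => div_div_cancel₀ hqC)
    (fun z hz => ne_conj_C hq.ne' (fun i => (h8 i).1) (fun i => (h8 i).2.le) hr hr2 hgr hgood z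
      (hTr z hz)) hcount
  have hP0 : ∀ x ∈ P, x ≠ 0 := fun x hx => hx0 x (Multiset.mem_of_le hPT hx)
  have hS1eq : S₁ = P.map (fun x => x ^ s) + P.map (fun x => ((q : ℂ) / x) ^ s) := by
    rw [← hTs, hP, Multiset.map_add, Multiset.map_map]
    rfl
  have hpair : ∀ x ∈ P, x ^ s * ((q : ℂ) / x) ^ s = (q : ℂ) ^ s := fun x hx => by
    rw [← mul_pow, mul_div_cancel₀ _ (hP0 x hx)]
  have hS1prod : S₁.prod = ((q : ℂ) ^ s) ^ Multiset.card P := by
    rw [hS1eq, Multiset.prod_add, ← Multiset.prod_map_mul, Multiset.map_congr rfl hpair,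
      Multiset.map_const', Multiset.prod_replicate]
  have hcard1 : Multiset.card S₁ = 2 * Multiset.card P := by
    rw [hS1eq, Multiset.card_add, Multiset.card_map, Multiset.card_map]
    ring
  have hprod : S.prod = S₁.prod * S₂.prod := by rw [hsum, Multiset.prod_add]
  have hrel2 : S₂.prod ^ n = ((((q ^ s : ℕ)) : ℂ) ^ (m - Multiset.card P)) ^ n := by
    rcases Nat.eq_or_lt_of_le (Nat.succ_le_of_lt hq) with h1 | h1
    · have hq1 : q = 1 := h1.symm
      rw [hprod, hS1prod, mul_pow, hq1] at hrel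
      rw [hq1]
      simpa using hrel
    · have hQ1 : (1 : ℝ) < ((q ^ s : ℕ) : ℝ) := by
        exact_mod_cast Nat.one_lt_pow hs.ne' h1
      have hcard : Multiset.card S = 2 * m := by
        have h3 : ‖S.prod‖ ^ 2 = (((q ^ s : ℕ)) : ℝ) ^ Multiset.card S :=
          norm_prod_sq (q := q ^ s) fun z hz => by
            rw [hsum, Multiset.mem_add] at hz
            exact hz.elim (hn1 z) (hn2 z)
        have h4 := congrArg (fun z => ‖z‖ ^ 2) hrel
        simp only [norm_pow, Complex.norm_natCast] at h4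
        have h5 : (((q ^ s : ℕ) : ℝ)) ^ (Multiset.card S * n) =
            (((q ^ s : ℕ) : ℝ)) ^ (2 * m * n) := by
          rw [pow_mul, ← h3, ← pow_mul, mul_comm 2 n, pow_mul, h4, ← pow_mul, ← pow_mul]
          congr 1
          ring
        have h6 := pow_right_injective₀ (lt_trans zero_lt_one hQ1) hQ1.ne' h5
        exact Nat.eq_of_mul_eq_mul_right hn0 h6
      have hle : Multiset.card P ≤ m := by
        have h3 : Multiset.card S = Multiset.card S₁ + Multiset.card S₂ := by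
          rw [hsum, Multiset.card_add]
        omega
      have hQC : (((q ^ s : ℕ)) : ℂ) ≠ 0 := by
        push_cast
        exact pow_ne_zero _ hqC
      obtain ⟨l, hl⟩ := Nat.exists_eq_add_of_le hle
      rw [hprod, hS1prod, mul_pow, hl, pow_add, mul_pow] at hrel
      have h3 : (((q : ℂ) ^ s) ^ Multiset.card P) ^ n =
          ((((q ^ s : ℕ)) : ℂ) ^ Multiset.card P) ^ n := by
        push_cast
        rfl
      rw [h3] at hrel
      have h4 := mul_left_cancel₀ (pow_ne_zero _ (pow_ne_zero _ hQC)) hrel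
      rw [h4, hl, Nat.add_sub_cancel_left]
  obtain ⟨T₂, hT2, hT2'⟩ := h2 S₂ hle2 (m - Multiset.card P) n hn0 hrel2
  refine ⟨P.map (fun x => (x ^ s, ((q : ℂ) / x) ^ s)) + T₂, ?_, ?_⟩
  · rw [Multiset.map_add, Multiset.map_add, Multiset.map_map, Multiset.map_map, hsum, hS1eq, hT2]
    simp only [Function.comp_def]
    abel
  · intro t ht
    rcases Multiset.mem_add.1 ht with ht | ht
    · obtain ⟨x, hx, rfl⟩ := Multiset.mem_map.1 ht
      refine ⟨1, one_pos, ?_⟩
      rw [pow_one, pow_one, hpair x hx]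
      push_cast
      rfl
    · exact hT2' t ht

/-- **The order formula for a good family.** -/
theorem formula_fam {I : Type} [Finite I] {q g b : ℕ} (hq : 0 < q) {f : I → ℤ[X]}
    (hf : FamOK q g b f) {A : ℤ → ℤ → Sch ℤ → ModuleCat.{w} ℚ} (hA : IsChowTheory A)
    (hK : KahnTheorem A) {X : Sch ℤ} (hX : Built (fun Y => IsMember q b f Y ∨
      Pool.Agent.Q282.UZ.Formula A Y) X) : Pool.Agent.Q282.UZ.Formula A X := by
  refine formula_built hA ?_ hX
  rintro Y - (⟨s, k, _, _, B, h₁, h₂, hs, hk, hB, hw, hm1, hm2, hr, hb, h2, rfl⟩ | h)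
  · refine formula_abelian hK hB hw ?_
    rw [hk]
    refine noExotic_fam hq hf hs hm1 hm2 (fun z hz => ?_) hr hb h2
    have h1 := hw.norm z hz
    rw [hk] at h1
    exact h1
  · exact h

end Pool.Agent.J4H9.BS
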