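import Mathlib
import Pool.Agent.J4H9.BSComb

/-!
# The conjecture of Bloch and Soulé for almost all isogeny classes of abelian varieties
-/

set_option autoImplicit false

open CategoryTheory CategoryTheory.Limits AlgebraicGeometry Polynomial Pool.Agent.Y116.UV
  Pool.Agent.J4H9.NAll Pool.Agent.J4H9.NGauss Pool.Agent.J4H9.NStm Pool.Agent.Q282.UZ

universe w

namespace Pool.Agent.J4H9.BS

/-- The conjecture of Bloch and Soulé (`Formula`) for all schemes that are built from the abelian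
varieties in `IsMember q b f`, and from other schemes for which it is true. Here `A` is the family of
the groups `CH_m(X, k) ⊗ ℚ`, with the known properties `IsChowTheory` (Bloch, Levine) and
`KahnTheorem` (Kahn). -/
def BlochSouleFor {I : Type} (q b : ℕ) (f : I → ℤ[X]) : Prop :=
  ∀ A : ℤ → ℤ → Sch ℤ → ModuleCat.{w} ℚ, IsChowTheory A → KahnTheorem A →
    ∀ X : Sch ℤ, Built (fun Y => IsMember q b f Y ∨ Formula A Y) X → Formula A X

theorem blochSoule_main {μ ε : ℝ} (hμ : 0 < μ) (hμ1 : μ ≤ 1 / 2) (hε : 0 < ε)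
    (hε1 : ε < μ / 4) :
    ∃ g₀ : ℕ, ∀ g : ℕ, g₀ ≤ g → ∀ p a : ℕ, p.Prime → 0 < a → ∀ lam : ℕ → ℝ, Slopes lam →
      ∑ i ∈ Finset.range g, lam i ≤ (1 / 2 - μ) * g →
      ∀ E : Finset ℕ, (∀ j ∈ E, 0 < j ∧ j ≤ g ∧
        ∃ n : ℕ, (a : ℝ) * ∑ i ∈ Finset.range j, lam i = n) →
      ((newtonAbove p a lam g).Finite ∧
        (64 ≤ ((p ^ a : ℕ) : ℝ) ^ (μ / 2) → 0 < (newtonThrough p a lam g E).ncard)) ∧
      ∀ (S : Set ℤ[X]) (D : ℝ), S ⊆ newtonAbove p a lam g → 1 ≤ D →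
        ((newtonThrough p a lam g E).ncard : ℝ) ≤ D * S.ncard → ∀ m : ℕ,
        ({f : Fin m → ℤ[X] | (∀ i, f i ∈ S) ∧ ¬ BlochSouleFor.{w} (p ^ a) (g / 2) f}.ncard : ℝ) ≤
          (m : ℝ) ^ 2 * D * 2 ^ E.card * 8 ^ g *
            ((p ^ a : ℕ) : ℝ) ^ (-((μ / 4 - ε) * g)) * (S.ncard : ℝ) ^ m := by
  have h := main_pred (κ := 1 / 2) le_rfl (by norm_num) hμ hμ1 hε (by linarith)
    (fun q b _ f => BlochSouleFor.{w} q b f)
    fun _ _ _ _ _ hq _ hf A hA hK X hX => formula_fam hq hf hA hK hX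
  have h6 : (μ * (1 - 1 / 2 : ℝ) / 2 - ε) = μ / 4 - ε := by ring
  have h7 : ∀ g : ℕ, ⌊(1 / 2 : ℝ) * g⌋₊ = g / 2 := by
    intro g
    have h8 : (1 / 2 : ℝ) * g = (g : ℝ) / (2 : ℕ) := by push_cast; ring
    rw [h8, Nat.floor_div_natCast, Nat.floor_natCast]
  simp only [h6, h7] at h
  exact h

end Pool.Agent.J4H9.BS
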