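import Mathlib
import Pool.Agent.J4H9.Grp

/-!
# Equivariant functions on the roots: symmetric or injective
-/

set_option autoImplicit false

namespace Pool.Agent.J4H9.HG

open Pool.Agent.J4H9.Grp

variable {G X : Type*} [Group G] [MulAction G X]

/-- An equivariant function on a block with the cycle data is symmetric or injective. -/
theorem sym_or_inj {W : Type*} [AddCommGroup W] (htf : ∀ (n : ℤ) (v : W), n ≠ 0 → n • v = 0 → v = 0)
    (act : G →* Module.End ℤ W) (w : X → W) (hw : ∀ g x, w (g • x) = act g (w x))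
    {bar : X → X} (hbb : ∀ x, bar (bar x) = x) (hG : ∀ (g : G) x, bar (g • x) = g • bar x)
    (hbar : ∀ x y, w x = w y → w (bar x) = w (bar y))
    {Y : Set X} (hY : ∀ x, x ∈ Y) {r : ℕ} (hr : r.Prime) (hr2 : r ≠ 2) {τ σ : G} {x₀ y₀ : X}
    (h : Cyc bar Y r τ σ x₀ y₀) :
    (∀ x, w (bar x) = w x) ∨ Function.Injective w := by
  have hodd : Odd r := hr.odd_of_ne_two hr2
  by_cases hsym : ∀ x, w (bar x) = w x
  · exact Or.inl hsym
  right
  -- the odd part
  let u : X → W := fun x => w x - w (bar x)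
  have hu : ∀ g x, u (g • x) = act g (u x) := by
    intro g x
    simp only [u, hG, hw, map_sub]
  have huodd : ∀ x, u (bar x) = - u x := by
    intro x
    simp only [u, hbb, neg_sub]
  have hu0 : ∀ x, u x = 0 → False := by
    intro x hx
    apply hsym
    have key : ∀ y, u y = 0 → ∀ g : G, u (g • y) = 0 := by
      intro y hy g
      rw [hu, hy, map_zero]
    have h0 : u x₀ = 0 := by
      obtain ⟨g, h1 | h1⟩ := h.trans x (hY x)
      · have h2 := key x hx g⁻¹
        rwa [← h1, inv_smul_smul] at h2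
      · have h2 : u (bar x) = 0 := by rw [huodd, hx, neg_zero]
        have h3 := key _ h2 g⁻¹
        rwa [← h1, inv_smul_smul] at h3
    intro y
    have h4 : u y = 0 := by
      obtain ⟨g, h1 | h1⟩ := h.trans y (hY y)
      · rw [← h1]
        exact key _ h0 g
      · have h2 : u (bar y) = 0 := by
          rw [← h1]
          exact key _ h0 g
        rw [huodd, neg_eq_zero] at h2
        exact h2
    exact (sub_eq_zero.1 h4).symm
  have hns : ∀ x, w x ≠ w (bar x) := fun x hx => hu0 x (sub_eq_zero.2 hx)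
  -- the class is stable
  have hsm : ∀ (g : G) x y, w x = w y → w (g • x) = w (g • y) := by
    intro g x y hxy
    rw [hw, hw, hxy]
  have h1 : w (τ • x₀) ≠ w x₀ := by
    intro h1
    have h2 : u (τ • x₀) = u x₀ := by
      have h3 := hbar _ _ h1
      simp only [u, h1, h3]
    have h3 := const_zero htf act u hu huodd hodd h h2 x₀ h.memx
    exact hu0 _ h3
  have hpow : ∀ m : ℕ, w (τ ^ m • x₀) = w x₀ → ∀ n : ℕ, w (τ ^ (m * n) • x₀) = w x₀ := by
    intro m hm n
    induction n with
    | zero => rw [mul_zero, pow_zero, one_smul]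
    | succ n ih =>
      rw [mul_add, mul_one, pow_add, mul_smul]
      exact (hsm _ _ _ hm).trans ih
  have hrp : ∀ n : ℕ, τ ^ (r * n) • x₀ = x₀ := by
    intro n
    induction n with
    | zero => rw [mul_zero, pow_zero, one_smul]
    | succ n ih => rw [mul_add, mul_one, pow_add, mul_smul, h.taur, ih]
  have hdvd : ∀ m : ℕ, w (τ ^ m • x₀) = w x₀ → r ∣ m := by
    intro m hm
    by_contra hnd
    have hc : m.Coprime r := ((hr.coprime_iff_not_dvd).2 hnd).symm
    obtain ⟨n, hn1, hn2⟩ := Nat.exists_mul_mod_eq_one_of_coprime hc hr.one_lt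
    have h2 := hpow m hm n
    rw [← Nat.div_add_mod (m * n) r, hn2, pow_add, mul_smul, pow_one] at h2
    apply h1
    have h3 : w (τ ^ (r * (m * n / r)) • τ • x₀) = w (τ • x₀) := by
      rw [← mul_smul, ← pow_succ, pow_succ', mul_smul, hrp]
    rw [← h3]
    exact h2
  have hper : ∀ m : ℕ, r ∣ m → τ ^ m • x₀ = x₀ := by
    rintro _ ⟨n, rfl⟩
    exact hrp n
  have hfix : ∀ x, τ • x = x → ∀ k : ℕ, w x ≠ w (τ ^ k • x₀) := by
    intro x hx k hk
    have h2 := hsm τ _ _ hk
    rw [hx, hk, ← mul_smul, ← pow_succ'] at h2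
    have h3 := hsm (τ ^ k)⁻¹ _ _ h2
    rw [inv_smul_smul, pow_succ, mul_smul, inv_smul_smul] at h3
    exact h1 h3.symm
  have hx0 : ∀ y, w y = w x₀ → y = x₀ := by
    intro y hy
    rcases h.fix y (hY y) with ⟨k, h2 | h2⟩ | h2
    · rw [h2] at hy ⊢
      exact hper k (hdvd k hy)
    · exfalso
      rw [h2] at hy
      have h3 := hbar _ _ hy
      rw [hbb] at h3
      -- `w (τ ^ k x₀) = w (bar x₀)`
      have h4 := hsm (τ ^ k) _ _ hy
      rw [← hG, ← mul_smul, ← pow_add, h3] at h4
      have h5 := hbar _ _ h4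
      rw [hbb, hbb] at h5
      have h6 := hdvd _ h5
      have h7 : r ∣ k := by
        rw [← two_mul] at h6
        exact (Nat.Coprime.dvd_of_dvd_mul_left ((Nat.coprime_primes hr Nat.prime_two).2 hr2) h6)
      rw [hper k h7] at h3
      exact hns _ h3
    · exfalso
      refine hfix y h2 0 ?_
      rw [pow_zero, one_smul]
      exact hy
  intro x y hxy
  obtain ⟨g, h2 | h2⟩ := h.trans x (hY x)
  · have h3 := hsm g⁻¹ _ _ hxy
    rw [← h2, inv_smul_smul] at h3
    have h4 := hx0 _ h3.symm
    rw [← h2, ← h4, smul_inv_smul]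
  · have h3 := hsm g⁻¹ _ _ (hbar _ _ hxy)
    rw [← h2, inv_smul_smul] at h3
    have h4 := hx0 _ h3.symm
    have h5 : bar y = bar x := by rw [← h2, ← h4, smul_inv_smul]
    rw [← hbb x, ← h5, hbb]

end Pool.Agent.J4H9.HG
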