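import Mathlib
import Pool.Agent.Y90.Defs

/-!
# Real extensions of endomorphisms and of forms
-/

set_option autoImplicit false

namespace Pool.Agent.J4H9.HG

open Module Pool.Agent.Y90
open Pool.Agent.H204R3.CM (IsHodge)

noncomputable section

theorem per_smul' {H T : Type*} [AddCommGroup H] [Module ℚ H] [AddCommGroup T] [Module ℂ T]
    (per : H →+ T) (c : ℚ) (v : H) : per (c • v) = (c : ℝ) • per v := by
  have h1 := map_ratCast_smul per ℚ ℂ c v
  rw [Rat.cast_id] at h1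
  rw [h1, ← Complex.coe_smul]
  norm_cast

variable (Y : AV)

/-- A rational basis. -/
def bQ : Basis (Fin (finrank ℚ Y.H)) ℚ Y.H := finBasis ℚ Y.H

theorem per_sum (v : Y.H) : Y.per v = ∑ i, ((bQ Y).repr v i : ℝ) • Y.per (bQ Y i) := by
  conv_lhs => rw [← (bQ Y).sum_repr v]
  rw [map_sum]
  exact Finset.sum_congr rfl fun i _ => per_smul' _ _ _

theorem span_b : ⊤ ≤ Submodule.span ℝ (Set.range fun i => Y.per (bQ Y i)) := by
  rw [← Y.span]
  refine Submodule.span_le.2 ?_
  rintro _ ⟨v, rfl⟩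
  rw [per_sum]
  exact Submodule.sum_mem _ fun i _ => Submodule.smul_mem _ _ (Submodule.subset_span ⟨i, rfl⟩)

/-- The real basis of the tangent space. -/
def bR : Basis (Fin (finrank ℚ Y.H)) ℝ Y.T :=
  basisOfTopLeSpanOfCardEqFinrank (fun i => Y.per (bQ Y i)) (span_b Y) (by
    rw [Fintype.card_fin, Y.rank, finrank_real_of_complex])

theorem bR_apply (i : Fin (finrank ℚ Y.H)) : bR Y i = Y.per (bQ Y i) := by
  rw [bR, coe_basisOfTopLeSpanOfCardEqFinrank]

theorem bR_repr (v : Y.H) (i : Fin (finrank ℚ Y.H)) :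
    (bR Y).repr (Y.per v) i = ((bQ Y).repr v i : ℝ) := by
  have h1 : Y.per v = ∑ i, ((bQ Y).repr v i : ℝ) • bR Y i := by
    rw [per_sum]
    exact Finset.sum_congr rfl fun i _ => by rw [bR_apply]
  rw [h1, Basis.repr_sum_self]

variable {Y}

theorem end_ext {X X' : Module.End ℝ Y.T} (h : ∀ v, X (Y.per v) = X' (Y.per v)) : X = X' :=
  (bR Y).ext fun i => by rw [bR_apply]; exact h _

theorem bil_ext {B B' : Y.T →ₗ[ℝ] Y.T →ₗ[ℝ] ℝ}
    (h : ∀ u v, B (Y.per u) (Y.per v) = B' (Y.per u) (Y.per v)) : B = B' :=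
  LinearMap.ext_basis (bR Y) (bR Y) fun i j => by rw [bR_apply, bR_apply]; exact h _ _

/-- The real extension of an endomorphism. -/
def ext (A : Module.End ℚ Y.H) : Module.End ℝ Y.T :=
  Matrix.toLin (bR Y) (bR Y) ((LinearMap.toMatrix (bQ Y) (bQ Y) A).map (Rat.castHom ℝ))

theorem ext_per (A : Module.End ℚ Y.H) (v : Y.H) : ext A (Y.per v) = Y.per (A v) := by
  apply (bR Y).repr.injective
  ext i
  rw [bR_repr, ext, Matrix.toLin_apply]
  simp only [map_sum, map_smul, Finsupp.coe_finset_sum, Finset.sum_apply, Finsupp.smul_apply,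
    smul_eq_mul, Basis.repr_self, Finsupp.single_apply, mul_ite, mul_one, mul_zero,
    Finset.sum_ite_eq', Finset.mem_univ, if_true]
  have h1 : (bQ Y).repr (A v) i =
      (LinearMap.toMatrix (bQ Y) (bQ Y) A).mulVec ((bQ Y).repr v) i := by
    rw [LinearMap.toMatrix_mulVec_repr]
  rw [h1, Matrix.mulVec, Matrix.mulVec, dotProduct, dotProduct, Rat.cast_sum]
  refine Finset.sum_congr rfl fun j _ => ?_
  rw [Matrix.map_apply, bR_repr, Rat.cast_mul]
  rfl

theorem ext_mul (A B : Module.End ℚ Y.H) : ext (A * B) = ext A * ext B :=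
  end_ext fun v => by rw [Module.End.mul_apply, ext_per, ext_per, ext_per, Module.End.mul_apply]

theorem ext_add (A B : Module.End ℚ Y.H) : ext (A + B) = ext A + ext B :=
  end_ext fun v => by
    rw [LinearMap.add_apply, ext_per, ext_per, ext_per, LinearMap.add_apply, map_add]

theorem ext_sub (A B : Module.End ℚ Y.H) : ext (A - B) = ext A - ext B :=
  end_ext fun v => by
    rw [LinearMap.sub_apply, ext_per, ext_per, ext_per, LinearMap.sub_apply, map_sub]

theorem ext_smul (c : ℚ) (A : Module.End ℚ Y.H) : ext (c • A) = (c : ℝ) • ext A :=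
  end_ext fun v => by
    rw [LinearMap.smul_apply, ext_per, ext_per, LinearMap.smul_apply, per_smul']

theorem ext_zero : ext (0 : Module.End ℚ Y.H) = 0 :=
  end_ext fun v => by rw [ext_per, LinearMap.zero_apply, LinearMap.zero_apply, map_zero]

theorem ext_sum {ι : Type*} (s : Finset ι) (A : ι → Module.End ℚ Y.H) :
    ext (∑ i ∈ s, A i) = ∑ i ∈ s, ext (A i) :=
  end_ext fun v => by
    rw [ext_per, LinearMap.sum_apply, LinearMap.sum_apply, map_sum]
    exact Finset.sum_congr rfl fun i _ => by rw [ext_per]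

theorem trace_ext (A : Module.End ℚ Y.H) :
    LinearMap.trace ℝ Y.T (ext A) = (LinearMap.trace ℚ Y.H A : ℝ) := by
  rw [LinearMap.trace_eq_matrix_trace ℝ (bR Y), LinearMap.trace_eq_matrix_trace ℚ (bQ Y), ext,
    LinearMap.toMatrix_toLin, Matrix.trace, Matrix.trace, Rat.cast_sum]
  rfl

/-- The complex structure. -/
def JJ (Y : AV) : Module.End ℝ Y.T := (LinearMap.lsmul ℂ Y.T Complex.I).restrictScalars ℝ

theorem JJ_apply (t : Y.T) : JJ Y t = Complex.I • t := rfl

theorem JJ_mul : JJ Y * JJ Y = -1 := by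
  ext t
  rw [Module.End.mul_apply, JJ_apply, JJ_apply, smul_smul, Complex.I_mul_I, neg_smul, one_smul]
  rfl

theorem smul_eq (z : ℂ) (t : Y.T) : z • t = z.re • t + z.im • JJ Y t := by
  rw [JJ_apply]
  conv_lhs => rw [← Complex.re_add_im z]
  rw [add_smul, mul_smul]
  rfl

theorem isHom_iff (A : Module.End ℚ Y.H) : IsHom Y Y A ↔ ext A * JJ Y = JJ Y * ext A := by
  constructor
  · rintro ⟨Ψ, hΨ⟩
    have h1 : ext A = Ψ.restrictScalars ℝ := end_ext fun v => by
      rw [ext_per, LinearMap.restrictScalars_apply, hΨ]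
    rw [h1]
    ext t
    rw [Module.End.mul_apply, Module.End.mul_apply, JJ_apply, JJ_apply,
      LinearMap.restrictScalars_apply, LinearMap.restrictScalars_apply, map_smul]
  · intro h
    refine ⟨⟨⟨ext A, map_add _⟩, fun z t => ?_⟩, fun v => ext_per A v⟩
    change ext A (z • t) = z • ext A t
    rw [smul_eq, smul_eq, map_add, map_smul, map_smul]
    have h2 := LinearMap.congr_fun h t
    rw [Module.End.mul_apply, Module.End.mul_apply] at h2
    rw [h2]

/-- Linear independence. -/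
theorem per_indep {κ : Type*} [Fintype κ] {ρ : κ → ℝ} (hρ : LinearIndependent ℚ ρ) {w : κ → Y.H}
    (h : ∑ k, ρ k • Y.per (w k) = 0) (k : κ) : w k = 0 := by
  have h1 : ∀ i, ∑ k, ((bQ Y).repr (w k) i) • ρ k = 0 := by
    intro i
    have h2 := congrArg (fun t => (bR Y).repr t i) h
    simp only [map_sum, map_smul, Finsupp.coe_finset_sum, Finset.sum_apply, Finsupp.smul_apply,
      smul_eq_mul, bR_repr, map_zero, Finsupp.coe_zero, Pi.zero_apply] at h2
    rw [← h2]
    exact Finset.sum_congr rfl fun k _ => by rw [Rat.smul_def, mul_comm]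
  apply (bQ Y).repr.injective
  ext i
  rw [map_zero, Finsupp.coe_zero, Pi.zero_apply]
  exact (Fintype.linearIndependent_iff.1 hρ) _ (h1 i) k

theorem rat_indep {κ : Type*} [Fintype κ] {ρ : κ → ℝ} (hρ : LinearIndependent ℚ ρ) {w : κ → ℚ}
    (h : ∑ k, ρ k * (w k : ℝ) = 0) (k : κ) : w k = 0 :=
  (Fintype.linearIndependent_iff.1 hρ) _ (by
    rw [← h]
    exact Finset.sum_congr rfl fun k _ => by rw [Rat.smul_def, mul_comm]) k

/-- A bilinear form as a multilinear form. -/
def bil2 {R M : Type*} [CommRing R] [AddCommGroup M] [Module R M] (B : M →ₗ[R] M →ₗ[R] R) :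
    MultilinearMap R (fun _ : Fin 2 => M) R where
  toFun v := B (v 0) (v 1)
  map_update_add' := by
    intro _ v i x y
    fin_cases i <;> simp [Function.update]
  map_update_smul' := by
    intro _ v i c x
    fin_cases i <;> simp [Function.update]

theorem bil2_apply {R M : Type*} [CommRing R] [AddCommGroup M] [Module R M]
    (B : M →ₗ[R] M →ₗ[R] R) (v : Fin 2 → M) : bil2 B v = B (v 0) (v 1) := rfl

/-- The polarization. -/
structure Pol (Y : AV) where
  E : Y.H →ₗ[ℚ] Y.H →ₗ[ℚ] ℚ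
  ER : Y.T →ₗ[ℝ] Y.T →ₗ[ℝ] ℝ
  compat : ∀ u v, ER (Y.per u) (Y.per v) = (E u v : ℝ)
  alt : ∀ u v, ER u v = - ER v u
  inv : ∀ u v, ER (JJ Y u) (JJ Y v) = ER u v
  pos : ∀ u, u ≠ 0 → 0 < ER (JJ Y u) u

theorem exists_pol (Y : AV) : Nonempty (Pol Y) := by
  obtain ⟨E, Ψ, hΨ1, hΨ2, hΨ3, hΨ4⟩ := Y.pol
  have hadd2 : ∀ u v w, Ψ u (v + w) = Ψ u v + Ψ u w := by
    intro u v w
    rw [hΨ2, (hΨ1 u).map_add, map_add, ← hΨ2, ← hΨ2]
  have hsm2 : ∀ (c : ℂ) u v, Ψ u (c • v) = starRingEnd ℂ c * Ψ u v := by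
    intro c u v
    rw [hΨ2, (hΨ1 u).map_smul, smul_eq_mul, map_mul, ← hΨ2]
  have hadd1 : ∀ u v w, Ψ (u + v) w = Ψ u w + Ψ v w := fun u v w => (hΨ1 w).map_add u v
  have hsm1 : ∀ (c : ℂ) u v, Ψ (c • u) v = c * Ψ u v := fun c u v => (hΨ1 v).map_smul c u
  let ER : Y.T →ₗ[ℝ] Y.T →ₗ[ℝ] ℝ := LinearMap.mk₂ ℝ (fun u v => (Ψ u v).im)
    (fun u v w => by rw [hadd1, Complex.add_im])
    (fun c u v => by
      rw [← Complex.coe_smul, hsm1]
      simp)
    (fun u v w => by rw [hadd2, Complex.add_im])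
    (fun c u v => by
      rw [← Complex.coe_smul, hsm2, Complex.conj_ofReal]
      simp)
  have hER : ∀ u v, ER u v = (Ψ u v).im := fun u v => rfl
  let E' : Y.H →ₗ[ℚ] Y.H →ₗ[ℚ] ℚ := LinearMap.mk₂ ℚ E
    (fun u v w => by
      have h1 : ((E (u + v) w : ℚ) : ℝ) = E u w + E v w := by
        rw [← hΨ4, ← hΨ4, ← hΨ4, map_add, hadd1, Complex.add_im]
      exact_mod_cast h1)
    (fun c u v => by
      have h1 : ((E (c • u) v : ℚ) : ℝ) = c * E u v := by
        rw [← hΨ4, ← hΨ4, ← hER, ← hER, per_smul', map_smul, LinearMap.smul_apply, smul_eq_mul]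
      rw [smul_eq_mul]
      exact_mod_cast h1)
    (fun u v w => by
      have h1 : ((E u (v + w) : ℚ) : ℝ) = E u v + E u w := by
        rw [← hΨ4, ← hΨ4, ← hΨ4, map_add, hadd2, Complex.add_im]
      exact_mod_cast h1)
    (fun c u v => by
      have h1 : ((E u (c • v) : ℚ) : ℝ) = c * E u v := by
        rw [← hΨ4, ← hΨ4, ← hER, ← hER, per_smul', map_smul, smul_eq_mul]
      rw [smul_eq_mul]
      exact_mod_cast h1)
  refine ⟨⟨E', ER, fun u v => hΨ4 u v, fun u v => ?_, fun u v => ?_, fun u hu => ?_⟩⟩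
  · rw [hER, hER, hΨ2, Complex.conj_im]
  · rw [hER, hER, JJ_apply, JJ_apply, hsm1, hsm2, Complex.conj_I, ← mul_assoc, mul_neg,
      Complex.I_mul_I, neg_neg, one_mul]
  · rw [hER, JJ_apply, hsm1]
    have h1 := hΨ3 u hu
    simpa using h1

end

end Pool.Agent.J4H9.HG
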