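import Mathlib
import Pool.Agent.J4H9.HGPer

/-!
# Positivity
-/

set_option autoImplicit false

namespace Pool.Agent.J4H9.HG

open Module Pool.Agent.Y90

noncomputable section

theorem trace_pos_ips {E : Type*} [NormedAddCommGroup E] [InnerProductSpace ℝ E]
    [FiniteDimensional ℝ E] {X X' : E →ₗ[ℝ] E} (h : ∀ u v, inner ℝ (X u) v = inner ℝ u (X' v))
    (h0 : X ≠ 0) : 0 < LinearMap.trace ℝ E (X' ∘ₗ X) := by
  rw [LinearMap.trace_eq_sum_inner _ (stdOrthonormalBasis ℝ E)]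
  have h1 : ∀ i, inner ℝ (stdOrthonormalBasis ℝ E i) ((X' ∘ₗ X) (stdOrthonormalBasis ℝ E i)) =
      ‖X (stdOrthonormalBasis ℝ E i)‖ ^ 2 := by
    intro i
    rw [LinearMap.comp_apply, ← h, real_inner_self_eq_norm_sq]
  rw [Finset.sum_congr rfl fun i _ => h1 i]
  refine Finset.sum_pos' (fun i _ => sq_nonneg _) ?_
  by_contra hcon
  push Not at hcon
  apply h0
  refine (stdOrthonormalBasis ℝ E).toBasis.ext fun i => ?_
  have h2 := le_antisymm (hcon i (Finset.mem_univ _)) (sq_nonneg _)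
  rw [OrthonormalBasis.coe_toBasis, LinearMap.zero_apply]
  exact norm_eq_zero.1 ((pow_eq_zero_iff two_ne_zero).1 h2)

variable {Y : AV}

theorem JJ_JJ (u : Y.T) : JJ Y (JJ Y u) = - u := by
  have h := LinearMap.congr_fun (JJ_mul (Y := Y)) u
  exact h

/-- The inner product. -/
@[instance_reducible] def core (P : Pol Y) : InnerProductSpace.Core ℝ Y.T where
  inner u v := P.ER (JJ Y u) v
  conj_inner_symm u v := by
    change starRingEnd ℝ (P.ER (JJ Y v) u) = P.ER (JJ Y u) v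
    rw [conj_trivial, P.alt, ← P.inv u, JJ_JJ, map_neg, neg_neg]
  re_inner_nonneg u := by
    change 0 ≤ P.ER (JJ Y u) u
    rcases eq_or_ne u 0 with rfl | hu
    · rw [map_zero]
    · exact (P.pos u hu).le
  add_left u v w := by
    change P.ER (JJ Y (u + v)) w = P.ER (JJ Y u) w + P.ER (JJ Y v) w
    rw [map_add, map_add, LinearMap.add_apply]
  smul_left u v c := by
    change P.ER (JJ Y (c • u)) v = starRingEnd ℝ c * P.ER (JJ Y u) v
    rw [map_smul, map_smul, LinearMap.smul_apply, conj_trivial, smul_eq_mul]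
  definite u h := by
    by_contra hu
    exact (P.pos u hu).ne' h

/-- **The trace is positive.** -/
theorem trace_pos (P : Pol Y) {X : Module.End ℝ Y.T} (hX : ∀ u v, P.ER (X u) v = - P.ER u (X v))
    (h0 : X ≠ 0) : 0 < LinearMap.trace ℝ Y.T (X * (JJ Y * X * JJ Y)) := by
  have hJ : ∀ u v, P.ER (JJ Y u) v = - P.ER u (JJ Y v) := by
    intro u v
    rw [← P.inv u, JJ_JJ, map_neg, neg_neg]
  let _ : NormedAddCommGroup Y.T := @InnerProductSpace.Core.toNormedAddCommGroup ℝ Y.T _ _ _ (core P)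
  let _ : InnerProductSpace ℝ Y.T := @InnerProductSpace.ofCore ℝ Y.T _ _ _ (core P).toCore
  rw [LinearMap.trace_mul_comm]
  refine trace_pos_ips (X := X) (X' := JJ Y * X * JJ Y) (fun u v => ?_) h0
  change P.ER (JJ Y (X u)) v = P.ER (JJ Y u) (JJ Y (X (JJ Y v)))
  rw [hJ, hX, neg_neg, P.inv]

/-- A skew complex linear endomorphism with real eigenvalues is zero. -/
theorem skew_zero (P : Pol Y) {Ψ : Y.T →ₗ[ℂ] Y.T}
    (hΨ : ∀ u v, P.ER (Ψ u) v = - P.ER u (Ψ v))
    (hr : ∀ (z : ℂ) (t : Y.T), t ≠ 0 → Ψ t = z • t → z.im = 0) : Ψ = 0 := by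
  have hker : ∀ (z : ℂ) (t : Y.T), t ≠ 0 → Ψ t = z • t → z = 0 := by
    intro z t ht hz
    have h1 := hr z t ht hz
    have h2 := hΨ (JJ Y t) t
    rw [JJ_apply, map_smul, hz, smul_comm, ← JJ_apply] at h2
    have h3 : ∀ v : Y.T, z • v = z.re • v := by
      intro v
      rw [smul_eq z v, h1, zero_smul, add_zero]
    rw [h3, h3, map_smul, map_smul, LinearMap.smul_apply, smul_eq_mul] at h2
    have h4 : z.re = 0 := by
      have h5 := P.pos t ht
      have h6 : 2 * z.re * P.ER (JJ Y t) t = 0 := by linarith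
      rcases mul_eq_zero.1 h6 with h7 | h7
      · linarith
      · exact absurd h7 h5.ne'
    exact Complex.ext h4 h1
  by_contra h0
  -- the range
  have hst : ∀ x ∈ LinearMap.range Ψ, Ψ x ∈ LinearMap.range Ψ := fun x _ => ⟨x, rfl⟩
  have hne : Nontrivial (LinearMap.range Ψ) := by
    rw [Submodule.nontrivial_iff_ne_bot]
    intro h1
    exact h0 (LinearMap.range_eq_bot.1 h1)
  obtain ⟨z, hz⟩ := Module.End.exists_eigenvalue (Ψ.restrict hst)
  obtain ⟨t, ht⟩ := hz.exists_hasEigenvector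
  have h1 : Ψ (t : Y.T) = z • (t : Y.T) := by
    have h2 := congrArg (Subtype.val) ht.apply_eq_smul
    exact h2
  have ht0 : (t : Y.T) ≠ 0 := fun h2 => ht.2 (Subtype.ext h2)
  have h2 := hker z t ht0 h1
  rw [h2, zero_smul] at h1
  obtain ⟨u, hu⟩ := t.2
  have h3 := P.pos t ht0
  rw [← hu, JJ_apply, ← map_smul, hΨ, hu, h1, map_zero, neg_zero] at h3
  exact lt_irrefl _ h3

end

end Pool.Agent.J4H9.HG
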