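import Mathlib
import Pool.Agent.J4H9.HGPos
import Pool.Agent.R915.Stm
import Pool.Agent.H204R3.GP.TateG
import Pool.Agent.TH170.FT.Hodge

/-!
# The Casimir element
-/

set_option autoImplicit false

namespace Pool.Agent.J4H9.HG

open Module Pool.Agent.Y90 Pool.Agent.R915 Pool.Agent.H204R3.GP Pool.Agent.TH170.FT
open Pool.Agent.H204R3.CM (IsHodge)

noncomputable section

variable {Y : AV}

theorem exists_rho {𝔤 : Submodule ℚ (Module.End ℚ Y.H)} (h : HodgeLie Y 𝔤) :
    ∃ (m : ℕ) (ρ : Fin m → ℝ) (a : Fin m → Module.End ℚ Y.H), LinearIndependent ℚ ρ ∧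
      (∀ k, a k ∈ 𝔤) ∧ JJ Y = ∑ k, ρ k • ext (a k) := by
  obtain ⟨-, n, r, a, ha, hJ⟩ := h
  let V : Submodule ℚ ℝ := Submodule.span ℚ (Set.range r)
  have : FiniteDimensional ℚ V := FiniteDimensional.span_of_finite ℚ (Set.finite_range r)
  let c := finBasis ℚ V
  have hr : ∀ i, r i ∈ V := fun i => Submodule.subset_span ⟨i, rfl⟩
  refine ⟨finrank ℚ V, fun k => (c k : ℝ), fun k => ∑ i, c.repr ⟨r i, hr i⟩ k • a i, ?_,
    fun k => Submodule.sum_mem _ fun i _ => Submodule.smul_mem _ _ (ha i), end_ext fun v => ?_⟩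
  · exact c.linearIndependent.map' V.subtype V.ker_subtype
  · rw [JJ_apply, hJ, LinearMap.sum_apply]
    have h1 : ∀ i, r i = ∑ k, (c.repr ⟨r i, hr i⟩ k : ℝ) * (c k : ℝ) := by
      intro i
      have h2 := congrArg (V.subtype) (c.sum_repr ⟨r i, hr i⟩)
      rw [map_sum] at h2
      refine h2.symm.trans (Finset.sum_congr rfl fun k _ => ?_)
      rw [map_smul, Submodule.subtype_apply, Rat.smul_def]
    have h3 : ∀ k, ((c k : ℝ) • ext (∑ i, c.repr ⟨r i, hr i⟩ k • a i)) (Y.per v) =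
        ∑ i, ((c.repr ⟨r i, hr i⟩ k : ℝ) * (c k : ℝ)) • Y.per (a i v) := by
      intro k
      rw [LinearMap.smul_apply, ext_per, LinearMap.sum_apply, map_sum, Finset.smul_sum]
      refine Finset.sum_congr rfl fun i _ => ?_
      rw [LinearMap.smul_apply, per_smul', smul_smul, mul_comm]
    rw [Finset.sum_congr rfl fun k _ => h3 k, Finset.sum_comm]
    refine Finset.sum_congr rfl fun i _ => ?_
    rw [← Finset.sum_smul, ← h1, Complex.coe_smul]

/-- The Lefschetz Lie algebra. -/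
def Lf (P : Pol Y) : Submodule ℚ (Module.End ℚ Y.H) where
  carrier := {A | (∀ f, IsHom Y Y f → A * f = f * A) ∧ ∀ u v, P.E (A u) v + P.E u (A v) = 0}
  zero_mem' := ⟨fun f _ => by rw [zero_mul, mul_zero], fun u v => by
    rw [LinearMap.zero_apply, LinearMap.zero_apply, map_zero, map_zero, LinearMap.zero_apply,
      add_zero]⟩
  add_mem' := by
    rintro A B ⟨h1, h2⟩ ⟨h3, h4⟩
    refine ⟨fun f hf => by rw [add_mul, mul_add, h1 f hf, h3 f hf], fun u v => ?_⟩
    rw [LinearMap.add_apply, LinearMap.add_apply, map_add, map_add, LinearMap.add_apply]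
    linear_combination h2 u v + h4 u v
  smul_mem' := by
    rintro c A ⟨h1, h2⟩
    refine ⟨fun f hf => by rw [smul_mul_assoc, mul_smul_comm, h1 f hf], fun u v => ?_⟩
    rw [LinearMap.smul_apply, LinearMap.smul_apply, map_smul, map_smul, LinearMap.smul_apply,
      smul_eq_mul, smul_eq_mul]
    linear_combination c * h2 u v

theorem Lf_br (P : Pol Y) {A B : Module.End ℚ Y.H} (hA : A ∈ Lf P) (hB : B ∈ Lf P) :
    A * B - B * A ∈ Lf P := by
  obtain ⟨h1, h2⟩ := hA
  obtain ⟨h3, h4⟩ := hB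
  refine ⟨fun f hf => ?_, fun u v => ?_⟩
  · have h5 := h1 f hf
    have h6 := h3 f hf
    have h7 : A * B * f = f * (A * B) := by rw [mul_assoc, h6, ← mul_assoc, h5, mul_assoc]
    have h8 : B * A * f = f * (B * A) := by rw [mul_assoc, h5, ← mul_assoc, h6, mul_assoc]
    rw [sub_mul, mul_sub, h7, h8]
  · simp only [LinearMap.sub_apply, Module.End.mul_apply, map_sub]
    linear_combination h2 (B u) v - h4 u (A v) - h4 (A u) v + h2 u (B v)

theorem mem_Lf (P : Pol Y) {m : ℕ} {ρ : Fin m → ℝ} {a : Fin m → Module.End ℚ Y.H}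
    (hρ : LinearIndependent ℚ ρ) (hJ : JJ Y = ∑ k, ρ k • ext (a k)) (k : Fin m) : a k ∈ Lf P := by
  refine ⟨fun f hf => ?_, fun u v => ?_⟩
  · have h1 := (isHom_iff f).1 hf
    ext v
    rw [Module.End.mul_apply, Module.End.mul_apply, ← sub_eq_zero]
    refine per_indep hρ (w := fun k => a k (f v) - f (a k v)) ?_ k
    have h2 := LinearMap.congr_fun h1 (Y.per v)
    rw [Module.End.mul_apply, Module.End.mul_apply, ext_per, hJ, LinearMap.sum_apply,
      LinearMap.sum_apply, map_sum] at h2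
    simp only [LinearMap.smul_apply, map_smul, ext_per] at h2
    simp only [map_sub, smul_sub, Finset.sum_sub_distrib]
    rw [h2, sub_self]
  · refine rat_indep hρ (w := fun k => P.E (a k u) v + P.E u (a k v)) ?_ k
    have hJ' : ∀ u v, P.ER (JJ Y u) v + P.ER u (JJ Y v) = 0 := by
      intro u v
      rw [← P.inv u, JJ_JJ, map_neg, add_neg_cancel]
    have h2 := hJ' (Y.per u) (Y.per v)
    rw [hJ] at h2
    simp only [LinearMap.sum_apply, LinearMap.smul_apply, map_sum, map_smul, ext_per, P.compat,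
      smul_eq_mul] at h2
    rw [← Finset.sum_add_distrib] at h2
    rw [← h2]
    refine Finset.sum_congr rfl fun k _ => ?_
    push_cast
    ring

/-- The data. -/
structure Dat (P : Pol Y) (𝔤 : Submodule ℚ (Module.End ℚ Y.H)) : Prop where
  br : ∀ A ∈ 𝔤, ∀ B ∈ 𝔤, A * B - B * A ∈ 𝔤
  le : 𝔤 ≤ Lf P
  J : ∃ (m : ℕ) (ρ : Fin m → ℝ) (a : Fin m → Module.End ℚ Y.H), (∀ k, a k ∈ 𝔤) ∧
    JJ Y = ∑ k, ρ k • ext (a k)

theorem dat_of (P : Pol Y) {𝔤 : Submodule ℚ (Module.End ℚ Y.H)} (h : HodgeLie Y 𝔤) :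
    Dat P (𝔤 ⊓ Lf P) := by
  obtain ⟨m, ρ, a, hρ, ha, hJ⟩ := exists_rho h
  exact ⟨fun A hA B hB => ⟨h.1 A hA.1 B hB.1, Lf_br P hA.2 hB.2⟩, inf_le_right,
    m, ρ, a, fun k => ⟨ha k, mem_Lf P hρ hJ k⟩, hJ⟩

/-- The real span. -/
def gR (𝔤 : Submodule ℚ (Module.End ℚ Y.H)) : Submodule ℝ (Module.End ℝ Y.T) :=
  Submodule.span ℝ (ext '' 𝔤)

variable {P : Pol Y} {𝔤 : Submodule ℚ (Module.End ℚ Y.H)}

theorem ext_mem {A : Module.End ℚ Y.H} (hA : A ∈ 𝔤) : ext A ∈ gR 𝔤 :=
  Submodule.subset_span ⟨A, hA, rfl⟩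

theorem Dat.brR (h : Dat P 𝔤) {X : Module.End ℝ Y.T} (hX : X ∈ gR 𝔤) :
    JJ Y * X - X * JJ Y ∈ gR 𝔤 := by
  obtain ⟨m, ρ, a, ha, hJ⟩ := h.J
  induction hX using Submodule.span_induction with
  | mem X hX =>
    obtain ⟨A, hA, rfl⟩ := hX
    have h1 : JJ Y * ext A - ext A * JJ Y = ∑ k, ρ k • ext (a k * A - A * a k) := by
      rw [hJ, Finset.sum_mul, Finset.mul_sum, ← Finset.sum_sub_distrib]
      refine Finset.sum_congr rfl fun k _ => ?_
      rw [ext_sub, ext_mul, ext_mul, smul_sub, smul_mul_assoc, mul_smul_comm]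
    rw [h1]
    exact Submodule.sum_mem _ fun k _ => Submodule.smul_mem _ _ (ext_mem (h.br _ (ha k) _ hA))
  | zero => rw [mul_zero, zero_mul, sub_zero]; exact Submodule.zero_mem _
  | add X X' _ _ h1 h2 =>
    have h3 : JJ Y * (X + X') - (X + X') * JJ Y =
        (JJ Y * X - X * JJ Y) + (JJ Y * X' - X' * JJ Y) := by noncomm_ring
    rw [h3]
    exact Submodule.add_mem _ h1 h2
  | smul c X _ h1 =>
    have h3 : JJ Y * (c • X) - (c • X) * JJ Y = c • (JJ Y * X - X * JJ Y) := by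
      rw [smul_sub, smul_mul_assoc, mul_smul_comm]
    rw [h3]
    exact Submodule.smul_mem _ _ h1

theorem Dat.JXJ (h : Dat P 𝔤) {X : Module.End ℝ Y.T} (hX : X ∈ gR 𝔤) :
    JJ Y * X * JJ Y ∈ gR 𝔤 := by
  have h1 : JJ Y * X * JJ Y = -X - (1 / 2 : ℝ) • (JJ Y * (JJ Y * X - X * JJ Y) -
      (JJ Y * X - X * JJ Y) * JJ Y) := by
    have h2 : JJ Y * (JJ Y * X - X * JJ Y) - (JJ Y * X - X * JJ Y) * JJ Y =
        (JJ Y * JJ Y) * X + X * (JJ Y * JJ Y) - (2 : ℝ) • (JJ Y * X * JJ Y) := by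
      rw [two_smul]
      noncomm_ring
    rw [h2, JJ_mul, neg_one_mul, mul_neg_one]
    module
  rw [h1]
  exact Submodule.sub_mem _ (Submodule.neg_mem _ hX)
    (Submodule.smul_mem _ _ (h.brR (h.brR hX)))

/-- Multiplication by a complex number. -/
def zz (Y : AV) (z : ℂ) : Module.End ℝ Y.T := (LinearMap.lsmul ℂ Y.T z).restrictScalars ℝ

theorem zz_apply (z : ℂ) (t : Y.T) : zz Y z t = z • t := rfl

theorem zz_eq (z : ℂ) : zz Y z = z.re • 1 + z.im • JJ Y := by
  ext t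
  rw [zz_apply, smul_eq]
  rfl

theorem zz_mul {z w : ℂ} (h : z * w = 1) : zz Y z * zz Y w = 1 := by
  ext t
  rw [Module.End.mul_apply, zz_apply, zz_apply, smul_smul, h, one_smul]
  rfl

theorem Dat.conj (h : Dat P 𝔤) (z : ℂ) {X : Module.End ℝ Y.T} (hX : X ∈ gR 𝔤) :
    zz Y (starRingEnd ℂ z) * X * zz Y z ∈ gR 𝔤 := by
  have h1 : zz Y (starRingEnd ℂ z) * X * zz Y z = (z.re * z.re) • X -
      (z.im * z.im) • (JJ Y * X * JJ Y) - (z.re * z.im) • (JJ Y * X - X * JJ Y) := by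
    rw [zz_eq, zz_eq, Complex.conj_re, Complex.conj_im]
    simp only [add_mul, mul_add, smul_mul_assoc, mul_smul_comm, one_mul, mul_one, neg_smul,
      neg_mul, smul_sub, mul_assoc]
    module
  rw [h1]
  exact Submodule.sub_mem _ (Submodule.sub_mem _ (Submodule.smul_mem _ _ hX)
    (Submodule.smul_mem _ _ (h.JXJ hX))) (Submodule.smul_mem _ _ (h.brR hX))

/-- The trace form is nondegenerate. -/
theorem Dat.nd (h : Dat P 𝔤) {A : Module.End ℚ Y.H} (hA : A ∈ 𝔤)
    (h0 : ∀ B ∈ 𝔤, LinearMap.trace ℚ Y.H (A * B) = 0) : A = 0 := by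
  have h1 : ∀ X ∈ gR 𝔤, LinearMap.trace ℝ Y.T (ext A * X) = 0 := by
    intro X hX
    induction hX using Submodule.span_induction with
    | mem X hX =>
      obtain ⟨B, hB, rfl⟩ := hX
      rw [← ext_mul, trace_ext, h0 B hB, Rat.cast_zero]
    | zero => rw [mul_zero, map_zero]
    | add X X' _ _ h1 h2 => rw [mul_add, map_add, h1, h2, add_zero]
    | smul c X _ h1 => rw [mul_smul_comm, map_smul, h1, smul_zero]
  by_contra hne
  have h2 : ext A ≠ 0 := by
    intro h3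
    apply hne
    ext v
    have h4 := LinearMap.congr_fun h3 (Y.per v)
    rw [ext_per, LinearMap.zero_apply] at h4
    apply (bQ Y).repr.injective
    ext i
    have h5 := bR_repr Y (A v) i
    rw [h4, map_zero, Finsupp.coe_zero, Pi.zero_apply] at h5
    rw [LinearMap.zero_apply, map_zero, Finsupp.coe_zero, Pi.zero_apply]
    exact_mod_cast h5.symm
  have h3 : ∀ u v, P.ER (ext A u) v = - P.ER u (ext A v) := by
    have h4 : P.ER.comp (ext A) = -(P.ER.compl₂ (ext A)) := by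
      refine bil_ext fun u v => ?_
      rw [LinearMap.comp_apply, LinearMap.neg_apply, LinearMap.neg_apply, LinearMap.compl₂_apply,
        ext_per, ext_per, P.compat, P.compat]
      have h5 := (h.le hA).2 u v
      rw [eq_neg_iff_add_eq_zero]
      exact_mod_cast h5
    intro u v
    have h5 := LinearMap.congr_fun (LinearMap.congr_fun h4 u) v
    exact h5
  have h4 := trace_pos P h3 h2
  rw [h1 _ (h.JXJ (ext_mem hA))] at h4
  exact lt_irrefl _ h4

/-- Dual bases for the trace form. -/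
theorem Dat.exists_dual (h : Dat P 𝔤) : ∃ (m : ℕ) (X Z : Fin m → Module.End ℚ Y.H),
    (∀ i, X i ∈ 𝔤) ∧ (∀ i, Z i ∈ 𝔤) ∧
    (∀ A ∈ 𝔤, A = ∑ i, LinearMap.trace ℚ Y.H (A * Z i) • X i) ∧
    (∀ A ∈ 𝔤, A = ∑ i, LinearMap.trace ℚ Y.H (A * X i) • Z i) ∧ LinearIndependent ℚ Z := by
  classical
  let B : LinearMap.BilinForm ℚ 𝔤 := LinearMap.mk₂ ℚ
    (fun A C => LinearMap.trace ℚ Y.H ((A : Module.End ℚ Y.H) * (C : Module.End ℚ Y.H)))
    (fun A B C => by rw [Submodule.coe_add, add_mul, map_add])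
    (fun c A B => by rw [Submodule.coe_smul, smul_mul_assoc, map_smul])
    (fun A B C => by rw [Submodule.coe_add, mul_add, map_add])
    (fun c A B => by rw [Submodule.coe_smul, mul_smul_comm, map_smul])
  have hB : ∀ A C : 𝔤, B A C = LinearMap.trace ℚ Y.H ((A : Module.End ℚ Y.H) * C) :=
    fun A C => rfl
  have hsep : ∀ A : 𝔤, (∀ C, B A C = 0) → A = 0 := by
    intro A hA
    apply Subtype.ext
    exact h.nd A.2 fun C hC => hA ⟨C, hC⟩
  have hsep' : ∀ A : 𝔤, (∀ C, B C A = 0) → A = 0 := by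
    intro A hA
    refine hsep A fun C => ?_
    rw [hB, LinearMap.trace_mul_comm]
    exact hA C
  have hnd : B.Nondegenerate := ⟨hsep, hsep'⟩
  let b := finBasis ℚ 𝔤
  let d := B.dualBasis hnd b
  refine ⟨finrank ℚ 𝔤, fun i => b i, fun i => d i, fun i => (b i).2, fun i => (d i).2, ?_, ?_,
    d.linearIndependent.map' 𝔤.subtype 𝔤.ker_subtype⟩
  · intro A hA
    have h1 := congrArg 𝔤.subtype (b.sum_repr ⟨A, hA⟩)
    rw [map_sum] at h1
    refine h1.symm.trans (Finset.sum_congr rfl fun i _ => ?_)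
    rw [map_smul, Submodule.subtype_apply]
    congr 1
    have h2 : (⟨A, hA⟩ : 𝔤) = ∑ j, b.repr ⟨A, hA⟩ j • b j := (b.sum_repr _).symm
    have h3 : B (d i) ⟨A, hA⟩ = b.repr ⟨A, hA⟩ i := by
      conv_lhs => rw [h2]
      rw [map_sum]
      simp only [map_smul, smul_eq_mul]
      rw [Finset.sum_eq_single i]
      · rw [LinearMap.BilinForm.apply_dualBasis_left, if_pos rfl, mul_one]
      · intro j _ hj
        rw [LinearMap.BilinForm.apply_dualBasis_left, if_neg hj, mul_zero]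
      · intro h4
        exact absurd (Finset.mem_univ i) h4
    rw [← h3, hB, LinearMap.trace_mul_comm]
  · intro A hA
    have h1 := congrArg 𝔤.subtype (d.sum_repr ⟨A, hA⟩)
    rw [map_sum] at h1
    refine h1.symm.trans (Finset.sum_congr rfl fun i _ => ?_)
    rw [map_smul, Submodule.subtype_apply]
    congr 1
    exact LinearMap.BilinForm.dualBasis_repr_apply hnd b ⟨A, hA⟩ i

theorem expand {m : ℕ} {X Z : Fin m → Module.End ℚ Y.H}
    (h : ∀ A ∈ 𝔤, A = ∑ i, LinearMap.trace ℚ Y.H (A * Z i) • X i) {A : Module.End ℝ Y.T}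
    (hA : A ∈ gR 𝔤) : A = ∑ i, LinearMap.trace ℝ Y.T (A * ext (Z i)) • ext (X i) := by
  induction hA using Submodule.span_induction with
  | mem A hA =>
    obtain ⟨A, hA, rfl⟩ := hA
    conv_lhs => rw [h A hA]
    rw [ext_sum]
    refine Finset.sum_congr rfl fun i _ => ?_
    rw [ext_smul, ← ext_mul, trace_ext]
  | zero => simp
  | add A B _ _ h1 h2 =>
    conv_lhs => rw [h1, h2]
    rw [← Finset.sum_add_distrib]
    refine Finset.sum_congr rfl fun i _ => ?_
    rw [add_mul, map_add, add_smul]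
  | smul c A _ h1 =>
    conv_lhs => rw [h1]
    rw [Finset.smul_sum]
    refine Finset.sum_congr rfl fun i _ => ?_
    rw [smul_mul_assoc, map_smul, smul_smul, smul_eq_mul]

end

end Pool.Agent.J4H9.HG
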