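import Mathlib
import Pool.Agent.J4H9.NStm
import Pool.Agent.R915.Stm2
import Pool.Agent.TH170.FT.CommonDefs

/-!
# Liftings of isogeny classes over finite fields: definitions

The definitions which are used in the statement of the results, besides those of
`Pool.Agent.Y90.Defs` (complex abelian varieties `AV`, homomorphisms `IsHom`), `Pool.Agent.R915.Stm`
(`HasCMult`), `Pool.Agent.R915.Stm2` (`IsFactor`), `Pool.Agent.TH170.FT.CommonDefs` (`GaloisData`) and
`Pool.Agent.J4H9.NStm` (the Newton strata `newtonAbove`, `newtonThrough`).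
-/

set_option autoImplicit false

namespace Pool.Agent.J4H9.HG

open Polynomial Module TensorProduct Pool.Agent.Y90 Pool.Agent.R915 Pool.Agent.J4H9.NGauss
  Pool.Agent.J4H9.NStm Pool.Agent.TH170.FT

/-- The complex abelian variety `Y` is isogenous to an abelian variety over a finitely generated
subfield of `ℂ` with good reduction at a place whose residue field has `q` elements, and `f` is the
characteristic polynomial of Frobenius of the reduction. Here `D` is the action of the Galois group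
on the rational Tate module `ℚ_ℓ ⊗ H_1(Y, ℚ)`, with the properties in `GaloisData`, `γ` is the
Frobenius element, and the traces of `P γ ^ n` are rational for the endomorphisms `P` of `Y`, since
they are the traces of endomorphisms of the reduction. -/
def IsLifting (Y : AV) (q : ℕ) (f : ℤ[X]) : Prop :=
  ∃ (ℓ : ℕ) (_ : Fact ℓ.Prime) (Γ : Type) (_ : Group Γ) (ω₀ : Y.H →ₗ[ℚ] Y.H →ₗ[ℚ] ℚ)
    (D : GaloisData Y.per ω₀ Γ ℓ) (γ : Γ), D.χ γ = q ∧
    (D.ρ γ).charpoly = f.map (Int.castRingHom ℚ_[ℓ]) ∧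
    ∀ P : Y.H →ₗ[ℚ] Y.H, IsHom Y Y P → ∀ n : ℕ, ∃ t : ℚ,
      LinearMap.trace ℚ_[ℓ] (ℚ_[ℓ] ⊗[ℚ] Y.H) (P.baseChange ℚ_[ℓ] ∘ₗ D.ρ (γ ^ n)) = t

/-- The set `𝒢` of pairs `(q, f)` contains almost all Weil polynomials `f` in the closed Newton
stratum of the slopes `lam 0, lam 1, …` over the field with `q = p ^ a` elements, if the height of the
Newton polygon over `g` is at most `(1 / 2 - μ) g`: each subset `S` of the stratum which has at least
`1 / D` times as many elements as `newtonThrough p a lam g E` contains at most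
`D 2 ^ #E 8 ^ g q ^ (- (μ / 4 - ε) g) #S` exceptions, for all `g ≥ g₀(μ, ε)`. -/
def AlmostAll (𝒢 : Set (ℕ × ℤ[X])) : Prop :=
  ∀ μ ε : ℝ, 0 < μ → μ ≤ 1 / 2 → 0 < ε → ε < μ / 4 →
    ∃ g₀ : ℕ, ∀ g : ℕ, g₀ ≤ g → ∀ p a : ℕ, p.Prime → 0 < a → ∀ lam : ℕ → ℝ, Slopes lam →
      ∑ i ∈ Finset.range g, lam i ≤ (1 / 2 - μ) * g →
      ∀ E : Finset ℕ, (∀ j ∈ E, 0 < j ∧ j ≤ g ∧
        ∃ n : ℕ, (a : ℝ) * ∑ i ∈ Finset.range j, lam i = n) →
      ((newtonAbove p a lam g).Finite ∧
        (64 ≤ ((p ^ a : ℕ) : ℝ) ^ (μ / 2) → 0 < (newtonThrough p a lam g E).ncard)) ∧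
      ∀ (S : Set ℤ[X]) (D : ℝ), S ⊆ newtonAbove p a lam g → 1 ≤ D →
        ((newtonThrough p a lam g E).ncard : ℝ) ≤ D * S.ncard →
        ({f | f ∈ S ∧ (p ^ a, f) ∉ 𝒢}.ncard : ℝ) ≤
          D * 2 ^ E.card * 8 ^ g * ((p ^ a : ℕ) : ℝ) ^ (-((μ / 4 - ε) * g)) * S.ncard

/-- Each simple factor `Y` of `X` has no complex multiplication and is a lifting of an isogeny class
in the set `𝒢`, or `Y` is a factor of a (fixed) abelian variety `A` of dimension at most three. -/
def HasFactorsIn (𝒢 : Set (ℕ × ℤ[X])) (X : AV) : Prop :=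
  ∃ A : AV, finrank ℚ A.H ≤ 6 ∧ ∀ Y, IsFactor Y X → IsFactor Y A ∨
    (¬ HasCMult Y ∧ ∃ c ∈ 𝒢, IsLifting Y c.1 c.2)

end Pool.Agent.J4H9.HG
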