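import Mathlib
import Pool.Agent.R915.Stm2

/-!
# The endomorphism algebra is totally real or there is complex multiplication
-/

set_option autoImplicit false
set_option linter.unusedSectionVars false

namespace Pool.Agent.J4H9.HG

open Module TensorProduct Pool.Agent.Y90 Pool.Agent.R915 Polynomial

noncomputable section

section

variable {k Ω L W R : Type} [Field k] [CharZero k] [Field Ω] [Algebra k Ω] [Field L] [CharZero L]
  [AddCommGroup W] [Module ℚ W] [FiniteDimensional ℚ W] [Fintype R]
  (e : Basis R Ω (Ω ⊗[k] (k ⊗[ℚ] W))) (jΩ : L →+* Ω)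

/-- Base change. -/
abbrev bc (k Ω : Type) [Field k] [CharZero k] [Field Ω] [Algebra k Ω] {W : Type} [AddCommGroup W]
    [Module ℚ W] (P : Module.End ℚ W) : Module.End Ω (Ω ⊗[k] (k ⊗[ℚ] W)) :=
  (P.baseChange k).baseChange Ω

theorem bc_mul (P Q : Module.End ℚ W) : bc k Ω (P * Q) = bc k Ω P * bc k Ω Q := by
  have h1 : (P * Q).baseChange k = P.baseChange k ∘ₗ Q.baseChange k :=
    LinearMap.baseChange_comp ..
  change ((P * Q).baseChange k).baseChange Ω = _
  rw [h1]
  exact LinearMap.baseChange_comp ..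

theorem bc_inj {P Q : Module.End ℚ W} (h : bc k Ω P = bc k Ω Q) : P = Q := by
  have h1 : ∀ {F : Type} [Field F] {V : Type} [AddCommGroup V] [Module F V] (G : Type) [Field G]
      [Algebra F G] {A B : Module.End F V}, A.baseChange G = B.baseChange G → A = B := by
    intro F _ V _ _ G _ _ A B hAB
    ext v
    have h2 := LinearMap.congr_fun hAB ((1 : G) ⊗ₜ[F] v)
    rw [LinearMap.baseChange_tmul, LinearMap.baseChange_tmul] at h2
    exact (Module.FaithfullyFlat.tensorProduct_mk_injective (A := F) (B := G) V) h2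
  exact h1 k (h1 Ω h)

variable {P Q : Module.End ℚ W} {η θ : R → L}

theorem comm_of_eig (hP : ∀ x, bc k Ω P (e x) = jΩ (η x) • e x)
    (hQ : ∀ x, bc k Ω Q (e x) = jΩ (θ x) • e x) : P * Q = Q * P := by
  apply bc_inj (k := k) (Ω := Ω)
  rw [bc_mul, bc_mul]
  refine e.ext fun x => ?_
  rw [Module.End.mul_apply, Module.End.mul_apply, hP, hQ, map_smul, map_smul, hP, hQ, smul_smul,
    smul_smul, mul_comm]

theorem charpoly_of_eig (hP : ∀ x, bc k Ω P (e x) = jΩ (η x) • e x) :
    P.charpoly.map (algebraMap ℚ L) = ∏ x, (X - C (η x)) := by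
  classical
  apply Polynomial.map_injective jΩ jΩ.injective
  have h1 : (bc k Ω P).charpoly = P.charpoly.map (jΩ.comp (algebraMap ℚ L)) := by
    change ((P.baseChange k).baseChange Ω).charpoly = _
    rw [LinearMap.charpoly_baseChange, LinearMap.charpoly_baseChange, Polynomial.map_map]
    congr 1
    exact RingHom.ext_rat _ _
  rw [Polynomial.map_map, ← h1, Polynomial.map_prod, ← LinearMap.charpoly_toMatrix _ e]
  have h2 : LinearMap.toMatrix e e (bc k Ω P) = Matrix.diagonal fun x => jΩ (η x) := by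
    ext x y
    rw [LinearMap.toMatrix_apply, hP, map_smul, Finsupp.smul_apply, Basis.repr_self, smul_eq_mul,
      Matrix.diagonal_apply]
    by_cases hxy : x = y
    · subst hxy
      rw [Finsupp.single_eq_same, mul_one, if_pos rfl]
    · rw [if_neg hxy, Finsupp.single_eq_of_ne hxy, mul_zero]
  rw [h2, Matrix.charpoly_diagonal]
  simp only [Polynomial.map_sub, Polynomial.map_X, Polynomial.map_C]

theorem root_of_eig (hP : ∀ x, bc k Ω P (e x) = jΩ (η x) • e x) (j : L →+* ℂ) {z : ℂ}
    (hz : aeval z (minpoly ℚ P) = 0) : ∃ x, j (η x) = z := by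
  have h1 : aeval z P.charpoly = 0 := by
    obtain ⟨q, hq⟩ := LinearMap.minpoly_dvd_charpoly P
    rw [hq, map_mul, hz, zero_mul]
  have h2 := congrArg (Polynomial.map j) (charpoly_of_eig e jΩ hP)
  rw [Polynomial.map_map, RingHom.ext_rat (j.comp (algebraMap ℚ L)) (algebraMap ℚ ℂ),
    Polynomial.map_prod] at h2
  have h3 : eval z (P.charpoly.map (algebraMap ℚ ℂ)) = 0 := by
    rw [Polynomial.eval_map]
    exact h1
  rw [h2, Polynomial.eval_prod, Finset.prod_eq_zero_iff] at h3
  obtain ⟨x, -, hx⟩ := h3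
  refine ⟨x, ?_⟩
  simp only [Polynomial.map_sub, Polynomial.map_X, Polynomial.map_C, Polynomial.eval_sub,
    Polynomial.eval_X, Polynomial.eval_C] at hx
  exact (sub_eq_zero.1 hx).symm

include e in
theorem card_of_eig : Fintype.card R = finrank ℚ W := by
  rw [← Module.finrank_eq_card_basis e, Module.finrank_baseChange, Module.finrank_baseChange]

theorem zero_of_eig (hP : ∀ x, bc k Ω P (e x) = jΩ (η x) • e x) (h : ∀ x, η x = 0) : P = 0 := by
  apply bc_inj (k := k) (Ω := Ω)
  refine e.ext fun x => ?_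
  rw [hP, h, map_zero, zero_smul]
  have h1 : bc k Ω (0 : Module.End ℚ W) = 0 := by
    change ((0 : Module.End ℚ W).baseChange k).baseChange Ω = 0
    have h2 : (0 : Module.End ℚ W).baseChange k = 0 := LinearMap.baseChange_zero
    rw [h2]
    exact LinearMap.baseChange_zero
  rw [h1, LinearMap.zero_apply]

theorem inj_of_eig (hP : ∀ x, bc k Ω P (e x) = jΩ (η x) • e x) (h : ∀ x, η x ≠ 0) :
    Function.Injective P := by
  have h1 := charpoly_of_eig e jΩ hP
  have h2 : LinearMap.det P ≠ 0 := by
    intro h3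
    rw [LinearMap.det_eq_sign_charpoly_coeff, mul_eq_zero] at h3
    have h4 : P.charpoly.coeff 0 = 0 := h3.resolve_left (pow_ne_zero _ (by norm_num))
    have h5 := congrArg (fun q => q.eval 0) h1
    simp only [Polynomial.eval_prod, Polynomial.eval_sub, Polynomial.eval_X, Polynomial.eval_C,
      zero_sub] at h5
    rw [← Polynomial.coeff_zero_eq_eval_zero, Polynomial.coeff_map, h4, map_zero] at h5
    exact Finset.prod_ne_zero_iff.2 (fun x _ => neg_ne_zero.2 (h x)) h5.symm
  rw [← LinearMap.ker_eq_bot]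
  by_contra hk
  exact h2 (LinearMap.det_eq_zero_iff_ker_ne_bot.2 hk)

theorem bc_smul (c : ℚ) (P : Module.End ℚ W) : bc k Ω (c • P) = (c : Ω) • bc k Ω P := by
  have h1 : ∀ {F : Type} [Field F] {V : Type} [AddCommGroup V] [Module F V] (G : Type) [Field G]
      [Algebra F G] (a : F) (A : Module.End F V),
      (a • A).baseChange G = algebraMap F G a • A.baseChange G := by
    intro F _ V _ _ G _ _ a A
    rw [LinearMap.baseChange_smul, algebraMap_smul]
  change ((c • P).baseChange k).baseChange Ω = _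
  rw [h1 k c P, h1 Ω]
  congr 1
  rw [eq_ratCast, map_ratCast]

theorem bc_add (P Q : Module.End ℚ W) : bc k Ω (P + Q) = bc k Ω P + bc k Ω Q := by
  change ((P + Q).baseChange k).baseChange Ω = _
  rw [LinearMap.baseChange_add, LinearMap.baseChange_add]

theorem bc_one : bc k Ω (1 : Module.End ℚ W) = 1 := by
  change ((1 : Module.End ℚ W).baseChange k).baseChange Ω = _
  have h1 : (1 : Module.End ℚ W).baseChange k = 1 := LinearMap.baseChange_id
  rw [h1]
  exact LinearMap.baseChange_id

theorem bc_aeval (hP : ∀ x, bc k Ω P (e x) = jΩ (η x) • e x) (p : ℚ[X]) (x : R) :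
    bc k Ω (aeval P p) (e x) = jΩ (aeval (η x) p) • e x := by
  induction p using Polynomial.induction_on with
  | C a =>
    rw [aeval_C, aeval_C, Algebra.algebraMap_eq_smul_one, bc_smul, bc_one, eq_ratCast, map_ratCast]
    rfl
  | add p q h1 h2 =>
    rw [map_add, bc_add, LinearMap.add_apply, h1, h2, map_add, map_add, add_smul]
  | monomial n a ih =>
    have h2 : (C a * X ^ (n + 1) : ℚ[X]) = (C a * X ^ n) * X := by ring
    have h3 : aeval (η x) ((C a * X ^ n) * X) = aeval (η x) (C a * X ^ n) * η x := by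
      rw [map_mul, aeval_X]
    rw [h2, h3, map_mul (aeval P), bc_mul, Module.End.mul_apply, aeval_X, hP, map_smul, ih,
      smul_smul, map_mul jΩ, mul_comm]

theorem aeval_of_eig (hP : ∀ x, bc k Ω P (e x) = jΩ (η x) • e x) {p : ℚ[X]}
    (h : aeval P p = 0) (x : R) : aeval (η x) p = 0 := by
  have h1 := bc_aeval e jΩ hP p x
  rw [h] at h1
  have h2 : bc k Ω (0 : Module.End ℚ W) = 0 := by
    have h3 := bc_smul (k := k) (Ω := Ω) 0 (0 : Module.End ℚ W)
    rw [zero_smul, Rat.cast_zero, zero_smul] at h3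
    exact h3
  rw [h2, LinearMap.zero_apply] at h1
  have h3 := (smul_eq_zero.1 h1.symm).resolve_right (e.ne_zero x)
  exact (map_eq_zero_iff jΩ jΩ.injective).1 h3

theorem poly_zero (hP : ∀ x, bc k Ω P (e x) = jΩ (η x) • e x) (hη : Function.Injective η)
    {p : ℚ[X]} (hp : p.degree < (finrank ℚ W : ℕ)) (h : aeval P p = 0) : p = 0 := by
  classical
  have h1 := aeval_of_eig e jΩ hP h
  have h2 : (p.map (algebraMap ℚ L)) = 0 := by
    refine Polynomial.eq_zero_of_degree_lt_of_eval_finset_eq_zero (Finset.univ.image η) ?_ ?_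
    · rw [Finset.card_image_of_injective _ hη, Finset.card_univ, card_of_eig e,
        Polynomial.degree_map]
      exact hp
    · intro y hy
      obtain ⟨x, -, rfl⟩ := Finset.mem_image.1 hy
      rw [Polynomial.eval_map]
      exact h1 x
  exact (Polynomial.map_eq_zero _).1 h2

end

/-- The eigenvalues of the endomorphisms of `Y`: they are real, or pairwise different. -/
def EigDich (Y : AV) : Prop :=
  ∃ (k Ω L R : Type) (_ : Field k) (_ : CharZero k) (_ : Field Ω) (_ : Algebra k Ω) (_ : Field L)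
    (_ : CharZero L) (_ : Fintype R) (e : Basis R Ω (Ω ⊗[k] (k ⊗[ℚ] Y.H))) (jΩ : L →+* Ω)
    (j : L →+* ℂ), ∀ P : Module.End ℚ Y.H, IsHom Y Y P → ∃ η : R → L,
      (∀ x, bc k Ω P (e x) = jΩ (η x) • e x) ∧
      ((∀ x, starRingEnd ℂ (j (η x)) = j (η x)) ∨ Function.Injective η) ∧
      ∀ x y, η x = 0 → η y = 0

variable {Y : AV}

/-- The algebra of endomorphisms. -/
def EndA (Y : AV) : Subalgebra ℚ (Module.End ℚ Y.H) where
  carrier := {f | IsHom Y Y f}
  mul_mem' := by
    rintro f g ⟨F, hF⟩ ⟨G, hG⟩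
    exact ⟨F ∘ₗ G, fun v => by rw [LinearMap.comp_apply, hG, hF, Module.End.mul_apply]⟩
  add_mem' := by
    rintro f g ⟨F, hF⟩ ⟨G, hG⟩
    exact ⟨F + G, fun v => by rw [LinearMap.add_apply, hF, hG, LinearMap.add_apply, map_add]⟩
  algebraMap_mem' c := ⟨(c : ℂ) • LinearMap.id, fun v => by
    rw [LinearMap.smul_apply, LinearMap.id_apply, Module.algebraMap_end_apply]
    have h1 := map_ratCast_smul Y.per ℚ ℂ c v
    rw [Rat.cast_id] at h1
    exact h1.symm⟩

theorem mem_EndA {f : Module.End ℚ Y.H} : f ∈ EndA Y ↔ IsHom Y Y f := Iff.rfl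

theorem nontrivial_of (hcm : ¬ HasCMult Y) : Nontrivial Y.H := by
  by_contra hn
  rw [not_nontrivial_iff_subsingleton] at hn
  apply hcm
  have h1 : Subsingleton (Module.End ℚ Y.H) := ⟨fun f g => by
    ext v
    exact Subsingleton.elim _ _⟩
  have h2 : Subsingleton (⊥ : Subalgebra ℚ (Module.End ℚ Y.H)) := ⟨fun f g => Subtype.ext
    (Subsingleton.elim _ _)⟩
  refine ⟨⊥, fun a _ b _ => Subsingleton.elim _ _, ?_, fun a _ => ?_⟩
  · rw [Module.finrank_zero_of_subsingleton, Module.finrank_zero_of_subsingleton]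
  · exact ⟨0, fun v => by rw [Subsingleton.elim v 0, map_zero, map_zero, map_zero, map_zero]⟩

theorem not_unbalanced (hcm : ¬ HasCMult Y)
    (hr : ∀ f, IsHom Y Y f → ∀ z : ℂ, aeval z (minpoly ℚ f) = 0 → z.im = 0) (d : ℚ) :
    ¬ Unbalanced Y d := by
  have hne := nontrivial_of hcm
  rintro ⟨hd, f, Ψ, s, hΨ, hf, -⟩
  have h1 : aeval f (X ^ 2 + C d : ℚ[X]) = 0 := by
    ext w
    rw [map_add, map_pow, aeval_X, aeval_C, LinearMap.add_apply, pow_two, Module.End.mul_apply,
      Module.algebraMap_end_apply, hf, neg_add_cancel, LinearMap.zero_apply]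
  have h2 := minpoly.dvd ℚ f h1
  obtain ⟨z, hz⟩ := IsAlgClosed.exists_aeval_eq_zero ℂ (minpoly ℚ f)
    (ne_of_gt (minpoly.degree_pos (Algebra.IsIntegral.isIntegral f)))
  have h3 := hr f ⟨Ψ, hΨ⟩ z hz
  have h4 : aeval z (X ^ 2 + C d : ℚ[X]) = 0 := by
    obtain ⟨q, hq⟩ := h2
    rw [hq, map_mul, hz, zero_mul]
  rw [map_add, map_pow, aeval_X, aeval_C, eq_ratCast] at h4
  have h5 := congrArg Complex.re h4
  rw [Complex.add_re, Complex.zero_re, pow_two, Complex.mul_re, h3, mul_zero, sub_zero,
    Complex.ratCast_re] at h5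
  have h6 : (0 : ℝ) < d := by exact_mod_cast hd
  nlinarith [mul_self_nonneg z.re]

theorem consequences (h : EigDich Y) (hcm : ¬ HasCMult Y) :
    (∀ f, IsHom Y Y f → ∀ z : ℂ, aeval z (minpoly ℚ f) = 0 → z.im = 0) ∧
    ∃ a, RealMax Y a := by
  classical
  obtain ⟨k, Ω, L, R, _, _, _, _, _, _, _, e, jΩ, j, h⟩ := h
  have hne : Nontrivial Y.H := nontrivial_of hcm
  have hRne : Nonempty R := by
    by_contra hn
    rw [not_nonempty_iff] at hn
    have h1 := card_of_eig e
    rw [Fintype.card_eq_zero] at h1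
    exact (Module.finrank_pos (R := ℚ) (M := Y.H)).ne h1
  have hcomm : ∀ f ∈ EndA Y, ∀ g ∈ EndA Y, f * g = g * f := by
    intro f hf g hg
    obtain ⟨η, h1, -⟩ := h f hf
    obtain ⟨θ, h2, -⟩ := h g hg
    exact comm_of_eig e jΩ h1 h2
  have hinj : ∀ f ∈ EndA Y, f ≠ 0 → Function.Injective f := by
    intro f hf hf0
    obtain ⟨η, h1, -, h2⟩ := h f hf
    refine inj_of_eig e jΩ h1 fun x hx => hf0 ?_
    exact zero_of_eig e jΩ h1 fun y => h2 x y hx
  -- the eigenvalues are real
  have hreal : ∀ f ∈ EndA Y, ∃ η : R → L, (∀ x, bc k Ω f (e x) = jΩ (η x) • e x) ∧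
      ∀ x, starRingEnd ℂ (j (η x)) = j (η x) := by
    intro f hf
    obtain ⟨η, h1, h2 | h2, -⟩ := h f hf
    · exact ⟨η, h1, h2⟩
    · exfalso
      apply hcm
      refine ⟨EndA Y, hcomm, le_antisymm ?_ ?_, fun a ha => ha⟩
      · obtain ⟨w, hw⟩ := exists_ne (0 : Y.H)
        let φ : EndA Y →ₗ[ℚ] Y.H :=
          { toFun := fun f => (f : Module.End ℚ Y.H) w
            map_add' := fun f g => rfl
            map_smul' := fun c f => rfl }
        refine LinearMap.finrank_le_finrank_of_injective (f := φ) ?_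
        rw [injective_iff_map_eq_zero]
        intro g hg
        by_contra hg0
        apply hw
        refine hinj g g.2 (fun h3 => hg0 (Subtype.ext h3)) ?_
        rw [map_zero]
        exact hg
      · have h3 : LinearIndependent ℚ (fun i : Fin (finrank ℚ Y.H) =>
            (⟨f, hf⟩ : EndA Y) ^ (i : ℕ)) := by
          rw [Fintype.linearIndependent_iff]
          intro c hc i
          let p : ℚ[X] := ∑ i : Fin (finrank ℚ Y.H), C (c i) * X ^ (i : ℕ)
          have h4 : aeval f p = 0 := by
            have h5 := congrArg (EndA Y).val hc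
            rw [map_sum, map_zero] at h5
            rw [← h5]
            simp only [p, map_sum, map_mul, aeval_C, map_pow, aeval_X, map_smul]
            refine Finset.sum_congr rfl fun i _ => ?_
            rw [Algebra.algebraMap_eq_smul_one, smul_mul_assoc, one_mul]
            rfl
          have h5 : p = 0 := by
            refine poly_zero e jΩ h1 h2 ?_ h4
            exact Polynomial.degree_sum_fin_lt c
          have h6 : p.coeff i = c i := by
            simp only [p, Polynomial.finset_sum_coeff, Polynomial.coeff_C_mul,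
              Polynomial.coeff_X_pow]
            rw [Finset.sum_eq_single i]
            · rw [if_pos rfl, mul_one]
            · intro b _ hb
              rw [if_neg (fun h7 => hb (Fin.ext h7.symm)), mul_zero]
            · intro h7
              exact absurd (Finset.mem_univ i) h7
          rw [← h6, h5, Polynomial.coeff_zero]
        have h4 := h3.fintype_card_le_finrank
        rw [Fintype.card_fin] at h4
        exact h4
  have hr : ∀ f, IsHom Y Y f → ∀ z : ℂ, aeval z (minpoly ℚ f) = 0 → z.im = 0 := by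
    intro f hf z hz
    obtain ⟨η, h1, h2⟩ := hreal f hf
    obtain ⟨x, hx⟩ := root_of_eig e jΩ h1 j hz
    rw [← hx]
    exact Complex.conj_eq_iff_im.1 (h2 x)
  refine ⟨hr, ?_⟩
  · -- the primitive element
    have hF : IsField (EndA Y) := by
      refine ⟨⟨0, 1, ?_⟩, fun x y => Subtype.ext (hcomm x x.2 y y.2), fun {x} hx => ?_⟩
      · intro h1
        have h2 := congrArg Subtype.val h1
        exact zero_ne_one h2
      · have h1 : Function.Injective (LinearMap.mulLeft ℚ x) := by
          rw [injective_iff_map_eq_zero]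
          intro y hy
          apply Subtype.ext
          ext v
          refine hinj x x.2 (fun h2 => hx (Subtype.ext h2)) ?_
          have h2 := congrArg Subtype.val hy
          have h3 := LinearMap.congr_fun h2 v
          rw [ZeroMemClass.coe_zero, LinearMap.zero_apply, map_zero]
          exact h3
        obtain ⟨y, hy⟩ := (LinearMap.injective_iff_surjective.1 h1) 1
        exact ⟨y, hy⟩
    let _ : Field (EndA Y) := hF.toField
    obtain ⟨c, hc⟩ := Field.exists_primitive_element ℚ (EndA Y)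
    have h1 : Algebra.adjoin ℚ {c} = (⊤ : Subalgebra ℚ (EndA Y)) := by
      have h2 := IntermediateField.adjoin_simple_toSubalgebra_of_isAlgebraic
        (Algebra.IsAlgebraic.isAlgebraic (R := ℚ) c)
      rw [← h2, hc, IntermediateField.top_toSubalgebra]
    have h2 := congrArg (Subalgebra.map (EndA Y).val) h1
    rw [AlgHom.map_adjoin, Set.image_singleton, Algebra.map_top, Subalgebra.range_val] at h2
    refine ⟨c, c.2, hr c c.2, fun b hb _ => ?_⟩
    have h3 : b ∈ EndA Y := hb
    rw [← h2] at h3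
    exact h3

end

end Pool.Agent.J4H9.HG
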