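import Mathlib
import Pool.Agent.J4H9.NF
import Pool.Agent.J4H9.HGBlk

/-!
# Equivariant functions on the Weil numbers
-/

set_option autoImplicit false

namespace Pool.Agent.J4H9.HG

open Polynomial NumberField Module Pool.Agent.W521.Frob Pool.Agent.W521.Criterion
  Pool.Agent.J4H9.Per Pool.Agent.J4H9.Gal Pool.Agent.J4H9.NoRel Pool.Agent.J4H9.Fr
  Pool.Agent.J4H9.Alg Pool.Agent.W484.BB

variable {q r g : ℕ} {h : Fin 1 → ℤ[X]} (hq : q ≠ 0)
  (hm : ∀ i, (h i).Monic) (hdeg : ∀ i, (h i).natDegree ≤ g) (hr : r.Prime) (hr2 : r ≠ 2)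
  (hgr : g < 2 * r) (hgood : GoodFam q r h)

include hq hm hdeg hr hr2 hgr hgood

theorem gal_data :
    ∃ (L : Type) (_ : Field L) (_ : NumberField L) (j : L →+* ℂ),
      (∀ i, ∀ z : ℂ, aeval z (weil q (h i)) = 0 → ∃ x : L, j x = z) ∧
      (∀ i, ∀ α β : L, aeval α (weil q (h i)) = 0 → aeval β (weil q (h i)) = 0 →
        ∃ τ : L ≃ₐ[ℚ] L, τ • α = β ∨ τ • α = q / β) ∧
      (∀ i, ∃ (σ : L ≃ₐ[ℚ] L) (x₀ y₀ : L), SplitEl q r (weil q (h i)) σ x₀ y₀) ∧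
      ∃ c : L ≃ₐ[ℚ] L, ∀ x : L, j (c x) = starRingEnd ℂ (j x) := by
  classical
  let T : Finset ℂ := (Finset.univ.biUnion fun i =>
    ((weil q (h i)).map (algebraMap ℤ ℂ)).roots.toFinset)
  have hTint : ∀ y : T, IsIntegral ℤ (y : ℂ) := by
    rintro ⟨y, hy⟩
    obtain ⟨i, -, h2⟩ := Finset.mem_biUnion.1 hy
    have h3 := (mem_roots'.1 (Multiset.mem_toFinset.1 h2)).2
    rw [IsRoot.def, eval_map] at h3
    exact ⟨weil q (h i), weil_monic q (hm i), h3⟩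
  obtain ⟨L, hL1, hL2, j, hj⟩ := exists_galois_of (fun y : T => (y : ℂ)) hTint
  have hL : ∀ i, ∀ z : ℂ, aeval z (weil q (h i)) = 0 → ∃ x : L, j x = z := by
    intro i z hz
    refine hj ⟨z, Finset.mem_biUnion.2 ⟨i, Finset.mem_univ _, ?_⟩⟩
    rw [Multiset.mem_toFinset, mem_roots ((weil_monic q (hm i)).map _).ne_zero, IsRoot.def, eval_map]
    exact hz
  obtain ⟨hirr, hE, hEF⟩ := hgood
  refine ⟨L, inferInstance, hL1, j, hL, ?_, ?_, ?_⟩
  · intro i α β hα hβ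
    exact exists_tau hq hm L j hL i (hirr i) α β hα hβ
  · intro i
    obtain ⟨l, hl, hl2, hlq, hp⟩ := hE i
    have : Fact l.Prime := ⟨hl⟩
    obtain ⟨k, _, hchar, φ, σ, hσ⟩ := exists_frob L l hl
    obtain ⟨x₀, y₀, h1⟩ := splitEl_of_pat φ hσ (hm i) (splits_h hq hm L j hL i)
      (quad_L hq hm L j hL i) (hdeg i) hgr hr hr2 hl2 hlq hp
    exact ⟨σ, x₀, y₀, h1⟩
  · obtain ⟨c, hc⟩ := ComplexEmbedding.exists_comp_symm_eq_of_comp_eq (k := ℚ) j
      (ComplexEmbedding.conjugate j) (RingHom.ext_rat _ _)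
    refine ⟨c.symm, fun x => ?_⟩
    exact RingHom.congr_fun hc x

omit hgood in
/-- An equivariant function on the Weil numbers is symmetric (with real values) or injective. -/
theorem eta_dich {L : Type} [Field L] [NumberField L] (j : L →+* ℂ)
    (htrans : ∀ i, ∀ α β : L, aeval α (weil q (h i)) = 0 → aeval β (weil q (h i)) = 0 →
        ∃ τ : L ≃ₐ[ℚ] L, τ • α = β ∨ τ • α = q / β)
    (hE : ∀ i, ∃ (σ : L ≃ₐ[ℚ] L) (x₀ y₀ : L), SplitEl q r (weil q (h i)) σ x₀ y₀)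
    (c : L ≃ₐ[ℚ] L) (hc : ∀ x : L, j (c x) = starRingEnd ℂ (j x))
    (hnorm : ∀ i, ∀ x : L, aeval x (weil q (h i)) = 0 → ‖j x‖ ^ 2 = q)
    (η : Rt q h L → L) (hη : ∀ (σ : L ≃ₐ[ℚ] L) x, η (σ • x) = σ (η x)) :
    (∀ x, starRingEnd ℂ (j (η x)) = j (η x)) ∨ Function.Injective η := by
  classical
  obtain ⟨σ, x₀, y₀, hs⟩ := hE 0
  have hcyc := cyc_of hq hm 0 (hdeg 0) hr hr2 hgr (htrans 0) hs (coprime_N hr hr2)
    (Dvd.intro _ rfl)
  have hcx : ∀ x : Rt q h L, c • x = bar hq hm x := by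
    intro x
    obtain ⟨i, hi⟩ := x.2
    have hx0 := root_ne_zero hq (hm i) hi
    apply Subtype.ext
    rw [coe_bar, SubMulAction.val_smul, AlgEquiv.smul_def]
    apply j.injective
    have hjx : j (x : L) ≠ 0 := (map_ne_zero j).2 hx0
    rw [hc, map_div₀, map_natCast, eq_div_iff hjx, mul_comm, Complex.mul_conj,
      Complex.normSq_eq_norm_sq, hnorm i _ hi]
    norm_cast
  have hbarη : ∀ x, η (bar hq hm x) = c (η x) := by
    intro x
    rw [← hcx, hη]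
  have hY : ∀ x : Rt q h L, x ∈ blk q h L 0 := by
    intro x
    obtain ⟨i, hi⟩ := x.2
    rw [Subsingleton.elim i 0] at hi
    exact hi
  rcases sym_or_inj (G := L ≃ₐ[ℚ] L) (W := L) (fun n v hn hv => by
      rw [zsmul_eq_mul] at hv
      exact (mul_eq_zero.1 hv).resolve_left (by exact_mod_cast hn))
    (DistribMulAction.toModuleEnd ℤ L) η (fun σ x => hη σ x) (Gal.bar_bar hq hm)
    (fun σ x => bar_smul hq hm σ x) (fun x y hxy => by rw [hbarη, hbarη, hxy]) hY hr hr2 hcyc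
    with h1 | h1
  · left
    intro x
    rw [← hc, ← hbarη, h1]
  · exact Or.inr h1

end Pool.Agent.J4H9.HG
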