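import Mathlib

/-!
# Eigenvalues from traces
-/

set_option autoImplicit false

namespace Pool.Agent.J4H9.HG

open Polynomial

theorem vander {R K : Type*} [Fintype R] [Field K] {v : R → K} (hv : Function.Injective v)
    {c : R → K} (h : ∀ n : ℕ, ∑ x, c x * v x ^ n = 0) : c = 0 := by
  classical
  let e := Fintype.equivFin R
  have h1 := Matrix.eq_zero_of_forall_pow_sum_mul_pow_eq_zero (f := fun i => v (e.symm i))
    (v := fun i => c (e.symm i)) (hv.comp e.symm.injective) (fun i => by
      rw [← h i]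
      exact Fintype.sum_equiv e.symm _ _ fun x => rfl)
  funext x
  have h2 := congrFun h1 (e x)
  simpa using h2

theorem exists_eta {R L Ω : Type*} [Fintype R] [Field L] [Field Ω] (jΩ : L →+* Ω) {v : R → L}
    (hv : Function.Injective v) (ε : R → Ω) (t : ℕ → L)
    (h : ∀ n : ℕ, ∑ x, ε x * jΩ (v x) ^ n = jΩ (t n)) :
    ∃ η : R → L, (∀ x, jΩ (η x) = ε x) ∧ ∀ n : ℕ, ∑ x, η x * v x ^ n = t n := by
  classical
  let b : R → L[X] := fun x => Lagrange.basis Finset.univ v x
  let η : R → L := fun x => ∑ n ∈ Finset.range ((b x).natDegree + 1), (b x).coeff n * t n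
  have h1 : ∀ x, jΩ (η x) = ε x := by
    intro x
    have h2 : jΩ (η x) = ∑ n ∈ Finset.range ((b x).natDegree + 1),
        jΩ ((b x).coeff n) * ∑ y, ε y * jΩ (v y) ^ n := by
      simp only [η, map_sum, map_mul, h]
    rw [h2]
    simp only [Finset.mul_sum]
    rw [Finset.sum_comm]
    have h3 : ∀ y, ∑ n ∈ Finset.range ((b x).natDegree + 1),
        jΩ ((b x).coeff n) * (ε y * jΩ (v y) ^ n) = ε y * jΩ ((b x).eval (v y)) := by
      intro y
      rw [eval_eq_sum_range, map_sum, Finset.mul_sum]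
      refine Finset.sum_congr rfl fun n _ => ?_
      rw [map_mul, map_pow]
      ring
    rw [Finset.sum_congr rfl fun y _ => h3 y, Finset.sum_eq_single x]
    · rw [Lagrange.eval_basis_self (hv.injOn) (Finset.mem_univ x), map_one, mul_one]
    · intro y _ hy
      rw [Lagrange.eval_basis_of_ne hy.symm (Finset.mem_univ y), map_zero, mul_zero]
    · intro hx
      exact absurd (Finset.mem_univ x) hx
  refine ⟨η, h1, fun n => jΩ.injective ?_⟩
  rw [← h n, map_sum]
  refine Finset.sum_congr rfl fun x _ => ?_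
  rw [map_mul, map_pow, h1]

/-- The coefficients are equivariant. -/
theorem eta_equiv {R L : Type*} [Fintype R] [Field L] [Algebra ℚ L]
    [MulAction (L ≃ₐ[ℚ] L) R] {v : R → L} (hv : Function.Injective v)
    (hvg : ∀ (σ : L ≃ₐ[ℚ] L) x, v (σ • x) = σ (v x)) {η : R → L} {t : ℕ → ℚ}
    (h : ∀ n : ℕ, ∑ x, η x * v x ^ n = algebraMap ℚ L (t n)) (σ : L ≃ₐ[ℚ] L) (x : R) :
    η (σ • x) = σ (η x) := by
  have h1 := vander hv (c := fun y => η y - σ (η (σ⁻¹ • y))) (fun n => by
    simp only [sub_mul, Finset.sum_sub_distrib]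
    rw [h n, sub_eq_zero]
    have h2 := congrArg σ (h n)
    rw [map_sum, AlgEquiv.commutes] at h2
    rw [← h2]
    refine Fintype.sum_equiv (MulAction.toPerm σ) _ _ fun y => ?_
    rw [MulAction.toPerm_apply, inv_smul_smul, hvg, map_mul, map_pow])
  have h2 := congrFun h1 (σ • x)
  simp only [inv_smul_smul, Pi.zero_apply] at h2
  exact sub_eq_zero.1 h2

end Pool.Agent.J4H9.HG
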