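import Mathlib
import Pool.Agent.J4H9.HGVan

/-!
# Eigenvalues of an endomorphism which commutes with a power of the Frobenius
-/

set_option autoImplicit false

namespace Pool.Agent.J4H9.HG

open Module TensorProduct

theorem pair_count {X : Type*} [DecidableEq X] {x z w : X} (hwx : w ≠ x)
    (h : [x, z].count x = [x, z].count w) : z = w := by
  by_contra hne
  have h1 : [x, z].count w = 0 := by
    rw [List.count_eq_zero]
    intro hw
    rcases List.mem_cons.1 hw with h2 | h2
    · exact hwx h2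
    · rw [List.mem_singleton] at h2
      exact hne h2.symm
  rw [h1, List.count_eq_zero] at h
  exact h List.mem_cons_self

section

variable {k Ω L V R : Type*} [Field k] [Field Ω] [Field L] [Algebra k Ω] [AddCommGroup V]
  [Module k V] [FiniteDimensional k V] [Fintype R] (e : Basis R Ω (Ω ⊗[k] V))
  (jΩ : L →+* Ω) (v : R → L)
  {F P : Module.End k V}

theorem pow_eig (hF : ∀ x, F.baseChange Ω (e x) = jΩ (v x) • e x) (n : ℕ) (x : R) :
    (F ^ n).baseChange Ω (e x) = jΩ (v x) ^ n • e x := by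
  induction n with
  | zero =>
    rw [pow_zero, pow_zero, one_smul]
    have h1 : (1 : Module.End k V).baseChange Ω = 1 := LinearMap.baseChange_id
    rw [h1, Module.End.one_apply]
  | succ n ih =>
    have h1 : (F ^ (n + 1)).baseChange Ω = (F ^ n).baseChange Ω ∘ₗ F.baseChange Ω := by
      rw [pow_succ]
      exact LinearMap.baseChange_comp ..
    rw [h1, LinearMap.comp_apply, hF, map_smul, ih, smul_smul, pow_succ, mul_comm]

theorem diag_of_comm (hF : ∀ x, F.baseChange Ω (e x) = jΩ (v x) • e x) {M : ℕ}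
    (hinj : ∀ x y, v x ^ M = v y ^ M → x = y) (hP : P * F ^ M = F ^ M * P) (x : R) :
    ∃ ε : Ω, P.baseChange Ω (e x) = ε • e x := by
  classical
  refine ⟨e.repr (P.baseChange Ω (e x)) x, ?_⟩
  have h1 : P.baseChange Ω ((F ^ M).baseChange Ω (e x)) =
      (F ^ M).baseChange Ω (P.baseChange Ω (e x)) := by
    have h2 := congrArg (LinearMap.baseChange Ω) hP
    have h3 : (P * F ^ M).baseChange Ω = P.baseChange Ω ∘ₗ (F ^ M).baseChange Ω :=
      LinearMap.baseChange_comp ..
    have h4 : (F ^ M * P).baseChange Ω = (F ^ M).baseChange Ω ∘ₗ P.baseChange Ω :=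
      LinearMap.baseChange_comp ..
    rw [h3, h4] at h2
    exact LinearMap.congr_fun h2 (e x)
  rw [pow_eig e jΩ v hF, map_smul] at h1
  apply e.repr.injective
  ext y
  rw [map_smul, Finsupp.smul_apply, Basis.repr_self, smul_eq_mul]
  by_cases hxy : x = y
  · subst hxy
    rw [Finsupp.single_eq_same, mul_one]
  · rw [Finsupp.single_apply, if_neg hxy, mul_zero]
    have h2 := congrArg (fun v => e.repr v y) h1
    simp only [map_smul, Finsupp.smul_apply, smul_eq_mul] at h2
    have h3 : ∀ w, e.repr ((F ^ M).baseChange Ω w) y = jΩ (v y) ^ M * e.repr w y := by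
      intro w
      conv_lhs => rw [← e.sum_repr w]
      simp only [map_sum, map_smul, pow_eig e jΩ v hF, Finsupp.coe_finset_sum, Finset.sum_apply,
        Finsupp.smul_apply, smul_eq_mul, Basis.repr_self, Finsupp.single_apply]
      simp only [mul_ite, mul_one, mul_zero]
      rw [Finset.sum_ite_eq' Finset.univ y, if_pos (Finset.mem_univ y), mul_comm]
    rw [h3] at h2
    have h4 : (jΩ (v x) ^ M - jΩ (v y) ^ M) * e.repr (P.baseChange Ω (e x)) y = 0 := by
      rw [sub_mul, h2, sub_self]
    rcases mul_eq_zero.1 h4 with h5 | h5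
    · exfalso
      apply hxy
      apply hinj
      apply jΩ.injective
      rw [map_pow, map_pow]
      exact sub_eq_zero.1 h5
    · exact h5

theorem trace_eig (hF : ∀ x, F.baseChange Ω (e x) = jΩ (v x) • e x) {ε : R → Ω}
    (hP : ∀ x, P.baseChange Ω (e x) = ε x • e x) (n : ℕ) :
    algebraMap k Ω (LinearMap.trace k V (P * F ^ n)) = ∑ x, ε x * jΩ (v x) ^ n := by
  classical
  have h0 : (P * F ^ n).baseChange Ω = P.baseChange Ω ∘ₗ (F ^ n).baseChange Ω :=
    LinearMap.baseChange_comp ..
  rw [← LinearMap.trace_baseChange, h0, LinearMap.trace_eq_matrix_trace Ω e, Matrix.trace]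
  refine Finset.sum_congr rfl fun x _ => ?_
  rw [Matrix.diag_apply, LinearMap.toMatrix_apply, LinearMap.comp_apply, pow_eig e jΩ v hF, map_smul,
    hP, smul_smul, map_smul, Finsupp.smul_apply, Basis.repr_self, Finsupp.single_eq_same,
    smul_eq_mul, mul_one, mul_comm]

/-- **The eigenvalues.** -/
theorem eigen_of [CharZero k] [Algebra ℚ L] [MulAction (L ≃ₐ[ℚ] L) R]
    (hv : Function.Injective v)
    (hvg : ∀ (σ : L ≃ₐ[ℚ] L) x, v (σ • x) = σ (v x))
    (hF : ∀ x, F.baseChange Ω (e x) = jΩ (v x) • e x) {M : ℕ}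
    (hinj : ∀ x y, v x ^ M = v y ^ M → x = y) (hP : P * F ^ M = F ^ M * P)
    (htr : ∀ n : ℕ, ∃ t : ℚ, LinearMap.trace k V (P * F ^ n) = t) :
    ∃ η : R → L, (∀ x, P.baseChange Ω (e x) = jΩ (η x) • e x) ∧
      ∀ (σ : L ≃ₐ[ℚ] L) (x : R), η (σ • x) = σ (η x) := by
  choose ε hε using diag_of_comm e jΩ v hF hinj hP
  choose t ht using htr
  obtain ⟨η, hη1, hη2⟩ := exists_eta jΩ hv ε (fun n => algebraMap ℚ L (t n)) (fun n => by
    rw [← trace_eig e jΩ v hF hε, ht, eq_ratCast (algebraMap ℚ L), map_ratCast, map_ratCast])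
  exact ⟨η, fun x => by rw [hη1]; exact hε x, eta_equiv hv hvg hη2⟩

end

end Pool.Agent.J4H9.HG
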