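import Mathlib
import Pool.Agent.J4H9.HGGal
import Pool.Agent.J4H9.HGLin
import Pool.Agent.H204R3.GP.MT
import Pool.Agent.TH170.FT.Hodge

/-!
# The endomorphisms of a lifting
-/

set_option autoImplicit false

namespace Pool.Agent.J4H9.HG

open Polynomial NumberField Module TensorProduct Pool.Agent.W521.Frob Pool.Agent.W521.Criterion
  Pool.Agent.J4H9.Per Pool.Agent.J4H9.Gal Pool.Agent.J4H9.NoRel Pool.Agent.J4H9.Fr
  Pool.Agent.J4H9.Alg Pool.Agent.W484.BB Pool.Agent.H204R3.GP Pool.Agent.H204R3.SP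
  Pool.Agent.TH170.FT Pool.Agent.J4H9.NF

section

variable {ℓ : ℕ} [Fact ℓ.Prime] {W T Γ : Type} [AddCommGroup W] [Module ℚ W]
  [FiniteDimensional ℚ W] [AddCommGroup T] [Module ℂ T] [Group Γ] {per : W →+ T}
  {ω₀ : W →ₗ[ℚ] W →ₗ[ℚ] ℚ}

theorem hodgeBil_comp {P : W →ₗ[ℚ] W} (hP : IsHodgeEnd per P) {B : W →ₗ[ℚ] W →ₗ[ℚ] ℚ}
    (hB : IsHodgeBilinear per B) : IsHodgeBilinear per (B.comp P) := by
  obtain ⟨P', hP'⟩ := hP
  obtain ⟨E, hE1, hE2⟩ := hB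
  refine ⟨E.comp (P'.restrictScalars ℝ), fun x y => ?_, fun z hz u v => ?_⟩
  · rw [LinearMap.comp_apply, LinearMap.comp_apply, ← hE1, LinearMap.restrictScalars_apply, hP']
  · rw [LinearMap.comp_apply, LinearMap.comp_apply, LinearMap.restrictScalars_apply,
      LinearMap.restrictScalars_apply, P'.map_smul z u, hE2 z hz]

/-- Endomorphisms commute with a power of each element of the Galois group. -/
theorem comm_pow (D : GaloisData per ω₀ Γ ℓ) {P : W →ₗ[ℚ] W} (hP : IsHodgeEnd per P) (γ : Γ) :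
    ∃ M : ℕ, 0 < M ∧ ∀ v, P.baseChange ℚ_[ℓ] (D.ρ (γ ^ M) v) =
      D.ρ (γ ^ M) (P.baseChange ℚ_[ℓ] v) := by
  have h1 : IsHodgeBilinear per (ω₀.comp P) := hodgeBil_comp hP D.realization.hodge
  have h2 : IsHodgeTensor per (mmG (1 : Equiv.Perm (Fin 1 × Fin 2)) fun _ => ω₀.comp P) := by
    obtain ⟨E, hE1, hE2⟩ := h1
    refine ⟨mmG 1 fun _ => E, fun v => ?_, fun z hz u => ?_⟩
    · rw [mmG_apply, mmG_apply]
      push_cast
      exact Finset.prod_congr rfl fun l _ => hE1 _ _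
    · rw [mmG_apply, mmG_apply]
      exact Finset.prod_congr rfl fun l _ => hE2 z hz _ _
  have h3 : Compares (incl W ℓ)
      (mmG (1 : Equiv.Perm (Fin 1 × Fin 2)) fun _ => D.ω.comp (P.baseChange ℚ_[ℓ]))
      (mmG (1 : Equiv.Perm (Fin 1 × Fin 2)) fun _ => ω₀.comp P) := by
    intro v
    rw [mmG_apply, mmG_apply]
    push_cast
    refine Finset.prod_congr rfl fun l _ => ?_
    have h4 : P.baseChange ℚ_[ℓ] (incl W ℓ (v ((1 : Equiv.Perm (Fin 1 × Fin 2)) (l, 0)))) =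
        incl W ℓ (P (v ((1 : Equiv.Perm (Fin 1 × Fin 2)) (l, 0)))) :=
      LinearMap.baseChange_tmul ..
    change D.ω (P.baseChange ℚ_[ℓ] (incl W ℓ (v ((1 : Equiv.Perm (Fin 1 × Fin 2)) (l, 0)))))
      (incl W ℓ (v ((1 : Equiv.Perm (Fin 1 × Fin 2)) (l, 1)))) = _
    rw [h4, D.realization.compatible]
    rfl
  obtain ⟨Δ, hΔ, h4⟩ := D.deligne 1 _ _ h2 h3
  obtain ⟨M, hM, -, hMΔ⟩ := Subgroup.exists_pow_mem_of_index_ne_zero hΔ.index_ne_zero γ
  refine ⟨M, hM, fun v => ?_⟩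
  have hanti : ∀ u v, D.ω u v = - D.ω v u := by
    intro u v
    have h1 := D.realization.alternating (u + v)
    simp only [map_add, LinearMap.add_apply, D.realization.alternating, zero_add, add_zero] at h1
    linear_combination h1
  rw [← sub_eq_zero]
  apply D.realization.nondegenerate
  intro w
  obtain ⟨w, rfl⟩ : ∃ w', D.ρ (γ ^ M) w' = w := ⟨D.ρ (γ ^ M)⁻¹ w, by
    rw [← Module.End.mul_apply, ← map_mul, mul_inv_cancel, map_one, Module.End.one_apply]⟩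
  rw [hanti, neg_eq_zero, map_sub, LinearMap.sub_apply, D.realization.equivariant, sub_eq_zero]
  have h5 := h4 (γ ^ M) hMΔ (fun k => if k.2 = 0 then v else w)
  rw [mmG_apply, mmG_apply, Fin.prod_univ_one, Fin.prod_univ_one, pow_one] at h5
  simpa using h5

theorem barne {q r g : ℕ} {h : Fin 1 → ℤ[X]} (hq : q ≠ 0)
    (hm : ∀ i, (h i).Monic) (hdeg : ∀ i, (h i).natDegree ≤ g) (hr : r.Prime) (hr2 : r ≠ 2)
    (hgr : g < 2 * r) (hgood : GoodFam q r h) {L : Type} [Field L] [NumberField L] (j : L →+* ℂ)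
    (hup : ∀ (f : ℤ[X]) (x : L), aeval x f = 0 → aeval (j x) f = 0) (x : Rt q h L) :
    bar hq hm x ≠ x := by
  intro h0
  obtain ⟨i, hi⟩ := x.2
  refine ne_conj_C hq hm hdeg hr hr2 hgr hgood (j (vl x)) ⟨i, hup _ _ hi⟩ ?_
  have h1 : vl x = (q : L) / vl x := by
    conv_lhs => rw [← h0]
    rfl
  conv_lhs => rw [h1]
  rw [map_div₀, map_natCast]

theorem pow_inj {q r g : ℕ} {h : Fin 1 → ℤ[X]} (hq : q ≠ 0)
    (hm : ∀ i, (h i).Monic) (hdeg : ∀ i, (h i).natDegree ≤ g) (hr : r.Prime) (hr2 : r ≠ 2)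
    (hgr : g < 2 * r) {L : Type} [Field L] [NumberField L] (j : L →+* ℂ)
    (htrans : ∀ i, ∀ α β : L, aeval α (weil q (h i)) = 0 → aeval β (weil q (h i)) = 0 →
        ∃ τ : L ≃ₐ[ℚ] L, τ • α = β ∨ τ • α = q / β)
    (hE : ∀ i, ∃ (σ : L ≃ₐ[ℚ] L) (x₀ y₀ : L), SplitEl q r (weil q (h i)) σ x₀ y₀)
    (hnormL : ∀ i, ∀ x : L, aeval x (weil q (h i)) = 0 → ‖j x‖ ^ 2 = q)
    (hne : ∀ x : Rt q h L, bar hq hm x ≠ x) (M : ℕ) (hM : 0 < M) (x y : Rt q h L)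
    (hxy : vl x ^ M = vl y ^ M) : x = y := by
  classical
  have hv : ∀ x : Rt q h L, vl x ≠ 0 := by
    intro x
    obtain ⟨i, hi⟩ := x.2
    exact root_ne_zero hq (hm i) hi
  have key := counts_Rt hq hm hdeg hr hr2 hgr htrans hE
    (fun i i' hne => absurd (Subsingleton.elim i' i) hne) j hnormL (1 : L) (fun σ γ => by
      rw [smul_one, smul_one]) one_ne_zero [x, bar hq hm y] 1 1 M one_pos hM (by
      have h1 : vl (bar hq hm y) = (q : L) / vl y := rfl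
      rw [pow_one, mul_one, List.map_cons, List.map_cons, List.map_nil, List.prod_cons,
        List.prod_cons, List.prod_nil, mul_one, h1, pow_one, pow_one, mul_pow, hxy, ← mul_pow,
        mul_div_cancel₀ _ (hv y)]) x
  have h2 := pair_count (hne x) key
  have h3 := congrArg (bar hq hm) h2
  rw [Gal.bar_bar, Gal.bar_bar] at h3
  exact h3.symm

/-- **The eigenvalues of the endomorphisms of a lifting.** -/
theorem ends_eigen {q r g : ℕ} {h : Fin 1 → ℤ[X]} (hq : q ≠ 0)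
    (hm : ∀ i, (h i).Monic) (hdeg : ∀ i, (h i).natDegree ≤ g) (hr : r.Prime) (hr2 : r ≠ 2)
    (hgr : g < 2 * r) (hgood : GoodFam q r h)
    (hnorm : ∀ i, ∀ z : ℂ, aeval z (weil q (h i)) = 0 → ‖z‖ ^ 2 = q)
    (D : GaloisData per ω₀ Γ ℓ) (γ : Γ)
    (hγ : (D.ρ γ).charpoly = (weil q (h 0)).map (Int.castRingHom ℚ_[ℓ]))
    (htr : ∀ P : W →ₗ[ℚ] W, IsHodgeEnd per P → ∀ n : ℕ, ∃ t : ℚ,
      LinearMap.trace ℚ_[ℓ] (ℚ_[ℓ] ⊗[ℚ] W) (P.baseChange ℚ_[ℓ] ∘ₗ D.ρ (γ ^ n)) = t) :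
    ∃ (L : Type) (_ : Field L) (_ : NumberField L) (j : L →+* ℂ) (Ω : Type) (_ : Field Ω)
      (_ : Algebra ℚ_[ℓ] Ω) (jΩ : L →+* Ω) (R : Type) (_ : Fintype R)
      (e : Basis R Ω (Ω ⊗[ℚ_[ℓ]] (ℚ_[ℓ] ⊗[ℚ] W))),
      ∀ P : W →ₗ[ℚ] W, IsHodgeEnd per P → ∃ η : R → L,
        (∀ x, (P.baseChange ℚ_[ℓ]).baseChange Ω (e x) = jΩ (η x) • e x) ∧
        ((∀ x, starRingEnd ℂ (j (η x)) = j (η x)) ∨ Function.Injective η) ∧
        ∀ x y, η x = 0 → η y = 0 := by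
  classical
  obtain ⟨L, _, _, j, hL, htrans, hE, c, hc⟩ := gal_data hq hm hdeg hr hr2 hgr hgood
  have hup : ∀ (f : ℤ[X]) (x : L), aeval x f = 0 → aeval (j x) f = 0 := by
    intro f x hx
    have h2 := Polynomial.hom_eval₂ f (algebraMap ℤ L) j x
    rw [RingHom.ext_int (j.comp (algebraMap ℤ L)) (algebraMap ℤ ℂ)] at h2
    have h3 : eval₂ (algebraMap ℤ L) x f = 0 := hx
    rw [h3, map_zero] at h2
    exact h2.symm
  have hnormL : ∀ i, ∀ x : L, aeval x (weil q (h i)) = 0 → ‖j x‖ ^ 2 = q :=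
    fun i x hx => hnorm i _ (hup _ x hx)
  have hfinR : Finite (Rt q h L) := finite_Rt hm
  let _ : Fintype (Rt q h L) := Fintype.ofFinite _
  have hne : ∀ x : Rt q h L, bar hq hm x ≠ x := barne hq hm hdeg hr hr2 hgr hgood j hup
  obtain ⟨Ω, hΩ, ⟨jΩ⟩⟩ := exists_finite_ext ℚ_[ℓ] L
  let P₀ : ℤ[X] := weil q (h 0)
  have hPm : P₀.Monic := weil_monic q (hm 0)
  have hTchar : ((D.ρ γ).baseChange Ω).charpoly = P₀.map (Int.castRingHom Ω) := by
    rw [LinearMap.charpoly_baseChange, hγ, Polynomial.map_map]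
    congr 1
  have hPdeg : P₀.natDegree ≤ Fintype.card (Rt q h L) := by
    have h1 : P₀.natDegree = ∑ i, 2 * (h i).natDegree := by
      rw [Fin.sum_univ_one]
      exact weil_natDegree q (hm 0)
    rw [h1, ← Nat.card_eq_fintype_card]
    exact card_roots hm hdeg hgr hgood hq hr hr2 j hL
  have hR0 : ∀ x : Rt q h L, aeval (vl x) P₀ = 0 := by
    intro x
    obtain ⟨i, hi⟩ := x.2
    rw [Subsingleton.elim i 0] at hi
    exact hi
  obtain ⟨e, he⟩ := exists_basis (Ω := Ω) jΩ (vl : Rt q h L → L) vl_inj ((D.ρ γ).baseChange Ω) P₀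
    hPm hTchar hR0 hPdeg
  refine ⟨L, inferInstance, inferInstance, j, Ω, inferInstance, inferInstance, jΩ, Rt q h L,
    inferInstance, e, fun P hP => ?_⟩
  obtain ⟨M, hM, hcomm⟩ := comm_pow D hP γ
  have hcomm' : P.baseChange ℚ_[ℓ] * (D.ρ γ) ^ M = (D.ρ γ) ^ M * P.baseChange ℚ_[ℓ] := by
    rw [← map_pow]
    exact LinearMap.ext hcomm
  have htr' : ∀ n : ℕ, ∃ t : ℚ, LinearMap.trace ℚ_[ℓ] (ℚ_[ℓ] ⊗[ℚ] W)
      (P.baseChange ℚ_[ℓ] * (D.ρ γ) ^ n) = t := by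
    intro n
    obtain ⟨t, ht⟩ := htr P hP n
    exact ⟨t, by rw [← ht, map_pow]; rfl⟩
  obtain ⟨η, hη, hηg⟩ := eigen_of e jΩ (vl : Rt q h L → L) vl_inj (fun σ x => rfl) he
    (pow_inj hq hm hdeg hr hr2 hgr j htrans hE hnormL hne M hM) hcomm' htr'
  refine ⟨η, hη, eta_dich hq hm hdeg hr hr2 hgr j htrans hE c hc hnormL η hηg, fun x y hx => ?_⟩
  have hcx : ∀ x : Rt q h L, (c • x : Rt q h L) = bar hq hm x := by
    intro x
    obtain ⟨i, hi⟩ := x.2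
    have hx0 := root_ne_zero hq (hm i) hi
    apply Subtype.ext
    rw [coe_bar, SubMulAction.val_smul, AlgEquiv.smul_def]
    apply j.injective
    have hjx : j (x : L) ≠ 0 := (map_ne_zero j).2 hx0
    rw [hc, map_div₀, map_natCast, eq_div_iff hjx, mul_comm, Complex.mul_conj,
      Complex.normSq_eq_norm_sq, hnormL i _ hi]
    norm_cast
  obtain ⟨τ, hτ⟩ := htrans 0 (x : L) (y : L) (hR0 x) (hR0 y)
  rcases hτ with h1 | h1
  · have h2 : τ • x = y := Subtype.ext h1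
    rw [← h2, hηg, hx, map_zero]
  · have h2 : τ • x = c • y := by
      rw [hcx]
      exact Subtype.ext h1
    have h3 : c (η y) = 0 := by rw [← hηg, ← h2, hηg, hx, map_zero]
    exact (map_eq_zero_iff c c.injective).1 h3

end

end Pool.Agent.J4H9.HG
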