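import Mathlib
import Pool.Agent.J4H9.HGCas

/-!
# The Hodge group is the Lefschetz group
-/

set_option autoImplicit false

namespace Pool.Agent.J4H9.HG

open Module Pool.Agent.Y90 Pool.Agent.R915 Pool.Agent.H204R3.GP Pool.Agent.TH170.FT
open Pool.Agent.H204R3.CM (IsHodge)
open Polynomial (aeval)

noncomputable section

variable {Y : AV} (P : Pol Y)

theorem ER_nd {t : Y.T} (h : ∀ v, P.ER t (JJ Y v) = 0) : t = 0 := by
  by_contra h0
  have h1 := P.pos t h0
  rw [P.alt, h t, neg_zero] at h1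
  exact lt_irrefl _ h1

theorem per_inj {u : Y.H} (h : Y.per u = 0) : u = 0 := by
  apply (bQ Y).repr.injective
  ext i
  have h5 := bR_repr Y u i
  rw [h, map_zero, Finsupp.coe_zero, Pi.zero_apply] at h5
  rw [map_zero, Finsupp.coe_zero, Pi.zero_apply]
  exact_mod_cast h5.symm

theorem E_nd {u : Y.H} (h : ∀ v, P.E u v = 0) : u = 0 := by
  apply per_inj
  apply ER_nd P
  have h1 : P.ER (Y.per u) = 0 := by
    refine (bR Y).ext fun i => ?_
    rw [bR_apply, P.compat, h, LinearMap.zero_apply, Rat.cast_zero]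
  intro v
  rw [h1, LinearMap.zero_apply]

theorem E_nd' {A : Module.End ℚ Y.H} (h : ∀ u v, P.E (A u) v = 0) : A = 0 := by
  ext u
  exact E_nd P (h u)

/-- Hodge bilinear forms. -/
theorem hodgeBil_eq {B : Y.H →ₗ[ℚ] Y.H →ₗ[ℚ] ℚ} (hB : IsHodgeBilinear Y.per B) :
    ∃ β : Module.End ℚ Y.H, IsHom Y Y β ∧ ∀ u v, B u v = P.E (β u) v := by
  obtain ⟨BR, hB1, hB2⟩ := hB
  have hinj : Function.Injective P.E := by
    rw [injective_iff_map_eq_zero]
    intro u hu
    exact E_nd P fun v => by rw [hu, LinearMap.zero_apply]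
  let e : Y.H ≃ₗ[ℚ] Module.Dual ℚ Y.H := LinearMap.linearEquivOfInjective P.E hinj
    (Subspace.dual_finrank_eq).symm
  have he : ∀ u, e u = P.E u := fun u => LinearMap.linearEquivOfInjective_apply _ _ _
  let β : Module.End ℚ Y.H := e.symm.toLinearMap ∘ₗ B
  have hβ : ∀ u v, B u v = P.E (β u) v := by
    intro u v
    rw [← he]
    change _ = e (e.symm (B u)) v
    rw [LinearEquiv.apply_symm_apply]
  refine ⟨β, ?_, hβ⟩
  rw [isHom_iff]
  have h1 : P.ER.comp (ext β) = BR := by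
    refine bil_ext fun u v => ?_
    rw [LinearMap.comp_apply, ext_per, P.compat, hB1, hβ]
  have h2 : ∀ u v, P.ER (ext β u) v = BR u v := fun u v => by rw [← h1]; rfl
  ext u
  rw [Module.End.mul_apply, Module.End.mul_apply, ← sub_eq_zero]
  apply ER_nd P
  intro v
  rw [map_sub, LinearMap.sub_apply, P.inv, h2, h2]
  have h3 := hB2 Complex.I (by rw [Complex.norm_I]) u v
  rw [← JJ_apply, ← JJ_apply] at h3
  rw [h3, sub_self]

theorem kill_bil {s : Module.End ℚ Y.H} (hs1 : ∀ f, IsHom Y Y f → s * f = f * s)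
    (hs2 : ∀ u v, P.E (s u) v + P.E u (s v) = 0) {B : Y.H →ₗ[ℚ] Y.H →ₗ[ℚ] ℚ}
    (hB : IsHodgeBilinear Y.per B) (u v : Y.H) : B (s u) v + B u (s v) = 0 := by
  obtain ⟨β, hβ, h⟩ := hodgeBil_eq P hB
  rw [h, h]
  have h1 := LinearMap.congr_fun (hs1 β hβ) u
  rw [Module.End.mul_apply, Module.End.mul_apply] at h1
  rw [← h1]
  exact hs2 (β u) v

theorem kill_prod {s : Module.End ℚ Y.H} (hs1 : ∀ f, IsHom Y Y f → s * f = f * s)
    (hs2 : ∀ u v, P.E (s u) v + P.E u (s v) = 0)
    {ψ : MultilinearMap ℚ (fun _ : Fin 2 × Fin 2 => Y.H) ℚ}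
    (hψ : ψ ∈ Submodule.span ℚ {ψ' | IsProductOfHodgeBilinear Y.per ψ'})
    (v : Fin 2 × Fin 2 → Y.H) : ∑ p, ψ (Function.update v p (s (v p))) = 0 := by
  classical
  induction hψ using Submodule.span_induction with
  | mem ψ hψ =>
    obtain ⟨σ, B, hB, h⟩ := hψ
    rw [← Equiv.sum_comp σ]
    simp only [h, Fintype.sum_prod_type, Fin.sum_univ_two, Fin.prod_univ_two,
      Function.update_apply, EmbeddingLike.apply_eq_iff_eq, Prod.mk.injEq, Fin.isValue,
      zero_ne_one, one_ne_zero, and_false, and_true, if_true, if_false, true_and, false_and]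
    have h0 := kill_bil P hs1 hs2 (hB 0) (v (σ (0, 0))) (v (σ (0, 1)))
    have h1 := kill_bil P hs1 hs2 (hB 1) (v (σ (1, 0))) (v (σ (1, 1)))
    linear_combination (B 1 (v (σ (1, 0))) (v (σ (1, 1)))) * h0 +
      (B 0 (v (σ (0, 0))) (v (σ (0, 1)))) * h1
  | zero => simp
  | add x y _ _ h1 h2 =>
    simp only [MultilinearMap.add_apply, Finset.sum_add_distrib]
    rw [h1, h2, add_zero]
  | smul c x _ h1 =>
    simp only [MultilinearMap.smul_apply]
    rw [← Finset.smul_sum, h1, smul_zero]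

theorem ER_conj (z : ℂ) (u v : Y.T) : P.ER u (z • v) = P.ER (starRingEnd ℂ z • u) v := by
  have hJ : P.ER u (JJ Y v) = - P.ER (JJ Y u) v := by
    rw [← P.inv (JJ Y u), JJ_JJ, map_neg, LinearMap.neg_apply, neg_neg]
  rw [smul_eq z v, smul_eq _ u, Complex.conj_re, Complex.conj_im, map_add, map_add, map_smul,
    map_smul, map_smul, map_smul, LinearMap.add_apply, LinearMap.smul_apply, LinearMap.smul_apply,
    hJ, neg_smul, smul_neg]

variable {P} {𝔤 : Submodule ℚ (Module.End ℚ Y.H)}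

theorem casimir_inv (h : Dat P 𝔤) {m : ℕ} {X Z : Fin m → Module.End ℚ Y.H}
    (hX : ∀ i, X i ∈ 𝔤) (hZ : ∀ i, Z i ∈ 𝔤)
    (h1 : ∀ A ∈ 𝔤, A = ∑ i, LinearMap.trace ℚ Y.H (A * Z i) • X i)
    (h2 : ∀ A ∈ 𝔤, A = ∑ i, LinearMap.trace ℚ Y.H (A * X i) • Z i) {z : ℂ} (hz : ‖z‖ = 1)
    (a b c d : Y.T) :
    ∑ i, P.ER (ext (X i) (z • a)) (z • b) * P.ER (ext (Z i) (z • c)) (z • d) =
      ∑ i, P.ER (ext (X i) a) b * P.ER (ext (Z i) c) d := by
  let w := starRingEnd ℂ z
  have hzw : z * w = 1 := by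
    rw [Complex.mul_conj, Complex.normSq_eq_norm_sq, hz]
    norm_num
  have hwz : w * z = 1 := by rw [mul_comm, hzw]
  have hww : starRingEnd ℂ w = z := Complex.conj_conj z
  let φ : Module.End ℝ Y.T → Module.End ℝ Y.T := fun A => zz Y w * A * zz Y z
  have hφ : ∀ A (u v : Y.T), P.ER (A (z • u)) (z • v) = P.ER (φ A u) v := by
    intro A u v
    rw [ER_conj]
    rfl
  have e1 : ∀ i, φ (ext (X i)) = ∑ j, LinearMap.trace ℝ Y.T (φ (ext (X i)) * ext (Z j)) •
      ext (X j) := fun i => expand h1 (h.conj z (ext_mem (hX i)))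
  have e2 : ∀ j, zz Y z * ext (Z j) * zz Y w = ∑ i, LinearMap.trace ℝ Y.T
      (zz Y z * ext (Z j) * zz Y w * ext (X i)) • ext (Z i) := by
    intro j
    have h3 := h.conj w (ext_mem (hZ j))
    rw [hww] at h3
    exact expand h2 h3
  have e3 : ∀ i j, LinearMap.trace ℝ Y.T (φ (ext (X i)) * ext (Z j)) =
      LinearMap.trace ℝ Y.T (zz Y z * ext (Z j) * zz Y w * ext (X i)) := by
    intro i j
    have h3 : φ (ext (X i)) * ext (Z j) = (zz Y w * ext (X i)) * (zz Y z * ext (Z j)) := by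
      simp only [φ, mul_assoc]
    rw [h3, LinearMap.trace_mul_comm]
    simp only [mul_assoc]
  simp only [hφ]
  have e4 : ∀ i, P.ER (φ (ext (X i)) a) b = ∑ j, LinearMap.trace ℝ Y.T
      (zz Y z * ext (Z j) * zz Y w * ext (X i)) * P.ER (ext (X j) a) b := by
    intro i
    conv_lhs => rw [e1]
    simp only [LinearMap.sum_apply, LinearMap.smul_apply, map_sum, map_smul, e3, smul_eq_mul]
  have e5 : ∀ j, φ (zz Y z * ext (Z j) * zz Y w) = ext (Z j) := by
    intro j
    have h3 : φ (zz Y z * ext (Z j) * zz Y w) =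
        (zz Y w * zz Y z) * ext (Z j) * (zz Y w * zz Y z) := by
      simp only [φ, mul_assoc]
    rw [h3, zz_mul hwz, one_mul, mul_one]
  have e6 : ∀ j, P.ER (ext (Z j) c) d = ∑ i, LinearMap.trace ℝ Y.T
      (zz Y z * ext (Z j) * zz Y w * ext (X i)) * P.ER (φ (ext (Z i)) c) d := by
    intro j
    have h3 : ext (Z j) = ∑ i, LinearMap.trace ℝ Y.T
      (zz Y z * ext (Z j) * zz Y w * ext (X i)) • φ (ext (Z i)) := by
      conv_lhs => rw [← e5 j, e2 j]
      simp only [φ, Finset.mul_sum, Finset.sum_mul, mul_smul_comm, smul_mul_assoc]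
    conv_lhs => rw [h3]
    simp only [LinearMap.sum_apply, LinearMap.smul_apply, map_sum, map_smul, smul_eq_mul]
  calc ∑ i, P.ER (φ (ext (X i)) a) b * P.ER (φ (ext (Z i)) c) d
      = ∑ i, ∑ j, LinearMap.trace ℝ Y.T
        (zz Y z * ext (Z j) * zz Y w * ext (X i)) * P.ER (ext (X j) a) b *
          P.ER (φ (ext (Z i)) c) d := by
        refine Finset.sum_congr rfl fun i _ => ?_
        rw [e4, Finset.sum_mul]
    _ = ∑ j, ∑ i, LinearMap.trace ℝ Y.T
        (zz Y z * ext (Z j) * zz Y w * ext (X i)) * P.ER (ext (X j) a) b *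
          P.ER (φ (ext (Z i)) c) d := Finset.sum_comm
    _ = ∑ j, P.ER (ext (X j) a) b * P.ER (ext (Z j) c) d := by
        refine Finset.sum_congr rfl fun j _ => ?_
        conv_rhs => rw [e6, Finset.mul_sum]
        refine Finset.sum_congr rfl fun i _ => ?_
        ring

/-- The Casimir form is a Hodge class. -/
theorem casimir_hodge (h : Dat P 𝔤) {m : ℕ} {X Z : Fin m → Module.End ℚ Y.H}
    (hX : ∀ i, X i ∈ 𝔤) (hZ : ∀ i, Z i ∈ 𝔤)
    (h1 : ∀ A ∈ 𝔤, A = ∑ i, LinearMap.trace ℚ Y.H (A * Z i) • X i)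
    (h2 : ∀ A ∈ 𝔤, A = ∑ i, LinearMap.trace ℚ Y.H (A * X i) • Z i) :
    IsHodgeTensor Y.per (∑ i, mmG (1 : Equiv.Perm (Fin 2 × Fin 2))
      ![P.E.comp (X i), P.E.comp (Z i)]) := by
  refine ⟨∑ i, mmG (1 : Equiv.Perm (Fin 2 × Fin 2)) ![P.ER.comp (ext (X i)),
    P.ER.comp (ext (Z i))], fun v => ?_, fun z hz u => ?_⟩
  · rw [MultilinearMap.sum_apply, MultilinearMap.sum_apply, Rat.cast_sum]
    refine Finset.sum_congr rfl fun i _ => ?_
    rw [mmG_apply, mmG_apply, Fin.prod_univ_two, Fin.prod_univ_two, Rat.cast_mul]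
    simp only [Matrix.cons_val_zero, Matrix.cons_val_one, LinearMap.comp_apply, ext_per, P.compat]
  · rw [MultilinearMap.sum_apply, MultilinearMap.sum_apply]
    simp only [mmG_apply, Fin.prod_univ_two, Matrix.cons_val_zero, Matrix.cons_val_one,
      LinearMap.comp_apply]
    exact casimir_inv h hX hZ h1 h2 hz _ _ _ _

theorem trace_nd {D : Module.End ℚ Y.H} (h : ∀ A, LinearMap.trace ℚ Y.H (D * A) = 0) : D = 0 := by
  have h1 : LinearMap.toMatrix (bQ Y) (bQ Y) D = 0 := by
    rw [Matrix.ext_iff_trace_mul_right]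
    intro N
    have h2 := h (Matrix.toLin (bQ Y) (bQ Y) N)
    rw [LinearMap.trace_eq_matrix_trace ℚ (bQ Y), LinearMap.toMatrix_mul,
      LinearMap.toMatrix_toLin] at h2
    rw [h2, zero_mul, Matrix.trace_zero]
  exact (LinearMap.toMatrix (bQ Y) (bQ Y)).map_eq_zero_iff.1 h1

theorem proj_orth {m : ℕ} {X Z : Fin m → Module.End ℚ Y.H}
    (h2 : ∀ A ∈ 𝔤, A = ∑ i, LinearMap.trace ℚ Y.H (A * X i) • Z i) (A : Module.End ℚ Y.H)
    {B : Module.End ℚ Y.H} (hB : B ∈ 𝔤) :
    LinearMap.trace ℚ Y.H ((A - ∑ j, LinearMap.trace ℚ Y.H (A * Z j) • X j) * B) = 0 := by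
  rw [sub_mul, map_sub, Finset.sum_mul, map_sum]
  have h3 : LinearMap.trace ℚ Y.H (A * B) =
      ∑ i, LinearMap.trace ℚ Y.H (B * X i) * LinearMap.trace ℚ Y.H (A * Z i) := by
    conv_lhs => rw [h2 B hB]
    simp only [Finset.mul_sum, mul_smul_comm, map_sum, map_smul, smul_eq_mul]
  rw [h3, ← Finset.sum_sub_distrib]
  refine Finset.sum_eq_zero fun i _ => ?_
  rw [smul_mul_assoc, map_smul, smul_eq_mul, LinearMap.trace_mul_comm ℚ (X i)]
  ring

/-- Bracket with elements of the Lefschetz Lie algebra. -/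
theorem normalizes (h : Dat P 𝔤) (hH : HodgeInDegreeTwo Y.per) {s : Module.End ℚ Y.H}
    (hs1 : ∀ f, IsHom Y Y f → s * f = f * s) (hs2 : ∀ u v, P.E (s u) v + P.E u (s v) = 0)
    {m : ℕ} {X Z : Fin m → Module.End ℚ Y.H}
    (hX : ∀ i, X i ∈ 𝔤) (hZ : ∀ i, Z i ∈ 𝔤)
    (h1 : ∀ A ∈ 𝔤, A = ∑ i, LinearMap.trace ℚ Y.H (A * Z i) • X i)
    (h2 : ∀ A ∈ 𝔤, A = ∑ i, LinearMap.trace ℚ Y.H (A * X i) • Z i)
    (hli : LinearIndependent ℚ Z) :
    ∀ A ∈ 𝔤, A * s - s * A ∈ 𝔤 := by
  have hk := kill_prod P hs1 hs2 (hH 2 _ (casimir_hodge h hX hZ h1 h2))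
  have hs3 : ∀ u v, P.E u (s v) = - P.E (s u) v := fun u v => by linear_combination hs2 u v
  have key : ∀ a b c d : Y.H, ∑ i, (P.E ((X i * s - s * X i) a) b * P.E (Z i c) d +
      P.E (X i a) b * P.E ((Z i * s - s * Z i) c) d) = 0 := by
    intro a b c d
    have h3 := hk (fun p => if p = (0, 0) then a else if p = (0, 1) then b else
      if p = (1, 0) then c else d)
    simp only [MultilinearMap.sum_apply, mmG_apply, Fintype.sum_prod_type, Fin.sum_univ_two,
      Fin.prod_univ_two, Matrix.cons_val_zero, Matrix.cons_val_one, LinearMap.comp_apply,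
      Function.update_apply, Equiv.Perm.coe_one, id_eq, Prod.mk.injEq, Fin.isValue,
      zero_ne_one, one_ne_zero, and_false, and_true, if_true, if_false, true_and, false_and] at h3
    rw [← Finset.sum_add_distrib, ← Finset.sum_add_distrib, ← Finset.sum_add_distrib] at h3
    rw [← h3]
    refine Finset.sum_congr rfl fun i _ => ?_
    simp only [LinearMap.sub_apply, Module.End.mul_apply, map_sub, hs3]
    ring
  -- the trace with an element orthogonal to `𝔤`
  have ktr : ∀ W : Module.End ℚ Y.H, (∀ i, LinearMap.trace ℚ Y.H (X i * W) = 0) →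
      ∀ i, LinearMap.trace ℚ Y.H ((X i * s - s * X i) * W) = 0 := by
    intro W hW
    have h3 : ∀ c d, ∑ i, (P.E (Z i c) d • (X i * s - s * X i) +
        P.E ((Z i * s - s * Z i) c) d • X i) = 0 := by
      intro c d
      refine E_nd' P fun a b => ?_
      rw [← key a b c d]
      simp only [LinearMap.sum_apply, LinearMap.add_apply, LinearMap.smul_apply, map_sum, map_add,
        map_smul, smul_eq_mul]
      exact Finset.sum_congr rfl fun i _ => by ring
    have h4 : ∀ c d, ∑ i, LinearMap.trace ℚ Y.H ((X i * s - s * X i) * W) * P.E (Z i c) d = 0 := by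
      intro c d
      have h5 := congrArg (fun A => LinearMap.trace ℚ Y.H (A * W)) (h3 c d)
      simp only [Finset.sum_mul, add_mul, smul_mul_assoc, map_sum, map_add, map_smul, smul_eq_mul,
        hW, mul_zero, add_zero, zero_mul, map_zero] at h5
      rw [← h5]
      exact Finset.sum_congr rfl fun i _ => mul_comm _ _
    have h5 : ∑ i, LinearMap.trace ℚ Y.H ((X i * s - s * X i) * W) • Z i = 0 := by
      refine E_nd' P fun c d => ?_
      rw [← h4 c d]
      simp only [LinearMap.sum_apply, LinearMap.smul_apply, map_sum, map_smul, smul_eq_mul]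
    exact (Fintype.linearIndependent_iff.1 hli) _ h5
  -- the projection
  let prj : Module.End ℚ Y.H → Module.End ℚ Y.H := fun A =>
    ∑ j, LinearMap.trace ℚ Y.H (A * Z j) • X j
  have hprj : ∀ A, prj A ∈ 𝔤 := fun A => Submodule.sum_mem _ fun j _ =>
    Submodule.smul_mem _ _ (hX j)
  have horth : ∀ A, ∀ B ∈ 𝔤, LinearMap.trace ℚ Y.H ((A - prj A) * B) = 0 := by
    intro A B hB
    exact proj_orth h2 A hB
  have key2 : ∀ i, X i * s - s * X i ∈ 𝔤 := by
    intro i
    have h3 : (X i * s - s * X i) - prj (X i * s - s * X i) = 0 := by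
      refine trace_nd fun W => ?_
      have h4 := horth (X i * s - s * X i) (prj W) (hprj W)
      have h5 : LinearMap.trace ℚ Y.H ((X i * s - s * X i) * (W - prj W)) = 0 := by
        refine ktr (W - prj W) (fun j => ?_) i
        rw [LinearMap.trace_mul_comm]
        exact horth W (X j) (hX j)
      have h6 : LinearMap.trace ℚ Y.H (prj (X i * s - s * X i) * (W - prj W)) = 0 := by
        rw [LinearMap.trace_mul_comm]
        exact horth W _ (hprj _)
      have h7 : ((X i * s - s * X i) - prj (X i * s - s * X i)) * W =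
          ((X i * s - s * X i) - prj (X i * s - s * X i)) * prj W +
          ((X i * s - s * X i) * (W - prj W) - prj (X i * s - s * X i) * (W - prj W)) := by
        noncomm_ring
      rw [h7, map_add, h4, map_sub, h5, h6, sub_zero, add_zero]
    rw [sub_eq_zero] at h3
    rw [h3]
    exact hprj _
  intro A hA
  have h3 : A * s - s * A = ∑ i, LinearMap.trace ℚ Y.H (A * Z i) • (X i * s - s * X i) := by
    conv_lhs => rw [h1 A hA]
    rw [Finset.sum_mul, Finset.mul_sum, ← Finset.sum_sub_distrib]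
    refine Finset.sum_congr rfl fun i _ => ?_
    rw [smul_mul_assoc, mul_smul_comm, smul_sub]
  rw [h3]
  exact Submodule.sum_mem _ fun i _ => Submodule.smul_mem _ _ (key2 i)

/-- Eigenvalues on the tangent space. -/
theorem eig_root {f : Module.End ℚ Y.H} {Ψ : Y.T →ₗ[ℂ] Y.T} (hΨ : ∀ v, Ψ (Y.per v) = Y.per (f v))
    {z : ℂ} {t : Y.T} (ht : t ≠ 0) (hz : Ψ t = z • t) : aeval z (minpoly ℚ f) = 0 := by
  have h1 : ∀ (p : Polynomial ℚ) (v : Y.H),
      aeval Ψ (p.map (algebraMap ℚ ℂ)) (Y.per v) = Y.per (aeval f p v) := by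
    intro p
    induction p using Polynomial.induction_on with
    | C a =>
      intro v
      rw [Polynomial.map_C, Polynomial.aeval_C, Polynomial.aeval_C, Module.algebraMap_end_apply,
        Module.algebraMap_end_apply, per_smul', ← Complex.coe_smul]
      norm_cast
    | add p q hp hq =>
      intro v
      rw [Polynomial.map_add, map_add, map_add, LinearMap.add_apply, LinearMap.add_apply, hp, hq,
        map_add]
    | monomial n a ih =>
      intro v
      have h2 : (Polynomial.C a * Polynomial.X ^ (n + 1) : Polynomial ℚ) =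
          (Polynomial.C a * Polynomial.X ^ n) * Polynomial.X := by ring
      rw [h2, Polynomial.map_mul, map_mul, map_mul, Module.End.mul_apply, Module.End.mul_apply,
        Polynomial.map_X, Polynomial.aeval_X, Polynomial.aeval_X, hΨ, ih]
  have h2 : aeval Ψ ((minpoly ℚ f).map (algebraMap ℚ ℂ)) = 0 := by
    have h3 : (aeval Ψ ((minpoly ℚ f).map (algebraMap ℚ ℂ))).restrictScalars ℝ = 0 := by
      refine (bR Y).ext fun i => ?_
      rw [bR_apply, LinearMap.restrictScalars_apply, h1, minpoly.aeval, LinearMap.zero_apply,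
        map_zero, LinearMap.zero_apply]
    ext t
    exact LinearMap.congr_fun h3 t
  have h3 := Module.End.aeval_apply_of_hasEigenvector (f := Ψ) (x := t) (μ := z)
    (p := (minpoly ℚ f).map (algebraMap ℚ ℂ)) ⟨Module.End.mem_eigenspace_iff.2 hz, ht⟩
  rw [h2, LinearMap.zero_apply] at h3
  have h4 := (smul_eq_zero.1 h3.symm).resolve_right ht
  rw [Polynomial.eval_map] at h4
  exact h4

/-- **The Hodge group is the Lefschetz group.** -/
theorem mem_of_lefschetz (P : Pol Y) (hH : HodgeInDegreeTwo Y.per)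
    (hr : ∀ f, IsHom Y Y f → ∀ z : ℂ, aeval z (minpoly ℚ f) = 0 → z.im = 0)
    (hg : HodgeLie Y 𝔤) {s : Module.End ℚ Y.H}
    (hs1 : ∀ f, IsHom Y Y f → s * f = f * s) (hs2 : ∀ u v, P.E (s u) v + P.E u (s v) = 0) :
    s ∈ 𝔤 := by
  have h := dat_of P hg
  obtain ⟨m, X, Z, hX, hZ, h1, h2, hli⟩ := h.exists_dual
  have hn := normalizes h hH hs1 hs2 hX hZ h1 h2 hli
  let p : Module.End ℚ Y.H := ∑ j, LinearMap.trace ℚ Y.H (s * Z j) • X j
  have hp : p ∈ 𝔤 ⊓ Lf P := Submodule.sum_mem _ fun j _ => Submodule.smul_mem _ _ (hX j)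
  have horth : ∀ B ∈ 𝔤 ⊓ Lf P, LinearMap.trace ℚ Y.H ((s - p) * B) = 0 :=
    fun B hB => proj_orth h2 s hB
  have hcomm : ∀ A ∈ 𝔤 ⊓ Lf P, (s - p) * A = A * (s - p) := by
    intro A hA
    have h3 : (s - p) * A - A * (s - p) ∈ 𝔤 ⊓ Lf P := by
      have h4 := Submodule.neg_mem _ (hn A hA)
      have h5 := h.br _ hA _ hp
      have h6 : (s - p) * A - A * (s - p) = -(A * s - s * A) + (A * p - p * A) := by
        noncomm_ring
      rw [h6]
      exact Submodule.add_mem _ h4 h5
    rw [← sub_eq_zero]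
    refine h.nd h3 fun B hB => ?_
    have h4 := horth (A * B - B * A) (h.br _ hA _ hB)
    rw [← h4]
    have h5 : ((s - p) * A - A * (s - p)) * B = (s - p) * (A * B) - A * ((s - p) * B) := by
      noncomm_ring
    have h6 : (s - p) * (A * B - B * A) = (s - p) * (A * B) - ((s - p) * B) * A := by
      noncomm_ring
    rw [h5, h6, map_sub, map_sub, LinearMap.trace_mul_comm ℚ A]
  have hhom : IsHom Y Y (s - p) := by
    rw [isHom_iff]
    obtain ⟨n, ρ, a, ha, hJ⟩ := h.J
    rw [hJ, Finset.sum_mul, Finset.mul_sum]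
    refine Finset.sum_congr rfl fun k _ => ?_
    rw [smul_mul_assoc, mul_smul_comm, ← ext_mul, ← ext_mul, hcomm _ (ha k)]
  have hskew : ∀ u v, P.E ((s - p) u) v + P.E u ((s - p) v) = 0 := by
    intro u v
    have h3 := hp.2.2 u v
    have h4 := hs2 u v
    simp only [LinearMap.sub_apply, map_sub]
    linear_combination h4 - h3
  obtain ⟨Ψ, hΨ⟩ := hhom
  have hΨ0 : Ψ = 0 := by
    refine skew_zero P (fun u v => ?_) fun z t ht hz => ?_
    · have h4 : P.ER.comp (Ψ.restrictScalars ℝ) = -(P.ER.compl₂ (Ψ.restrictScalars ℝ)) := by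
        refine bil_ext fun u v => ?_
        rw [LinearMap.comp_apply, LinearMap.neg_apply, LinearMap.neg_apply,
          LinearMap.compl₂_apply, LinearMap.restrictScalars_apply, LinearMap.restrictScalars_apply,
          hΨ, hΨ, P.compat, P.compat]
        have h5 := hskew u v
        rw [eq_neg_iff_add_eq_zero]
        exact_mod_cast h5
      exact LinearMap.congr_fun (LinearMap.congr_fun h4 u) v
    · exact hr (s - p) ⟨Ψ, hΨ⟩ z (eig_root hΨ ht hz)
  have h3 : s - p = 0 := by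
    ext v
    apply per_inj
    rw [← hΨ, hΨ0, LinearMap.zero_apply]
  rw [sub_eq_zero.1 h3]
  exact hp.1

theorem fullHodge_of (hH : HodgeInDegreeTwo Y.per)
    (hr : ∀ f, IsHom Y Y f → ∀ z : ℂ, aeval z (minpoly ℚ f) = 0 → z.im = 0)
    (ha : ∃ a, RealMax Y a) : FullHodge Y := by
  obtain ⟨P⟩ := exists_pol Y
  refine ⟨ha, fun 𝔤 hg s hs1 hs2 => ?_⟩
  refine mem_of_lefschetz P hH hr hg hs1 fun u v => ?_
  let F : Y.H [⋀^Fin 2]→ₗ[ℚ] ℚ := { bil2 P.E with
    map_eq_zero_of_eq' := by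
      intro v i j hij hne
      have h1 : ∀ u, P.E u u = 0 := by
        intro u
        have h2 := P.alt (Y.per u) (Y.per u)
        rw [P.compat] at h2
        have h3 : ((P.E u u : ℚ) : ℝ) = 0 := by linarith
        exact_mod_cast h3
      change P.E (v 0) (v 1) = 0
      have h2 : v 0 = v 1 := by
        fin_cases i <;> fin_cases j
        · exact absurd rfl hne
        · exact hij
        · exact hij.symm
        · exact absurd rfl hne
      rw [h2]
      exact h1 _ }
  have hF : ∀ u v, F ![u, v] = P.E u v := fun u v => rfl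
  have h1 : IsHodge Y.per F := by
    refine ⟨bil2 P.ER, fun v => ?_, fun z hz u => ?_⟩
    · rw [bil2_apply, P.compat]
      rfl
    · rw [bil2_apply, bil2_apply, ER_conj, smul_smul]
      have h2 : starRingEnd ℂ z * z = 1 := by
        rw [mul_comm, Complex.mul_conj, Complex.normSq_eq_norm_sq, hz]
        norm_num
      rw [h2, one_smul]
  have h2 := hs2 F h1 u v
  rw [hF, hF] at h2
  exact h2

end

end Pool.Agent.J4H9.HG
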