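import Mathlib
import Pool.Agent.J4H9.NF
import Pool.Agent.TH170.FT.Hodge

/-!
# The Mumford-Tate conjecture and Hodge classes
-/

set_option autoImplicit false

namespace Pool.Agent.J4H9.NMT

open Polynomial Pool.Agent.W521.Frob Pool.Agent.J4H9.Alg Pool.Agent.J4H9.NF
  Pool.Agent.H204R3.GP Pool.Agent.TH170.FT

/-- The Mumford-Tate conjecture for all abelian varieties `A` over finitely generated fields of
characteristic zero such that the product of the `f i` is the characteristic polynomial of the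
Frobenius element at one place of good reduction with a residue field of `q` elements. Here
`W = H_1(A, ℚ)`, `per` is its inclusion in the tangent space, `ω₀` the form given by a polarization,
`comp` the comparison map from `W` to the rational Tate module `V`, `ρ` the action of the Galois
group, `χ` the cyclotomic character, `ω` the Weil pairing and `γ` the Frobenius element. -/
def MumfordTateForLifts {I : Type} [Fintype I] (q : ℕ) (f : I → ℤ[X]) : Prop :=
  ∀ (ℓ : ℕ) [Fact ℓ.Prime] (W T V Γ : Type) [AddCommGroup W] [Module ℚ W] [AddCommGroup T]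
    [Module ℂ T] [AddCommGroup V] [Module ℚ_[ℓ] V] [FiniteDimensional ℚ_[ℓ] V] [Group Γ]
    (per : W →+ T) (ω₀ : W →ₗ[ℚ] W →ₗ[ℚ] ℚ) (comp : W →+ V) (ρ : Representation ℚ_[ℓ] Γ V)
    (χ : Γ →* ℚ_[ℓ]) (ω : V →ₗ[ℚ_[ℓ]] V →ₗ[ℚ_[ℓ]] ℚ_[ℓ]),
    IsRealization per ω₀ comp ρ χ ω →
    ∀ γ : Γ, χ γ = q → (ρ γ).charpoly = ∏ i, (f i).map (Int.castRingHom ℚ_[ℓ]) →
      MumfordTateStrong per comp ρ χ

/-- All Hodge classes in the tensor powers of `H^1(A, ℚ)` are linear combinations of products of
Hodge classes of degree two, for all abelian varieties `A` over finitely generated subfields of the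
complex numbers such that the product of the `f i` is the characteristic polynomial of the
Frobenius element at one place of good reduction with a residue field of `q` elements. Here
`W = H_1(A, ℚ)`, and `D` is the action of the Galois group on the rational Tate module. -/
def HodgeForLifts {I : Type} [Fintype I] (q : ℕ) (f : I → ℤ[X]) : Prop :=
  ∀ (ℓ : ℕ) [Fact ℓ.Prime] (W T Γ : Type) [AddCommGroup W] [Module ℚ W] [FiniteDimensional ℚ W]
    [AddCommGroup T] [Module ℂ T] [Group Γ] (per : W →+ T) (ω₀ : W →ₗ[ℚ] W →ₗ[ℚ] ℚ)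
    (D : GaloisData per ω₀ Γ ℓ) (γ : Γ), D.χ γ = q →
    (D.ρ γ).charpoly = ∏ i, (f i).map (Int.castRingHom ℚ_[ℓ]) → HodgeInDegreeTwo per

theorem mt_of_good {I : Type} [Fintype I] {q r g : ℕ} {h : I → ℤ[X]} (hq : q ≠ 0)
    (hm : ∀ i, (h i).Monic) (hdeg : ∀ i, (h i).natDegree ≤ g) (hr : r.Prime) (hr2 : r ≠ 2)
    (hgr : g < 2 * r) (hgood : GoodFam q r h)
    (hnorm : ∀ i, ∀ z : ℂ, aeval z (weil q (h i)) = 0 → ‖z‖ ^ 2 = q) :
    MumfordTateForLifts q (fun i => weil q (h i)) := by
  intro ℓ _ W T V Γ _ _ _ _ _ _ _ _ per ω₀ comp ρ χ ω hR γ hχ hγ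
  have hanti : ∀ u v, ω u v = - ω v u := by
    intro u v
    have h1 := hR.alternating (u + v)
    simp only [map_add, LinearMap.add_apply, hR.alternating, zero_add, add_zero] at h1
    linear_combination h1
  have hnd' : ∀ u, (∀ v, ω u v = 0) → u = 0 := by
    intro u hu
    apply hR.nondegenerate
    intro v
    rw [hanti, hu, neg_zero]
  exact mumfordTate_of per comp ρ χ ω hnd' hR.equivariant ω₀ hR.hodge hR.compatible hR.faltings
    (tate_nf_mem hq hm hdeg hr hr2 hgr hgood hnorm ρ χ ω hR.alternating hR.nondegenerate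
      hR.equivariant hR.semisimple γ hχ hγ)

theorem hodge_of_mt {I : Type} [Fintype I] {q : ℕ} {f : I → ℤ[X]} (h : MumfordTateForLifts q f) :
    HodgeForLifts q f := by
  intro ℓ _ W T Γ _ _ _ _ _ _ per ω₀ D γ hχ hγ
  exact hodge_of_mumfordTate D (h ℓ W T _ Γ per ω₀ _ D.ρ D.χ D.ω D.realization γ hχ hγ)

end Pool.Agent.J4H9.NMT
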