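import Mathlib
import Pool.Agent.J4H9.NMT
import Pool.Agent.J4H9.NStm

/-!
# The Mumford-Tate conjecture for almost all reductions
-/

set_option autoImplicit false

namespace Pool.Agent.J4H9.NMT

open Polynomial Pool.Agent.W521.Frob Pool.Agent.J4H9.NAll Pool.Agent.J4H9.NGauss
  Pool.Agent.J4H9.NStm

theorem mt_of_fam {I : Type} [Fintype I] {q g b : ℕ} (hq : 0 < q) {f : I → ℤ[X]}
    (h : FamOK q g b f) : MumfordTateForLifts q f := by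
  obtain ⟨r, h, hr, hr2, hgr, hbr, h8, hgood, hn, rfl⟩ := h
  exact mt_of_good (r := r) (g := g) hq.ne' (fun i => (h8 i).1) (fun i => (h8 i).2.le) hr hr2
    hgr hgood hn

theorem mt_main {μ ε : ℝ} (hμ : 0 < μ) (hμ1 : μ ≤ 1 / 2) (hε : 0 < ε) (hε1 : ε < μ / 4) :
    ∃ g₀ : ℕ, ∀ g : ℕ, g₀ ≤ g → ∀ p a : ℕ, p.Prime → 0 < a → ∀ lam : ℕ → ℝ, Slopes lam →
      ∑ i ∈ Finset.range g, lam i ≤ (1 / 2 - μ) * g →
      ∀ E : Finset ℕ, (∀ j ∈ E, 0 < j ∧ j ≤ g ∧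
        ∃ n : ℕ, (a : ℝ) * ∑ i ∈ Finset.range j, lam i = n) →
      ((newtonAbove p a lam g).Finite ∧
        (64 ≤ ((p ^ a : ℕ) : ℝ) ^ (μ / 2) → 0 < (newtonThrough p a lam g E).ncard)) ∧
      ∀ (S : Set ℤ[X]) (D : ℝ), S ⊆ newtonAbove p a lam g → 1 ≤ D →
        ((newtonThrough p a lam g E).ncard : ℝ) ≤ D * S.ncard → ∀ m : ℕ,
        ({f : Fin m → ℤ[X] | (∀ i, f i ∈ S) ∧ ¬ MumfordTateForLifts (p ^ a) f}.ncard : ℝ) ≤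
          (m : ℝ) ^ 2 * D * 2 ^ E.card * 8 ^ g *
            ((p ^ a : ℕ) : ℝ) ^ (-((μ / 4 - ε) * g)) * (S.ncard : ℝ) ^ m := by
  have h := main_pred (κ := 1 / 2) le_rfl (by norm_num) hμ hμ1 hε (by linarith)
    (fun q _ _ f => MumfordTateForLifts q f) fun _ _ _ _ _ hq _ hf => mt_of_fam hq hf
  have h6 : (μ * (1 - 1 / 2 : ℝ) / 2 - ε) = μ / 4 - ε := by ring
  rw [h6] at h
  exact h

theorem hodge_main {μ ε : ℝ} (hμ : 0 < μ) (hμ1 : μ ≤ 1 / 2) (hε : 0 < ε) (hε1 : ε < μ / 4) :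
    ∃ g₀ : ℕ, ∀ g : ℕ, g₀ ≤ g → ∀ p a : ℕ, p.Prime → 0 < a → ∀ lam : ℕ → ℝ, Slopes lam →
      ∑ i ∈ Finset.range g, lam i ≤ (1 / 2 - μ) * g →
      ∀ E : Finset ℕ, (∀ j ∈ E, 0 < j ∧ j ≤ g ∧
        ∃ n : ℕ, (a : ℝ) * ∑ i ∈ Finset.range j, lam i = n) →
      ((newtonAbove p a lam g).Finite ∧
        (64 ≤ ((p ^ a : ℕ) : ℝ) ^ (μ / 2) → 0 < (newtonThrough p a lam g E).ncard)) ∧
      ∀ (S : Set ℤ[X]) (D : ℝ), S ⊆ newtonAbove p a lam g → 1 ≤ D →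
        ((newtonThrough p a lam g E).ncard : ℝ) ≤ D * S.ncard → ∀ m : ℕ,
        ({f : Fin m → ℤ[X] | (∀ i, f i ∈ S) ∧ ¬ HodgeForLifts (p ^ a) f}.ncard : ℝ) ≤
          (m : ℝ) ^ 2 * D * 2 ^ E.card * 8 ^ g *
            ((p ^ a : ℕ) : ℝ) ^ (-((μ / 4 - ε) * g)) * (S.ncard : ℝ) ^ m := by
  have h := main_pred (κ := 1 / 2) le_rfl (by norm_num) hμ hμ1 hε (by linarith)
    (fun q _ _ f => HodgeForLifts q f) fun _ _ _ _ _ hq _ hf => hodge_of_mt (mt_of_fam hq hf)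
  have h6 : (μ * (1 - 1 / 2 : ℝ) / 2 - ε) = μ / 4 - ε := by ring
  rw [h6] at h
  exact h

end Pool.Agent.J4H9.NMT
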