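import Mathlib
import Pool.Agent.J4H9.HGDefs
import Pool.Agent.J4H9.HGEnd
import Pool.Agent.J4H9.HGFull
import Pool.Agent.J4H9.HGDich
import Pool.Agent.J4H9.NMTFam

/-!
# The Hodge groups of the liftings of almost all isogeny classes
-/

set_option autoImplicit false

namespace Pool.Agent.J4H9.HG

open Polynomial Module TensorProduct Pool.Agent.Y90 Pool.Agent.R915 Pool.Agent.W521.Frob
  Pool.Agent.J4H9.Alg Pool.Agent.J4H9.NF Pool.Agent.J4H9.NAll Pool.Agent.J4H9.NMT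
  Pool.Agent.J4H9.NGauss Pool.Agent.J4H9.NStm Pool.Agent.H204R3.GP Pool.Agent.TH170.FT

/-- Each abelian variety `Y` without complex multiplication which is a lifting of the isogeny class
with characteristic polynomial `f` over the field with `q` elements has the following properties: all
eigenvalues of its endomorphisms are real, and its Hodge group is the Lefschetz group
(`Pool.Agent.R915.FullHodge`). -/
def FullForLiftings (q : ℕ) (f : ℤ[X]) : Prop :=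
  ∀ Y : AV, IsLifting Y q f → ¬ HasCMult Y → FullHodge Y ∧
    ∀ h, IsHom Y Y h → ∀ z : ℂ, aeval z (minpoly ℚ h) = 0 → z.im = 0

theorem eigDich_of {q r g : ℕ} {h : Fin 1 → ℤ[X]} (hq : q ≠ 0)
    (hm : ∀ i, (h i).Monic) (hdeg : ∀ i, (h i).natDegree ≤ g) (hr : r.Prime) (hr2 : r ≠ 2)
    (hgr : g < 2 * r) (hgood : GoodFam q r h)
    (hnorm : ∀ i, ∀ z : ℂ, aeval z (weil q (h i)) = 0 → ‖z‖ ^ 2 = q) {Y : AV}
    (hY : IsLifting Y q (weil q (h 0))) : EigDich Y := by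
  obtain ⟨ℓ, _, Γ, _, ω₀, D, γ, -, hγ, htr⟩ := hY
  obtain ⟨L, _, _, j, Ω, _, _, jΩ, R, _, e, he⟩ := ends_eigen hq hm hdeg hr hr2 hgr hgood hnorm D γ
    hγ htr
  exact ⟨ℚ_[ℓ], Ω, L, R, inferInstance, inferInstance, inferInstance, inferInstance, inferInstance,
    inferInstance, inferInstance, e, jΩ, j, he⟩

theorem full_of_one {q g b : ℕ} (hq : 0 < q) {f : Fin 1 → ℤ[X]} (h : FamOK q g b f) :
    FullForLiftings q (f 0) := by
  have hmt := hodge_of_mt (mt_of_fam hq h)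
  obtain ⟨r, h, hr, hr2, hgr, hbr, h8, hgood, hn, rfl⟩ := h
  intro Y hY hcm
  have h1 := eigDich_of hq.ne' (fun i => (h8 i).1) (fun i => (h8 i).2.le) hr hr2 hgr hgood hn hY
  obtain ⟨h2, h3⟩ := consequences h1 hcm
  refine ⟨?_, h2⟩
  obtain ⟨ℓ, _, Γ, _, ω₀, D, γ, hχ, hγ, -⟩ := hY
  have h4 : HodgeInDegreeTwo Y.per := hmt ℓ Y.H Y.T Γ Y.per ω₀ D γ hχ (by
    rw [Fin.prod_univ_one]
    exact hγ)
  exact fullHodge_of h4 h2 h3

theorem fam_single {I : Type} {q g b : ℕ} {f : I → ℤ[X]} (h : FamOK q g b f) (i : I) :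
    FamOK q g b (fun _ : Fin 1 => f i) := by
  obtain ⟨r, h, hr, hr2, hgr, hbr, h8, hgood, hn, rfl⟩ := h
  exact ⟨r, fun _ => h i, hr, hr2, hgr, hbr, fun _ => h8 i, ⟨fun _ => hgood.1 i,
    fun _ => hgood.2.1 i, fun k l hkl => absurd (Subsingleton.elim l k) hkl⟩, fun _ => hn i, rfl⟩

/-- **The Hodge groups of the liftings of almost all isogeny classes are Lefschetz groups.** -/
theorem full_main {μ ε : ℝ} (hμ : 0 < μ) (hμ1 : μ ≤ 1 / 2) (hε : 0 < ε) (hε1 : ε < μ / 4) :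
    ∃ g₀ : ℕ, ∀ g : ℕ, g₀ ≤ g → ∀ p a : ℕ, p.Prime → 0 < a → ∀ lam : ℕ → ℝ, Slopes lam →
      ∑ i ∈ Finset.range g, lam i ≤ (1 / 2 - μ) * g →
      ∀ E : Finset ℕ, (∀ j ∈ E, 0 < j ∧ j ≤ g ∧
        ∃ n : ℕ, (a : ℝ) * ∑ i ∈ Finset.range j, lam i = n) →
      ((newtonAbove p a lam g).Finite ∧
        (64 ≤ ((p ^ a : ℕ) : ℝ) ^ (μ / 2) → 0 < (newtonThrough p a lam g E).ncard)) ∧
      ∀ (S : Set ℤ[X]) (D : ℝ), S ⊆ newtonAbove p a lam g → 1 ≤ D →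
        ((newtonThrough p a lam g E).ncard : ℝ) ≤ D * S.ncard →
        ({f | f ∈ S ∧ ¬ FullForLiftings (p ^ a) f}.ncard : ℝ) ≤
          D * 2 ^ E.card * 8 ^ g * ((p ^ a : ℕ) : ℝ) ^ (-((μ / 4 - ε) * g)) * S.ncard := by
  have h := main_pred (κ := 1 / 2) le_rfl (by norm_num) hμ hμ1 hε (by linarith)
    (fun q _ _ f => ∀ i, FullForLiftings q (f i)) fun _ _ _ _ _ hq _ hf i =>
      full_of_one hq (fam_single hf i)
  have h6 : (μ * (1 - 1 / 2 : ℝ) / 2 - ε) = μ / 4 - ε := by ring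
  rw [h6] at h
  obtain ⟨g₀, h⟩ := h
  refine ⟨g₀, fun g hg p a hp ha lam hs hht E hE => ?_⟩
  obtain ⟨h1, h2⟩ := h g hg p a hp ha lam hs hht E hE
  refine ⟨h1, fun S D hS hD hDS => ?_⟩
  have h3 := h2 S D hS hD hDS 1
  rw [Nat.cast_one, one_pow, one_mul, pow_one] at h3
  refine le_trans ?_ h3
  have hSfin : S.Finite := h1.1.subset hS
  have hfin : {f : Fin 1 → ℤ[X] | (∀ i, f i ∈ S) ∧ ¬ ∀ i, FullForLiftings (p ^ a) (f i)}.Finite :=
    (Set.Finite.pi' fun _ : Fin 1 => hSfin).subset fun f hf => hf.1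
  have h4 : {f | f ∈ S ∧ ¬ FullForLiftings (p ^ a) f}.ncard ≤
      {f : Fin 1 → ℤ[X] | (∀ i, f i ∈ S) ∧ ¬ ∀ i, FullForLiftings (p ^ a) (f i)}.ncard := by
    refine Set.ncard_le_ncard_of_injOn (fun f _ => f) ?_ ?_ hfin
    · rintro f ⟨h5, h6⟩
      exact ⟨fun _ => h5, fun h7 => h6 (h7 0)⟩
    · intro f _ f' _ hff
      exact congrFun hff 0
  exact_mod_cast h4

end Pool.Agent.J4H9.HG
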