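import Mathlib
import Pool.Agent.J4H9.HGMain
import Pool.Agent.N178.HX.Parts

/-!
# Abelian varieties built from the liftings of almost all isogeny classes
-/

set_option autoImplicit false

namespace Pool.Agent.J4H9.HG

open Polynomial Module Pool.Agent.Y90 Pool.Agent.R915 Pool.Agent.J4H9.NGauss Pool.Agent.J4H9.NStm

/-- The classes such that the Hodge groups of the liftings are as large as possible. -/
def fullSet : Set (ℕ × ℤ[X]) := {c | FullForLiftings c.1 c.2}

theorem almostAll_fullSet : AlmostAll fullSet := fun _ _ hμ hμ1 hε hε1 => full_main hμ hμ1 hε hε1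

/-- The generalized Hodge conjecture. -/
theorem ghc_liftings (S : Sys) {X : AV} (hX : HasFactorsIn fullSet X) :
    Pool.Agent.N178.HX.GHC S X := by
  obtain ⟨A, hA, hX⟩ := hX
  obtain ⟨K, _, T, hT, h⟩ := Pool.Agent.N178.HX.t_POW A hA
  refine Pool.Agent.N178.HX.uncond' Pool.Agent.N178.HX.t_MAINT Pool.Agent.N178.HX.t_COV T
    (fun _ : K => ()) (fun τ => ⟨τ (), fun _ _ => rfl⟩)
    (fun j => Or.inr (Or.inr ⟨Finset.univ, fun k => ⟨fun _ => rfl, fun _ => Finset.mem_univ k⟩, hT⟩))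
    S X fun Y hY => ?_
  rcases hX Y hY with h1 | ⟨h1, c, hc, h2⟩
  · exact h A (fun _ h2 => h2) Y h1
  · obtain ⟨h3, h4⟩ := hc Y h2 h1
    exact Or.inr ⟨h1, Or.inr (Or.inr (Or.inr (Or.inr h3))), fun d hd =>
      absurd hd (not_unbalanced h1 h4 d)⟩

end Pool.Agent.J4H9.HG
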