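import Mathlib
import Pool.Agent.J4H9.Alg

/-!
# Cycles modulo numerical equivalence on abelian varieties over finite fields
-/

set_option autoImplicit false

namespace Pool.Agent.J4H9.HS

open Polynomial Module TensorProduct Pool.Agent.W484.AA Pool.Agent.W484.BB Pool.Agent.W484.AS
  Pool.Agent.J4H9.Alg

/-- The classes of the algebraic cycles on an abelian variety `A` of dimension `d` over an algebraic
closure of a finite field. Here `V = H^1(A)`, with coefficients in the algebraic closure of `ℚ_ℓ`,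
which is identified with `ℂ`, `F` is the Frobenius endomorphism of `V` for a model of `A` over the
field with `Q` elements, and the exterior algebra of `V` is the cohomology of `A`. `Z n` is the
rational vector space (`smul_mem`) of the classes of the cycles of codimension `n` with rational
coefficients (Tate twists are suppressed) and `deg` the degree map on `H^{2 d}(A)`. Cycles are defined over finite extensions (`frobenius`),
intersection numbers are rational (`deg_rational`), and by the theorem of Tate the Tate classes of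
degree two are linear combinations of classes of divisors (`tate`). -/
structure CycleClasses {V : Type} [AddCommGroup V] [Module ℂ V] (F : V →ₗ[ℂ] V) (Q : ℂ)
    (d : ℕ) where
  Z : ℕ → AddSubgroup (ExteriorAlgebra ℂ V)
  smul_mem : ∀ n, ∀ r : ℚ, ∀ z ∈ Z n, (r : ℂ) • z ∈ Z n
  deg : ExteriorAlgebra ℂ V →ₗ[ℂ] ℂ
  mem_degree : ∀ n, ∀ z ∈ Z n, z ∈ ⋀[ℂ]^(2 * n) V
  one_mem : (1 : ExteriorAlgebra ℂ V) ∈ Z 0
  mul_mem : ∀ m n, ∀ y ∈ Z m, ∀ z ∈ Z n, y * z ∈ Z (m + n)
  frobenius : ∀ n, ∀ z ∈ Z n, ∃ N : ℕ, 0 < N ∧ ExteriorAlgebra.map (F ^ N) z = (Q ^ n) ^ N • z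
  deg_rational : ∀ z ∈ Z d, ∃ r : ℚ, deg z = r
  tate : ∀ z, IsDivisorClass F Q z → z ∈ Submodule.span ℂ (Z 1 : Set (ExteriorAlgebra ℂ V))

section

variable {V : Type} [AddCommGroup V] [Module ℂ V] {F : V →ₗ[ℂ] V} {Q : ℂ} {d : ℕ}
  (C : CycleClasses F Q d)

/-- The rational linear combinations of the products of `n` classes of divisors. -/
def CycleClasses.lefschetz (n : ℕ) : AddSubgroup (ExteriorAlgebra ℂ V) :=
  AddSubgroup.closure {t | ∃ (r : ℚ) (D : Fin n → ExteriorAlgebra ℂ V), (∀ l, D l ∈ C.Z 1) ∧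
    t = (r : ℂ) • (List.ofFn D).prod}

/-- The class `z` of codimension `n` is numerically equivalent to zero. -/
def CycleClasses.IsNumTrivial (n : ℕ) (z : ExteriorAlgebra ℂ V) : Prop :=
  ∀ m, n + m = d → ∀ w ∈ C.Z m, C.deg (z * w) = 0

/-- The class `z` of codimension `n` is primitive: `z L ^ (d - 2 n + 1)` is numerically equivalent to
zero. -/
def CycleClasses.IsPrimitive (L : ExteriorAlgebra ℂ V) (n : ℕ) (z : ExteriorAlgebra ℂ V) : Prop :=
  C.IsNumTrivial (n + (d - 2 * n + 1)) (z * L ^ (d - 2 * n + 1))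

/-- The form `(-1) ^ n z z L ^ (d - 2 n)` is positive for all primitive classes `z` in `S` which are
not numerically equivalent to zero. -/
def CycleClasses.IsPositiveOn (L : ExteriorAlgebra ℂ V) (n : ℕ)
    (S : AddSubgroup (ExteriorAlgebra ℂ V)) : Prop :=
  ∀ z ∈ S, C.IsPrimitive L n z → ¬ C.IsNumTrivial n z →
    ∃ r : ℚ, 0 < r ∧ (-1) ^ n * C.deg (z * z * L ^ (d - 2 * n)) = r

/-- The positivity for products of divisors. For ample `L` this is the theorem of Milne. -/
def CycleClasses.LefschetzPositive (L : ExteriorAlgebra ℂ V) : Prop :=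
  ∀ n, 2 * n ≤ d → C.IsPositiveOn L n (C.lefschetz n)

/-- The numerical Hodge standard conjecture: the positivity for all cycles. -/
def CycleClasses.HodgeStandard (L : ExteriorAlgebra ℂ V) : Prop :=
  ∀ n, 2 * n ≤ d → C.IsPositiveOn L n (C.Z n)

/-- There are no exotic classes: each cycle is numerically equivalent to a rational linear combination
of intersections of divisors. -/
def CycleClasses.NoExotic : Prop :=
  ∀ n, n ≤ d → ∀ z ∈ C.Z n, ∃ y ∈ C.lefschetz n, C.IsNumTrivial n (z - y)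

theorem prod_mem (n : ℕ) (D : Fin n → ExteriorAlgebra ℂ V) (hD : ∀ l, D l ∈ C.Z 1) :
    (List.ofFn D).prod ∈ C.Z n := by
  induction n with
  | zero => simpa using C.one_mem
  | succ n ih =>
    rw [List.ofFn_succ, List.prod_cons]
    have h1 := C.mul_mem 1 n _ (hD 0) _ (ih (fun l => D l.succ) fun l => hD _)
    rw [add_comm 1 n] at h1
    exact h1

theorem lefschetz_le (n : ℕ) : C.lefschetz n ≤ C.Z n := by
  refine (AddSubgroup.closure_le _).2 ?_
  rintro t ⟨r, D, hD, rfl⟩
  exact C.smul_mem n r _ (prod_mem C n D hD)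

theorem lefschetz_smul (n : ℕ) (r : ℚ) {x : ExteriorAlgebra ℂ V} (hx : x ∈ C.lefschetz n) :
    (r : ℂ) • x ∈ C.lefschetz n := by
  induction hx using AddSubgroup.closure_induction with
  | mem x hx =>
    obtain ⟨r', D, hD, rfl⟩ := hx
    refine AddSubgroup.subset_closure ⟨r * r', D, hD, ?_⟩
    rw [smul_smul]
    push_cast
    rfl
  | zero => rw [smul_zero]; exact zero_mem _
  | add x y _ _ hx hy => rw [smul_add]; exact add_mem hx hy
  | neg x _ hx => rw [smul_neg]; exact neg_mem hx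

theorem pair_comm (x y : V) (b : ExteriorAlgebra ℂ V) :
    b * (ExteriorAlgebra.ι ℂ x * ExteriorAlgebra.ι ℂ y) =
      ExteriorAlgebra.ι ℂ x * ExteriorAlgebra.ι ℂ y * b := by
  have anti : ∀ a c : V, ExteriorAlgebra.ι ℂ a * ExteriorAlgebra.ι ℂ c =
      -(ExteriorAlgebra.ι ℂ c * ExteriorAlgebra.ι ℂ a) := fun a c =>
    eq_neg_of_add_eq_zero_left (ExteriorAlgebra.ι_add_mul_swap a c)
  induction b using ExteriorAlgebra.induction with
  | algebraMap r => rw [Algebra.commutes]
  | ι a => rw [mul_assoc, anti y a, mul_neg, ← mul_assoc, ← mul_assoc, anti a x, neg_mul]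
  | mul a b ha hb => rw [mul_assoc, hb, ← mul_assoc, ha, mul_assoc]
  | add a b ha hb => rw [mul_add, add_mul, ha, hb]

/-- Elements of even degree are central. -/
theorem even_comm (n : ℕ) {z : ExteriorAlgebra ℂ V} (hz : z ∈ ⋀[ℂ]^(2 * n) V)
    (w : ExteriorAlgebra ℂ V) : z * w = w * z := by
  have key : ∀ (n : ℕ) (v : Fin (2 * n) → V),
      ExteriorAlgebra.ιMulti ℂ (2 * n) v ∈ Subalgebra.center ℂ (ExteriorAlgebra ℂ V) := by
    intro n
    induction n with
    | zero =>
      intro v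
      rw [ExteriorAlgebra.ιMulti_apply]
      have : List.ofFn (fun i : Fin (2 * 0) => ExteriorAlgebra.ι ℂ (v i)) = [] := rfl
      rw [this, List.prod_nil]
      exact one_mem _
    | succ n ih =>
      intro v
      have h1 : ExteriorAlgebra.ιMulti ℂ (2 * (n + 1)) v =
          ExteriorAlgebra.ι ℂ (v 0) * ExteriorAlgebra.ι ℂ (v 1) *
            ExteriorAlgebra.ιMulti ℂ (2 * n) (fun i => v ⟨i + 2, by omega⟩) := by
        rw [ExteriorAlgebra.ιMulti_apply, ExteriorAlgebra.ιMulti_apply]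
        have h2 : List.ofFn (fun i : Fin (2 * (n + 1)) => ExteriorAlgebra.ι ℂ (v i)) =
            ExteriorAlgebra.ι ℂ (v 0) :: ExteriorAlgebra.ι ℂ (v 1) ::
              List.ofFn (fun i : Fin (2 * n) => ExteriorAlgebra.ι ℂ (v ⟨i + 2, by omega⟩)) := by
          have h3 : 2 * (n + 1) = 2 * n + 1 + 1 := by ring
          change List.ofFn (n := 2 * n + 1 + 1) _ = _
          rw [List.ofFn_succ, List.ofFn_succ]
          rfl
        rw [h2, List.prod_cons, List.prod_cons, mul_assoc]
      rw [h1]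
      refine mul_mem ?_ (ih _)
      rw [Subalgebra.mem_center_iff]
      exact pair_comm _ _
  have h1 : (⋀[ℂ]^(2 * n) V : Submodule ℂ (ExteriorAlgebra ℂ V)) ≤
      Subalgebra.toSubmodule (Subalgebra.center ℂ (ExteriorAlgebra ℂ V)) := by
    rw [← ExteriorAlgebra.ιMulti_span_fixedDegree]
    refine Submodule.span_le.2 ?_
    rintro _ ⟨v, rfl⟩
    exact key n v
  have h2 := h1 hz
  rw [Subalgebra.mem_toSubmodule, Subalgebra.mem_center_iff] at h2
  exact (h2 w).symm

theorem exists_proj : ∃ π : ℂ →ₗ[ℚ] ℚ, ∀ r : ℚ, π (r : ℂ) = r := by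
  obtain ⟨f, hf⟩ := LinearMap.exists_leftInverse_of_injective
    (LinearMap.toSpanSingleton ℚ ℂ 1) (LinearMap.ker_eq_bot.2 fun x y hxy => by
      simpa using hxy)
  refine ⟨f, fun r => ?_⟩
  have h1 := LinearMap.congr_fun hf r
  simpa using h1

/-- The descent to rational coefficients. -/
theorem descent {n m : ℕ} (hnm : n + m = d) {z : ExteriorAlgebra ℂ V}
    (hz : z ∈ Submodule.span ℂ (C.lefschetz n : Set (ExteriorAlgebra ℂ V)))
    (π : ℂ →ₗ[ℚ] ℚ) : ∃ y ∈ C.lefschetz n, ∀ w ∈ C.lefschetz m,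
      C.deg (y * w) = (π (C.deg (z * w)) : ℚ) := by
  suffices h : ∀ π : ℂ →ₗ[ℚ] ℚ, ∃ y ∈ C.lefschetz n, ∀ w ∈ C.lefschetz m,
      C.deg (y * w) = (π (C.deg (z * w)) : ℚ) from h π
  clear π
  induction hz using Submodule.span_induction with
  | mem x hx =>
    intro π
    refine ⟨((π 1 : ℚ) : ℂ) • x, lefschetz_smul C n _ hx, fun w hw => ?_⟩
    have h1 : x * w ∈ C.Z d := by
      have := C.mul_mem n m x (lefschetz_le C n hx) w (lefschetz_le C m hw)
      rwa [hnm] at this
    obtain ⟨r, hr⟩ := C.deg_rational _ h1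
    have h2 : (r : ℂ) = r • (1 : ℂ) := by rw [Rat.smul_one_eq_cast]
    rw [smul_mul_assoc, map_smul, smul_eq_mul, hr, h2, map_smul, smul_eq_mul]
    push_cast
    rw [Rat.smul_one_eq_cast]
    ring
  | zero =>
    intro π
    exact ⟨0, zero_mem _, fun w _ => by simp⟩
  | add x y _ _ hx hy =>
    intro π
    obtain ⟨x', h1, h2⟩ := hx π
    obtain ⟨y', h3, h4⟩ := hy π
    refine ⟨x' + y', add_mem h1 h3, fun w hw => ?_⟩
    rw [add_mul, map_add, h2 w hw, h4 w hw, add_mul, map_add, map_add]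
    push_cast
    rfl
  | smul c x _ hx =>
    intro π
    obtain ⟨x', h1, h2⟩ := hx (π ∘ₗ LinearMap.mulLeft ℚ c)
    refine ⟨x', h1, fun w hw => ?_⟩
    rw [h2 w hw, smul_mul_assoc, map_smul, smul_eq_mul, LinearMap.comp_apply,
      LinearMap.mulLeft_apply]

theorem span_induct {m : ℕ} {z z' : ExteriorAlgebra ℂ V}
    (h : ∀ w ∈ C.lefschetz m, C.deg (z * w) = C.deg (z' * w))
    {w : ExteriorAlgebra ℂ V}
    (hw : w ∈ Submodule.span ℂ (C.lefschetz m : Set (ExteriorAlgebra ℂ V))) :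
    C.deg (z * w) = C.deg (z' * w) := by
  induction hw using Submodule.span_induction with
  | mem x hx => exact h x hx
  | zero => simp
  | add x y _ _ hx hy => rw [mul_add, mul_add, map_add, map_add, hx, hy]
  | smul c x _ hx => rw [mul_smul_comm, mul_smul_comm, map_smul, map_smul, hx]

/-- No exotic classes. -/
theorem noExotic (hex : ∀ n, ∀ z ∈ C.Z n,
    z ∈ Submodule.span ℂ (C.lefschetz n : Set (ExteriorAlgebra ℂ V))) : C.NoExotic := by
  intro n hn z hz
  obtain ⟨π, hπ⟩ := exists_proj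
  obtain ⟨m, hm⟩ := Nat.exists_eq_add_of_le hn
  obtain ⟨y, hy, h1⟩ := descent C (n := n) (m := m) hm.symm (hex n z hz) π
  refine ⟨y, hy, fun m' hm' w hw => ?_⟩
  have hmm : m' = m := by omega
  subst hmm
  have h2 : C.deg (z * w) = C.deg (y * w) := by
    refine span_induct C (fun w hw => ?_) (hex m' w hw)
    rw [h1 w hw]
    have h3 : z * w ∈ C.Z d := by
      have := C.mul_mem n m' z hz w (lefschetz_le C m' hw)
      rwa [hm'] at this
    obtain ⟨r, hr⟩ := C.deg_rational _ h3
    rw [hr, hπ]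
  rw [sub_mul, map_sub, h2, sub_self]

/-- The positivity. -/
theorem hodgeStandard (hne : C.NoExotic) {L : ExteriorAlgebra ℂ V} (hL : L ∈ C.Z 1)
    (hpos : C.LefschetzPositive L) : C.HodgeStandard L := by
  have hLp : ∀ k, L ^ k ∈ C.Z k := by
    intro k
    induction k with
    | zero => rw [pow_zero]; exact C.one_mem
    | succ k ih => rw [pow_succ]; exact C.mul_mem k 1 _ ih _ hL
  have hcomm : ∀ m n, ∀ y ∈ C.Z m, ∀ z ∈ C.Z n, y * z = z * y := fun m n y hy z _ =>
    even_comm m (C.mem_degree m y hy) z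
  intro n hn z hz hprim hnt
  obtain ⟨y, hy, hzy⟩ := hne n (by omega) z hz
  have hyZ := lefschetz_le C n hy
  have heq : ∀ m, n + m = d → ∀ w ∈ C.Z m, C.deg (z * w) = C.deg (y * w) := by
    intro m hm w hw
    have h1 := hzy m hm w hw
    rw [sub_mul, map_sub] at h1
    exact sub_eq_zero.1 h1
  have hyp : C.IsPrimitive L n y := by
    intro m hm w hw
    have h1 := hprim m hm w hw
    have h2 : L ^ (d - 2 * n + 1) * w ∈ C.Z (d - 2 * n + 1 + m) :=
      C.mul_mem _ _ _ (hLp _) _ hw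
    rw [mul_assoc, heq _ (by omega) _ h2, ← mul_assoc] at h1
    exact h1
  have hynt : ¬ C.IsNumTrivial n y := by
    intro h1
    apply hnt
    intro m hm w hw
    rw [heq m hm w hw]
    exact h1 m hm w hw
  obtain ⟨r, hr, h1⟩ := hpos n hn y hy hyp hynt
  refine ⟨r, hr, ?_⟩
  rw [← h1]
  congr 1
  have e1 : z * L ^ (d - 2 * n) ∈ C.Z (n + (d - 2 * n)) := C.mul_mem _ _ _ hz _ (hLp _)
  have e2 : y * L ^ (d - 2 * n) ∈ C.Z (n + (d - 2 * n)) := C.mul_mem _ _ _ hyZ _ (hLp _)
  calc C.deg (z * z * L ^ (d - 2 * n)) = C.deg (z * (z * L ^ (d - 2 * n))) := by rw [mul_assoc]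
    _ = C.deg (y * (z * L ^ (d - 2 * n))) := heq _ (by omega) _ e1
    _ = C.deg (z * (y * L ^ (d - 2 * n))) := by
        rw [← mul_assoc, hcomm n n y hyZ z hz, mul_assoc]
    _ = C.deg (y * (y * L ^ (d - 2 * n))) := heq _ (by omega) _ e2
    _ = _ := by rw [mul_assoc]

end

end Pool.Agent.J4H9.HS
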