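import Mathlib
import Pool.Agent.J4H9.HS
import Pool.Agent.J4H9.NStm

/-!
# The numerical Hodge standard conjecture for almost all abelian varieties over a finite field
-/

set_option autoImplicit false

namespace Pool.Agent.J4H9.HS

open Polynomial Module TensorProduct Pool.Agent.W484.AA Pool.Agent.W484.BB Pool.Agent.W484.AS
  Pool.Agent.J4H9.Alg Pool.Agent.J4H9.NAll Pool.Agent.J4H9.NGauss Pool.Agent.J4H9.NStm

/-- The numerical Hodge standard conjecture for all abelian varieties over an algebraic closure of the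
field with `q` elements which are isogenous to products of powers of abelian varieties with the
characteristic polynomials of Frobenius `f i` over the field with `q` elements: there are no exotic
classes modulo numerical equivalence, and the pairing is positive definite on all primitive classes
for each `L` for which it is positive definite on the products of divisors (all ample `L`, by the
theorem of Milne). -/
def NumericalHodgeStandard {I : Type} (q : ℕ) (f : I → ℤ[X]) : Prop :=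
  ∀ (V : Type) [AddCommGroup V] [Module ℂ V] [FiniteDimensional ℂ V] (F : V →ₗ[ℂ] V),
    Submodule.span ℂ {v : V | ∃ i, ∃ z : ℂ, aeval z (f i) = 0 ∧ F v = z • v} = ⊤ →
    ∀ (d : ℕ) (C : CycleClasses F q d), C.NoExotic ∧
      ∀ L ∈ C.Z 1, C.LefschetzPositive L → C.HodgeStandard L

theorem coe_pow_map {V : Type} [AddCommGroup V] [Module ℂ V] (F : V →ₗ[ℂ] V) (n N : ℕ)
    (u : ⋀[ℂ]^n V) :
    (((exteriorPower.map n F ^ N) u : ⋀[ℂ]^n V) : ExteriorAlgebra ℂ V) =
      ExteriorAlgebra.map (F ^ N) (u : ExteriorAlgebra ℂ V) := by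
  have h : exteriorPower.map n F ^ N = exteriorPower.map n (F ^ N) := by
    induction N with
    | zero =>
      rw [pow_zero, pow_zero]
      exact (exteriorPower.map_id (R := ℂ) (M := V)).symm
    | succ N ih =>
      rw [pow_succ, ih, pow_succ]
      exact (exteriorPower.map_comp (n := n) F (F ^ N)).symm
  rw [h, coe_map]

theorem mem_divSpan {I : Type} {q b : ℕ} {f : I → ℤ[X]} (hf : TateForSmall q b f)
    {V : Type} [AddCommGroup V] [Module ℂ V] [FiniteDimensional ℂ V] (F : V →ₗ[ℂ] V)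
    (hF : Submodule.span ℂ {v : V | ∃ i, ∃ z : ℂ, aeval z (f i) = 0 ∧ F v = z • v} = ⊤)
    (n N : ℕ) (hN : 0 < N) {z : ExteriorAlgebra ℂ V} (hz : z ∈ ⋀[ℂ]^(2 * n) V)
    (h : ExteriorAlgebra.map (F ^ N) z = ((q : ℂ) ^ n) ^ N • z) : z ∈ divSpan F q n := by
  have hsmall : SmallDegree b (1 : ℂ →ₗ[ℂ] ℂ) := by
    intro ρ hρ
    refine ⟨1, one_pos, ?_⟩
    obtain ⟨v, hv, hv0⟩ := hρ.exists_hasEigenvector
    have h1 : (1 : ℂ →ₗ[ℂ] ℂ) v = ρ • v := Module.End.mem_eigenspace_iff.1 hv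
    rw [Module.End.one_apply, smul_eq_mul] at h1
    have h2 : ρ = 1 := by
      have h3 : (ρ - 1) * v = 0 := by linear_combination -h1
      exact sub_eq_zero.1 ((mul_eq_zero.1 h3).resolve_right hv0)
    rw [h2, one_pow]
    exact one_mem _
  have h1 := hf V F hF 1 one_pos ℂ 1 hsmall 0 (2 * n) n N (by omega) hN
    ((⟨z, hz⟩ : ⋀[ℂ]^(2 * n) V) ⊗ₜ[ℂ] (1 : ℂ)) (by
      rw [pow_one, pow_one, TensorProduct.map_tmul, one_pow, Module.End.one_apply,
        TensorProduct.smul_tmul']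
      congr 1
      apply Subtype.ext
      rw [coe_pow_map]
      exact h)
  rw [pow_one, pow_one] at h1
  have h2 : incl V ℂ (2 * n) ((⟨z, hz⟩ : ⋀[ℂ]^(2 * n) V) ⊗ₜ[ℂ] (1 : ℂ)) = z ⊗ₜ[ℂ] (1 : ℂ) := by
    unfold incl
    rw [TensorProduct.map_tmul]
    rfl
  rw [h2] at h1
  have h3 : tateProducts F (1 : ℂ →ₗ[ℂ] ℂ) (q : ℂ) (2 * n) 0 ≤
      (divSpan F q n).comap (TensorProduct.rid ℂ (ExteriorAlgebra ℂ V)).toLinearMap := by
    refine Submodule.span_le.2 ?_
    rintro t ⟨k, c, D, u, hk, -, hD, -, rfl⟩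
    have hkn : k = n := by omega
    subst hkn
    rw [SetLike.mem_coe, Submodule.mem_comap, LinearEquiv.coe_coe, TensorProduct.rid_tmul]
    exact Submodule.smul_mem _ _ (Submodule.subset_span ⟨D, hD, rfl⟩)
  have h4 := h3 h1
  rw [Submodule.mem_comap, LinearEquiv.coe_coe, TensorProduct.rid_tmul, one_smul] at h4
  exact h4

section

variable {V : Type} [AddCommGroup V] [Module ℂ V] {F : V →ₗ[ℂ] V} {Q : ℂ} {d : ℕ}
  (C : CycleClasses F Q d)

theorem mul_mem_lef {n : ℕ} {x t : ExteriorAlgebra ℂ V} (hx : x ∈ C.Z 1)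
    (ht : t ∈ C.lefschetz n) : x * t ∈ C.lefschetz (n + 1) := by
  induction ht using AddSubgroup.closure_induction with
  | mem t ht =>
    obtain ⟨r, D, hD, rfl⟩ := ht
    refine AddSubgroup.subset_closure ⟨r, Fin.cons x D, ?_, ?_⟩
    · intro l
      refine Fin.cases ?_ (fun l => ?_) l
      · rw [Fin.cons_zero]
        exact hx
      · rw [Fin.cons_succ]
        exact hD l
    · rw [List.ofFn_succ, List.prod_cons, Fin.cons_zero, mul_smul_comm]
      simp only [Fin.cons_succ]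
  | zero => rw [mul_zero]; exact zero_mem _
  | add x y _ _ hx hy => rw [mul_add]; exact add_mem hx hy
  | neg x _ hx => rw [mul_neg]; exact neg_mem hx

theorem mul_mem_span {n : ℕ} {x t : ExteriorAlgebra ℂ V}
    (hx : x ∈ Submodule.span ℂ (C.Z 1 : Set (ExteriorAlgebra ℂ V)))
    (ht : t ∈ Submodule.span ℂ (C.lefschetz n : Set (ExteriorAlgebra ℂ V))) :
    x * t ∈ Submodule.span ℂ (C.lefschetz (n + 1) : Set (ExteriorAlgebra ℂ V)) := by
  induction hx using Submodule.span_induction with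
  | mem x hx =>
    induction ht using Submodule.span_induction with
    | mem t ht => exact Submodule.subset_span (mul_mem_lef C hx ht)
    | zero => rw [mul_zero]; exact zero_mem _
    | add y z _ _ hy hz => rw [mul_add]; exact add_mem hy hz
    | smul c y _ hy => rw [mul_smul_comm]; exact Submodule.smul_mem _ _ hy
  | zero => rw [zero_mul]; exact zero_mem _
  | add y z _ _ hy hz => rw [add_mul]; exact add_mem hy hz
  | smul c y _ hy => rw [smul_mul_assoc]; exact Submodule.smul_mem _ _ hy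

theorem divSpan_le (n : ℕ) :
    divSpan F Q n ≤ Submodule.span ℂ (C.lefschetz n : Set (ExteriorAlgebra ℂ V)) := by
  refine Submodule.span_le.2 ?_
  rintro t ⟨D, hD, rfl⟩
  induction n with
  | zero =>
    refine Submodule.subset_span (AddSubgroup.subset_closure ⟨1, D, fun l => l.elim0, ?_⟩)
    rw [Rat.cast_one, one_smul]
  | succ n ih =>
    rw [List.ofFn_succ, List.prod_cons]
    exact mul_mem_span C (C.tate _ (hD 0)) (ih (fun l => D l.succ) fun l => hD _)

end

theorem hodge_of_tate {I : Type} {q b : ℕ} {f : I → ℤ[X]} (hf : TateForSmall q b f) :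
    NumericalHodgeStandard q f := by
  intro V _ _ _ F hF d C
  have hne : C.NoExotic := noExotic C fun n z hz => by
    obtain ⟨N, hN, h1⟩ := C.frobenius n z hz
    exact divSpan_le C n (mem_divSpan hf F hF n N hN (C.mem_degree n z hz) h1)
  exact ⟨hne, fun L hL hpos => hodgeStandard C hne hL hpos⟩

theorem hs_main {μ ε : ℝ} (hμ : 0 < μ) (hμ1 : μ ≤ 1 / 2) (hε : 0 < ε) (hε1 : ε < μ / 4) :
    ∃ g₀ : ℕ, ∀ g : ℕ, g₀ ≤ g → ∀ p a : ℕ, p.Prime → 0 < a → ∀ lam : ℕ → ℝ, Slopes lam →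
      ∑ i ∈ Finset.range g, lam i ≤ (1 / 2 - μ) * g →
      ∀ E : Finset ℕ, (∀ j ∈ E, 0 < j ∧ j ≤ g ∧
        ∃ n : ℕ, (a : ℝ) * ∑ i ∈ Finset.range j, lam i = n) →
      ((newtonAbove p a lam g).Finite ∧
        (64 ≤ ((p ^ a : ℕ) : ℝ) ^ (μ / 2) → 0 < (newtonThrough p a lam g E).ncard)) ∧
      ∀ (S : Set ℤ[X]) (D : ℝ), S ⊆ newtonAbove p a lam g → 1 ≤ D →
        ((newtonThrough p a lam g E).ncard : ℝ) ≤ D * S.ncard → ∀ m : ℕ,
        ({f : Fin m → ℤ[X] | (∀ i, f i ∈ S) ∧ ¬ NumericalHodgeStandard (p ^ a) f}.ncard : ℝ) ≤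
          (m : ℝ) ^ 2 * D * 2 ^ E.card * 8 ^ g *
            ((p ^ a : ℕ) : ℝ) ^ (-((μ / 4 - ε) * g)) * (S.ncard : ℝ) ^ m := by
  have h := main_pred (κ := 1 / 2) le_rfl (by norm_num) hμ hμ1 hε (by linarith)
    (fun q _ _ f => NumericalHodgeStandard q f)
    fun _ _ _ _ _ hq _ hf => hodge_of_tate (holds_of_fam hq hf).1
  have h6 : (μ * (1 - 1 / 2 : ℝ) / 2 - ε) = μ / 4 - ε := by ring
  rw [h6] at h
  exact h

end Pool.Agent.J4H9.HS
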