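import Mathlib
import Pool.Agent.W484.HS.Fin

/-!
# The numerical Hodge standard conjecture for products of abelian varieties with varieties whose
Frobenius eigenvalues have small degree: definitions
-/

set_option autoImplicit false

open CategoryTheory AlgebraicGeometry

universe u v

namespace Pool.Agent.J4H9.HTDefs

open Polynomial Pool.Agent.H914 Pool.Agent.H914.VarClass Pool.Agent.H914.VarClass.Obj
  Pool.Agent.H914.WeilCohomology Pool.Agent.H281R3.HT Pool.Agent.W552 Pool.Agent.W484.HS

/-- The subfield of the complex numbers generated by all algebraic integers of degree at most `b`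
(that is, by all algebraic numbers of degree at most `b`). -/
noncomputable def lowField (b : ℕ) : Subfield ℂ :=
  Subfield.closure {z : ℂ | ∃ χ : ℤ[X], χ.Monic ∧ χ.natDegree ≤ b ∧ aeval z χ = 0}

/-- The eigenvalues of `f` are roots of a nonzero polynomial with integral coefficients all of whose
roots in `ℂ` have powers in the field generated by all algebraic numbers of degree at most `b`. -/
def SmallDegreeIn {K : Type*} [Field K] {R : Type*} [Ring R] [Algebra K R] (f : R →ₐ[K] R)
    (b : ℕ) : Prop :=
  ∃ χ : ℤ[X], χ ≠ 0 ∧ (∀ (ρ : K) (c : R), c ≠ 0 → f c = ρ • c → aeval ρ χ = 0) ∧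
    ∀ z : ℂ, aeval z χ = 0 → ∃ t : ℕ, 0 < t ∧ z ^ t ∈ lowField b

/-- The numerical Hodge standard conjecture for products with varieties of small degree: for every
algebraically closed field, every class of smooth projective varieties over it closed under
products, every Weil cohomology with algebraically closed coefficient field, every `A` with a
Frobenius endomorphism `f` of type `F` relative to the field with `q ^ s` elements, and every `Y`
with a Frobenius endomorphism `f'` relative to the same field whose eigenvalues have powers in the
field generated by the numbers of degree at most `b`, both polarized such that the hard Lefschetz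
theorem and the Lefschetz standard conjecture hold, and such that homological and numerical
equivalence coincide on `Y`: they coincide on `A` and on `A × Y`, and the numerical Hodge standard
conjecture holds for `A × Y` if and only if it holds for `A` and for `Y`. -/
def HodgeForSmallDegree (q b : ℕ) {I : Type} (F : I → ℤ[X]) : Prop :=
  ∀ (k : Type u) [Field k] [IsAlgClosed k] (𝒱 : VarClass k) (ops : CycleOps 𝒱)
    (W : WeilCohomology.{u, v} ops) [IsAlgClosed W.K] (s : ℕ), 0 < s →
    ∀ (A Y : Polarized 𝒱) (f : A.X ⟶ A.X) (f' : Y.X ⟶ Y.X),
      IsAbelianFrobenius W q s F A f → IsLefschetz W A → IsLefschetz W Y → HomEqNum W Y.X →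
      SmallDegreeIn (W.map f') b → FrobeniusOnCycles W (A.X.prod Y.X) (pairMap f f') (q ^ s) →
      HomEqNum W A.X ∧ HomEqNum W (A.X.prod Y.X) ∧
      (NumHodge ops (A.prod ops Y).X (A.prod ops Y).D ↔
        NumHodge ops A.X A.D ∧ NumHodge ops Y.X Y.D)

end Pool.Agent.J4H9.HTDefs
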