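import Mathlib
import Pool.Agent.J4H9.NAll
import Pool.Agent.W484.HS.Abs

/-!
# Relations between the roots of almost all Weil polynomials and numbers of small degree
-/

set_option autoImplicit false

namespace Pool.Agent.J4H9.HTPair

open Polynomial Pool.Agent.W521.Frob Pool.Agent.J4H9.Alg Pool.Agent.J4H9.NAll
  Pool.Agent.W484.AA Pool.Agent.W484.HS

theorem exactPair_small {I : Type} [Finite I] {q g b : ℕ} (hq : 0 < q) {f : I → ℤ[X]}
    (hf : FamOK q g b f) (s : ℕ) (hs : 0 < s) (ρ : ℂ)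
    (hρ : ∃ t : ℕ, 0 < t ∧ ρ ^ t ∈ smallField b) :
    ExactPair (fun z : {z : ℂ // ∃ i, aeval z (f i) = 0} => (z : ℂ) ^ s) ((q : ℂ) ^ s) ρ := by
  classical
  obtain ⟨r, h, hr, hr2, hgr, hbr, h8, hgood, hnorm, rfl⟩ := hf
  obtain ⟨t, ht, hρ⟩ := hρ
  let X := {z : ℂ // ∃ i, aeval z (weil q (h i)) = 0}
  intro n c N hN hn (ys : List X) hlen hrel hpw
  have hqC : (q : ℂ) ≠ 0 := by exact_mod_cast hq.ne'
  have hQ : (q : ℂ) ^ s ≠ 0 := pow_ne_zero _ hqC
  have h7 : ∀ ys : List X, (ys.map (fun y : X => (y : ℂ))).prod ^ s =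
        (ys.map (fun z : X => (z : ℂ) ^ s)).prod := by
    intro ys
    induction ys with
    | nil => simp
    | cons y ys ih =>
      rw [List.map_cons, List.prod_cons, mul_pow, ih, List.map_cons, List.prod_cons]
  -- make the exponent a natural number
  set ρ' : ℂ := ρ ^ t * (((q : ℂ) ^ s) ^ (c.natAbs)) ^ t with hρ'
  have hρ'm : ρ' ∈ smallField b :=
    mul_mem hρ (pow_mem (pow_mem (pow_mem (natCast_mem _ q) s) _) t)
  have hrel' : (((ys.map (fun y : X => (y : ℂ))).prod ^ (s * t)) * ρ') ^ N =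
      (((q : ℂ) ^ (s * t)) ^ (c + c.natAbs).toNat) ^ N := by
    have h1 := congrArg (fun z : ℂ => z ^ t) hrel
    simp only at h1
    have h2 : (((ys.map (fun y : X => (y : ℂ))).prod ^ (s * t)) * ρ') ^ N =
        (((ys.map (fun z : X => (z : ℂ) ^ s)).prod * ρ) ^ N)
          ^ t * ((((q : ℂ) ^ s) ^ (c.natAbs)) ^ t) ^ N := by
      rw [pow_mul, h7, hρ']
      ring
    rw [h2, h1]
    have h3 : ((((q : ℂ) ^ s) ^ c) ^ N) ^ t * ((((q : ℂ) ^ s) ^ (c.natAbs)) ^ t) ^ N =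
        ((((q : ℂ) ^ s) ^ c * ((q : ℂ) ^ s) ^ (c.natAbs)) ^ t) ^ N := by
      ring
    rw [h3, ← zpow_natCast ((q : ℂ) ^ s) c.natAbs, ← zpow_add₀ hQ]
    have h4 : ((c + (c.natAbs : ℤ)).toNat : ℤ) = c + c.natAbs := by
      apply Int.toNat_of_nonneg
      omega
    rw [← h4, zpow_natCast, Int.toNat_natCast]
    congr 1
    rw [← pow_mul, ← pow_mul, ← pow_mul]
    congr 1
    ring
  have key := counts_C hq.ne' (fun i => (h8 i).1) (fun i => (h8 i).2.le) hr hr2 hgr hgood hnorm hbr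
    ρ' hρ'm (ys.map (fun y : X => (y : ℂ))) (by
      intro z hz
      obtain ⟨y, -, rfl⟩ := List.mem_map.1 hz
      exact y.2) (s * t) _ N (Nat.mul_pos hs ht) hN hrel'
  cases ys with
  | nil =>
    rw [List.length_nil] at hlen
    omega
  | cons y ys =>
    have h1 := key (y : ℂ) y.2
    have h2 : 0 < ((y :: ys).map (fun y : X => (y : ℂ))).count (y : ℂ) := by
      rw [List.count_pos_iff, List.map_cons]
      exact List.mem_cons_self
    rw [h1, List.count_pos_iff, List.map_cons, List.mem_cons] at h2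
    have hne := ne_conj_C hq.ne' (fun i => (h8 i).1) (fun i => (h8 i).2.le) hr hr2 hgr hgood (y : ℂ) y.2
    rcases h2 with h3 | h3
    · exact hne h3.symm
    · obtain ⟨y', hy', h4⟩ := List.mem_map.1 h3
      refine (List.pairwise_cons.1 hpw).1 y' hy' ?_
      have hy0 : (y : ℂ) ≠ 0 := by
        obtain ⟨i, hi⟩ := y.2
        exact root_ne_zero hq.ne' (h8 i).1 hi
      have h4' : (y' : ℂ) = (q : ℂ) / y := h4
      change (y : ℂ) ^ s * (y' : ℂ) ^ s = _
      rw [← mul_pow, h4', mul_div_cancel₀ _ hy0]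

/-- The relations for a field of characteristic zero. -/
theorem exactPairK_small {I : Type} [Finite I] {q g b : ℕ} (hq : 0 < q) {f : I → ℤ[X]}
    (hf : FamOK q g b f) (s : ℕ) (hs : 0 < s) (χ : ℤ[X]) (hχ : χ ≠ 0)
    (hsm : ∀ z : ℂ, aeval z χ = 0 → ∃ t : ℕ, 0 < t ∧ z ^ t ∈ smallField b)
    {K : Type*} [Field K] [CharZero K] (ρ : K) (hρ : aeval ρ χ = 0) :
    ExactPairK (fun z : {z : K // ∃ i, aeval z (f i) = 0} => (z : K) ^ s)
      ((q : K) ^ s) ρ := by
  classical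
  have hmon : ∀ i, (f i).Monic := by
    obtain ⟨r, h, hr, hr2, hgr, hbr, h8, hgood, hnorm, rfl⟩ := hf
    exact fun i => weil_monic q (h8 i).1
  have hmem : ∀ z : K, (∃ p : ℤ[X], p ≠ 0 ∧ aeval z p = 0) → z ∈ algebraicClosure ℚ K := by
    rintro z ⟨p, hp, hz⟩
    rw [mem_algebraicClosure_iff]
    refine ⟨p.map (algebraMap ℤ ℚ), (Polynomial.map_ne_zero_iff
      (RingHom.injective_int _)).2 hp, ?_⟩
    rw [aeval_map_algebraMap]
    exact hz
  have halg : Algebra.IsAlgebraic ℚ (algebraicClosure ℚ K) := algebraicClosure.isAlgebraic ℚ K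
  let j : algebraicClosure ℚ K →ₐ[ℚ] ℂ := IsAlgClosed.lift
  have hroot : ∀ (p : ℤ[X]) (z : algebraicClosure ℚ K), aeval (z : K) p = 0 →
      aeval (j z) p = 0 := by
    intro p z hz
    have h2 := Polynomial.hom_eval₂ p (algebraMap ℤ _) (j : algebraicClosure ℚ K →+* ℂ) z
    rw [RingHom.ext_int ((j : algebraicClosure ℚ K →+* ℂ).comp (algebraMap ℤ _))
      (algebraMap ℤ ℂ)] at h2
    have h3 : eval₂ (algebraMap ℤ (algebraicClosure ℚ K)) z p = 0 := by
      apply (algebraMap (algebraicClosure ℚ K) K).injective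
      rw [map_zero, Polynomial.hom_eval₂, RingHom.ext_int ((algebraMap (algebraicClosure ℚ K)
        K).comp (algebraMap ℤ _)) (algebraMap ℤ K)]
      exact hz
    rw [h3, map_zero] at h2
    exact h2.symm
  have hρm := hmem ρ ⟨χ, hχ, hρ⟩
  have h0 := exactPair_small hq hf s hs (j ⟨ρ, hρm⟩) (hsm _ (hroot χ ⟨ρ, hρm⟩ hρ))
  have hzm : ∀ z : {z : K // ∃ i, aeval z (f i) = 0},
      (z : K) ∈ algebraicClosure ℚ K := by
    rintro ⟨z, i, hi⟩
    exact hmem z ⟨f i, (hmon i).ne_zero, hi⟩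
  have hz : ∀ z : {z : K // ∃ i, aeval z (f i) = 0},
      ∃ i, aeval (j ⟨z, hzm z⟩) (f i) = 0 := by
    rintro ⟨z, i, hi⟩
    exact ⟨i, hroot (f i) ⟨z, hzm ⟨z, i, hi⟩⟩ hi⟩
  intro n c N hN hn ys hlen hrel hpw
  let φ : {z : K // ∃ i, aeval z (f i) = 0} →
      {z : ℂ // ∃ i, aeval z (f i) = 0} := fun z => ⟨j ⟨z, hzm z⟩, hz z⟩
  have hrel0 : ((ys.map (fun z : {z : K // ∃ i, aeval z (f i) = 0} =>
      (⟨z, hzm z⟩ : algebraicClosure ℚ K) ^ s)).prod * ⟨ρ, hρm⟩) ^ N =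
        (((q : algebraicClosure ℚ K) ^ s) ^ c) ^ N := by
    apply (algebraMap (algebraicClosure ℚ K) K).injective
    rw [map_pow, map_mul, _root_.map_list_prod, List.map_map, map_pow, map_zpow₀, map_pow,
      map_natCast]
    exact hrel
  refine h0 n c N hN hn (ys.map φ) (by rw [List.length_map, hlen]) ?_ ?_
  · have h4 := congrArg j hrel0
    rw [map_pow, map_mul, _root_.map_list_prod j, List.map_map, map_pow, map_zpow₀, map_pow,
      map_natCast] at h4
    rw [List.map_map, ← h4]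
    congr 4
    funext z
    change (j ⟨z, hzm z⟩) ^ s = j (⟨z, hzm z⟩ ^ s)
    rw [map_pow]
  · rw [List.pairwise_map]
    refine hpw.imp ?_
    intro a b hab h5
    apply hab
    change (j ⟨a, hzm a⟩) ^ s * (j ⟨b, hzm b⟩) ^ s = (q : ℂ) ^ s at h5
    have h6 : (⟨a, hzm a⟩ : algebraicClosure ℚ K) ^ s * ⟨b, hzm b⟩ ^ s =
        (q : algebraicClosure ℚ K) ^ s := by
      apply (j : algebraicClosure ℚ K →+* ℂ).injective
      rw [map_mul, map_pow, map_pow, map_pow, map_natCast]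
      exact h5
    have h7 := congrArg (algebraMap (algebraicClosure ℚ K) K) h6
    rw [map_mul, map_pow, map_pow, map_pow, map_natCast] at h7
    exact h7

end Pool.Agent.J4H9.HTPair
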