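import Mathlib
import Pool.Agent.J4H9.HTPair
import Pool.Agent.J4H9.NStm
import Pool.Agent.W484.HS.Fin
import Pool.Agent.J4H9.HTDefs

/-!
# The numerical Hodge standard conjecture for products of almost all abelian varieties with varieties
whose Frobenius eigenvalues have small degree
-/

set_option autoImplicit false

open CategoryTheory AlgebraicGeometry

universe u v

namespace Pool.Agent.J4H9.HTMain

open Module Polynomial Pool.Agent.H914 Pool.Agent.H914.VarClass Pool.Agent.H914.VarClass.Obj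
  Pool.Agent.H914.WeilCohomology Pool.Agent.H281R3.HT Pool.Agent.W552 Pool.Agent.W484.AA
  Pool.Agent.W484.HS Pool.Agent.W521.Frob Pool.Agent.J4H9.Alg Pool.Agent.J4H9.NAll
  Pool.Agent.J4H9.HTPair Pool.Agent.J4H9.HTDefs

section good

variable {k : Type u} [Field k] {𝒱 : VarClass k} {ops : CycleOps 𝒱} {W : WeilCohomology.{u, v} ops}
  {Y : 𝒱.Obj}

theorem root_of_eigenZ {f : Y ⟶ Y} {χ : ℤ[X]}
    (hχ : ∀ (ρ : W.K) (c : W.H Y), c ≠ 0 → W.map f c = ρ • c → aeval ρ χ = 0) {ρ : W.K}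
    (hρ : Module.End.HasEigenvalue (W.map f).toLinearMap ρ) : aeval ρ χ = 0 := by
  obtain ⟨v, hv⟩ := hρ.exists_hasEigenvector
  exact hχ ρ v hv.2 hv.apply_eq_smul

theorem one_small (b : ℕ) (z : ℂ) (hz : aeval z (X - 1 : ℤ[X]) = 0) :
    ∃ t : ℕ, 0 < t ∧ z ^ t ∈ smallField b := by
  have h1 : z - 1 = 0 := by simpa using hz
  refine ⟨1, one_pos, ?_⟩
  rw [sub_eq_zero.1 h1, one_pow]
  exact one_mem _

variable {I : Type} [Finite I] {q g b : ℕ} (hq : 0 < q) {F : I → ℤ[X]} (hF : FamOK q g b F)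

include hq hF

/-- The algebraic classes on the product. -/
theorem alg_mem_mix [IsAlgClosed W.K] {s : ℕ} (hs : 0 < s) {A : Polarized 𝒱}
    {f : A.X ⟶ A.X} (hA : IsAbelianFrobenius W q s F A f) {f' : Y ⟶ Y}
    (hY : SmallDegreeIn (W.map f') b)
    (hfr : FrobeniusOnCycles W (A.X.prod Y) (pairMap f f') (q ^ s)) (i : ℕ) (z)
    (hz : (A.X.prod Y).IsCyc i z) : W.cl (A.X.prod Y) z ∈ mixSpan W A.X Y := by
  obtain ⟨χ, hχ, hχ0, hsm⟩ := hY
  obtain ⟨m, hm, hm'⟩ := hfr i z hz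
  have hpull : ∀ (m : ℕ) (z : (A.X.prod Y).Cycles), W.cl _ ((ops.pull (pairMap f f'))^[m] z) =
      (W.map (pairMap f f'))^[m] (W.cl _ z) := by
    intro m
    induction m with
    | zero => intro z; rfl
    | succ m ih =>
      intro z
      rw [Function.iterate_succ_apply', Function.iterate_succ_apply', W.cl_pull, ih]
  rw [hpull] at hm'
  have hQ : (q : W.K) ^ s ≠ 0 := pow_ne_zero _ (by exact_mod_cast hq.ne')
  refine mem_mixSpan (Z := {z : W.K // ∃ i, aeval z (F i) = 0}) f f'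
    (fun z => (z : W.K) ^ s) ((q : W.K) ^ s) hQ hA.generated (eigen_span hA) hA.tate ?_ m i hm _ ?_
  · intro ρ hρ
    exact exactPairK_small hq hF s hs χ hχ hsm ρ (root_of_eigenZ hχ0 hρ)
  · rw [hm']
    congr 1
    push_cast
    rw [← pow_mul, mul_comm m i]
    ring

/-- The conjecture `D` for the abelian variety. -/
theorem homEqNum_abelian {s : ℕ} (hs : 0 < s) {A : Polarized 𝒱}
    {f : A.X ⟶ A.X} (hA : IsAbelianFrobenius W q s F A f) : HomEqNum W A.X := by
  refine homEqNum_gen (Z := {z : W.K // ∃ i, aeval z (F i) = 0}) f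
    (fun z => (z : W.K) ^ s) (q ^ s) (pow_ne_zero _ hq.ne') hA.divisor hA.degree hA.cycles
    hA.generated (eigen_span hA) ?_ ?_
  · intro c hc hc'
    refine hA.tate c hc ?_
    rw [hc']
    push_cast
    rfl
  · have h1 := exactPairK_small hq hF s hs (X - 1 : ℤ[X]) (Polynomial.X_sub_C_ne_zero 1)
      (one_small b) (1 : W.K) (by simp)
    push_cast
    exact h1

theorem hodge_of_fam : HodgeForSmallDegree.{u, v} q b F := by
  intro k _ _ 𝒱 ops W _ s hs A Y f f' hA hLA hLY hYD hY hfr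
  have hAD := homEqNum_abelian hq hF hs hA
  have hmix := alg_mem_mix hq hF hs hA hY hfr
  have hprod := homEqNum_prod hAD hYD hmix
  obtain ⟨Φ, hΦ1, ls⟩ := exists_fr hLA.divisor hLA.hardLefschetz hLA.lefschetzB
  obtain ⟨G, hG1, _⟩ := exists_fr hLY.divisor hLY.hardLefschetz hLY.lefschetzB
  have hD : (A.X.prod Y.X).IsCyc 1 (A.prod ops Y).D :=
    SmVar.IsCyc.add (ops.pull_mem _ hLA.divisor) (ops.pull_mem _ hLY.divisor)
  refine ⟨hAD, hprod, fun h => ?_, fun h => ?_⟩
  · obtain ⟨h1, h2⟩ := hodge_left_of_prod hLA.divisor hLY.divisor hLA.degree hLY.degree hΦ1 hG1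
      (hodge_of_num hD hprod h)
    exact ⟨num_of_hodge hLA.divisor hAD h1, num_of_hodge hLY.divisor hYD h2⟩
  · exact num_of_hodge hD hprod (hodge_prod hΦ1 ls hG1 (hodge_of_num hLA.divisor hAD h.1)
      (hodge_of_num hLY.divisor hYD h.2) hmix).1

end good

end Pool.Agent.J4H9.HTMain
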