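import Mathlib
import Pool.Agent.J4H9.BSDefs
import Pool.Agent.Q193.LT.Pair

/-!
# Cycles and étale Borel-Moore homology of singular varieties over finite fields: definitions
-/

set_option autoImplicit false

open CategoryTheory CategoryTheory.Limits AlgebraicGeometry Polynomial Pool.Agent.Y116.UV
  Pool.Agent.Q193.LT
open Pool.Agent.J4H9.BS (IsAbelianVariety IsWeilPolynomial NoExotic)

universe w

namespace Pool.Agent.J4H9.SV

/-- `π` is an affine bundle of rank `n`: over small open sets it is the affine space. -/
def IsAffineBundle {k : Type} [Field k] (n : ℕ) {P X : Sch k} (π : P ⟶ X) : Prop :=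
  ∀ x : X.left, ∃ U : X.left.Opens, x ∈ U ∧
    ∃ e : (π.left ⁻¹ᵁ U).toScheme ≅ 𝔸(Fin n; U.toScheme),
      e.hom ≫ (𝔸(Fin n; U.toScheme) ↘ U.toScheme) = π.left ∣_ U

/-- The schemes over `k` that are built from those with the property `P` by isomorphisms,
decompositions into a closed subscheme and its open complement (two of the three schemes give the
third one), and affine bundles (the base gives the total space, and conversely). All schemes are
separated and of finite type over `k`; they may be singular, and not proper. -/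
inductive Built {k : Type} [Field k] (P : Sch k → Prop) : Sch k → Prop
  | of {X : Sch k} (hX : FT True X) (h : P X) : Built P X
  | iso {X Y : Sch k} (hX : FT True X) (e : X ≅ Y) (h : Built P X) : Built P Y
  | total {Z X U : Sch k} (i : Z ⟶ X) (j : U ⟶ X) (hX : FT True X) (ht : IsTriple i j)
      (h1 : Built P Z) (h2 : Built P U) : Built P X
  | opened {Z X U : Sch k} (i : Z ⟶ X) (j : U ⟶ X) (hX : FT True X) (ht : IsTriple i j)
      (h1 : Built P Z) (h2 : Built P X) : Built P U
  | closed {Z X U : Sch k} (i : Z ⟶ X) (j : U ⟶ X) (hX : FT True X) (ht : IsTriple i j)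
      (h1 : Built P X) (h2 : Built P U) : Built P Z
  | bundle {E X : Sch k} (n : ℕ) (π : E ⟶ X) (hE : FT True E) (hX : FT True X)
      (hπ : IsAffineBundle n π) (h : Built P X) : Built P E
  | base {E X : Sch k} (n : ℕ) (π : E ⟶ X) (hE : FT True E) (hX : FT True X)
      (hπ : IsAffineBundle n π) (h : Built P E) : Built P X

/-- For the schemes `X` over the finite field `k`: the higher Chow groups
`C i j X = CH_i(X, j) ⊗ ℚ` (the Chow groups for `j = 0`), the étale Borel-Moore homology
`H i j X = H_(2 i + j)(X ⊗ k̄, E(i))`, where `E` is an `ℓ`-adic field, the action `F` of the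
Frobenius automorphism of `k̄` and the cycle maps `cl`. -/
structure CycleTheory (k : Type) [Field k] (E : Type) [Field E] where
  C : ℤ → ℤ → Sch k → ModuleCat.{w} ℚ
  H : ℤ → ℤ → Sch k → ModuleCat.{w} E
  F : ∀ i j X, H i j X →ₗ[E] H i j X
  cl : ∀ i j X, C i j X →+ H i j X

variable {k : Type} [Field k] {E : Type} [Field E]

/-- The map `b` is compatible with the Frobenius. -/
def CommF (T : CycleTheory.{w} k E) {i j : ℤ} {X : Sch k} {i' j' : ℤ} {Y : Sch k}
    (b : T.H i j X ⟶ T.H i' j' Y) : Prop :=
  ∀ x, b.hom (T.F i j X x) = T.F i' j' Y (b.hom x)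

/-- The maps `a` and `b` are compatible with the cycle maps. -/
def CommCl (T : CycleTheory.{w} k E) {i j : ℤ} {X : Sch k} {i' j' : ℤ} {Y : Sch k}
    (a : T.C i j X ⟶ T.C i' j' Y) (b : T.H i j X ⟶ T.H i' j' Y) : Prop :=
  ∀ c, T.cl i' j' Y (a.hom c) = b.hom (T.cl i j X c)

/-- The maps `a` and `b` between the groups for `X` in the degrees `i`, `j` and those for `Y` in the
degrees `i'`, `j'` are compatible with the Frobenius and the cycle maps. -/
structure Compat (T : CycleTheory.{w} k E) {i j : ℤ} {X : Sch k} {i' j' : ℤ} {Y : Sch k}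
    (a : T.C i j X ⟶ T.C i' j' Y) (b : T.H i j X ⟶ T.H i' j' Y) : Prop where
  frob : CommF T b
  cl : CommCl T a b

/-- The groups for `X` in the degrees `i`, `j` are isomorphic to those for `Y` in the degrees `i'`,
`j'`, compatibly with the Frobenius and the cycle map. -/
def Same (T : CycleTheory.{w} k E) (i j : ℤ) (X : Sch k) (i' j' : ℤ) (Y : Sch k) : Prop :=
  ∃ (a : T.C i j X ≅ T.C i' j' Y) (b : T.H i j X ≅ T.H i' j' Y), Compat T a.hom b.hom

/-- The localization sequences `⋯ → CH_i(Z, j) → CH_i(X, j) → CH_i(U, j) → CH_i(Z, j - 1) → ⋯` and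
the same for the homology, compatible with the Frobenius and the cycle map. -/
def Localization (T : CycleTheory.{w} k E) (i : ℤ) (Z X U : Sch k) : Prop :=
  ∃ (a : LesMaps (T.C i) (Equiv.subRight 1) Z X U) (b : LesMaps (T.H i) (Equiv.subRight 1) Z X U),
    a.IsExact ∧ b.IsExact ∧ ∀ j, Compat T (a.f j) (b.f j) ∧ Compat T (a.g j) (b.g j) ∧
      Compat T (a.h j) (b.h j)

/-- The formal properties of the higher Chow groups and of étale homology (Bloch, Levine). -/
structure IsCycleTheory (T : CycleTheory.{w} k E) : Prop where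
  fin : ∀ X : Sch k, FT True X → ∀ i j, Module.Finite E (T.H i j X)
  fixed : ∀ (i j : ℤ) (X : Sch k) c, T.F i j X (T.cl i j X c) = T.cl i j X c
  iso : ∀ {X Y : Sch k}, FT True X → Nonempty (X ≅ Y) → ∀ i j, Same T i j X i j Y
  les : ∀ {Z X U : Sch k} (i : Z ⟶ X) (j : U ⟶ X), FT True X → IsTriple i j →
    ∀ m, Localization T m Z X U
  bundle : ∀ {P X : Sch k} (n : ℕ) (π : P ⟶ X), FT True P → FT True X → IsAffineBundle n π →
    ∀ i j, Same T (i + n) j P i j X

/-- The cycle map induces isomorphisms of `CH_i(X, j) ⊗ E` with the part of the homology on which the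
Frobenius has the generalized eigenvalue one, and `CH_i(X, j) ⊗ ℚ` is finite-dimensional. -/
structure StrongTate (T : CycleTheory.{w} k E) (X : Sch k) : Prop where
  fin : ∀ i j, Module.Finite ℚ (T.C i j X)
  indep : ∀ (i j : ℤ) (n : ℕ) (c : Fin n → T.C i j X), LinearIndependent ℚ c →
    LinearIndependent E fun l => T.cl i j X (c l)
  span : ∀ i j, Module.End.maxGenEigenspace (T.F i j X) 1 =
    Submodule.span E (Set.range (T.cl i j X))

/-- The `L`-function `det (1 - Φ q ^ (-s) | H_c^(2 i)(X ⊗ k̄, E))⁻¹` of `X` over the field with `q`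
elements, where `Φ` is the geometric Frobenius. Étale homology is dual to cohomology with compact
supports, so the eigenvalues of `Φ` are `z q ^ i`, where `z` runs through the roots of the
characteristic polynomial `P` of the Frobenius automorphism on `H_(2 i)(X ⊗ k̄, E(i))`. -/
noncomputable def lFunction (q : ℕ) (i : ℤ) (P : ℂ[X]) (s : ℂ) : ℂ :=
  (P.roots.map fun z => (1 - z * (q : ℂ) ^ i * (q : ℂ) ^ (-s))⁻¹).prod

/-- `b` is a rational basis of the space `B_i(X) ⊗ ℚ` of the classes of the cycles, and linearly
independent over `E`. -/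
def IsRationalBasis (T : CycleTheory.{w} k E) (i : ℤ) (X : Sch k) {n : ℕ} (b : Fin n → T.H i 0 X) :
    Prop :=
  (∀ x, (∃ c, T.cl i 0 X c = x) ↔ ∃ r : Fin n → ℚ, x = ∑ l, (r l : E) • b l) ∧
    LinearIndependent E b

/-- The space of the classes that are fixed by the Frobenius, i.e., by the Galois group. -/
def fixed (T : CycleTheory.{w} k E) (i : ℤ) (X : Sch k) : Submodule E (T.H i 0 X) :=
  LinearMap.ker (T.F i 0 X - 1)

/-- The `L`-function of `X` has a pole of order `n` at `s = i`, for all embeddings of `E` in `ℂ`. -/
def PoleOrder (T : CycleTheory.{w} k E) (i : ℤ) (X : Sch k) (n : ℕ) : Prop :=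
  ∃ _ : Module.Finite E (T.H i 0 X), ∀ σ : E →+* ℂ, meromorphicOrderAt
    (lFunction (Nat.card k) i ((T.F i 0 X).charpoly.map σ)) (i : ℂ) = ((-(n : ℤ) : ℤ) : WithTop ℤ)

/-- The conjectures of Jannsen for `X` and the dimension `i`, with rational coefficients: `b` is a
rational basis of the space `B_i(X) ⊗ ℚ` of the classes of the cycles; it is linearly independent over
`E` and spans the space of the homology classes fixed by the Frobenius ((a) and (b)), and its number
`n` of elements, the rank of `B_i(X)`, is the order of the pole of the `L`-function at `s = i` (Q2), and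
the multiplicity of the eigenvalue one of the Frobenius. -/
def Jannsen (T : CycleTheory.{w} k E) (i : ℤ) (X : Sch k) : Prop :=
  ∃ (n : ℕ) (b : Fin n → T.H i 0 X), IsRationalBasis T i X b ∧
    Submodule.span E (Set.range b) = fixed T i X ∧
    Module.finrank E (Module.End.maxGenEigenspace (T.F i 0 X) 1) = n ∧ PoleOrder T i X n

/-- The scheme `B` over the extension `k'` of `k`, as a scheme over `k`. -/
noncomputable def toBase (k : Type) [Field k] {k' : Type} [Field k'] [Algebra k k']
    (B : Over (Spec (CommRingCat.of k'))) : Sch k :=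
  Over.mk (B.hom ≫ Spec.map (CommRingCat.ofHom (algebraMap k k')))

/-- **The theorems of Tate (1966), Soulé (1984) and Kahn (2003)**: let `B` be an abelian variety over
a finite extension `k'` of `k` such that all Tate classes are combinations of products of Tate classes
of degree two. Then the cycle map has the property `StrongTate` (for `j = 0`: the Tate conjecture, and
rational and homological equivalence agree; for `j ≠ 0`: all groups are zero). -/
def AbelianTheorem (T : CycleTheory.{w} k E) : Prop :=
  ∀ (k' : Type) [Field k'] [Finite k'] [Algebra k k'] (B : Over (Spec (CommRingCat.of k')))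
    (h : ℤ[X]), IsAbelianVariety B → IsWeilPolynomial B h → NoExotic (Nat.card k') h →
      StrongTate T (toBase k B)

/-- `X` is an abelian variety over an extension `k'` of degree `s` of the field `k` with `q` elements,
and its characteristic polynomial of Frobenius is a product `h₁ h₂`, where the roots of `h₁` are
`s`-th powers of roots of the `f i` (so the part for `h₁` is isogenous to a product of factors of the
abelian varieties with the characteristic polynomials `f i`, with arbitrary multiplicities), and `h₂`
has the degree at most `b` and the property `NoExotic`. -/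
def IsMember {I : Type} (q b : ℕ) (f : I → ℤ[X]) (X : Sch k) : Prop :=
  ∃ (s : ℕ) (k' : Type) (_ : Field k') (_ : Finite k') (_ : Algebra k k')
    (B : Over (Spec (CommRingCat.of k'))) (h₁ h₂ : ℤ[X]), 0 < s ∧ Nat.card k' = q ^ s ∧
      IsAbelianVariety B ∧ IsWeilPolynomial B (h₁ * h₂) ∧ h₁.Monic ∧ h₂.Monic ∧
      (∀ z : ℂ, aeval z h₁ = 0 → ∃ i, ∃ x : ℂ, aeval x (f i) = 0 ∧ z = x ^ s) ∧
      h₂.natDegree ≤ b ∧ NoExotic (q ^ s) h₂ ∧ X = toBase k B

end Pool.Agent.J4H9.SV
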