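import Mathlib
import Pool.Agent.J4H9.SVDefs
import Pool.Agent.J4H9.BSOrd

/-!
# Closure properties of the strong Tate property
-/

set_option autoImplicit false

open CategoryTheory CategoryTheory.Limits AlgebraicGeometry Polynomial Pool.Agent.Y116.UV
  Pool.Agent.Q193.LT TensorProduct

universe w w'

namespace Pool.Agent.J4H9.SV

section lin

variable {E : Type} [Field E]

/-- The part on which the endomorphism has the generalized eigenvalue one. -/
noncomputable def gen {N : Type w} [AddCommGroup N] [Module E N] (F : N →ₗ[E] N) : Submodule E N :=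
  Module.End.maxGenEigenspace F 1

lemma mem_gen {N : Type w} [AddCommGroup N] [Module E N] {F : N →ₗ[E] N} {x : N} :
    x ∈ gen F ↔ ∃ n : ℕ, ((F - 1) ^ n) x = 0 := by
  unfold gen
  rw [Module.End.mem_maxGenEigenspace]
  simp only [one_smul]

lemma pow_comm {N N' : Type w} [AddCommGroup N] [Module E N] [AddCommGroup N'] [Module E N']
    {F : N →ₗ[E] N} {F' : N' →ₗ[E] N'} {f : N →ₗ[E] N'} (h : ∀ x, f (F x) = F' (f x)) (n : ℕ)
    (x : N) : f (((F - 1) ^ n) x) = ((F' - 1) ^ n) (f x) := by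
  induction n generalizing x with
  | zero => simp
  | succ n ih =>
    rw [pow_succ, pow_succ, Module.End.mul_apply, Module.End.mul_apply, ih]
    simp [h]

lemma map_gen {N N' : Type w} [AddCommGroup N] [Module E N] [AddCommGroup N'] [Module E N']
    {F : N →ₗ[E] N} {F' : N' →ₗ[E] N'} {f : N →ₗ[E] N'} (h : ∀ x, f (F x) = F' (f x)) :
    ∀ x ∈ gen F, f x ∈ gen F' := by
  intro x hx
  rw [mem_gen] at hx ⊢
  obtain ⟨n, hn⟩ := hx
  exact ⟨n, by rw [← pow_comm h, hn, map_zero]⟩

/-- The map between the generalized eigenspaces. -/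
noncomputable def genMap {N N' : Type w} [AddCommGroup N] [Module E N] [AddCommGroup N'] [Module E N']
    {F : N →ₗ[E] N} {F' : N' →ₗ[E] N'} (f : N →ₗ[E] N') (h : ∀ x, f (F x) = F' (f x)) :
    gen F →ₗ[E] gen F' :=
  f.restrict (map_gen h)

lemma coe_genMap {N N' : Type w} [AddCommGroup N] [Module E N] [AddCommGroup N'] [Module E N']
    {F : N →ₗ[E] N} {F' : N' →ₗ[E] N'} (f : N →ₗ[E] N') (h : ∀ x, f (F x) = F' (f x)) (x : gen F) :
    (genMap f h x : N') = f x := rfl

lemma isCompl_gen {N : Type w} [AddCommGroup N] [Module E N] [Module.Finite E N] (F : N →ₗ[E] N) :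
    IsCompl (gen F) (⨅ n, LinearMap.range ((F - 1) ^ n)) := by
  have h := LinearMap.isCompl_iSup_ker_pow_iInf_range_pow (F - 1)
  have h1 : gen F = ⨆ n, LinearMap.ker ((F - 1) ^ n) := by
    ext x
    rw [mem_gen, Submodule.mem_iSup_of_directed]
    · simp [LinearMap.mem_ker]
    · intro a b
      refine ⟨a + b, ?_, ?_⟩
      · intro y hy
        rw [LinearMap.mem_ker] at hy ⊢
        rw [add_comm, pow_add, Module.End.mul_apply, hy, map_zero]
      · intro y hy
        rw [LinearMap.mem_ker] at hy ⊢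
        rw [pow_add, Module.End.mul_apply, hy, map_zero]
  rw [h1]
  exact h

lemma exact_gen {N₁ N₂ N₃ : Type w} [AddCommGroup N₁] [Module E N₁] [AddCommGroup N₂] [Module E N₂]
    [AddCommGroup N₃] [Module E N₃] [Module.Finite E N₁] [Module.Finite E N₂]
    {F₁ : N₁ →ₗ[E] N₁} {F₂ : N₂ →ₗ[E] N₂} {F₃ : N₃ →ₗ[E] N₃} (f : N₁ →ₗ[E] N₂) (g : N₂ →ₗ[E] N₃)
    (hf : ∀ x, f (F₁ x) = F₂ (f x)) (hg : ∀ x, g (F₂ x) = F₃ (g x)) (h : Function.Exact f g) :
    Function.Exact (genMap f hf) (genMap g hg) := by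
  intro x
  constructor
  · intro hx
    have h1 : g x = 0 := by
      rw [← coe_genMap g hg, hx]
      rfl
    obtain ⟨y, hy⟩ := (h x).mp h1
    have h0 : y ∈ gen F₁ ⊔ ⨅ n, LinearMap.range ((F₁ - 1) ^ n) := by
      rw [(isCompl_gen F₁).sup_eq_top]
      exact Submodule.mem_top
    obtain ⟨y₀, hy₀, y₁, hy₁, hyy⟩ := Submodule.mem_sup.mp h0
    have h2 : f y₁ ∈ ⨅ n, LinearMap.range ((F₂ - 1) ^ n) := by
      rw [Submodule.mem_iInf] at hy₁ ⊢
      intro n
      obtain ⟨z, hz⟩ := hy₁ n
      exact ⟨f z, by rw [← pow_comm hf, hz]⟩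
    have h3 : f y₁ ∈ gen F₂ := by
      have h4 : f y₁ = x - f y₀ := by
        rw [← hy, ← hyy, map_add]
        abel
      rw [h4]
      exact sub_mem x.2 (map_gen hf _ hy₀)
    have h5 : f y₁ = 0 := Submodule.disjoint_def.mp (isCompl_gen F₂).disjoint _ h3 h2
    refine ⟨⟨y₀, hy₀⟩, Subtype.ext ?_⟩
    rw [coe_genMap]
    change f y₀ = x
    rw [← hy, ← hyy, map_add, h5, add_zero]
  · rintro ⟨y, rfl⟩
    apply Subtype.ext
    rw [coe_genMap, coe_genMap]
    exact (h _).mpr ⟨_, rfl⟩

variable [CharZero E]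

/-- The linear extension of the cycle map, with values in the generalized eigenspace. -/
noncomputable def ext {M : Type w'} {N : Type w} [AddCommGroup M] [Module ℚ M] [AddCommGroup N]
    [Module E N] (c : M →+ N) : E ⊗[ℚ] M →ₗ[E] N :=
  letI : Module ℚ N := Module.compHom N (algebraMap ℚ E)
  haveI : IsScalarTower ℚ E N := ⟨fun a b x => by
    change (a • b) • x = algebraMap ℚ E a • (b • x)
    rw [Algebra.smul_def, mul_smul]⟩
  LinearMap.liftBaseChange E c.toRatLinearMap

lemma ext_tmul {M : Type w'} {N : Type w} [AddCommGroup M] [Module ℚ M] [AddCommGroup N]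
    [Module E N] (c : M →+ N) (x : E) (y : M) : ext c (x ⊗ₜ y) = x • c y := by
  let _ : Module ℚ N := Module.compHom N (algebraMap ℚ E)
  have _ : IsScalarTower ℚ E N := ⟨fun a b x => by
    change (a • b) • x = algebraMap ℚ E a • (b • x)
    rw [Algebra.smul_def, mul_smul]⟩
  exact LinearMap.liftBaseChange_tmul E c.toRatLinearMap x y

lemma range_ext {M : Type w'} {N : Type w} [AddCommGroup M] [Module ℚ M] [AddCommGroup N]
    [Module E N] (c : M →+ N) : LinearMap.range (ext (E := E) c) = Submodule.span E (Set.range c) := by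
  apply le_antisymm
  · rintro _ ⟨x, rfl⟩
    induction x using TensorProduct.induction_on with
    | zero => rw [map_zero]; exact zero_mem _
    | tmul x y =>
      rw [ext_tmul]
      exact Submodule.smul_mem _ _ (Submodule.subset_span ⟨y, rfl⟩)
    | add x y hx hy => rw [map_add]; exact add_mem hx hy
  · rw [Submodule.span_le]
    rintro _ ⟨y, rfl⟩
    exact ⟨1 ⊗ₜ y, by rw [ext_tmul, one_smul]⟩

lemma ext_mem_ker {M : Type w'} {N : Type w} [AddCommGroup M] [Module ℚ M] [AddCommGroup N]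
    [Module E N] {c : M →+ N} {F : N →ₗ[E] N} (h : ∀ y, F (c y) = c y) (x : E ⊗[ℚ] M) :
    F (ext c x) = ext c x := by
  induction x using TensorProduct.induction_on with
  | zero => simp
  | tmul x y => rw [ext_tmul, map_smul, h]
  | add x y hx hy => rw [map_add, map_add, hx, hy]

lemma ext_mem {M : Type w'} {N : Type w} [AddCommGroup M] [Module ℚ M] [AddCommGroup N]
    [Module E N] {c : M →+ N} {F : N →ₗ[E] N} (h : ∀ y, F (c y) = c y) (x : E ⊗[ℚ] M) :
    ext c x ∈ gen F := by
  rw [mem_gen]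
  refine ⟨1, ?_⟩
  rw [pow_one, LinearMap.sub_apply, ext_mem_ker h]
  simp

/-- The comparison map. -/
noncomputable def cmp {M : Type w'} {N : Type w} [AddCommGroup M] [Module ℚ M] [AddCommGroup N]
    [Module E N] (c : M →+ N) (F : N →ₗ[E] N) (h : ∀ y, F (c y) = c y) : E ⊗[ℚ] M →ₗ[E] gen F :=
  (ext c).codRestrict (gen F) (ext_mem h)

lemma coe_cmp {M : Type w'} {N : Type w} [AddCommGroup M] [Module ℚ M] [AddCommGroup N]
    [Module E N] (c : M →+ N) (F : N →ₗ[E] N) (h : ∀ y, F (c y) = c y) (x : E ⊗[ℚ] M) :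
    (cmp c F h x : N) = ext c x := rfl

lemma surj_iff {M : Type w'} {N : Type w} [AddCommGroup M] [Module ℚ M] [AddCommGroup N]
    [Module E N] (c : M →+ N) (F : N →ₗ[E] N) (h : ∀ y, F (c y) = c y) :
    Function.Surjective (cmp c F h) ↔ gen F = Submodule.span E (Set.range c) := by
  rw [← range_ext]
  constructor
  · intro hs
    apply le_antisymm
    · intro x hx
      obtain ⟨y, hy⟩ := hs ⟨x, hx⟩
      exact ⟨y, by rw [← coe_cmp c F h, hy]⟩
    · rintro _ ⟨y, rfl⟩
      exact ext_mem h y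
  · intro he x
    obtain ⟨y, hy⟩ := he.le x.2
    exact ⟨y, Subtype.ext (by rw [coe_cmp, hy])⟩

lemma inj_cmp_iff {M : Type w'} {N : Type w} [AddCommGroup M] [Module ℚ M] [AddCommGroup N]
    [Module E N] (c : M →+ N) (F : N →ₗ[E] N) (h : ∀ y, F (c y) = c y) :
    Function.Injective (cmp c F h) ↔ Function.Injective (ext (E := E) c) := by
  constructor
  · intro hi x y hxy
    exact hi (Subtype.ext (by rw [coe_cmp, coe_cmp, hxy]))
  · intro hi x y hxy
    exact hi (by rw [← coe_cmp c F h, ← coe_cmp c F h, hxy])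

lemma indep_of_inj {M : Type w'} {N : Type w} [AddCommGroup M] [Module ℚ M] [AddCommGroup N]
    [Module E N] (c : M →+ N) (hi : Function.Injective (ext (E := E) c)) {n : ℕ} (b : Fin n → M)
    (hb : LinearIndependent ℚ b) : LinearIndependent E fun l => c (b l) := by
  have h1 : LinearIndependent E fun l => (1 : E) ⊗ₜ[ℚ] b l := by
    have h2 : LinearIndependent E (Module.Basis.baseChange E (Module.Basis.span hb)) :=
      ((Module.Basis.span hb).baseChange E).linearIndependent
    have h3 : Function.Injective ((Submodule.span ℚ (Set.range b)).subtype.baseChange E) :=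
      Module.Flat.lTensor_preserves_injective_linearMap _ (Submodule.subtype_injective _)
    have h4 := h2.map' ((Submodule.span ℚ (Set.range b)).subtype.baseChange E)
      (LinearMap.ker_eq_bot.mpr h3)
    have h5 : (fun l => (1 : E) ⊗ₜ[ℚ] b l) =
        (⇑(LinearMap.baseChange E (Submodule.span ℚ (Set.range b)).subtype) ∘
          ⇑(Module.Basis.baseChange E (Module.Basis.span hb))) := by
      funext l
      simp [Module.Basis.baseChange_apply, Module.Basis.span_apply]
    rw [h5]
    exact h4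
  have h2 := h1.map' (ext (E := E) c) (LinearMap.ker_eq_bot.mpr hi)
  have h3 : (fun l => c (b l)) = (⇑(ext (E := E) c) ∘ fun l => (1 : E) ⊗ₜ[ℚ] b l) := by
    funext l
    simp [ext_tmul]
  rw [h3]
  exact h2

lemma inj_of_indep {M : Type w'} {N : Type w} [AddCommGroup M] [Module ℚ M] [AddCommGroup N]
    [Module E N] (c : M →+ N) {ι : Type*} (b : Module.Basis ι ℚ M)
    (hb : LinearIndependent E fun l => c (b l)) : Function.Injective (ext (E := E) c) := by
  have h1 : LinearIndependent E fun l => ext (E := E) c (b.baseChange E l) := by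
    have h0 : (fun l => ext (E := E) c (b.baseChange E l)) = fun l => c (b l) := by
      funext l
      simp [Module.Basis.baseChange_apply, ext_tmul]
    rw [h0]
    exact hb
  rw [← LinearMap.ker_eq_bot]
  rw [eq_bot_iff]
  intro x hx
  rw [LinearMap.mem_ker] at hx
  have h2 := (b.baseChange E).linearCombination_repr x
  have h3 : (b.baseChange E).repr x = 0 := by
    rw [linearIndependent_iff] at h1
    apply h1
    rw [← hx]
    conv_rhs => rw [← h2]
    rw [Finsupp.linearCombination_apply, Finsupp.linearCombination_apply, map_finsuppSum]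
    simp
  rw [← h2, h3, map_zero]
  exact zero_mem _

lemma finite_of_inj {M : Type w'} {N : Type w} [AddCommGroup M] [Module ℚ M] [AddCommGroup N]
    [Module E N] [Module.Finite E N] (c : M →+ N) (hi : Function.Injective (ext (E := E) c)) :
    Module.Finite ℚ M := by
  have : Module.Finite E (E ⊗[ℚ] M) := Module.Finite.of_injective (ext (E := E) c) hi
  have h1 : Module.rank E (E ⊗[ℚ] M) < Cardinal.aleph0 := Module.rank_lt_aleph0 E _
  rw [Module.rank_baseChange] at h1
  exact Module.rank_lt_aleph0_iff.mp (by simpa using h1)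

end lin

section pair

variable {k : Type} [Field k] {E : Type} [Field E] [CharZero E]

/-- The comparison maps for all pairs of degrees. -/
noncomputable def cmpData (T : CycleTheory.{w} k E)
    (hF : ∀ (i j : ℤ) (X : Sch k) c, T.F i j X (T.cl i j X c) = T.cl i j X c) :
    PairData.{w} k (ℤ × ℤ) E where
  A p X := ModuleCat.of E (E ⊗[ℚ] T.C p.1 p.2 X)
  B p X := ModuleCat.of E (gen (T.F p.1 p.2 X))
  ρ p X := ModuleCat.ofHom (cmp (T.cl p.1 p.2 X) (T.F p.1 p.2 X) (hF p.1 p.2 X))

variable {T : CycleTheory.{w} k E}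

lemma strongTate_iff (hT : IsCycleTheory T) {X : Sch k} (hX : FT True X) :
    StrongTate T X ↔ BijAll (cmpData T hT.fixed) X := by
  constructor
  · intro h p
    obtain ⟨i, j⟩ := p
    have h0 := h.fin i j
    change Function.Bijective (cmp (T.cl i j X) (T.F i j X) (hT.fixed i j X))
    constructor
    · rw [inj_cmp_iff]
      exact inj_of_indep _ (Module.finBasis ℚ (T.C i j X))
        (h.indep i j _ _ (Module.finBasis ℚ (T.C i j X)).linearIndependent)
    · rw [surj_iff]
      exact h.span i j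
  · intro h
    have h1 : ∀ i j, Function.Bijective (cmp (T.cl i j X) (T.F i j X) (hT.fixed i j X)) :=
      fun i j => h (i, j)
    refine ⟨fun i j => ?_, fun i j n c hc => ?_, fun i j => ?_⟩
    · have h2 := hT.fin X hX i j
      exact finite_of_inj _ ((inj_cmp_iff _ _ (hT.fixed i j X)).mp (h1 i j).1)
    · exact indep_of_inj _ ((inj_cmp_iff _ _ (hT.fixed i j X)).mp (h1 i j).1) c hc
    · exact (surj_iff _ _ (hT.fixed i j X)).mp (h1 i j).2

lemma cmp_natural {M M' : Type w} {N N' : Type w} [AddCommGroup M] [Module ℚ M] [AddCommGroup M']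
    [Module ℚ M'] [AddCommGroup N] [Module E N] [AddCommGroup N'] [Module E N'] {c : M →+ N}
    {c' : M' →+ N'} {F : N →ₗ[E] N} {F' : N' →ₗ[E] N'} (h : ∀ y, F (c y) = c y)
    (h' : ∀ y, F' (c' y) = c' y) (a : M →ₗ[ℚ] M') (b : N →ₗ[E] N') (hb : ∀ x, b (F x) = F' (b x))
    (hab : ∀ y, c' (a y) = b (c y)) :
    cmp c' F' h' ∘ₗ a.baseChange E = genMap b hb ∘ₗ cmp c F h := by
  refine LinearMap.ext fun x => Subtype.ext ?_
  rw [LinearMap.comp_apply, LinearMap.comp_apply, coe_cmp, coe_genMap, coe_cmp]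
  induction x using TensorProduct.induction_on with
  | zero => simp
  | tmul x y => rw [LinearMap.baseChange_tmul, ext_tmul, ext_tmul, map_smul, hab]
  | add x y hx hy => rw [map_add, map_add, map_add, map_add, hx, hy]

lemma exact_baseChange {M₁ M₂ M₃ : Type w} [AddCommGroup M₁] [Module ℚ M₁] [AddCommGroup M₂]
    [Module ℚ M₂] [AddCommGroup M₃] [Module ℚ M₃] (f : M₁ →ₗ[ℚ] M₂) (g : M₂ →ₗ[ℚ] M₃)
    (h : Function.Exact f g) : Function.Exact (f.baseChange E) (g.baseChange E) :=
  Module.Flat.lTensor_exact E h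

/-- The equivalence of the generalized eigenspaces. -/
noncomputable def genEquiv {N N' : Type w} [AddCommGroup N] [Module E N] [AddCommGroup N']
    [Module E N'] {F : N →ₗ[E] N} {F' : N' →ₗ[E] N'} (e : N ≃ₗ[E] N')
    (h : ∀ x, e (F x) = F' (e x)) : gen F ≃ₗ[E] gen F' :=
  LinearEquiv.ofLinear (genMap e.toLinearMap h)
    (genMap e.symm.toLinearMap (F := F') (F' := F) (by
      intro x
      apply e.injective
      simp [h]))
    (by ext x; simp [coe_genMap]) (by ext x; simp [coe_genMap])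

lemma sameAt_of_same (hT : IsCycleTheory T) {i j : ℤ} {X : Sch k} {i' j' : ℤ} {Y : Sch k}
    (h : Same T i j X i' j' Y) : SameAt (cmpData T hT.fixed) (i, j) X (i', j') Y := by
  obtain ⟨e, e', h1, h2⟩ := h
  refine ⟨LinearEquiv.toModuleIso (LinearEquiv.baseChange ℚ E _ _ e.toLinearEquiv),
    LinearEquiv.toModuleIso (genEquiv e'.toLinearEquiv h1), ?_⟩
  apply ModuleCat.hom_ext
  exact cmp_natural (hT.fixed i j X) (hT.fixed i' j' Y) e.hom.hom e'.hom.hom h1 h2

/-- The shift `(i, j) ↦ (i, j - 1)`. -/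
noncomputable def shift : ℤ × ℤ ≃ ℤ × ℤ := Equiv.prodCongr (Equiv.refl ℤ) (Equiv.subRight 1)

lemma lesPair_of_localization (hT : IsCycleTheory T) {Z X U : Sch k} (hZ : FT True Z)
    (hX : FT True X) (hU : FT True U) (h : ∀ m, Localization T m Z X U) :
    LesPair (cmpData T hT.fixed) shift Z X U := by
  choose a b ha hb hC using h
  have hF : ∀ (m j : ℤ), (∀ x, ((b m).f j).hom (T.F m j Z x) = T.F m j X (((b m).f j).hom x)) ∧
      (∀ x, ((b m).g j).hom (T.F m j X x) = T.F m j U (((b m).g j).hom x)) ∧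
      ∀ x, ((b m).h j).hom (T.F m j U x) = T.F m (j - 1) Z (((b m).h j).hom x) :=
    fun m j => ⟨(hC m j).1.frob, (hC m j).2.1.frob, (hC m j).2.2.frob⟩
  have hc : ∀ (m j : ℤ), (∀ c, T.cl m j X (((a m).f j).hom c) = ((b m).f j).hom (T.cl m j Z c)) ∧
      (∀ c, T.cl m j U (((a m).g j).hom c) = ((b m).g j).hom (T.cl m j X c)) ∧
      ∀ c, T.cl m (j - 1) Z (((a m).h j).hom c) = ((b m).h j).hom (T.cl m j U c) :=
    fun m j => ⟨(hC m j).1.cl, (hC m j).2.1.cl, (hC m j).2.2.cl⟩
  refine ⟨⟨fun p => ModuleCat.ofHom (((a p.1).f p.2).hom.baseChange E),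
    fun p => ModuleCat.ofHom (((a p.1).g p.2).hom.baseChange E),
    fun p => ModuleCat.ofHom (((a p.1).h p.2).hom.baseChange E)⟩,
    ⟨fun p => ModuleCat.ofHom (genMap ((b p.1).f p.2).hom (hF p.1 p.2).1),
    fun p => ModuleCat.ofHom (genMap ((b p.1).g p.2).hom (hF p.1 p.2).2.1),
    fun p => ModuleCat.ofHom (genMap ((b p.1).h p.2).hom (hF p.1 p.2).2.2)⟩, ?_, ?_, ?_⟩
  · exact ⟨fun p => exact_baseChange _ _ ((ha p.1).fg p.2),
      fun p => exact_baseChange _ _ ((ha p.1).gh p.2),
      fun p => exact_baseChange _ _ ((ha p.1).hf p.2)⟩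
  · have hfZ := hT.fin Z hZ
    have hfX := hT.fin X hX
    have hfU := hT.fin U hU
    exact ⟨fun p => exact_gen _ _ (hF p.1 p.2).1 (hF p.1 p.2).2.1 ((hb p.1).fg p.2),
      fun p => exact_gen _ _ (hF p.1 p.2).2.1 (hF p.1 p.2).2.2 ((hb p.1).gh p.2),
      fun p => exact_gen _ _ (hF p.1 p.2).2.2 (hF p.1 (p.2 - 1)).1 ((hb p.1).hf p.2)⟩
  · constructor
    · intro p
      apply ModuleCat.hom_ext
      exact cmp_natural (hT.fixed _ _ _) (hT.fixed _ _ _) _ _ (hF p.1 p.2).1 (hc p.1 p.2).1
    · intro p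
      apply ModuleCat.hom_ext
      exact cmp_natural (hT.fixed _ _ _) (hT.fixed _ _ _) _ _ (hF p.1 p.2).2.1 (hc p.1 p.2).2.1
    · intro p
      apply ModuleCat.hom_ext
      exact cmp_natural (hT.fixed _ _ _) (hT.fixed _ _ _) _ _ (hF p.1 p.2).2.2 (hc p.1 p.2).2.2

lemma ft_comp {Y X : Sch k} (f : Y ⟶ X) (h1 : LocallyOfFiniteType f.left)
    (h2 : QuasiCompact f.left) (h3 : IsSeparated f.left) (hX : FT True X) : FT True Y where
  locallyOfFiniteType := by
    have := hX.locallyOfFiniteType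
    rw [← Over.w f]
    infer_instance
  quasiCompact := by
    have := hX.quasiCompact
    rw [← Over.w f]
    infer_instance
  separated _ := by
    have := hX.separated trivial
    rw [← Over.w f]
    infer_instance

lemma ft_iso {X Y : Sch k} (e : X ≅ Y) (hX : FT True X) : FT True Y := by
  have h : IsIso e.inv.left := (Over.forget _).map_isIso e.inv
  exact ft_comp e.inv inferInstance inferInstance inferInstance hX

lemma ft_closed {Z X U : Sch k} {i : Z ⟶ X} {j : U ⟶ X} (hX : FT True X) (ht : IsTriple i j) :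
    FT True Z := by
  have := ht.closed
  exact ft_comp i inferInstance inferInstance inferInstance hX

lemma ft_opened {Z X U : Sch k} {i : Z ⟶ X} {j : U ⟶ X} (hX : FT True X) (ht : IsTriple i j) :
    FT True U := by
  have := ht.opened
  have := hX.locallyOfFiniteType
  have : IsLocallyNoetherian X.left := LocallyOfFiniteType.isLocallyNoetherian X.hom
  exact ft_comp j inferInstance inferInstance inferInstance hX

/-- **The closure properties.** -/
theorem strongTate_built (hT : IsCycleTheory T) {P : Sch k → Prop} {X : Sch k} (hX : Built P X)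
    (hP : ∀ Y, FT True Y → P Y → StrongTate T Y) : FT True X ∧ StrongTate T X := by
  induction hX with
  | of hX h => exact ⟨hX, hP _ hX h⟩
  | iso hX e h ih =>
    have hY := ft_iso e hX
    refine ⟨hY, (strongTate_iff hT hY).mpr fun p => ?_⟩
    exact (sameAt_of_same hT (hT.iso hX ⟨e⟩ p.1 p.2)).iff.mp ((strongTate_iff hT hX).mp ih.2 p)
  | total i j hX ht h1 h2 ih1 ih2 =>
    have hL := lesPair_of_localization hT (ft_closed hX ht) hX (ft_opened hX ht) (hT.les i j hX ht)
    exact ⟨hX, (strongTate_iff hT hX).mpr (hL.mid ((strongTate_iff hT ih1.1).mp ih1.2)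
      ((strongTate_iff hT ih2.1).mp ih2.2))⟩
  | opened i j hX ht h1 h2 ih1 ih2 =>
    have hU := ft_opened hX ht
    have hL := lesPair_of_localization hT (ft_closed hX ht) hX hU (hT.les i j hX ht)
    exact ⟨hU, (strongTate_iff hT hU).mpr (hL.right ((strongTate_iff hT ih1.1).mp ih1.2)
      ((strongTate_iff hT ih2.1).mp ih2.2))⟩
  | closed i j hX ht h1 h2 ih1 ih2 =>
    have hZ := ft_closed hX ht
    have hL := lesPair_of_localization hT hZ hX (ft_opened hX ht) (hT.les i j hX ht)
    exact ⟨hZ, (strongTate_iff hT hZ).mpr (hL.left ((strongTate_iff hT ih1.1).mp ih1.2)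
      ((strongTate_iff hT ih2.1).mp ih2.2))⟩
  | bundle n π hE hX hπ h ih =>
    refine ⟨hE, (strongTate_iff hT hE).mpr fun p => ?_⟩
    obtain ⟨i, j⟩ := p
    have h1 := (sameAt_of_same hT (hT.bundle n π hE hX hπ (i - n) j)).iff
    rw [sub_add_cancel] at h1
    exact h1.mpr ((strongTate_iff hT hX).mp ih.2 (i - n, j))
  | base n π hE hX hπ h ih =>
    refine ⟨hX, (strongTate_iff hT hX).mpr fun p => ?_⟩
    exact (sameAt_of_same hT (hT.bundle n π hE hX hπ p.1 p.2)).iff.mp
      ((strongTate_iff hT hE).mp ih.2 (p.1 + n, p.2))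

/-- The order of the pole of the `L`-function. -/
theorem order_lFunction {q : ℕ} (hq : 1 < q) (i : ℤ) (P : ℂ[X]) :
    meromorphicOrderAt (lFunction q i P) (i : ℂ) =
      ((-(P.rootMultiplicity 1 : ℤ) : ℤ) : WithTop ℤ) := by
  classical
  have hqC : (q : ℂ) ≠ 0 := by exact_mod_cast (ne_of_gt (lt_trans Nat.zero_lt_one hq))
  have h1 := (Pool.Agent.J4H9.BS.order_prod P.roots
    (fun z s => (1 - z * (q : ℂ) ^ i * (q : ℂ) ^ (-s))⁻¹) (i : ℂ)
    (fun z => -(if z = 1 then 1 else 0)) (fun z _ =>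
      ((Pool.Agent.J4H9.BS.analytic_factor hq (z * (q : ℂ) ^ i) i).meromorphicAt).inv)
    (fun z _ => by
      have h2 := Pool.Agent.J4H9.BS.order_factor hq (z * (q : ℂ) ^ i) i
      have h3 : (z * (q : ℂ) ^ i = (q : ℂ) ^ i) ↔ z = 1 := by
        constructor
        · intro h
          exact mul_right_cancel₀ (zpow_ne_zero i hqC) (by rw [h, one_mul])
        · rintro rfl
          rw [one_mul]
      have h4 := meromorphicOrderAt_inv (f := fun s : ℂ => 1 - z * (q : ℂ) ^ i * (q : ℂ) ^ (-s))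
        (x := (i : ℂ))
      rw [h2] at h4
      simp only [h3] at h4
      rw [show (fun s : ℂ => (1 - z * (q : ℂ) ^ i * (q : ℂ) ^ (-s))⁻¹) =
        (fun s : ℂ => 1 - z * (q : ℂ) ^ i * (q : ℂ) ^ (-s))⁻¹ from rfl, h4]
      rfl)).2
  rw [show (lFunction q i P) = fun s : ℂ => (P.roots.map fun z =>
    (1 - z * (q : ℂ) ^ i * (q : ℂ) ^ (-s))⁻¹).prod from rfl, h1]
  congr 1
  rw [← Polynomial.count_roots]
  generalize P.roots = R
  induction R using Multiset.induction_on with
  | empty => simp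
  | cons z R ih =>
    rw [Multiset.map_cons, Multiset.sum_cons, ih, Multiset.count_cons]
    by_cases h : z = 1
    · simp [h, add_comm]
    · simp [h, Ne.symm h]

/-- The conjectures of Jannsen. -/
theorem jannsen_of_strongTate [Finite k] (hT : IsCycleTheory T) {X : Sch k} (hX : FT True X)
    (h : StrongTate T X) (i : ℤ) : Jannsen T i X := by
  have h0 := h.fin i 0
  have hf := hT.fin X hX i 0
  let B := Module.finBasis ℚ (T.C i 0 X)
  let b : Fin (Module.finrank ℚ (T.C i 0 X)) → T.H i 0 X := fun l => T.cl i 0 X (B l)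
  have hli : LinearIndependent E b := h.indep i 0 _ _ B.linearIndependent
  have hsum : ∀ r : Fin (Module.finrank ℚ (T.C i 0 X)) → ℚ,
      T.cl i 0 X (∑ l, r l • B l) = ∑ l, (r l : E) • b l := by
    intro r
    rw [map_sum]
    refine Finset.sum_congr rfl fun l _ => ?_
    rw [← ext_tmul (E := E) (T.cl i 0 X) (r l : E) (B l)]
    rw [← one_smul E (T.cl i 0 X (r l • B l)), ← ext_tmul (E := E) (T.cl i 0 X)]
    rw [TensorProduct.tmul_smul, TensorProduct.smul_tmul']
    congr 2
    rw [Algebra.smul_def, mul_one]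
    rfl
  have hcl : ∀ x, (∃ c, T.cl i 0 X c = x) ↔
      ∃ r : Fin (Module.finrank ℚ (T.C i 0 X)) → ℚ, x = ∑ l, (r l : E) • b l := by
    intro x
    constructor
    · rintro ⟨c, rfl⟩
      refine ⟨fun l => B.repr c l, ?_⟩
      rw [← hsum, B.sum_repr]
    · rintro ⟨r, rfl⟩
      exact ⟨_, hsum r⟩
  have hspan : Submodule.span E (Set.range b) = Submodule.span E (Set.range (T.cl i 0 X)) := by
    apply le_antisymm
    · apply Submodule.span_mono
      rintro _ ⟨l, rfl⟩
      exact ⟨_, rfl⟩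
    · rw [Submodule.span_le]
      rintro _ ⟨c, rfl⟩
      obtain ⟨r, hr⟩ := (hcl _).mp ⟨c, rfl⟩
      rw [hr]
      exact Submodule.sum_mem _ fun l _ => Submodule.smul_mem _ _ (Submodule.subset_span ⟨l, rfl⟩)
  have hker : LinearMap.ker (T.F i 0 X - 1) ≤ Module.End.maxGenEigenspace (T.F i 0 X) 1 := by
    intro x hx
    exact mem_gen.mpr ⟨1, by rw [pow_one]; exact hx⟩
  have hrank : Module.finrank E (Module.End.maxGenEigenspace (T.F i 0 X) 1) =
      Module.finrank ℚ (T.C i 0 X) := by
    rw [h.span i 0, ← hspan, finrank_span_eq_card hli, Fintype.card_fin]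
  refine ⟨_, b, ⟨hcl, hli⟩, ?_, hrank, hf, fun σ => ?_⟩
  · rw [hspan]
    apply le_antisymm
    · rw [Submodule.span_le]
      rintro _ ⟨c, rfl⟩
      rw [SetLike.mem_coe, fixed, LinearMap.mem_ker, LinearMap.sub_apply, hT.fixed]
      simp
    · rw [← h.span i 0]
      exact hker
  · rw [order_lFunction Finite.one_lt_card, ← hrank, LinearMap.finrank_maxGenEigenspace_eq,
      Polynomial.eq_rootMultiplicity_map σ.injective, map_one]

end pair

end Pool.Agent.J4H9.SV
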