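import Mathlib
import Pool.Agent.J4H9.SVClo
import Pool.Agent.J4H9.BSComb

/-!
# The conjectures of Jannsen for almost all isogeny classes of abelian varieties
-/

set_option autoImplicit false

open CategoryTheory CategoryTheory.Limits AlgebraicGeometry Polynomial Pool.Agent.Y116.UV
  Pool.Agent.J4H9.NAll Pool.Agent.J4H9.NGauss Pool.Agent.J4H9.NStm
open Pool.Agent.J4H9.BS (IsAbelianVariety IsWeilPolynomial NoExotic noExotic_fam)

universe w

namespace Pool.Agent.J4H9.SV

/-- The conjectures of Jannsen (`Jannsen`), and the bijectivity of the cycle maps on the higher Chow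
groups (`StrongTate`), for all schemes over the field `k` with `q` elements that are built from the
abelian varieties in `IsMember q b f`, and from other schemes with the property `StrongTate`. Here `T`
is the family of the cycle maps, with the known properties `IsCycleTheory` (Bloch, Levine) and
`AbelianTheorem` (Tate, Soulé, Kahn). -/
def SingularTateFor {I : Type} (q b : ℕ) (f : I → ℤ[X]) : Prop :=
  ∀ (k : Type) [Field k] [Finite k] (E : Type) [Field E] [CharZero E] (T : CycleTheory.{w} k E),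
    Nat.card k = q → IsCycleTheory T → AbelianTheorem T → ∀ X : Sch k,
      Built (fun Y => IsMember q b f Y ∨ StrongTate T Y) X → StrongTate T X ∧ ∀ i, Jannsen T i X

theorem singular_fam {I : Type} [Finite I] {q g b : ℕ} (hq : 0 < q) {f : I → ℤ[X]}
    (hf : FamOK q g b f) : SingularTateFor.{w} q b f := by
  intro k _ _ E _ _ T hk hT hA X hX
  have h : FT True X ∧ StrongTate T X := by
    refine strongTate_built hT hX ?_
    rintro Y - (⟨s, k', _, _, _, B, h₁, h₂, hs, hk', hB, hw, hm1, hm2, hr, hb, h2, rfl⟩ | h)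
    · refine hA k' B _ hB hw ?_
      rw [hk']
      refine noExotic_fam hq hf hs hm1 hm2 (fun z hz => ?_) hr hb h2
      have h1 := hw.norm z hz
      rw [hk'] at h1
      exact h1
    · exact h
  exact ⟨h.2, fun i => jannsen_of_strongTate hT h.1 h.2 i⟩

theorem singular_main {μ ε : ℝ} (hμ : 0 < μ) (hμ1 : μ ≤ 1 / 2) (hε : 0 < ε)
    (hε1 : ε < μ / 4) :
    ∃ g₀ : ℕ, ∀ g : ℕ, g₀ ≤ g → ∀ p a : ℕ, p.Prime → 0 < a → ∀ lam : ℕ → ℝ, Slopes lam →
      ∑ i ∈ Finset.range g, lam i ≤ (1 / 2 - μ) * g →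
      ∀ E : Finset ℕ, (∀ j ∈ E, 0 < j ∧ j ≤ g ∧
        ∃ n : ℕ, (a : ℝ) * ∑ i ∈ Finset.range j, lam i = n) →
      ((newtonAbove p a lam g).Finite ∧
        (64 ≤ ((p ^ a : ℕ) : ℝ) ^ (μ / 2) → 0 < (newtonThrough p a lam g E).ncard)) ∧
      ∀ (S : Set ℤ[X]) (D : ℝ), S ⊆ newtonAbove p a lam g → 1 ≤ D →
        ((newtonThrough p a lam g E).ncard : ℝ) ≤ D * S.ncard → ∀ m : ℕ,
        ({f : Fin m → ℤ[X] | (∀ i, f i ∈ S) ∧ ¬ SingularTateFor.{w} (p ^ a) (g / 2) f}.ncard : ℝ) ≤
          (m : ℝ) ^ 2 * D * 2 ^ E.card * 8 ^ g *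
            ((p ^ a : ℕ) : ℝ) ^ (-((μ / 4 - ε) * g)) * (S.ncard : ℝ) ^ m := by
  have h := main_pred (κ := 1 / 2) le_rfl (by norm_num) hμ hμ1 hε (by linarith)
    (fun q b _ f => SingularTateFor.{w} q b f)
    fun _ _ _ _ _ hq _ hf => singular_fam hq hf
  have h6 : (μ * (1 - 1 / 2 : ℝ) / 2 - ε) = μ / 4 - ε := by ring
  have h7 : ∀ g : ℕ, ⌊(1 / 2 : ℝ) * g⌋₊ = g / 2 := by
    intro g
    have h8 : (1 / 2 : ℝ) * g = (g : ℝ) / (2 : ℕ) := by push_cast; ring
    rw [h8, Nat.floor_div_natCast, Nat.floor_natCast]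
  simp only [h6, h7] at h
  exact h

end Pool.Agent.J4H9.SV
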